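import Mathlib
import Pool.Agent.Lib.MP_551055_al.Trim.LS.PStmts
import Pool.Agent.Lib.MP_551055_al.Trim.LS.Stmts
import Pool.Agent.Lib.MP_551055_al.Trim.MT.Defs
import Pool.Agent.Lib.MP_551055_al.Trim.MT.Trees

/-!
# Trees and products: definitions

Complexes with control in a set `U` of directions all of whose sizes in the directions of `U` are
cells (vertices or edges). The properties `SpC` (idempotents split), `LtC` (lattices) and `LL`.
The cell functor `phi`.
-/

set_option autoImplicit false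

namespace Pool.Agent.Lib.MP_551055_al
end Pool.Agent.Lib.MP_551055_al

namespace Pool.Agent.Lib.MP_551055_al.LS
end Pool.Agent.Lib.MP_551055_al.LS

namespace Pool.Agent.Lib.MP_551055_al.MT
end Pool.Agent.Lib.MP_551055_al.MT

namespace Pool.Agent.Lib.MP_551055_al.W17

open Pool.Agent.Lib.MP_551055_al

open Pool.Agent.Lib.MP_551055_al.LS (TreeAct ZN)

open Pool.Agent.Lib.MP_551055_al.MT

open Matrix

/-! ## Cells -/

section

variable {Γ : Type} [Group Γ] {V : Type} [MulAction Γ V] {T : SimpleGraph V} (h : TreeAct Γ V T)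

/-- `A` is a vertex. -/
def IsV (A : Sub h) : Prop := ∃ v, A = vtx h v

/-- `A` is an edge. -/
def IsE (A : Sub h) : Prop := ∃ u v, T.Adj u v ∧ A = edg h u v

/-- `A` is a cell. -/
def Cl (A : Sub h) : Prop := IsV h A ∨ IsE h A

end

section

variable {Γ : Type} [Group Γ] {D : Type} {V : D → Type} [∀ i, MulAction Γ (V i)]
  {T : ∀ i, SimpleGraph (V i)} (h : ∀ i, TreeAct Γ (V i) (T i))

/-- All sizes in the directions of `U` are cells. -/
def Cel (U : Finset D) (X : Ob (SP h)) : Prop := ∀ l, ∀ i ∈ U, Cl (h i) (X.sz l i)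

variable [DecidableEq D]

/-- Homotopy idempotents with control in `U` which are null-homotopic over all `U - {i}` split. -/
def SpC {G : Type} [Group G] (π : G →* Γ) (U : Finset D) : Prop :=
  ∀ (K : Co (SP h) G) (e : Matrix K.ι K.ι (ZM G)), IsCx π U K → Cel h U K.toOb → HI π U K e →
    (∀ i ∈ U, Nul π (U.erase i) K K e) →
    ∃ M : Co (SP h) G, IsCx π U M ∧ Cel h U M.toOb ∧ Iso π U K e M 1

/-- The same with one more direction `j` of control. -/
def SpJ {G : Type} [Group G] (π : G →* Γ) (U : Finset D) (j : D) : Prop :=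
  ∀ (K : Co (SP h) G) (e : Matrix K.ι K.ι (ZM G)), IsCx π (insert j U) K →
    Cel h (insert j U) K.toOb → HI π (insert j U) K e →
    (∀ i ∈ U, Nul π ((insert j U).erase i) K K e) →
    ∃ M : Co (SP h) G, IsCx π (insert j U) M ∧ Cel h (insert j U) M.toOb ∧
      Iso π (insert j U) K e M 1

/-- Complexes over `ℤ[G × ℤ]` with control in `U` which are contractible over all `U - {i}` have
lattices over `ℤ[G × ℕ]`. -/
def LtC {G : Type} [Group G] (π : G →* Γ) (U : Finset D) : Prop :=
  ∀ M : Co (SP h) (GZ G), IsCx (pZ π) U M → Cel h U M.toOb →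
    (∀ i ∈ U, Contr (pZ π) (U.erase i) M) →
    ∃ M₁ : Co (SP h) (GN G), IsCx (pN π) U M₁ ∧ Cel h U M₁.toOb ∧
      (∀ i ∈ U, Contr (pN π) (U.erase i) M₁) ∧ Iso (pZ π) U (M₁.map (loc G)) 1 M 1

/-- The same with one more direction `j` of control. -/
def LtJ {G : Type} [Group G] (π : G →* Γ) (U : Finset D) (j : D) : Prop :=
  ∀ M : Co (SP h) (GZ G), IsCx (pZ π) (insert j U) M → Cel h (insert j U) M.toOb →
    (∀ i ∈ U, Contr (pZ π) ((insert j U).erase i) M) →
    ∃ M₁ : Co (SP h) (GN G), IsCx (pN π) (insert j U) M₁ ∧ Cel h (insert j U) M₁.toOb ∧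
      (∀ i ∈ U, Contr (pN π) ((insert j U).erase i) M₁) ∧
      Iso (pZ π) (insert j U) (M₁.map (loc G)) 1 M 1

/-- Both properties for all `G × ℤ^m`. -/
def LL {G : Type} [Group G] (π : G →* Γ) (U : Finset D) : Prop :=
  ∀ m : ℕ, SpC h (π.comp (MonoidHom.fst G (ZN m))) U ∧
    LtC h (π.comp (MonoidHom.fst G (ZN m))) U

end

/-- The stabiliser of `A` in `G`. -/
abbrev St {Γ : Type} [Group Γ] {G : Type} [Group G] (π : G →* Γ) {Z : Type} [MulAction Γ Z]
    (A : Z) : Subgroup G := (MulAction.stabilizer Γ A).comap π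

/-- The homomorphism of the stabiliser. -/
abbrev stH {Γ : Type} [Group Γ] {G : Type} [Group G] (π : G →* Γ) {Z : Type} [MulAction Γ Z]
    (A : Z) : St π A →* Γ := π.comp (St π A).subtype

/-! ## The cell functor -/

section

variable {N : Type} [Monoid N]

open Classical in
/-- The part of `x` with the terms in `p`. -/
noncomputable def filt (p : N → Prop) (x : ZM N) : ZM N :=
  MonoidAlgebra.ofCoeff (x.coeff.filter p)

/-- `(-1) ^ n`. -/
def sgn (n : ℤ) : ℤ := ((Int.negOnePow n : ℤˣ) : ℤ)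

end

section

variable {Γ : Type} [Group Γ] {V : Type} [MulAction Γ V] {T : SimpleGraph V} (h : TreeAct Γ V T)

/-- Cells and flags. -/
abbrev ZZ : Type := Sub h ⊕ (Sub h × Sub h)

/-- The cell or the flag is contained in `A`. -/
def RZ : ZZ h → Sub h → Prop
  | Sum.inl σ, A => Cl h σ ∧ σ ≤ A
  | Sum.inr f, A => IsV h f.1 ∧ IsE h f.2 ∧ f.1 ≤ f.2 ∧ f.2 ≤ A

/-- The size of a cell is the cell, the size of a flag is its vertex. -/
def szZ : ZZ h → Sub h
  | Sum.inl σ => σ
  | Sum.inr f => f.1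

/-- The degree. -/
def dgZ : ZZ h → ℤ
  | Sum.inl _ => 0
  | Sum.inr _ => 1

open Classical in
/-- The boundary of the flag `(v, e)` is `e - v`. -/
noncomputable def bdZ : ZZ h → ZZ h → ℤ
  | Sum.inr f, Sum.inl σ => (if σ = f.2 then 1 else 0) - (if σ = f.1 then 1 else 0)
  | _, _ => 0

theorem fin_le (A : Sub h) : {σ : Sub h | σ ≤ A}.Finite :=
  SzRk.fin (Γ := Γ) (P := SP (fun _ : Unit => h)) () A

instance finRZ (A : Sub h) : Finite {z : ZZ h // RZ h z A} := by
  have h1 : Finite {σ : Sub h // σ ≤ A} := fin_le h A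
  have h2 : Finite ({σ : Sub h // σ ≤ A} ⊕ ({σ : Sub h // σ ≤ A} × {σ : Sub h // σ ≤ A})) :=
    inferInstance
  refine Finite.of_injective (β := {σ : Sub h // σ ≤ A} ⊕
    ({σ : Sub h // σ ≤ A} × {σ : Sub h // σ ≤ A})) (fun z => ?_) ?_
  · rcases z with ⟨σ | f, hz⟩
    · exact Sum.inl ⟨σ, hz.2⟩
    · exact Sum.inr (⟨f.1, hz.2.2.1.trans hz.2.2.2⟩, ⟨f.2, hz.2.2.2⟩)
  · rintro ⟨σ | f, hz⟩ ⟨σ' | f', hz'⟩ hh
    · have := congrArg Subtype.val (Sum.inl.inj hh)
      subst this
      rfl
    · exact absurd hh (by simp)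
    · exact absurd hh (by simp)
    · have h3 := Sum.inr.inj hh
      have h4 : f.1 = f'.1 := congrArg (fun x => (Prod.fst x).1) h3
      have h5 : f.2 = f'.2 := congrArg (fun x => (Prod.snd x).1) h3
      have h6 : f = f' := Prod.ext h4 h5
      subst h6
      rfl

end

section

variable {Γ : Type} [Group Γ] {D : Type} [DecidableEq D] {V : D → Type} [∀ i, MulAction Γ (V i)]
  {T : ∀ i, SimpleGraph (V i)} (h : ∀ i, TreeAct Γ (V i) (T i)) {N : Type} [Monoid N]

/-- The index type of the cell functor. -/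
abbrev PhI {i : D} {ι : Type} (s : ι → Sub (h i)) : Type := Σ l : ι, {z : ZZ (h i) // RZ (h i) z (s l)}

/-- The cell functor in the direction `i` on objects; `s l` is the size of `l` in the
direction `i`. -/
noncomputable def phiO (i : D) (X : Ob (SP h)) (s : X.ι → Sub (h i)) : Ob (SP h) where
  ι := PhI h s
  ft := Fintype.ofFinite _
  de := Classical.decEq _
  deg x := X.deg x.1 + dgZ (h i) x.2.1
  sz x := Function.update (X.sz x.1) i (szZ (h i) x.2.1)

/-- The cell functor on matrices. -/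
noncomputable def phiM (π : N →* Γ) (i : D) {X Y : Ob (SP h)} (s : X.ι → Sub (h i))
    (t : Y.ι → Sub (h i)) (f : Matrix X.ι Y.ι (ZM N)) :
    Matrix (phiO h i X s).ι (phiO h i Y t).ι (ZM N) :=
  fun (a : PhI h s) (b : PhI h t) => filt (fun m => a.2.1 = π m • b.2.1) (f a.1 b.1)

open Classical in
/-- The internal differential. -/
noncomputable def phiB (N : Type) [Monoid N] (i : D) (X : Ob (SP h)) (s : X.ι → Sub (h i)) :
    Matrix (phiO h i X s).ι (phiO h i X s).ι (ZM N) :=
  fun (a : PhI h s) (b : PhI h s) => if a.1 = b.1 then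
    MonoidAlgebra.single 1 (sgn (X.deg a.1) * bdZ (h i) a.2.1 b.2.1) else 0

/-- The cell functor on complexes. -/
noncomputable def phi (π : N →* Γ) (i : D) (X : Co (SP h) N) (s : X.ι → Sub (h i)) :
    Co (SP h) N where
  toOb := phiO h i X.toOb s
  d := phiM h π i s s X.d + phiB h N i X.toOb s

open Classical in
/-- The augmentation. -/
noncomputable def phiA (N : Type) [Monoid N] (i : D) (X : Ob (SP h)) (s : X.ι → Sub (h i)) :
    Matrix (phiO h i X s).ι X.ι (ZM N) :=
  fun (a : PhI h s) k => if a.1 = k ∧ dgZ (h i) a.2.1 = 0 then 1 else 0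

end

end Pool.Agent.Lib.MP_551055_al.W17
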