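import Mathlib
import Pool.Agent.Lib.MP_551055_al.Trim.LS.BassProj
import Pool.Agent.Lib.MP_551055_al.Trim.LS.PStmts
import Pool.Agent.Lib.MP_551055_al.Trim.LS.Stmts
import Pool.Agent.Lib.MP_551055_al.Trim.MT.Defs
import Pool.Agent.Lib.MP_551055_al.Trim.MT.Trees
import Pool.Agent.Lib.MP_551055_al.Trim.VNDefs
import Pool.Agent.Lib.MP_551055_al.Trim.W17.Defs

/-!
# Trees and products: the statements of part F (the theorems)
-/

set_option autoImplicit false

namespace Pool.Agent.Lib.MP_551055_al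
end Pool.Agent.Lib.MP_551055_al

namespace Pool.Agent.Lib.MP_551055_al.LS
end Pool.Agent.Lib.MP_551055_al.LS

namespace Pool.Agent.Lib.MP_551055_al.MT
end Pool.Agent.Lib.MP_551055_al.MT

namespace Pool.Agent.Lib.MP_551055_al.W17

open Pool.Agent.Lib.MP_551055_al

open Pool.Agent.Lib.MP_551055_al.LS (TreeAct ZN)

open Pool.Agent.Lib.MP_551055_al.MT

open Matrix

/-- The finitely generated projective modules over all `ℤ[G × ℤ^m]` are stably free. -/
def SF (G : Type) [Group G] : Prop := ∀ m, VN.ProjStFree (G × ZN m)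

/-! ## General statements about `LL` -/

section

variable {Γ : Type} [Group Γ] {D : Type} {V : D → Type} [∀ i, MulAction Γ (V i)]
  {T : ∀ i, SimpleGraph (V i)} (h : ∀ i, TreeAct Γ (V i) (T i)) {G : Type} [Group G]

/-- The elements of `G` which fix the subtrees `A j`, `j ∈ J`. -/
def StJ (π : G →* Γ) (A : ∀ j, Sub (h j)) (J : Finset D) : Subgroup G where
  carrier := {g | ∀ j ∈ J, π g • A j = A j}
  one_mem' := fun j _ => by rw [map_one, one_smul]
  mul_mem' := fun {a b} ha hb j hj => by rw [map_mul, mul_smul, hb j hj, ha j hj]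
  inv_mem' := fun {a} ha j hj => by rw [map_inv, inv_smul_eq_iff, ha j hj]

end

/-- Module FFin. The end: no control. -/
def StFFin : Prop :=
  ∀ (Γ : Type) [Group Γ] (D : Type) [DecidableEq D] (V : D → Type) [∀ i, MulAction Γ (V i)]
    (T : ∀ i, SimpleGraph (V i)) (h : ∀ i, TreeAct Γ (V i) (T i)) (G : Type) [Group G]
    (π : G →* Γ), SpC h π ∅ → VN.ProjStFree G

/-- Module FDn. Downward induction over the directions in `P`. -/
def StFDn : Prop :=
  ∀ (Γ : Type) [Group Γ] (D : Type) [DecidableEq D] (V : D → Type) [∀ i, MulAction Γ (V i)]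
    (T : ∀ i, SimpleGraph (V i)) (h : ∀ i, TreeAct Γ (V i) (T i)) (G : Type) [Group G]
    (π : G →* Γ) (U P : Finset D), Disjoint U P →
    (∀ J ⊆ P, ∀ A : ∀ j, Sub (h j), (∀ j ∈ J, Cl (h j) (A j)) →
      LL h (π.comp (StJ h π A J).subtype) (U ∪ (P \ J))) → LL h π U

/-! ## Two families of trees -/

section

variable {D D' : Type} {V : D → Type} {V' : D' → Type}

/-- The action of the product on both families. -/
instance actS (Γ Γ' : Type) [Group Γ] [Group Γ'] [a : ∀ i, MulAction Γ (V i)]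
    [a' : ∀ i, MulAction Γ' (V' i)] : ∀ i, MulAction (Γ × Γ') (Sum.elim V V' i)
  | Sum.inl i => MulAction.compHom (V i) (MonoidHom.fst Γ Γ')
  | Sum.inr i => MulAction.compHom (V' i) (MonoidHom.snd Γ Γ')

/-- Both families of trees. -/
def gS (T : ∀ i, SimpleGraph (V i)) (T' : ∀ i, SimpleGraph (V' i)) :
    ∀ i, SimpleGraph (Sum.elim V V' i)
  | Sum.inl i => T i
  | Sum.inr i => T' i

theorem hS {Γ Γ' : Type} [Group Γ] [Group Γ'] [∀ i, MulAction Γ (V i)]
    [∀ i, MulAction Γ' (V' i)] {T : ∀ i, SimpleGraph (V i)} {T' : ∀ i, SimpleGraph (V' i)}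
    (h : ∀ i, TreeAct Γ (V i) (T i)) (h' : ∀ i, TreeAct Γ' (V' i) (T' i)) :
    ∀ i, TreeAct (Γ × Γ') (Sum.elim V V' i) (gS T T' i)
  | Sum.inl i => ⟨(h i).tree, fun γ u v huv => (h i).adj γ.1 u v huv,
      fun γ u v huv he => (h i).inv γ.1 u v huv he⟩
  | Sum.inr i => ⟨(h' i).tree, fun γ u v huv => (h' i).adj γ.2 u v huv,
      fun γ u v huv he => (h' i).inv γ.2 u v huv he⟩

end

/-- The tuples of vertices and edges: `v i = w i` for a vertex, `v i` and `w i` are adjacent for an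
edge. -/
def IsT {D : Type} {V : D → Type} (T : ∀ i, SimpleGraph (V i)) (v w : ∀ i, V i) : Prop :=
  ∀ i, v i = w i ∨ (T i).Adj (v i) (w i)

/-- Module FRel. The group `N₁ × G` acts on two families of trees; the control is in the first
family. -/
def StFRel : Prop :=
  ∀ (Γ : Type) [Group Γ] (D : Type) [Finite D] [DecidableEq D] (V : D → Type)
    [∀ i, MulAction Γ (V i)] (T : ∀ i, SimpleGraph (V i)) (h : ∀ i, TreeAct Γ (V i) (T i))
    (N₁ : Type) [Group N₁] (π₁ : N₁ →* Γ) (U : Finset D)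
    (Γ' : Type) [Group Γ'] (D' : Type) [Finite D'] [DecidableEq D'] (V' : D' → Type)
    [∀ i, MulAction Γ' (V' i)] (T' : ∀ i, SimpleGraph (V' i))
    (h' : ∀ i, TreeAct Γ' (V' i) (T' i)) (G : Type) [Group G] (ρ : G →* Γ'),
    (∀ v w : ∀ i, V' i, IsT T' v w →
      LL h (π₁.comp (MonoidHom.fst N₁ (St ρ (v, w)))) U) →
    (∀ (v w : ∀ i, V' i) (U' : Finset D'), IsT T' v w → U'.Nonempty → ∀ S : Subgroup G,
      (∀ g, g ∈ S ↔ ∀ i ∉ U', ρ g • v i = v i ∧ ρ g • w i = w i) →
      LL (hS h h') (π₁.prodMap (ρ.comp S.subtype))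
        (U.map Function.Embedding.inl ∪ U'.map Function.Embedding.inr)) →
    LL h (π₁.comp (MonoidHom.fst N₁ G)) U

/-- Module FStab. The stabilisers of the full edges in the situation of FRel. -/
def StFStab : Prop :=
  ∀ (Γ : Type) [Group Γ] (D : Type) [DecidableEq D] (V : D → Type)
    [∀ i, MulAction Γ (V i)] (T : ∀ i, SimpleGraph (V i))
    (N₁ : Type) [Group N₁] (π₁ : N₁ →* Γ) (U : Finset D)
    (G : Type) [Group G] (D' : Type) [DecidableEq D'] (V' : D' → Type)
    [∀ i, MulAction G (V' i)] (T' : ∀ i, SimpleGraph (V' i))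
    (v w : ∀ i, V' i) (U' : Finset D'), IsT T' v w → U'.Nonempty → ∀ S : Subgroup G,
    (∀ g, g ∈ S ↔ ∀ i ∉ U', g • v i = v i ∧ g • w i = w i) →
    ∀ x : ∀ i : ↥(U.map Function.Embedding.inl ∪ U'.map Function.Embedding.inr : Finset (D ⊕ D')),
      Sum.elim V V' i × Sum.elim V V' i,
    (∀ i : ↥(U.map Function.Embedding.inl ∪ U'.map Function.Embedding.inr : Finset (D ⊕ D')),
      (gS T T' i).Adj (x i).1 (x i).2) →
    ∃ (y : ∀ i : U, V i × V i) (v' w' : ∀ i, V' i), (∀ i : U, (T i).Adj (y i).1 (y i).2) ∧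
      IsT T' v' w' ∧ (∃ i, v' i ≠ w' i) ∧
      Nonempty (St (π₁.prodMap S.subtype) x ≃* St π₁ y × MulAction.stabilizer G (v', w'))

end Pool.Agent.Lib.MP_551055_al.W17
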