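import Mathlib
import Pool.Agent.Lib.MP_551055_al.Trim.LS.Final
import Pool.Agent.Lib.MP_551055_al.Trim.LS.PStmts
import Pool.Agent.Lib.MP_551055_al.Trim.LS.Stmts
import Pool.Agent.Lib.MP_551055_al.Trim.W17.StF

/-!
# Trees and products: the classes

`SS E K`: the groups `N₁ × K`, where `N₁` acts on finitely many trees such that the stabilisers of
the edges in the directions of control are in `E`, have the property `LL`.
-/

set_option autoImplicit false

namespace Pool.Agent.Lib.MP_551055_al
end Pool.Agent.Lib.MP_551055_al

namespace Pool.Agent.Lib.MP_551055_al.LS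
end Pool.Agent.Lib.MP_551055_al.LS

namespace Pool.Agent.Lib.MP_551055_al.MT
end Pool.Agent.Lib.MP_551055_al.MT

namespace Pool.Agent.Lib.MP_551055_al.W17

open Pool.Agent.Lib.MP_551055_al

open Pool.Agent.Lib.MP_551055_al.LS (TreeAct ZN)

open Pool.Agent.Lib.MP_551055_al.MT

open Matrix

theorem SF.congr {G H : Type} [Group G] [Group H] (e : G ≃* H) (h : SF G) : SF H := fun m =>
  LS.projStFree_congr (MulEquiv.prodCongr e (MulEquiv.refl _)) (h m)

/-! ## Group theory -/

/-! ## The class of the groups `K` with `SS E K` -/

section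

end

end Pool.Agent.Lib.MP_551055_al.W17
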