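import Mathlib
import Pool.Agent.Lib.MP_551055_al.Trim.LD.NG
import Pool.Agent.Lib.MP_551055_al.Trim.LO.Base
import Pool.Agent.Lib.MP_551055_al.Trim.LS.PStmts
import Pool.Agent.Lib.MP_551055_al.Trim.LS.Stmts
import Pool.Agent.Lib.MP_551055_al.Trim.LS.Stmts3
import Pool.Agent.Lib.MP_551055_al.Trim.LS.TreeB
import Pool.Agent.Lib.MP_551055_al.Trim.MT.Flow2
import Pool.Agent.Lib.MP_551055_al.Trim.MT.K1
import Pool.Agent.Lib.MP_551055_al.Trim.MT.RCU
import Pool.Agent.Lib.MP_551055_al.Trim.RI.HNN
import Pool.Agent.Lib.MP_551055_al.Trim.RI.HNN2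
import Pool.Agent.Lib.MP_551055_al.Trim.RI.LiftNil
import Pool.Agent.Lib.MP_551055_al.Trim.RI.Stmts
import Pool.Agent.Lib.MP_551055_al.Trim.T4.FinalT
import Pool.Agent.Lib.MP_551055_al.Trim.T4.Perf
import Pool.Agent.Lib.MP_551055_al.Trim.VNDefs
import Pool.Agent.Lib.MP_551055_al.Trim.W17.FS
import Pool.Agent.Lib.MP_551055_al.Trim.W17.StF

/-!
# Trees and products: long segments
-/

set_option autoImplicit false

namespace Pool.Agent.Lib.MP_551055_al
end Pool.Agent.Lib.MP_551055_al

namespace Pool.Agent.Lib.MP_551055_al.LS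
end Pool.Agent.Lib.MP_551055_al.LS

namespace Pool.Agent.Lib.MP_551055_al.RI
end Pool.Agent.Lib.MP_551055_al.RI

namespace Pool.Agent.Lib.MP_551055_al.W17

open Pool.Agent.Lib.MP_551055_al

open Pool.Agent.Lib.MP_551055_al.LS

open Pool.Agent.Lib.MP_551055_al.RI (BTree LiftData StFinalH HGood)

/-! ## The Bass-Serre tree of the HNN extension, with the exact stabilisers -/

/-- Every pair `(D, g)` has a lift to a group which acts on a tree such that the stabilisers of the
vertices are conjugate to `D'` and the stabilisers of the edges to `D' ∩ t D' t⁻¹`. -/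
theorem hnn_exact (G : Type) [Group G] (D : Subgroup G) (g : G) :
    ∃ (H : Type) (_ : Group H) (f : H →* G) (D' : Subgroup H) (t : H), LiftData f D D' g t ∧
      ∃ b : BTree H, (∀ v : b.V, ∃ h : H, ∀ x : H, x • v = v ↔ h⁻¹ * x * h ∈ D') ∧
        ∀ v w : b.V, b.T.Adj v w → ∃ h : H, ∀ x : H, (x • v = v ∧ x • w = w) ↔
          (h⁻¹ * x * h ∈ D' ∧ t⁻¹ * (h⁻¹ * x * h) * t ∈ D') := by
  refine ⟨RI.LH D g, inferInstance, RI.lf D g, RI.lD D g, HNNExtension.t, RI.liftData_hnn D g,
    ⟨RI.hV (RI.lA D g) (RI.lB D g) (RI.lE D g), inferInstance,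
      RI.hT (RI.lA D g) (RI.lB D g) (RI.lE D g), RI.hT_treeAct _ _ _⟩, fun v => ?_, fun v w => ?_⟩
  · induction v using QuotientGroup.induction_on with
    | H k => exact ⟨k, fun x => RI.mem_stab_hV x k⟩
  · rintro ⟨k, u, rfl, rfl⟩
    rcases Int.units_eq_one_or u with rfl | rfl
    · refine ⟨k, fun x => and_congr (RI.mem_stab_hV x k) ?_⟩
      have h1 := RI.mem_stab_hV (A := RI.lA D g) (B := RI.lB D g) (φ := RI.lE D g) x
        (k * HNNExtension.t ^ ((1 : ℤˣ) : ℤ))
      refine h1.trans ?_
      rw [Units.val_one, zpow_one, mul_inv_rev]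
      simp only [mul_assoc]
    · refine ⟨k * HNNExtension.t ^ ((-1 : ℤˣ) : ℤ), fun x => and_comm.trans
        (and_congr (RI.mem_stab_hV x _) ?_)⟩
      refine (RI.mem_stab_hV x k).trans ?_
      rw [Units.val_neg, Units.val_one, zpow_neg, zpow_one, mul_inv_rev, inv_inv]
      have : ∀ t k x : RI.LH D g, t⁻¹ * (t * k⁻¹ * x * (k * t⁻¹)) * t = k⁻¹ * x * k := by
        intro t k x
        group
      rw [this]

/-! ## Geometry -/

theorem fix_between {Γ : Type} [Group Γ] {V : Type} [MulAction Γ V] {T : SimpleGraph V}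
    (hT : TreeAct Γ V T) {u x z : V} (h : T.dist u z = T.dist u x + T.dist x z) {y : Γ}
    (hu : y • u = u) (hz : y • z = z) : y • x = x := by
  have h1 := dist_smul_smul hT y u x
  have h2 := dist_smul_smul hT y x z
  rw [hu] at h1
  rw [hz] at h2
  exact tree_eq_of_dist hT.tree (x := u) (z := z) (by omega) h (by omega)

theorem bar_prolong {V : Type} {T : SimpleGraph V} (hT : T.IsTree) {S : V → V → Prop}
    (hS : Bar T S) {u w : V} (h : S u w) : ∀ (n : ℕ) (z : V), T.dist w z = n →
      T.dist u z = T.dist u w + n → S u z := by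
  intro n
  induction n with
  | zero =>
    intro z h1 _
    rw [hT.connected.dist_eq_zero_iff] at h1
    rwa [← h1]
  | succ n ih =>
    intro z h1 h2
    obtain ⟨z', hadj, hz'⟩ := tree_exists_pred hT h1
    have h3 : T.dist z' z = 1 := T.dist_eq_one_iff_adj.2 hadj
    have h4 := hT.connected.dist_triangle (u := u) (v := z') (w := z)
    have h5 := hT.connected.dist_triangle (u := u) (v := w) (w := z')
    have h6 : T.dist u z' = T.dist u w + n := by omega
    exact hS.pro u z' z (ih z' hz' h6) hadj (by omega)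

/-! ## Stabilisers of tuples -/

section

variable {G : Type} [Group G] {J : Type}

/-- The elements which fix all `v j` and `w j`. -/
def stP (τ : J → BTree G) (v w : ∀ j, (τ j).V) : Subgroup G where
  carrier := {x | ∀ j, x • v j = v j ∧ x • w j = w j}
  mul_mem' {a b} ha hb j := by rw [mul_smul, mul_smul, (hb j).1, (hb j).2, (ha j).1, (ha j).2]
                               exact ⟨rfl, rfl⟩
  one_mem' j := ⟨one_smul _ _, one_smul _ _⟩
  inv_mem' {a} ha j := by
    rw [inv_smul_eq_iff, inv_smul_eq_iff, (ha j).1, (ha j).2]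
    exact ⟨rfl, rfl⟩

theorem mem_stP {τ : J → BTree G} {v w : ∀ j, (τ j).V} {x : G} :
    x ∈ stP τ v w ↔ ∀ j, x • v j = v j ∧ x • w j = w j := Iff.rfl

/-- Tuples of vertices and edges. -/
def IsC (τ : J → BTree G) (v w : ∀ j, (τ j).V) : Prop :=
  ∀ j, v j = w j ∨ (τ j).T.Adj (v j) (w j)

end

/-- A tree with long segments. -/
structure LTree (G : Type) [Group G] extends BTree G where
  S : V → V → Prop
  bar : Bar T S

/-- The restriction. -/
def LTree.res {G : Type} [Group G] (t : LTree G) {K : Type} [Group K] (f : K →* G) : LTree K where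
  toBTree := t.toBTree.res f
  S := t.S
  bar := t.bar

/-- Isomorphism of a subgroup with its image. -/
noncomputable def mulEquivOfBij {K H : Type} [Group K] [Group H] (f : K →* H)
    (h1 : Function.Injective f) (h2 : Function.Surjective f) : K ≃* H :=
  MulEquiv.ofBijective f ⟨h1, h2⟩

/-- The closure theorem. `X` is a group which acts trivially, `σ` are the trees without long
segments. -/
theorem peel (hFin : StFinalH) (X : Type) [Group X] (L : ∀ (A : Type) [Group A], Prop)
    (hL : ∀ (A B : Type) [Group A] [Group B], L A → A ≃* B → L B)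
    (hstar : ∀ (H : Type) [Group H] (J : Type) [Finite J] (σ : J → BTree H),
      (∀ v w : ∀ j, (σ j).V, IsC σ v w → L (stP σ v w)) → SF (X × H))
    (J₀ : Type) [Finite J₀]
    (hzero : ∀ (H : Type) [Group H] (σ : J₀ → BTree H),
      (∀ v w : ∀ j, (σ j).V, IsC σ v w → SF (X × stP σ v w)) →
      (∀ v w : ∀ j, (σ j).V, IsC σ v w → (∃ j, v j ≠ w j) → L (stP σ v w)) → SF (X × H)) :
    ∀ (n : ℕ) (H : Type) [Group H] (σ : J₀ → BTree H) (τ : Fin n → LTree H),
      (∀ (a b : ∀ j, (σ j).V) (v w : ∀ i, (τ i).V), IsC σ a b →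
        IsC (fun i => (τ i).toBTree) v w → ∀ A : Subgroup H,
        (∀ x, x ∈ A ↔ x ∈ stP σ a b ∧ x ∈ stP (fun i => (τ i).toBTree) v w) → SF (X × A)) →
      (∀ (a b : ∀ j, (σ j).V) (v w : ∀ i, (τ i).V), IsC σ a b → (∃ j, a j ≠ b j) →
        IsC (fun i => (τ i).toBTree) v w → ∀ A : Subgroup H,
        (∀ x, x ∈ A ↔ x ∈ stP σ a b ∧ x ∈ stP (fun i => (τ i).toBTree) v w) → L A) →
      (∀ (a b : ∀ j, (σ j).V) (k : Fin n) (v w : ∀ i, (τ i).V), IsC σ a b →
        (τ k).S (v k) (w k) → v k ≠ w k →
        (∀ i, i ≠ k → v i = w i ∨ (τ i).T.Adj (v i) (w i)) → ∀ A : Subgroup H,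
        (∀ x, x ∈ A ↔ x ∈ stP σ a b ∧ x ∈ stP (fun i => (τ i).toBTree) v w) → L A) →
      SF (X × H) := by
  intro n
  induction n with
  | zero =>
    intro H _ σ τ ha hc _
    refine hzero H σ (fun v w hvw => ?_) fun v w hvw hne => ?_
    · exact ha v w (fun i => i.elim0) (fun i => i.elim0) hvw (fun i => i.elim0) _
        fun x => ⟨fun hx => ⟨hx, fun i => i.elim0⟩, fun hx => hx.1⟩
    · exact hc v w (fun i => i.elim0) (fun i => i.elim0) hvw hne (fun i => i.elim0) _
        fun x => ⟨fun hx => ⟨hx, fun i => i.elim0⟩, fun hx => hx.1⟩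
  | succ n ih =>
    intro H _ σ τ ha hc hb
    -- the stabilisers in the first direction
    have key : ∀ u w : (τ 0).V, (u = w ∨ (τ 0).T.Adj u w) → ∀ K : Subgroup H,
        (∀ x, x ∈ K ↔ x • u = u ∧ x • w = w) → SF (X × K) := by
      intro u w huw K hK
      have hcons : ∀ v' w' : ∀ i : Fin n, (τ i.succ).V,
          IsC (fun i : Fin n => ((τ i.succ).res K.subtype).toBTree) v' w' →
          IsC (fun i => (τ i).toBTree) (Fin.cons u v') (Fin.cons w w') := by
        intro v' w' hvw i
        refine Fin.cases ?_ (fun i => ?_) i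
        · exact huw
        · exact hvw i
      -- the subgroup of `H`
      have hmap : ∀ (a b : ∀ j, (σ j).V) (v' w' : ∀ i : Fin n, (τ i.succ).V) (A : Subgroup K),
          (∀ x, x ∈ A ↔ x ∈ stP (fun j => (σ j).res K.subtype) a b ∧
            x ∈ stP (fun i : Fin n => ((τ i.succ).res K.subtype).toBTree) v' w') →
          ∀ y : H, y ∈ A.map K.subtype ↔ y ∈ stP σ a b ∧
            y ∈ stP (fun i => (τ i).toBTree) (Fin.cons u v') (Fin.cons w w') := by
        intro a b v' w' A hA y
        constructor
        · rintro ⟨x, hx, rfl⟩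
          obtain ⟨h1, h2⟩ := (hA x).1 hx
          refine ⟨h1, fun i => ?_⟩
          refine Fin.cases ?_ (fun i => ?_) i
          · exact (hK _).1 x.2
          · exact h2 i
        · rintro ⟨h1, h2⟩
          exact ⟨⟨y, (hK _).2 (h2 0)⟩, (hA _).2 ⟨h1, fun i => h2 i.succ⟩, rfl⟩
      have e : ∀ A : Subgroup K, A ≃* A.map K.subtype := fun A =>
        A.equivMapOfInjective K.subtype Subtype.val_injective
      refine ih K (fun j => (σ j).res K.subtype) (fun i => (τ i.succ).res K.subtype)
        (fun a b v' w' hab hvw A hA => ?_) (fun a b v' w' hab hne hvw A hA => ?_)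
        fun a b k v' w' hab hS hne hvw A hA => ?_
      · exact SF.congr (MulEquiv.prodCongr (MulEquiv.refl X) (e A).symm)
          (ha a b _ _ hab (hcons v' w' hvw) _ (hmap a b v' w' A hA))
      · exact hL _ _ (hc a b _ _ hab hne (hcons v' w' hvw) _ (hmap a b v' w' A hA)) (e A).symm
      · refine hL _ _ (hb a b k.succ (Fin.cons u v') (Fin.cons w w') hab hS hne ?_ _
          (hmap a b v' w' A hA)) (e A).symm
        intro i hi
        revert hi
        refine Fin.cases ?_ (fun i => ?_) i
        · exact fun _ => huw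
        · exact fun hi => hvw i fun h => hi (by rw [h])
    -- the tree
    let _ : MulAction (X × H) (τ 0).V := MulAction.compHom (τ 0).V (MonoidHom.snd X H)
    have htree : TreeAct (X × H) (τ 0).V (τ 0).T :=
      { tree := (τ 0).tree.tree
        adj := fun γ u v h => (τ 0).tree.adj γ.2 u v h
        inv := fun γ u v h h' => (τ 0).tree.inv γ.2 u v h h' }
    intro m
    refine hFin m (X × H) (τ 0).V (τ 0).T htree (fun u => ?_) (fun u w huw => ?_) (τ 0).S (τ 0).bar
      fun u w huw hne => Or.inr (Or.inr fun g hg => ?_)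
    · -- vertices
      have h1 := key u u (Or.inl rfl) (MulAction.stabilizer H u) fun x => (and_self_iff).symm
      refine SF.congr ?_ h1 m
      exact { toFun := fun x => ⟨(x.1, x.2.1), x.2.2⟩
              invFun := fun x => (x.1.1, ⟨x.1.2, x.2⟩)
              left_inv := fun _ => rfl
              right_inv := fun _ => rfl
              map_mul' := fun _ _ => rfl }
    · -- edges
      have h1 := key u w (Or.inr huw) (MulAction.stabilizer H (u, w)) fun x =>
        MulAction.mem_stabilizer_iff.trans Prod.ext_iff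
      refine SF.congr ?_ h1 (m + 1)
      exact { toFun := fun x => ⟨(x.1, x.2.1), x.2.2⟩
              invFun := fun x => (x.1.1, ⟨x.1.2, x.2⟩)
              left_inv := fun _ => rfl
              right_inv := fun _ => rfl
              map_mul' := fun _ _ => rfl }
    · -- long segments
      obtain ⟨x₀, g⟩ := g
      have hD : ∀ x : H, x ∈ MulAction.stabilizer H (u, w) ↔ x • u = u ∧ x • w = w := fun x =>
        MulAction.mem_stabilizer_iff.trans Prod.ext_iff
      obtain ⟨H', _, f, D', t, hlift, b, hbv, hbe⟩ :=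
        hnn_exact H (MulAction.stabilizer H (u, w)) g
      have hg1 : g • w ≠ w := hg.1
      have hg2 : (τ 0).T.dist u (g • w) = (τ 0).T.dist u w + (τ 0).T.dist w (g • w) := hg.2.1
      have hg3 : (τ 0).T.dist u (g • w) = (τ 0).T.dist u (g • u) +
        (τ 0).T.dist (g • u) (g • w) := hg.2.2
      have hpos : 0 < (τ 0).T.dist u w := (τ 0).tree.tree.connected.pos_dist_of_ne hne
      have hSg : (τ 0).S u (g • w) :=
        bar_prolong (τ 0).tree.tree (τ 0).bar huw _ (g • w) rfl hg2
      have hneg : u ≠ g • w := by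
        intro h
        rw [← h, SimpleGraph.dist_self] at hg2
        omega
      refine ⟨X × H', inferInstance, (MonoidHom.id X).prodMap f, (⊤ : Subgroup X).prod D',
        (x₀, t), ⟨?_, ?_, ?_, ?_, ?_⟩, ?_⟩
      · rintro ⟨y, z⟩ hz
        exact hlift.map z (Subgroup.mem_prod.1 hz).2
      · rintro ⟨y, z⟩ hz
        obtain ⟨z', hz', rfl⟩ := hlift.surj z hz
        exact ⟨(y, z'), Subgroup.mem_prod.2 ⟨Subgroup.mem_top _, hz'⟩, rfl⟩
      · rintro ⟨y, z⟩ hz h
        have h1 : y = 1 := congrArg Prod.fst h
        have h2 : f z = 1 := congrArg Prod.snd h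
        exact Prod.ext h1 (hlift.inj z (Subgroup.mem_prod.1 hz).2 h2)
      · exact Prod.ext rfl hlift.ft
      · rintro ⟨y, z⟩ hz h
        exact Subgroup.mem_prod.2 ⟨Subgroup.mem_top _,
          hlift.conj z (Subgroup.mem_prod.1 hz).2 h⟩
      · -- the trees of `H'`
        refine hstar H' (Option (J₀ ⊕ Fin n)) (fun o => o.elim b fun s => s.elim
          (fun j => (σ j).res f) (fun i => (τ i.succ).toBTree.res f)) (fun v w' hvw => ?_) m
        -- the general isomorphism
        have gen : ∀ (h : H') (z : (τ 0).V) (A : Subgroup H'),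
            (∀ x : H', x ∈ A ↔ h⁻¹ * x * h ∈ D' ∧ f (h⁻¹ * x * h) • z = z ∧
              (∀ j : J₀, f x • (show (σ j).V from v (some (Sum.inl j))) = v (some (Sum.inl j)) ∧
                f x • (show (σ j).V from w' (some (Sum.inl j))) = w' (some (Sum.inl j))) ∧
              ∀ i : Fin n, f x • (show (τ i.succ).V from v (some (Sum.inr i))) =
                v (some (Sum.inr i)) ∧
                f x • (show (τ i.succ).V from w' (some (Sum.inr i))) = w' (some (Sum.inr i))) →
            (∀ y : H, y • u = u → y • z = z → y • w = w) →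
            (τ 0).S u z → u ≠ z → L A := by
          intro h z A hA hz hSz hnz
          let a₁ : ∀ j, (σ j).V := fun j => (f h)⁻¹ • (show (σ j).V from v (some (Sum.inl j)))
          let b₁ : ∀ j, (σ j).V := fun j => (f h)⁻¹ • (show (σ j).V from w' (some (Sum.inl j)))
          let v₁ : ∀ i : Fin n, (τ i.succ).V := fun i =>
            (f h)⁻¹ • (show (τ i.succ).V from v (some (Sum.inr i)))
          let w₁ : ∀ i : Fin n, (τ i.succ).V := fun i =>
            (f h)⁻¹ • (show (τ i.succ).V from w' (some (Sum.inr i)))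
          have h1 : L (↥(stP σ a₁ b₁ ⊓ stP (fun i => (τ i).toBTree) (Fin.cons u v₁)
              (Fin.cons z w₁))) := by
            refine hb a₁ b₁ 0 _ _ (fun j => ?_) hSz hnz (fun i => ?_) _ fun x => Subgroup.mem_inf
            · rcases hvw (some (Sum.inl j)) with h2 | h2
              · left
                exact congrArg (fun q : (σ j).V => (f h)⁻¹ • q) h2
              · right
                exact (σ j).tree.adj _ _ _ h2
            · refine Fin.cases (fun h => absurd rfl h) (fun i _ => ?_) i
              change v₁ i = w₁ i ∨ (τ i.succ).T.Adj (v₁ i) (w₁ i)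
              rcases hvw (some (Sum.inr i)) with h2 | h2
              · left
                exact congrArg (fun q : (τ i.succ).V => (f h)⁻¹ • q) h2
              · right
                exact (τ i.succ).tree.adj _ _ _ h2
          have h4 : ∀ (t : BTree H) (x : H') (q : t.V), f x • q = q →
              f (h⁻¹ * x * h) • ((f h)⁻¹ • q) = (f h)⁻¹ • q := by
            intro t x q hq
            rw [map_mul, map_mul, map_inv, mul_smul, smul_inv_smul, mul_smul, hq]
          refine hL _ _ h1 (MulEquiv.symm (mulEquivOfBij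
            { toFun := fun x => ⟨f (h⁻¹ * x.1 * h), ?_⟩
              map_one' := ?_
              map_mul' := ?_ } ?_ ?_))
          · have h2 := (hA x.1).1 x.2
            refine Subgroup.mem_inf.2 ⟨fun j => ?_, fun i => ?_⟩
            · exact ⟨h4 (σ j) x.1 _ (h2.2.2.1 j).1, h4 (σ j) x.1 _ (h2.2.2.1 j).2⟩
            · refine Fin.cases ?_ (fun i => ?_) i
              · exact ⟨((hD _).1 (hlift.map _ h2.1)).1, h2.2.1⟩
              · exact ⟨h4 (τ i.succ).toBTree x.1 _ (h2.2.2.2 i).1,
                  h4 (τ i.succ).toBTree x.1 _ (h2.2.2.2 i).2⟩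
          · apply Subtype.ext
            change f (h⁻¹ * 1 * h) = 1
            rw [mul_one, inv_mul_cancel, map_one]
          · intro x y
            apply Subtype.ext
            change f (h⁻¹ * (x.1 * y.1) * h) = f (h⁻¹ * x.1 * h) * f (h⁻¹ * y.1 * h)
            rw [← map_mul]
            congr 1
            group
          · rw [injective_iff_map_eq_one]
            intro x hx
            have h2 : f (h⁻¹ * x.1 * h) = 1 := congrArg Subtype.val hx
            have h3 := hlift.inj _ ((hA x.1).1 x.2).1 h2
            apply Subtype.ext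
            have h4 : x.1 = h * (h⁻¹ * x.1 * h) * h⁻¹ := by group
            rw [h4, h3, mul_one, mul_inv_cancel]
            rfl
          · intro y
            obtain ⟨hy1, hy2⟩ := Subgroup.mem_inf.1 y.2
            have h2 : ∀ i, y.1 • (Fin.cons (α := fun i => (τ i).V) u v₁ i) =
                Fin.cons (α := fun i => (τ i).V) u v₁ i ∧
                y.1 • (Fin.cons (α := fun i => (τ i).V) z w₁ i) =
                Fin.cons (α := fun i => (τ i).V) z w₁ i := hy2
            have h3 : y.1 • u = u ∧ y.1 • z = z := h2 0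
            obtain ⟨x', hx', hx⟩ := hlift.surj y.1 ((hD _).2 ⟨h3.1, hz _ h3.1 h3.2⟩)
            have h5 : h⁻¹ * (h * x' * h⁻¹) * h = x' := by group
            have h6 : ∀ (t : BTree H) (q : t.V), y.1 • ((f h)⁻¹ • q) = (f h)⁻¹ • q →
                f (h * x' * h⁻¹) • q = q := by
              intro t q hq
              rw [map_mul, map_mul, map_inv, hx, mul_smul, mul_smul, hq, smul_inv_smul]
            refine ⟨⟨h * x' * h⁻¹, (hA _).2 ?_⟩, ?_⟩
            · rw [h5]
              refine ⟨hx', by rw [hx]; exact h3.2, fun j => ?_, fun i => ?_⟩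
              · exact ⟨h6 (σ j) _ (hy1 j).1, h6 (σ j) _ (hy1 j).2⟩
              · exact ⟨h6 (τ i.succ).toBTree _ (h2 i.succ).1,
                  h6 (τ i.succ).toBTree _ (h2 i.succ).2⟩
            · apply Subtype.ext
              change f (h⁻¹ * (h * x' * h⁻¹) * h) = y.1
              rw [h5, hx]
        rcases hvw none with h1 | h1
        · -- a vertex of the Bass-Serre tree
          obtain ⟨h, hh⟩ := hbv (v none)
          refine gen h w _ (fun x => ?_) (fun y _ hy => hy) huw hne
          constructor
          · intro hx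
            have h2 := (hh x).1 (hx none).1
            exact ⟨h2, ((hD _).1 (hlift.map _ h2)).2, fun j => hx (some (Sum.inl j)),
              fun i => hx (some (Sum.inr i))⟩
          · rintro ⟨h2, -, h3, h4⟩ (_ | j | i)
            · have h5 : x • v none = v none := (hh x).2 h2
              refine ⟨h5, ?_⟩
              rw [h1] at h5
              exact h5
            · exact h3 j
            · exact h4 i
        · -- an edge of the Bass-Serre tree
          obtain ⟨h, hh⟩ := hbe _ _ h1
          refine gen h (g • w) _ (fun x => ?_)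
            (fun y hu hw => fix_between (τ 0).tree hg2 hu hw) hSg hneg
          have hgc : ∀ z ∈ D', (t⁻¹ * z * t ∈ D' ↔ f z • (g • w) = g • w) := by
            intro z hz
            have hzD := (hD _).1 (hlift.map z hz)
            constructor
            · intro h2
              have h3 := ((hD _).1 (hlift.map _ h2)).2
              rw [map_mul, map_mul, map_inv, hlift.ft, mul_smul, mul_smul, inv_smul_eq_iff] at h3
              exact h3
            · intro h2
              refine hlift.conj z hz ((hD _).2 ⟨?_, ?_⟩)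
              · rw [mul_smul, mul_smul, inv_smul_eq_iff]
                exact fix_between (τ 0).tree hg3 hzD.1 h2
              · rw [mul_smul, mul_smul, inv_smul_eq_iff]
                exact h2
          constructor
          · intro hx
            have h2 := (hh x).1 ⟨(hx none).1, (hx none).2⟩
            exact ⟨h2.1, (hgc _ h2.1).1 h2.2, fun j => hx (some (Sum.inl j)),
              fun i => hx (some (Sum.inr i))⟩
          · rintro ⟨h2, h3, h4, h5⟩ (_ | j | i)
            · exact (hh x).2 ⟨h2, (hgc _ h2).2 h3⟩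
            · exact h4 j
            · exact h5 i

end Pool.Agent.Lib.MP_551055_al.W17
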