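import Mathlib
import Pool.Agent.Lib.MP_551055_al.Trim.LS.Final
import Pool.Agent.Lib.MP_551055_al.Trim.LS.PStmts
import Pool.Agent.Lib.MP_551055_al.Trim.LS.Stmts
import Pool.Agent.Lib.MP_551055_al.Trim.T6.Clo
import Pool.Agent.Lib.MP_551055_al.Trim.T6.Nil
import Pool.Agent.Lib.MP_551055_al.Trim.VNDefs
import Pool.Agent.Lib.MP_551055_al.Trim.W17.Defs
import Pool.Agent.Lib.MP_551055_al.Trim.W17.FFin
import Pool.Agent.Lib.MP_551055_al.Trim.W17.FS
import Pool.Agent.Lib.MP_551055_al.Trim.W17.StF
import Pool.Agent.Lib.MP_551055_al.Trim.W17.StK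

/-!
# Trees and products: the theorem for groups acting on finitely many trees
-/

set_option autoImplicit false

namespace Pool.Agent.Lib.MP_551055_al
end Pool.Agent.Lib.MP_551055_al

namespace Pool.Agent.Lib.MP_551055_al.LS
end Pool.Agent.Lib.MP_551055_al.LS

namespace Pool.Agent.Lib.MP_551055_al.MT
end Pool.Agent.Lib.MP_551055_al.MT

namespace Pool.Agent.Lib.MP_551055_al.W17

open Pool.Agent.Lib.MP_551055_al

open Pool.Agent.Lib.MP_551055_al.LS (TreeAct ZN)

open Pool.Agent.Lib.MP_551055_al.MT

open Matrix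

/-- Theorem T. `G` acts without inversions on finitely many trees; the stabilisers of the tuples of
cells (vertices and edges) are good, and those of the tuples with at least one edge have locally
perfect kernels. -/
def StT : Prop :=
  ∀ (G : Type) [Group G] (D : Type) [Finite D] (V : D → Type) [∀ i, MulAction G (V i)]
    (T : ∀ i, SimpleGraph (V i)), (∀ i, TreeAct G (V i) (T i)) →
    (∀ v w : ∀ i, V i, IsT T v w → SF (MulAction.stabilizer G (v, w))) →
    (∀ v w : ∀ i, V i, IsT T v w → (∃ i, v i ≠ w i) →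
      T6.StLPS (MulAction.stabilizer G (v, w))) → SF G

theorem stT (hKey : StKey) (hRel : StFRel) (hStab : StFStab) : StT := by
  classical
  intro G _ D _ V _ T hT hsf hlps m
  let V₀ : Empty → Type := fun _ => Unit
  let T₀ : ∀ i, SimpleGraph (V₀ i) := fun i => i.elim
  have hT₀ : ∀ i, TreeAct Unit (V₀ i) (T₀ i) := fun i => i.elim
  have hLL : LL hT₀ ((1 : Unit →* Unit).comp (MonoidHom.fst Unit G)) ∅ := by
    refine hRel Unit Empty V₀ T₀ hT₀ Unit 1 ∅ G D V T hT G (MonoidHom.id G) (fun v w hvw => ?_)
      fun v w U' hvw hU' S hS => ?_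
    · refine hKey Unit Empty V₀ T₀ hT₀ _ _ ∅ (fun x _ k => ?_) fun h => absurd h (by simp)
      refine SF.congr ?_ (hsf v w hvw) k
      exact { toFun := fun g => ⟨((), g), rfl⟩
              invFun := fun g => g.1.2
              left_inv := fun _ => rfl
              right_inv := fun _ => rfl
              map_mul' := fun _ _ => rfl }
    · have key : ∀ x : ∀ i : ↥((∅ : Finset Empty).map Function.Embedding.inl ∪
          U'.map Function.Embedding.inr : Finset (Empty ⊕ D)), Sum.elim V₀ V i × Sum.elim V₀ V i,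
          (∀ i : ↥((∅ : Finset Empty).map Function.Embedding.inl ∪
          U'.map Function.Embedding.inr : Finset (Empty ⊕ D)), (gS T₀ T i).Adj (x i).1 (x i).2) →
          SF (St ((1 : Unit →* Unit).prodMap ((MonoidHom.id G).comp S.subtype)) x) ∧
          T6.StLPS (St ((1 : Unit →* Unit).prodMap ((MonoidHom.id G).comp S.subtype)) x) := by
        intro x hxa
        obtain ⟨y, v', w', h1, h2, h3, ⟨e⟩⟩ := hStab Unit Empty V₀ T₀ Unit 1 ∅ G D V T v w U' hvw
          hU' S hS x hxa
        have e' : St (1 : Unit →* Unit) y × MulAction.stabilizer G (v', w') ≃*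
            MulAction.stabilizer G (v', w') := by
          have : Unique (St (1 : Unit →* Unit) y) :=
            ⟨⟨1⟩, fun a => Subtype.ext (Subsingleton.elim _ _)⟩
          exact MulEquiv.uniqueProd
        exact ⟨SF.congr (e.trans e').symm (hsf v' w' h2),
          T6.StLPS.congr (e.trans e').symm (hlps v' w' h2 h3)⟩
      exact hKey _ _ _ _ _ _ _ _ (fun x hxa => (key x hxa).1) fun _ x hxa => (key x hxa).2
  have h1 := stFFin _ _ _ _ _ _ _ (hLL m).1
  exact LS.projStFree_congr (MulEquiv.prodCongr MulEquiv.uniqueProd (MulEquiv.refl _)) h1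

end Pool.Agent.Lib.MP_551055_al.W17
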