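import Mathlib
import Pool.Agent.Lib.MP_551055_al.Trim.MT.Defs
import Pool.Agent.Lib.MP_551055_al.Trim.W17.Defs

/-!
# Trees and products: the parts of elements of a monoid ring
-/

set_option autoImplicit false

set_option linter.unusedSectionVars false

namespace Pool.Agent.Lib.MP_551055_al
end Pool.Agent.Lib.MP_551055_al

namespace Pool.Agent.Lib.MP_551055_al.MT
end Pool.Agent.Lib.MP_551055_al.MT

namespace Pool.Agent.Lib.MP_551055_al.W17

open Pool.Agent.Lib.MP_551055_al

open Pool.Agent.Lib.MP_551055_al.MT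

open Matrix

/-! ## The parts of elements of the monoid ring -/

section

variable {N : Type} [Monoid N]

open Classical in
theorem filt_coeff (p : N → Prop) (x : ZM N) (m : N) :
    (filt p x).coeff m = if p m then x.coeff m else 0 := by
  rw [filt, MonoidAlgebra.coeff_ofCoeff, Finsupp.filter_apply]

theorem zm_ext {x y : ZM N} (h : ∀ m, x.coeff m = y.coeff m) : x = y :=
  MonoidAlgebra.ext (Finsupp.ext h)

theorem filt_coeff_ne {p : N → Prop} {x : ZM N} {m : N} (h : (filt p x).coeff m ≠ 0) :
    p m ∧ x.coeff m ≠ 0 := by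
  classical
  rw [filt_coeff] at h
  by_cases hp : p m
  · rw [if_pos hp] at h
    exact ⟨hp, h⟩
  · rw [if_neg hp] at h
    exact absurd rfl h

theorem filt_add (p : N → Prop) (x y : ZM N) : filt p (x + y) = filt p x + filt p y := by
  classical
  refine zm_ext fun m => ?_
  rw [filt_coeff, MonoidAlgebra.coeff_add, Finsupp.add_apply, MonoidAlgebra.coeff_add,
    Finsupp.add_apply, filt_coeff, filt_coeff]
  split_ifs
  · rfl
  · rw [add_zero]

theorem filt_neg (p : N → Prop) (x : ZM N) : filt p (-x) = -filt p x := by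
  classical
  refine zm_ext fun m => ?_
  rw [filt_coeff, MonoidAlgebra.coeff_neg, Finsupp.neg_apply, MonoidAlgebra.coeff_neg,
    Finsupp.neg_apply, filt_coeff]
  split_ifs
  · rfl
  · rw [neg_zero]

theorem filt_zero (p : N → Prop) : filt p (0 : ZM N) = 0 := by
  classical
  refine zm_ext fun m => ?_
  rw [filt_coeff]
  split_ifs <;> rfl

theorem filt_sum {ι : Type} (s : Finset ι) (p : N → Prop) (x : ι → ZM N) :
    filt p (∑ a ∈ s, x a) = ∑ a ∈ s, filt p (x a) := by
  classical
  induction s using Finset.induction_on with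
  | empty => exact filt_zero p
  | insert a s ha ih => rw [Finset.sum_insert ha, Finset.sum_insert ha, filt_add, ih]

theorem coeff_sum' {ι : Type} (s : Finset ι) (x : ι → ZM N) (m : N) :
    (∑ a ∈ s, x a).coeff m = ∑ a ∈ s, (x a).coeff m := by
  classical
  induction s using Finset.induction_on with
  | empty => rfl
  | insert a s ha ih =>
    rw [Finset.sum_insert ha, Finset.sum_insert ha, MonoidAlgebra.coeff_add, Finsupp.add_apply,
      ih]

open Classical in
theorem coeff_mul_sum {x y x' y' : ZM N} (hx : ∀ a, x'.coeff a ≠ 0 → x.coeff a ≠ 0)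
    (hy : ∀ a, y'.coeff a ≠ 0 → y.coeff a ≠ 0) (n : N) :
    (x' * y').coeff n = ∑ a ∈ x.coeff.support, ∑ b ∈ y.coeff.support,
      if a * b = n then x'.coeff a * y'.coeff b else 0 := by
  rw [MonoidAlgebra.coeff_mul]
  rw [Finsupp.sum_of_support_subset (s := x.coeff.support) _
    (fun a ha => Finsupp.mem_support_iff.2 (hx a (Finsupp.mem_support_iff.1 ha)))]
  · refine Finset.sum_congr rfl fun a _ => ?_
    rw [Finsupp.sum_of_support_subset (s := y.coeff.support) _
      (fun a ha => Finsupp.mem_support_iff.2 (hy a (Finsupp.mem_support_iff.1 ha)))]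
    intro b _
    rw [mul_zero, ite_self]
  · intro a _
    rw [Finsupp.sum, Finset.sum_eq_zero]
    intro b _
    rw [zero_mul, ite_self]

theorem filt_mul {κ : Type} [Fintype κ] {p : N → Prop} {q r : κ → N → Prop} {x y : ZM N}
    (h1 : ∀ a b, x.coeff a ≠ 0 → y.coeff b ≠ 0 → p (a * b) → ∃ c, q c a ∧ r c b)
    (h2 : ∀ a b c, x.coeff a ≠ 0 → y.coeff b ≠ 0 → q c a → r c b → p (a * b))
    (h3 : ∀ b c c', r c b → r c' b → c = c') :
    filt p (x * y) = ∑ c, filt (q c) x * filt (r c) y := by
  classical
  refine zm_ext fun n => ?_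
  rw [filt_coeff, coeff_sum']
  rw [Finset.sum_congr rfl fun c _ => coeff_mul_sum (x := x) (y := y) (x' := filt (q c) x)
    (y' := filt (r c) y) (fun a ha => (filt_coeff_ne ha).2) (fun a ha => (filt_coeff_ne ha).2) n]
  rw [coeff_mul_sum (x := x) (y := y) (x' := x) (y' := y) (fun a ha => ha) (fun a ha => ha) n]
  have key : ∀ a ∈ x.coeff.support, ∀ b ∈ y.coeff.support,
      (∑ c, if a * b = n then (filt (q c) x).coeff a * (filt (r c) y).coeff b else 0) =
        if p n then (if a * b = n then x.coeff a * y.coeff b else 0) else 0 := by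
    intro a ha b hb
    have ha' := Finsupp.mem_support_iff.1 ha
    have hb' := Finsupp.mem_support_iff.1 hb
    by_cases hab : a * b = n
    · simp only [if_pos hab]
      by_cases hp : p n
      · rw [if_pos hp]
        obtain ⟨c, hc1, hc2⟩ := h1 a b ha' hb' (hab ▸ hp)
        rw [Finset.sum_eq_single c]
        · rw [filt_coeff, filt_coeff, if_pos hc1, if_pos hc2]
        · intro c' _ hc'
          rw [filt_coeff, filt_coeff]
          rw [if_neg (c := r c' b) fun h => hc' (h3 b c' c h hc2), mul_zero]
        · exact fun h => absurd (Finset.mem_univ c) h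
      · rw [if_neg hp]
        refine Finset.sum_eq_zero fun c _ => ?_
        rw [filt_coeff, filt_coeff]
        by_cases hq : q c a
        · rw [if_neg (c := r c b) fun h => hp (hab ▸ h2 a b c ha' hb' hq h), mul_zero]
        · rw [if_neg hq, zero_mul]
    · simp only [if_neg hab]
      rw [ite_self, Finset.sum_const_zero]
  have hR : (∑ c, ∑ a ∈ x.coeff.support, ∑ b ∈ y.coeff.support,
      if a * b = n then (filt (q c) x).coeff a * (filt (r c) y).coeff b else 0) =
      ∑ a ∈ x.coeff.support, ∑ b ∈ y.coeff.support,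
        if p n then (if a * b = n then x.coeff a * y.coeff b else 0) else 0 := by
    rw [Finset.sum_comm]
    refine Finset.sum_congr rfl fun a ha => ?_
    rw [Finset.sum_comm]
    exact Finset.sum_congr rfl fun b hb => key a ha b hb
  rw [hR]
  by_cases hp : p n
  · simp only [if_pos hp]
  · simp only [if_neg hp, Finset.sum_const_zero]

theorem mul_single_one' (x : ZM N) (c : ℤ) : x * MonoidAlgebra.single (1 : N) c = c • x := by
  have h1 : (MonoidAlgebra.single (1 : N) c : ZM N) = c • (1 : ZM N) := by
    rw [MonoidAlgebra.one_def, MonoidAlgebra.smul_single, smul_eq_mul, mul_one]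
  rw [h1, mul_smul_comm, mul_one]

theorem single_one_mul' (x : ZM N) (c : ℤ) : MonoidAlgebra.single (1 : N) c * x = c • x := by
  have h1 : (MonoidAlgebra.single (1 : N) c : ZM N) = c • (1 : ZM N) := by
    rw [MonoidAlgebra.one_def, MonoidAlgebra.smul_single, smul_eq_mul, mul_one]
  rw [h1, smul_mul_assoc, one_mul]

theorem sum_sig {ι : Type} [Fintype ι] {κ : ι → Type} [∀ l, Fintype (κ l)]
    (i : Fintype (Σ l, κ l)) {M : Type} [AddCommMonoid M] (F : (Σ l, κ l) → M) :
    @Finset.sum _ _ _ (@Finset.univ _ i) F = ∑ l, ∑ z : κ l, F ⟨l, z⟩ := by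
  have h1 : i = Sigma.instFintype := Subsingleton.elim _ _
  rw [h1]
  exact Fintype.sum_sigma _

end

end Pool.Agent.Lib.MP_551055_al.W17
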