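import Mathlib
import Pool.Agent.Lib.MP_551055_al.Trim.LS.PStmts
import Pool.Agent.Lib.MP_551055_al.Trim.LS.Stmts
import Pool.Agent.Lib.MP_551055_al.Trim.MT.Base
import Pool.Agent.Lib.MP_551055_al.Trim.MT.Defs
import Pool.Agent.Lib.MP_551055_al.Trim.W17.DefK
import Pool.Agent.Lib.MP_551055_al.Trim.W17.Filt

/-!
# Trees and products: the parts of the vectors of free nil modules
-/

set_option autoImplicit false

namespace Pool.Agent.Lib.MP_551055_al
end Pool.Agent.Lib.MP_551055_al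

namespace Pool.Agent.Lib.MP_551055_al.LS
end Pool.Agent.Lib.MP_551055_al.LS

namespace Pool.Agent.Lib.MP_551055_al.MT
end Pool.Agent.Lib.MP_551055_al.MT

namespace Pool.Agent.Lib.MP_551055_al.W17

open Pool.Agent.Lib.MP_551055_al

open Pool.Agent.Lib.MP_551055_al.LS (TreeAct ZN)

open Pool.Agent.Lib.MP_551055_al.MT

open Matrix

section

variable {Γ : Type} [Group Γ] {D : Type} {V : D → Type} [∀ i, MulAction Γ (V i)]
  {T : ∀ i, SimpleGraph (V i)} {N : Type} [Group N] {π : N →* Γ}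

variable {ι : Type} [Fintype ι] [DecidableEq ι] {p : ι → Pos V} {ν : D → Matrix ι ι (ZM N)}

open Classical in
theorem frPr_coeff (x : Pos V) (v : ι → ZM N) (l : ι) (m : N) :
    (frPr π p x v l).coeff m = if π m • p l = x then (v l).coeff m else 0 :=
  filt_coeff _ _ _

theorem frPr_coeff_ne {x : Pos V} {v : ι → ZM N} {l : ι} {m : N}
    (h : (frPr π p x v l).coeff m ≠ 0) : π m • p l = x ∧ (v l).coeff m ≠ 0 :=
  filt_coeff_ne h

theorem exists_coeff_ne {v : ι → ZM N} (hv : v ≠ 0) : ∃ l m, (v l).coeff m ≠ 0 := by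
  by_contra hn
  push Not at hn
  exact hv (funext fun l => zm_ext fun m => hn l m)

theorem frPr_self (x : Pos V) (v : ι → ZM N) :
    frPr π p x (frPr π p x v) = frPr π p x v := by
  classical
  funext l
  refine zm_ext fun m => ?_
  rw [frPr_coeff, frPr_coeff]
  split_ifs <;> rfl

theorem frPr_ne (x y : Pos V) (v : ι → ZM N) (hxy : x ≠ y) :
    frPr π p x (frPr π p y v) = 0 := by
  classical
  funext l
  refine zm_ext fun m => ?_
  rw [frPr_coeff, frPr_coeff]
  split_ifs with h1 h2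
  · exact absurd (h1.symm.trans h2) hxy
  · rfl
  · rfl

theorem frPr_fin (v : ι → ZM N) : {x | frPr π p x v ≠ 0}.Finite := by
  refine (Set.finite_iUnion fun l : ι =>
    ((v l).coeff.support.finite_toSet.image fun m => π m • p l)).subset ?_
  intro x hx
  obtain ⟨l, m, hm⟩ := exists_coeff_ne hx
  obtain ⟨h1, h2⟩ := frPr_coeff_ne hm
  exact Set.mem_iUnion.2 ⟨l, m, Finsupp.mem_support_iff.2 h2, h1⟩

theorem frPr_sum (v : ι → ZM N) : ∑ᶠ x, frPr π p x v = v := by
  classical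
  have hf := frPr_fin (π := π) (p := p) v
  rw [finsum_eq_sum_of_support_subset (s := hf.toFinset) _
    (fun x hx => by rw [Set.Finite.coe_toFinset]; exact hx)]
  funext l
  rw [Finset.sum_apply]
  refine zm_ext fun m => ?_
  rw [coeff_sum']
  by_cases hm : (v l).coeff m = 0
  · rw [hm]
    refine Finset.sum_eq_zero fun x _ => ?_
    rw [frPr_coeff, hm, ite_self]
  · rw [Finset.sum_eq_single (π m • p l)]
    · rw [frPr_coeff, if_pos rfl]
    · intro x _ hx
      rw [frPr_coeff, if_neg fun h => hx h.symm]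
    · intro hx
      by_contra hn
      apply hx
      rw [Set.Finite.mem_toFinset]
      intro h0
      apply hn
      have h1 := congrFun h0 l
      rw [h1]
      rfl

theorem coeff_single_smul (g : N) (v : ι → ZM N) (l : ι) (m : N) :
    (((MonoidAlgebra.single g (1 : ℤ) : ZM N) • v) l).coeff m = (v l).coeff (g⁻¹ * m) := by
  rw [Pi.smul_apply, smul_eq_mul, MonoidAlgebra.coeff_single_mul_apply, one_mul]

theorem frPr_act (g : N) (x : Pos V) (v : ι → ZM N) :
    (MonoidAlgebra.single g (1 : ℤ) : ZM N) • frPr π p x v =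
      frPr π p (π g • x) ((MonoidAlgebra.single g (1 : ℤ) : ZM N) • v) := by
  classical
  funext l
  refine zm_ext fun m => ?_
  rw [frPr_coeff, coeff_single_smul, coeff_single_smul, frPr_coeff]
  have h1 : π (g⁻¹ * m) • p l = x ↔ π m • p l = π g • x := by
    rw [map_mul, map_inv, mul_smul, inv_smul_eq_iff]
  simp only [h1]

theorem smul_oe (hT : ∀ (γ : Γ) i u w, (T i).Adj u w → (T i).Adj (γ • u) (γ • w)) {x : Pos V}
    (hx : OE T x) (γ : Γ) : OE T (γ • x) := fun i => hT γ i _ _ (hx i)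

theorem frPr_oe (hp : FrOk T π p ν) (x : Pos V) (v : ι → ZM N) (hx : frPr π p x v ≠ 0)
    (hT : ∀ (γ : Γ) i u w, (T i).Adj u w → (T i).Adj (γ • u) (γ • w)) : OE T x := by
  obtain ⟨l, m, hm⟩ := exists_coeff_ne hx
  obtain ⟨h1, -⟩ := frPr_coeff_ne hm
  rw [← h1]
  exact smul_oe hT (hp.oe l) _

theorem smul_nx (hT : ∀ (γ : Γ) i u w, (T i).Adj u w → (T i).Adj (γ • u) (γ • w)) {i : D}
    {x y : Pos V} (hxy : Nx T i x y) (γ : Γ) : Nx T i (γ • x) (γ • y) := by
  obtain ⟨h1, h2, h3, h4⟩ := hxy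
  refine ⟨fun j hj => ?_, ?_, hT γ i _ _ h3, ?_⟩
  · change γ • y j = γ • x j
    rw [h1 j hj]
  · change γ • (y i).1 = γ • (x i).2
    rw [h2]
  · change γ • (y i).2 ≠ γ • (x i).1
    exact fun h => h4 (MulAction.injective γ h)

theorem frPr_loc (hp : FrOk T π p ν)
    (hT : ∀ (γ : Γ) i u w, (T i).Adj u w → (T i).Adj (γ • u) (γ • w)) (i : D) (x y : Pos V)
    (v : ι → ZM N) (hxy : frPr π p y (frPr π p x v ᵥ* ν i) ≠ 0) : Nx T i x y := by
  obtain ⟨k, m, hm⟩ := exists_coeff_ne hxy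
  obtain ⟨h1, h2⟩ := frPr_coeff_ne hm
  obtain ⟨l, a, b, ha, hb, hab⟩ := coeff_vecMul_ne h2
  obtain ⟨h3, -⟩ := frPr_coeff_ne ha
  have h4 := smul_nx hT (hp.loc i l k b hb) (π a)
  rw [h3, ← mul_smul, ← map_mul, hab, h1] at h4
  exact h4

theorem vecMul_pow (M : Matrix ι ι (ZM N)) (K : ℕ) (v : ι → ZM N) :
    ((Matrix.vecMulLinear M) ^ K) v = v ᵥ* (M ^ K) := by
  induction K generalizing v with
  | zero => rw [pow_zero, pow_zero, Matrix.vecMul_one]; rfl
  | succ K ih =>
    rw [pow_succ, pow_succ', ← Matrix.vecMul_vecMul, ← ih]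
    rfl

end

end Pool.Agent.Lib.MP_551055_al.W17
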