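import Mathlib
import Pool.Agent.Lib.MP_551055_al.Trim.LS.PStmts
import Pool.Agent.Lib.MP_551055_al.Trim.LS.Stmts
import Pool.Agent.Lib.MP_551055_al.Trim.MT.Defs
import Pool.Agent.Lib.MP_551055_al.Trim.MT.Map
import Pool.Agent.Lib.MP_551055_al.Trim.MT.Tg
import Pool.Agent.Lib.MP_551055_al.Trim.MT.Trees
import Pool.Agent.Lib.MP_551055_al.Trim.W17.Defs

/-!
# Trees and products: the statements of part U (adding and removing directions)
-/

set_option autoImplicit false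

namespace Pool.Agent.Lib.MP_551055_al
end Pool.Agent.Lib.MP_551055_al

namespace Pool.Agent.Lib.MP_551055_al.LS
end Pool.Agent.Lib.MP_551055_al.LS

namespace Pool.Agent.Lib.MP_551055_al.MT
end Pool.Agent.Lib.MP_551055_al.MT

namespace Pool.Agent.Lib.MP_551055_al.W17

open Pool.Agent.Lib.MP_551055_al

open Pool.Agent.Lib.MP_551055_al.LS (TreeAct ZN)

open Pool.Agent.Lib.MP_551055_al.MT

open Matrix

/-- Module U1. The cell functor. -/
def StU1 : Prop :=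
  ∀ (Γ : Type) [Group Γ] (D : Type) [DecidableEq D] (V : D → Type) [∀ i, MulAction Γ (V i)]
    (T : ∀ i, SimpleGraph (V i)) (h : ∀ i, TreeAct Γ (V i) (T i)) (N : Type) [Monoid N]
    (π : N →* Γ) (U : Finset D) (i : D), i ∈ U →
    -- matrices
    (∀ (X Y : Ob (SP h)) (s : X.ι → Sub (h i)) (t : Y.ι → Sub (h i)) (r : ℤ)
      (f : Matrix X.ι Y.ι (ZM N)), (∀ l, X.sz l i = s l) → (∀ l, Y.sz l i = t l) →
      Ct π U r X Y f → Ct π U r (phiO h i X s) (phiO h i Y t) (phiM h π i s t f)) ∧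
    (∀ (X Y Z : Ob (SP h)) (s : X.ι → Sub (h i)) (t : Y.ι → Sub (h i)) (w : Z.ι → Sub (h i))
      (r r' : ℤ) (f : Matrix X.ι Y.ι (ZM N)) (g : Matrix Y.ι Z.ι (ZM N)),
      (∀ l, X.sz l i = s l) → (∀ l, Y.sz l i = t l) → (∀ l, Z.sz l i = w l) →
      Ct π U r X Y f → Ct π U r' Y Z g →
      phiM h π i s w (f * g) = phiM h π i s t f * phiM h π i t w g) ∧
    (∀ (X : Ob (SP h)) (s : X.ι → Sub (h i)), (∀ l, X.sz l i = s l) →
      phiM h π i (X := X) (Y := X) s s (1 : Matrix X.ι X.ι (ZM N)) = 1) ∧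
    (∀ (X Y : Ob (SP h)) (s : X.ι → Sub (h i)) (t : Y.ι → Sub (h i))
      (f g : Matrix X.ι Y.ι (ZM N)),
      phiM h π i (X := X) (Y := Y) s t (f + g) = phiM h π i s t f + phiM h π i s t g ∧
      phiM h π i (X := X) (Y := Y) s t (-f) = -phiM h π i s t f ∧
      phiM h π i (X := X) (Y := Y) s t (0 : Matrix X.ι Y.ι (ZM N)) = 0) ∧
    -- complexes
    (∀ (X : Co (SP h) N) (s : X.ι → Sub (h i)), (∀ l, X.sz l i = s l) → IsCx π U X →
      IsCx π U (phi h π i X s)) ∧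
    (∀ (X Y : Co (SP h) N) (s : X.ι → Sub (h i)) (t : Y.ι → Sub (h i))
      (f : Matrix X.ι Y.ι (ZM N)), (∀ l, X.sz l i = s l) → (∀ l, Y.sz l i = t l) →
      IsCx π U X → IsCx π U Y →
      (Ch π U X Y f → Ch π U (phi h π i X s) (phi h π i Y t) (phiM h π i s t f)) ∧
      (Nul π U X Y f → Nul π U (phi h π i X s) (phi h π i Y t) (phiM h π i s t f)))

/-- Module U2. The augmentation. -/
def StU2 : Prop :=
  ∀ (Γ : Type) [Group Γ] (D : Type) [DecidableEq D] (V : D → Type) [∀ i, MulAction Γ (V i)]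
    (T : ∀ i, SimpleGraph (V i)) (h : ∀ i, TreeAct Γ (V i) (T i)) (N : Type) [Monoid N]
    (π : N →* Γ) (U : Finset D) (i : D), i ∈ U →
    (∀ (X : Co (SP h) N) (s : X.ι → Sub (h i)), (∀ l, X.sz l i = s l) → IsCx π U X →
      Ch π U (phi h π i X s) X (phiA h N i X.toOb s) ∧
      (∀ U', U' ⊆ U → i ∉ U' → Contr π U' (cone (phi h π i X s) X (phiA h N i X.toOb s))) ∧
      ((∀ l, Cl (h i) (s l)) → Contr π U (cone (phi h π i X s) X (phiA h N i X.toOb s)))) ∧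
    (∀ (X Y : Ob (SP h)) (s : X.ι → Sub (h i)) (t : Y.ι → Sub (h i)) (r : ℤ)
      (f : Matrix X.ι Y.ι (ZM N)), (∀ l, X.sz l i = s l) → (∀ l, Y.sz l i = t l) →
      Ct π U r X Y f → phiM h π i s t f * phiA h N i Y t = phiA h N i X s * f)

/-- Module IsoA. An equivalence `A` compatible with two idempotents. -/
def StIsoA : Prop :=
  ∀ (Γ : Type) [Group Γ] (D : Type) (P : D → Type) [∀ i, PartialOrder (P i)]
    [∀ i, MulAction Γ (P i)] [SzAct Γ P] (N : Type) [Monoid N] (π : N →* Γ) (U : Finset D)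
    (X Y : Co P N) (A : Matrix X.ι Y.ι (ZM N)) (e : Matrix X.ι X.ι (ZM N))
    (e' : Matrix Y.ι Y.ι (ZM N)), Ch π U X Y A → Contr π U (cone X Y A) → HI π U X e →
    HI π U Y e' → e * A = A * e' → Iso π U X e Y e'

/-- Module U3. A new direction `j`, with cells in the old directions. -/
def StU3 : Prop :=
  ∀ (Γ : Type) [Group Γ] (D : Type) [DecidableEq D] (V : D → Type) [∀ i, MulAction Γ (V i)]
    (T : ∀ i, SimpleGraph (V i)) (h : ∀ i, TreeAct Γ (V i) (T i)) (N : Type) [Monoid N]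
    (π : N →* Γ) (U : Finset D) (j : D), j ∉ U →
    ∀ (K : Co (SP h) N) (e : Matrix K.ι K.ι (ZM N)), IsCx π U K → Cel h U K.toOb →
    HI π U K e → (∀ i ∈ U, Nul π (U.erase i) K K e) →
    ∃ (C : Co (SP h) N) (eC : Matrix C.ι C.ι (ZM N)) (W : Co (SP h) N) (sz' : W.ι → Sz (SP h))
      (s : Matrix C.ι W.ι (ZM N)) (p : Matrix W.ι C.ι (ZM N)),
      IsCx π U C ∧ HI π U C eC ∧ Iso π U K e C eC ∧
      IsCx π (insert j U) W ∧ IsCx π (insert j U) (W.withSz sz') ∧ Cel h U W.toOb ∧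
      (∀ l i, i ≠ j → sz' l i = W.sz l i) ∧ (∀ l, W.sz l j ≤ sz' l j) ∧
      Ch π U C W s ∧ Ch π U W C p ∧ s * p = 1 ∧
      Ct π (insert j U) 0 W.toOb (W.withSz sz').toOb (p * eC * s) ∧
      ∀ i ∈ U, Contr π ((insert j U).erase i) W ∧ Contr π ((insert j U).erase i) (W.withSz sz')

/-- Module U4. Torsion, with the sizes. -/
def StU4 : Prop :=
  ∀ (Γ : Type) [Group Γ] (D : Type) (P : D → Type) [∀ i, PartialOrder (P i)]
    [∀ i, MulAction Γ (P i)] [SzAct Γ P] (G : Type) [Group G] (π : G →* Γ) (V : Finset D)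
    (B : Co P (GN G)), IsCx (pN π) V B →
    ∀ (m : ℕ) (H : Matrix B.ι B.ι (ZM (GN G))), Ct (pN π) V 1 B.toOb B.toOb H →
      B.d * H + H * B.d = zN G m • 1 →
    ∃ (K : Co P G) (e : Matrix K.ι K.ι (ZM G)), (∀ l, ∃ b, K.sz l = B.sz b) ∧ IsCx π V K ∧
      HI π V K e ∧ (∀ V', V' ⊆ V → Contr (pN π) V' B → Nul π V' K K e) ∧
      ∀ V', V' ⊆ V → ∀ h : IsCx (pN π) V' B,
        IsoL ((Tg.ofCo B h).res (π := π) (hInc G) (pN_hInc π)) K e

/-- Module U5. Isomorphic complexes over `ℤ[G × ℕ]` are isomorphic targets over `ℤ[G]`. -/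
def StU5 : Prop :=
  ∀ (Γ : Type) [Group Γ] (D : Type) (P : D → Type) [∀ i, PartialOrder (P i)]
    [∀ i, MulAction Γ (P i)] [SzAct Γ P] (G : Type) [Group G] (π : G →* Γ) (V : Finset D)
    (B B' : Co P (GN G)) (W : Co P G) (e : Matrix W.ι W.ι (ZM G)) (h : IsCx (pN π) V B)
    (h' : IsCx (pN π) V B'), Iso (pN π) V B' 1 B 1 →
    IsoL ((Tg.ofCo B h).res (π := π) (hInc G) (pN_hInc π)) W e →
    IsoL ((Tg.ofCo B' h').res (π := π) (hInc G) (pN_hInc π)) W e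

/-- Module U6. The step: lifting idempotents to one more direction. -/
def StU6 : Prop :=
  ∀ (Γ : Type) [Group Γ] (D : Type) [DecidableEq D] (V : D → Type) [∀ i, MulAction Γ (V i)]
    (T : ∀ i, SimpleGraph (V i)) (h : ∀ i, TreeAct Γ (V i) (T i)) (G : Type) [Group G]
    (π : G →* Γ) (U : Finset D) (j : D), j ∉ U → LtC h π (insert j U) → SpJ h π U j →
    ∀ (K : Co (SP h) G) (e : Matrix K.ι K.ι (ZM G)), IsCx π U K → Cel h U K.toOb →
    HI π U K e → (∀ i ∈ U, Nul π (U.erase i) K K e) →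
    ∃ M : Co (SP h) G, IsCx π (insert j U) M ∧ Cel h (insert j U) M.toOb ∧
      (∀ i ∈ U, Contr π ((insert j U).erase i) M) ∧ Iso π U K e M 1

/-- Module Glue. Triangular idempotents of cones. -/
def StGlue : Prop :=
  ∀ (Γ : Type) [Group Γ] (D : Type) (P : D → Type) [∀ i, PartialOrder (P i)]
    [∀ i, MulAction Γ (P i)] [SzAct Γ P] (N : Type) [Monoid N] (π : N →* Γ) (U : Finset D)
    (X Y : Co P N) (f : Matrix X.ι Y.ι (ZM N)) (a : Matrix X.ι X.ι (ZM N))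
    (x : Matrix X.ι Y.ι (ZM N)) (b : Matrix Y.ι Y.ι (ZM N)), IsCx π U X → IsCx π U Y →
    Ch π U X Y f → HI π U X a → HI π U Y b →
    HI π U (cone X Y f) (Matrix.fromBlocks a x 0 b) →
    ∀ (M M' : Co P N), IsCx π U M → IsCx π U M' → Iso π U X a M 1 → Iso π U Y b M' 1 →
      ∃ g : Matrix M.ι M'.ι (ZM N), Ch π U M M' g ∧
        Iso π U (cone X Y f) (Matrix.fromBlocks a x 0 b) (cone M M' g) 1

/-- Module Blk. The part of a complex with the smallest sizes in the direction `j`. -/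
def StBlk : Prop :=
  ∀ (Γ : Type) [Group Γ] (D : Type) (P : D → Type) [∀ i, PartialOrder (P i)]
    [∀ i, MulAction Γ (P i)] [SzAct Γ P] [SzRk Γ P] (N : Type) [Group N] (π : N →* Γ)
    (U : Finset D) (j : D), j ∈ U → ∀ K : Co P N, IsCx π U K → Nonempty K.ι →
    ∃ (l₀ : K.ι) (X Y : Co P N) (f : Matrix X.ι Y.ι (ZM N)) (u : Matrix K.ι (X.ι ⊕ Y.ι) (ZM N))
      (v : Matrix (X.ι ⊕ Y.ι) K.ι (ZM N)),
      (∀ l, X.sz l j = K.sz l₀ j) ∧ Fintype.card Y.ι < Fintype.card K.ι ∧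
      IsCx π U X ∧ IsCx π U Y ∧ Ch π U X Y f ∧
      (∀ l, ∃ (k : K.ι) (γ : Γ), X.sz l = γ • K.sz k) ∧
      (∀ l, ∃ (k : K.ι) (γ : Γ), Y.sz l = γ • K.sz k) ∧
      (∀ U', Ct π U' 0 K.toOb (cone X Y f).toOb u) ∧
      (∀ U', Ct π U' 0 (cone X Y f).toOb K.toOb v) ∧
      u * v = 1 ∧ v * u = 1 ∧ K.d * u = u * (cone X Y f).d ∧
      ∀ (U' : Finset D), j ∈ U' → ∀ (r : ℤ) (g : Matrix (X.ι ⊕ Y.ι) (X.ι ⊕ Y.ι) (ZM N)),
        Ct π U' r (cone X Y f).toOb (cone X Y f).toOb g → g.toBlocks₂₁ = 0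

/-- Module Desc. Matrices over a submonoid. -/
def StDesc : Prop :=
  ∀ (N N' : Type) [Monoid N] [Monoid N'] (φ : N' →* N), Function.Injective φ →
    ∀ (ι κ : Type) (f : Matrix ι κ (ZM N)),
      (∀ l k m, (f l k).coeff m ≠ 0 → ∃ m', φ m' = m) →
      ∃ f' : Matrix ι κ (ZM N'), f'.map (mdh φ) = f

/-- Module U7. Splitting with one more direction, from the stabilisers of the cells. -/
def StU7 : Prop :=
  ∀ (Γ : Type) [Group Γ] (D : Type) [DecidableEq D] (V : D → Type) [∀ i, MulAction Γ (V i)]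
    (T : ∀ i, SimpleGraph (V i)) (h : ∀ i, TreeAct Γ (V i) (T i)) (G : Type) [Group G]
    (π : G →* Γ) (U : Finset D) (j : D), j ∉ U →
    (∀ A : Sub (h j), Cl (h j) A → SpC h (stH π A) U) → SpJ h π U j

/-- Module LtCone. Lattices of cones. -/
def StLtCone : Prop :=
  ∀ (Γ : Type) [Group Γ] (D : Type) (P : D → Type) [∀ i, PartialOrder (P i)]
    [∀ i, MulAction Γ (P i)] [SzAct Γ P] (G : Type) [Group G] (π : G →* Γ) (U : Finset D)
    (X Y : Co P (GZ G)) (X₁ Y₁ : Co P (GN G)) (f : Matrix X.ι Y.ι (ZM (GZ G))),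
    IsCx (pZ π) U X → IsCx (pZ π) U Y → IsCx (pN π) U X₁ → IsCx (pN π) U Y₁ →
    Ch (pZ π) U X Y f → Iso (pZ π) U (X₁.map (loc G)) 1 X 1 →
    Iso (pZ π) U (Y₁.map (loc G)) 1 Y 1 →
    ∃ g : Matrix X₁.ι Y₁.ι (ZM (GN G)), Ch (pN π) U X₁ Y₁ g ∧
      Iso (pZ π) U ((cone X₁ Y₁ g).map (loc G)) 1 (cone X Y f) 1

/-- Module U8. Lattices with one more direction, from the stabilisers of the cells. -/
def StU8 : Prop :=
  ∀ (Γ : Type) [Group Γ] (D : Type) [DecidableEq D] (V : D → Type) [∀ i, MulAction Γ (V i)]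
    (T : ∀ i, SimpleGraph (V i)) (h : ∀ i, TreeAct Γ (V i) (T i)) (G : Type) [Group G]
    (π : G →* Γ) (U : Finset D) (j : D), j ∉ U →
    (∀ A : Sub (h j), Cl (h j) A → LtC h (stH π A) U) → LtJ h π U j

/-- Module Tra. Isomorphic groups. -/
def StTra : Prop :=
  ∀ (Γ : Type) [Group Γ] (D : Type) [DecidableEq D] (V : D → Type) [∀ i, MulAction Γ (V i)]
    (T : ∀ i, SimpleGraph (V i)) (h : ∀ i, TreeAct Γ (V i) (T i)) (G G' : Type) [Group G]
    [Group G'] (π : G →* Γ) (π' : G' →* Γ) (φ : G ≃* G'), (∀ g, π' (φ g) = π g) →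
    ∀ U : Finset D, (SpC h π U → SpC h π' U) ∧ (LtC h π U → LtC h π' U) ∧
      (LL h π U → LL h π' U)

/-- Module U9. The theorem of part U. -/
def StU9 : Prop :=
  ∀ (Γ : Type) [Group Γ] (D : Type) [DecidableEq D] (V : D → Type) [∀ i, MulAction Γ (V i)]
    (T : ∀ i, SimpleGraph (V i)) (h : ∀ i, TreeAct Γ (V i) (T i)) (G : Type) [Group G]
    (π : G →* Γ) (U : Finset D) (j : D), j ∉ U →
    (∀ A : Sub (h j), Cl (h j) A → LL h (stH π A) U) → LL h π (insert j U) → LL h π U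

end Pool.Agent.Lib.MP_551055_al.W17
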