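import Mathlib
import Pool.Agent.Lib.MP_551055_al.Trim.MT.Base
import Pool.Agent.Lib.MP_551055_al.Trim.MT.Defs
import Pool.Agent.Lib.MP_551055_al.Trim.W17.StU

/-!
# Trees and products: the part of a complex with the smallest sizes in one direction
-/

set_option autoImplicit false

namespace Pool.Agent.Lib.MP_551055_al
end Pool.Agent.Lib.MP_551055_al

namespace Pool.Agent.Lib.MP_551055_al.MT
end Pool.Agent.Lib.MP_551055_al.MT

namespace Pool.Agent.Lib.MP_551055_al.W17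

open Pool.Agent.Lib.MP_551055_al

open Pool.Agent.Lib.MP_551055_al.MT

open Matrix

section

variable {N : Type} [Group N] {κ ζ : Type} (e : ζ ≃ κ) (c : ζ → N)

open Classical in
/-- A monomial matrix. -/
noncomputable def monU : Matrix κ ζ (ZM N) := fun k z =>
  if k = e z then MonoidAlgebra.single (c z) 1 else 0

open Classical in
/-- The inverse. -/
noncomputable def monV : Matrix ζ κ (ZM N) := fun z k =>
  if k = e z then MonoidAlgebra.single (c z)⁻¹ 1 else 0

theorem mon_vu [Fintype κ] [DecidableEq ζ] : monV e c * monU e c = 1 := by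
  classical
  ext1 a b
  rw [Matrix.mul_apply, Finset.sum_eq_single (e a)]
  · simp only [monU, monV, if_true]
    by_cases hab : a = b
    · subst hab
      rw [Matrix.one_apply_eq, if_pos rfl, MonoidAlgebra.single_mul_single, inv_mul_cancel,
        mul_one]
      rfl
    · rw [Matrix.one_apply_ne hab, if_neg fun h => hab (e.injective h), mul_zero]
  · intro k _ hk
    simp only [monV]
    rw [if_neg hk, zero_mul]
  · intro h
    exact absurd (Finset.mem_univ _) h

theorem mon_uv [Fintype ζ] [DecidableEq κ] : monU e c * monV e c = 1 := by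
  classical
  ext1 k k'
  rw [Matrix.mul_apply, Finset.sum_eq_single (e.symm k)]
  · simp only [monU, monV, Equiv.apply_symm_apply, if_true]
    by_cases hkk : k = k'
    · subst hkk
      rw [Matrix.one_apply_eq, if_pos rfl, MonoidAlgebra.single_mul_single, mul_inv_cancel,
        mul_one]
      rfl
    · rw [Matrix.one_apply_ne hkk, if_neg fun h => hkk h.symm, mul_zero]
  · intro z _ hz
    simp only [monU]
    rw [if_neg fun h => hz (by rw [h, Equiv.symm_apply_apply]), zero_mul]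
  · intro h
    exact absurd (Finset.mem_univ _) h

end

section

variable {Γ : Type} [Group Γ] {D : Type} {P : D → Type} [∀ i, PartialOrder (P i)]
  [∀ i, MulAction Γ (P i)] {N : Type} [Group N]

theorem mon_ctu {π : N →* Γ} {U : Finset D} {K Z : Ob P} (e : Z.ι ≃ K.ι) (c : Z.ι → N)
    (hdeg : ∀ z, Z.deg z = K.deg (e z)) (hsz : ∀ z, K.sz (e z) = π (c z) • Z.sz z) :
    Ct π U 0 K Z (monU e c) := by
  classical
  intro k z m h
  simp only [monU] at h
  by_cases hk : k = e z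
  · rw [if_pos hk] at h
    rw [coeff_single_ne h, hk, hdeg, hsz, add_zero]
    exact ⟨rfl, fun i _ => le_refl _⟩
  · rw [if_neg hk] at h
    exact absurd rfl h

theorem mon_ctv {π : N →* Γ} {U : Finset D} {K Z : Ob P} (e : Z.ι ≃ K.ι) (c : Z.ι → N)
    (hdeg : ∀ z, Z.deg z = K.deg (e z)) (hsz : ∀ z, K.sz (e z) = π (c z) • Z.sz z) :
    Ct π U 0 Z K (monV e c) := by
  classical
  intro z k m h
  simp only [monV] at h
  by_cases hk : k = e z
  · rw [if_pos hk] at h
    rw [coeff_single_ne h, hk, hdeg, hsz, add_zero]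
    refine ⟨rfl, fun i _ => ?_⟩
    rw [map_inv, Pi.smul_apply, inv_smul_smul]
  · rw [if_neg hk] at h
    exact absurd rfl h

/-- The reduced object: the elements of `S` are moved by `n` and shifted. -/
noncomputable def blkX (π : N →* Γ) (K : Ob P) (S : K.ι → Prop) (n : K.ι → N) : Ob P where
  ι := {l : K.ι // S l}
  ft := Fintype.ofFinite _
  de := Classical.decEq _
  deg l := K.deg l.1 - 1
  sz l := (π (n l.1))⁻¹ • K.sz l.1

/-- The rest. -/
noncomputable def blkY (K : Ob P) (S : K.ι → Prop) : Ob P where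
  ι := {l : K.ι // ¬ S l}
  ft := Fintype.ofFinite _
  de := Classical.decEq _
  deg l := K.deg l.1
  sz l := K.sz l.1

open Classical in
/-- The indices. -/
noncomputable def blkE (π : N →* Γ) (K : Ob P) (S : K.ι → Prop) (n : K.ι → N) :
    (blkX π K S n).ι ⊕ (blkY K S).ι ≃ K.ι := Equiv.sumCompl S

/-- The group elements. -/
def blkC (π : N →* Γ) (K : Ob P) (S : K.ι → Prop) (n : K.ι → N) :
    (blkX π K S n).ι ⊕ (blkY K S).ι → N :=
  Sum.elim (fun l : {l : K.ι // S l} => n l.1) fun _ => 1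

/-- The sum with the shift. -/
noncomputable abbrev blkZ (X Y : Ob P) : Ob P where
  ι := X.ι ⊕ Y.ι
  ft := inferInstance
  de := inferInstance
  deg := Sum.elim (fun l => X.deg l + 1) Y.deg
  sz := Sum.elim X.sz Y.sz

omit [∀ i, PartialOrder (P i)] in
theorem blk_deg (π : N →* Γ) (K : Ob P) (S : K.ι → Prop) (n : K.ι → N)
    (z : (blkX π K S n).ι ⊕ (blkY K S).ι) :
    (blkZ (blkX π K S n) (blkY K S)).deg z = K.deg (blkE π K S n z) := by
  rcases z with z | z
  · show K.deg z.1 - 1 + 1 = K.deg z.1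
    ring
  · rfl

omit [∀ i, PartialOrder (P i)] in
theorem blk_sz (π : N →* Γ) (K : Ob P) (S : K.ι → Prop) (n : K.ι → N)
    (z : (blkX π K S n).ι ⊕ (blkY K S).ι) :
    K.sz (blkE π K S n z) = π (blkC π K S n z) • (blkZ (blkX π K S n) (blkY K S)).sz z := by
  rcases z with z | z
  · show K.sz z.1 = π (n z.1) • (π (n z.1))⁻¹ • K.sz z.1
    rw [smul_inv_smul]
  · show K.sz z.1 = π 1 • K.sz z.1
    rw [map_one, one_smul]

end

theorem stBlk : StBlk := by
  classical
  intro Γ _ D P _ _ _ _ N _ π U j hj K hK hne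
  obtain ⟨rk, hmono, hinv⟩ := (SzRk.rk : ∃ rk : ∀ i, P i → ℕ,
    (∀ i (a b : P i), a < b → rk i a < rk i b) ∧
      ∀ i (γ : Γ) (a : P i), rk i (γ • a) = rk i a)
  obtain ⟨l₀, hl₀⟩ := Finite.exists_min fun l : K.ι => rk j (K.sz l j)
  have hS : ∀ l : K.ι, ∃ n : N, (∃ n' : N, K.sz l j = π n' • K.sz l₀ j) →
      K.sz l j = π n • K.sz l₀ j := by
    intro l
    by_cases h : ∃ n' : N, K.sz l j = π n' • K.sz l₀ j
    · obtain ⟨n, hn⟩ := h
      exact ⟨n, fun _ => hn⟩
    · exact ⟨1, fun h' => absurd h' h⟩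
  choose n hn using hS
  obtain ⟨S, hSdef⟩ : ∃ S : K.ι → Prop, ∀ l, S l ↔ ∃ n' : N, K.sz l j = π n' • K.sz l₀ j :=
    ⟨_, fun _ => Iff.rfl⟩
  have hszX : ∀ l : (blkX π K.toOb S n).ι, (blkX π K.toOb S n).sz l j = K.sz l₀ j := by
    intro l
    show ((π (n l.1))⁻¹ • K.sz l.1) j = K.sz l₀ j
    rw [Pi.smul_apply, hn l.1 ((hSdef l.1).1 l.2), inv_smul_smul]
  have hYS : ∀ l : (blkY K.toOb S).ι, ∀ m : N,
      ¬ (blkY K.toOb S).sz l j ≤ π m • K.sz l₀ j := by
    intro l m hle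
    have hle' : K.sz l.1 j ≤ π m • K.sz l₀ j := hle
    apply l.2
    rw [hSdef]
    refine ⟨m, ?_⟩
    rcases hle'.lt_or_eq with h4 | h4
    · exfalso
      have h5 := hmono j _ _ h4
      rw [hinv] at h5
      exact absurd (hl₀ l.1) (not_le.2 h5)
    · exact h4
  have hcard : Fintype.card (blkY K.toOb S).ι < Fintype.card K.ι := by
    have h1 : ¬ ¬ S l₀ := fun h => h ((hSdef l₀).2 ⟨1, by rw [map_one, one_smul]⟩)
    have h2 := Fintype.card_subtype_lt (p := fun l => ¬ S l) h1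
    refine lt_of_eq_of_lt ?_ h2
    exact Fintype.card_congr (Equiv.refl _)
  have hXo : ∀ l, ∃ (k : K.ι) (γ : Γ), (blkX π K.toOb S n).sz l = γ • K.sz k :=
    fun l => ⟨l.1, (π (n l.1))⁻¹, rfl⟩
  have hYo : ∀ l, ∃ (k : K.ι) (γ : Γ), (blkY K.toOb S).sz l = γ • K.sz k :=
    fun l => ⟨l.1, 1, (one_smul Γ _).symm⟩
  have hu : ∀ U', Ct π U' 0 K.toOb (blkZ (blkX π K.toOb S n) (blkY K.toOb S))
      (monU (blkE π K.toOb S n) (blkC π K.toOb S n)) := fun U' =>
    mon_ctu (K := K.toOb) (Z := blkZ (blkX π K.toOb S n) (blkY K.toOb S)) (blkE π K.toOb S n) _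
      (blk_deg π K.toOb S n) (blk_sz π K.toOb S n)
  have hv : ∀ U', Ct π U' 0 (blkZ (blkX π K.toOb S n) (blkY K.toOb S)) K.toOb
      (monV (blkE π K.toOb S n) (blkC π K.toOb S n)) := fun U' =>
    mon_ctv (K := K.toOb) (Z := blkZ (blkX π K.toOb S n) (blkY K.toOb S)) (blkE π K.toOb S n) _
      (blk_deg π K.toOb S n) (blk_sz π K.toOb S n)
  have huv := mon_uv (blkE π K.toOb S n) (blkC π K.toOb S n)
  have hvu := mon_vu (blkE π K.toOb S n) (blkC π K.toOb S n)
  generalize monU (blkE π K.toOb S n) (blkC π K.toOb S n) = u at hu huv hvu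
  generalize monV (blkE π K.toOb S n) (blkC π K.toOb S n) = v at hv huv hvu
  generalize blkX π K.toOb S n = XO at *
  generalize blkY K.toOb S = YO at *
  -- triangular
  have htri : ∀ (U' : Finset D), j ∈ U' → ∀ (r : ℤ) (g : Matrix (XO.ι ⊕ YO.ι) (XO.ι ⊕ YO.ι) (ZM N)),
      Ct π U' r (blkZ XO YO) (blkZ XO YO) g → g.toBlocks₂₁ = 0 := by
    intro U' hj' r g hg
    ext1 a b
    show g (Sum.inr a) (Sum.inl b) = 0
    by_contra hne0
    have h1 : ∃ m, (g (Sum.inr a) (Sum.inl b)).coeff m ≠ 0 := by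
      by_contra hall
      push Not at hall
      apply hne0
      refine MonoidAlgebra.ext (Finsupp.ext fun m => ?_)
      exact hall m
    obtain ⟨m, hm⟩ := h1
    have h2 : YO.sz a j ≤ π m • XO.sz b j := (hg _ _ m hm).2 j hj'
    rw [hszX] at h2
    exact hYS a m h2
  obtain ⟨E, hEdef⟩ : ∃ E : Matrix (XO.ι ⊕ YO.ι) (XO.ι ⊕ YO.ι) (ZM N), E = v * K.d * u :=
    ⟨_, rfl⟩
  have hE : Ct π U (-1) (blkZ XO YO) (blkZ XO YO) E := by
    rw [hEdef]
    exact ((hv U).mul' hK.1 (zero_add _)).mul' (hu U) (add_zero _)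
  have hEE : E * E = 0 := by
    have h1 : E * E = v * (K.d * (u * v) * K.d) * u := by
      rw [hEdef]
      simp only [Matrix.mul_assoc]
    rw [h1, huv, Matrix.mul_one, hK.2, Matrix.mul_zero, Matrix.zero_mul]
  have hKu : K.d * u = u * E := by
    rw [hEdef, ← Matrix.mul_assoc, ← Matrix.mul_assoc, huv, Matrix.one_mul]
  have hE21 : E.toBlocks₂₁ = 0 := htri U hj _ E hE
  have hEb : Matrix.fromBlocks E.toBlocks₁₁ E.toBlocks₁₂ 0 E.toBlocks₂₂ = E := by
    rw [← hE21, Matrix.fromBlocks_toBlocks]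
  have hsq : Matrix.fromBlocks (E.toBlocks₁₁ * E.toBlocks₁₁)
      (E.toBlocks₁₁ * E.toBlocks₁₂ + E.toBlocks₁₂ * E.toBlocks₂₂) 0
      (E.toBlocks₂₂ * E.toBlocks₂₂) = Matrix.fromBlocks 0 0 0 0 := by
    rw [Matrix.fromBlocks_zero, ← hEE]
    conv_rhs => rw [← hEb]
    rw [Matrix.fromBlocks_multiply]
    simp only [Matrix.mul_zero, Matrix.zero_mul, add_zero, zero_add]
  obtain ⟨h11, h12, -, h22⟩ := Matrix.fromBlocks_inj.1 hsq
  refine ⟨l₀, { toOb := XO, d := -E.toBlocks₁₁ }, { toOb := YO, d := E.toBlocks₂₂ },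
    E.toBlocks₁₂, u, v, hszX, hcard, ⟨?_, ?_⟩, ⟨?_, ?_⟩, ⟨?_, ?_⟩, hXo, hYo, hu, hv, huv, hvu, ?_,
    htri⟩
  · refine Ct.neg (X := XO) (Y := XO) fun a b m h => ?_
    obtain ⟨h3, h4⟩ := hE (Sum.inl a) (Sum.inl b) m h
    have h3' : XO.deg b + 1 = XO.deg a + 1 + -1 := h3
    exact ⟨by linarith, fun i hi => h4 i hi⟩
  · show -E.toBlocks₁₁ * -E.toBlocks₁₁ = 0
    rw [Matrix.neg_mul, Matrix.mul_neg, neg_neg]
    exact h11
  · intro a b m h
    exact hE (Sum.inr a) (Sum.inr b) m h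
  · exact h22
  · intro a b m h
    obtain ⟨h3, h4⟩ := hE (Sum.inl a) (Sum.inr b) m h
    have h3' : YO.deg b = XO.deg a + 1 + -1 := h3
    refine ⟨?_, fun i hi => h4 i hi⟩
    show YO.deg b = XO.deg a + 0
    linarith
  · show -E.toBlocks₁₁ * E.toBlocks₁₂ = E.toBlocks₁₂ * E.toBlocks₂₂
    rw [Matrix.neg_mul]
    exact neg_eq_of_add_eq_zero_right h12
  · show K.d * u = u * Matrix.fromBlocks (- -E.toBlocks₁₁) E.toBlocks₁₂ 0 E.toBlocks₂₂
    rw [neg_neg, hEb]
    exact hKu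

end Pool.Agent.Lib.MP_551055_al.W17
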