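import Mathlib
import Pool.Agent.Lib.MP_551055_al.Trim.LS.BassProj
import Pool.Agent.Lib.MP_551055_al.Trim.LS.PStmts
import Pool.Agent.Lib.MP_551055_al.Trim.LS.Stmts
import Pool.Agent.Lib.MP_551055_al.Trim.MT.Defs
import Pool.Agent.Lib.MP_551055_al.Trim.MT.Gen
import Pool.Agent.Lib.MP_551055_al.Trim.MT.Tg
import Pool.Agent.Lib.MP_551055_al.Trim.MT.Trees
import Pool.Agent.Lib.MP_551055_al.Trim.T4.Perf
import Pool.Agent.Lib.MP_551055_al.Trim.T6.Lps
import Pool.Agent.Lib.MP_551055_al.Trim.T6.Nil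
import Pool.Agent.Lib.MP_551055_al.Trim.VNDefs
import Pool.Agent.Lib.MP_551055_al.Trim.W17.DefK
import Pool.Agent.Lib.MP_551055_al.Trim.W17.Defs
import Pool.Agent.Lib.MP_551055_al.Trim.W17.KT

/-!
# Trees and products: the statements of part K (the key theorem)
-/

set_option autoImplicit false

namespace Pool.Agent.Lib.MP_551055_al
end Pool.Agent.Lib.MP_551055_al

namespace Pool.Agent.Lib.MP_551055_al.LS
end Pool.Agent.Lib.MP_551055_al.LS

namespace Pool.Agent.Lib.MP_551055_al.MT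
end Pool.Agent.Lib.MP_551055_al.MT

namespace Pool.Agent.Lib.MP_551055_al.T4
end Pool.Agent.Lib.MP_551055_al.T4

namespace Pool.Agent.Lib.MP_551055_al.T6
end Pool.Agent.Lib.MP_551055_al.T6

namespace Pool.Agent.Lib.MP_551055_al.W17

open Pool.Agent.Lib.MP_551055_al

open Pool.Agent.Lib.MP_551055_al.LS (TreeAct ZN)

open Pool.Agent.Lib.MP_551055_al.MT

open Pool.Agent.Lib.MP_551055_al.T4 (Perf)

open Pool.Agent.Lib.MP_551055_al.T6 (LPS)

open Matrix

/-! ## Nil modules -/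

section

variable {Γ : Type} [Group Γ] {D : Type} {V : D → Type} [∀ i, MulAction Γ (V i)]
  {T : ∀ i, SimpleGraph (V i)} {N : Type} [Group N] {π : N →* Γ}

/-- Composition. -/
noncomputable def NmHom.comp {A B C : Nm T π} (g : NmHom B C) (f : NmHom A B) : NmHom A C where
  f := g.f ∘ₗ f.f
  pr x m := by
    change g.f (f.f (A.pr x m)) = C.pr x (g.f (f.f m))
    rw [f.pr, g.pr]
  nu i m := by
    change g.f (f.f (A.nu i m)) = C.nu i (g.f (f.f m))
    rw [f.nu, g.nu]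

/-- The first projection. -/
noncomputable def NmHom.fst (A B : Nm T π) : NmHom (A.prod B) A where
  f := LinearMap.fst (ZM N) A.M B.M
  pr _ _ := rfl
  nu _ _ := rfl

/-- `v` is concentrated in the face `∅`, at positions `x` with root at `B`. -/
def Out [Fintype D] [LinearOrder D] (h : ∀ i, TreeAct Γ (V i) (T i)) (A : Nm T π)
    (B : Sz (SP h)) (v : Finset D → A.M) : Prop :=
  (∀ φ, φ ≠ ∅ → v φ = 0) ∧ ∀ x, A.pr x (v ∅) ≠ 0 →
    (∀ i, B i ≤ edg (h i) (x i).1 (x i).2) ∧ ∀ i, IsV (h i) (B i) → B i = vtx (h i) (x i).1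

/-- The vector `v` in the face `∅`. -/
noncomputable def inj0 (N : Type) [Monoid N] {ι : Type} [DecidableEq D] (v : ι → ZM N) :
    ι × Finset D → ZM N := fun a => if a.2 = ∅ then v a.1 else 0

end

/-- Module KX. The complex of a nil module has homology only in degree `n`. -/
def StKX : Prop :=
  ∀ (Γ : Type) [Group Γ] (D : Type) [Fintype D] [LinearOrder D] (V : D → Type)
    [∀ i, MulAction Γ (V i)] (T : ∀ i, SimpleGraph (V i)) (h : ∀ i, TreeAct Γ (V i) (T i))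
    (N : Type) [Group N] (π : N →* Γ) (A : Nm T π) (n : ℤ) (B : Sz (SP h)),
    (∀ q, q ≠ n → (KT h A n).Zc q B ≤ (KT h A n).Bc q B) ∧
    (∀ v : Finset D → A.M, v ∈ (KT h A n).fam B n →
      ∃ w : Finset D → A.M, Out h A B w ∧ v - w ∈ (KT h A n).Bc n B) ∧
    ∀ w : Finset D → A.M, Out h A B w → w ∈ (KT h A n).Bc n B → w = 0

/-- Module KF. The finite complex of a free nil module. -/
def StKF : Prop :=
  ∀ (Γ : Type) [Group Γ] (D : Type) [Fintype D] [LinearOrder D] (V : D → Type)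
    [∀ i, MulAction Γ (V i)] (T : ∀ i, SimpleGraph (V i)) (h : ∀ i, TreeAct Γ (V i) (T i))
    (N : Type) [Group N] (π : N →* Γ) (ι : Type) [Fintype ι] [DecidableEq ι] (p : ι → Pos V)
    (ν : D → Matrix ι ι (ZM N)) (hp : FrOk T π p ν) (n : ℤ),
    Acy h π (Kc h N n p ν) ∧
    ∀ hK : IsCx π Finset.univ (Kc h N n p ν),
      ∃ κ : TgHom (Tg.ofCo (Kc h N n p ν) hK) (KT h (Fr h hp) n), Function.Bijective κ.f ∧
        (∀ B q, ∀ x : ι × Finset D → ZM N, κ.f x ∈ (KT h (Fr h hp) n).fam B q →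
          x ∈ fam π Finset.univ (Kc h N n p ν).toOb B q) ∧
        ∀ (x : ι × Finset D → ZM N) φ l, (show Finset D → ι → ZM N from κ.f x) φ l = x (l, φ)

/-- Module KC. The targets with an approximation in the class `Cls` form a triangulated class. -/
def StKC : Prop :=
  ∀ (Γ : Type) [Group Γ] (D : Type) [Fintype D] [LinearOrder D] (V : D → Type)
    [∀ i, MulAction Γ (V i)] (T : ∀ i, SimpleGraph (V i)) (h : ∀ i, TreeAct Γ (V i) (T i))
    (N : Type) [Group N] (π : N →* Γ) (S S' : Tg (SP h) π Finset.univ) (γ : TgHom S S'),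
    (HIso γ → (InC h π S ↔ InC h π S')) ∧
    (InC h π S → InC h π S' → InC h π (coneT γ)) ∧
    (InC h π S → InC h π (coneT γ) → InC h π S') ∧
    (InC h π S' → InC h π (coneT γ) → InC h π S)

/-- Module KX1. Short exact sequences of nil modules. -/
def StKX1 : Prop :=
  ∀ (Γ : Type) [Group Γ] (D : Type) [Fintype D] [LinearOrder D] (V : D → Type)
    [∀ i, MulAction Γ (V i)] (T : ∀ i, SimpleGraph (V i)) (h : ∀ i, TreeAct Γ (V i) (T i))
    (N : Type) [Group N] (π : N →* Γ) (A B C : Nm T π) (i : NmHom A B) (q : NmHom B C),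
    NEx i q → ∀ n : ℤ,
    (InC h π (KT h A n) → InC h π (KT h B n) → InC h π (KT h C n)) ∧
    (InC h π (KT h A n) → InC h π (KT h C n) → InC h π (KT h B n)) ∧
    (InC h π (KT h B n) → InC h π (KT h C n) → InC h π (KT h A n))

/-- Module KTriv. Nil modules with perfect parts and operators zero. -/
def StKTriv : Prop :=
  ∀ (Γ : Type) [Group Γ] (D : Type) [Fintype D] [LinearOrder D] (V : D → Type)
    [∀ i, MulAction Γ (V i)] (T : ∀ i, SimpleGraph (V i)) (h : ∀ i, TreeAct Γ (V i) (T i))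
    (N : Type) [Group N] (π : N →* Γ) (A : Nm T π), A.Triv →
    ∀ (r : ℕ) (x : Fin r → Pos V), Orb A x →
    (∀ i, Perf (ZM (St π (x i))) (A.part (x i))) → (∀ i, VN.ProjStFree (St π (x i))) →
    ∀ n : ℤ, InC h π (KT h A n)

/-- Module KFil. One step of the filtration. -/
def StKFil : Prop :=
  ∀ (Γ : Type) [Group Γ] (D : Type) [Fintype D] [LinearOrder D] (V : D → Type)
    [∀ i, MulAction Γ (V i)] (T : ∀ i, SimpleGraph (V i)) (h : ∀ i, TreeAct Γ (V i) (T i))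
    (N : Type) [Group N] (π : N →* Γ) (ι : Type) [Fintype ι] [DecidableEq ι] (p : ι → Pos V)
    (ν : D → Matrix ι ι (ZM N)) (hp : FrOk T π p ν) (k : ℕ) (A : Nm T π)
    (ρ : NmHom A (Fr h hp)), (∀ m, ρ.f m = 0 → ∀ i, A.nu i m = 0) →
    (∀ m, Kl (Fr h hp) (k + 1) (ρ.f m)) →
    ∀ (r : ℕ) (x : Fin r → Pos V), Orb A x →
    (∀ i, Perf (ZM (St π (x i))) (A.part (x i))) → (∀ i, LPS (ZM (St π (x i)))) →
    ∃ (ι' : Type) (_ : Fintype ι') (_ : DecidableEq ι') (p' : ι' → Pos V)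
      (hp' : FrOk T π p' fun _ => (0 : Matrix ι' ι' (ZM N))) (B C : Nm T π)
      (σ : NmHom B (A.prod (Fr h hp'))) (τ : NmHom (A.prod (Fr h hp')) C),
      NEx σ τ ∧ C.Triv ∧ Orb B x ∧ Orb C x ∧ Orb (Fr h hp') x ∧
      (∀ i, Perf (ZM (St π (x i))) (B.part (x i))) ∧
      (∀ i, Perf (ZM (St π (x i))) (C.part (x i))) ∧
      (∀ i, Perf (ZM (St π (x i))) ((Fr h hp').part (x i))) ∧
      (∀ b, Kl (Fr h hp) k (((ρ.comp (NmHom.fst _ _)).comp σ).f b)) ∧
      ∀ b, ((ρ.comp (NmHom.fst _ _)).comp σ).f b = 0 → ∀ i, B.nu i b = 0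

/-- Module KB. Dévissage. -/
def StKB : Prop :=
  ∀ (Γ : Type) [Group Γ] (D : Type) [Fintype D] [LinearOrder D] (V : D → Type)
    [∀ i, MulAction Γ (V i)] (T : ∀ i, SimpleGraph (V i)) (h : ∀ i, TreeAct Γ (V i) (T i))
    (N : Type) [Group N] (π : N →* Γ) (ι : Type) [Fintype ι] [DecidableEq ι] (p : ι → Pos V)
    (ν : D → Matrix ι ι (ZM N)) (hp : FrOk T π p ν) (A : Nm T π) (ρ : NmHom A (Fr h hp)),
    (∀ m, ρ.f m = 0 → ∀ i, A.nu i m = 0) →
    ∀ (r : ℕ) (x : Fin r → Pos V), Orb A x →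
    (∀ i, Perf (ZM (St π (x i))) (A.part (x i))) → (∀ i, VN.ProjStFree (St π (x i))) →
    (Nonempty D → ∀ i, LPS (ZM (St π (x i)))) → ∀ n : ℤ, InC h π (KT h A n)

/-! ## Resolutions by free nil modules -/

/-- Module KA1s. One more direction. -/
def StKA1s : Prop :=
  ∀ (Γ : Type) [Group Γ] (D : Type) [Fintype D] [LinearOrder D] (V : D → Type)
    [∀ i, MulAction Γ (V i)] (T : ∀ i, SimpleGraph (V i)) (h : ∀ i, TreeAct Γ (V i) (T i))
    (N : Type) [Group N] (π : N →* Γ) (M : Co (SP h) N), Acy h π M →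
    ∀ (n : ℤ) (I : Finset D) (j : D), (∀ i ∈ I, i < j) → ∀ B : Sz (SP h), Cl (h j) (B j) →
    ∀ (ι : Type) [Fintype ι] [DecidableEq ι] (p : ι → Pos V) (ν : D → Matrix ι ι ℤ),
    FrI T I p ν → ∀ f : Matrix (Kp h N n I B p ν).ι M.ι (ZM N),
    Ch π Finset.univ (Kp h N n I B p ν) M f →
    ∃ (ι' : Type) (_ : Fintype ι') (_ : DecidableEq ι') (p' : ι' → Pos V)
      (ν' : D → Matrix ι' ι' ℤ)
      (c : Matrix (Kp h N n I B p ν).ι (Kp h N n (insert j I) B p' ν').ι (ZM N))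
      (ψ : Matrix (Kp h N n (insert j I) B p' ν').ι M.ι (ZM N)),
      FrI T (insert j I) p' ν' ∧
      Ch π Finset.univ (Kp h N n I B p ν) (Kp h N n (insert j I) B p' ν') c ∧
      Ch π Finset.univ (Kp h N n (insert j I) B p' ν') M ψ ∧
      Nul π Finset.univ (Kp h N n I B p ν) M (c * ψ - f)

/-- Module KA1. Every cycle comes from a free nil module. -/
def StKA1 : Prop :=
  ∀ (Γ : Type) [Group Γ] (D : Type) [Fintype D] [LinearOrder D] (V : D → Type)
    [∀ i, MulAction Γ (V i)] (T : ∀ i, SimpleGraph (V i)) (h : ∀ i, TreeAct Γ (V i) (T i))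
    (N : Type) [Group N] (π : N →* Γ) (M : Co (SP h) N), Acy h π M →
    ∀ (n : ℤ) (B : Sz (SP h)), (∀ i, Cl (h i) (B i)) → ∀ x ∈ ZC π Finset.univ M n B,
    ∃ (ι : Type) (_ : Fintype ι) (_ : DecidableEq ι) (p : ι → Pos V)
      (ν : D → Matrix ι ι (ZM N)) (ψ : Matrix (Kc h N n p ν).ι M.ι (ZM N)),
      FrOk T π p ν ∧ Ch π Finset.univ (Kc h N n p ν) M ψ ∧
      ∃ y ∈ fam π Finset.univ (Kc h N n p ν).toOb B n, y ᵥ* ψ - x ∈ BC π Finset.univ M n B

/-- Module KFG. The map `u` can be made zero below the lowest homology. -/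
def StKFG : Prop :=
  ∀ (Γ : Type) [Group Γ] (D : Type) [Fintype D] [LinearOrder D] (V : D → Type)
    [∀ i, MulAction Γ (V i)] (T : ∀ i, SimpleGraph (V i)) (h : ∀ i, TreeAct Γ (V i) (T i))
    (N : Type) [Group N] (π : N →* Γ) (S : Tg (SP h) π Finset.univ) (M : Co (SP h) N),
    IsCx π Finset.univ M → ∀ n₀ n : ℤ, RetT S M n₀ →
    (∀ q, q < n → ∀ B, S.Zc q B ≤ S.Bc q B) → RetT S M n

/-- Module KAtt. A free nil module which generates the lowest homology. -/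
def StKAtt : Prop :=
  ∀ (Γ : Type) [Group Γ] (D : Type) [Fintype D] [LinearOrder D] (V : D → Type)
    [∀ i, MulAction Γ (V i)] (T : ∀ i, SimpleGraph (V i)) (h : ∀ i, TreeAct Γ (V i) (T i))
    (N : Type) [Group N] (π : N →* Γ) (S : Tg (SP h) π Finset.univ) (M : Co (SP h) N),
    Acy h π M → ∀ n : ℤ, RetT S M n →
    ∃ (ι : Type) (_ : Fintype ι) (_ : DecidableEq ι) (p : ι → Pos V)
      (ν : D → Matrix ι ι (ZM N)) (g : (Kc h N n p ν).ι → S.V), FrOk T π p ν ∧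
      ChT (Kc h N n p ν) S g ∧ ∀ B, ∀ y ∈ S.Zc n B,
        ∃ x ∈ fam π Finset.univ (Kc h N n p ν).toOb B n, lin (N := N) g x - y ∈ S.Bc n B

/-- Module KRet. Cones of retracts. -/
def StKRet : Prop :=
  ∀ (Γ : Type) [Group Γ] (D : Type) [Fintype D] [LinearOrder D] (V : D → Type)
    [∀ i, MulAction Γ (V i)] (T : ∀ i, SimpleGraph (V i)) (h : ∀ i, TreeAct Γ (V i) (T i))
    (N : Type) [Group N] (π : N →* Γ) (S : Tg (SP h) π Finset.univ) (M K : Co (SP h) N)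
    (n₀ : ℤ), Acy h π M → RetT S M n₀ → Acy h π K → ∀ (hK : IsCx π Finset.univ K)
    (g : K.ι → S.V) (hg : ChT K S g),
    ∃ w : Matrix K.ι M.ι (ZM N), Ch π Finset.univ K M w ∧ Acy h π (cone K M w) ∧
      ∃ n₁, RetT (coneT (homCh hK g hg)) (cone K M w) n₁

/-- Module KLong. The homology of the cone. -/
def StKLong : Prop :=
  ∀ (Γ : Type) [Group Γ] (D : Type) [Fintype D] [LinearOrder D] (V : D → Type)
    [∀ i, MulAction Γ (V i)] (T : ∀ i, SimpleGraph (V i)) (h : ∀ i, TreeAct Γ (V i) (T i))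
    (N : Type) [Group N] (π : N →* Γ) (S : Tg (SP h) π Finset.univ) (ι : Type) [Fintype ι]
    [DecidableEq ι] (p : ι → Pos V) (ν : D → Matrix ι ι (ZM N)) (n : ℤ), FrOk T π p ν →
    ∀ (hK : IsCx π Finset.univ (Kc h N n p ν)) (g : (Kc h N n p ν).ι → S.V)
      (hg : ChT (Kc h N n p ν) S g),
    (∀ B, ∀ y ∈ S.Zc n B,
      ∃ x ∈ fam π Finset.univ (Kc h N n p ν).toOb B n, lin (N := N) g x - y ∈ S.Bc n B) →
    ∀ q, q ≠ n + 1 → (q = n ∨ ∀ B, S.Zc q B ≤ S.Bc q B) →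
      ∀ B, (coneT (homCh hK g hg)).Zc q B ≤ (coneT (homCh hK g hg)).Bc q B

/-! ## The last step -/

/-- Module KIn. Retracts of acyclic complexes. -/
def StKIn : Prop :=
  ∀ (Γ : Type) [Group Γ] (D : Type) [Fintype D] [LinearOrder D] (V : D → Type)
    [∀ i, MulAction Γ (V i)] (T : ∀ i, SimpleGraph (V i)) (h : ∀ i, TreeAct Γ (V i) (T i))
    (N : Type) [Group N] (π : N →* Γ) (S : Tg (SP h) π Finset.univ) (M : Co (SP h) N) (n₀ : ℤ),
    Acy h π M → RetT S M n₀ → ∀ i q, InF i (S.Zc q) (S.Bc q)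

/-- Module KSep. Separation of the positions. -/
def StKSep : Prop :=
  ∀ (Γ : Type) [Group Γ] (D : Type) [Fintype D] [LinearOrder D] (V : D → Type)
    [∀ i, MulAction Γ (V i)] (T : ∀ i, SimpleGraph (V i)) (h : ∀ i, TreeAct Γ (V i) (T i))
    (N : Type) [Group N] (π : N →* Γ) (S : Tg (SP h) π Finset.univ) (ι : Type) [Fintype ι]
    [DecidableEq ι] (p : ι → Pos V) (ν : D → Matrix ι ι (ZM N)) (n : ℤ), FrOk T π p ν →
    ∀ g : (Kc h N n p ν).ι → S.V, ChT (Kc h N n p ν) S g →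
    (∀ i, InF i (S.Zc n) (S.Bc n)) → ∀ (B : Sz (SP h)) (v : ι → ZM N),
    (∀ x, frPr π p x v ≠ 0 → (∀ i, B i ≤ edg (h i) (x i).1 (x i).2) ∧
      ∀ i, IsV (h i) (B i) → B i = vtx (h i) (x i).1) →
    lin (N := N) (ι := ι × Finset D) g (inj0 N v) ∈ S.Bc n B →
    ∀ x, lin (N := N) (ι := ι × Finset D) g (inj0 N (frPr π p x v)) ∈ S.Bc n (sx h x ∅)

/-- `B` is the nil submodule of the vectors which die in the homology of `S`. -/
def IsKer {Γ : Type} [Group Γ] {D : Type} [Fintype D] [LinearOrder D] {V : D → Type}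
    [∀ i, MulAction Γ (V i)] {T : ∀ i, SimpleGraph (V i)} (h : ∀ i, TreeAct Γ (V i) (T i))
    {N : Type} [Group N] {π : N →* Γ} (S : Tg (SP h) π Finset.univ) {ι : Type} [Fintype ι]
    [DecidableEq ι] {p : ι → Pos V} {ν : D → Matrix ι ι (ZM N)} (hp : FrOk T π p ν) (n : ℤ)
    (g : ι × Finset D → S.V) (B : Nm T π) (j : NmHom B (Fr h hp)) : Prop :=
  Function.Injective j.f ∧ ∀ v : ι → ZM N, (∃ b, j.f b = v) ↔
    ∀ x, lin (N := N) g (inj0 N (frPr π p x v)) ∈ S.Bc n (sx h x ∅)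

/-- Module KV. The nil submodule. -/
def StKV : Prop :=
  ∀ (Γ : Type) [Group Γ] (D : Type) [Fintype D] [LinearOrder D] (V : D → Type)
    [∀ i, MulAction Γ (V i)] (T : ∀ i, SimpleGraph (V i)) (h : ∀ i, TreeAct Γ (V i) (T i))
    (N : Type) [Group N] (π : N →* Γ) (S : Tg (SP h) π Finset.univ) (ι : Type) [Fintype ι]
    [DecidableEq ι] (p : ι → Pos V) (ν : D → Matrix ι ι (ZM N)) (n : ℤ) (hp : FrOk T π p ν)
    (g : (Kc h N n p ν).ι → S.V), ChT (Kc h N n p ν) S g →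
    (∀ i, InF i (S.Zc n) (S.Bc n)) →
    ∃ (B : Nm T π) (j : NmHom B (Fr h hp)), IsKer h S hp n g B j

/-- Module KGam. The cone is the target of the nil submodule. -/
def StKGam : Prop :=
  ∀ (Γ : Type) [Group Γ] (D : Type) [Fintype D] [LinearOrder D] (V : D → Type)
    [∀ i, MulAction Γ (V i)] (T : ∀ i, SimpleGraph (V i)) (h : ∀ i, TreeAct Γ (V i) (T i))
    (N : Type) [Group N] (π : N →* Γ) (S : Tg (SP h) π Finset.univ) (ι : Type) [Fintype ι]
    [DecidableEq ι] (p : ι → Pos V) (ν : D → Matrix ι ι (ZM N)) (n : ℤ) (hp : FrOk T π p ν)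
    (hK : IsCx π Finset.univ (Kc h N n p ν)) (g : (Kc h N n p ν).ι → S.V)
    (hg : ChT (Kc h N n p ν) S g), (∀ i, InF i (S.Zc n) (S.Bc n)) →
    (∀ B, ∀ y ∈ S.Zc n B,
      ∃ x ∈ fam π Finset.univ (Kc h N n p ν).toOb B n, lin (N := N) g x - y ∈ S.Bc n B) →
    (∀ q, q ≠ n → ∀ B, S.Zc q B ≤ S.Bc q B) →
    ∀ M : Co (SP h) N, IsCx π Finset.univ M → RetT (coneT (homCh hK g hg)) M (n + 1) →
    ∀ (B : Nm T π) (j : NmHom B (Fr h hp)), IsKer h S hp n g B j →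
    ∃ γ : TgHom (coneT (homCh hK g hg)) (KT h B (n + 1)), HIso γ

/-- Module KPJ. The parts of the nil submodule are projective. -/
def StKPJ : Prop :=
  ∀ (Γ : Type) [Group Γ] (D : Type) [Fintype D] [LinearOrder D] (V : D → Type)
    [∀ i, MulAction Γ (V i)] (T : ∀ i, SimpleGraph (V i)) (h : ∀ i, TreeAct Γ (V i) (T i))
    (N : Type) [Group N] (π : N →* Γ) (S : Tg (SP h) π Finset.univ) (ι : Type) [Fintype ι]
    [DecidableEq ι] (p : ι → Pos V) (ν : D → Matrix ι ι (ZM N)) (n : ℤ) (hp : FrOk T π p ν)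
    (hK : IsCx π Finset.univ (Kc h N n p ν)) (g : (Kc h N n p ν).ι → S.V)
    (hg : ChT (Kc h N n p ν) S g), (∀ i, InF i (S.Zc n) (S.Bc n)) →
    (∀ q, q ≠ n → ∀ B, S.Zc q B ≤ S.Bc q B) →
    ∀ M : Co (SP h) N, IsCx π Finset.univ M → Cel h Finset.univ M.toOb →
    RetT (coneT (homCh hK g hg)) M (n + 1) →
    (∀ B : Sz (SP h), (∀ i, IsE (h i) (B i)) → ∀ q, n + 1 < q →
      ∀ x ∈ fam π Finset.univ M.toOb B q, x = 0) →
    ∀ (B : Nm T π) (j : NmHom B (Fr h hp)), IsKer h S hp n g B j →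
    ∀ x, OE T x → Perf (ZM (St π x)) (B.part x)

/-- Module KAll. All retracts of acyclic complexes are in the class. -/
def StKAll : Prop :=
  ∀ (Γ : Type) [Group Γ] (D : Type) [Fintype D] [LinearOrder D] (V : D → Type)
    [∀ i, MulAction Γ (V i)] (T : ∀ i, SimpleGraph (V i)) (h : ∀ i, TreeAct Γ (V i) (T i))
    (N : Type) [Group N] (π : N →* Γ), (∀ x, OE T x → VN.ProjStFree (St π x)) →
    (Nonempty D → ∀ x, OE T x → LPS (ZM (St π x))) →
    ∀ (S : Tg (SP h) π Finset.univ) (M : Co (SP h) N) (n₀ : ℤ), Acy h π M → RetT S M n₀ →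
    InC h π S

/-! ## The key theorem -/

/-- Module Cc. Module C1 with the sizes. -/
def StCc : Prop :=
  ∀ (Γ : Type) [Group Γ] (D : Type) [DecidableEq D] (P : D → Type) [∀ i, PartialOrder (P i)]
    [∀ i, MulAction Γ (P i)] [SzAct Γ P] (N : Type) [Monoid N] (π : N →* Γ) (U I : Finset D)
    (K : Co P N) (e : Matrix K.ι K.ι (ZM N)),
    IsCx π U K → HI π U K e → (∀ i ∈ I, Nul π (U.erase i) K K e) →
    ∃ (C : Co P N) (eC : Matrix C.ι C.ι (ZM N)), (∀ l, ∃ k, C.sz l = K.sz k) ∧ IsCx π U C ∧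
      HI π U C eC ∧ (∀ i ∈ I, Contr π (U.erase i) C) ∧ Iso π U K e C eC

/-- Module KIdem. All homotopy idempotents on acyclic complexes. -/
def StKIdem : Prop :=
  ∀ (Γ : Type) [Group Γ] (D : Type) [Fintype D] [LinearOrder D] (V : D → Type)
    [∀ i, MulAction Γ (V i)] (T : ∀ i, SimpleGraph (V i)) (h : ∀ i, TreeAct Γ (V i) (T i))
    (N : Type) [Group N] (π : N →* Γ), (∀ x, OE T x → VN.ProjStFree (St π x)) →
    (Nonempty D → ∀ x, OE T x → LPS (ZM (St π x))) →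
    ∀ (K : Co (SP h) N) (e : Matrix K.ι K.ι (ZM N)), IsCx π Finset.univ K →
    Cel h Finset.univ K.toOb → HI π Finset.univ K e →
    (∀ i, Nul π (Finset.univ.erase i) K K e) →
    ∃ M : Co (SP h) N, Cls h π M ∧ IsCx π Finset.univ M ∧ Iso π Finset.univ K e M 1

/-- Module KLat. The complexes in the class are acyclic and have lattices. -/
def StKLat : Prop :=
  ∀ (Γ : Type) [Group Γ] (D : Type) [Fintype D] [LinearOrder D] (V : D → Type)
    [∀ i, MulAction Γ (V i)] (T : ∀ i, SimpleGraph (V i)) (h : ∀ i, TreeAct Γ (V i) (T i)),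
    (∀ (N : Type) [Group N] (π : N →* Γ) (M : Co (SP h) N), Cls h π M → Acy h π M) ∧
    ∀ (G : Type) [Group G] (π : G →* Γ) (M : Co (SP h) (GZ G)), Cls h (pZ π) M →
    ∃ M₁ : Co (SP h) (GN G), IsCx (pN π) Finset.univ M₁ ∧ Cel h Finset.univ M₁.toOb ∧
      (∀ i, Contr (pN π) (Finset.univ.erase i) M₁) ∧
      Iso (pZ π) Finset.univ (M₁.map (loc G)) 1 M 1

/-- Module KR. Change of the index set of the directions and of the group which acts. -/
def StKR : Prop :=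
  ∀ (D D' : Type) [DecidableEq D] [DecidableEq D'] (ε : D → D') (hε : Function.Injective ε)
    (Γ Γ' : Type) [Group Γ] [Group Γ'] (ρ : Γ' →* Γ) (V : D' → Type)
    [∀ i, MulAction Γ' (V i)] [∀ i, MulAction Γ (V (ε i))] (T : ∀ i, SimpleGraph (V i))
    (h' : ∀ i, TreeAct Γ' (V i) (T i)) (h : ∀ i, TreeAct Γ (V (ε i)) (T (ε i))),
    (∀ (i : D) (γ : Γ') (v : V (ε i)), γ • v = ρ γ • v) →
    ∀ (G : Type) [Group G] (π' : G →* Γ') (π : G →* Γ), (∀ g, ρ (π' g) = π g) →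
    ∀ U : Finset D, (LL h π U ↔ LL h' π' (U.map ⟨ε, hε⟩))

/-- Module Key. The key theorem. -/
def StKey : Prop :=
  ∀ (Γ : Type) [Group Γ] (D : Type) [Finite D] [DecidableEq D] (V : D → Type)
    [∀ i, MulAction Γ (V i)] (T : ∀ i, SimpleGraph (V i)) (h : ∀ i, TreeAct Γ (V i) (T i))
    (G : Type) [Group G] (π : G →* Γ) (U : Finset D),
    (∀ x : ∀ i : U, V i × V i, (∀ i : U, (T i).Adj (x i).1 (x i).2) →
      ∀ m, VN.ProjStFree (St π x × ZN m)) →
    (U.Nonempty → ∀ x : ∀ i : U, V i × V i, (∀ i : U, (T i).Adj (x i).1 (x i).2) →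
      T6.StLPS (St π x)) →
    LL h π U

end Pool.Agent.Lib.MP_551055_al.W17
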