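import Mathlib
import Pool.Agent.Lib.MP_551055_al.Trim.LS.Stmts
import Pool.Agent.Lib.MP_551055_al.Trim.MT.Base
import Pool.Agent.Lib.MP_551055_al.Trim.MT.Defs
import Pool.Agent.Lib.MP_551055_al.Trim.MT.StA
import Pool.Agent.Lib.MP_551055_al.Trim.W17.StK

/-!
# Trees and products: module Cc (homotopy idempotents on acyclic complexes, with the sizes)
-/

set_option autoImplicit false

namespace Pool.Agent.Lib.MP_551055_al
end Pool.Agent.Lib.MP_551055_al

namespace Pool.Agent.Lib.MP_551055_al.MT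
end Pool.Agent.Lib.MP_551055_al.MT

namespace Pool.Agent.Lib.MP_551055_al.W17

open Pool.Agent.Lib.MP_551055_al

open Pool.Agent.Lib.MP_551055_al.MT

open Matrix

section

variable {Γ : Type} [Group Γ] {D : Type} {P : D → Type} [∀ i, PartialOrder (P i)]
  [∀ i, MulAction Γ (P i)] {N : Type} [Monoid N]

variable {π : N →* Γ} {U : Finset D} {K : Co P N}

/-- A chain map into the second summand of a cone. -/
theorem cc_cols {X Y Z : Co P N} {f : Matrix Y.ι Z.ι (ZM N)} {a : Matrix X.ι Z.ι (ZM N)}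
    (ha : Ch π U X Z a) :
    Ch π U X (cone Y Z f) (Matrix.fromCols (0 : Matrix X.ι Y.ι (ZM N)) a) := by
  refine ⟨?_, ?_⟩
  · rintro l (k | k) m hm
    · exact absurd rfl hm
    · exact ha.1 l k m hm
  · change X.d * Matrix.fromCols 0 a = Matrix.fromCols 0 a * Matrix.fromBlocks (-Y.d) f 0 Z.d
    rw [Matrix.mul_fromCols, Matrix.fromCols_mul_fromBlocks]
    simp only [Matrix.mul_zero, Matrix.zero_mul, add_zero, zero_add]
    rw [ha.2]

end

/-- Module Cc. -/
theorem stCc (h : StCC) : StCc := by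
  intro Γ _ D _ P _ _ _ N _ π U I K e hK he hI
  obtain ⟨he1, s, hs, he2⟩ := he
  have hf : Ch π U K K (1 - e) := Ch.one.sub he1
  have hnul : Nul π U K K (e - e * e) := ⟨s, hs, he2⟩
  -- the maps
  obtain ⟨u, hud⟩ : ∃ u : Matrix K.ι (cone K K (1 - e)).ι (ZM N),
    u = Matrix.fromCols (0 : Matrix K.ι K.ι (ZM N)) e := ⟨_, rfl⟩
  obtain ⟨j, hjd⟩ : ∃ j : Matrix K.ι (cone K K (1 - e)).ι (ZM N),
    j = Matrix.fromCols (0 : Matrix K.ι K.ι (ZM N)) 1 := ⟨_, rfl⟩
  obtain ⟨v, hvd⟩ : ∃ v : Matrix (cone K K (1 - e)).ι K.ι (ZM N),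
    v = Matrix.fromRows s e := ⟨_, rfl⟩
  have hu : Ch π U K (cone K K (1 - e)) u := by
    rw [hud]
    exact cc_cols he1
  have hj : Ch π U K (cone K K (1 - e)) j := by
    rw [hjd]
    exact cc_cols Ch.one
  have hv : Ch π U (cone K K (1 - e)) K v := by
    rw [hvd]
    refine ⟨?_, ?_⟩
    · rintro (l | l) k m hm
      · obtain ⟨a1, a2⟩ := hs l k m hm
        exact ⟨by rw [a1]; exact (add_zero _).symm, a2⟩
      · exact he1.1 l k m hm
    · change Matrix.fromBlocks (-K.d) (1 - e) 0 K.d * Matrix.fromRows s e =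
        Matrix.fromRows s e * K.d
      rw [Matrix.fromBlocks_mul_fromRows, Matrix.fromRows_mul]
      congr 1
      · rw [Matrix.sub_mul, Matrix.one_mul, he2, Matrix.neg_mul]
        abel
      · rw [Matrix.zero_mul, zero_add]
        exact he1.2
  have huj : u = e * j := by
    rw [hud, hjd, Matrix.mul_fromCols, Matrix.mul_zero, Matrix.mul_one]
  have huv : u * v = e * e := by
    rw [hud, hvd]
    change Matrix.fromCols (0 : Matrix K.ι K.ι (ZM N)) e * Matrix.fromRows s e = e * e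
    rw [Matrix.fromCols_mul_fromRows, Matrix.zero_mul, zero_add]
  refine ⟨cone K K (1 - e), v * u, ?_, hK.cone hK hf, ⟨hv.mul hu, ?_⟩, ?_, u, v, hu, hv, ?_, ?_⟩
  · rintro (l | l)
    · exact ⟨l, rfl⟩
    · exact ⟨l, rfl⟩
  · have e1 : Nul π U K K ((e - e * e) + (e - e * e) * e) := hnul.add (hnul.mul_ch he1)
    have e2 := (hv.mul_nul e1).mul_ch hj
    have e3 : v * ((e - e * e) + (e - e * e) * e) * j = v * u - v * u * (v * u) := by
      have e4 : v * u * (v * u) = v * (u * v) * u := by simp only [Matrix.mul_assoc]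
      rw [e4, huv, huj]
      simp only [Matrix.mul_add, Matrix.add_mul, Matrix.mul_sub, Matrix.sub_mul,
        Matrix.mul_assoc]
      abel
    rwa [e3] at e2
  · intro i hi
    have hm : U.erase i ⊆ U := Finset.erase_subset i U
    obtain ⟨h1, -⟩ := h Γ D P N π (U.erase i) K K (1 - e) (hf.mono hm)
    refine h1 1 Ch.one ?_ ?_
    · rw [Matrix.mul_one, sub_sub_cancel_left]
      exact (hI i hi).neg
    · rw [Matrix.one_mul, sub_sub_cancel_left]
      exact (hI i hi).neg
  · rw [huv]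
    have h1 := hnul.neg
    rwa [neg_sub] at h1
  · rw [sub_self]
    exact Nul.zero

end Pool.Agent.Lib.MP_551055_al.W17
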