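import Mathlib
import Pool.Agent.Lib.MP_551055_al.Trim.LS.BassProj
import Pool.Agent.Lib.MP_551055_al.Trim.LS.PStmts
import Pool.Agent.Lib.MP_551055_al.Trim.LS.Stmts
import Pool.Agent.Lib.MP_551055_al.Trim.MT.Defs
import Pool.Agent.Lib.MP_551055_al.Trim.MT.Trees
import Pool.Agent.Lib.MP_551055_al.Trim.W17.Defs
import Pool.Agent.Lib.MP_551055_al.Trim.W17.StF
import Pool.Agent.Lib.MP_551055_al.Trim.W17.StK
import Pool.Agent.Lib.MP_551055_al.Trim.W17.StU

/-!
# Trees and products: module FRel (two families of trees)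
-/

set_option autoImplicit false

namespace Pool.Agent.Lib.MP_551055_al
end Pool.Agent.Lib.MP_551055_al

namespace Pool.Agent.Lib.MP_551055_al.LS
end Pool.Agent.Lib.MP_551055_al.LS

namespace Pool.Agent.Lib.MP_551055_al.MT
end Pool.Agent.Lib.MP_551055_al.MT

namespace Pool.Agent.Lib.MP_551055_al.W17

open Pool.Agent.Lib.MP_551055_al

open Pool.Agent.Lib.MP_551055_al.LS (TreeAct ZN)

open Pool.Agent.Lib.MP_551055_al.MT

open Matrix

section

variable {Γ : Type} [Group Γ] {V : Type} [MulAction Γ V] {T : SimpleGraph V} (h : TreeAct Γ V T)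

theorem frel_vtx_fix (γ : Γ) (v : V) : γ • vtx h v = vtx h v ↔ γ • v = v := by
  rw [smul_vtx]
  constructor
  · intro h1
    have h2 : ({γ • v} : Set V) = {v} := congrArg Sub.set h1
    exact Set.singleton_injective h2
  · intro h1
    rw [h1]

theorem frel_edg_fix (γ : Γ) {u v : V} (huv : T.Adj u v) :
    γ • edg h u v = edg h u v ↔ γ • u = u ∧ γ • v = v := by
  rw [smul_edg h γ huv]
  constructor
  · intro h1
    have h2 : ({γ • u, γ • v} : Set V) = {u, v} := by
      have h3 := congrArg Sub.set h1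
      rwa [edg_set h huv, edg_set h (h.adj γ u v huv)] at h3
    have hu : γ • u = u ∨ γ • u = v := by
      have h3 : γ • u ∈ ({u, v} : Set V) := by
        rw [← h2]
        exact Or.inl rfl
      exact h3
    have hv : γ • v = u ∨ γ • v = v := by
      have h3 : γ • v ∈ ({u, v} : Set V) := by
        rw [← h2]
        exact Or.inr rfl
      exact h3
    rcases hu with hu | hu
    · rcases hv with hv | hv
      · exact absurd (MulAction.injective γ (hu.trans hv.symm)) huv.ne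
      · exact ⟨hu, hv⟩
    · rcases hv with hv | hv
      · exact absurd hv (h.inv γ u v huv hu)
      · exact absurd (MulAction.injective γ (hu.trans hv.symm)) huv.ne
  · rintro ⟨h1, h2⟩
    rw [h1, h2]

/-- The ends of a cell. -/
theorem frel_ends (A : Sub h) (hA : Cl h A) : ∃ v w : V, (v = w ∨ T.Adj v w) ∧
    ∀ γ : Γ, γ • A = A ↔ γ • v = v ∧ γ • w = w := by
  rcases hA with ⟨v, rfl⟩ | ⟨u, v, huv, rfl⟩
  · refine ⟨v, v, Or.inl rfl, fun γ => ?_⟩
    rw [frel_vtx_fix]
    exact ⟨fun h1 => ⟨h1, h1⟩, fun h1 => h1.1⟩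
  · exact ⟨u, v, Or.inr huv, fun γ => frel_edg_fix h γ huv⟩

end

/-- Module FRel. -/
theorem stFRel (hDn : StFDn) (hR : StKR) (hTra : StTra) : StFRel := by
  intro Γ _ D _ _ V _ T h N₁ _ π₁ U Γ' _ D' _ _ V' _ T' h' G _ ρ H1 H2
  classical
  have : Fintype D' := Fintype.ofFinite D'
  have hinj : Function.Injective (Sum.inl : D → D ⊕ D') := Sum.inl_injective
  -- the change of the directions
  have hRR : ∀ (G₀ : Type) [Group G₀] (π' : G₀ →* Γ × Γ') (π : G₀ →* Γ),
      (∀ g, (π' g).1 = π g) → (LL h π U ↔ LL (hS h h') π' (U.map Function.Embedding.inl)) := by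
    intro G₀ _ π' π hπ
    letI : ∀ i : D, MulAction Γ (Sum.elim V V' (Sum.inl i)) :=
      fun i => inferInstanceAs (MulAction Γ (V i))
    exact hR D (D ⊕ D') Sum.inl hinj Γ (Γ × Γ') (MonoidHom.fst Γ Γ') (Sum.elim V V')
      (gS T T') (hS h h') h (fun i γ v => rfl) G₀ π' π hπ U
  rw [hRR (N₁ × G) (π₁.prodMap ρ) (π₁.comp (MonoidHom.fst N₁ G)) fun g => rfl]
  refine hDn (Γ × Γ') (D ⊕ D') (Sum.elim V V') (gS T T') (hS h h') (N₁ × G) (π₁.prodMap ρ)
    (U.map Function.Embedding.inl) (Finset.univ.map Function.Embedding.inr) ?_ ?_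
  · rw [Finset.disjoint_left]
    intro a ha hb
    obtain ⟨k, _, hk⟩ := Finset.mem_map.1 ha
    obtain ⟨k', _, hk'⟩ := Finset.mem_map.1 hb
    rw [← hk] at hk'
    exact absurd hk' (by simp)
  intro J hJ A hA
  -- the ends
  have hne : ∀ i, Nonempty (V' i) := fun i => (h' i).tree.1.nonempty
  have hend : ∀ i : D', ∃ v w : V' i, (v = w ∨ (T' i).Adj v w) ∧ (Sum.inr i ∈ J →
      ∀ γ : Γ × Γ', γ • A (Sum.inr i) = A (Sum.inr i) ↔ γ.2 • v = v ∧ γ.2 • w = w) := by
    intro i
    by_cases hi : (Sum.inr i : D ⊕ D') ∈ J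
    · obtain ⟨v, w, h1, h2⟩ := frel_ends (hS h h' (Sum.inr i)) (A (Sum.inr i)) (hA _ hi)
      exact ⟨v, w, h1, fun _ => h2⟩
    · obtain ⟨v⟩ := hne i
      exact ⟨v, v, Or.inl rfl, fun h1 => absurd h1 hi⟩
  choose v w hvw hfix using hend
  let U' : Finset D' := Finset.univ.filter fun i => (Sum.inr i : D ⊕ D') ∉ J
  have hU' : ∀ i, i ∈ U' ↔ (Sum.inr i : D ⊕ D') ∉ J := fun i => by simp [U']
  let S : Subgroup G :=
    { carrier := {g | ∀ i, i ∉ U' → ρ g • v i = v i ∧ ρ g • w i = w i}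
      one_mem' := fun i _ => by rw [map_one, one_smul, one_smul]; exact ⟨rfl, rfl⟩
      mul_mem' := fun {a b} ha hb i hi => by
        rw [map_mul, mul_smul, mul_smul, (hb i hi).1, (hb i hi).2]
        exact ha i hi
      inv_mem' := fun {a} ha i hi => by
        rw [map_inv, inv_smul_eq_iff, inv_smul_eq_iff, (ha i hi).1, (ha i hi).2]
        exact ⟨rfl, rfl⟩ }
  have hSm : ∀ g, g ∈ S ↔ ∀ i, i ∉ U' → ρ g • v i = v i ∧ ρ g • w i = w i := fun g => Iff.rfl
  -- the subgroup
  have hmem : ∀ g : N₁ × G, g ∈ StJ (hS h h') (π₁.prodMap ρ) A J ↔ g.2 ∈ S := by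
    intro g
    constructor
    · intro hg i hi
      have h1 : (Sum.inr i : D ⊕ D') ∈ J := by
        by_contra h2
        exact hi ((hU' i).2 h2)
      exact (hfix i h1 (π₁.prodMap ρ g)).1 (hg (Sum.inr i) h1)
    · intro hg j hj
      obtain ⟨i, _, rfl⟩ := Finset.mem_map.1 (hJ hj)
      have h1 : i ∉ U' := fun h2 => (hU' i).1 h2 hj
      exact (hfix i hj (π₁.prodMap ρ g)).2 (hg i h1)
  let φ : N₁ × S ≃* StJ (hS h h') (π₁.prodMap ρ) A J :=
    { toFun := fun g => ⟨(g.1, g.2.1), (hmem _).2 g.2.2⟩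
      invFun := fun g => (g.1.1, ⟨g.1.2, (hmem _).1 g.2⟩)
      left_inv := fun g => rfl
      right_inv := fun g => rfl
      map_mul' := fun a b => rfl }
  have hset : U.map Function.Embedding.inl ∪ (Finset.univ.map Function.Embedding.inr \ J) =
      (U.map Function.Embedding.inl ∪ U'.map Function.Embedding.inr : Finset (D ⊕ D')) := by
    congr 1
    ext j
    rw [Finset.mem_sdiff, Finset.mem_map, Finset.mem_map]
    constructor
    · rintro ⟨⟨i, _, rfl⟩, h2⟩
      exact ⟨i, (hU' i).2 h2, rfl⟩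
    · rintro ⟨i, hi, rfl⟩
      exact ⟨⟨i, Finset.mem_univ i, rfl⟩, (hU' i).1 hi⟩
  rw [hset]
  refine (hTra (Γ × Γ') (D ⊕ D') (Sum.elim V V') (gS T T') (hS h h') (N₁ × S)
    (StJ (hS h h') (π₁.prodMap ρ) A J) (π₁.prodMap (ρ.comp S.subtype))
    ((π₁.prodMap ρ).comp (StJ (hS h h') (π₁.prodMap ρ) A J).subtype) φ (fun g => rfl) _).2.2 ?_
  rcases U'.eq_empty_or_nonempty with h0 | h0
  · rw [h0, Finset.map_empty, Finset.union_empty]
    refine (hRR (N₁ × S) (π₁.prodMap (ρ.comp S.subtype)) (π₁.comp (MonoidHom.fst N₁ S))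
      fun g => rfl).1 ?_
    have hST : ∀ g, g ∈ S ↔ g ∈ St ρ (v, w) := by
      intro g
      rw [hSm]
      constructor
      · intro hg
        change ρ g • (v, w) = (v, w)
        refine Prod.ext ?_ ?_
        · funext i
          exact (hg i (by rw [h0]; exact Finset.notMem_empty i)).1
        · funext i
          exact (hg i (by rw [h0]; exact Finset.notMem_empty i)).2
      · intro hg i _
        exact ⟨congrFun (congrArg Prod.fst (show ρ g • (v, w) = (v, w) from hg)) i,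
          congrFun (congrArg Prod.snd (show ρ g • (v, w) = (v, w) from hg)) i⟩
    let ψ : N₁ × St ρ (v, w) ≃* N₁ × S :=
      { toFun := fun g => (g.1, ⟨g.2.1, (hST _).2 g.2.2⟩)
        invFun := fun g => (g.1, ⟨g.2.1, (hST _).1 g.2.2⟩)
        left_inv := fun g => rfl
        right_inv := fun g => rfl
        map_mul' := fun a b => rfl }
    exact (hTra Γ D V T h (N₁ × St ρ (v, w)) (N₁ × S)
      (π₁.comp (MonoidHom.fst N₁ (St ρ (v, w)))) (π₁.comp (MonoidHom.fst N₁ S)) ψ
      (fun g => rfl) U).2.2 (H1 v w hvw)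
  · exact H2 v w U' hvw h0 S hSm

end Pool.Agent.Lib.MP_551055_al.W17
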