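import Mathlib
import Pool.Agent.Lib.MP_551055_al.Trim.LS.PStmts
import Pool.Agent.Lib.MP_551055_al.Trim.LS.Stmts
import Pool.Agent.Lib.MP_551055_al.Trim.W17.Defs
import Pool.Agent.Lib.MP_551055_al.Trim.W17.StF

/-!
# Trees and products: module FStab (the stabilisers of the full edges)
-/

set_option autoImplicit false

namespace Pool.Agent.Lib.MP_551055_al
end Pool.Agent.Lib.MP_551055_al

namespace Pool.Agent.Lib.MP_551055_al.LS
end Pool.Agent.Lib.MP_551055_al.LS

namespace Pool.Agent.Lib.MP_551055_al.MT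
end Pool.Agent.Lib.MP_551055_al.MT

namespace Pool.Agent.Lib.MP_551055_al.W17

open Pool.Agent.Lib.MP_551055_al

open Pool.Agent.Lib.MP_551055_al.LS (TreeAct ZN)

open Pool.Agent.Lib.MP_551055_al.MT

open Matrix

theorem fstab_mem {Γ : Type} [Group Γ] {G : Type} [Group G] (π : G →* Γ) {Z : Type}
    [MulAction Γ Z] (A : Z) (g : G) : g ∈ St π A ↔ π g • A = A := Iff.rfl

/-- Module FStab. -/
theorem stFStab : StFStab := by
  intro Γ _ D _ V _ T N₁ _ π₁ U G _ D' _ V' _ T' v w U' hT hU' S hS x hx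
  have hl : ∀ i : U, (Sum.inl i.1 : D ⊕ D') ∈
      (U.map Function.Embedding.inl ∪ U'.map Function.Embedding.inr : Finset (D ⊕ D')) :=
    fun i => Finset.mem_union_left _ (Finset.mem_map_of_mem Function.Embedding.inl i.2)
  have hr : ∀ i : D', i ∈ U' → (Sum.inr i : D ⊕ D') ∈
      (U.map Function.Embedding.inl ∪ U'.map Function.Embedding.inr : Finset (D ⊕ D')) :=
    fun i hi => Finset.mem_union_right _ (Finset.mem_map_of_mem Function.Embedding.inr hi)
  let y : ∀ i : U, V i × V i := fun i => x ⟨Sum.inl i.1, hl i⟩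
  let v' : ∀ i, V' i := fun i => if hi : i ∈ U' then (x ⟨Sum.inr i, hr i hi⟩).1 else v i
  let w' : ∀ i, V' i := fun i => if hi : i ∈ U' then (x ⟨Sum.inr i, hr i hi⟩).2 else w i
  have hv1 : ∀ i (hi : i ∈ U'), v' i = (x ⟨Sum.inr i, hr i hi⟩).1 := fun i hi => dif_pos hi
  have hw1 : ∀ i (hi : i ∈ U'), w' i = (x ⟨Sum.inr i, hr i hi⟩).2 := fun i hi => dif_pos hi
  have hv0 : ∀ i, i ∉ U' → v' i = v i := fun i hi => dif_neg hi
  have hw0 : ∀ i, i ∉ U' → w' i = w i := fun i hi => dif_neg hi
  have hadj : ∀ i, i ∈ U' → (T' i).Adj (v' i) (w' i) := by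
    intro i hi
    rw [hv1 i hi, hw1 i hi]
    exact hx ⟨Sum.inr i, hr i hi⟩
  have key : ∀ g : N₁ × S, g ∈ St (π₁.prodMap S.subtype) x ↔
      g.1 ∈ St π₁ y ∧ (g.2 : G) ∈ MulAction.stabilizer G (v', w') := by
    intro g
    rw [fstab_mem, fstab_mem, MulAction.mem_stabilizer_iff]
    constructor
    · intro h1
      have h2 := fun i => congrFun h1 i
      refine ⟨?_, ?_⟩
      · funext i
        exact h2 ⟨Sum.inl i.1, hl i⟩
      · refine Prod.ext ?_ ?_
        · funext i
          change (g.2 : G) • v' i = v' i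
          by_cases hi : i ∈ U'
          · rw [hv1 i hi]
            exact congrArg Prod.fst (h2 ⟨Sum.inr i, hr i hi⟩)
          · rw [hv0 i hi]
            exact ((hS g.2.1).1 g.2.2 i hi).1
        · funext i
          change (g.2 : G) • w' i = w' i
          by_cases hi : i ∈ U'
          · rw [hw1 i hi]
            exact congrArg Prod.snd (h2 ⟨Sum.inr i, hr i hi⟩)
          · rw [hw0 i hi]
            exact ((hS g.2.1).1 g.2.2 i hi).2
    · rintro ⟨h1, h2⟩
      have h3 : ∀ i, (g.2 : G) • v' i = v' i := fun i => congrFun (congrArg Prod.fst h2) i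
      have h4 : ∀ i, (g.2 : G) • w' i = w' i := fun i => congrFun (congrArg Prod.snd h2) i
      funext i
      obtain ⟨i, hi⟩ := i
      rcases i with i | i
      · have hi' : i ∈ U := by
          rcases Finset.mem_union.1 hi with h5 | h5
          · obtain ⟨k, hk, hk'⟩ := Finset.mem_map.1 h5
            rw [← Sum.inl.inj hk']
            exact hk
          · obtain ⟨k, hk, hk'⟩ := Finset.mem_map.1 h5
            exact absurd hk' (by simp)
        exact congrFun h1 ⟨i, hi'⟩
      · have hi' : i ∈ U' := by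
          rcases Finset.mem_union.1 hi with h5 | h5
          · obtain ⟨k, hk, hk'⟩ := Finset.mem_map.1 h5
            exact absurd hk' (by simp)
          · obtain ⟨k, hk, hk'⟩ := Finset.mem_map.1 h5
            rw [← Sum.inr.inj hk']
            exact hk
        have h5 := h3 i
        have h6 := h4 i
        rw [hv1 i hi'] at h5
        rw [hw1 i hi'] at h6
        exact Prod.ext h5 h6
  have hmS : ∀ g : G, g ∈ MulAction.stabilizer G (v', w') → g ∈ S := by
    intro g hg
    rw [hS]
    intro i hi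
    have h3 : g • v' i = v' i := congrFun (congrArg Prod.fst hg) i
    have h4 : g • w' i = w' i := congrFun (congrArg Prod.snd hg) i
    rw [hv0 i hi] at h3
    rw [hw0 i hi] at h4
    exact ⟨h3, h4⟩
  refine ⟨y, v', w', fun i => hx ⟨Sum.inl i.1, hl i⟩, fun i => ?_, ?_, ⟨?_⟩⟩
  · by_cases hi : i ∈ U'
    · exact Or.inr (hadj i hi)
    · rw [hv0 i hi, hw0 i hi]
      exact hT i
  · obtain ⟨i, hi⟩ := hU'
    exact ⟨i, (hadj i hi).ne⟩
  · exact
      { toFun := fun g => (⟨g.1.1, ((key g.1).1 g.2).1⟩, ⟨g.1.2.1, ((key g.1).1 g.2).2⟩)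
        invFun := fun p => ⟨(p.1.1, ⟨p.2.1, hmS _ p.2.2⟩), (key _).2 ⟨p.1.2, p.2.2⟩⟩
        left_inv := fun g => rfl
        right_inv := fun p => rfl
        map_mul' := fun a b => rfl }

end Pool.Agent.Lib.MP_551055_al.W17
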