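import Mathlib
import Pool.Agent.Lib.MP_551055_al.Trim.MT.Base
import Pool.Agent.Lib.MP_551055_al.Trim.MT.Defs
import Pool.Agent.Lib.MP_551055_al.Trim.W17.StU

/-!
# Trees and products: triangular homotopy idempotents of cones
-/

set_option autoImplicit false

namespace Pool.Agent.Lib.MP_551055_al
end Pool.Agent.Lib.MP_551055_al

namespace Pool.Agent.Lib.MP_551055_al.MT
end Pool.Agent.Lib.MP_551055_al.MT

namespace Pool.Agent.Lib.MP_551055_al.W17

open Pool.Agent.Lib.MP_551055_al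

open Pool.Agent.Lib.MP_551055_al.MT

open Matrix

section

variable {Γ : Type} [Group Γ] {D : Type} {P : D → Type} [∀ i, PartialOrder (P i)]
  [∀ i, MulAction Γ (P i)] [SzAct Γ P] {N : Type} [Monoid N]

variable {π : N →* Γ} {U : Finset D} {X Y Z W : Co P N}

/-- A null-homotopic matrix is a chain map. -/
theorem gl_nul_ch {f : Matrix X.ι Y.ι (ZM N)} (hX : IsCx π U X) (hY : IsCx π U Y)
    (h : Nul π U X Y f) : Ch π U X Y f := by
  obtain ⟨s, hs, rfl⟩ := h
  refine ⟨(hX.1.mul' hs (by norm_num)).add (hs.mul' hY.1 (by norm_num)), ?_⟩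
  rw [Matrix.mul_add, Matrix.add_mul, ← Matrix.mul_assoc, hX.2, Matrix.zero_mul, zero_add,
    Matrix.mul_assoc s, hY.2, Matrix.mul_zero, add_zero, Matrix.mul_assoc]

/-- Homotopy idempotents whose difference has a null-homotopic square. -/
theorem gl_iso_of_sq {e p : Matrix X.ι X.ι (ZM N)} (he : HI π U X e) (hp : HI π U X p)
    (h : Nul π U X X ((e - p) * (e - p))) : Iso π U X e X p := by
  have key : ∀ {e p : Matrix X.ι X.ι (ZM N)}, HI π U X e → HI π U X p →
      Nul π U X X ((e - p) * (e - p)) → Nul π U X X (e * p * p * e - e) := by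
    intro e p he hp h
    have t0 : Nul π U X X (e * ((e - p) * (e - p)) * e) := (he.1.mul_nul h).mul_ch he.1
    have t1 := he.2
    have t2 : Nul π U X X (e * (e - e * e)) := he.1.mul_nul he.2
    have t3 : Nul π U X X (e * (e * (e - e * e))) := he.1.mul_nul t2
    have t4 : Nul π U X X ((e - e * e) * (p * e)) := he.2.mul_ch (hp.1.mul he.1)
    have t5 : Nul π U X X (e * p * (e - e * e)) := (he.1.mul hp.1).mul_nul he.2
    have t6 : Nul π U X X (e * (p - p * p) * e) := (he.1.mul_nul hp.2).mul_ch he.1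
    have t7 := (((((((t0.add t1).add t2).add t3).sub t4).sub t5).add t6).add t6).neg
    have t8 : -(e * ((e - p) * (e - p)) * e + (e - e * e) + e * (e - e * e) +
        e * (e * (e - e * e)) - (e - e * e) * (p * e) - e * p * (e - e * e) +
        e * (p - p * p) * e + e * (p - p * p) * e) = e * p * p * e - e := by
      simp only [Matrix.mul_sub, Matrix.sub_mul, Matrix.mul_assoc]
      abel
    rwa [t8] at t7
  have h' : Nul π U X X ((p - e) * (p - e)) := by
    have h1 : (p - e) * (p - e) = (e - p) * (e - p) := by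
      simp only [Matrix.mul_sub, Matrix.sub_mul]
      abel
    rwa [h1]
  refine ⟨e * p, p * e, he.1.mul hp.1, hp.1.mul he.1, ?_, ?_⟩
  · have h1 := key he hp h
    rwa [Matrix.mul_assoc (e * p) p e] at h1
  · have h1 := key hp he h'
    rwa [Matrix.mul_assoc (p * e) e p] at h1

omit [SzAct Γ P] in
/-- A triangular matrix with null-homotopic diagonal is homotopic to a strictly triangular one. -/
theorem gl_nul_tri {X' Y' : Co P N} {f : Matrix X.ι Y.ι (ZM N)} {f' : Matrix X'.ι Y'.ι (ZM N)}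
    {A : Matrix X.ι X'.ι (ZM N)} {B : Matrix Y.ι Y'.ι (ZM N)} (C : Matrix X.ι Y'.ι (ZM N)) (hA : Nul π U X X' A)
    (hB : Nul π U Y Y' B) : ∃ c : Matrix X.ι Y'.ι (ZM N),
      Nul π U (cone X Y f) (cone X' Y' f') (Matrix.fromBlocks A C 0 B -
        Matrix.fromBlocks 0 c 0 0) := by
  obtain ⟨s, hs, rfl⟩ := hA
  obtain ⟨t, ht, rfl⟩ := hB
  refine ⟨C - (f * t - s * f'), Matrix.fromBlocks (-s) 0 0 t, ?_, ?_⟩
  · exact Ct.blocks hs.neg Ct.zero Ct.zero ht
  · change _ = Matrix.fromBlocks (-X.d) f 0 Y.d * Matrix.fromBlocks (-s) 0 0 t +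
      Matrix.fromBlocks (-s) 0 0 t * Matrix.fromBlocks (-X'.d) f' 0 Y'.d
    rw [Matrix.fromBlocks_multiply, Matrix.fromBlocks_multiply, Matrix.fromBlocks_add,
      sub_eq_add_neg, Matrix.fromBlocks_neg, Matrix.fromBlocks_add]
    simp only [Matrix.neg_mul, Matrix.mul_neg, neg_neg, Matrix.mul_zero, Matrix.zero_mul,
      add_zero, zero_add, neg_zero]
    congr 1
    abel

omit [SzAct Γ P] in
/-- Homotopy commutative squares give maps of cones. -/
theorem gl_cone_map {X' Y' : Co P N} {f : Matrix X.ι Y.ι (ZM N)} {f' : Matrix X'.ι Y'.ι (ZM N)}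
    {a : Matrix X.ι X'.ι (ZM N)} {b : Matrix Y.ι Y'.ι (ZM N)} (ha : Ch π U X X' a)
    (hb : Ch π U Y Y' b) (h : Nul π U X Y' (f * b - a * f')) : ∃ s : Matrix X.ι Y'.ι (ZM N),
      Ch π U (cone X Y f) (cone X' Y' f') (Matrix.fromBlocks a s 0 b) := by
  obtain ⟨s, hs, h1⟩ := h
  refine ⟨s, Ct.blocks ha.1 (by rwa [zero_add]) Ct.zero hb.1, ?_⟩
  change Matrix.fromBlocks (-X.d) f 0 Y.d * Matrix.fromBlocks a s 0 b =
    Matrix.fromBlocks a s 0 b * Matrix.fromBlocks (-X'.d) f' 0 Y'.d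
  rw [Matrix.fromBlocks_multiply, Matrix.fromBlocks_multiply]
  simp only [Matrix.neg_mul, Matrix.mul_neg, Matrix.mul_zero, Matrix.zero_mul, add_zero,
    zero_add]
  congr 1
  · rw [ha.2]
  · have h2 : f * b = a * f' + (X.d * s + s * Y'.d) := by rw [← h1]; abel
    rw [h2]
    abel
  · exact hb.2

theorem gl_fb_sub {α β α' β' R : Type} [Ring R] (A A' : Matrix α α' R) (B B' : Matrix α β' R)
    (C C' : Matrix β α' R) (E E' : Matrix β β' R) :
    Matrix.fromBlocks A B C E - Matrix.fromBlocks A' B' C' E' =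
      Matrix.fromBlocks (A - A') (B - B') (C - C') (E - E') := by
  rw [sub_eq_add_neg, Matrix.fromBlocks_neg, Matrix.fromBlocks_add]
  simp only [sub_eq_add_neg]

theorem gl_tri_sq {X' : Type} [Fintype X'] {Y' : Type} [Fintype Y'] (c c' : Matrix X' Y' (ZM N)) :
    (Matrix.fromBlocks 0 c 0 0 : Matrix (X' ⊕ Y') (X' ⊕ Y') (ZM N)) *
      Matrix.fromBlocks 0 c' 0 0 = 0 := by
  rw [Matrix.fromBlocks_multiply]
  simp only [Matrix.mul_zero, Matrix.zero_mul, add_zero]
  exact Matrix.fromBlocks_zero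

end

/-- Module Glue. -/
theorem stGlue : StGlue := by
  intro Γ _ D P _ _ _ N _ π U X Y f a x b hX hY hf ha hb hE M M' hM hM' hXM hYM
  obtain ⟨uX, vX, huX, hvX, hX1, hX2⟩ := hXM
  obtain ⟨uY, vY, huY, hvY, hY1, hY2⟩ := hYM
  have hfx : Nul π U X Y (f * b - a * f) := by
    refine ⟨x, ?_, ?_⟩
    · intro l k m hm
      obtain ⟨h1, h2⟩ := hE.1.1 (Sum.inl l) (Sum.inr k) m hm
      refine ⟨?_, h2⟩
      change Y.deg k = X.deg l + 1 + 0 at h1
      omega
    · have h1 := hE.1.2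
      change Matrix.fromBlocks (-X.d) f 0 Y.d * Matrix.fromBlocks a x 0 b =
        Matrix.fromBlocks a x 0 b * Matrix.fromBlocks (-X.d) f 0 Y.d at h1
      rw [Matrix.fromBlocks_multiply, Matrix.fromBlocks_multiply] at h1
      have h2 := (Matrix.fromBlocks_inj.1 h1).2.1
      rw [Matrix.neg_mul] at h2
      have h3 : f * b = X.d * x + (a * f + x * Y.d) := by rw [← h2]; abel
      rw [h3]
      abel
  have hg : Ch π U M M' (vX * f * uY) := (hvX.mul hf).mul huY
  refine ⟨vX * f * uY, hg, ?_⟩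
  obtain ⟨g, hgdef⟩ : ∃ g, g = vX * f * uY := ⟨_, rfl⟩
  rw [← hgdef] at hg ⊢
  -- the two squares
  have hsq1 : Nul π U X M' (f * uY - uX * g) := by
    have t1 : Nul π U X M' ((uX * vX - a) * (f * uY)) := hX1.mul_ch (hf.mul huY)
    have t2 : Nul π U X M' ((f * b - a * f) * uY) := hfx.mul_ch huY
    have t3 : Nul π U X M' (f * ((uY * vY - b) * uY)) := hf.mul_nul (hY1.mul_ch huY)
    have t4 : Nul π U X M' (f * (uY * (vY * uY - 1))) := hf.mul_nul (huY.mul_nul hY2)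
    have t5 := (((t2.sub t1).add t3).sub t4)
    have t6 : (f * b - a * f) * uY - (uX * vX - a) * (f * uY) + f * ((uY * vY - b) * uY) -
        f * (uY * (vY * uY - 1)) = f * uY - uX * g := by
      rw [hgdef]
      simp only [Matrix.mul_sub, Matrix.sub_mul, Matrix.mul_assoc, Matrix.mul_one]
      abel
    rwa [t6] at t5
  have hsq2 : Nul π U M Y (g * vY - vX * f) := by
    have t1 : Nul π U M Y (vX * f * (uY * vY - b)) := (hvX.mul hf).mul_nul hY1
    have t2 : Nul π U M Y (vX * (f * b - a * f)) := hvX.mul_nul hfx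
    have t3 : Nul π U M Y (vX * (uX * vX - a) * f) := (hvX.mul_nul hX1).mul_ch hf
    have t4 : Nul π U M Y ((vX * uX - 1) * (vX * f)) := hX2.mul_ch (hvX.mul hf)
    have t5 := (((t1.add t2).sub t3).add t4)
    have t6 : vX * f * (uY * vY - b) + vX * (f * b - a * f) - vX * (uX * vX - a) * f +
        (vX * uX - 1) * (vX * f) = g * vY - vX * f := by
      rw [hgdef]
      simp only [Matrix.mul_sub, Matrix.sub_mul, Matrix.mul_assoc, Matrix.one_mul]
      abel
    rwa [t6] at t5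
  have hCf : IsCx π U (cone X Y f) := hX.cone hY hf
  have hCg : IsCx π U (cone M M' g) := hM.cone hM' hg
  obtain ⟨s, hU⟩ := gl_cone_map huX huY hsq1
  obtain ⟨t, hV⟩ := gl_cone_map hvX hvY hsq2
  -- `V U ~ 1 + n`
  obtain ⟨n, hn⟩ := gl_nul_tri (f := g) (f' := g) (vX * s + t * uY) hX2 hY2
  have hVU : Matrix.fromBlocks (vX * uX - 1) (vX * s + t * uY) 0 (vY * uY - 1) =
      Matrix.fromBlocks vX t 0 vY * Matrix.fromBlocks uX s 0 uY - 1 := by
    rw [Matrix.fromBlocks_multiply, ← Matrix.fromBlocks_one, gl_fb_sub]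
    simp only [Matrix.mul_zero, Matrix.zero_mul, add_zero, zero_add, sub_zero]
  rw [hVU] at hn
  -- `U V - e ~ n'`
  obtain ⟨n', hn'⟩ := gl_nul_tri (f := f) (f' := f) (uX * t + s * vY - x) hX1 hY1
  have hUV : Matrix.fromBlocks (uX * vX - a) (uX * t + s * vY - x) 0 (uY * vY - b) =
      Matrix.fromBlocks uX s 0 uY * Matrix.fromBlocks vX t 0 vY -
        Matrix.fromBlocks a x 0 b := by
    rw [Matrix.fromBlocks_multiply, gl_fb_sub]
    simp only [Matrix.mul_zero, Matrix.zero_mul, add_zero, zero_add, sub_zero]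
  rw [hUV] at hn'
  have hUnV : Matrix.fromBlocks uX s 0 uY *
      (Matrix.fromBlocks 0 n 0 0 : Matrix (M.ι ⊕ M'.ι) (M.ι ⊕ M'.ι) (ZM N)) *
      Matrix.fromBlocks vX t 0 vY =
      (Matrix.fromBlocks 0 (uX * n * vY) 0 0 : Matrix (X.ι ⊕ Y.ι) (X.ι ⊕ Y.ι) (ZM N)) := by
    rw [Matrix.fromBlocks_multiply, Matrix.fromBlocks_multiply]
    simp only [Matrix.mul_zero, Matrix.zero_mul, add_zero, zero_add]
  have hnn : (Matrix.fromBlocks 0 n 0 0 : Matrix (M.ι ⊕ M'.ι) (M.ι ⊕ M'.ι) (ZM N)) *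
      Matrix.fromBlocks 0 n 0 0 = 0 := gl_tri_sq n n
  have hn'' : (Matrix.fromBlocks 0 (uX * n * vY) 0 0 - Matrix.fromBlocks 0 n' 0 0 :
      Matrix (X.ι ⊕ Y.ι) (X.ι ⊕ Y.ι) (ZM N)) *
      (Matrix.fromBlocks 0 (uX * n * vY) 0 0 - Matrix.fromBlocks 0 n' 0 0) = 0 := by
    simp only [Matrix.mul_sub, Matrix.sub_mul, gl_tri_sq, sub_self]
  -- names
  obtain ⟨UU, hUU⟩ : ∃ A, A = Matrix.fromBlocks uX s 0 uY := ⟨_, rfl⟩
  obtain ⟨VV, hVV⟩ : ∃ A, A = Matrix.fromBlocks vX t 0 vY := ⟨_, rfl⟩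
  obtain ⟨E, hEE⟩ : ∃ A, A = Matrix.fromBlocks a x 0 b := ⟨_, rfl⟩
  obtain ⟨n1, hn1⟩ : ∃ A : Matrix (M.ι ⊕ M'.ι) (M.ι ⊕ M'.ι) (ZM N),
    A = Matrix.fromBlocks 0 n 0 0 := ⟨_, rfl⟩
  obtain ⟨n2, hn2⟩ : ∃ A : Matrix (X.ι ⊕ Y.ι) (X.ι ⊕ Y.ι) (ZM N),
    A = Matrix.fromBlocks 0 n' 0 0 := ⟨_, rfl⟩
  rw [← hUU] at hU hn hn' hUnV
  rw [← hVV] at hV hn hn' hUnV
  rw [← hEE] at hE hn' ⊢
  rw [← hn1] at hn hUnV hnn
  rw [← hUnV, ← hn2] at hn''
  rw [← hn2] at hn'
  -- `n1` is a chain map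
  have hn1c : Ch π U (cone M M' g) (cone M M' g) n1 := by
    have h1 := ((hV.mul hU).sub Ch.one).sub (gl_nul_ch hCg hCg hn)
    have h2 : VV * UU - 1 - (VV * UU - 1 - n1) = n1 := by abel
    rwa [h2] at h1
  have hw : Ch π U (cone M M' g) (cone M M' g) (1 - n1) := Ch.one.sub hn1c
  have hVUw : Nul π U (cone M M' g) (cone M M' g) (VV * (UU * (1 - n1)) - 1) := by
    have h1 := hn.mul_ch hw
    have h2 : (VV * UU - 1 - n1) * (1 - n1) = VV * (UU * (1 - n1)) - 1 + n1 * n1 := by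
      simp only [Matrix.mul_sub, Matrix.sub_mul, Matrix.mul_one, Matrix.one_mul,
        Matrix.mul_assoc]
      abel
    rwa [h2, hnn, add_zero] at h1
  have hp : HI π U (cone X Y f) (UU * (1 - n1) * VV) := by
    refine ⟨(hU.mul hw).mul hV, ?_⟩
    have h1 := ((hU.mul hw).mul_nul hVUw).mul_ch hV
    have h2 := h1.neg
    have h3 : -(UU * (1 - n1) * (VV * (UU * (1 - n1)) - 1) * VV) =
        UU * (1 - n1) * VV - UU * (1 - n1) * VV * (UU * (1 - n1) * VV) := by
      simp only [Matrix.mul_sub, Matrix.sub_mul, Matrix.mul_one, Matrix.mul_assoc]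
      abel
    rwa [h3] at h2
  have hiso : Iso π U (cone X Y f) (UU * (1 - n1) * VV) (cone M M' g) 1 := by
    refine ⟨UU * (1 - n1), VV, hU.mul hw, hV, ?_, hVUw⟩
    rw [sub_self]
    exact Nul.zero
  -- `e - p ~ n''`
  have hsq : Nul π U (cone X Y f) (cone X Y f)
      ((E - UU * (1 - n1) * VV) * (E - UU * (1 - n1) * VV)) := by
    have hc : Ch π U (cone X Y f) (cone X Y f) (E - UU * (1 - n1) * VV) := hE.1.sub hp.1
    have h1 : UU * VV - E - n2 = -((E - UU * (1 - n1) * VV) - (UU * n1 * VV - n2)) := by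
      simp only [Matrix.mul_sub, Matrix.sub_mul, Matrix.mul_one]
      abel
    rw [h1] at hn'
    have h2 := hn'.neg
    rw [neg_neg] at h2
    have h3 : Ch π U (cone X Y f) (cone X Y f) (UU * n1 * VV - n2) := by
      have h4 := hc.sub (gl_nul_ch hCf hCf h2)
      have h5 : E - UU * (1 - n1) * VV - (E - UU * (1 - n1) * VV - (UU * n1 * VV - n2)) =
          UU * n1 * VV - n2 := by abel
      rwa [h5] at h4
    have h4 := (h2.mul_ch hc).add (h3.mul_nul h2)
    have h5 : (E - UU * (1 - n1) * VV - (UU * n1 * VV - n2)) * (E - UU * (1 - n1) * VV) +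
        (UU * n1 * VV - n2) * (E - UU * (1 - n1) * VV - (UU * n1 * VV - n2)) =
        (E - UU * (1 - n1) * VV) * (E - UU * (1 - n1) * VV) -
          (UU * n1 * VV - n2) * (UU * n1 * VV - n2) := by
      generalize UU * n1 * VV - n2 = A
      generalize E - UU * (1 - n1) * VV = B
      simp only [Matrix.mul_sub, Matrix.sub_mul]
      abel
    rwa [h5, hn'', sub_zero] at h4
  exact Iso.trans hE HI.one (gl_iso_of_sq hE hp hsq) hiso

end Pool.Agent.Lib.MP_551055_al.W17
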