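import Mathlib
import Pool.Agent.Lib.MP_551055_al.Trim.LS.PStmts
import Pool.Agent.Lib.MP_551055_al.Trim.LS.Stmts
import Pool.Agent.Lib.MP_551055_al.Trim.MT.Base
import Pool.Agent.Lib.MP_551055_al.Trim.MT.CC
import Pool.Agent.Lib.MP_551055_al.Trim.MT.Defs
import Pool.Agent.Lib.MP_551055_al.Trim.MT.Map
import Pool.Agent.Lib.MP_551055_al.Trim.W17.StU

/-!
# Trees and products: modules IsoA and Desc
-/

set_option autoImplicit false

namespace Pool.Agent.Lib.MP_551055_al
end Pool.Agent.Lib.MP_551055_al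

namespace Pool.Agent.Lib.MP_551055_al.LS
end Pool.Agent.Lib.MP_551055_al.LS

namespace Pool.Agent.Lib.MP_551055_al.MT
end Pool.Agent.Lib.MP_551055_al.MT

namespace Pool.Agent.Lib.MP_551055_al.W17

open Pool.Agent.Lib.MP_551055_al

open Pool.Agent.Lib.MP_551055_al.LS (TreeAct ZN)

open Pool.Agent.Lib.MP_551055_al.MT

open Matrix

/-- Module IsoA. -/
theorem stIsoA : StIsoA := by
  intro Γ _ D P _ _ _ N _ π U X Y A e e' hA hc he he' hcom
  obtain ⟨B, hB, h1, h2⟩ := (stCC Γ D P N π U X Y A hA).2 hc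
  refine ⟨e * A, B * e, he.1.mul hA, hB.mul he.1, ?_, ?_⟩
  · have e1 : Nul π U X X (e * (A * B - 1) * e) := (he.1.mul_nul h1).mul_ch he.1
    have e2 := e1.sub he.2
    have e3 : e * (A * B - 1) * e - (e - e * e) = e * A * (B * e) - e := by
      simp only [Matrix.mul_sub, Matrix.sub_mul, Matrix.mul_assoc, Matrix.one_mul]
      abel
    rwa [e3] at e2
  · have e1 : Nul π U Y Y (B * (e - e * e) * A) := (hB.mul_nul he.2).mul_ch hA
    have e2 : Nul π U Y Y ((B * A - 1) * e') := h2.mul_ch he'.1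
    have e3 := e2.sub e1
    have e4 : (B * A - 1) * e' - B * (e - e * e) * A = B * e * (e * A) - e' := by
      have h3 : B * (e * A) = B * A * e' := by rw [hcom, Matrix.mul_assoc]
      rw [Matrix.sub_mul, Matrix.one_mul, ← h3]
      simp only [Matrix.mul_sub, Matrix.sub_mul, Matrix.mul_assoc]
      abel
    rwa [e4] at e3

/-- Module Desc. -/
theorem stDesc : StDesc := by
  classical
  intro N N' _ _ φ hφ ι κ f hf
  have h : ∀ (x : ZM N), (∀ m, x.coeff m ≠ 0 → ∃ m', φ m' = m) → ∃ y : ZM N', mdh φ y = x := by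
    intro x hx
    refine ⟨MonoidAlgebra.ofCoeff (x.coeff.comapDomain φ hφ.injOn), ?_⟩
    refine MonoidAlgebra.ext (Finsupp.ext fun m => ?_)
    by_cases hm : ∃ m', φ m' = m
    · obtain ⟨m', rfl⟩ := hm
      rw [coeff_mdh_apply hφ]
      rfl
    · have h1 : x.coeff m = 0 := by
        by_contra h2
        exact hm (hx m h2)
      rw [h1]
      by_contra h2
      obtain ⟨a, ha, -⟩ := coeff_mdh_ne h2
      exact hm ⟨a, ha⟩
  choose g hg using fun (l : ι) (k : κ) => h (f l k) (fun m hm => hf l k m hm)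
  exact ⟨g, Matrix.ext fun l k => hg l k⟩

end Pool.Agent.Lib.MP_551055_al.W17
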