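import Mathlib
import Pool.Agent.Lib.MP_551055_al.Trim.LS.BassProj
import Pool.Agent.Lib.MP_551055_al.Trim.LS.PStmts
import Pool.Agent.Lib.MP_551055_al.Trim.LS.Ray
import Pool.Agent.Lib.MP_551055_al.Trim.LS.Stmts
import Pool.Agent.Lib.MP_551055_al.Trim.MT.Base
import Pool.Agent.Lib.MP_551055_al.Trim.MT.Defs
import Pool.Agent.Lib.MP_551055_al.Trim.MT.Gen
import Pool.Agent.Lib.MP_551055_al.Trim.MT.Trees
import Pool.Agent.Lib.MP_551055_al.Trim.T4.Ind0
import Pool.Agent.Lib.MP_551055_al.Trim.W17.DefK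
import Pool.Agent.Lib.MP_551055_al.Trim.W17.Defs
import Pool.Agent.Lib.MP_551055_al.Trim.W17.KT
import Pool.Agent.Lib.MP_551055_al.Trim.W17.StK

/-!
# Trees and products: module KA1
-/

set_option autoImplicit false

namespace Pool.Agent.Lib.MP_551055_al
end Pool.Agent.Lib.MP_551055_al

namespace Pool.Agent.Lib.MP_551055_al.LS
end Pool.Agent.Lib.MP_551055_al.LS

namespace Pool.Agent.Lib.MP_551055_al.MT
end Pool.Agent.Lib.MP_551055_al.MT

namespace Pool.Agent.Lib.MP_551055_al.W17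

open Pool.Agent.Lib.MP_551055_al

open Pool.Agent.Lib.MP_551055_al.LS (TreeAct ZN)

open Pool.Agent.Lib.MP_551055_al.MT

open Matrix

/-- A statement about `Kp` for all initial sets of directions. -/
theorem ka1_step (hs : StKA1s) (Γ : Type) [Group Γ] (D : Type) [Fintype D] [LinearOrder D]
    (V : D → Type) [∀ i, MulAction Γ (V i)] (T : ∀ i, SimpleGraph (V i))
    (h : ∀ i, TreeAct Γ (V i) (T i)) (N : Type) [Group N] (π : N →* Γ) (M : Co (SP h) N)
    (hM : Acy h π M) (n : ℤ) (B : Sz (SP h)) (hB : ∀ i, Cl (h i) (B i)) (x : M.ι → ZM N)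
    (hx : x ∈ ZC π Finset.univ M n B) (I : Finset D) :
    ∃ (ι : Type) (_ : Fintype ι) (_ : DecidableEq ι) (p : ι → Pos V) (ν : D → Matrix ι ι ℤ)
      (ψ : Matrix (Kp h N n I B p ν).ι M.ι (ZM N)) (y : (Kp h N n I B p ν).ι → ZM N),
      FrI T I p ν ∧ Ch π Finset.univ (Kp h N n I B p ν) M ψ ∧
      y ∈ ZC π Finset.univ (Kp h N n I B p ν) n B ∧
      y ᵥ* ψ - x ∈ BC π Finset.univ M n B := by
  classical
  refine Finset.induction_on_max I ?_ ?_
  · -- the empty set
    have hne : ∀ i, Nonempty (V i) := by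
      intro i
      rcases hB i with ⟨v, -⟩ | ⟨u, -, -⟩
      · exact ⟨v⟩
      · exact ⟨u⟩
    let p0 : Unit → Pos V := fun _ i => (Classical.choice (hne i), Classical.choice (hne i))
    let ν0 : D → Matrix Unit Unit ℤ := fun _ => 0
    have hd : (Kp h N n ∅ B p0 ν0).d = 0 := by
      funext a b
      have ha : a.2.1 = ∅ := Finset.subset_empty.1 (Finset.mem_powerset.1 a.2.2)
      change MonoidAlgebra.single 1 (∑ i ∈ a.2.1, _) = 0
      rw [ha, Finset.sum_empty, MonoidAlgebra.single_zero]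
    let z0 : (Kp h N n ∅ B p0 ν0).ι := ((), ⟨∅, Finset.empty_mem_powerset _⟩)
    have huniq : ∀ z : (Kp h N n ∅ B p0 ν0).ι, z = z0 := by
      rintro ⟨u, φ, hφ⟩
      have h1 : φ = ∅ := Finset.subset_empty.1 (Finset.mem_powerset.1 hφ)
      subst h1
      rfl
    have hdeg : ∀ z : (Kp h N n ∅ B p0 ν0).ι, (Kp h N n ∅ B p0 ν0).deg z = n := by
      intro z
      rw [huniq z]
      change n + ((∅ : Finset D).card : ℤ) = n
      rw [Finset.card_empty, Nat.cast_zero, add_zero]
    have hsz : ∀ z : (Kp h N n ∅ B p0 ν0).ι, ∀ i, (Kp h N n ∅ B p0 ν0).sz z i = B i := by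
      intro z i
      change (if i ∈ (∅ : Finset D) then sx h (p0 z.1) z.2.1 i else B i) = B i
      exact if_neg (Finset.notMem_empty i)
    refine ⟨Unit, inferInstance, inferInstance, p0, ν0, fun _ k => x k, Pi.single z0 1,
      ?_, ?_, ?_, ?_⟩
    · exact ⟨fun l i hi => absurd hi (Finset.notMem_empty i),
        fun i hi => absurd hi (Finset.notMem_empty i),
        fun i hi => absurd hi (Finset.notMem_empty i),
        fun i hi => absurd hi (Finset.notMem_empty i)⟩
    · refine ⟨fun l k m hm => ?_, ?_⟩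
      · obtain ⟨h1, h2⟩ := hx.1 k m hm
        refine ⟨?_, fun i hi => ?_⟩
        · rw [hdeg l, add_zero]
          exact h1
        · have h3 : (Kp h N n ∅ B p0 ν0).toOb.sz l i = B i := hsz l i
          rw [h3]
          exact h2 i hi
      · rw [hd, Matrix.zero_mul]
        funext l k
        have h1 : (x ᵥ* M.d) k = 0 := by
          have := congrFun hx.2 k
          exact this
        change 0 = ∑ k', x k' * M.d k' k
        exact h1.symm
    · refine ⟨?_, ?_⟩
      · have h1 := basis_mem_fam (π := π) (U := Finset.univ) (X := (Kp h N n ∅ B p0 ν0).toOb) z0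
        have h2 : (Kp h N n ∅ B p0 ν0).toOb.sz z0 = B := funext fun i => hsz z0 i
        have h3 : (Kp h N n ∅ B p0 ν0).toOb.deg z0 = n := hdeg z0
        rw [h2, h3] at h1
        exact h1
      · rw [hd, Matrix.vecMul_zero]
    · have h1 : (Pi.single z0 (1 : ZM N) : (Kp h N n ∅ B p0 ν0).ι → ZM N) ᵥ*
          (fun _ k => x k : Matrix (Kp h N n ∅ B p0 ν0).ι M.ι (ZM N)) = x := by
        rw [Matrix.single_one_vecMul]
        rfl
      rw [h1, sub_self]
      exact AddSubgroup.zero_mem _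
  · -- one more direction
    rintro j I hj ⟨ι, i1, i2, p, ν, f, y, hF, hf, hy, hyx⟩
    obtain ⟨ι', i3, i4, p', ν', c, ψ, hF', hc, hψ, hn⟩ :=
      hs Γ D V T h N π M hM n I j hj B (hB j) ι p ν hF f hf
    refine ⟨ι', i3, i4, p', ν', ψ, y ᵥ* c, hF', hψ, hc.mem_ZC hy, ?_⟩
    have h1 : y ᵥ* c ᵥ* ψ - x = y ᵥ* (c * ψ - f) + (y ᵥ* f - x) := by
      rw [Matrix.vecMul_vecMul, Matrix.vecMul_sub]
      abel
    rw [h1]
    refine AddSubgroup.add_mem _ ?_ hyx
    obtain ⟨s, hs1, hs2⟩ := hn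
    refine ⟨y ᵥ* s, fam_vecMul' hs1 hy.1 rfl, ?_⟩
    rw [hs2, Matrix.vecMul_add, ← Matrix.vecMul_vecMul, ← Matrix.vecMul_vecMul, hy.2,
      Matrix.zero_vecMul, zero_add]

section

variable {Γ : Type} [Group Γ] {D : Type} [Fintype D] [LinearOrder D] {V : D → Type}
  [∀ i, MulAction Γ (V i)] {T : ∀ i, SimpleGraph (V i)} (h : ∀ i, TreeAct Γ (V i) (T i))
  {N : Type} [Group N] (π : N →* Γ) {ι : Type} [Fintype ι] [DecidableEq ι]

/-- The operators with coefficients in `ℤ[N]`. -/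
noncomputable def ka1N (N : Type) [Monoid N] (ν : D → Matrix ι ι ℤ) : D → Matrix ι ι (ZM N) :=
  fun i => (ν i).map (MonoidAlgebra.single (1 : N))

/-- The equivalence of the index sets. -/
def ka1E (n : ℤ) (B : Sz (SP h)) (p : ι → Pos V) (ν : D → Matrix ι ι ℤ) :
    (Kc h N n p (ka1N N ν)).ι ≃ (Kp h N n Finset.univ B p ν).ι where
  toFun a := (a.1, ⟨a.2, Finset.mem_powerset.2 (Finset.subset_univ _)⟩)
  invFun b := (b.1, b.2.1)
  left_inv _ := rfl
  right_inv _ := rfl

theorem ka1_d (n : ℤ) (B : Sz (SP h)) (p : ι → Pos V) (ν : D → Matrix ι ι ℤ)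
    (a b : (Kc h N n p (ka1N N ν)).ι) :
    (Kc h N n p (ka1N N ν)).d a b =
      (Kp h N n Finset.univ B p ν).d (ka1E h n B p ν a) (ka1E h n B p ν b) := by
  change (∑ i ∈ a.2, if b.2 = a.2.erase i then
      eps n i a.2 • ((if a.1 = b.1 then (1 : ZM N) else 0) -
        MonoidAlgebra.single (1 : N) (ν i a.1 b.1)) else 0) =
    MonoidAlgebra.single (1 : N) (∑ i ∈ a.2, if b.2 = a.2.erase i then
      eps n i a.2 * ((if a.1 = b.1 then 1 else 0) - ν i a.1 b.1) else 0)
  have h1 : (MonoidAlgebra.single (1 : N) (∑ i ∈ a.2, if b.2 = a.2.erase i then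
      eps n i a.2 * ((if a.1 = b.1 then 1 else 0) - ν i a.1 b.1) else 0) : ZM N) =
      ∑ i ∈ a.2, MonoidAlgebra.single (1 : N) (if b.2 = a.2.erase i then
      eps n i a.2 * ((if a.1 = b.1 then 1 else 0) - ν i a.1 b.1) else 0) :=
    map_sum (MonoidAlgebra.singleAddHom (R := ℤ) (1 : N)) _ _
  rw [h1]
  refine Finset.sum_congr rfl fun i _ => ?_
  by_cases hb : b.2 = a.2.erase i
  · rw [if_pos hb, if_pos hb]
    by_cases hab : a.1 = b.1
    · rw [if_pos hab, if_pos hab, MonoidAlgebra.one_def, ← MonoidAlgebra.single_sub,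
        MonoidAlgebra.smul_single, smul_eq_mul]
    · rw [if_neg hab, if_neg hab, zero_sub, zero_sub, ← MonoidAlgebra.single_neg,
        MonoidAlgebra.smul_single, smul_eq_mul]
  · rw [if_neg hb, if_neg hb, MonoidAlgebra.single_zero]

omit [LinearOrder D] in
theorem ka1_frOk {p : ι → Pos V} {ν : D → Matrix ι ι ℤ} (hF : FrI T Finset.univ p ν) :
    FrOk T π p (ka1N N ν) := by
  have hmul : ∀ A C : Matrix ι ι ℤ, A.map (MonoidAlgebra.single (1 : N)) *
      C.map (MonoidAlgebra.single (1 : N)) = (A * C).map (MonoidAlgebra.single (1 : N)) := by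
    intro A C
    have h1 := (Matrix.map_mul (L := A) (M := C)
      (f := (MonoidAlgebra.singleOneRingHom : ℤ →+* ZM N))).symm
    exact h1
  refine ⟨fun l i => hF.oe l i (Finset.mem_univ i), fun i j => ?_, fun i l k m hm => ?_,
    fun i => ?_⟩
  · change (ν i).map _ * (ν j).map _ = (ν j).map _ * (ν i).map _
    rw [hmul, hmul, hF.comm i (Finset.mem_univ i) j (Finset.mem_univ j)]
  · change (MonoidAlgebra.single (1 : N) (ν i l k) : ZM N).coeff m ≠ 0 at hm
    have h1 := coeff_single_ne hm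
    have h2 : ν i l k ≠ 0 := by
      intro h0
      rw [h0, MonoidAlgebra.single_zero] at hm
      exact hm rfl
    have h3 : m = 1 := h1
    rw [h3, map_one, one_smul]
    exact hF.loc i (Finset.mem_univ i) l k h2
  · obtain ⟨K, hK⟩ := hF.nil i (Finset.mem_univ i)
    refine ⟨K, ?_⟩
    have h1 : ∀ K : ℕ, ((ν i).map (MonoidAlgebra.single (1 : N))) ^ K =
        ((ν i) ^ K).map (MonoidAlgebra.single (1 : N)) := by
      intro K
      induction K with
      | zero =>
        rw [pow_zero, pow_zero]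
        have h2 := Matrix.map_one (n := ι) (MonoidAlgebra.singleOneRingHom : ℤ →+* ZM N)
          (map_zero _) (map_one _)
        exact h2.symm
      | succ K ih => rw [pow_succ, ih, pow_succ, hmul]
    change ((ν i).map _) ^ K = 0
    rw [h1, hK]
    have h3 := Matrix.map_zero (m := ι) (n := ι) (MonoidAlgebra.singleOneRingHom : ℤ →+* ZM N)
      (map_zero _)
    exact h3

end

/-- Module KA1. -/
theorem stKA1 (hs : StKA1s) : StKA1 := by
  intro Γ _ D _ _ V _ T h N _ π M hM n B hB x hx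
  obtain ⟨ι, i1, i2, p, ν, ψ, y, hF, hψ, hy, hyx⟩ :=
    ka1_step hs Γ D V T h N π M hM n B hB x hx Finset.univ
  let e := ka1E (N := N) h n B p ν
  have hsz : ∀ a : (Kc h N n p (ka1N N ν)).ι, ∀ i,
      (Kc h N n p (ka1N N ν)).sz a i = (Kp h N n Finset.univ B p ν).sz (e a) i := by
    intro a i
    change sx h (p a.1) a.2 i = if i ∈ Finset.univ then sx h (p a.1) a.2 i else B i
    rw [if_pos (Finset.mem_univ i)]
  have hdeg : ∀ a : (Kc h N n p (ka1N N ν)).ι,
      (Kc h N n p (ka1N N ν)).deg a = (Kp h N n Finset.univ B p ν).deg (e a) := fun a => rfl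
  have hd : ∀ a b, (Kc h N n p (ka1N N ν)).d a b =
      (Kp h N n Finset.univ B p ν).d (e a) (e b) := fun a b => ka1_d h n B p ν a b
  refine ⟨ι, i1, i2, p, ka1N N ν, fun a k => ψ (e a) k, ka1_frOk π hF, ⟨?_, ?_⟩,
    fun a => y (e a), ?_, ?_⟩
  · intro a k m hm
    obtain ⟨h1, h2⟩ := hψ.1 (e a) k m hm
    exact ⟨h1, fun i hi => by
      have h3 : (Kc h N n p (ka1N N ν)).toOb.sz a i = _ := hsz a i
      rw [h3]
      exact h2 i hi⟩
  · funext a k
    have h1 := congrFun (congrFun hψ.2 (e a)) k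
    change ∑ b, (Kc h N n p (ka1N N ν)).d a b * ψ (e b) k = ∑ k', ψ (e a) k' * M.d k' k
    change ∑ b, (Kp h N n Finset.univ B p ν).d (e a) b * ψ b k =
      ∑ k', ψ (e a) k' * M.d k' k at h1
    rw [← h1, ← Equiv.sum_comp e]
    exact Finset.sum_congr rfl fun b _ => by rw [hd]
  · intro a m hm
    obtain ⟨h1, h2⟩ := hy.1 (e a) m hm
    refine ⟨h1, fun i hi => ?_⟩
    have h3 : (Kc h N n p (ka1N N ν)).toOb.sz a i = _ := hsz a i
    rw [h3]
    exact h2 i hi
  · have h1 : (fun a => y (e a)) ᵥ* (fun a k => ψ (e a) k : Matrix _ M.ι (ZM N)) = y ᵥ* ψ := by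
      funext k
      change ∑ a, y (e a) * ψ (e a) k = ∑ b, y b * ψ b k
      exact Equiv.sum_comp e fun b => y b * ψ b k
    rw [h1]
    exact hyx

end Pool.Agent.Lib.MP_551055_al.W17
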