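import Mathlib
import Pool.Agent.Lib.MP_551055_al.Trim.LS.BassProj
import Pool.Agent.Lib.MP_551055_al.Trim.LS.Ind
import Pool.Agent.Lib.MP_551055_al.Trim.LS.Ray
import Pool.Agent.Lib.MP_551055_al.Trim.LS.Stmts
import Pool.Agent.Lib.MP_551055_al.Trim.LS.TreeB
import Pool.Agent.Lib.MP_551055_al.Trim.MT.Base
import Pool.Agent.Lib.MP_551055_al.Trim.MT.Defs
import Pool.Agent.Lib.MP_551055_al.Trim.MT.Flow
import Pool.Agent.Lib.MP_551055_al.Trim.MT.Flow2
import Pool.Agent.Lib.MP_551055_al.Trim.MT.MV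
import Pool.Agent.Lib.MP_551055_al.Trim.MT.Trees
import Pool.Agent.Lib.MP_551055_al.Trim.PT.MV
import Pool.Agent.Lib.MP_551055_al.Trim.W17.DefK
import Pool.Agent.Lib.MP_551055_al.Trim.W17.Defs
import Pool.Agent.Lib.MP_551055_al.Trim.W17.KT
import Pool.Agent.Lib.MP_551055_al.Trim.W17.KTa
import Pool.Agent.Lib.MP_551055_al.Trim.W17.StK

/-!
# Trees and products: one more direction of a free nil module (flows)

`f : X → M` is a chain map from the complex `X = Kp I` of a free nil module with integral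
coefficients. The contraction of `M` over `univ - j` gives a homotopy `s` with `D(s) = f`; it is
split over the vertices of the tree in the direction `j`, and the cycles `D(s^w) - [w = a] f` are
the boundary of a flow. The values of the flow and the `s^w` define the map on `Kp (insert j I)`.
-/

set_option autoImplicit false

namespace Pool.Agent.Lib.MP_551055_al
end Pool.Agent.Lib.MP_551055_al

namespace Pool.Agent.Lib.MP_551055_al.LS
end Pool.Agent.Lib.MP_551055_al.LS

namespace Pool.Agent.Lib.MP_551055_al.MT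
end Pool.Agent.Lib.MP_551055_al.MT

namespace Pool.Agent.Lib.MP_551055_al.W17

open Pool.Agent.Lib.MP_551055_al

open Pool.Agent.Lib.MP_551055_al.LS (TreeAct side)

open Pool.Agent.Lib.MP_551055_al.MT

open Matrix

/-! ## Rows of the differential -/

section

variable {D : Type} [LinearOrder D] {ι : Type} [Fintype ι] {E : Type} [AddCommGroup E]

/-- One row of the differential. -/
def kDl (n : ℤ) (ν : D → Matrix ι ι ℤ) (g : ι → Finset D → E) (l : ι) (φ : Finset D) : E :=
  ∑ i ∈ φ, eps n i φ • (g l (φ.erase i) - ∑ k, ν i l k • g k (φ.erase i))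

theorem kDl_congr (n : ℤ) (ν : D → Matrix ι ι ℤ) {g g' : ι → Finset D → E} {l : ι}
    {φ : Finset D} (hg : ∀ i ∈ φ, ∀ k, g k (φ.erase i) = g' k (φ.erase i)) :
    kDl n ν g l φ = kDl n ν g' l φ := by
  unfold kDl
  refine Finset.sum_congr rfl fun i hi => ?_
  rw [hg i hi l]
  congr 2
  exact Finset.sum_congr rfl fun k _ => by rw [hg i hi k]

theorem kDl_sum (n : ℤ) (ν : D → Matrix ι ι ℤ) {α : Type} (s : Finset α)
    (g : α → ι → Finset D → E) (l : ι) (φ : Finset D) :
    kDl n ν (fun k φ => ∑ o ∈ s, g o k φ) l φ = ∑ o ∈ s, kDl n ν (g o) l φ := by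
  unfold kDl
  rw [Finset.sum_comm]
  refine Finset.sum_congr rfl fun i _ => ?_
  rw [← Finset.smul_sum, Finset.sum_sub_distrib]
  congr 2
  simp_rw [Finset.smul_sum]
  rw [Finset.sum_comm]

end

theorem ka_single_mul {N : Type} [Monoid N] (z : ℤ) (x : ZM N) :
    (MonoidAlgebra.single 1 z : ZM N) * x = z • x := by
  have h1 : (MonoidAlgebra.single 1 z : ZM N) = z • (1 : ZM N) := by
    rw [MonoidAlgebra.one_def, MonoidAlgebra.smul_single, smul_eq_mul, mul_one]
  rw [h1, smul_mul_assoc, one_mul]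

section

variable {Γ : Type} [Group Γ] {D : Type} [LinearOrder D] {V : D → Type}
  [∀ i, MulAction Γ (V i)] {T : ∀ i, SimpleGraph (V i)} (h : ∀ i, TreeAct Γ (V i) (T i))
  {N : Type} [Monoid N] {n : ℤ} {ι : Type} [Fintype ι] [DecidableEq ι] {I : Finset D}
  {B : Sz (SP h)} {p : ι → Pos V} {ν : D → Matrix ι ι ℤ}

/-- The matrix with the rows `g`. -/
def kM {κ : Type} (g : ι → Finset D → κ → ZM N) : Matrix (Kp h N n I B p ν).ι κ (ZM N) :=
  fun b => g b.1 b.2.1

/-- The rows of `d * g`. -/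
theorem kp_mul {κ : Type} (g : ι → Finset D → κ → ZM N) (a : (Kp h N n I B p ν).ι) :
    ((Kp h N n I B p ν).d * (kM h g : Matrix (Kp h N n I B p ν).ι κ (ZM N))) a =
      kDl n ν g a.1 a.2.1 := by
  obtain ⟨l, φ, hφ⟩ := a
  funext b
  rw [Matrix.mul_apply]
  change ∑ c : ι × {φ // φ ∈ I.powerset}, MonoidAlgebra.single 1 (∑ i ∈ φ,
    if c.2.1 = φ.erase i then eps n i φ * ((if l = c.1 then 1 else 0) - ν i l c.1) else 0) *
      g c.1 c.2.1 b = kDl n ν g l φ b
  simp_rw [ka_single_mul, Finset.sum_smul]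
  rw [Finset.sum_comm]
  unfold kDl
  rw [Finset.sum_apply]
  refine Finset.sum_congr rfl fun i hi => ?_
  rw [Fintype.sum_prod_type]
  have h2 : ∀ k : ι, ∑ ψ : {φ // φ ∈ I.powerset}, (if ψ.1 = φ.erase i then
      eps n i φ * ((if l = k then 1 else 0) - ν i l k) else 0) • g k ψ.1 b =
        (eps n i φ * ((if l = k then 1 else 0) - ν i l k)) • g k (φ.erase i) b := by
    intro k
    have hm : φ.erase i ∈ I.powerset :=
      Finset.mem_powerset.2 ((Finset.erase_subset i φ).trans (Finset.mem_powerset.1 hφ))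
    rw [Finset.sum_eq_single ⟨φ.erase i, hm⟩]
    · rw [if_pos rfl]
    · intro ψ _ hψ
      rw [if_neg (fun h3 => hψ (Subtype.ext h3)), zero_smul]
    · intro h3
      exact absurd (Finset.mem_univ _) h3
  simp_rw [h2]
  change _ = eps n i φ • ((g l (φ.erase i) - ∑ k, ν i l k • g k (φ.erase i)) b)
  rw [Pi.sub_apply, Finset.sum_apply]
  simp_rw [mul_smul, sub_smul]
  rw [← Finset.smul_sum, Finset.sum_sub_distrib]
  congr 2
  rw [Finset.sum_eq_single l]
  · rw [if_pos rfl, one_smul]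
  · intro k _ hk
    rw [if_neg (Ne.symm hk), zero_smul]
  · intro h3
    exact absurd (Finset.mem_univ _) h3

end

/-! ## One more direction: the matrices -/

section

variable {α : Type} [Fintype α] [DecidableEq α]

theorem ka_nil (μ : Matrix α α ℤ) (ρ : α → ℕ) (hρ : ∀ o o', μ o o' ≠ 0 → ρ o < ρ o') :
    ∃ K : ℕ, μ ^ K = 0 := by
  have key : ∀ (K : ℕ) (o o' : α), (μ ^ K) o o' ≠ 0 → ρ o + K ≤ ρ o' := by
    intro K
    induction K with
    | zero =>
      intro o o' h1
      rw [pow_zero] at h1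
      have h2 : o = o' := by
        by_contra h3
        exact h1 (Matrix.one_apply_ne h3)
      rw [h2, add_zero]
    | succ K ih =>
      intro o o' h1
      rw [pow_succ, Matrix.mul_apply] at h1
      obtain ⟨c, -, hc⟩ := Finset.exists_ne_zero_of_sum_ne_zero h1
      have h2 := ih o c (left_ne_zero_of_mul hc)
      have h3 := hρ c o' (right_ne_zero_of_mul hc)
      omega
  refine ⟨Finset.univ.sup ρ + 1, ?_⟩
  ext o o'
  by_contra h1
  have h2 := key _ o o' h1
  have h3 : ρ o' ≤ Finset.univ.sup ρ := Finset.le_sup (Finset.mem_univ o')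
  omega

theorem ka_kpow {β : Type} [Fintype β] [DecidableEq β] (A : Matrix α α ℤ) (B : Matrix β β ℤ)
    (K : ℕ) : (kroneckerMap (· * ·) A B) ^ K = kroneckerMap (· * ·) (A ^ K) (B ^ K) := by
  induction K with
  | zero => rw [pow_zero, pow_zero, pow_zero, Matrix.one_kronecker_one]
  | succ K ih => rw [pow_succ, ih, pow_succ, pow_succ, ← Matrix.mul_kronecker_mul]

end

section

variable {D : Type} [LinearOrder D] {V : D → Type} [∀ i, DecidableEq (V i)] {ι : Type}
  [Fintype ι] [DecidableEq ι]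

/-- The operator in the new direction. -/
def kMu {W : Type} [DecidableEq W] (O : Finset (W × W)) : Matrix {o // o ∈ O} {o // o ∈ O} ℤ :=
  fun o o' => if o'.1.1 = o.1.2 ∧ o'.1.2 ≠ o.1.1 then 1 else 0

/-- The operators with the new direction. -/
def kNu (j : D) (O : Finset (V j × V j)) (ν : D → Matrix ι ι ℤ) :
    D → Matrix (ι × {o // o ∈ O}) (ι × {o // o ∈ O}) ℤ :=
  fun i => if i = j then kroneckerMap (· * ·) (1 : Matrix ι ι ℤ) (kMu O)
    else kroneckerMap (· * ·) (ν i) (1 : Matrix {o // o ∈ O} {o // o ∈ O} ℤ)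

/-- The positions with the new direction. -/
def kPp (j : D) (O : Finset (V j × V j)) (p : ι → Pos V) : ι × {o // o ∈ O} → Pos V :=
  fun x => Function.update (p x.1) j x.2.1

variable {j : D} {O : Finset (V j × V j)} {ν : D → Matrix ι ι ℤ} {p : ι → Pos V}

omit [Fintype ι] in
theorem kNu_self : kNu j O ν j = kroneckerMap (· * ·) (1 : Matrix ι ι ℤ) (kMu O) := if_pos rfl

omit [Fintype ι] in
theorem kNu_ne {i : D} (hi : i ≠ j) :
    kNu j O ν i = kroneckerMap (· * ·) (ν i) (1 : Matrix {o // o ∈ O} {o // o ∈ O} ℤ) := if_neg hi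

omit [∀ i, DecidableEq (V i)] [Fintype ι] [DecidableEq ι] in
theorem kPp_self (x : ι × {o // o ∈ O}) : kPp j O p x j = x.2.1 := Function.update_self _ _ _

omit [∀ i, DecidableEq (V i)] [Fintype ι] [DecidableEq ι] in
theorem kPp_ne (x : ι × {o // o ∈ O}) {i : D} (hi : i ≠ j) : kPp j O p x i = p x.1 i :=
  Function.update_of_ne hi _ _

theorem kNu_frI {T : ∀ i, SimpleGraph (V i)} {I : Finset D} (hI : j ∉ I) (hF : FrI T I p ν)
    (hO : ∀ o ∈ O, (T j).Adj o.1 o.2) (ρ : V j × V j → ℕ)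
    (hρ : ∀ o ∈ O, ∀ o' ∈ O, o'.1 = o.2 → o'.2 ≠ o.1 → ρ o < ρ o') :
    FrI T (insert j I) (kPp j O p) (kNu j O ν) := by
  have hne : ∀ i ∈ I, i ≠ j := fun i hi h1 => hI (h1 ▸ hi)
  refine ⟨?_, ?_, ?_, ?_⟩
  · intro x i hi
    rcases Finset.mem_insert.1 hi with h1 | h1
    · subst h1
      rw [kPp_self]
      exact hO _ x.2.2
    · rw [kPp_ne x (hne i h1)]
      exact hF.oe x.1 i h1
  · intro i hi i' hi'
    by_cases h1 : i = j
    · by_cases h2 : i' = j
      · rw [h1, h2]
      · rw [h1, kNu_self, kNu_ne h2, ← Matrix.mul_kronecker_mul, ← Matrix.mul_kronecker_mul,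
          Matrix.mul_one, Matrix.one_mul, Matrix.mul_one, Matrix.one_mul]
    · by_cases h2 : i' = j
      · rw [h2, kNu_self, kNu_ne h1, ← Matrix.mul_kronecker_mul, ← Matrix.mul_kronecker_mul,
          Matrix.mul_one, Matrix.one_mul, Matrix.mul_one, Matrix.one_mul]
      · rw [kNu_ne h1, kNu_ne h2, ← Matrix.mul_kronecker_mul, ← Matrix.mul_kronecker_mul,
          hF.comm i ((Finset.mem_insert.1 hi).resolve_left h1) i'
            ((Finset.mem_insert.1 hi').resolve_left h2)]
  · intro i hi x y hxy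
    by_cases h1 : i = j
    · subst h1
      rw [kNu_self] at hxy
      have h2 : (1 : Matrix ι ι ℤ) x.1 y.1 ≠ 0 := left_ne_zero_of_mul hxy
      have h3 : kMu O x.2 y.2 ≠ 0 := right_ne_zero_of_mul hxy
      have h4 : x.1 = y.1 := by
        by_contra h5
        exact h2 (Matrix.one_apply_ne h5)
      have h5 : y.2.1.1 = x.2.1.2 ∧ y.2.1.2 ≠ x.2.1.1 := by
        by_contra h6
        exact h3 (if_neg h6)
      refine ⟨fun i' hi' => ?_, ?_, ?_, ?_⟩
      · rw [kPp_ne x hi', kPp_ne y hi', h4]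
      · rw [kPp_self, kPp_self]
        exact h5.1
      · rw [kPp_self]
        exact hO _ y.2.2
      · rw [kPp_self, kPp_self]
        exact h5.2
    · have hi1 := (Finset.mem_insert.1 hi).resolve_left h1
      rw [kNu_ne h1] at hxy
      have h2 : ν i x.1 y.1 ≠ 0 := left_ne_zero_of_mul hxy
      have h3 : (1 : Matrix {o // o ∈ O} {o // o ∈ O} ℤ) x.2 y.2 ≠ 0 := right_ne_zero_of_mul hxy
      have h4 : x.2 = y.2 := by
        by_contra h5
        exact h3 (Matrix.one_apply_ne h5)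
      obtain ⟨h5, h6, h7, h8⟩ := hF.loc i hi1 _ _ h2
      refine ⟨fun i' hi' => ?_, ?_, ?_, ?_⟩
      · by_cases h9 : i' = j
        · subst h9
          rw [kPp_self, kPp_self, h4]
        · rw [kPp_ne x h9, kPp_ne y h9]
          exact h5 i' hi'
      · rw [kPp_ne x h1, kPp_ne y h1]
        exact h6
      · rw [kPp_ne y h1]
        exact h7
      · rw [kPp_ne x h1, kPp_ne y h1]
        exact h8
  · intro i hi
    by_cases h1 : i = j
    · obtain ⟨K, hK⟩ := ka_nil (kMu O) (fun o => ρ o.1) fun o o' h2 => by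
        have h5 : o'.1.1 = o.1.2 ∧ o'.1.2 ≠ o.1.1 := by
          by_contra h6
          exact h2 (if_neg h6)
        exact hρ _ o.2 _ o'.2 h5.1 h5.2
      refine ⟨K, ?_⟩
      rw [h1, kNu_self, ka_kpow, hK, Matrix.kronecker_zero]
    · obtain ⟨K, hK⟩ := hF.nil i ((Finset.mem_insert.1 hi).resolve_left h1)
      refine ⟨K, ?_⟩
      rw [kNu_ne h1, ka_kpow, hK, Matrix.zero_kronecker]

variable {E : Type} [AddCommGroup E]

theorem kNu_sum_ne {i : D} (hi : i ≠ j) (l : ι) (o : {o // o ∈ O})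
    (g : ι × {o // o ∈ O} → E) :
    ∑ c, kNu j O ν i (l, o) c • g c = ∑ k, ν i l k • g (k, o) := by
  rw [kNu_ne hi, Fintype.sum_prod_type]
  refine Finset.sum_congr rfl fun k _ => ?_
  rw [Finset.sum_eq_single o]
  · rw [Matrix.kroneckerMap_apply, Matrix.one_apply_eq, mul_one]
  · intro o' _ ho
    rw [Matrix.kroneckerMap_apply, Matrix.one_apply_ne (Ne.symm ho), mul_zero, zero_smul]
  · intro h3
    exact absurd (Finset.mem_univ _) h3

theorem kNu_sum_self (l : ι) (o : {o // o ∈ O}) (g : ι × {o // o ∈ O} → E) :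
    ∑ c, kNu j O ν j (l, o) c • g c = ∑ o', kMu O o o' • g (l, o') := by
  rw [kNu_self, Fintype.sum_prod_type, Finset.sum_eq_single l]
  · refine Finset.sum_congr rfl fun o' _ => ?_
    rw [Matrix.kroneckerMap_apply, Matrix.one_apply_eq, one_mul]
  · intro k _ hk
    refine Finset.sum_eq_zero fun o' _ => ?_
    rw [Matrix.kroneckerMap_apply, Matrix.one_apply_ne (Ne.symm hk), zero_mul, zero_smul]
  · intro h3
    exact absurd (Finset.mem_univ _) h3

/-- The rows in the faces without `j`. -/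
theorem kDl_old (n : ℤ) {φ : Finset D} (hφ : j ∉ φ) (g : ι × {o // o ∈ O} → Finset D → E)
    (l : ι) (o : {o // o ∈ O}) :
    kDl n (kNu j O ν) g (l, o) φ = kDl n ν (fun k φ => g (k, o) φ) l φ := by
  unfold kDl
  refine Finset.sum_congr rfl fun i hi => ?_
  have hij : i ≠ j := fun h1 => hφ (h1 ▸ hi)
  rw [kNu_sum_ne hij]

/-- The rows in the faces with `j`. -/
theorem kDl_new (n : ℤ) {φ : Finset D} (hφ : ∀ i ∈ φ, i < j)
    (g : ι × {o // o ∈ O} → Finset D → E) (l : ι) (o : {o // o ∈ O}) :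
    kDl n (kNu j O ν) g (l, o) (insert j φ) =
      sgn (n + φ.card) • (g (l, o) φ - ∑ o', kMu O o o' • g (l, o') φ) +
        kDl n ν (fun k φ' => g (k, o) (insert j φ')) l φ := by
  have hj : j ∉ φ := fun h1 => lt_irrefl j (hφ j h1)
  unfold kDl
  rw [Finset.sum_insert hj, Finset.erase_insert hj]
  congr 1
  · rw [kNu_sum_self]
    congr 1
    unfold eps
    congr 3
    rw [Finset.filter_insert, if_neg (lt_irrefl j), Finset.filter_true_of_mem hφ]
  · refine Finset.sum_congr rfl fun i hi => ?_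
    have hij : i ≠ j := fun h1 => hj (h1 ▸ hi)
    rw [kNu_sum_ne hij, Finset.erase_insert_of_ne hij.symm, kta_eps_insert_gt n (hφ i hi)]

/-- The map on the new complex. -/
def kPs (j : D) (O : Finset (V j × V j)) (n : ℤ) (Z S : {o // o ∈ O} → ι → Finset D → E) :
    ι × {o // o ∈ O} → Finset D → E :=
  fun x φ => if j ∈ φ then sgn (n + (φ.erase j).card) • S x.2 x.1 (φ.erase j) else Z x.2 x.1 φ

theorem kPs_d (n : ℤ) {I : Finset D} (hI : ∀ i ∈ I, i < j)
    {Z S : {o // o ∈ O} → ι → Finset D → E} (δ : E →+ E)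
    (hZ : ∀ o l φ, φ ⊆ I → kDl n ν (Z o) l φ = δ (Z o l φ))
    (hS : ∀ o l φ, φ ⊆ I → kDl n ν (S o) l φ + δ (S o l φ) =
      Z o l φ - ∑ o', kMu O o o' • Z o' l φ) (x : ι × {o // o ∈ O}) {φ : Finset D}
    (hφ : φ ⊆ insert j I) :
    kDl n (kNu j O ν) (kPs j O n Z S) x φ = δ (kPs j O n Z S x φ) := by
  obtain ⟨l, o⟩ := x
  by_cases hj : j ∈ φ
  · have hφI : φ.erase j ⊆ I := Finset.subset_insert_iff.1 hφ
    have hlt : ∀ i ∈ φ.erase j, i < j := fun i hi => hI i (hφI hi)
    have hjn : j ∉ φ.erase j := Finset.notMem_erase j φ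
    have h1 : kPs j O n Z S (l, o) φ = sgn (n + (φ.erase j).card) • S o l (φ.erase j) :=
      if_pos hj
    rw [h1, map_zsmul]
    conv_lhs => rw [← Finset.insert_erase hj]
    rw [kDl_new n hlt]
    have h2 : ∀ o', kPs j O n Z S (l, o') (φ.erase j) = Z o' l (φ.erase j) := fun o' => if_neg hjn
    rw [h2]
    simp_rw [h2]
    rw [← hS o l _ hφI]
    have h3 : kDl n ν (fun k φ' => kPs j O n Z S (k, o) (insert j φ')) l (φ.erase j) =
        -(sgn (n + (φ.erase j).card) • kDl n ν (S o) l (φ.erase j)) := by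
      have h4 : ∀ i ∈ φ.erase j, ∀ k, kPs j O n Z S (k, o) (insert j ((φ.erase j).erase i)) =
          -(sgn (n + (φ.erase j).card) • S o k ((φ.erase j).erase i)) := by
        intro i hi k
        have h5 : j ∉ (φ.erase j).erase i := fun h6 => hjn (Finset.mem_of_mem_erase h6)
        have h6 : kPs j O n Z S (k, o) (insert j ((φ.erase j).erase i)) =
            sgn (n + ((insert j ((φ.erase j).erase i)).erase j).card) •
              S o k ((insert j ((φ.erase j).erase i)).erase j) :=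
          if_pos (Finset.mem_insert_self j _)
        rw [h6, Finset.erase_insert h5]
        have h7 : ((φ.erase j).card : ℤ) = ((φ.erase j).erase i).card + 1 := by
          rw [← Finset.card_erase_add_one hi, Nat.cast_add, Nat.cast_one]
        rw [h7, ← add_assoc, kta_sgn_succ, neg_smul, neg_neg]
      rw [kDl_congr n ν (g' := fun k φ' => -(sgn (n + (φ.erase j).card) • S o k φ')) h4]
      unfold kDl
      rw [Finset.smul_sum, ← Finset.sum_neg_distrib]
      refine Finset.sum_congr rfl fun i _ => ?_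
      rw [smul_comm (sgn _) (eps _ _ _), ← smul_neg]
      congr 1
      rw [smul_sub, Finset.smul_sum]
      simp_rw [smul_neg, Finset.sum_neg_distrib, smul_comm (sgn (n + (φ.erase j).card))]
      abel
    rw [h3, smul_add]
    abel
  · have hφI : φ ⊆ I := (Finset.subset_insert_iff_of_notMem hj).1 hφ
    rw [kDl_old n hj]
    have h1 : kPs j O n Z S (l, o) φ = Z o l φ := if_neg hj
    rw [h1, ← hZ o l φ hφI]
    refine kDl_congr n ν fun i _ k => ?_
    exact if_neg fun h2 => hj (Finset.mem_of_mem_erase h2)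

end

/-! ## One more direction: the complexes -/

theorem ka_sum_row {α κ R σ : Type} [AddCommMonoid R] (s : Finset σ) (G : σ → Matrix α κ R)
    (a : α) : (∑ o ∈ s, G o) a = ∑ o ∈ s, G o a := by
  funext k
  rw [Matrix.sum_apply, Finset.sum_apply]

theorem ka_single_sum {α κ R : Type} [Fintype α] [DecidableEq α] [Semiring R]
    (G : Matrix α κ R) (a : α) (k : κ) : ∑ b, (Pi.single a 1 : α → R) b * G b k = G a k := by
  rw [Finset.sum_eq_single a]
  · rw [Pi.single_eq_same, one_mul]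
  · intro b _ hb
    rw [Pi.single_eq_of_ne hb, zero_mul]
  · intro h4
    exact absurd (Finset.mem_univ _) h4

section

variable {Γ : Type} [Group Γ] {D : Type} [LinearOrder D] {V : D → Type}
  [∀ i, MulAction Γ (V i)] {T : ∀ i, SimpleGraph (V i)}
  (h : ∀ i, TreeAct Γ (V i) (T i)) {N : Type} [Monoid N] {n : ℤ} {ι : Type} [Fintype ι]
  [DecidableEq ι] {I : Finset D} {B : Sz (SP h)} {p : ι → Pos V} {ν : D → Matrix ι ι ℤ}

theorem ka_upd_self (A : Sz (SP h)) (i : D) (a : Sub (h i)) : upd A i a i = a :=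
  Function.update_self _ _ _

theorem ka_upd_ne (A : Sz (SP h)) {i k : D} (a : Sub (h i)) (hk : k ≠ i) : upd A i a k = A k :=
  Function.update_of_ne hk _ _

/-- The extension of a matrix to all faces. -/
noncomputable def kX {κ : Type} (Y : Matrix (Kp h N n I B p ν).ι κ (ZM N)) : ι → Finset D → κ → ZM N :=
  fun l φ => if hφ : φ ∈ I.powerset then Y (l, ⟨φ, hφ⟩) else 0

theorem kX_pos {κ : Type} (Y : Matrix (Kp h N n I B p ν).ι κ (ZM N)) (l : ι) {φ : Finset D}
    (hφ : φ ⊆ I) : kX h Y l φ = Y (l, ⟨φ, Finset.mem_powerset.2 hφ⟩) :=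
  dif_pos (Finset.mem_powerset.2 hφ)

theorem kM_kX {κ : Type} (Y : Matrix (Kp h N n I B p ν).ι κ (ZM N)) :
    (kM h (kX h Y) : Matrix (Kp h N n I B p ν).ι κ (ZM N)) = Y := by
  funext b
  exact dif_pos b.2.2

/-- The rows of `d * Y`. -/
theorem kX_mul {κ : Type} (Y : Matrix (Kp h N n I B p ν).ι κ (ZM N)) (l : ι) {φ : Finset D}
    (hφ : φ ⊆ I) : ((Kp h N n I B p ν).d * Y) (l, ⟨φ, Finset.mem_powerset.2 hφ⟩) =
      kDl n ν (kX h Y) l φ := by
  conv_lhs => rw [← kM_kX h Y]
  exact kp_mul h (kX h Y) (l, ⟨φ, Finset.mem_powerset.2 hφ⟩)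

/-- The rows of the identity. -/
noncomputable def kE (x : ι) (φ : Finset D) : (Kp h N n I B p ν).ι → ZM N :=
  fun b => if b.1 = x ∧ b.2.1 = φ then 1 else 0

theorem kM_kE : (kM h (kE h) : Matrix (Kp h N n I B p ν).ι (Kp h N n I B p ν).ι (ZM N)) = 1 := by
  funext a b
  change (if b.1 = a.1 ∧ b.2.1 = a.2.1 then (1 : ZM N) else 0) = _
  rw [Matrix.one_apply]
  congr 1
  rw [eq_iff_iff]
  constructor
  · rintro ⟨h1, h2⟩
    exact (Prod.ext h1 (Subtype.ext h2)).symm
  · intro h1
    rw [h1]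
    exact ⟨rfl, rfl⟩

theorem kE_single (a : (Kp h N n I B p ν).ι) :
    (kE h a.1 a.2.1 : (Kp h N n I B p ν).ι → ZM N) = Pi.single a 1 := by
  funext b
  have h1 : (kM h (kE h) : Matrix (Kp h N n I B p ν).ι (Kp h N n I B p ν).ι (ZM N)) a b =
      (1 : Matrix (Kp h N n I B p ν).ι (Kp h N n I B p ν).ι (ZM N)) a b := by rw [kM_kE]
  rw [Matrix.one_apply] at h1
  rw [Pi.single_apply]
  refine h1.trans ?_
  by_cases h2 : a = b
  · rw [if_pos h2, if_pos h2.symm]
  · rw [if_neg h2, if_neg (Ne.symm h2)]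

end

section

variable {Γ : Type} [Group Γ] {D : Type} [Fintype D] [LinearOrder D] {V : D → Type}
  [∀ i, DecidableEq (V i)] [∀ i, MulAction Γ (V i)] {T : ∀ i, SimpleGraph (V i)}
  (h : ∀ i, TreeAct Γ (V i) (T i)) {N : Type} [Monoid N] {n : ℤ} {ι : Type} [Fintype ι]
  [DecidableEq ι] {I : Finset D} {B : Sz (SP h)} {p : ι → Pos V} {ν : D → Matrix ι ι ℤ}

variable {j : D} {O : Finset (V j × V j)}

omit [Fintype D] in
theorem kp_sz_edg (l : ι) (o : {o // o ∈ O}) {φ : Finset D} (hφ : φ ⊆ I) (hj : j ∉ φ)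
    (hφ' : φ ∈ (insert j I).powerset) :
    (Kp h N n (insert j I) B (kPp j O p) (kNu j O ν)).sz ((l, o), ⟨φ, hφ'⟩) =
      upd ((Kp h N n I B p ν).sz (l, ⟨φ, Finset.mem_powerset.2 hφ⟩)) j
        (edg (h j) o.1.1 o.1.2) := by
  funext i
  change (if i ∈ insert j I then sx h (kPp j O p (l, o)) φ i else B i) = _
  by_cases hi : i = j
  · subst hi
    rw [if_pos (Finset.mem_insert_self _ _), ka_upd_self, kta_sx_notMem h hj, kPp_self]
  · rw [ka_upd_ne h _ _ hi]
    change _ = if i ∈ I then sx h (p l) φ i else B i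
    by_cases hiI : i ∈ I
    · rw [if_pos hiI, if_pos (Finset.mem_insert_of_mem hiI)]
      exact kta_sx_congr h (kPp_ne _ hi)
    · rw [if_neg hiI, if_neg fun h1 => (Finset.mem_insert.1 h1).elim hi hiI]

omit [Fintype D] in
theorem kp_sz_vtx (l : ι) (o : {o // o ∈ O}) {φ : Finset D} (hφ : φ.erase j ⊆ I) (hj : j ∈ φ)
    (hφ' : φ ∈ (insert j I).powerset) :
    (Kp h N n (insert j I) B (kPp j O p) (kNu j O ν)).sz ((l, o), ⟨φ, hφ'⟩) =
      upd ((Kp h N n I B p ν).sz (l, ⟨φ.erase j, Finset.mem_powerset.2 hφ⟩)) j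
        (vtx (h j) o.1.2) := by
  funext i
  change (if i ∈ insert j I then sx h (kPp j O p (l, o)) φ i else B i) = _
  by_cases hi : i = j
  · subst hi
    rw [if_pos (Finset.mem_insert_self _ _), ka_upd_self, kta_sx_mem h hj, kPp_self]
  · rw [ka_upd_ne h _ _ hi]
    change _ = if i ∈ I then sx h (p l) (φ.erase j) i else B i
    have h1 : sx h (kPp j O p (l, o)) φ i = sx h (p l) (φ.erase j) i := by
      rw [kta_sx_congr h (kPp_ne _ hi)]
      by_cases h2 : i ∈ φ
      · rw [kta_sx_mem h h2, kta_sx_mem h (Finset.mem_erase.2 ⟨hi, h2⟩)]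
      · rw [kta_sx_notMem h h2, kta_sx_notMem h fun h3 => h2 (Finset.mem_of_mem_erase h3)]
    by_cases hiI : i ∈ I
    · rw [if_pos hiI, if_pos (Finset.mem_insert_of_mem hiI), h1]
    · rw [if_neg hiI, if_neg fun h1 => (Finset.mem_insert.1 h1).elim hi hiI]

/-- The abstract form of the step. -/
theorem ka_step {π : N →* Γ} {M : Co (SP h) N} (hI : ∀ i ∈ I, i < j) (hF : FrI T I p ν)
    (f : Matrix (Kp h N n I B p ν).ι M.ι (ZM N))
    (hO : ∀ o ∈ O, (T j).Adj o.1 o.2) (ρ : V j × V j → ℕ)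
    (hρ : ∀ o ∈ O, ∀ o' ∈ O, o'.1 = o.2 → o'.2 ≠ o.1 → ρ o < ρ o')
    (Z S : V j × V j → Matrix (Kp h N n I B p ν).ι M.ι (ZM N))
    (hZ : ∀ o ∈ O, (Kp h N n I B p ν).d * Z o = Z o * M.d)
    (hZs : ∀ o ∈ O, ∀ a, Z o a ∈ fam π Finset.univ M.toOb
      (upd ((Kp h N n I B p ν).sz a) j (edg (h j) o.1 o.2)) ((Kp h N n I B p ν).deg a))
    (hSs : ∀ o ∈ O, ∀ a, S o a ∈ fam π Finset.univ M.toOb
      (upd ((Kp h N n I B p ν).sz a) j (vtx (h j) o.2)) ((Kp h N n I B p ν).deg a + 1))
    (hrel : ∀ o ∈ O, (Kp h N n I B p ν).d * S o + S o * M.d =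
      Z o - ∑ o' ∈ O with o'.1 = o.2 ∧ o'.2 ≠ o.1, Z o')
    (O₀ : Finset {o // o ∈ O}) (hB : ∀ o ∈ O₀, B j ≤ edg (h j) o.1.1 o.1.2)
    (hN : Nul π Finset.univ (Kp h N n I B p ν) M (∑ o ∈ O₀, Z o.1 - f)) :
    ∃ (ι' : Type) (_ : Fintype ι') (_ : DecidableEq ι') (p' : ι' → Pos V)
      (ν' : D → Matrix ι' ι' ℤ)
      (c : Matrix (Kp h N n I B p ν).ι (Kp h N n (insert j I) B p' ν').ι (ZM N))
      (ψ : Matrix (Kp h N n (insert j I) B p' ν').ι M.ι (ZM N)),
      FrI T (insert j I) p' ν' ∧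
      Ch π Finset.univ (Kp h N n I B p ν) (Kp h N n (insert j I) B p' ν') c ∧
      Ch π Finset.univ (Kp h N n (insert j I) B p' ν') M ψ ∧
      Nul π Finset.univ (Kp h N n I B p ν) M (c * ψ - f) := by
  have hjI : j ∉ I := fun h1 => lt_irrefl j (hI j h1)
  have hjφ : ∀ φ : Finset D, φ ⊆ I → j ∉ φ := fun φ h1 h2 => hjI (h1 h2)
  -- the chain map `ψ`
  let Zx : {o // o ∈ O} → ι → Finset D → M.ι → ZM N := fun o => kX h (Z o.1)
  let Sx : {o // o ∈ O} → ι → Finset D → M.ι → ZM N := fun o => kX h (S o.1)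
  let ψ' : ι × {o // o ∈ O} → Finset D → M.ι → ZM N := kPs j O n Zx Sx
  let δ : (M.ι → ZM N) →+ (M.ι → ZM N) :=
    { toFun := fun v => v ᵥ* M.d
      map_zero' := Matrix.zero_vecMul _
      map_add' := fun v w => Matrix.add_vecMul _ _ _ }
  have h1 : ∀ (x : ι × {o // o ∈ O}) (φ : Finset D), φ ⊆ insert j I →
      kDl n (kNu j O ν) ψ' x φ = δ (ψ' x φ) := by
    intro x φ hφ
    refine kPs_d n hI δ (fun o l φ hφ => ?_) (fun o l φ hφ => ?_) x hφ
    · rw [← kX_mul h (Z o.1) l hφ, hZ o.1 o.2]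
      change _ = (kX h (Z o.1) l φ) ᵥ* M.d
      rw [kX_pos h _ l hφ]
      rfl
    · have h2 := congrFun (hrel o.1 o.2) (l, ⟨φ, Finset.mem_powerset.2 hφ⟩)
      rw [← kX_mul h (S o.1) l hφ]
      change _ + (kX h (S o.1) l φ) ᵥ* M.d = kX h (Z o.1) l φ - ∑ o', kMu O o o' •
        kX h (Z o'.1) l φ
      simp_rw [kX_pos h _ l hφ]
      refine Eq.trans ?_ (h2.trans ?_)
      · rfl
      · change Z o.1 _ - (∑ o' ∈ O with o'.1 = o.1.2 ∧ o'.2 ≠ o.1.1, Z o') _ = _
        congr 1
        rw [Finset.sum_filter]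
        have h3 := Finset.sum_coe_sort O fun o' : V j × V j =>
          if o'.1 = o.1.2 ∧ o'.2 ≠ o.1.1 then Z o' else 0
        rw [← h3]
        rw [ka_sum_row]
        refine Finset.sum_congr rfl fun o' _ => ?_
        unfold kMu
        split_ifs
        · rw [one_smul]
        · rw [zero_smul]
          rfl
  let X' : Co (SP h) N := Kp h N n (insert j I) B (kPp j O p) (kNu j O ν)
  have hψd : X'.d * (kM h ψ' : Matrix X'.ι M.ι (ZM N)) =
      (kM h ψ' : Matrix X'.ι M.ι (ZM N)) * M.d := by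
    funext a
    refine (kp_mul h ψ' a).trans ?_
    exact h1 a.1 a.2.1 (Finset.mem_powerset.1 a.2.2)
  have hψs : Ct π Finset.univ 0 X'.toOb M.toOb (kM h ψ' : Matrix X'.ι M.ι (ZM N)) := by
    rw [ct_iff]
    rintro ⟨⟨l, o⟩, φ, hφ'⟩
    change ψ' (l, o) φ ∈ fam π Finset.univ M.toOb (X'.sz ((l, o), ⟨φ, hφ'⟩)) (n + φ.card + 0)
    have hφ := Finset.mem_powerset.1 hφ'
    by_cases hj : j ∈ φ
    · have hφI : φ.erase j ⊆ I := Finset.subset_insert_iff.1 hφ
      rw [show X'.sz ((l, o), ⟨φ, hφ'⟩) = _ from kp_sz_vtx h l o hφI hj hφ']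
      have h2 : ψ' (l, o) φ = sgn (n + (φ.erase j).card) • kX h (S o.1) l (φ.erase j) := if_pos hj
      rw [h2, kX_pos h _ l hφI]
      refine AddSubgroup.zsmul_mem _ ?_ _
      have h3 := hSs o.1 o.2 (l, ⟨φ.erase j, Finset.mem_powerset.2 hφI⟩)
      have h4 : (Kp h N n I B p ν).deg (l, ⟨φ.erase j, Finset.mem_powerset.2 hφI⟩) + 1 =
          n + φ.card + 0 := by
        change n + ((φ.erase j).card : ℤ) + 1 = _
        rw [← Finset.card_erase_add_one hj, Nat.cast_add, Nat.cast_one]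
        ring
      rw [h4] at h3
      exact h3
    · have hφI : φ ⊆ I := (Finset.subset_insert_iff_of_notMem hj).1 hφ
      rw [show X'.sz ((l, o), ⟨φ, hφ'⟩) = _ from kp_sz_edg h l o hφI hj hφ']
      have h2 : ψ' (l, o) φ = kX h (Z o.1) l φ := if_neg hj
      rw [h2, kX_pos h _ l hφI]
      have h3 := hZs o.1 o.2 (l, ⟨φ, Finset.mem_powerset.2 hφI⟩)
      have h4 : (Kp h N n I B p ν).deg (l, ⟨φ, Finset.mem_powerset.2 hφI⟩) =
          n + φ.card + 0 := by
        change n + (φ.card : ℤ) = _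
        ring
      rw [h4] at h3
      exact h3
  -- the chain map `c`
  let c' : ι → Finset D → X'.ι → ZM N := fun l φ => ∑ o ∈ O₀, kE h (l, o) φ
  let c : Matrix (Kp h N n I B p ν).ι X'.ι (ZM N) := kM h c'
  have hin : ∀ φ : {φ // φ ∈ I.powerset}, φ.1 ∈ (insert j I).powerset := fun φ =>
    Finset.mem_powerset.2 ((Finset.mem_powerset.1 φ.2).trans (Finset.subset_insert j I))
  have hmul : ∀ {κ : Type} (G : Matrix X'.ι κ (ZM N)) (a : (Kp h N n I B p ν).ι),
      (c * G) a = ∑ o ∈ O₀, G ((a.1, o), ⟨a.2.1, hin a.2⟩) := by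
    intro κ G a
    funext k
    rw [Matrix.mul_apply]
    have h2 : ∀ b : X'.ι, c a b = ∑ o ∈ O₀, (kE h (a.1, o) a.2.1 : X'.ι → ZM N) b := fun b =>
      Finset.sum_apply b O₀ _
    simp_rw [h2, Finset.sum_mul]
    rw [Finset.sum_comm, Finset.sum_apply]
    refine Finset.sum_congr rfl fun o _ => ?_
    have h3 : (kE h (a.1, o) a.2.1 : X'.ι → ZM N) = Pi.single ((a.1, o), ⟨a.2.1, hin a.2⟩) 1 :=
      kE_single h (((a.1, o), ⟨a.2.1, hin a.2⟩) : X'.ι)
    rw [h3]
    exact ka_single_sum G _ k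
  have hcd : (Kp h N n I B p ν).d * c = c * X'.d := by
    funext a
    obtain ⟨l, φ, hφ⟩ := a
    have hj := hjφ φ (Finset.mem_powerset.1 hφ)
    rw [hmul]
    refine (kp_mul h c' _).trans ?_
    change kDl n ν (fun l φ => ∑ o ∈ O₀, kE h (l, o) φ) l φ = _
    rw [kDl_sum]
    refine Finset.sum_congr rfl fun o _ => ?_
    have h2 : X'.d ((l, o), ⟨φ, hin ⟨φ, hφ⟩⟩) =
        (X'.d * (kM h (kE h) : Matrix X'.ι X'.ι (ZM N))) ((l, o), ⟨φ, hin ⟨φ, hφ⟩⟩) := by
      rw [show (kM h (kE h) : Matrix X'.ι X'.ι (ZM N)) = 1 from kM_kE h, Matrix.mul_one]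
    change _ = X'.d ((l, o), ⟨φ, hin ⟨φ, hφ⟩⟩)
    rw [h2]
    refine Eq.trans ?_ (kp_mul h (kE h) _).symm
    exact (kDl_old n hj _ l o).symm
  have hcs : Ct π Finset.univ 0 (Kp h N n I B p ν).toOb X'.toOb c := by
    rw [ct_iff]
    rintro ⟨l, φ, hφ⟩
    change ∑ o ∈ O₀, kE h (l, o) φ ∈ _
    refine AddSubgroup.sum_mem _ fun o ho => ?_
    have h3 : (kE h (l, o) φ : X'.ι → ZM N) = Pi.single ((l, o), ⟨φ, hin ⟨φ, hφ⟩⟩) 1 :=
      kE_single h (((l, o), ⟨φ, hin ⟨φ, hφ⟩⟩) : X'.ι)
    rw [h3, add_zero]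
    refine fam_anti (fun i _ => ?_) (basis_mem_fam (π := π) (U := Finset.univ) (X := X'.toOb)
      ((l, o), ⟨φ, hin ⟨φ, hφ⟩⟩))
    rw [show X'.sz ((l, o), ⟨φ, hin ⟨φ, hφ⟩⟩) = _ from
      kp_sz_edg h l o (Finset.mem_powerset.1 hφ) (hjφ φ (Finset.mem_powerset.1 hφ)) _]
    by_cases hi : i = j
    · subst hi
      rw [ka_upd_self]
      refine le_trans (le_of_eq ?_) (hB o ho)
      exact if_neg hjI
    · rw [ka_upd_ne h _ _ hi]
  refine ⟨ι × {o // o ∈ O}, inferInstance, inferInstance, kPp j O p, kNu j O ν, c, kM h ψ',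
    kNu_frI hjI hF hO ρ hρ, ⟨hcs, hcd⟩, ⟨hψs, hψd⟩, ?_⟩
  have h2 : c * (kM h ψ' : Matrix X'.ι M.ι (ZM N)) = ∑ o ∈ O₀, Z o.1 := by
    funext a
    obtain ⟨l, φ, hφ⟩ := a
    rw [hmul, ka_sum_row]
    refine Finset.sum_congr rfl fun o _ => ?_
    change ψ' (l, o) φ = _
    have h3 : ψ' (l, o) φ = kX h (Z o.1) l φ := if_neg (hjφ φ (Finset.mem_powerset.1 hφ))
    rw [h3, kX_pos h _ l (Finset.mem_powerset.1 hφ)]
  rw [h2]
  exact hN

end

/-! ## The complex -/

section

variable {D : Type} [LinearOrder D] {ι : Type} [Fintype ι] {E : Type} [AddCommGroup E]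

/-- The action of a matrix on a vector. -/
def kAc (A : Matrix ι ι ℤ) (x : ι → E) : ι → E := fun l => x l - ∑ k, A l k • x k

theorem kAc_comm {A A' : Matrix ι ι ℤ} (hA : A * A' = A' * A) (x : ι → E) :
    kAc A (kAc A' x) = kAc A' (kAc A x) := by
  have key : ∀ (A A' : Matrix ι ι ℤ) (l : ι), ∑ k, A l k • ∑ k', A' k k' • x k' =
      ∑ k', (A * A') l k' • x k' := by
    intro A A' l
    simp_rw [Finset.smul_sum, Matrix.mul_apply, Finset.sum_smul, mul_smul]
    exact Finset.sum_comm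
  funext l
  unfold kAc
  simp_rw [smul_sub, Finset.sum_sub_distrib]
  rw [key A A', key A' A, hA]
  abel

theorem kAc_sum (A : Matrix ι ι ℤ) {α : Type} (s : Finset α) (x : α → ι → E) :
    kAc A (fun l => ∑ a ∈ s, x a l) = fun l => ∑ a ∈ s, kAc A (x a) l := by
  funext l
  unfold kAc
  rw [Finset.sum_sub_distrib]
  congr 1
  simp_rw [Finset.smul_sum]
  exact Finset.sum_comm

theorem kAc_smul (A : Matrix ι ι ℤ) (c : ℤ) (x : ι → E) :
    kAc A (fun l => c • x l) = fun l => c • kAc A x l := by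
  funext l
  unfold kAc
  rw [smul_sub, Finset.smul_sum]
  simp_rw [smul_comm c]

theorem kDl_eq (n : ℤ) (ν : D → Matrix ι ι ℤ) (g : ι → Finset D → E) (l : ι) (φ : Finset D) :
    kDl n ν g l φ = ∑ i ∈ φ, eps n i φ • kAc (ν i) (fun k => g k (φ.erase i)) l := rfl

theorem kDl_kDl (n : ℤ) {ν : D → Matrix ι ι ℤ} {I : Finset D}
    (hν : ∀ i ∈ I, ∀ j ∈ I, ν i * ν j = ν j * ν i) (g : ι → Finset D → E) (l : ι) {φ : Finset D}
    (hφ : φ ⊆ I) : kDl n ν (kDl n ν g) l φ = 0 := by
  have h1 : kDl n ν (kDl n ν g) l φ = ∑ i ∈ φ, ∑ j ∈ φ.erase i,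
      (eps n i φ * eps n j (φ.erase i)) •
        kAc (ν i) (kAc (ν j) fun k => g k ((φ.erase i).erase j)) l := by
    rw [kDl_eq]
    refine Finset.sum_congr rfl fun i _ => ?_
    have h2 : (fun k => kDl n ν g k (φ.erase i)) = fun k => ∑ j ∈ φ.erase i,
        (fun (j : D) (k : ι) => eps n j (φ.erase i) •
          kAc (ν j) (fun k => g k ((φ.erase i).erase j)) k) j k := rfl
    rw [h2, kAc_sum]
    change eps n i φ • (∑ j ∈ φ.erase i, _) = _
    rw [Finset.smul_sum]
    refine Finset.sum_congr rfl fun j _ => ?_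
    rw [kAc_smul, smul_smul]
  rw [h1, Finset.sum_sigma']
  refine Finset.sum_involution (fun p _ => ⟨p.2, p.1⟩) ?_ ?_ ?_ ?_
  · rintro ⟨i, j⟩ hp
    rw [Finset.mem_sigma] at hp
    obtain ⟨hi, hp⟩ := hp
    obtain ⟨hij, hj⟩ := Finset.mem_erase.1 hp
    change (eps n i φ * eps n j (φ.erase i)) •
        kAc (ν i) (kAc (ν j) fun k => g k ((φ.erase i).erase j)) l +
      (eps n j φ * eps n i (φ.erase j)) •
        kAc (ν j) (kAc (ν i) fun k => g k ((φ.erase j).erase i)) l = 0
    change j ≠ i at hij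
    change i ∈ φ at hi
    change j ∈ φ at hj
    rw [kAc_comm (hν i (hφ hi) j (hφ hj)), Finset.erase_right_comm (a := j) (b := i), ← add_smul]
    have h3 : eps n i φ * eps n j (φ.erase i) + eps n j φ * eps n i (φ.erase j) = 0 := by
      have h4 : i ∉ (φ.erase i).erase j := fun h5 =>
        Finset.notMem_erase i φ (Finset.mem_of_mem_erase h5)
      have h5 : j ∉ (φ.erase i).erase j := Finset.notMem_erase j _
      have h6 : insert j ((φ.erase i).erase j) = φ.erase i :=
        Finset.insert_erase (Finset.mem_erase.2 ⟨hij, hj⟩)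
      have h7 : insert i ((φ.erase i).erase j) = φ.erase j := by
        rw [Finset.erase_right_comm]
        exact Finset.insert_erase (Finset.mem_erase.2 ⟨hij.symm, hi⟩)
      have h8 : ∀ (a : D) (ψ : Finset D), eps n a (ψ.erase a) = eps n a ψ := by
        intro a ψ
        have h9 : (ψ.erase a).filter (· < a) = ψ.filter (· < a) := by
          ext b
          rw [Finset.mem_filter, Finset.mem_filter, Finset.mem_erase]
          constructor
          · rintro ⟨⟨-, h9⟩, h10⟩
            exact ⟨h9, h10⟩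
          · rintro ⟨h9, h10⟩
            exact ⟨⟨h10.ne, h9⟩, h10⟩
        unfold eps
        rw [h9]
      have h9 := kta_eps_swap n h4 h5 hij.symm
      rw [h6, h7] at h9
      have h10 : eps n i ((φ.erase i).erase j) = eps n i (φ.erase j) := by
        rw [Finset.erase_right_comm, h8]
      have h11 : eps n j ((φ.erase i).erase j) = eps n j (φ.erase i) := h8 _ _
      rw [h10, h11, h8 j φ, h8 i φ] at h9
      linear_combination h9
    rw [h3, zero_smul]
  · rintro ⟨i, j⟩ hp _ heq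
    rw [Finset.mem_sigma] at hp
    have h2 : j = i := congrArg Sigma.fst heq
    exact (Finset.mem_erase.1 hp.2).1 h2
  · rintro ⟨i, j⟩ hp
    rw [Finset.mem_sigma] at hp ⊢
    obtain ⟨hij, hj⟩ := Finset.mem_erase.1 hp.2
    exact ⟨hj, Finset.mem_erase.2 ⟨Ne.symm hij, hp.1⟩⟩
  · rintro ⟨i, j⟩ _
    rfl

end

section

variable {Γ : Type} [Group Γ] {D : Type} [Fintype D] [LinearOrder D] {V : D → Type}
  [∀ i, MulAction Γ (V i)] {T : ∀ i, SimpleGraph (V i)}
  (h : ∀ i, TreeAct Γ (V i) (T i)) {N : Type} [Monoid N] {n : ℤ} {ι : Type} [Fintype ι]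
  [DecidableEq ι] {I : Finset D} {B : Sz (SP h)} {p : ι → Pos V} {ν : D → Matrix ι ι ℤ}

omit [Fintype D] in
theorem kp_dd (hF : FrI T I p ν) : (Kp h N n I B p ν).d * (Kp h N n I B p ν).d = 0 := by
  have h1 : (Kp h N n I B p ν).d = (Kp h N n I B p ν).d *
      (kM h (kE h) : Matrix (Kp h N n I B p ν).ι (Kp h N n I B p ν).ι (ZM N)) := by
    rw [kM_kE, Matrix.mul_one]
  have h2 : ((Kp h N n I B p ν).d *
      (kM h (kE h) : Matrix (Kp h N n I B p ν).ι (Kp h N n I B p ν).ι (ZM N))) =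
      kM h (kDl n ν (kE h)) := by
    funext a
    exact kp_mul h _ a
  have h3 : (Kp h N n I B p ν).d * (Kp h N n I B p ν).d =
      (Kp h N n I B p ν).d * (kM h (kDl n ν (kE h)) :
        Matrix (Kp h N n I B p ν).ι (Kp h N n I B p ν).ι (ZM N)) :=
    congrArg (fun Y => (Kp h N n I B p ν).d * Y) (h1.trans h2)
  rw [h3]
  funext a
  exact (kp_mul h _ a).trans (kDl_kDl n hF.comm _ _ (Finset.mem_powerset.1 a.2.2))

/-- The differential is controlled, also with another size in a direction outside `I`. -/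
theorem kp_ct (π : N →* Γ) (hF : FrI T I p ν) {j : D} (A : Sub (h j))
    (a b : (Kp h N n I B p ν).ι) (m : N) (hm : ((Kp h N n I B p ν).d a b).coeff m ≠ 0) :
    (Kp h N n I B p ν).deg b = (Kp h N n I B p ν).deg a + (-1) ∧
      ∀ i ∈ Finset.univ, upd ((Kp h N n I B p ν).sz a) j A i ≤
        π m • upd ((Kp h N n I B p ν).sz b) j A i := by
  obtain ⟨l, φ, hφ⟩ := a
  obtain ⟨k, φ', hφ'⟩ := b
  change ((MonoidAlgebra.single 1 (∑ i ∈ φ, if φ' = φ.erase i then
    eps n i φ * ((if l = k then 1 else 0) - ν i l k) else 0) : ZM N)).coeff m ≠ 0 at hm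
  have hm1 : m = 1 := coeff_single_ne hm
  subst hm1
  rw [MonoidAlgebra.coeff_single, Finsupp.single_eq_same] at hm
  rw [map_one]
  obtain ⟨i, hi, h1⟩ := Finset.exists_ne_zero_of_sum_ne_zero hm
  have h2 : φ' = φ.erase i := by
    by_contra h3
    exact h1 (if_neg h3)
  rw [if_pos h2] at h1
  have h3 : (if l = k then (1 : ℤ) else 0) - ν i l k ≠ 0 := right_ne_zero_of_mul h1
  have hiI : i ∈ I := Finset.mem_powerset.1 hφ hi
  refine ⟨?_, fun i' _ => ?_⟩
  · change n + (φ'.card : ℤ) = n + (φ.card : ℤ) + (-1)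
    rw [h2, ← Finset.card_erase_add_one hi, Nat.cast_add, Nat.cast_one]
    ring
  · rw [one_smul]
    by_cases h4 : i' = j
    · subst h4
      rw [ka_upd_self, ka_upd_self]
    · rw [ka_upd_ne h _ _ h4, ka_upd_ne h _ _ h4]
      change (if i' ∈ I then sx h (p l) φ i' else B i') ≤ if i' ∈ I then sx h (p k) φ' i' else B i'
      by_cases h5 : i' ∈ I
      · rw [if_pos h5, if_pos h5, h2]
        by_cases h6 : i' = i
        · subst h6
          rw [kta_sx_mem h hi, kta_sx_notMem h (Finset.notMem_erase _ _)]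
          by_cases h7 : l = k
          · subst h7
            exact kta_vtx_le_right h (hF.oe l i' h5)
          · have h8 : ν i' l k ≠ 0 := by
              intro h9
              rw [if_neg h7, h9, sub_zero] at h3
              exact h3 rfl
            obtain ⟨-, h9, h10, -⟩ := hF.loc i' h5 l k h8
            rw [← h9]
            exact kta_vtx_le_left h h10
        · have h7 : p k i' = p l i' := by
            by_cases h7 : l = k
            · rw [h7]
            · have h8 : ν i l k ≠ 0 := by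
                intro h9
                rw [if_neg h7, h9, sub_zero] at h3
                exact h3 rfl
              exact (hF.loc i hiI l k h8).1 i' h6
          have h8 : sx h (p k) (φ.erase i) i' = sx h (p l) φ i' := by
            rw [kta_sx_congr h h7]
            by_cases h9 : i' ∈ φ
            · rw [kta_sx_mem h h9, kta_sx_mem h (Finset.mem_erase.2 ⟨h6, h9⟩)]
            · rw [kta_sx_notMem h h9, kta_sx_notMem h fun h10 => h9 (Finset.mem_of_mem_erase h10)]
          rw [h8]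
      · rw [if_neg h5, if_neg h5]

end

/-! ## Flows -/

section

variable {W : Type} {T : SimpleGraph W}

/-- The outflow through a set of oriented edges. -/
theorem ka_bd [DecidableEq W] {H : Type} [AddCommGroup H] {y : W → W → H} (hy : IsFlow T y)
    (O : Finset (W × W)) (u w : W) (hO : ∀ x, x ≠ u → y w x ≠ 0 → (w, x) ∈ O) :
    ∑ o ∈ O with o.1 = w ∧ o.2 ≠ u, y o.1 o.2 = y u w - bd y w := by
  have hfin : (Function.support fun x => y x w).Finite := by
    refine Set.Finite.of_finite_image (f := fun x => (x, w)) (hy.fin.subset ?_) ?_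
    · rintro _ ⟨x, hx, rfl⟩
      exact hx
    · intro x _ x' _ hxx
      exact congrArg Prod.fst hxx
  let G : Finset W := insert u (hfin.toFinset ∪ O.image Prod.snd)
  have h1 : bd y w = ∑ x ∈ G, y x w := by
    refine finsum_eq_finsetSum_of_support_subset _ fun x hx => ?_
    exact Finset.mem_insert_of_mem (Finset.mem_union_left _ (hfin.mem_toFinset.2 hx))
  have h2 : ∑ x ∈ G, y x w = -∑ x ∈ G, y w x := by
    rw [← Finset.sum_neg_distrib]
    exact Finset.sum_congr rfl fun x _ => hy.anti x w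
  have h3 : ∑ x ∈ G, y w x = y w u + ∑ x ∈ G.erase u, y w x :=
    (Finset.add_sum_erase G _ (Finset.mem_insert_self u _)).symm
  have h4 : ∑ o ∈ O with o.1 = w ∧ o.2 ≠ u, y o.1 o.2 = ∑ x ∈ G.erase u, y w x := by
    rw [← Finset.sum_subset (s₁ := (O.filter fun o => o.1 = w ∧ o.2 ≠ u).image Prod.snd)]
    · rw [Finset.sum_image]
      · refine Finset.sum_congr rfl fun o ho => ?_
        rw [(Finset.mem_filter.1 ho).2.1]
      · intro o ho o' ho' hoo
        rw [Finset.mem_coe, Finset.mem_filter] at ho ho'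
        exact Prod.ext (ho.2.1.trans ho'.2.1.symm) hoo
    · intro x hx
      obtain ⟨o, ho, rfl⟩ := Finset.mem_image.1 hx
      rw [Finset.mem_filter] at ho
      exact Finset.mem_erase.2 ⟨ho.2.2, Finset.mem_insert_of_mem
        (Finset.mem_union_right _ (Finset.mem_image_of_mem _ ho.1))⟩
    · intro x hx hn
      by_contra h5
      have hxu := (Finset.mem_erase.1 hx).1
      refine hn (Finset.mem_image.2 ⟨(w, x), ?_, rfl⟩)
      exact Finset.mem_filter.2 ⟨hO x hxu h5, rfl, hxu⟩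
  rw [h4, h1, h2, h3, hy.anti u w]
  abel

/-- In a tree, the edges after an edge which points away from `a` point away from `a`. -/
theorem ka_away (hT : T.IsTree) {a u w x : W} (h1 : T.dist a w = T.dist a u + 1)
    (huw : T.Adj u w) (hwx : T.Adj w x) (hxu : x ≠ u) : T.dist a x = T.dist a w + 1 := by
  rcases hT.dist_eq_dist_add_one_of_adj a hwx with h2 | h2
  · exfalso
    apply hxu
    have h3 : T.dist u w = 1 := T.dist_eq_one_iff_adj.2 huw
    have h4 : T.dist x w = 1 := T.dist_eq_one_iff_adj.2 hwx.symm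
    exact (LS.tree_eq_of_dist hT (x := a) (z := w) (y := u) (y' := x) (by omega) (by omega)
      (by omega)).symm
  · exact h2

end

section

variable {Γ : Type} [Group Γ] {D : Type} [Fintype D] [LinearOrder D] {V : D → Type}
  [∀ i, MulAction Γ (V i)] {T : ∀ i, SimpleGraph (V i)}
  (h : ∀ i, TreeAct Γ (V i) (T i)) {N : Type} [Group N] {n : ℤ} {ι : Type} [Fintype ι]
  [DecidableEq ι] {I : Finset D} {B : Sz (SP h)} {p : ι → Pos V} {ν : D → Matrix ι ι ℤ}

/-- The evaluation at a row. -/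
def kRow {α κ : Type} (N : Type) [Monoid N] (a : α) : Matrix α κ (ZM N) →+ (κ → ZM N) where
  toFun Y := Y a
  map_zero' := rfl
  map_add' _ _ := rfl

/-- The splitting of the homotopy and the flow. -/
theorem ka_flow {π : N →* Γ} {M : Co (SP h) N} (hM : Acy h π M) {j : D} (hj : j ∉ I)
    (hF : FrI T I p ν) (f : Matrix (Kp h N n I B p ν).ι M.ι (ZM N))
    (hf : Ch π Finset.univ (Kp h N n I B p ν) M f) (v₀ : V j) (hv : vtx (h j) v₀ ≤ B j) :
    ∃ (S : V j → Matrix (Kp h N n I B p ν).ι M.ι (ZM N))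
      (R : V j → Matrix (Kp h N n I B p ν).ι M.ι (ZM N))
      (y : V j → V j → Matrix (Kp h N n I B p ν).ι M.ι (ZM N)), IsFlow (T j) y ∧
      (∀ w a, S w a ∈ fam π Finset.univ M.toOb
        (upd ((Kp h N n I B p ν).sz a) j (vtx (h j) w)) ((Kp h N n I B p ν).deg a + 1)) ∧
      (∀ w, bd y w = R w) ∧
      (∀ w, w ≠ v₀ → R w = (Kp h N n I B p ν).d * S w + S w * M.d) ∧
      R v₀ = (Kp h N n I B p ν).d * S v₀ + S v₀ * M.d - f ∧
      (∀ u w, (Kp h N n I B p ν).d * y u w = y u w * M.d) ∧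
      ∀ u w, (T j).Adj u w → ∀ a, y u w a ∈ fam π Finset.univ M.toOb
        (upd ((Kp h N n I B p ν).sz a) j (edg (h j) u w)) ((Kp h N n I B p ν).deg a) := by
  classical
  let X : Co (SP h) N := Kp h N n I B p ν
  have hXd : X.d * X.d = 0 := kp_dd h hF
  obtain ⟨⟨hMd, hMdd⟩, -, hcon⟩ := hM
  obtain ⟨cj, hcj, hcj1⟩ := hcon j
  -- the homotopy over `univ - j`
  let s : Matrix X.ι M.ι (ZM N) := f * cj
  have hs : X.d * s + s * M.d = f := by
    change X.d * (f * cj) + f * cj * M.d = f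
    rw [← Matrix.mul_assoc, hf.2, Matrix.mul_assoc, Matrix.mul_assoc, ← Matrix.mul_add, ← hcj1,
      Matrix.mul_one]
  have hsc : Ct π (Finset.univ.erase j) 1 X.toOb M.toOb s :=
    (hf.1.mono (Finset.erase_subset _ _)).mul' hcj (zero_add 1)
  have hMV := stMV stFlow
  have hsplit : ∀ a : X.ι, ∃ x' : V j → M.ι → ZM N, {w | x' w ≠ 0}.Finite ∧
      (∀ w, x' w ∈ fam π Finset.univ M.toOb (upd (X.sz a) j (vtx (h j) w)) (X.deg a + 1)) ∧
      ∑ᶠ w, x' w = s a := fun a =>
    (hMV Γ D V T h N π M.toOb j (X.deg a + 1) (X.sz a)).1 (s a) (ct_iff.1 hsc a)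
  choose S' hS1 hS2 hS3 using hsplit
  let S : V j → Matrix X.ι M.ι (ZM N) := fun w a => S' a w
  let F : Finset (V j) := insert v₀ (Finset.univ.biUnion fun a : X.ι => (hS1 a).toFinset)
  have hSF : ∀ w, w ∉ F → S w = 0 := by
    intro w hw
    funext a
    by_contra h1
    exact hw (Finset.mem_insert_of_mem (Finset.mem_biUnion.2
      ⟨a, Finset.mem_univ a, (hS1 a).mem_toFinset.2 h1⟩))
  have hsum : ∑ w ∈ F, S w = s := by
    funext a
    rw [ka_sum_row, ← hS3 a]
    refine (finsum_eq_finsetSum_of_support_subset _ fun w hw => ?_).symm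
    exact Finset.mem_insert_of_mem (Finset.mem_biUnion.2
      ⟨a, Finset.mem_univ a, (hS1 a).mem_toFinset.2 hw⟩)
  let R : V j → Matrix X.ι M.ι (ZM N) := fun w => X.d * S w + S w * M.d - if w = v₀ then f else 0
  have hRF : ∀ w, w ∉ F → R w = 0 := by
    intro w hw
    have h1 : w ≠ v₀ := fun h2 => hw (h2 ▸ Finset.mem_insert_self _ _)
    change X.d * S w + S w * M.d - (if w = v₀ then f else 0) = 0
    rw [hSF w hw, if_neg h1, Matrix.mul_zero, Matrix.zero_mul, add_zero, sub_zero]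
  have hRsupp : (Function.support R).Finite :=
    F.finite_toSet.subset fun w hw => by
      by_contra h1
      exact hw (hRF w h1)
  have hRsum : ∑ᶠ w, R w = 0 := by
    rw [finsum_eq_finsetSum_of_support_subset (s := F) R fun w hw => by
      by_contra h1
      exact hw (hRF w h1)]
    change ∑ w ∈ F, (X.d * S w + S w * M.d - if w = v₀ then f else 0) = 0
    rw [Finset.sum_sub_distrib, Finset.sum_add_distrib, ← Matrix.mul_sum, ← Matrix.sum_mul, hsum,
      hs, Finset.sum_ite_eq', if_pos (Finset.mem_insert_self _ _), sub_self]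
  have hRd : ∀ w, X.d * R w = R w * M.d := by
    intro w
    change X.d * (X.d * S w + S w * M.d - if w = v₀ then f else 0) =
      (X.d * S w + S w * M.d - if w = v₀ then f else 0) * M.d
    rw [Matrix.mul_sub, Matrix.sub_mul, Matrix.mul_add, Matrix.add_mul, ← Matrix.mul_assoc X.d X.d,
      hXd, Matrix.zero_mul, zero_add, Matrix.mul_assoc (S w), hMdd, Matrix.mul_zero, add_zero,
      Matrix.mul_assoc]
    congr 1
    split_ifs
    · exact hf.2
    · rw [Matrix.mul_zero, Matrix.zero_mul]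
  have hRs : ∀ w a, R w a ∈ fam π Finset.univ M.toOb (upd (X.sz a) j (vtx (h j) w)) (X.deg a) := by
    intro w
    let Xw : Co (SP h) N := X.withSz fun a => upd (X.sz a) j (vtx (h j) w)
    have h1 : Ct π Finset.univ 1 Xw.toOb M.toOb (S w) := fun a => hS2 a w
    have h2 : Ct π Finset.univ (-1) Xw.toOb Xw.toOb X.d := fun a b m hm =>
      kp_ct h π hF (vtx (h j) w) a b m hm
    have h3 : Ct π Finset.univ 0 Xw.toOb M.toOb (X.d * S w + S w * M.d) :=
      (h2.mul' h1 (neg_add_cancel 1)).add (h1.mul' hMd (add_neg_cancel 1))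
    have h4 : Ct π Finset.univ 0 Xw.toOb M.toOb (if w = v₀ then f else 0) := by
      split_ifs with h5
      · intro a b m hm
        obtain ⟨h6, h7⟩ := hf.1 a b m hm
        refine ⟨h6, fun i _ => ?_⟩
        by_cases h8 : i = j
        · subst h8
          refine le_trans ?_ (h7 i (Finset.mem_univ i))
          change upd (X.sz a) i (vtx (h i) w) i ≤ _
          rw [ka_upd_self, h5]
          refine hv.trans (le_of_eq ?_)
          exact (if_neg hj).symm
        · refine le_trans (le_of_eq ?_) (h7 i (Finset.mem_univ i))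
          exact ka_upd_ne h _ _ h8
      · exact Ct.zero
    intro a
    have h5 := ct_iff.1 (h3.sub h4) a
    rw [add_zero] at h5
    exact h5
  -- the flow
  obtain ⟨y, hy, hyb⟩ := (stFlow (V j) (T j) (h j).tree (Matrix X.ι M.ι (ZM N))).2.1 R hRsupp hRsum
  refine ⟨S, R, y, hy, fun w a => hS2 a w, hyb, fun w hw => ?_, ?_, fun u w => ?_,
    fun u w huw a => ?_⟩
  · change X.d * S w + S w * M.d - (if w = v₀ then f else 0) = _
    rw [if_neg hw, sub_zero]
  · change X.d * S v₀ + S v₀ * M.d - (if v₀ = v₀ then f else 0) = _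
    rw [if_pos rfl]
  · -- the cycles
    let g : Matrix X.ι M.ι (ZM N) →+ Matrix X.ι M.ι (ZM N) :=
      { toFun := fun Y => X.d * Y - Y * M.d
        map_zero' := by rw [Matrix.mul_zero, Matrix.zero_mul, sub_zero]
        map_add' := fun Y Y' => by rw [Matrix.mul_add, Matrix.add_mul]; abel }
    obtain ⟨h1, h2⟩ := (stFlow2 (V j) (T j) (Matrix X.ι M.ι (ZM N))).2.2.1 _ g y hy
    by_cases huw : (T j).Adj u w
    · have h3 := ((stFlow (V j) (T j) (h j).tree (Matrix X.ι M.ι (ZM N))).1 _ h1).2.2 u w huw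
      have h4 : ∀ w, bd (fun u v => g (y u v)) w = 0 := by
        intro w
        rw [h2, hyb]
        change X.d * R w - R w * M.d = 0
        rw [hRd, sub_self]
      simp only [h4, finsum_mem_zero] at h3
      exact sub_eq_zero.1 h3
    · rw [hy.adj u w huw, Matrix.mul_zero, Matrix.zero_mul]
  · obtain ⟨h1, h2⟩ := (stFlow2 (V j) (T j) (Matrix X.ι M.ι (ZM N))).2.2.1 _ (kRow N a) y hy
    refine (hMV Γ D V T h N π M.toOb j (X.deg a) (X.sz a)).2.2 _ h1 (fun w => ?_) u w huw
    rw [h2, hyb]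
    exact hRs w a

end

/-- Module KA1s. -/
theorem stKA1s : StKA1s := by
  intro Γ _ D _ _ V _ T h N _ π M hM n I j hI B hB ι _ _ p ν hF f hf
  let _ : ∀ i, DecidableEq (V i) := fun i => Classical.decEq _
  have hjI : j ∉ I := fun h1 => lt_irrefl j (hI j h1)
  have hT := (h j).tree
  have hszj : ∀ c, (Kp h N n I B p ν).sz c j = B j := fun c => if_neg hjI
  have hupd : ∀ c (A : Sub (h j)), A = B j →
      upd ((Kp h N n I B p ν).sz c) j A = (Kp h N n I B p ν).sz c := by
    intro c A hA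
    rw [hA, ← hszj c]
    exact Function.update_eq_self j _
  rcases hB with ⟨a, ha⟩ | ⟨a, b, hab, hb⟩
  · -- a vertex
    obtain ⟨S, R, y, hy, hS, hyb, hR, hR0, hyd, hys⟩ :=
      ka_flow h hM hjI hF f hf a (le_of_eq ha.symm)
    let O : Finset (V j × V j) :=
      hy.fin.toFinset.filter fun e => (T j).dist a e.2 = (T j).dist a e.1 + 1
    have hmem : ∀ e, e ∈ O ↔ y e.1 e.2 ≠ 0 ∧ (T j).dist a e.2 = (T j).dist a e.1 + 1 := by
      intro e
      rw [Finset.mem_filter, Set.Finite.mem_toFinset]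
      exact Iff.rfl
    have hyadj : ∀ u w, y u w ≠ 0 → (T j).Adj u w := by
      intro u w h1
      by_contra h2
      exact h1 (hy.adj u w h2)
    have hadj : ∀ o ∈ O, (T j).Adj o.1 o.2 := fun o ho => hyadj _ _ ((hmem o).1 ho).1
    have hOx : ∀ o ∈ O, ∀ x, x ≠ o.1 → y o.2 x ≠ 0 → (o.2, x) ∈ O := by
      intro o ho x hx hyx
      exact (hmem _).2 ⟨hyx, ka_away hT ((hmem o).1 ho).2 (hadj o ho) (hyadj _ _ hyx) hx⟩
    have ha0 : y a a = 0 := hy.adj a a ((T j).irrefl)
    have hsum : ∑ o ∈ (Finset.univ : Finset {o // o ∈ O}) with o.1.1 = a, y o.1.1 o.1.2 =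
        -bd y a := by
      have h1 := ka_bd hy O a a fun x hx hyx => by
        refine (hmem _).2 ⟨hyx, ?_⟩
        change (T j).dist a x = (T j).dist a a + 1
        rw [(T j).dist_self, (T j).dist_eq_one_iff_adj.2 (hyadj _ _ hyx)]
      rw [ha0, zero_sub] at h1
      rw [← h1, Finset.sum_filter, Finset.sum_filter]
      rw [Finset.sum_coe_sort O fun o : V j × V j => if o.1 = a then y o.1 o.2 else 0]
      refine Finset.sum_congr rfl fun o ho => ?_
      by_cases h2 : o.1 = a
      · have h3 : o.2 ≠ a := fun h4 => (hadj o ho).ne (h2.trans h4.symm)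
        rw [if_pos h2, if_pos ⟨h2, h3⟩]
      · rw [if_neg h2, if_neg fun h3 => h2 h3.1]
    refine ka_step h hI hF f hadj (fun e => (T j).dist a e.2) ?_ (fun o => y o.1 o.2)
      (fun o => S o.2) (fun o _ => hyd _ _) (fun o ho c => hys _ _ (hadj o ho) c)
      (fun o _ c => hS _ _) ?_ (Finset.univ.filter fun o => o.1.1 = a) ?_ ?_
    · intro o ho o' ho' h1 h2
      have h3 := hadj o' ho'
      rw [h1] at h3
      have h4 := ka_away hT ((hmem o).1 ho).2 (hadj o ho) h3 h2
      omega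
    · intro o ho
      rw [ka_bd hy O o.1 o.2 (hOx o ho), hyb]
      have h1 : o.2 ≠ a := by
        intro h2
        have h3 := ((hmem o).1 ho).2
        rw [h2, (T j).dist_self] at h3
        omega
      rw [hR _ h1]
      abel
    · intro o ho
      rw [ha, ← (Finset.mem_filter.1 ho).2]
      exact kta_vtx_le_left h (hadj o.1 o.2)
    · rw [hsum, hyb, hR0]
      refine ⟨-S a, Ct.neg ?_, ?_⟩
      · rw [ct_iff]
        intro c
        have h1 := hS a c
        rw [hupd c _ ha.symm] at h1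
        exact h1
      · rw [Matrix.mul_neg, Matrix.neg_mul]
        abel
  · -- an edge
    have hba := edg_comm (h j) hab
    obtain ⟨S, R, y, hy, hS, hyb, hR, hR0, hyd, hys⟩ :=
      ka_flow h hM hjI hF f hf a (by rw [hb]; exact kta_vtx_le_left h hab)
    let O : Finset (V j × V j) := insert (a, b) (insert (b, a)
      (hy.fin.toFinset.filter fun e => (T j).dist a e.2 = (T j).dist a e.1 + 1))
    have hyadj : ∀ u w, y u w ≠ 0 → (T j).Adj u w := by
      intro u w h1
      by_contra h2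
      exact h1 (hy.adj u w h2)
    have hd : (T j).dist a b = (T j).dist a a + 1 := by
      rw [(T j).dist_self, (T j).dist_eq_one_iff_adj.2 hab]
    have hmem : ∀ e, y e.1 e.2 ≠ 0 → (T j).dist a e.2 = (T j).dist a e.1 + 1 → e ∈ O := by
      intro e h1 h2
      refine Finset.mem_insert_of_mem (Finset.mem_insert_of_mem (Finset.mem_filter.2 ⟨?_, h2⟩))
      exact hy.fin.mem_toFinset.2 h1
    have hmem' : ∀ e ∈ O, (T j).Adj e.1 e.2 ∧
        (e = (b, a) ∨ (T j).dist a e.2 = (T j).dist a e.1 + 1) := by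
      intro e he
      rcases Finset.mem_insert.1 he with h1 | h1
      · rw [h1]
        exact ⟨hab, Or.inr hd⟩
      · rcases Finset.mem_insert.1 h1 with h2 | h2
        · rw [h2]
          exact ⟨hab.symm, Or.inl rfl⟩
        · rw [Finset.mem_filter, Set.Finite.mem_toFinset] at h2
          exact ⟨hyadj _ _ h2.1, Or.inr h2.2⟩
    have hnext : ∀ o ∈ O, ∀ x, x ≠ o.1 → (T j).Adj o.2 x →
        (T j).dist a x = (T j).dist a o.2 + 1 := by
      intro o ho x hx hadj
      obtain ⟨h1, h2 | h2⟩ := hmem' o ho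
      · rw [h2] at hadj ⊢
        change (T j).dist a x = (T j).dist a a + 1
        rw [(T j).dist_self, (T j).dist_eq_one_iff_adj.2 hadj]
      · exact ka_away hT h2 h1 hadj hx
    let Z : V j × V j → Matrix (Kp h N n I B p ν).ι M.ι (ZM N) := fun o =>
      if o = (b, a) then f - y a b else y o.1 o.2
    have hZ0 : Z (b, a) = f - y a b := if_pos rfl
    have hZ1 : ∀ o, o ≠ (b, a) → Z o = y o.1 o.2 := fun o ho => if_neg ho
    have hne : (a, b) ≠ (b, a) := fun h1 => hab.ne (congrArg Prod.fst h1)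
    have haO : (a, b) ∈ O := Finset.mem_insert_self _ _
    have hbO : (b, a) ∈ O := Finset.mem_insert_of_mem (Finset.mem_insert_self _ _)
    refine ka_step h hI hF f (fun o ho => (hmem' o ho).1) (fun e => (T j).dist a e.2) ?_ Z
      (fun o => S o.2) ?_ ?_ (fun o _ c => hS _ _) ?_ {⟨(a, b), haO⟩, ⟨(b, a), hbO⟩} ?_ ?_
    · intro o ho o' ho' h1 h2
      have h3 := (hmem' o' ho').1
      rw [h1] at h3
      have h4 := hnext o ho o'.2 h2 h3
      omega
    · intro o _
      by_cases h1 : o = (b, a)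
      · rw [h1, hZ0, Matrix.mul_sub, Matrix.sub_mul, hyd, hf.2]
      · rw [hZ1 o h1]
        exact hyd _ _
    · intro o ho c
      by_cases h1 : o = (b, a)
      · rw [h1, hZ0]
        change f c - y a b c ∈ _
        have h2 : upd ((Kp h N n I B p ν).sz c) j (edg (h j) b a) = (Kp h N n I B p ν).sz c :=
          hupd c _ (hba.symm.trans hb.symm)
        refine AddSubgroup.sub_mem _ ?_ ?_
        · rw [h2]
          have h3 := ct_iff.1 hf.1 c
          rw [add_zero] at h3
          exact h3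
        · have h3 := hys a b hab c
          rw [hba] at h3
          exact h3
      · rw [hZ1 o h1]
        exact hys _ _ (hmem' o ho).1 c
    · intro o ho
      have h1 : ∑ o' ∈ O with o'.1 = o.2 ∧ o'.2 ≠ o.1, Z o' =
          ∑ o' ∈ O with o'.1 = o.2 ∧ o'.2 ≠ o.1, y o'.1 o'.2 := by
        refine Finset.sum_congr rfl fun o' ho' => ?_
        obtain ⟨h2, h3, h4⟩ := Finset.mem_filter.1 ho'
        refine hZ1 o' fun h5 => ?_
        rw [h5] at h3 h4
        change b = o.2 at h3
        change a ≠ o.1 at h4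
        obtain ⟨-, h6 | h6⟩ := hmem' o ho
        · rw [h6] at h3
          exact hab.ne h3.symm
        · rw [← h3, hd, (T j).dist_self] at h6
          have h7 : (T j).dist a o.1 = 0 := by omega
          exact h4 (hT.connected.dist_eq_zero_iff.1 h7)
      rw [h1, ka_bd hy O o.1 o.2 fun x hx hyx =>
        hmem (o.2, x) hyx (hnext o ho x hx (hyadj _ _ hyx)), hyb]
      by_cases h2 : o = (b, a)
      · rw [h2, hZ0]
        change _ = f - y a b - (y b a - R a)
        rw [hR0, hy.anti a b]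
        change (Kp h N n I B p ν).d * S a + S a * M.d = _
        abel
      · rw [hZ1 o h2]
        have h3 : o.2 ≠ a := by
          intro h3
          obtain ⟨-, h4 | h4⟩ := hmem' o ho
          · exact h2 h4
          · rw [h3, (T j).dist_self] at h4
            omega
        rw [hR _ h3]
        abel
    · intro o ho
      rw [hb]
      rcases Finset.mem_insert.1 ho with h1 | h1
      · rw [h1]
      · rw [Finset.mem_singleton.1 h1]
        exact le_of_eq hba
    · rw [Finset.sum_pair fun h1 => hne (congrArg Subtype.val h1)]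
      change Nul π Finset.univ _ M (Z (a, b) + Z (b, a) - f)
      rw [hZ0, hZ1 _ hne]
      change Nul π Finset.univ _ M (y a b + (f - y a b) - f)
      rw [add_sub_cancel, sub_self]
      exact Nul.zero

end Pool.Agent.Lib.MP_551055_al.W17
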