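import Mathlib
import Pool.Agent.Lib.MP_551055_al.Trim.LS.PStmts
import Pool.Agent.Lib.MP_551055_al.Trim.LS.Stmts
import Pool.Agent.Lib.MP_551055_al.Trim.MT.Defs
import Pool.Agent.Lib.MP_551055_al.Trim.MT.Map
import Pool.Agent.Lib.MP_551055_al.Trim.T4.Perf
import Pool.Agent.Lib.MP_551055_al.Trim.W17.DefK
import Pool.Agent.Lib.MP_551055_al.Trim.W17.Defs
import Pool.Agent.Lib.MP_551055_al.Trim.W17.Filt
import Pool.Agent.Lib.MP_551055_al.Trim.W17.FrA
import Pool.Agent.Lib.MP_551055_al.Trim.W17.KT

/-!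
# Trees and products: the parts of free nil modules are free of finite rank
-/

set_option autoImplicit false

namespace Pool.Agent.Lib.MP_551055_al
end Pool.Agent.Lib.MP_551055_al

namespace Pool.Agent.Lib.MP_551055_al.LS
end Pool.Agent.Lib.MP_551055_al.LS

namespace Pool.Agent.Lib.MP_551055_al.MT
end Pool.Agent.Lib.MP_551055_al.MT

namespace Pool.Agent.Lib.MP_551055_al.T4
end Pool.Agent.Lib.MP_551055_al.T4

namespace Pool.Agent.Lib.MP_551055_al.W17

open Pool.Agent.Lib.MP_551055_al

open Pool.Agent.Lib.MP_551055_al.LS (TreeAct ZN)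

open Pool.Agent.Lib.MP_551055_al.MT

open Pool.Agent.Lib.MP_551055_al.T4 (Perf)

open Matrix

namespace FrPart

section

variable {Γ : Type} [Group Γ] {D : Type} {V : D → Type} [∀ i, MulAction Γ (V i)]
  {T : ∀ i, SimpleGraph (V i)} {N : Type} [Group N] {π : N →* Γ}
  {ι : Type} {p : ι → Pos V}

/-- The basis elements with a translate at `x`. -/
abbrev Ix (π : N →* Γ) (p : ι → Pos V) (x : Pos V) : Type := {l : ι // ∃ m : N, π m • p l = x}

open Classical in
/-- The vector with the coordinates `c`. -/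
noncomputable def val (π : N →* Γ) (p : ι → Pos V) (x : Pos V) (a : Ix π p x → N)
    (c : Ix π p x → ZM (St π x)) : ι → ZM N := fun l =>
  if hl : ∃ m : N, π m • p l = x then
    mdh (St π x).subtype (c ⟨l, hl⟩) * MonoidAlgebra.single (a ⟨l, hl⟩) 1 else 0

theorem val_pos (x : Pos V) (a : Ix π p x → N) (c : Ix π p x → ZM (St π x)) (l : Ix π p x) :
    val π p x a c l.1 = mdh (St π x).subtype (c l) * MonoidAlgebra.single (a l) 1 :=
  dif_pos l.2

theorem val_neg (x : Pos V) (a : Ix π p x → N) (c : Ix π p x → ZM (St π x)) {l : ι}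
    (hl : ¬ ∃ m : N, π m • p l = x) : val π p x a c l = 0 := dif_neg hl

theorem val_coeff (x : Pos V) (a : Ix π p x → N) (c : Ix π p x → ZM (St π x)) (l : Ix π p x)
    (m : N) : (val π p x a c l.1).coeff m =
      (mdh (St π x).subtype (c l)).coeff (m * (a l)⁻¹) := by
  rw [val_pos, MonoidAlgebra.coeff_mul_single_apply, mul_one]

theorem val_term {x : Pos V} {a : Ix π p x → N} (ha : ∀ l : Ix π p x, π (a l) • p l.1 = x)
    (c : Ix π p x → ZM (St π x)) {l : ι} {m : N} (hm : (val π p x a c l).coeff m ≠ 0) :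
    π m • p l = x := by
  by_cases hl : ∃ m : N, π m • p l = x
  · rw [show l = (⟨l, hl⟩ : Ix π p x).1 from rfl, val_coeff] at hm
    obtain ⟨s, hs, -⟩ := coeff_mdh_ne hm
    have h1 : m = s.1 * a ⟨l, hl⟩ := by
      rw [show s.1 = m * (a ⟨l, hl⟩)⁻¹ from hs, inv_mul_cancel_right]
    have h2 : π s.1 • x = x := s.2
    rw [h1, map_mul, mul_smul, ha ⟨l, hl⟩, h2]
  · rw [val_neg x a c hl] at hm
    exact absurd rfl hm

/-- The coordinates. -/
noncomputable def crd (x : Pos V) (b : N) (z : ZM N) : ZM (St π x) :=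
  MonoidAlgebra.ofCoeff (z.coeff.comapDomain (fun s : St π x => (s : N) * b)
    fun _ _ _ _ h => Subtype.ext (mul_right_cancel h))

theorem crd_coeff (x : Pos V) (b : N) (z : ZM N) (s : St π x) :
    (crd (π := π) x b z).coeff s = z.coeff ((s : N) * b) := by
  rw [crd, MonoidAlgebra.coeff_ofCoeff, Finsupp.comapDomain_apply]

theorem val_crd (x : Pos V) (a : Ix π p x → N) (ha : ∀ l : Ix π p x, π (a l) • p l.1 = x)
    (v : ι → ZM N) (hv : ∀ l m, (v l).coeff m ≠ 0 → π m • p l = x) :
    val π p x a (fun l => crd x (a l) (v l.1)) = v := by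
  have hS : Function.Injective (St π x).subtype := Subtype.val_injective
  funext l
  refine zm_ext fun m => ?_
  by_cases hl : ∃ m : N, π m • p l = x
  · obtain ⟨l', rfl⟩ : ∃ l' : Ix π p x, l = l'.1 := ⟨⟨l, hl⟩, rfl⟩
    rw [val_coeff]
    by_cases hm : m * (a l')⁻¹ ∈ St π x
    · have h3 := coeff_mdh_apply hS (crd (π := π) x (a l') (v l'.1)) ⟨m * (a l')⁻¹, hm⟩
      refine h3.trans ?_
      rw [crd_coeff]
      change (v l'.1).coeff (m * (a l')⁻¹ * a l') = _
      rw [inv_mul_cancel_right]
    · have h3 : (mdh (St π x).subtype (crd (π := π) x (a l') (v l'.1))).coeff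
          (m * (a l')⁻¹) = 0 := by
        by_contra hn
        obtain ⟨s, hs, -⟩ := coeff_mdh_ne hn
        exact hm (hs ▸ s.2)
      rw [h3]
      by_contra hn
      have h4 := hv l'.1 m (Ne.symm hn)
      apply hm
      change π (m * (a l')⁻¹) • x = x
      have h5 : π (a l')⁻¹ • x = p l'.1 := by
        rw [map_inv, inv_smul_eq_iff]
        exact (ha l').symm
      rw [map_mul, mul_smul, h5, h4]
  · rw [val_neg x a _ hl]
    by_contra hn
    exact hl ⟨m, hv l m (Ne.symm hn)⟩

variable [Fintype ι] [DecidableEq ι] {ν : D → Matrix ι ι (ZM N)}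

theorem mem_part_iff (h : ∀ i, TreeAct Γ (V i) (T i)) (hp : FrOk T π p ν) (x : Pos V)
    (v : ι → ZM N) : frPr π p x v = v ↔ ∀ l m, (v l).coeff m ≠ 0 → π m • p l = x := by
  constructor
  · intro h1 l m hm
    rw [← h1] at hm
    exact (frPr_coeff_ne hm).1
  · intro h1
    funext l
    refine zm_ext fun m => ?_
    classical
    rw [frPr_coeff]
    split_ifs with h2
    · rfl
    · by_contra hn
      exact h2 (h1 l m (Ne.symm hn))

/-- The parts of a free nil module. -/
noncomputable def lin0 (h : ∀ i, TreeAct Γ (V i) (T i)) (hp : FrOk T π p ν) (x : Pos V)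
    (a : Ix π p x → N) (ha : ∀ l : Ix π p x, π (a l) • p l.1 = x) :
    (Ix π p x → ZM (St π x)) →ₗ[ZM (St π x)] (Fr h hp).part x where
  toFun c := ⟨val π p x a c, (mem_part_iff h hp x _).2 fun _ _ hm => val_term ha c hm⟩
  map_add' c d := by
    apply Subtype.ext
    change val π p x a (c + d) = val π p x a c + val π p x a d
    funext l
    rw [Pi.add_apply]
    by_cases hl : ∃ m : N, π m • p l = x
    · have h1 := val_pos x a c ⟨l, hl⟩
      have h2 := val_pos x a d ⟨l, hl⟩
      have h3 := val_pos x a (c + d) ⟨l, hl⟩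
      change val π p x a c l = _ at h1
      change val π p x a d l = _ at h2
      change val π p x a (c + d) l = _ at h3
      rw [h1, h2, h3, Pi.add_apply, map_add, add_mul]
    · rw [val_neg x a _ hl, val_neg x a _ hl, val_neg x a _ hl, add_zero]
  map_smul' r c := by
    apply Subtype.ext
    change val π p x a (r • c) = mdh (St π x).subtype r • val π p x a c
    funext l
    rw [Pi.smul_apply, smul_eq_mul]
    by_cases hl : ∃ m : N, π m • p l = x
    · have h1 := val_pos x a c ⟨l, hl⟩
      have h3 := val_pos x a (r • c) ⟨l, hl⟩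
      change val π p x a c l = _ at h1
      change val π p x a (r • c) l = _ at h3
      rw [h1, h3, Pi.smul_apply, smul_eq_mul, map_mul, mul_assoc]
    · rw [val_neg x a _ hl, val_neg x a _ hl, mul_zero]

theorem lin0_bij (h : ∀ i, TreeAct Γ (V i) (T i)) (hp : FrOk T π p ν) (x : Pos V)
    (a : Ix π p x → N) (ha : ∀ l : Ix π p x, π (a l) • p l.1 = x) :
    Function.Bijective (lin0 h hp x a ha) := by
  have hS : Function.Injective (St π x).subtype := Subtype.val_injective
  constructor
  · rw [injective_iff_map_eq_zero]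
    intro c hc
    have h1 : val π p x a c = 0 := congrArg Subtype.val hc
    funext l
    refine zm_ext fun s => ?_
    have h2 := val_coeff x a c l ((s : N) * a l)
    rw [h1, mul_inv_cancel_right] at h2
    have h3 := coeff_mdh_apply hS (c l) s
    change (mdh (St π x).subtype (c l)).coeff (s : N) = (c l).coeff s at h3
    rw [← h3, ← h2]
    rfl
  · intro w
    have hv : frPr π p x (show ι → ZM N from w.1) = (show ι → ZM N from w.1) := w.2
    generalize hw : (show ι → ZM N from w.1) = v at hv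
    have h0 := val_crd x a ha v ((mem_part_iff h hp x v).1 hv)
    refine ⟨fun l => crd x (a l) (v l.1), Subtype.ext ?_⟩
    exact h0.trans hw.symm

end

end FrPart

section

variable {Γ : Type} [Group Γ] {D : Type} {V : D → Type} [∀ i, MulAction Γ (V i)]
  {T : ∀ i, SimpleGraph (V i)} {N : Type} [Group N] {π : N →* Γ}
  {ι : Type} [Fintype ι] [DecidableEq ι] {p : ι → Pos V} {ν : D → Matrix ι ι (ZM N)}

/-- The parts of a free nil module are free of finite rank. -/
theorem frPart_free (h : ∀ i, TreeAct Γ (V i) (T i)) (hp : FrOk T π p ν) (x : Pos V) :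
    Nonempty (({l : ι // ∃ m : N, π m • p l = x} → ZM (St π x)) ≃ₗ[ZM (St π x)]
      (Fr h hp).part x) := by
  choose a ha using fun l : {l : ι // ∃ m : N, π m • p l = x} => l.2
  exact ⟨LinearEquiv.ofBijective _ (FrPart.lin0_bij h hp x a ha)⟩

/-- The parts of a free nil module are perfect. -/
theorem frPart_perf (h : ∀ i, TreeAct Γ (V i) (T i)) (hp : FrOk T π p ν) (x : Pos V) :
    Perf (ZM (St π x)) ((Fr h hp).part x) := by
  obtain ⟨e⟩ := frPart_free h hp x
  have : Finite {l : ι // ∃ m : N, π m • p l = x} := inferInstance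
  exact (Perf.free {l : ι // ∃ m : N, π m • p l = x}).congr e

omit [DecidableEq ι] in
/-- Representatives of the orbits of finitely many positions. -/
theorem exists_reps (π : N →* Γ) (p : ι → Pos V) : ∃ (r : ℕ) (x : Fin r → Pos V),
    (∀ i j (g : N), π g • x i = x j → i = j) ∧ (∀ i, ∃ l, x i = p l) ∧
      ∀ l, ∃ i, ∃ g : N, p l = π g • x i := by
  classical
  let s : Setoid ι :=
    { r := fun l k => ∃ g : N, p l = π g • p k
      iseqv := {
        refl := fun l => ⟨1, by rw [map_one, one_smul]⟩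
        symm := by
          rintro l k ⟨g, hg⟩
          exact ⟨g⁻¹, by rw [hg, smul_smul, ← map_mul, inv_mul_cancel, map_one, one_smul]⟩
        trans := by
          rintro l k m ⟨g, hg⟩ ⟨g', hg'⟩
          exact ⟨g * g', by rw [hg, hg', map_mul, mul_smul]⟩ } }
  have hfin : Finite (Quotient s) := inferInstance
  have : Fintype (Quotient s) := Fintype.ofFinite _
  let e := Fintype.equivFin (Quotient s)
  refine ⟨Fintype.card (Quotient s), fun i => p (e.symm i).out, ?_, fun i => ⟨_, rfl⟩, ?_⟩
  · intro i j g hg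
    change π g • p (e.symm i).out = p (e.symm j).out at hg
    have h1 : (e.symm i) = (e.symm j) := by
      rw [← Quotient.out_eq (e.symm i), ← Quotient.out_eq (e.symm j)]
      apply Quotient.sound
      refine ⟨g⁻¹, ?_⟩
      rw [← hg, smul_smul, ← map_mul, inv_mul_cancel, map_one, one_smul]
    exact e.symm.injective h1
  · intro l
    refine ⟨e ⟦l⟧, ?_⟩
    have h1 : s (⟦l⟧ : Quotient s).out l := Quotient.exact (Quotient.out_eq _)
    obtain ⟨g, hg⟩ := s.symm h1
    refine ⟨g, ?_⟩
    change p l = π g • p (e.symm (e ⟦l⟧)).out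
    rw [Equiv.symm_apply_apply]
    exact hg

/-- Representatives of the orbits of the positions of a free nil module. -/
theorem exists_orb (h : ∀ i, TreeAct Γ (V i) (T i)) (hp : FrOk T π p ν) :
    ∃ (r : ℕ) (x : Fin r → Pos V), Orb (Fr h hp) x := by
  obtain ⟨r, x, h1, h2, h3⟩ := exists_reps π p
  refine ⟨r, x, h1, fun i => ?_, fun y m hm => ?_⟩
  · obtain ⟨l, hl⟩ := h2 i
    rw [hl]
    exact hp.oe l
  · obtain ⟨l, n, hn⟩ := exists_coeff_ne (v := frPr π p y (show ι → ZM N from m)) hm
    obtain ⟨h4, -⟩ := frPr_coeff_ne hn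
    obtain ⟨i, g, hg⟩ := h3 l
    exact ⟨i, n * g, by rw [← h4, hg, smul_smul, ← map_mul]⟩

/-- Nil submodules. -/
theorem Orb.of_injective {A B : Nm T π} (j : NmHom A B) (hj : Function.Injective j.f) {r : ℕ}
    {x : Fin r → Pos V} (hx : Orb B x) : Orb A x := by
  refine ⟨hx.1, hx.2.1, fun y m hm => hx.2.2 y (j.f m) fun h1 => hm ?_⟩
  apply hj
  rw [j.pr, h1, map_zero]

end

end Pool.Agent.Lib.MP_551055_al.W17
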