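import Mathlib
import Pool.Agent.Lib.MP_551055_al.Trim.LS.BassProj
import Pool.Agent.Lib.MP_551055_al.Trim.LS.PStmts
import Pool.Agent.Lib.MP_551055_al.Trim.LS.Stmts
import Pool.Agent.Lib.MP_551055_al.Trim.MT.Defs
import Pool.Agent.Lib.MP_551055_al.Trim.MT.Gen
import Pool.Agent.Lib.MP_551055_al.Trim.MT.Trees
import Pool.Agent.Lib.MP_551055_al.Trim.PT.Stmts
import Pool.Agent.Lib.MP_551055_al.Trim.T4.Ind0
import Pool.Agent.Lib.MP_551055_al.Trim.W17.DefK
import Pool.Agent.Lib.MP_551055_al.Trim.W17.Defs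
import Pool.Agent.Lib.MP_551055_al.Trim.W17.KT
import Pool.Agent.Lib.MP_551055_al.Trim.W17.KTa
import Pool.Agent.Lib.MP_551055_al.Trim.W17.StK

/-!
# Trees and products: the complex of a nil module has homology only in degree `n`
-/

set_option autoImplicit false

namespace Pool.Agent.Lib.MP_551055_al
end Pool.Agent.Lib.MP_551055_al

namespace Pool.Agent.Lib.MP_551055_al.LS
end Pool.Agent.Lib.MP_551055_al.LS

namespace Pool.Agent.Lib.MP_551055_al.MT
end Pool.Agent.Lib.MP_551055_al.MT

namespace Pool.Agent.Lib.MP_551055_al.W17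

open Pool.Agent.Lib.MP_551055_al

open Pool.Agent.Lib.MP_551055_al.LS (TreeAct ZN)

open Pool.Agent.Lib.MP_551055_al.MT

open Matrix

/-! ## Parts of a vector -/

section

variable {Γ : Type} [Group Γ] {D : Type} {V : D → Type} [∀ i, MulAction Γ (V i)]
  {T : ∀ i, SimpleGraph (V i)} {N : Type} [Group N] {π : N →* Γ}

theorem Nm.ext_pr (A : Nm T π) {m m' : A.M} (h : ∀ x, A.pr x m = A.pr x m') : m = m' := by
  rw [← A.sum m, ← A.sum m']
  exact finsum_congr h

open Classical in
/-- The part of `m` at the positions with the property `p`. -/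
noncomputable def Nm.prP (A : Nm T π) (p : Pos V → Prop) : A.M →+ A.M where
  toFun m := ∑ᶠ x, if p x then A.pr x m else 0
  map_zero' := by
    have h1 : ∀ x, (if p x then A.pr x (0 : A.M) else 0) = 0 := fun x => by
      split_ifs
      · exact map_zero _
      · rfl
    simp only [h1, finsum_zero]
  map_add' m m' := by
    have hf : ∀ m : A.M, (Function.support fun x => if p x then A.pr x m else 0).Finite := by
      intro m
      refine (A.fin m).subset fun x hx => ?_
      intro h1
      refine hx ?_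
      change (if p x then A.pr x m else 0) = 0
      rw [h1, ite_self]
    rw [← finsum_add_distrib (hf m) (hf m')]
    refine finsum_congr fun x => ?_
    split_ifs
    · exact map_add _ _ _
    · exact (add_zero 0).symm

open Classical in
theorem Nm.pr_prP (A : Nm T π) (p : Pos V → Prop) (y : Pos V) (m : A.M) :
    A.pr y (A.prP p m) = if p y then A.pr y m else 0 := by
  have hf : (Function.support fun x => if p x then A.pr x m else 0).Finite := by
    refine (A.fin m).subset fun x hx => ?_
    intro h1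
    refine hx ?_
    change (if p x then A.pr x m else 0) = 0
    rw [h1, ite_self]
  change A.pr y (∑ᶠ x, if p x then A.pr x m else 0) = _
  rw [(A.pr y).map_finsum hf, finsum_eq_single _ y]
  · split_ifs
    · exact A.pr_self y m
    · exact map_zero _
  · intro x hx
    split_ifs
    · exact A.pr_ne y x m (Ne.symm hx)
    · exact map_zero _

theorem Nm.pr_prP_pos (A : Nm T π) {p : Pos V → Prop} {y : Pos V} (hy : p y) (m : A.M) :
    A.pr y (A.prP p m) = A.pr y m := by
  rw [A.pr_prP, if_pos hy]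

theorem Nm.pr_prP_neg (A : Nm T π) {p : Pos V → Prop} {y : Pos V} (hy : ¬p y) (m : A.M) :
    A.pr y (A.prP p m) = 0 := by
  rw [A.pr_prP, if_neg hy]

theorem Nm.pr_prP_ne (A : Nm T π) {p : Pos V → Prop} {y : Pos V} {m : A.M}
    (h : A.pr y (A.prP p m) ≠ 0) : p y ∧ A.pr y m ≠ 0 := by
  by_cases hy : p y
  · rw [A.pr_prP_pos hy] at h
    exact ⟨hy, h⟩
  · exact absurd (A.pr_prP_neg hy m) h

theorem Nm.prP_eq_self (A : Nm T π) {p : Pos V → Prop} {m : A.M}
    (h : ∀ y, A.pr y m ≠ 0 → p y) : A.prP p m = m := by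
  refine A.ext_pr fun y => ?_
  by_cases hy : A.pr y m = 0
  · by_cases hp : p y
    · rw [A.pr_prP_pos hp]
    · rw [A.pr_prP_neg hp, hy]
  · exact A.pr_prP_pos (h y hy) m

theorem Nm.prP_eq_zero (A : Nm T π) {p : Pos V → Prop} {m : A.M}
    (h : ∀ y, A.pr y m ≠ 0 → ¬p y) : A.prP p m = 0 := by
  refine A.ext_pr fun y => ?_
  rw [map_zero]
  by_contra hne
  obtain ⟨h1, h2⟩ := A.pr_prP_ne hne
  exact h y h2 h1

theorem Nm.pr_nu (A : Nm T π) (i : D) (y : Pos V) (m : A.M) :
    A.pr y (A.nu i m) = ∑ᶠ x, A.pr y (A.nu i (A.pr x m)) := by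
  have h1 : (Function.support fun x => A.pr x m).Finite := A.fin m
  have h2 : A.pr y (A.nu i (∑ᶠ x, A.pr x m)) = ∑ᶠ x, A.pr y (A.nu i (A.pr x m)) :=
    ((A.pr y).comp (A.nu i).toAddMonoidHom).map_finsum h1
  rwa [A.sum] at h2

/-- Parts commute with an operator which does not change the property. -/
theorem Nm.prP_nu (A : Nm T π) (p : Pos V → Prop) (j : D)
    (hp : ∀ x y, Nx T j x y → (p x ↔ p y)) (m : A.M) :
    A.prP p (A.nu j m) = A.nu j (A.prP p m) := by
  refine A.ext_pr fun y => ?_
  rw [A.pr_nu j y (A.prP p m)]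
  by_cases hy : p y
  · rw [A.pr_prP_pos hy, A.pr_nu]
    refine finsum_congr fun x => ?_
    by_cases hx : p x
    · rw [A.pr_prP_pos hx]
    · rw [A.pr_prP_neg hx, map_zero, map_zero]
      by_contra h1
      exact hx ((hp x y (A.loc j x y m h1)).2 hy)
  · rw [A.pr_prP_neg hy]
    symm
    have h1 : ∀ x, A.pr y (A.nu j (A.pr x (A.prP p m))) = 0 := by
      intro x
      by_cases hx : p x
      · rw [A.pr_prP_pos hx]
        by_contra h1
        exact hy ((hp x y (A.loc j x y m h1)).1 hx)
      · rw [A.pr_prP_neg hx, map_zero, map_zero]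
    simp only [h1, finsum_zero]

end

/-! ## The homotopies -/

section

variable {Γ : Type} [Group Γ] {D : Type} [Fintype D] [LinearOrder D] {V : D → Type}
  [∀ i, MulAction Γ (V i)] {T : ∀ i, SimpleGraph (V i)} (h : ∀ i, TreeAct Γ (V i) (T i))
  {N : Type} [Group N] {π : N →* Γ} (A : Nm T π) (n : ℤ)

/-- The part with far end `b` in the direction `i`. -/
noncomputable def kxIn (i : D) (b : V i) : A.M →+ A.M := A.prP fun x => (x i).2 = b

/-- The homotopy. -/
noncomputable def kxS (i : D) (b : V i) (v : Finset D → A.M) : Finset D → A.M := fun φ =>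
  if i ∈ φ then eps n i (φ.erase i) • kxIn A i b (v (φ.erase i)) else 0

/-- The projection. -/
noncomputable def kxE (i : D) (b : V i) (v : Finset D → A.M) : Finset D → A.M := fun φ =>
  if i ∈ φ then 0 else v φ - kxIn A i b (v φ) + A.nu i (kxIn A i b (v φ))

theorem kx_sgn_sq (k : ℤ) : sgn k * sgn k = 1 := by
  unfold sgn
  rcases Int.even_or_odd k with hk | hk
  · rw [Int.negOnePow_even k hk]
    rfl
  · rw [Int.negOnePow_odd k hk]
    rfl

theorem kx_eps_sq (i : D) (φ : Finset D) : eps n i φ * eps n i φ = 1 := kx_sgn_sq _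

theorem kx_eps_cross {i j : D} {ψ : Finset D} (hi : i ∉ ψ) (hj : j ∉ ψ) (hij : i ≠ j) :
    eps n j (insert i ψ) * eps n i (insert j ψ) + eps n i ψ * eps n j ψ = 0 := by
  rcases lt_or_gt_of_ne hij with h1 | h1
  · rw [kta_eps_insert_lt n hi h1, kta_eps_insert_gt n h1]
    ring
  · rw [kta_eps_insert_lt n hj h1, kta_eps_insert_gt n h1]
    ring

theorem kxIn_nu {i j : D} (hij : j ≠ i) (b : V i) (m : A.M) :
    kxIn A i b (A.nu j m) = A.nu j (kxIn A i b m) := by
  refine A.prP_nu _ j (fun x y hxy => ?_) m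
  rw [hxy.1 i (Ne.symm hij)]

variable {A n} {h}

theorem kx_fam_in {B : Sz (SP h)} {q : ℤ} {v : Finset D → A.M} (hv : v ∈ ktFam h A n B q)
    {i : D} {b : V i} (hB : B i = vtx (h i) b) {φ : Finset D} (hi : i ∈ φ) {x : Pos V}
    (hx : A.pr x (v φ) ≠ 0) : (x i).2 = b := by
  have h1 := (hv φ x hx).2 i
  rw [hB, kta_sx_mem h hi, vtx_le, vtx_set] at h1
  exact (Set.mem_singleton_iff.1 h1).symm

theorem kx_fam_out {B : Sz (SP h)} {q : ℤ} {v : Finset D → A.M} (hv : v ∈ ktFam h A n B q)
    {i : D} {b : V i} (hB : B i = vtx (h i) b) {φ : Finset D} (hi : i ∉ φ) {x : Pos V}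
    (hx : A.pr x (v φ) ≠ 0) : (x i).1 = b ∨ (x i).2 = b := by
  have h1 := (hv φ x hx).2 i
  rw [hB, kta_sx_notMem h hi, vtx_le, edg_set (h i) (A.oe x _ hx i)] at h1
  rcases h1 with h2 | h2
  · exact Or.inl h2.symm
  · exact Or.inr (Set.mem_singleton_iff.1 h2).symm

/-- The homotopy formula. -/
theorem kx_formula {B : Sz (SP h)} {q : ℤ} {v : Finset D → A.M} (hv : v ∈ ktFam h A n B q)
    {i : D} {b : V i} (hB : B i = vtx (h i) b) :
    ktD A n (kxS A n i b v) + kxS A n i b (ktD A n v) = v - kxE A i b v := by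
  funext φ
  rw [Pi.add_apply, Pi.sub_apply]
  by_cases hi : i ∈ φ
  · set ψ := φ.erase i with hψ
    have hφ : φ = insert i ψ := (Finset.insert_erase hi).symm
    have hiψ : i ∉ ψ := Finset.notMem_erase i φ
    have h1 : kxE A i b v φ = 0 := if_pos hi
    have h2 : kxS A n i b (ktD A n v) φ = eps n i ψ • kxIn A i b (ktD A n v ψ) := if_pos hi
    have h3 : ktD A n (kxS A n i b v) φ = ∑ j ∈ Finset.univ \ φ,
        (eps n j φ * eps n i (insert j ψ)) •
          (kxIn A i b (v (insert j ψ)) - A.nu j (kxIn A i b (v (insert j ψ)))) := by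
      change ∑ j ∈ Finset.univ \ φ, eps n j φ • (kxS A n i b v (insert j φ) -
        A.nu j (kxS A n i b v (insert j φ))) = _
      refine Finset.sum_congr rfl fun j hj => ?_
      rw [Finset.mem_sdiff] at hj
      have hji : j ≠ i := fun h4 => hj.2 (h4 ▸ hi)
      have h5 : (insert j φ).erase i = insert j ψ := Finset.erase_insert_of_ne hji
      have h6 : kxS A n i b v (insert j φ) =
          eps n i (insert j ψ) • kxIn A i b (v (insert j ψ)) := by
        change (if i ∈ insert j φ then eps n i ((insert j φ).erase i) •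
          kxIn A i b (v ((insert j φ).erase i)) else 0) = _
        rw [if_pos (Finset.mem_insert_of_mem hi), h5]
      rw [h6, map_zsmul, ← smul_sub, smul_smul]
    have h4 : eps n i ψ • kxIn A i b (ktD A n v ψ) = v φ + ∑ j ∈ Finset.univ \ φ,
        (eps n i ψ * eps n j ψ) •
          (kxIn A i b (v (insert j ψ)) - A.nu j (kxIn A i b (v (insert j ψ)))) := by
      have h5 : Finset.univ \ ψ = insert i (Finset.univ \ φ) := by
        ext j
        simp only [Finset.mem_sdiff, Finset.mem_univ, true_and, Finset.mem_insert, hψ,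
          Finset.mem_erase, not_and, not_not]
        by_cases hj : j = i
        · simp [hj]
        · simp [hj]
      have h6 : i ∉ Finset.univ \ φ := fun h7 => (Finset.mem_sdiff.1 h7).2 hi
      change eps n i ψ • kxIn A i b (∑ j ∈ Finset.univ \ ψ,
        eps n j ψ • (v (insert j ψ) - A.nu j (v (insert j ψ)))) = _
      rw [h5, Finset.sum_insert h6, map_add, smul_add, map_sum, Finset.smul_sum]
      congr 1
      · rw [map_zsmul, smul_smul, kx_eps_sq, one_smul, ← hφ, map_sub]
        have h7 : kxIn A i b (v φ) = v φ :=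
          A.prP_eq_self fun x hx => kx_fam_in hv hB hi hx
        have h8 : kxIn A i b (A.nu i (v φ)) = 0 := by
          refine A.prP_eq_zero fun y hy => ?_
          obtain ⟨x, hx, hxy⟩ := kta_nu_comp A i y _ hy
          have h9 := kx_fam_in hv hB hi hx
          intro h10
          refine (hxy.2.2.1).ne ?_
          rw [hxy.2.1, h9, h10]
        rw [h7, h8, sub_zero]
      · refine Finset.sum_congr rfl fun j hj => ?_
        rw [Finset.mem_sdiff] at hj
        have hji : j ≠ i := fun h4 => hj.2 (h4 ▸ hi)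
        rw [map_zsmul, smul_smul, map_sub, kxIn_nu A hji]
    rw [h1, h2, h3, h4, sub_zero, add_comm, add_assoc, ← Finset.sum_add_distrib]
    have h9 : ∀ j ∈ Finset.univ \ φ, (eps n i ψ * eps n j ψ) •
          (kxIn A i b (v (insert j ψ)) - A.nu j (kxIn A i b (v (insert j ψ)))) +
        (eps n j φ * eps n i (insert j ψ)) •
          (kxIn A i b (v (insert j ψ)) - A.nu j (kxIn A i b (v (insert j ψ)))) = 0 := by
      intro j hj
      rw [Finset.mem_sdiff] at hj
      have hji : j ≠ i := fun h4 => hj.2 (h4 ▸ hi)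
      have hjψ : j ∉ ψ := fun h4 => hj.2 (Finset.mem_of_mem_erase h4)
      rw [← add_smul, hφ, add_comm (eps n i ψ * eps n j ψ), kx_eps_cross n hiψ hjψ (Ne.symm hji),
        zero_smul]
    rw [Finset.sum_eq_zero h9, add_zero]
  · have h1 : kxE A i b v φ = v φ - kxIn A i b (v φ) + A.nu i (kxIn A i b (v φ)) := if_neg hi
    have h2 : kxS A n i b (ktD A n v) φ = 0 := if_neg hi
    have h3 : ktD A n (kxS A n i b v) φ = kxIn A i b (v φ) - A.nu i (kxIn A i b (v φ)) := by
      change ∑ j ∈ Finset.univ \ φ, eps n j φ • (kxS A n i b v (insert j φ) -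
        A.nu j (kxS A n i b v (insert j φ))) = _
      rw [Finset.sum_eq_single i]
      · have h6 : kxS A n i b v (insert i φ) = eps n i φ • kxIn A i b (v φ) := by
          change (if i ∈ insert i φ then eps n i ((insert i φ).erase i) •
            kxIn A i b (v ((insert i φ).erase i)) else 0) = _
          rw [if_pos (Finset.mem_insert_self i φ), Finset.erase_insert hi]
        rw [h6, map_zsmul, ← smul_sub, smul_smul, kx_eps_sq, one_smul]
      · intro j hj hji
        have h6 : kxS A n i b v (insert j φ) = 0 :=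
          if_neg fun h7 => (Finset.mem_insert.1 h7).elim (fun h8 => hji h8.symm) hi
        rw [h6, map_zero, sub_zero, smul_zero]
      · intro h7
        exact absurd (Finset.mem_sdiff.2 ⟨Finset.mem_univ i, hi⟩) h7
    rw [h1, h2, h3]
    abel

theorem kxS_mem {B : Sz (SP h)} {q : ℤ} {v : Finset D → A.M} (hv : v ∈ ktFam h A n B q)
    {i : D} {b : V i} (hB : B i = vtx (h i) b) : kxS A n i b v ∈ ktFam h A n B (q + 1) := by
  intro φ x hx
  by_cases hi : i ∈ φ
  · have h1 : kxS A n i b v φ = eps n i (φ.erase i) • kxIn A i b (v (φ.erase i)) := if_pos hi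
    rw [h1, map_zsmul] at hx
    have h2 : A.pr x (kxIn A i b (v (φ.erase i))) ≠ 0 := by
      intro h3
      rw [h3, smul_zero] at hx
      exact hx rfl
    obtain ⟨h3, h4⟩ := A.pr_prP_ne h2
    obtain ⟨h5, h6⟩ := hv _ x h4
    have h7 : ((φ.erase i).card : ℤ) + 1 = φ.card := by
      have h8 := Finset.card_erase_add_one hi
      exact_mod_cast h8
    refine ⟨by omega, fun j => ?_⟩
    by_cases hj : j = i
    · subst hj
      rw [hB, kta_sx_mem h hi, h3]
    · have h8 := h6 j
      rw [← kta_sx_insert_ne h hj, Finset.insert_erase hi] at h8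
      exact h8
  · have h1 : kxS A n i b v φ = 0 := if_neg hi
    rw [h1, map_zero] at hx
    exact absurd rfl hx

/-- A projection with a homotopy: the faces and the components of the values are restricted in the
directions of `I`. -/
def KxP (h : ∀ i, TreeAct Γ (V i) (T i)) (A : Nm T π) (n : ℤ) (B : Sz (SP h)) (I : Finset D) :
    Prop :=
  ∃ R s : (Finset D → A.M) → (Finset D → A.M), s 0 = 0 ∧
    (∀ q, ∀ v ∈ ktFam h A n B q, R v ∈ ktFam h A n B q ∧ s v ∈ ktFam h A n B (q + 1) ∧
      ktD A n (s v) + s (ktD A n v) = v - R v ∧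
      ∀ φ x, A.pr x (R v φ) ≠ 0 → ∀ i ∈ I, i ∉ φ ∧ B i = vtx (h i) (x i).1) ∧
    ∀ w, Out h A B w → R w = w

theorem kxE_mem {B : Sz (SP h)} {q : ℤ} {v : Finset D → A.M} (hv : v ∈ ktFam h A n B q)
    {i : D} {b : V i} (hB : B i = vtx (h i) b) : kxE A i b v ∈ ktFam h A n B q := by
  have h1 := kx_formula hv hB
  have h2 : kxE A i b v = v - (ktD A n (kxS A n i b v) + kxS A n i b (ktD A n v)) := by
    rw [h1]
    abel
  rw [h2]
  refine (ktFam h A n B q).sub_mem hv ((ktFam h A n B q).add_mem ?_ ?_)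
  · have h3 := kta_mem h A n B (q + 1) _ (kxS_mem hv hB)
    rwa [add_sub_cancel_right] at h3
  · have h3 := kxS_mem (kta_mem h A n B q v hv) hB
    rwa [sub_add_cancel] at h3

theorem kxP_insert {B : Sz (SP h)} {I : Finset D} (hI : KxP h A n B I) {i : D} {b : V i}
    (hB : B i = vtx (h i) b) : KxP h A n B (insert i I) := by
  obtain ⟨R, s, hs, hR, hO⟩ := hI
  have hR0 : R 0 = 0 := by
    have h1 := (hR 0 0 (AddSubgroup.zero_mem _)).2.2.1
    rw [map_zero, hs, map_zero, add_zero, zero_sub] at h1
    exact neg_eq_zero.1 h1.symm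
  have hS0 : kxS A n i b 0 = 0 := by
    funext φ
    change (if i ∈ φ then eps n i (φ.erase i) • kxIn A i b 0 else 0) = 0
    rw [map_zero, smul_zero, ite_self]
  refine ⟨fun v => kxE A i b (R v), fun v => s v + kxS A n i b (R v), ?_, ?_, ?_⟩
  · change s 0 + kxS A n i b (R 0) = 0
    rw [hs, hR0, hS0, add_zero]
  · intro q v hv
    obtain ⟨h1, h2, h3, h4⟩ := hR q v hv
    have hdv := kta_mem h A n B q v hv
    obtain ⟨h5, h6, h7, h8⟩ := hR (q - 1) _ hdv
    have h9 : ktD A n (R v) = R (ktD A n v) := by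
      have h10 : R v = v - (ktD A n (s v) + s (ktD A n v)) := by rw [h3]; abel
      have h11 : R (ktD A n v) = ktD A n v - (ktD A n (s (ktD A n v)) +
          s (ktD A n (ktD A n v))) := by rw [h7]; abel
      rw [h11, h10, map_sub, map_add, kta_dd, kta_dd, hs, zero_add, add_zero]
    refine ⟨kxE_mem h1 hB, (ktFam h A n B (q + 1)).add_mem h2 (kxS_mem h1 hB), ?_, ?_⟩
    · change ktD A n (s v + kxS A n i b (R v)) + (s (ktD A n v) + kxS A n i b (R (ktD A n v))) =
        v - kxE A i b (R v)
      have h12 := kx_formula h1 hB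
      rw [← h9, map_add]
      calc ktD A n (s v) + ktD A n (kxS A n i b (R v)) +
            (s (ktD A n v) + kxS A n i b (ktD A n (R v)))
          = (ktD A n (s v) + s (ktD A n v)) + (ktD A n (kxS A n i b (R v)) +
            kxS A n i b (ktD A n (R v))) := by abel
        _ = (v - R v) + (R v - kxE A i b (R v)) := by rw [h3, h12]
        _ = v - kxE A i b (R v) := by abel
    · intro φ x hx
      change A.pr x (kxE A i b (R v) φ) ≠ 0 at hx
      by_cases hi : i ∈ φ
      · have h13 : kxE A i b (R v) φ = 0 := if_pos hi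
        rw [h13, map_zero] at hx
        exact absurd rfl hx
      · have h13 : kxE A i b (R v) φ =
            R v φ - kxIn A i b (R v φ) + A.nu i (kxIn A i b (R v φ)) := if_neg hi
        rw [h13, map_add, map_sub] at hx
        by_cases h14 : A.pr x (A.nu i (kxIn A i b (R v φ))) = 0
        · rw [h14, add_zero] at hx
          have h15 : A.pr x (R v φ) ≠ 0 := by
            intro h16
            refine hx ?_
            rw [h16, zero_sub, neg_eq_zero]
            by_contra h17
            exact (A.pr_prP_ne h17).2 h16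
          have h16 : (x i).2 ≠ b := by
            intro h17
            refine hx ?_
            have h18 : A.pr x (kxIn A i b (R v φ)) = A.pr x (R v φ) :=
              A.pr_prP_pos (p := fun x => (x i).2 = b) h17 _
            rw [h18, sub_self]
          intro j hj
          rcases Finset.mem_insert.1 hj with hj | hj
          · subst hj
            refine ⟨hi, ?_⟩
            rcases kx_fam_out h1 hB hi h15 with h17 | h17
            · rw [h17, hB]
            · exact absurd h17 h16
          · exact h4 φ x h15 j hj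
        · obtain ⟨y, hy, hyx⟩ := kta_nu_comp A i x _ h14
          obtain ⟨hy1, hy2⟩ := A.pr_prP_ne hy
          intro j hj
          by_cases hji : j = i
          · subst hji
            refine ⟨hi, ?_⟩
            rw [hyx.2.1, hy1, hB]
          · obtain ⟨h17, h18⟩ := h4 φ y hy2 j (Finset.mem_of_mem_insert_of_ne hj hji)
            refine ⟨h17, ?_⟩
            rw [hyx.1 j hji]
            exact h18
  · intro w hw
    change kxE A i b (R w) = w
    rw [hO w hw]
    funext φ
    by_cases hφ : φ = ∅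
    · subst hφ
      have h1 : kxIn A i b (w ∅) = 0 := by
        refine A.prP_eq_zero fun y hy => ?_
        have h2 := (hw.2 y hy).2 i ⟨b, hB⟩
        intro h3
        have h4 : b = (y i).1 := by
          have h5 : (B i).set = {(y i).1} := by rw [h2]; rfl
          have h6 : (B i).set = {b} := by rw [hB]; rfl
          have h7 : b ∈ (B i).set := by rw [h6]; rfl
          rw [h5] at h7
          exact Set.mem_singleton_iff.1 h7
        exact (A.oe y _ hy i).ne (by rw [h3, h4])
      change (if i ∈ (∅ : Finset D) then 0 else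
        w ∅ - kxIn A i b (w ∅) + A.nu i (kxIn A i b (w ∅))) = w ∅
      rw [if_neg (Finset.notMem_empty i), h1, sub_zero, map_zero, add_zero]
    · change (if i ∈ φ then 0 else w φ - kxIn A i b (w φ) + A.nu i (kxIn A i b (w φ))) = w φ
      rw [hw.1 φ hφ, map_zero, map_zero, sub_zero, add_zero, ite_self]

theorem kxP_all (B : Sz (SP h)) (I : Finset D) (hI : ∀ i ∈ I, IsV (h i) (B i)) :
    KxP h A n B I := by
  induction I using Finset.induction_on with
  | empty =>
    refine ⟨fun v => v, fun _ => 0, rfl, ?_, fun w _ => rfl⟩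
    intro q v hv
    refine ⟨hv, AddSubgroup.zero_mem _, ?_, ?_⟩
    · change ktD A n 0 + 0 = v - v
      rw [map_zero, sub_self, add_zero]
    · intro φ x _ i hi
      exact absurd hi (Finset.notMem_empty i)
  | insert i I hi ih =>
    obtain ⟨b, hb⟩ := hI i (Finset.mem_insert_self i I)
    exact kxP_insert (ih fun j hj => hI j (Finset.mem_insert_of_mem hj)) hb

theorem kx_vtx_of_mem {B : Sz (SP h)} {q : ℤ} {v : Finset D → A.M}
    (hv : v ∈ ktFam h A n B q) {φ : Finset D} {i : D} (hi : i ∈ φ) {x : Pos V}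
    (hx : A.pr x (v φ) ≠ 0) : B i = vtx (h i) (x i).2 := by
  have h1 := (hv φ x hx).2 i
  rw [kta_sx_mem h hi] at h1
  refine le_antisymm h1 ?_
  rw [vtx_le]
  obtain ⟨y, hy⟩ := (B i).2.2.1
  have h2 := h1 hy
  rw [vtx_set, Set.mem_singleton_iff] at h2
  rw [← h2]
  exact hy

end

open Classical in
/-- The proof of module KX. -/
theorem stKX : StKX := by
  intro Γ _ D _ _ V _ T h N _ π A n B
  obtain ⟨R, s, hs, hR, hO⟩ := kxP_all (A := A) (n := n) B
    (Finset.univ.filter fun i => IsV (h i) (B i)) fun i hi => (Finset.mem_filter.1 hi).2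
  have hV : ∀ q, ∀ v ∈ ktFam h A n B q, ∀ φ x, A.pr x (R v φ) ≠ 0 → φ = ∅ := by
    intro q v hv φ x hx
    obtain ⟨h1, -, -, h4⟩ := hR q v hv
    by_contra hne
    obtain ⟨i, hi⟩ := Finset.nonempty_iff_ne_empty.2 hne
    exact (h4 φ x hx i (Finset.mem_filter.2 ⟨Finset.mem_univ i, (x i).2,
      kx_vtx_of_mem h1 hi hx⟩)).1 hi
  have hZ : ∀ q, q ≠ n → ∀ v ∈ ktFam h A n B q, R v = 0 := by
    intro q hq v hv
    funext φ
    refine A.ext_pr fun x => ?_
    change A.pr x (R v φ) = A.pr x 0
    rw [map_zero]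
    by_contra hx
    have h1 := ((hR q v hv).1 φ x hx).1
    rw [hV q v hv φ x hx, Finset.card_empty, Nat.cast_zero, add_zero] at h1
    exact hq h1.symm
  have hD : ∀ v ∈ ktFam h A n B n, ktD A n v = 0 := by
    intro v hv
    funext φ
    refine A.ext_pr fun x => ?_
    change A.pr x (ktD A n v φ) = A.pr x 0
    rw [map_zero]
    by_contra hx
    have h1 := (kta_mem h A n B n v hv φ x hx).1
    omega
  refine ⟨?_, ?_, ?_⟩
  · rintro q hq v ⟨hv, hdv⟩
    change v ∈ ktFam h A n B q at hv
    change ktD A n v = 0 at hdv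
    obtain ⟨-, h2, h3, -⟩ := hR q v hv
    refine ⟨s v, h2, ?_⟩
    change ktD A n (s v) = v
    rw [hdv, hs, add_zero, hZ q hq v hv, sub_zero] at h3
    exact h3
  · intro v hv
    change v ∈ ktFam h A n B n at hv
    obtain ⟨h1, h2, h3, h4⟩ := hR n v hv
    refine ⟨R v, ⟨?_, ?_⟩, s v, h2, ?_⟩
    · intro φ hφ
      refine A.ext_pr fun x => ?_
      rw [map_zero]
      by_contra hx
      exact hφ (hV n v hv φ x hx)
    · intro x hx
      refine ⟨fun i => ?_, fun i hi => ?_⟩
      · have h5 := (h1 ∅ x hx).2 i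
        rwa [kta_sx_notMem h (Finset.notMem_empty i)] at h5
      · exact (h4 ∅ x hx i (Finset.mem_filter.2 ⟨Finset.mem_univ i, hi⟩)).2
    · change ktD A n (s v) = v - R v
      rw [hD v hv, hs, add_zero] at h3
      exact h3
  · rintro w hw ⟨y, hy, hyw⟩
    change y ∈ ktFam h A n B (n + 1) at hy
    change ktD A n y = w at hyw
    have hwf : w ∈ ktFam h A n B n := by
      have h1 := kta_mem h A n B (n + 1) y hy
      rwa [add_sub_cancel_right, hyw] at h1
    obtain ⟨-, -, h3, -⟩ := hR (n + 1) y hy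
    rw [hZ (n + 1) (by omega) y hy, sub_zero, hyw] at h3
    obtain ⟨-, -, h4, -⟩ := hR n w hwf
    rw [hD w hwf, hs, add_zero, hO w hw, sub_self] at h4
    rw [← hyw, ← h3, map_add, kta_dd, zero_add, h4]

end Pool.Agent.Lib.MP_551055_al.W17
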