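import Mathlib
import Pool.Agent.Lib.MP_551055_al.Trim.LS.BassProj
import Pool.Agent.Lib.MP_551055_al.Trim.LS.PStmts
import Pool.Agent.Lib.MP_551055_al.Trim.LS.Stmts
import Pool.Agent.Lib.MP_551055_al.Trim.MT.Base
import Pool.Agent.Lib.MP_551055_al.Trim.MT.Defs
import Pool.Agent.Lib.MP_551055_al.Trim.MT.Gen
import Pool.Agent.Lib.MP_551055_al.Trim.MT.Tg
import Pool.Agent.Lib.MP_551055_al.Trim.MT.Trees
import Pool.Agent.Lib.MP_551055_al.Trim.T4.Constr
import Pool.Agent.Lib.MP_551055_al.Trim.T4.Ind0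
import Pool.Agent.Lib.MP_551055_al.Trim.W17.DefK
import Pool.Agent.Lib.MP_551055_al.Trim.W17.Filt
import Pool.Agent.Lib.MP_551055_al.Trim.W17.KF
import Pool.Agent.Lib.MP_551055_al.Trim.W17.KT
import Pool.Agent.Lib.MP_551055_al.Trim.W17.StK

/-!
# Trees and products: a free nil module which generates the lowest homology of a retract
-/

set_option autoImplicit false

set_option linter.unusedSectionVars false

namespace Pool.Agent.Lib.MP_551055_al
end Pool.Agent.Lib.MP_551055_al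

namespace Pool.Agent.Lib.MP_551055_al.LS
end Pool.Agent.Lib.MP_551055_al.LS

namespace Pool.Agent.Lib.MP_551055_al.MT
end Pool.Agent.Lib.MP_551055_al.MT

namespace Pool.Agent.Lib.MP_551055_al.W17

open Pool.Agent.Lib.MP_551055_al

open Pool.Agent.Lib.MP_551055_al.LS (TreeAct ZN)

open Pool.Agent.Lib.MP_551055_al.MT

open Matrix

/-! ## Direct sums of free nil modules -/

section

variable {Γ : Type} [Group Γ] {D : Type} {V : D → Type} [∀ i, MulAction Γ (V i)]
  {T : ∀ i, SimpleGraph (V i)} {N : Type} [Group N] {π : N →* Γ} {L : Type} [Fintype L]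
  [DecidableEq L] {κ : L → Type} [∀ l, Fintype (κ l)] [∀ l, DecidableEq (κ l)]

/-- The positions of a direct sum. -/
def sgP (p : ∀ l, κ l → Pos V) : (Σ l, κ l) → Pos V := fun a => p a.1 a.2

/-- The operators of a direct sum. -/
noncomputable def sgN (ν : ∀ l, D → Matrix (κ l) (κ l) (ZM N)) :
    D → Matrix (Σ l, κ l) (Σ l, κ l) (ZM N) := fun i => Matrix.blockDiagonal' fun l => ν l i

theorem sg_ok {p : ∀ l, κ l → Pos V} {ν : ∀ l, D → Matrix (κ l) (κ l) (ZM N)}
    (hp : ∀ l, FrOk T π (p l) (ν l)) : FrOk T π (sgP p) (sgN ν) where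
  oe a := (hp a.1).oe a.2
  comm i j := by
    unfold sgN
    rw [← Matrix.blockDiagonal'_mul, ← Matrix.blockDiagonal'_mul]
    exact congrArg _ (funext fun l => (hp l).comm i j)
  loc i a b m hm := by
    obtain ⟨l, a⟩ := a
    obtain ⟨k, b⟩ := b
    by_cases hlk : l = k
    · subst hlk
      unfold sgN at hm
      rw [Matrix.blockDiagonal'_apply_eq] at hm
      exact (hp l).loc i a b m hm
    · unfold sgN at hm
      rw [Matrix.blockDiagonal'_apply_ne _ _ _ hlk] at hm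
      exact absurd rfl hm
  nil i := by
    choose K hK using fun l => (hp l).nil i
    refine ⟨∑ l, K l, ?_⟩
    unfold sgN
    rw [← Matrix.blockDiagonal'_pow]
    have h1 : ((fun l => ν l i) ^ (∑ l, K l) : ∀ l, Matrix (κ l) (κ l) (ZM N)) = 0 := by
      funext l
      change ν l i ^ (∑ l, K l) = 0
      exact pow_eq_zero_of_le (Finset.single_le_sum (fun _ _ => Nat.zero_le _)
        (Finset.mem_univ l)) (hK l)
    rw [h1, Matrix.blockDiagonal'_zero]

end

section

variable {Γ : Type} [Group Γ] {D : Type} [Fintype D] [LinearOrder D] {V : D → Type}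
  [∀ i, MulAction Γ (V i)] {T : ∀ i, SimpleGraph (V i)} {h : ∀ i, TreeAct Γ (V i) (T i)}
  {N : Type} [Group N] {π : N →* Γ} {L : Type} [Fintype L]
  [DecidableEq L] {κ : L → Type} [∀ l, Fintype (κ l)] [∀ l, DecidableEq (κ l)]

/-- The component. -/
def sgR (l : L) : ((Σ l, κ l) × Finset D → ZM N) →ₗ[ZM N] (κ l × Finset D → ZM N) where
  toFun x a := x (⟨l, a.1⟩, a.2)
  map_add' _ _ := rfl
  map_smul' _ _ := rfl

theorem sgR_d (ν : ∀ l, D → Matrix (κ l) (κ l) (ZM N)) (n : ℤ) (l : L)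
    (x : (Σ l, κ l) × Finset D → ZM N) :
    sgR l (x ᵥ* kcD (sgN ν) n) = sgR l x ᵥ* kcD (ν l) n := by
  funext b
  obtain ⟨b, φ⟩ := b
  change ∑ a : (Σ l, κ l) × Finset D, x a * kcD (sgN ν) n a (⟨l, b⟩, φ) =
    ∑ a : κ l × Finset D, x (⟨l, a.1⟩, a.2) * kcD (ν l) n a (b, φ)
  rw [Fintype.sum_prod_type, Fintype.sum_sigma, Finset.sum_eq_single l, Fintype.sum_prod_type]
  · refine Finset.sum_congr rfl fun c _ => Finset.sum_congr rfl fun ψ _ => ?_
    congr 1
    change ∑ i ∈ ψ, (if φ = ψ.erase i then eps n i ψ •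
      ((if (⟨l, c⟩ : Σ l, κ l) = ⟨l, b⟩ then 1 else 0) - sgN ν i ⟨l, c⟩ ⟨l, b⟩) else 0) =
      ∑ i ∈ ψ, (if φ = ψ.erase i then eps n i ψ •
        ((if c = b then 1 else 0) - ν l i c b) else 0)
    refine Finset.sum_congr rfl fun i _ => ?_
    unfold sgN
    rw [Matrix.blockDiagonal'_apply_eq]
    have h1 : ((⟨l, c⟩ : Σ l, κ l) = ⟨l, b⟩) ↔ c = b :=
      ⟨fun h2 => eq_of_heq (Sigma.mk.inj h2).2, fun h2 => by rw [h2]⟩
    simp only [h1]
  · intro k _ hk
    refine Finset.sum_eq_zero fun c _ => Finset.sum_eq_zero fun ψ _ => ?_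
    have h1 : kcD (sgN ν) n (⟨k, c⟩, ψ) (⟨l, b⟩, φ) = 0 := by
      change ∑ i ∈ ψ, (if φ = ψ.erase i then eps n i ψ •
        ((if (⟨k, c⟩ : Σ l, κ l) = ⟨l, b⟩ then 1 else 0) - sgN ν i ⟨k, c⟩ ⟨l, b⟩) else 0) = 0
      refine Finset.sum_eq_zero fun i _ => ?_
      unfold sgN
      have h2 : ¬((⟨k, c⟩ : Σ l, κ l) = ⟨l, b⟩) := fun h2 => hk (Sigma.mk.inj h2).1
      rw [Matrix.blockDiagonal'_apply_ne _ _ _ hk, if_neg h2, sub_zero, smul_zero, ite_self]
    rw [h1, mul_zero]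
  · intro h1
    exact absurd (Finset.mem_univ l) h1

theorem sgR_fam (p : ∀ l, κ l → Pos V) (ν : ∀ l, D → Matrix (κ l) (κ l) (ZM N)) (n : ℤ)
    (B : Sz (SP h)) (q : ℤ) (x : (Σ l, κ l) × Finset D → ZM N) :
    x ∈ fam π Finset.univ (Kc h N n (sgP p) (sgN ν)).toOb B q ↔
      ∀ l, sgR l x ∈ fam π Finset.univ (Kc h N n (p l) (ν l)).toOb B q := by
  constructor
  · intro hx l a m hm
    exact hx (⟨l, a.1⟩, a.2) m hm
  · rintro hx ⟨⟨l, a⟩, φ⟩ m hm
    exact hx l (a, φ) m hm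

theorem lin_sg {M : Type} [AddCommGroup M] [Module (ZM N) M]
    (g : ∀ l, κ l × Finset D → M) (x : (Σ l, κ l) × Finset D → ZM N) :
    lin (N := N) (fun a : (Σ l, κ l) × Finset D => g a.1.1 (a.1.2, a.2)) x =
      ∑ l, lin (N := N) (g l) (sgR l x) := by
  rw [lin_apply, Fintype.sum_prod_type, Fintype.sum_sigma]
  refine Finset.sum_congr rfl fun l _ => ?_
  rw [lin_apply, Fintype.sum_prod_type]
  rfl

theorem sg_chT {p : ∀ l, κ l → Pos V} {ν : ∀ l, D → Matrix (κ l) (κ l) (ZM N)} {n : ℤ}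
    {S : Tg (SP h) π Finset.univ} {g : ∀ l, κ l × Finset D → S.V}
    (hg : ∀ l, ChT (Kc h N n (p l) (ν l)) S (g l)) :
    ChT (Kc h N n (sgP p) (sgN ν)) S fun a : (Σ l, κ l) × Finset D =>
      g a.1.1 (a.1.2, a.2) := by
  refine ⟨fun a => (hg a.1.1).1 (a.1.2, a.2), fun (x : (Σ l, κ l) × Finset D → ZM N) => ?_⟩
  have h1 : ∀ y : (Σ l, κ l) × Finset D → ZM N,
      lin (N := N) (fun a : (Σ l, κ l) × Finset D => g a.1.1 (a.1.2, a.2)) y =
        ∑ l, lin (N := N) (g l) (sgR l y) := lin_sg g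
  refine (h1 _).trans ?_
  refine Eq.trans ?_ (congrArg S.d (h1 x)).symm
  rw [map_sum]
  refine Finset.sum_congr rfl fun l _ => ?_
  have h2 := (hg l).2 (sgR l x)
  have h3 := sgR_d ν n l x
  refine Eq.trans ?_ h2
  exact congrArg (lin (N := N) (g l)) h3

end

/-- The proof of module KAtt. -/
theorem stKAtt (hA1 : StKA1) : StKAtt := by
  intro Γ _ D _ _ V _ T h N _ π S M hM n hR
  classical
  obtain ⟨u, v, r, hu, hv, hr, hud, hvd, huv, hun⟩ := hR
  have hcx := hM.cx
  -- the basis elements of degree `n`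
  have hcyc : ∀ l : {l : M.ι // M.deg l = n}, S.d (u (Pi.single l.1 1)) = 0 := by
    intro l
    rw [← hud, lin_ext u, lin_apply]
    refine Finset.sum_eq_zero fun k _ => ?_
    have h1 : ((Pi.single l.1 (1 : ZM N) : M.ι → ZM N) ᵥ* M.d) k = M.d l.1 k := by
      have h2 : (Pi.single l.1 (1 : ZM N) : M.ι → ZM N) ᵥ* M.d = M.d l.1 :=
        Matrix.single_one_vecMul l.1 M.d
      rw [h2]
    rw [h1]
    by_cases h0 : M.d l.1 k = 0
    · rw [h0, zero_smul]
    · obtain ⟨m, hm⟩ : ∃ m, (M.d l.1 k).coeff m ≠ 0 := by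
        by_contra hn
        push Not at hn
        exact h0 (zm_ext fun m => hn m)
      have h2 := (hcx.1 l.1 k m hm).1
      have h3 := l.2
      rw [hun k (by omega), smul_zero]
  have hZ : ∀ l : {l : M.ι // M.deg l = n},
      v (u (Pi.single l.1 1)) ∈ ZC π Finset.univ M n (M.sz l.1) := by
    intro l
    refine ⟨?_, ?_⟩
    · have h1 := hv _ _ _ (hu _ _ _ (basis_mem_fam (π := π) (U := Finset.univ) (X := M.toOb) l.1))
      rwa [l.2] at h1
    · rw [← hvd, hcyc, map_zero]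
  choose κ ft de p ν ψ hok hch y hy hyx using fun l : {l : M.ι // M.deg l = n} =>
    hA1 Γ D V T h N π M hM n (M.sz l.1) (fun i => hM.cel l.1 i (Finset.mem_univ i)) _ (hZ l)
  have hlin : ∀ (l : {l : M.ι // M.deg l = n}) (z : (Kc h N n (p l) (ν l)).ι → ZM N),
      lin (N := N) (fun k => u (ψ l k)) z = u (z ᵥ* ψ l) := by
    intro l z
    rw [lin_apply]
    have h1 : z ᵥ* ψ l = ∑ k, z k • ψ l k := by
      funext j
      rw [Finset.sum_apply]
      rfl
    rw [h1, map_sum]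
    exact Finset.sum_congr rfl fun k _ => (map_smul u _ _).symm
  have hg : ∀ l, ChT (Kc h N n (p l) (ν l)) S fun k => u (ψ l k) := by
    intro l
    refine ⟨fun k => ?_, fun z => ?_⟩
    · have h1 := ct_iff.1 (hch l).1 k
      rw [add_zero] at h1
      exact hu _ _ _ h1
    · rw [hlin, hlin, Matrix.vecMul_vecMul, (hch l).2, ← Matrix.vecMul_vecMul, hud]
  refine ⟨Σ l, κ l, inferInstance, inferInstance, sgP p, sgN ν,
    fun a : (Σ l, κ l) × Finset D => u (ψ a.1.1 (a.1.2, a.2)), sg_ok hok, sg_chT hg, ?_⟩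
  intro B z hz
  have hvz := hv B n z hz.1
  -- the generator
  let x : (Σ l, κ l) × Finset D → ZM N := fun a => v z a.1.1.1 * y a.1.1 (a.1.2, a.2)
  have hxR : ∀ l, sgR l x = v z l.1 • y l := fun l => rfl
  have hc : ∀ l : {l : M.ι // M.deg l = n}, ∀ m, (v z l.1).coeff m ≠ 0 →
      B ≤ π m • M.sz l.1 := by
    intro l m hm i
    exact (hvz l.1 m hm).2 i (Finset.mem_univ i)
  refine ⟨x, (sgR_fam p ν n B n x).2 fun l => ?_, ?_⟩
  · rw [hxR]
    exact (fam_fam (π := π) (U := Finset.univ) (Kc h N n (p l) (ν l)).toOb n).smul_mem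
      (hc l) (hy l)
  · have h1 : lin (N := N) (fun a : (Σ l, κ l) × Finset D => u (ψ a.1.1 (a.1.2, a.2))) x =
        ∑ l, lin (N := N) (fun k => u (ψ l k)) (sgR l x) :=
      lin_sg (fun l (k : κ l × Finset D) => u (ψ l k)) x
    have h2 : ∀ l, lin (N := N) (fun k => u (ψ l k)) (sgR l x) =
        v z l.1 • u (y l ᵥ* ψ l) := by
      intro l
      rw [hxR]
      refine (map_smul _ _ _).trans ?_
      exact congrArg _ (hlin l (y l))
    -- `u v z` as a sum over the basis elements of degree `n`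
    have h3 : u (v z) = ∑ l : {l : M.ι // M.deg l = n}, v z l.1 • u (Pi.single l.1 1) := by
      rw [lin_ext u, lin_apply, ← Fintype.sum_subtype_add_sum_subtype (fun l => M.deg l = n)]
      refine (congrArg _ (Finset.sum_eq_zero fun k _ => ?_)).trans (add_zero _)
      have h4 : v z k.1 = 0 := by
        refine zm_ext fun m => ?_
        by_contra hm
        exact k.2 (hvz k.1 m hm).1
      rw [h4, zero_smul]
    have h5 : ∀ l : {l : M.ι // M.deg l = n},
        u (y l ᵥ* ψ l) - u (Pi.single l.1 1) ∈ S.Bc n (M.sz l.1) := by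
      intro l
      have hul := hu _ _ _ (basis_mem_fam (π := π) (U := Finset.univ) (X := M.toOb) l.1)
      rw [l.2] at hul
      have h6 : u (y l ᵥ* ψ l) - u (Pi.single l.1 1) =
          u (y l ᵥ* ψ l - v (u (Pi.single l.1 1))) + S.d (r (u (Pi.single l.1 1))) := by
        rw [map_sub, huv, hcyc, map_zero]
        abel
      rw [h6]
      refine (S.Bc n (M.sz l.1)).add_mem ?_ ⟨_, hr _ _ _ hul, rfl⟩
      obtain ⟨t, ht, htd⟩ := hyx l
      exact ⟨u t, hu _ _ _ ht, by rw [← htd, hud]⟩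
    have h7 : lin (N := N) (fun a : (Σ l, κ l) × Finset D => u (ψ a.1.1 (a.1.2, a.2))) x - z =
        ∑ l : {l : M.ι // M.deg l = n}, v z l.1 • (u (y l ᵥ* ψ l) - u (Pi.single l.1 1)) +
          S.d (r z) := by
      have h8 : u (v z) = z + S.d (r z) := by
        rw [huv]
        have h9 : S.d z = 0 := hz.2
        rw [h9, map_zero, add_zero]
      rw [h1, Finset.sum_congr rfl fun l _ => h2 l]
      simp only [smul_sub]
      rw [Finset.sum_sub_distrib, ← h3, h8]
      abel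
    have h10 : ∑ l : {l : M.ι // M.deg l = n},
        v z l.1 • (u (y l ᵥ* ψ l) - u (Pi.single l.1 1)) + S.d (r z) ∈ S.Bc n B := by
      refine (S.Bc n B).add_mem (AddSubgroup.sum_mem _ fun l _ => ?_) ⟨r z, hr B n z hz.1, rfl⟩
      exact (S.Bc_fam n).smul_mem (hc l) (h5 l)
    exact h7.symm ▸ h10

end Pool.Agent.Lib.MP_551055_al.W17
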