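import Mathlib
import Pool.Agent.Lib.MP_551055_al.Trim.LS.PStmts
import Pool.Agent.Lib.MP_551055_al.Trim.LS.Ray
import Pool.Agent.Lib.MP_551055_al.Trim.LS.Stmts
import Pool.Agent.Lib.MP_551055_al.Trim.MT.Base
import Pool.Agent.Lib.MP_551055_al.Trim.MT.Defs
import Pool.Agent.Lib.MP_551055_al.Trim.MT.Gen
import Pool.Agent.Lib.MP_551055_al.Trim.MT.Tg
import Pool.Agent.Lib.MP_551055_al.Trim.MT.Trees
import Pool.Agent.Lib.MP_551055_al.Trim.T4.Constr
import Pool.Agent.Lib.MP_551055_al.Trim.T4.Ind0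
import Pool.Agent.Lib.MP_551055_al.Trim.W17.KT
import Pool.Agent.Lib.MP_551055_al.Trim.W17.StK

/-!
# Trees and products: the map `u` of a retract can be made zero below the lowest homology
-/

set_option autoImplicit false

set_option linter.unusedSectionVars false

namespace Pool.Agent.Lib.MP_551055_al
end Pool.Agent.Lib.MP_551055_al

namespace Pool.Agent.Lib.MP_551055_al.LS
end Pool.Agent.Lib.MP_551055_al.LS

namespace Pool.Agent.Lib.MP_551055_al.MT
end Pool.Agent.Lib.MP_551055_al.MT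

namespace Pool.Agent.Lib.MP_551055_al.W17

open Pool.Agent.Lib.MP_551055_al

open Pool.Agent.Lib.MP_551055_al.LS (TreeAct ZN)

open Pool.Agent.Lib.MP_551055_al.MT

open Matrix

section

variable {N : Type} [Monoid N] {ι : Type} [Fintype ι] {V : Type} [AddCommGroup V]
  [Module (ZM N) V]

theorem kfg_comb {κ : Type} [Fintype κ] (s : κ → V) (d : Matrix ι κ (ZM N)) (x : ι → ZM N) :
    ∑ k, x k • lin (N := N) s (d k) = lin (N := N) s (x ᵥ* d) := by
  have h : x ᵥ* d = ∑ k, x k • d k := by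
    funext j
    rw [Finset.sum_apply]
    rfl
  rw [h, map_sum]
  exact Finset.sum_congr rfl fun k _ => by rw [map_smul]

theorem kfg_congr (s s' : ι → V) (x : ι → ZM N) (h : ∀ k, x k ≠ 0 → s k = s' k) :
    lin (N := N) s x = lin (N := N) s' x := by
  rw [lin_apply, lin_apply]
  refine Finset.sum_congr rfl fun k _ => ?_
  by_cases h0 : x k = 0
  · rw [h0, zero_smul, zero_smul]
  · rw [h k h0]

theorem kfg_ext (D : V →ₗ[ZM N] V) (f s : ι → V) (d : Matrix ι ι (ZM N)) (x : ι → ZM N)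
    (h : ∀ k, x k ≠ 0 → D (s k) = f k - lin (N := N) s (d k)) :
    D (lin (N := N) s x) = lin (N := N) f x - lin (N := N) s (x ᵥ* d) := by
  rw [← kfg_comb, lin_apply s x, lin_apply f x, map_sum, ← Finset.sum_sub_distrib]
  refine Finset.sum_congr rfl fun k _ => ?_
  rw [map_smul]
  by_cases h0 : x k = 0
  · rw [h0, zero_smul, zero_smul, zero_smul, sub_zero]
  · rw [h k h0, smul_sub]

theorem kfg_ne {a : ZM N} (h : a ≠ 0) : ∃ m, a.coeff m ≠ 0 := by
  by_contra hn
  push Not at hn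
  apply h
  apply MonoidAlgebra.coeff_injective
  ext m
  exact hn m

end

section

variable {Γ : Type} [Group Γ] {D : Type} {P : D → Type} [∀ i, PartialOrder (P i)]
  [∀ i, MulAction Γ (P i)] [SzAct Γ P] {N : Type} [Monoid N] {π : N →* Γ} {U : Finset D}

/-- A chain map to a target which is exact in degrees `< n` is homotopic to a chain map which is
zero in degrees `< n`. -/
theorem solve_lt (R : Co P N) (T : Tg P π U) (hR : IsCx π U R) (f : R.ι → T.V)
    (hf : ChT R T f) (n : ℤ)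
    (hex : ∀ l, R.deg l < n → T.Zc (R.deg l) (R.sz l) ≤ T.Bc (R.deg l) (R.sz l)) :
    ∃ y : R.ι → T.V, (∀ l, y l ∈ T.fam (R.sz l) (R.deg l + 1)) ∧
      ∀ l, R.deg l < n → T.d (y l) = f l - lin (N := N) y (R.d l) := by
  have hdeg : ∀ l k, R.d l k ≠ 0 → R.deg k = R.deg l - 1 := by
    intro l k h
    obtain ⟨m, hm⟩ := kfg_ne h
    have h1 := (hR.1 l k m hm).1
    omega
  have hrow : ∀ l, R.d l ∈ fam π U R.toOb (R.sz l) (R.deg l - 1) := fun l => ct_iff.1 hR.1 l
  have hrow2 : ∀ l, R.d l ᵥ* R.d = 0 := by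
    intro l
    have h1 : R.d l ᵥ* R.d = (R.d * R.d) l := rfl
    rw [h1, hR.2]
    rfl
  have hfl : ∀ l, T.d (f l) = lin (N := N) f (R.d l) := by
    intro l
    have h1 := hf.2 (Pi.single l 1)
    have h2 : (Pi.single l (1 : ZM N) : R.ι → ZM N) ᵥ* R.d = R.d l :=
      Matrix.single_one_vecMul l R.d
    rw [lin_single, one_smul, h2] at h1
    exact h1.symm
  obtain ⟨n0, hn0⟩ : ∃ n0 : ℤ, ∀ l, n0 ≤ R.deg l := by
    obtain ⟨M, hM⟩ := (Set.finite_range R.deg).bddBelow
    exact ⟨M, fun l => hM ⟨l, rfl⟩⟩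
  have key : ∀ k : ℕ, ∃ s : R.ι → T.V, (∀ l, s l ∈ T.fam (R.sz l) (R.deg l + 1)) ∧
      ∀ l, R.deg l < n → R.deg l < n0 + k → T.d (s l) = f l - lin (N := N) s (R.d l) := by
    intro k
    induction k with
    | zero =>
      refine ⟨0, fun l => AddSubgroup.zero_mem _, fun l _ hl => ?_⟩
      have h1 := hn0 l
      push_cast at hl
      omega
    | succ k ih =>
      obtain ⟨s, hs, hsd⟩ := ih
      have hy : ∀ l, R.deg l < n ∧ R.deg l = n0 + k → ∃ y ∈ T.fam (R.sz l) (R.deg l + 1),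
          T.d y = f l - lin (N := N) s (R.d l) := by
        rintro l ⟨hln, hl⟩
        have h1 : T.d (lin (N := N) s (R.d l)) = lin (N := N) f (R.d l) := by
          rw [kfg_ext T.d f s R.d (R.d l), hrow2, map_zero, sub_zero]
          intro j hj
          have h2 := hdeg l j hj
          exact hsd j (by omega) (by omega)
        have h2 : f l - lin (N := N) s (R.d l) ∈ T.Zc (R.deg l) (R.sz l) := by
          refine ⟨AddSubgroup.sub_mem _ (hf.1 l) ?_, ?_⟩
          · exact T.lin_mem' hs (hrow l) (by ring)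
          · rw [map_sub, h1, hfl, sub_self]
        obtain ⟨y, hy1, hy2⟩ := hex l hln h2
        exact ⟨y, hy1, hy2⟩
      choose y hy1 hy2 using hy
      have hss : ∀ l, R.deg l ≤ n0 + k →
          lin (N := N) (fun l => if h : R.deg l < n ∧ R.deg l = n0 + k then y l h else s l)
            (R.d l) = lin (N := N) s (R.d l) := by
        intro l hl
        refine kfg_congr _ _ _ fun j hj => ?_
        have h3 := hdeg l j hj
        rw [dif_neg]
        omega
      refine ⟨fun l => if h : R.deg l < n ∧ R.deg l = n0 + k then y l h else s l,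
        fun l => ?_, fun l hln hl => ?_⟩
      · by_cases h : R.deg l < n ∧ R.deg l = n0 + k
        · simp only [dif_pos h]
          exact hy1 l h
        · simp only [dif_neg h]
          exact hs l
      · push_cast at hl
        rw [hss l (by omega)]
        by_cases h : R.deg l < n ∧ R.deg l = n0 + k
        · simp only [dif_pos h]
          exact hy2 l h
        · simp only [dif_neg h]
          exact hsd l hln (by omega)
  obtain ⟨s, hs, hsd⟩ := key (n - n0).toNat
  refine ⟨s, hs, fun l hl => hsd l hl ?_⟩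
  have h1 := Int.self_le_toNat (n - n0)
  omega

end

/-- The proof of module KFG. -/
theorem stKFG : StKFG := by
  intro Γ _ D _ _ V _ T h N _ π S M hM n₀ n hR hex
  obtain ⟨u, v, r, hu, hv, hr, hud, hvd, huv, -⟩ := hR
  have hul : ∀ x : M.ι → ZM N, lin (N := N) (fun l => u (Pi.single l 1)) x = u x :=
    fun x => (lin_ext u x).symm
  obtain ⟨y, hy, hyd⟩ := solve_lt M S hM (fun l => u (Pi.single l 1))
    ⟨fun l => hu _ _ _ (basis_mem_fam l), fun x => by rw [hul, hul, hud]⟩ n
    fun l hl => hex _ hl _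
  have hym : ∀ B q, ∀ x ∈ fam π Finset.univ M.toOb B q, lin (N := N) y x ∈ S.fam B (q + 1) :=
    fun B q x hx => S.lin_mem hy hx
  let Y : (M.ι → ZM N) →ₗ[ZM N] S.V := lin (N := N) y
  let dM : (M.ι → ZM N) →ₗ[ZM N] (M.ι → ZM N) := Matrix.vecMulLinear M.d
  refine ⟨u - (S.d ∘ₗ Y + Y ∘ₗ dM), v, r - Y ∘ₗ v, ?_, hv, ?_, ?_, hvd, ?_, ?_⟩
  · intro B q x hx
    refine (S.fam B q).sub_mem (hu B q x hx) ((S.fam B q).add_mem ?_ ?_)
    · have h1 := S.d_mem B _ _ (hym B q x hx)
      rwa [add_sub_cancel_right] at h1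
    · have h1 := hym B (q - 1) _ (fam_vecMul' hM.1 hx (by ring))
      rwa [sub_add_cancel] at h1
  · intro B q x hx
    exact (S.fam B (q + 1)).sub_mem (hr B q x hx) (hym B q _ (hv B q x hx))
  · intro x
    change u (x ᵥ* M.d) - (S.d (Y (x ᵥ* M.d)) + Y ((x ᵥ* M.d) ᵥ* M.d)) =
      S.d (u x - (S.d (Y x) + Y (x ᵥ* M.d)))
    rw [hud, Matrix.vecMul_vecMul, hM.2, Matrix.vecMul_zero, map_zero, add_zero, map_sub,
      map_add, S.dd, zero_add]
  · intro x
    change u (v x) - (S.d (Y (v x)) + Y (v x ᵥ* M.d)) =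
      x + S.d (r x - Y (v x)) + (r (S.d x) - Y (v (S.d x)))
    rw [huv, hvd, map_sub]
    abel
  · intro l hl
    change u (Pi.single l 1) - (S.d (lin (N := N) y (Pi.single l 1)) +
      lin (N := N) y (Pi.single l 1 ᵥ* M.d)) = 0
    have h1 : (Pi.single l (1 : ZM N) : M.ι → ZM N) ᵥ* M.d = M.d l :=
      Matrix.single_one_vecMul l M.d
    rw [lin_single, one_smul, h1, hyd l hl]
    abel

end Pool.Agent.Lib.MP_551055_al.W17
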