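import Mathlib
import Pool.Agent.Lib.MP_551055_al.Trim.LS.BassProj
import Pool.Agent.Lib.MP_551055_al.Trim.LS.PStmts
import Pool.Agent.Lib.MP_551055_al.Trim.LS.Stmts
import Pool.Agent.Lib.MP_551055_al.Trim.MT.Defs
import Pool.Agent.Lib.MP_551055_al.Trim.MT.Gen
import Pool.Agent.Lib.MP_551055_al.Trim.MT.Map
import Pool.Agent.Lib.MP_551055_al.Trim.T4.Ind0
import Pool.Agent.Lib.MP_551055_al.Trim.T4.Perf
import Pool.Agent.Lib.MP_551055_al.Trim.W17.DefK
import Pool.Agent.Lib.MP_551055_al.Trim.W17.Defs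
import Pool.Agent.Lib.MP_551055_al.Trim.W17.FrA
import Pool.Agent.Lib.MP_551055_al.Trim.W17.KT

/-!
# Trees and products: graded submodules and quotients of nil modules

Sub and quotient nil modules, the sequences of the parts, the submodule generated by submodules of
the parts at representatives of the orbits.
-/

set_option autoImplicit false

namespace Pool.Agent.Lib.MP_551055_al
end Pool.Agent.Lib.MP_551055_al

namespace Pool.Agent.Lib.MP_551055_al.LS
end Pool.Agent.Lib.MP_551055_al.LS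

namespace Pool.Agent.Lib.MP_551055_al.MT
end Pool.Agent.Lib.MP_551055_al.MT

namespace Pool.Agent.Lib.MP_551055_al.T4
end Pool.Agent.Lib.MP_551055_al.T4

namespace Pool.Agent.Lib.MP_551055_al.W17

open Pool.Agent.Lib.MP_551055_al

open Pool.Agent.Lib.MP_551055_al.LS (TreeAct ZN)

open Pool.Agent.Lib.MP_551055_al.MT

open Pool.Agent.Lib.MP_551055_al.T4 (Perf)

open Matrix

section

variable {N : Type} [Group N]

/-- A submodule as a module over the group ring of a subgroup. -/
noncomputable def rgSub (S : Subgroup N) {M : Type} [AddCommGroup M] [Module (ZM N) M]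
    (W : Submodule (ZM N) M) : Submodule (ZM S) (Rg S M) where
  carrier := {m | (show M from m) ∈ W}
  zero_mem' := W.zero_mem
  add_mem' {_ _} ha hb := W.add_mem ha hb
  smul_mem' c _ hm := W.smul_mem (mdh S.subtype c) hm

end

section

variable {Γ : Type} [Group Γ] {D : Type} {V : D → Type} [∀ i, MulAction Γ (V i)]
  {T : ∀ i, SimpleGraph (V i)} {N : Type} [Group N] {π : N →* Γ}

/-! ## Graded submodules -/

/-- Submodules closed under the projections and the operators. -/
structure IsGr (A : Nm T π) (W : Submodule (ZM N) A.M) : Prop where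
  pr : ∀ x, ∀ m ∈ W, A.pr x m ∈ W
  nu : ∀ i, ∀ m ∈ W, A.nu i m ∈ W

/-- The sub nil module. -/
noncomputable def Nm.sub (A : Nm T π) (W : Submodule (ZM N) A.M) (hW : IsGr A W) : Nm T π where
  M := W
  ag := inferInstance
  md := inferInstance
  pr x :=
    { toFun := fun m => ⟨A.pr x m.1, hW.pr x m.1 m.2⟩
      map_zero' := Subtype.ext (map_zero (A.pr x))
      map_add' := fun a b => Subtype.ext (map_add (A.pr x) a.1 b.1) }
  nu i := (A.nu i).restrict (hW.nu i)
  pr_self x m := Subtype.ext (A.pr_self x m.1)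
  pr_ne x y m h := Subtype.ext (A.pr_ne x y m.1 h)
  fin m := (A.fin m.1).subset fun _ hx h => hx (Subtype.ext h)
  sum m := by
    refine Subtype.ext ?_
    have h1 := W.subtype.toAddMonoidHom.map_finsum (f := fun x =>
      (⟨A.pr x m.1, hW.pr x m.1 m.2⟩ : W))
      ((A.fin m.1).subset fun _ hx h => hx (Subtype.ext h))
    exact h1.trans (A.sum m.1)
  act g x m := Subtype.ext (A.act g x m.1)
  oe x m h := A.oe x m.1 fun h1 => h (Subtype.ext h1)
  comm i j m := Subtype.ext (A.comm i j m.1)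
  loc i x y m h := A.loc i x y m.1 fun h1 => h (Subtype.ext h1)
  nil i := by
    obtain ⟨K, hK⟩ := A.nil i
    refine ⟨K, LinearMap.ext fun m => Subtype.ext ?_⟩
    have h1 : ∀ (n : ℕ) (m : W), ((((A.nu i).restrict (hW.nu i)) ^ n) m).1
        = (A.nu i ^ n) m.1 := by
      intro n
      induction n with
      | zero => exact fun m => rfl
      | succ n ih =>
        intro m
        rw [pow_succ, pow_succ]
        exact ih ((A.nu i).restrict (hW.nu i) m)
    rw [h1, hK]
    rfl

/-- The inclusion. -/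
noncomputable def Nm.incl (A : Nm T π) (W : Submodule (ZM N) A.M) (hW : IsGr A W) :
    NmHom (A.sub W hW) A where
  f := W.subtype
  pr _ _ := rfl
  nu _ _ := rfl

/-- The quotient nil module. -/
noncomputable def Nm.quot (A : Nm T π) (W : Submodule (ZM N) A.M) (hW : IsGr A W) : Nm T π where
  M := A.M ⧸ W
  ag := inferInstance
  md := inferInstance
  pr x := QuotientAddGroup.map W.toAddSubgroup W.toAddSubgroup (A.pr x)
    (fun m hm => hW.pr x m hm)
  nu i := W.mapQ W (A.nu i) (fun m hm => hW.nu i m hm)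
  pr_self x m := by
    obtain ⟨m, rfl⟩ := W.mkQ_surjective m
    exact congrArg W.mkQ (A.pr_self x m)
  pr_ne x y m h := by
    obtain ⟨m, rfl⟩ := W.mkQ_surjective m
    exact (congrArg W.mkQ (A.pr_ne x y m h)).trans (map_zero W.mkQ)
  fin m := by
    obtain ⟨m, rfl⟩ := W.mkQ_surjective m
    exact (A.fin m).subset fun x hx h =>
      hx ((congrArg W.mkQ h).trans (map_zero W.mkQ))
  sum m := by
    obtain ⟨m, rfl⟩ := W.mkQ_surjective m
    exact (W.mkQ.toAddMonoidHom.map_finsum (f := fun x => A.pr x m) (A.fin m)).symm.trans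
      (congrArg W.mkQ (A.sum m))
  act g x m := by
    obtain ⟨m, rfl⟩ := W.mkQ_surjective m
    exact congrArg W.mkQ (A.act g x m)
  oe x m h := by
    obtain ⟨m, rfl⟩ := W.mkQ_surjective m
    exact A.oe x m fun h1 => h ((congrArg W.mkQ h1).trans (map_zero W.mkQ))
  comm i j m := by
    obtain ⟨m, rfl⟩ := W.mkQ_surjective m
    exact congrArg W.mkQ (A.comm i j m)
  loc i x y m h := by
    obtain ⟨m, rfl⟩ := W.mkQ_surjective m
    exact A.loc i x y m fun h1 => h ((congrArg W.mkQ h1).trans (map_zero W.mkQ))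
  nil i := by
    obtain ⟨K, hK⟩ := A.nil i
    refine ⟨K, LinearMap.ext fun m => ?_⟩
    obtain ⟨m, rfl⟩ := W.mkQ_surjective m
    have h1 : ∀ (n : ℕ) (m : A.M), ((W.mapQ W (A.nu i) (fun m hm => hW.nu i m hm)) ^ n)
        (W.mkQ m) = W.mkQ ((A.nu i ^ n) m) := by
      intro n
      induction n with
      | zero => exact fun m => rfl
      | succ n ih =>
        intro m
        rw [pow_succ, pow_succ]
        exact ih (A.nu i m)
    rw [h1, hK]
    exact map_zero W.mkQ

/-- The projection. -/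
noncomputable def Nm.proj (A : Nm T π) (W : Submodule (ZM N) A.M) (hW : IsGr A W) :
    NmHom A (A.quot W hW) where
  f := W.mkQ
  pr _ _ := rfl
  nu _ _ := rfl

theorem Nm.nex (A : Nm T π) (W : Submodule (ZM N) A.M) (hW : IsGr A W) :
    NEx (A.incl W hW) (A.proj W hW) := by
  refine ⟨Subtype.val_injective, W.mkQ_surjective, fun m => ?_⟩
  constructor
  · intro h
    exact ⟨⟨m, (Submodule.Quotient.mk_eq_zero W).1 h⟩, rfl⟩
  · rintro ⟨a, rfl⟩
    exact (Submodule.Quotient.mk_eq_zero W).2 a.2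

/-! ## Maps of the parts -/

/-- The map of the parts. -/
noncomputable def NmHom.part {A B : Nm T π} (f : NmHom A B) (x : Pos V) :
    A.part x →ₗ[ZM (St π x)] B.part x where
  toFun m := ⟨f.f (show A.M from m.1), by
    change B.pr x (f.f (show A.M from m.1)) = f.f (show A.M from m.1)
    rw [← f.pr]
    exact congrArg f.f m.2⟩
  map_add' a b := Subtype.ext (map_add f.f (show A.M from a.1) (show A.M from b.1))
  map_smul' c a := Subtype.ext (map_smul f.f (mdh (St π x).subtype c) (show A.M from a.1))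

/-- The parts of a short exact sequence form a short exact sequence. -/
theorem nex_part {A B C : Nm T π} {i : NmHom A B} {q : NmHom B C} (h : NEx i q) (x : Pos V) :
    Function.Injective (i.part x) ∧ Function.Surjective (q.part x) ∧
      ∀ m, q.part x m = 0 ↔ ∃ a, i.part x a = m := by
  obtain ⟨h1, h2, h3⟩ := h
  refine ⟨?_, ?_, fun m => ⟨fun hm => ?_, ?_⟩⟩
  · intro a b hab
    exact Subtype.ext (h1 (congrArg Subtype.val hab))
  · rintro ⟨c, hc⟩
    obtain ⟨b, hb⟩ := h2 (show C.M from c)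
    refine ⟨⟨show Rg (St π x) B.M from B.pr x b, B.pr_self x b⟩, Subtype.ext ?_⟩
    change q.f (B.pr x b) = c
    rw [q.pr, hb]
    exact hc
  · obtain ⟨a, ha⟩ := (h3 (show B.M from m.1)).1 (congrArg Subtype.val hm)
    refine ⟨⟨show Rg (St π x) A.M from a, ?_⟩, Subtype.ext ha⟩
    change A.pr x a = a
    apply h1
    rw [i.pr, ha]
    exact m.2
  · rintro ⟨a, rfl⟩
    exact Subtype.ext ((h3 _).2 ⟨_, rfl⟩)

/-- The parts of a sub nil module. -/
noncomputable def subPart (A : Nm T π) (W : Submodule (ZM N) A.M) (hW : IsGr A W) (x : Pos V) :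
    (A.sub W hW).part x ≃ₗ[ZM (St π x)] (rgSub (St π x) W ⊓ A.part x :
      Submodule (ZM (St π x)) (Rg (St π x) A.M)) where
  toFun b := ⟨show Rg (St π x) A.M from (show W from b.1).1, (show W from b.1).2,
    congrArg Subtype.val b.2⟩
  invFun b := ⟨show Rg (St π x) W from ⟨show A.M from b.1, b.2.1⟩, Subtype.ext b.2.2⟩
  map_add' _ _ := rfl
  map_smul' _ _ := rfl
  left_inv _ := rfl
  right_inv _ := rfl

theorem quot_part_perf {A B C : Nm T π} {i : NmHom A B} {q : NmHom B C} (h : NEx i q) (x : Pos V)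
    (hA : Perf (ZM (St π x)) (A.part x)) (hB : Perf (ZM (St π x)) (B.part x)) :
    Perf (ZM (St π x)) (C.part x) := by
  obtain ⟨h1, h2, h3⟩ := nex_part h x
  exact Perf.right h1 h2 h3 hA hB

/-! ## The product -/

/-- The parts of a direct sum. -/
noncomputable def prodPart (A B : Nm T π) (x : Pos V) :
    (A.prod B).part x ≃ₗ[ZM (St π x)] A.part x × B.part x where
  toFun m := (⟨show Rg (St π x) A.M from (show A.M × B.M from m.1).1, congrArg Prod.fst m.2⟩,
    ⟨show Rg (St π x) B.M from (show A.M × B.M from m.1).2, congrArg Prod.snd m.2⟩)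
  invFun m := ⟨show Rg (St π x) (A.M × B.M) from (m.1.1, m.2.1), Prod.ext m.1.2 m.2.2⟩
  map_add' _ _ := rfl
  map_smul' _ _ := rfl
  left_inv _ := rfl
  right_inv _ := rfl

theorem prod_part_perf (A B : Nm T π) (x : Pos V)
    (hA : Perf (ZM (St π x)) (A.part x)) (hB : Perf (ZM (St π x)) (B.part x)) :
    Perf (ZM (St π x)) ((A.prod B).part x) :=
  (hA.prod hB).congr (prodPart A B x).symm

/-! ## Orbits -/

theorem Orb.of_inj {A B : Nm T π} (i : NmHom A B) (hi : Function.Injective i.f) {r : ℕ}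
    {x : Fin r → Pos V} (h : Orb B x) : Orb A x := by
  refine ⟨h.1, h.2.1, fun y m hm => h.2.2 y (i.f m) fun h1 => hm (hi ?_)⟩
  rw [i.pr, h1, map_zero]

theorem Orb.of_surj {B C : Nm T π} (q : NmHom B C) (hq : Function.Surjective q.f) {r : ℕ}
    {x : Fin r → Pos V} (h : Orb B x) : Orb C x := by
  refine ⟨h.1, h.2.1, fun y m hm => ?_⟩
  obtain ⟨b, rfl⟩ := hq m
  refine h.2.2 y b fun h1 => hm ?_
  rw [← q.pr, h1, map_zero]

theorem Orb.sub {A : Nm T π} {r : ℕ} {x : Fin r → Pos V} (h : Orb A x)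
    (W : Submodule (ZM N) A.M) (hW : IsGr A W) : Orb (A.sub W hW) x :=
  h.of_inj (A.incl W hW) (A.nex W hW).1

theorem Orb.quot {A : Nm T π} {r : ℕ} {x : Fin r → Pos V} (h : Orb A x)
    (W : Submodule (ZM N) A.M) (hW : IsGr A W) : Orb (A.quot W hW) x :=
  h.of_surj (A.proj W hW) (A.nex W hW).2.1

theorem Orb.prod {A B : Nm T π} {r : ℕ} {x : Fin r → Pos V} (hA : Orb A x) (hB : Orb B x) :
    Orb (A.prod B) x := by
  refine ⟨hA.1, hA.2.1, fun y m hm => ?_⟩
  by_cases h1 : A.pr y m.1 = 0
  · exact hB.2.2 y m.2 fun h2 => hm (Prod.ext h1 h2)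
  · exact hA.2.2 y m.1 h1

theorem Orb.fr {A : Nm T π} {r : ℕ} {x : Fin r → Pos V} (hA : Orb A x) {ι : Type} [Fintype ι]
    [DecidableEq ι] {p : ι → Pos V} {ν : D → Matrix ι ι (ZM N)}
    (h : ∀ i, TreeAct Γ (V i) (T i)) (hp : FrOk T π p ν) (hx : ∀ l, ∃ i, p l = x i) :
    Orb (Fr h hp) x := by
  refine ⟨hA.1, hA.2.1, fun y m hm => ?_⟩
  obtain ⟨l, g, hg⟩ := exists_coeff_ne (v := frPr π p y m) hm
  obtain ⟨i, hi⟩ := hx l
  exact ⟨i, g, by rw [← hi]; exact (frPr_coeff_ne hg).1.symm⟩

/-! ## Submodules generated by submodules of the parts -/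

theorem pr_act (A : Nm T π) (g : N) {x : Pos V} {m : A.M} (hm : A.pr x m = m) :
    A.pr (π g • x) ((MonoidAlgebra.single g (1 : ℤ) : ZM N) • m) =
      (MonoidAlgebra.single g (1 : ℤ) : ZM N) • m := by
  rw [← A.act, hm]

theorem pr_act_ne (A : Nm T π) (g : N) {x y : Pos V} {m : A.M} (hm : A.pr x m = m)
    (hy : y ≠ π g • x) : A.pr y ((MonoidAlgebra.single g (1 : ℤ) : ZM N) • m) = 0 := by
  rw [← pr_act A g hm, A.pr_ne _ _ _ hy]

/-- The submodule generated by submodules of the parts. -/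
noncomputable def gspan (A : Nm T π) {r : ℕ} (x : Fin r → Pos V)
    (W : ∀ i, Submodule (ZM (St π (x i))) (Rg (St π (x i)) A.M)) : Submodule (ZM N) A.M :=
  Submodule.span (ZM N) {m : A.M | ∃ i, (show Rg (St π (x i)) A.M from m) ∈ W i}

variable {A : Nm T π} {r : ℕ} {x : Fin r → Pos V}
  {W : ∀ i, Submodule (ZM (St π (x i))) (Rg (St π (x i)) A.M)}

theorem mem_gspan_of {i : Fin r} {m : A.M} (hm : (show Rg (St π (x i)) A.M from m) ∈ W i) :
    m ∈ gspan A x W := Submodule.subset_span ⟨i, hm⟩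

/-- Induction: it is enough to consider the translates of the elements of the `W i`. -/
theorem gspan_ind {Q : A.M → Prop} (h0 : Q 0) (ha : ∀ a b, Q a → Q b → Q (a + b))
    (hg : ∀ (g : N) i (m : A.M), (show Rg (St π (x i)) A.M from m) ∈ W i →
      Q ((MonoidAlgebra.single g (1 : ℤ) : ZM N) • m)) {m : A.M} (hm : m ∈ gspan A x W) : Q m := by
  let S : AddSubgroup A.M := AddSubgroup.closure
    {m | ∃ (g : N) (i : Fin r) (w : A.M), (show Rg (St π (x i)) A.M from w) ∈ W i ∧
      m = (MonoidAlgebra.single g (1 : ℤ) : ZM N) • w}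
  have hS : ∀ (c : ZM N) (m : A.M), m ∈ S → c • m ∈ S := by
    intro c m hm
    refine smul_mem_of_terms _ fun g _ => ?_
    induction hm using AddSubgroup.closure_induction with
    | mem m hm =>
      obtain ⟨g', i, w, hw, rfl⟩ := hm
      refine AddSubgroup.subset_closure ⟨g * g', i, w, hw, ?_⟩
      rw [smul_smul, MonoidAlgebra.single_mul_single, one_mul]
    | zero => rw [smul_zero]; exact S.zero_mem
    | add a b _ _ ha hb => rw [smul_add]; exact S.add_mem ha hb
    | neg a _ ha => rw [smul_neg]; exact S.neg_mem ha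
  have h1 : m ∈ S := by
    let S' : Submodule (ZM N) A.M :=
      { S with
        smul_mem' := fun c m hm => hS c m hm }
    have h2 : gspan A x W ≤ S' := by
      refine Submodule.span_le.2 ?_
      rintro m ⟨i, hi⟩
      refine AddSubgroup.subset_closure ⟨1, i, m, hi, ?_⟩
      rw [← MonoidAlgebra.one_def, one_smul]
    exact h2 hm
  have h2 : Q m ∧ Q (-m) := by
    clear hm
    induction h1 using AddSubgroup.closure_induction with
    | mem m hm =>
      obtain ⟨g', i, w, hw, rfl⟩ := hm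
      refine ⟨hg g' i w hw, ?_⟩
      rw [← smul_neg]
      exact hg g' i (-w) ((W i).neg_mem hw)
    | zero => rw [neg_zero]; exact ⟨h0, h0⟩
    | add a b _ _ h1 h2 => exact ⟨ha _ _ h1.1 h2.1, by rw [neg_add]; exact ha _ _ h1.2 h2.2⟩
    | neg a _ h1 => exact ⟨h1.2, by rw [neg_neg]; exact h1.1⟩
  exact h2.1

theorem act_mem_gspan (g : N) {m : A.M} (hm : m ∈ gspan A x W) :
    (MonoidAlgebra.single g (1 : ℤ) : ZM N) • m ∈ gspan A x W :=
  (gspan A x W).smul_mem _ hm

/-- The submodule is graded. -/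
theorem gspan_pr (hW : ∀ i, W i ≤ A.part (x i)) (y : Pos V) {m : A.M}
    (hm : m ∈ gspan A x W) : A.pr y m ∈ gspan A x W := by
  refine gspan_ind (Q := fun m => A.pr y m ∈ gspan A x W) ?_ ?_ ?_ hm
  · rw [map_zero]; exact (gspan A x W).zero_mem
  · intro a b ha hb
    rw [map_add]; exact (gspan A x W).add_mem ha hb
  · intro g i m hm
    have h1 : A.pr (x i) m = m := hW i hm
    change A.pr y ((MonoidAlgebra.single g (1 : ℤ) : ZM N) • m) ∈ gspan A x W
    by_cases hy : y = π g • x i
    · rw [hy, pr_act A g h1]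
      exact act_mem_gspan g (mem_gspan_of hm)
    · rw [pr_act_ne A g h1 hy]
      exact (gspan A x W).zero_mem

/-- The parts of the elements of the submodule. -/
theorem gspan_part (hx : ∀ i j (g : N), π g • x i = x j → i = j)
    (hW : ∀ i, W i ≤ A.part (x i)) (i : Fin r) {m : A.M} (hm : m ∈ gspan A x W) :
    (show Rg (St π (x i)) A.M from A.pr (x i) m) ∈ W i := by
  refine gspan_ind (Q := fun m => (show Rg (St π (x i)) A.M from A.pr (x i) m) ∈ W i)
    ?_ ?_ ?_ hm
  · have h1 : A.pr (x i) 0 = 0 := map_zero _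
    rw [h1]; exact (W i).zero_mem
  · intro a b ha hb
    have h1 : A.pr (x i) (a + b) = A.pr (x i) a + A.pr (x i) b := map_add _ _ _
    rw [h1]; exact (W i).add_mem ha hb
  · intro g j m hm
    have h1 : A.pr (x j) m = m := hW j hm
    by_cases hy : x i = π g • x j
    · have h2 : j = i := hx j i g hy.symm
      subst h2
      have h3 : A.pr (x j) ((MonoidAlgebra.single g (1 : ℤ) : ZM N) • m) =
          (MonoidAlgebra.single g (1 : ℤ) : ZM N) • m := by
        have h4 := pr_act A g h1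
        rw [← hy] at h4
        exact h4
      rw [h3]
      have h5 := (W j).smul_mem (MonoidAlgebra.single (⟨g, hy.symm⟩ : St π (x j)) (1 : ℤ)) hm
      rw [rg_smul] at h5
      have h6 : mdh (St π (x j)).subtype
          (MonoidAlgebra.single (⟨g, hy.symm⟩ : St π (x j)) (1 : ℤ)) =
          (MonoidAlgebra.single g (1 : ℤ) : ZM N) := by
        exact mdh_single _ _ _
      rw [h6] at h5
      exact h5
    · rw [pr_act_ne A g h1 hy]
      exact (W i).zero_mem

/-- The part of the submodule at `x i` is `W i`. -/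
theorem rgSub_gspan (hx : ∀ i j (g : N), π g • x i = x j → i = j)
    (hW : ∀ i, W i ≤ A.part (x i)) (i : Fin r) :
    rgSub (St π (x i)) (gspan A x W) ⊓ A.part (x i) = W i := by
  refine le_antisymm ?_ ?_
  · rintro m ⟨h1, h2⟩
    have h3 := gspan_part hx hW i (m := (show A.M from m)) h1
    have h4 : A.pr (x i) (show A.M from m) = (show A.M from m) := h2
    rw [h4] at h3
    exact h3
  · intro m hm
    exact ⟨mem_gspan_of (m := (show A.M from m)) hm, hW i hm⟩

theorem mem_gspan_of_pr {M' : Submodule (ZM N) A.M} {m : A.M} (h : ∀ y, A.pr y m ∈ M') :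
    m ∈ M' := by
  rw [← A.sum m]
  exact finsum_induction (· ∈ M') M'.zero_mem (fun a b ha hb => M'.add_mem ha hb) h

/-- A submodule contains everything if it contains the parts at the `x i`. -/
theorem mem_of_parts (hA : Orb A x) {M' : Submodule (ZM N) A.M}
    (h : ∀ i m, A.pr (x i) m = m → m ∈ M') (m : A.M) : m ∈ M' := by
  refine mem_gspan_of_pr fun y => ?_
  by_cases hy : A.pr y m = 0
  · rw [hy]; exact M'.zero_mem
  obtain ⟨i, g, rfl⟩ := hA.2.2 y m hy
  have h1 : A.pr (π g • x i) m = (MonoidAlgebra.single g (1 : ℤ) : ZM N) •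
      A.pr (x i) ((MonoidAlgebra.single g⁻¹ (1 : ℤ) : ZM N) • m) := by
    rw [A.act, smul_smul, MonoidAlgebra.single_mul_single, mul_inv_cancel, one_mul,
      ← MonoidAlgebra.one_def, one_smul]
  rw [h1]
  exact M'.smul_mem _ (h i _ (A.pr_self _ _))

/-- A graded submodule is generated by its parts at the `x i`. -/
theorem gr_le_of_parts (hA : Orb A x) {M₁ M₂ : Submodule (ZM N) A.M}
    (h₁ : ∀ y, ∀ m ∈ M₁, A.pr y m ∈ M₁)
    (h : ∀ i, ∀ m ∈ M₁, A.pr (x i) m = m → m ∈ M₂) : M₁ ≤ M₂ := by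
  intro m hm
  refine mem_gspan_of_pr fun y => ?_
  by_cases hy : A.pr y m = 0
  · rw [hy]; exact M₂.zero_mem
  obtain ⟨i, g, rfl⟩ := hA.2.2 y m hy
  have h1 : A.pr (π g • x i) m = (MonoidAlgebra.single g (1 : ℤ) : ZM N) •
      A.pr (x i) ((MonoidAlgebra.single g⁻¹ (1 : ℤ) : ZM N) • m) := by
    rw [A.act, smul_smul, MonoidAlgebra.single_mul_single, mul_inv_cancel, one_mul,
      ← MonoidAlgebra.one_def, one_smul]
  rw [h1]
  exact M₂.smul_mem _ (h i _ (h₁ _ _ (M₁.smul_mem _ hm)) (A.pr_self _ _))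

/-- All submodules of the parts and the operators: `gspan` is a graded submodule. -/
theorem gspan_isGr (hW : ∀ i, W i ≤ A.part (x i))
    (hν : ∀ i j (m : A.M), (show Rg (St π (x j)) A.M from m) ∈ W j → A.nu i m ∈ gspan A x W) :
    IsGr A (gspan A x W) := by
  refine ⟨fun y m hm => gspan_pr hW y hm, fun i m hm => ?_⟩
  refine gspan_ind (Q := fun m => A.nu i m ∈ gspan A x W) ?_ ?_ ?_ hm
  · rw [map_zero]; exact (gspan A x W).zero_mem
  · intro a b ha hb
    rw [map_add]; exact (gspan A x W).add_mem ha hb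
  · intro g j m hm
    rw [map_smul]
    exact act_mem_gspan g (hν i j m hm)

/-- The part of the sub nil module generated by the `W i`. -/
noncomputable def gspanPart (hx : ∀ i j (g : N), π g • x i = x j → i = j)
    (hW : ∀ i, W i ≤ A.part (x i)) (hG : IsGr A (gspan A x W)) (i : Fin r) :
    (A.sub (gspan A x W) hG).part (x i) ≃ₗ[ZM (St π (x i))] W i :=
  (subPart A (gspan A x W) hG (x i)).trans (LinearEquiv.ofEq _ _ (rgSub_gspan hx hW i))

end

end Pool.Agent.Lib.MP_551055_al.W17
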