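import Mathlib
import Pool.Agent.Lib.MP_551055_al.Trim.LS.BassProj
import Pool.Agent.Lib.MP_551055_al.Trim.LS.PStmts
import Pool.Agent.Lib.MP_551055_al.Trim.LS.Stmts
import Pool.Agent.Lib.MP_551055_al.Trim.LS.TreeB
import Pool.Agent.Lib.MP_551055_al.Trim.MT.Defs
import Pool.Agent.Lib.MP_551055_al.Trim.MT.Gen
import Pool.Agent.Lib.MP_551055_al.Trim.T4.Ind0
import Pool.Agent.Lib.MP_551055_al.Trim.W17.DefK
import Pool.Agent.Lib.MP_551055_al.Trim.W17.Defs
import Pool.Agent.Lib.MP_551055_al.Trim.W17.KFila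
import Pool.Agent.Lib.MP_551055_al.Trim.W17.KX

/-!
# Trees and products: the graded submodule generated by the images of the operators
-/

set_option autoImplicit false

namespace Pool.Agent.Lib.MP_551055_al
end Pool.Agent.Lib.MP_551055_al

namespace Pool.Agent.Lib.MP_551055_al.LS
end Pool.Agent.Lib.MP_551055_al.LS

namespace Pool.Agent.Lib.MP_551055_al.MT
end Pool.Agent.Lib.MP_551055_al.MT

namespace Pool.Agent.Lib.MP_551055_al.W17

open Pool.Agent.Lib.MP_551055_al

open Pool.Agent.Lib.MP_551055_al.LS (TreeAct ZN)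

open Pool.Agent.Lib.MP_551055_al.MT

open Matrix

/-! ## Oriented edges which point away from a vertex -/

section

variable {V : Type} {T : SimpleGraph V}

/-- The edge `e` points away from `w`. -/
def AwayE (T : SimpleGraph V) (w : V) (e : V × V) : Prop := T.dist w e.1 + 1 = T.dist w e.2

theorem AwayE.next (hT : T.IsTree) {w p q r : V} (hpq : T.Adj p q) (hqr : T.Adj q r)
    (hr : r ≠ p) (h : AwayE T w (p, q)) : AwayE T w (q, r) := by
  change T.dist w p + 1 = T.dist w q at h
  change T.dist w q + 1 = T.dist w r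
  have h1 : T.dist p q = 1 := T.dist_eq_one_iff_adj.2 hpq
  have h2 : T.dist r q = 1 := T.dist_eq_one_iff_adj.2 hqr.symm
  rcases hT.dist_eq_dist_add_one_of_adj w hqr with h3 | h3
  · exfalso
    exact hr (LS.tree_eq_of_dist hT (x := w) (z := q) (by omega) (by omega) (by omega))
  · exact h3.symm

/-- The far end is not on the side of the neighbour `z` of `w`. -/
theorem far_next (hT : T.IsTree) {w z p q r : V} (hwz : T.Adj w z) (hpq : T.Adj p q)
    (hqr : T.Adj q r) (hr : r ≠ p) (h : AwayE T w (p, q)) (hz : ¬T.dist z q < T.dist w q) :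
    ¬T.dist z r < T.dist w r := by
  have h0 := AwayE.next hT hpq hqr hr h
  change T.dist w p + 1 = T.dist w q at h
  change T.dist w q + 1 = T.dist w r at h0
  have h1 : T.dist p q = 1 := T.dist_eq_one_iff_adj.2 hpq
  have h2 : T.dist r q = 1 := T.dist_eq_one_iff_adj.2 hqr.symm
  have h3 : T.dist z w = 1 := T.dist_eq_one_iff_adj.2 hwz.symm
  have h4 : T.dist w z = 1 := T.dist_eq_one_iff_adj.2 hwz
  have h5 := hT.connected.dist_triangle (u := w) (v := z) (w := q)
  have h6 := hT.connected.dist_triangle (u := z) (v := w) (w := p)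
  have h7 := hT.connected.dist_triangle (u := z) (v := p) (w := q)
  have h8 := hT.connected.dist_triangle (u := w) (v := z) (w := r)
  have h9 : T.dist z q ≠ T.dist w q := by
    intro h10
    have h12 : T.dist q w = T.dist w q := T.dist_comm
    have h13 : T.dist q z = T.dist z q := T.dist_comm
    rcases hT.dist_eq_dist_add_one_of_adj q hwz with h11 | h11
    · omega
    · omega
  intro h10
  exact hr (LS.tree_eq_of_dist hT (x := z) (z := q) (by omega) (by omega) (by omega))

end

section

variable {Γ : Type} [Group Γ] {D : Type} {V : D → Type} [∀ i, MulAction Γ (V i)]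
  {T : ∀ i, SimpleGraph (V i)} {N : Type} [Group N] {π : N →* Γ}

/-! ## The vectors killed by all products of `k` operators -/

/-- The vectors killed by all products of `k` operators. -/
noncomputable def klSub (B : Nm T π) : ℕ → Submodule (ZM N) B.M
  | 0 => ⊥
  | k + 1 => ⨅ i, (klSub B k).comap (B.nu i)

theorem mem_klSub (B : Nm T π) : ∀ (k : ℕ) (m : B.M), m ∈ klSub B k ↔ Kl B k m
  | 0, m => Submodule.mem_bot _
  | k + 1, m => by
    change m ∈ ⨅ i, (klSub B k).comap (B.nu i) ↔ ∀ i, Kl B k (B.nu i m)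
    rw [Submodule.mem_iInf]
    exact forall_congr' fun i => mem_klSub B k (B.nu i m)

theorem Kl.zero (B : Nm T π) (k : ℕ) : Kl B k 0 := (mem_klSub B k 0).1 (klSub B k).zero_mem

/-- `Q` is closed under all steps. -/
def FwdCl (T : ∀ i, SimpleGraph (V i)) (Q : Pos V → Prop) : Prop :=
  ∀ j x y, OE T x → Nx T j x y → Q x → Q y

theorem supp_nu (B : Nm T π) {Q : Pos V → Prop} (hQ : FwdCl T Q) {m : B.M}
    (hm : ∀ y, B.pr y m ≠ 0 → Q y) (j : D) : ∀ y, B.pr y (B.nu j m) ≠ 0 → Q y := by
  intro y hy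
  by_contra hn
  refine hy ?_
  rw [B.pr_nu]
  refine finsum_eq_zero_of_forall_eq_zero fun x => ?_
  by_contra h1
  have h2 : B.pr x m ≠ 0 := fun h3 => h1 (by rw [h3, map_zero, map_zero])
  exact hn (hQ j x y (B.oe x m h2) (B.loc j x y m h1) (hm x h2))

theorem prP_add_prP (B : Nm T π) {Q Q' : Pos V → Prop} (hd : ∀ y, Q y → ¬Q' y) {m : B.M}
    (hm : ∀ y, B.pr y m ≠ 0 → Q y ∨ Q' y) : B.prP Q m + B.prP Q' m = m := by
  refine B.ext_pr fun y => ?_
  rw [map_add]
  by_cases h1 : B.pr y m = 0
  · have h2 : ∀ Q : Pos V → Prop, B.pr y (B.prP Q m) = 0 := by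
      intro Q
      by_contra h3
      exact (B.pr_prP_ne h3).2 h1
    rw [h2, h2, h1, add_zero]
  · rcases hm y h1 with h2 | h2
    · rw [B.pr_prP_pos h2, B.pr_prP_neg (hd y h2), add_zero]
    · have h3 : ¬Q y := fun h4 => hd y h4 h2
      rw [B.pr_prP_neg h3, B.pr_prP_pos h2, zero_add]

theorem Kl.prP (B : Nm T π) {Q Q' : Pos V → Prop} (hQ : FwdCl T Q) (hQ' : FwdCl T Q')
    (hd : ∀ y, Q y → ¬Q' y) : ∀ (k : ℕ) (m : B.M), (∀ y, B.pr y m ≠ 0 → Q y ∨ Q' y) →
    Kl B k m → Kl B k (B.prP Q m)
  | 0, m, _, h => by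
    change m = 0 at h
    change B.prP Q m = 0
    rw [h, map_zero]
  | k + 1, m, hm, h => by
    intro j
    have hF : FwdCl T fun y => Q y ∨ Q' y := fun j x y hx hxy h => h.elim
      (fun h => Or.inl (hQ j x y hx hxy h)) fun h => Or.inr (hQ' j x y hx hxy h)
    have h1 := Kl.prP B hQ hQ' hd k (B.nu j m) (supp_nu B hF hm j) (h j)
    have h2 : B.prP Q (B.nu j m) = B.nu j (B.prP Q m) := by
      have h3 : B.nu j m = B.nu j (B.prP Q m) + B.nu j (B.prP Q' m) := by
        rw [← map_add, prP_add_prP B hd hm]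
      have h4 : ∀ y, B.pr y (B.nu j (B.prP Q m)) ≠ 0 → Q y :=
        supp_nu B hQ (fun y hy => (B.pr_prP_ne hy).1) j
      have h5 : ∀ y, B.pr y (B.nu j (B.prP Q' m)) ≠ 0 → Q' y :=
        supp_nu B hQ' (fun y hy => (B.pr_prP_ne hy).1) j
      rw [h3, map_add, B.prP_eq_self h4, B.prP_eq_zero fun y hy h6 => hd y h6 (h5 y hy),
        add_zero]
    rw [h2] at h1
    exact h1

/-- The components of `nu i a` for a homogeneous `a`. -/
theorem Kl.pr_nu (h : ∀ i, TreeAct Γ (V i) (T i)) (B : Nm T π) (k : ℕ) (i : D) {x : Pos V}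
    {a : B.M} (ha : B.pr x a = a) (hk : Kl B (k + 1) a) (y : Pos V) :
    Kl B k (B.pr y (B.nu i a)) := by
  by_cases hy : B.pr y (B.nu i a) = 0
  · rw [hy]; exact Kl.zero B k
  have hT := (h i).tree
  have hloc : ∀ z, B.pr z (B.nu i a) ≠ 0 → Nx T i x z := by
    intro z hz
    rw [← ha] at hz
    exact B.loc i x z a hz
  have hxy := hloc y hy
  obtain ⟨w, hw⟩ : ∃ w, w = (x i).2 := ⟨_, rfl⟩
  obtain ⟨z, hz⟩ : ∃ z, z = (y i).2 := ⟨_, rfl⟩
  have hwz : (T i).Adj w z := by
    rw [hw, hz, ← hxy.2.1]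
    exact hxy.2.2.1
  let Q : Pos V → Prop := fun y => AwayE (T i) w (y i) ∧ (T i).dist z (y i).2 < (T i).dist w (y i).2
  let Q' : Pos V → Prop := fun y =>
    AwayE (T i) w (y i) ∧ ¬(T i).dist z (y i).2 < (T i).dist w (y i).2
  have hA : ∀ j u v, OE T u → Nx T j u v → AwayE (T i) w (u i) → AwayE (T i) w (v i) := by
    intro j u v hu huv hA
    by_cases hj : i = j
    · subst hj
      have h1 := huv.2.2.1
      rw [huv.2.1] at h1
      have h2 := AwayE.next (w := w) hT (hu i) h1 huv.2.2.2 hA
      have h3 : v i = ((u i).2, (v i).2) := Prod.ext huv.2.1 rfl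
      rw [h3]
      exact h2
    · rw [huv.1 i hj]
      exact hA
  have hQ : FwdCl T Q := by
    intro j u v hu huv hq
    refine ⟨hA j u v hu huv hq.1, ?_⟩
    by_cases hj : i = j
    · subst hj
      have h1 := hA i u v hu huv hq.1
      have h2 : (T i).dist w (v i).1 + 1 = (T i).dist w (v i).2 := h1
      have h3 := huv.2.2.1
      rw [huv.2.1] at h2 h3
      have h4 : (T i).dist (u i).2 (v i).2 = 1 := (T i).dist_eq_one_iff_adj.2 h3
      have h5 := hT.connected.dist_triangle (u := z) (v := (u i).2) (w := (v i).2)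
      have h6 := hq.2
      omega
    · rw [huv.1 i hj]
      exact hq.2
  have hQ' : FwdCl T Q' := by
    intro j u v hu huv hq
    refine ⟨hA j u v hu huv hq.1, ?_⟩
    by_cases hj : i = j
    · subst hj
      have h1 := huv.2.2.1
      rw [huv.2.1] at h1
      exact far_next hT hwz (hu i) h1 huv.2.2.2 hq.1 hq.2
    · rw [huv.1 i hj]
      exact hq.2
  have hd : ∀ y, Q y → ¬Q' y := fun y h1 h2 => h2.2 h1.2
  have hsupp : ∀ v, B.pr v (B.nu i a) ≠ 0 → Q v ∨ Q' v := by
    intro v hv
    have h1 := hloc v hv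
    have h2 : AwayE (T i) w (v i) := by
      change (T i).dist w (v i).1 + 1 = (T i).dist w (v i).2
      have h3 := h1.2.2.1
      rw [h1.2.1, ← hw] at h3 ⊢
      rw [(T i).dist_eq_one_iff_adj.2 h3, SimpleGraph.dist_self]
    by_cases h3 : (T i).dist z (v i).2 < (T i).dist w (v i).2
    · exact Or.inl ⟨h2, h3⟩
    · exact Or.inr ⟨h2, h3⟩
  have h1 := Kl.prP B hQ hQ' hd k (B.nu i a) hsupp (hk i)
  have h2 : B.prP Q (B.nu i a) = B.pr y (B.nu i a) := by
    refine B.ext_pr fun v => ?_
    by_cases hvy : v = y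
    · subst hvy
      have h3 : Q v := by
        have h4 := hsupp v hy
        rcases h4 with h4 | h4
        · exact h4
        · exfalso
          refine h4.2 ?_
          rw [← hz, SimpleGraph.dist_self, (T i).dist_eq_one_iff_adj.2 hwz]
          exact Nat.one_pos
      rw [B.pr_prP_pos h3, B.pr_self]
    · rw [B.pr_ne v y _ hvy]
      by_contra h3
      obtain ⟨h4, h5⟩ := B.pr_prP_ne h3
      have h6 := hloc v h5
      refine hvy (funext fun j => ?_)
      by_cases hj : j = i
      · subst hj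
        refine Prod.ext ?_ ?_
        · rw [h6.2.1, hxy.2.1]
        · have h7 := h4.2
          have h8 := h6.2.2.1
          rw [h6.2.1, ← hw] at h8
          rw [(T j).dist_eq_one_iff_adj.2 h8, Nat.lt_one_iff,
            hT.connected.dist_eq_zero_iff] at h7
          rw [← h7, hz]
      · rw [h6.1 j hj, hxy.1 j hj]
  rw [← h2]
  exact h1

/-! ## The graded submodule generated by the images of the operators -/

/-- The graded submodule generated by the images of the operators. -/
noncomputable def nuW (A : Nm T π) : Submodule (ZM N) A.M :=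
  Submodule.span (ZM N) {m | ∃ i y a, m = A.pr y (A.nu i a)}

theorem pr_nu_mem (A : Nm T π) (i : D) (y : Pos V) (a : A.M) : A.pr y (A.nu i a) ∈ nuW A :=
  Submodule.subset_span ⟨i, y, a, rfl⟩

theorem nuW_nu (A : Nm T π) (i : D) (m : A.M) : A.nu i m ∈ nuW A :=
  mem_gspan_of_pr fun y => pr_nu_mem A i y m

/-- The operators `c • ` and the projections, for a submodule generated by homogeneous elements. -/
theorem act_pr (A : Nm T π) (g : N) (y : Pos V) (m : A.M) :
    A.pr y ((MonoidAlgebra.single g (1 : ℤ) : ZM N) • m) =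
      (MonoidAlgebra.single g (1 : ℤ) : ZM N) • A.pr (π g⁻¹ • y) m := by
  rw [A.act, smul_smul, ← map_mul, mul_inv_cancel, map_one, one_smul]

theorem nuW_le (A : Nm T π) {W : Submodule (ZM N) A.M}
    (hW : ∀ i y a, A.pr y (A.nu i a) ∈ W) : nuW A ≤ W := by
  refine Submodule.span_le.2 ?_
  rintro m ⟨i, y, a, rfl⟩
  exact hW i y a

theorem nuW_pr (A : Nm T π) (y : Pos V) {m : A.M} (hm : m ∈ nuW A) : A.pr y m ∈ nuW A := by
  let S : Submodule (ZM N) A.M :=
    { carrier := {m | ∀ y, A.pr y m ∈ nuW A}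
      zero_mem' := fun y => by rw [map_zero]; exact (nuW A).zero_mem
      add_mem' := fun {a b} ha hb y => by rw [map_add]; exact (nuW A).add_mem (ha y) (hb y)
      smul_mem' := fun c m hm y => by
        let S' : AddSubgroup A.M :=
          { carrier := {m | ∀ y, A.pr y m ∈ nuW A}
            zero_mem' := fun y => by rw [map_zero]; exact (nuW A).zero_mem
            add_mem' := fun {a b} ha hb y => by
              rw [map_add]; exact (nuW A).add_mem (ha y) (hb y)
            neg_mem' := fun {a} ha y => by rw [map_neg]; exact (nuW A).neg_mem (ha y) }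
        have h1 : c • m ∈ S' := by
          refine smul_mem_of_terms _ fun g _ y => ?_
          rw [act_pr]
          exact (nuW A).smul_mem _ (hm _)
        exact h1 y }
  have h1 : nuW A ≤ S := by
    refine nuW_le A fun i y a z => ?_
    by_cases hyz : z = y
    · rw [hyz, A.pr_self]
      exact pr_nu_mem A i y a
    · rw [A.pr_ne z y _ hyz]
      exact (nuW A).zero_mem
  exact h1 hm y

theorem nuW_kl (h : ∀ i, TreeAct Γ (V i) (T i)) {A B : Nm T π} (ρ : NmHom A B) (k : ℕ)
    (hk : ∀ m, Kl B (k + 1) (ρ.f m)) : ∀ m ∈ nuW A, Kl B k (ρ.f m) := by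
  have h1 : nuW A ≤ (klSub B k).comap ρ.f := by
    refine nuW_le A fun i y a => ?_
    change ρ.f (A.pr y (A.nu i a)) ∈ klSub B k
    rw [ρ.pr, ρ.nu, B.pr_nu]
    refine finsum_induction (· ∈ klSub B k) (klSub B k).zero_mem
      (fun a b ha hb => (klSub B k).add_mem ha hb) fun x => ?_
    rw [mem_klSub]
    refine Kl.pr_nu h B k i (B.pr_self x _) ?_ y
    rw [← ρ.pr]
    exact hk _
  intro m hm
  exact (mem_klSub B k _).1 (h1 hm)

/-- The parts of the graded submodule are finitely generated. -/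
theorem nuW_fg [Finite D] {A : Nm T π} {r : ℕ} {x : Fin r → Pos V} (hA : Orb A x)
    (hfin : ∀ i, Module.Finite (ZM (St π (x i))) (A.part (x i))) (i : Fin r) :
    (rgSub (St π (x i)) (nuW A) ⊓ A.part (x i)).FG := by
  classical
  have hF : ∀ i, ∃ F : Set A.M, F.Finite ∧
      Submodule.span (ZM (St π (x i))) (show Set (Rg (St π (x i)) A.M) from F) =
        A.part (x i) := by
    intro i
    obtain ⟨F, hF⟩ := Module.Finite.iff_fg.1 (hfin i)
    exact ⟨(F : Set (Rg (St π (x i)) A.M)), F.finite_toSet, hF⟩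
  choose F hFf hFs using hF
  have hγ : ∀ (i : Fin r) (y : Pos V), ∃ g : N, (∃ g' : N, y = π g' • x i) → y = π g • x i := by
    intro i y
    by_cases h1 : ∃ g' : N, y = π g' • x i
    · obtain ⟨g, hg⟩ := h1
      exact ⟨g, fun _ => hg⟩
    · exact ⟨1, fun h2 => absurd h2 h1⟩
  choose γ hγ using hγ
  let E : Fin r → Set A.M := fun i => ⋃ j : D, ⋃ i' : Fin r, ⋃ a ∈ F i',
    (fun y => (MonoidAlgebra.single (γ i y)⁻¹ (1 : ℤ) : ZM N) • A.pr y (A.nu j a)) ''
      {y | A.pr y (A.nu j a) ≠ 0 ∧ ∃ g' : N, y = π g' • x i}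
  have hE : ∀ i, (E i).Finite := by
    intro i
    refine Set.finite_iUnion fun j => Set.finite_iUnion fun i' => (hFf i').biUnion fun a _ => ?_
    exact ((A.fin (A.nu j a)).subset fun y hy => hy.1).image _
  have hEp : ∀ i, ∀ m ∈ E i, A.pr (x i) m = m ∧ m ∈ nuW A := by
    intro i m hm
    simp only [E, Set.mem_iUnion] at hm
    obtain ⟨j, i', a, _, y, ⟨_, hy⟩, rfl⟩ := hm
    have h1 := hγ i y hy
    refine ⟨?_, (nuW A).smul_mem _ (pr_nu_mem A j y a)⟩
    have h2 := A.act (γ i y)⁻¹ y (A.pr y (A.nu j a))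
    have h3 : π (γ i y)⁻¹ • y = x i := by
      have h4 : π (γ i y)⁻¹ • (π (γ i y) • x i) = x i := by
        rw [smul_smul, ← map_mul, inv_mul_cancel, map_one, one_smul]
      rwa [← h1] at h4
    rw [A.pr_self, h3] at h2
    exact h2.symm
  let W' : ∀ i, Submodule (ZM (St π (x i))) (Rg (St π (x i)) A.M) := fun i =>
    Submodule.span _ (show Set (Rg (St π (x i)) A.M) from E i)
  have hW'1 : ∀ i, W' i ≤ rgSub (St π (x i)) (nuW A) ⊓ A.part (x i) := by
    intro i
    refine Submodule.span_le.2 fun m hm => ?_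
    exact ⟨(hEp i m hm).2, (hEp i m hm).1⟩
  have hW'2 : ∀ i, W' i ≤ A.part (x i) := fun i => (hW'1 i).trans inf_le_right
  have hG : nuW A ≤ gspan A x W' := by
    refine nuW_le A ?_
    have h1 : ∀ m, ∀ j y, A.pr y (A.nu j m) ∈ gspan A x W' := by
      let S' : AddSubgroup A.M :=
        { carrier := {m | ∀ j y, A.pr y (A.nu j m) ∈ gspan A x W'}
          zero_mem' := fun j y => by
            rw [map_zero, map_zero]; exact (gspan A x W').zero_mem
          add_mem' := fun {a b} ha hb j y => by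
            rw [map_add, map_add]; exact (gspan A x W').add_mem (ha j y) (hb j y)
          neg_mem' := fun {a} ha j y => by
            rw [map_neg, map_neg]; exact (gspan A x W').neg_mem (ha j y) }
      let S : Submodule (ZM N) A.M :=
        { S' with
          smul_mem' := fun c m hm => by
            change c • m ∈ S'
            refine smul_mem_of_terms _ fun g _ j y => ?_
            rw [map_smul, act_pr]
            exact (gspan A x W').smul_mem _ (hm j _) }
      have h2 : ∀ m, m ∈ S := by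
        refine mem_of_parts hA fun i m hm => ?_
        have h3 : (show Rg (St π (x i)) A.M from m) ∈ A.part (x i) := hm
        rw [← hFs i] at h3
        have h4 : Submodule.span (ZM (St π (x i))) (show Set (Rg (St π (x i)) A.M) from F i) ≤
            rgSub (St π (x i)) S := by
          refine Submodule.span_le.2 fun a ha => ?_
          change ∀ j y, A.pr y (A.nu j (show A.M from a)) ∈ gspan A x W'
          intro j y
          by_cases hy : A.pr y (A.nu j (show A.M from a)) = 0
          · rw [hy]; exact (gspan A x W').zero_mem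
          obtain ⟨i', g, hg⟩ := hA.2.2 y _ hy
          have h5 : y = π (γ i' y) • x i' := hγ i' y ⟨g, hg⟩
          have h6 : (MonoidAlgebra.single (γ i' y)⁻¹ (1 : ℤ) : ZM N) •
              A.pr y (A.nu j (show A.M from a)) ∈ E i' := by
            simp only [E, Set.mem_iUnion]
            exact ⟨j, i, show A.M from a, ha, y, ⟨hy, g, hg⟩, rfl⟩
          have h7 : (MonoidAlgebra.single (γ i' y)⁻¹ (1 : ℤ) : ZM N) •
              A.pr y (A.nu j (show A.M from a)) ∈ gspan A x W' :=
            mem_gspan_of (i := i') (Submodule.subset_span h6)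
          have h8 := (gspan A x W').smul_mem (MonoidAlgebra.single (γ i' y) (1 : ℤ)) h7
          rw [smul_smul, MonoidAlgebra.single_mul_single, mul_inv_cancel, one_mul,
            ← MonoidAlgebra.one_def, one_smul] at h8
          exact h8
        exact h4 h3
      exact fun m => h2 m
    exact fun i y a => h1 a i y
  have h3 : rgSub (St π (x i)) (nuW A) ⊓ A.part (x i) = W' i := by
    refine le_antisymm ?_ (hW'1 i)
    rw [← rgSub_gspan hA.1 hW'2 i]
    exact inf_le_inf_right _ fun m hm => hG hm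
  rw [h3]
  exact Submodule.fg_span (hE i)

end

end Pool.Agent.Lib.MP_551055_al.W17
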