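import Mathlib
import Pool.Agent.Lib.MP_551055_al.Trim.LS.BassProj
import Pool.Agent.Lib.MP_551055_al.Trim.LS.PStmts
import Pool.Agent.Lib.MP_551055_al.Trim.LS.Ray
import Pool.Agent.Lib.MP_551055_al.Trim.LS.Stmts
import Pool.Agent.Lib.MP_551055_al.Trim.MT.Defs
import Pool.Agent.Lib.MP_551055_al.Trim.MT.Map
import Pool.Agent.Lib.MP_551055_al.Trim.T4.Ind0
import Pool.Agent.Lib.MP_551055_al.Trim.T4.Perf
import Pool.Agent.Lib.MP_551055_al.Trim.T4.TwoClo
import Pool.Agent.Lib.MP_551055_al.Trim.T6.Lps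
import Pool.Agent.Lib.MP_551055_al.Trim.T6.Nil
import Pool.Agent.Lib.MP_551055_al.Trim.W17.DefK
import Pool.Agent.Lib.MP_551055_al.Trim.W17.Defs
import Pool.Agent.Lib.MP_551055_al.Trim.W17.FrPart
import Pool.Agent.Lib.MP_551055_al.Trim.W17.KFila
import Pool.Agent.Lib.MP_551055_al.Trim.W17.KFilb
import Pool.Agent.Lib.MP_551055_al.Trim.W17.KT
import Pool.Agent.Lib.MP_551055_al.Trim.W17.StK

/-!
# Trees and products: one step of the filtration of a nil module
-/

set_option autoImplicit false

namespace Pool.Agent.Lib.MP_551055_al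
end Pool.Agent.Lib.MP_551055_al

namespace Pool.Agent.Lib.MP_551055_al.LS
end Pool.Agent.Lib.MP_551055_al.LS

namespace Pool.Agent.Lib.MP_551055_al.MT
end Pool.Agent.Lib.MP_551055_al.MT

namespace Pool.Agent.Lib.MP_551055_al.T4
end Pool.Agent.Lib.MP_551055_al.T4

namespace Pool.Agent.Lib.MP_551055_al.T6
end Pool.Agent.Lib.MP_551055_al.T6

namespace Pool.Agent.Lib.MP_551055_al.W17

open Pool.Agent.Lib.MP_551055_al

open Pool.Agent.Lib.MP_551055_al.LS (TreeAct ZN)

open Pool.Agent.Lib.MP_551055_al.MT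

open Pool.Agent.Lib.MP_551055_al.T4 (Perf chi1 chi1_smul)

open Pool.Agent.Lib.MP_551055_al.T6 (LPS chi1_eq_zero)

open Matrix

section

variable {Γ : Type} [Group Γ] {D : Type} {V : D → Type} [∀ i, MulAction Γ (V i)]
  {T : ∀ i, SimpleGraph (V i)} {N : Type} [Group N] {π : N →* Γ}

/-! ## Products of operators -/

/-- The product of the operators of a word. -/
noncomputable def nuWd (B : Nm T π) : (k : ℕ) → (Fin k → D) → (B.M →ₗ[ZM N] B.M)
  | 0, _ => LinearMap.id
  | k + 1, w => nuWd B k (Fin.tail w) ∘ₗ B.nu (w 0)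

theorem kl_iff_nuWd (B : Nm T π) : ∀ (k : ℕ) (m : B.M), Kl B k m ↔ ∀ w, nuWd B k w m = 0
  | 0, m => ⟨fun h _ => h, fun h => h Fin.elim0⟩
  | k + 1, m => by
    constructor
    · intro h w
      exact (kl_iff_nuWd B k (B.nu (w 0) m)).1 (h (w 0)) (Fin.tail w)
    · intro h i
      rw [kl_iff_nuWd B k]
      intro w
      exact h (Fin.cons (α := fun _ => D) i w)

variable {ι : Type} [Fintype ι] [DecidableEq ι] {p : ι → Pos V} {ν : D → Matrix ι ι (ZM N)}

/-- The coordinates of all products of `k` operators, over the group ring of a subgroup. -/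
noncomputable def psiK (h : ∀ i, TreeAct Γ (V i) (T i)) (hp : FrOk T π p ν) (k : ℕ) {A : Nm T π}
    (ρ : NmHom A (Fr h hp)) (x : Pos V) :
    A.part x →ₗ[ZM (St π x)] ((Fin k → D) → ι →
      (Quotient (QuotientGroup.rightRel (St π x).subtype.range) →₀ ZM (St π x))) where
  toFun m := fun w l => chi1 (St π x).subtype Subtype.val_injective
    ((show ι → ZM N from nuWd (Fr h hp) k w (ρ.f (show A.M from m.1))) l)
  map_add' a b := by
    funext w l
    have h1 : ρ.f (show A.M from (a + b).1) = ρ.f (show A.M from a.1) + ρ.f (show A.M from b.1) :=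
      map_add ρ.f _ _
    rw [h1, map_add]
    exact map_add _ _ _
  map_smul' c a := by
    funext w l
    have h1 : ρ.f (show A.M from (c • a).1) =
        mdh (St π x).subtype c • ρ.f (show A.M from a.1) := map_smul ρ.f _ _
    rw [h1, map_smul]
    exact chi1_smul (St π x).subtype Subtype.val_injective c _

theorem psiK_eq_zero (h : ∀ i, TreeAct Γ (V i) (T i)) (hp : FrOk T π p ν) (k : ℕ) {A : Nm T π}
    (ρ : NmHom A (Fr h hp)) (x : Pos V) (m : A.part x) :
    psiK h hp k ρ x m = 0 ↔ Kl (Fr h hp) k (ρ.f (show A.M from m.1)) := by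
  rw [kl_iff_nuWd]
  constructor
  · intro h1 w
    funext l
    exact chi1_eq_zero (St π x).subtype Subtype.val_injective (congrFun (congrFun h1 w) l)
  · intro h1
    funext w l
    change chi1 (St π x).subtype Subtype.val_injective
      ((show ι → ZM N from nuWd (Fr h hp) k w (ρ.f (show A.M from m.1))) l) = 0
    rw [h1 w]
    exact map_zero _

end

/-- Module KFil. -/
theorem stKFil : StKFil := by
  intro Γ _ D _ _ V _ T h N _ π ι _ _ p ν hp k A ρ h0 hk r x hA hperf hLPS
  classical
  have hfin : ∀ i, Module.Finite (ZM (St π (x i))) (A.part (x i)) := fun i => (hperf i).finite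
  -- finitely generated parts of the graded hull of the images
  have hs : ∀ i, ∃ s : Finset (A.part (x i)), Submodule.span (ZM (St π (x i))) (s : Set _) =
      (rgSub (St π (x i)) (nuW A)).comap (A.part (x i)).subtype := by
    intro i
    have h1 := nuW_fg hA hfin i
    have h2 : ((rgSub (St π (x i)) (nuW A)).comap (A.part (x i)).subtype).FG := by
      refine Submodule.fg_of_fg_map_injective (A.part (x i)).subtype Subtype.val_injective ?_
      rw [Submodule.map_comap_eq, Submodule.range_subtype, inf_comm]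
      exact h1
    exact h2
  choose s hs using hs
  have hws : ∀ i, ∀ a ∈ s i, (show A.M from a.1) ∈ nuW A := by
    intro i a ha
    have h1 : a ∈ Submodule.span (ZM (St π (x i))) (s i : Set _) := Submodule.subset_span ha
    rw [hs i] at h1
    exact h1
  -- the perfect submodules
  have hV : ∀ i, ∃ (l : ℕ) (W : Submodule (ZM (St π (x i)))
      (A.part (x i) × (Fin l → ZM (St π (x i))))),
      (∀ y ∈ W, psiK h hp k ρ (x i) y.1 = 0) ∧
      (∀ a ∈ s i, ((a, 0) : A.part (x i) × (Fin l → ZM (St π (x i)))) ∈ W) ∧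
      Perf (ZM (St π (x i))) W := by
    intro i
    refine (hLPS i).ker (hperf i) (psiK h hp k ρ (x i)) (s i) fun a ha => ?_
    rw [psiK_eq_zero]
    exact nuW_kl h ρ k hk _ (hws i a ha)
  choose l W hW1 hW2 hW3 using hV
  have hWW : ∀ i (a : A.part (x i)), (show A.M from a.1) ∈ nuW A →
      ((a, 0) : A.part (x i) × (Fin (l i) → ZM (St π (x i)))) ∈ W i := by
    intro i a ha
    have h1 : Submodule.span (ZM (St π (x i))) (s i : Set _) ≤
        (W i).comap (LinearMap.inl _ (A.part (x i)) (Fin (l i) → ZM (St π (x i)))) :=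
      Submodule.span_le.2 fun b hb => hW2 i b hb
    rw [hs i] at h1
    exact h1 ha
  -- the free nil module
  let ι' : Type := Σ i : Fin r, Fin (l i)
  let p' : ι' → Pos V := fun a => x a.1
  have hp' : FrOk T π p' fun _ => (0 : Matrix ι' ι' (ZM N)) :=
    { oe := fun a => hA.2.1 a.1
      comm := fun _ _ => rfl
      loc := fun i a b m hm => absurd rfl hm
      nil := fun i => ⟨1, by rw [pow_one]⟩ }
  have e0 : ∀ i, Nonempty ((Fin (l i) → ZM (St π (x i))) ≃ₗ[ZM (St π (x i))]
      (Fr h hp').part (x i)) := by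
    intro i
    obtain ⟨e⟩ := frPart_free h hp' (x i)
    let f : Fin (l i) ≃ {a : ι' // ∃ m : N, π m • p' a = x i} :=
      { toFun := fun b => ⟨⟨i, b⟩, 1, by rw [map_one, one_smul]⟩
        invFun := fun a => a.1.2.cast (by
          obtain ⟨m, hm⟩ := a.2
          rw [hA.1 a.1.1 i m hm])
        left_inv := fun b => rfl
        right_inv := by
          rintro ⟨⟨j, b⟩, m, hm⟩
          have h1 : j = i := hA.1 j i m hm
          subst h1
          rfl }
    exact ⟨(LinearEquiv.funCongrLeft (ZM (St π (x i))) (ZM (St π (x i))) f.symm).trans e⟩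
  have e := fun i => (e0 i).some
  let P : Nm T π := A.prod (Fr h hp')
  let E : ∀ i, (A.part (x i) × (Fin (l i) → ZM (St π (x i)))) ≃ₗ[ZM (St π (x i))]
      P.part (x i) := fun i =>
    (LinearEquiv.prodCongr (LinearEquiv.refl _ _) (e i)).trans (prodPart A (Fr h hp') (x i)).symm
  have hE1 : ∀ i y, (show A.M × (ι' → ZM N) from (E i y).1).1 = (show A.M from y.1.1) :=
    fun _ _ => rfl
  let F : ∀ i, (A.part (x i) × (Fin (l i) → ZM (St π (x i)))) →ₗ[ZM (St π (x i))]
      Rg (St π (x i)) P.M := fun i => (P.part (x i)).subtype ∘ₗ (E i).toLinearMap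
  have hFi : ∀ i, Function.Injective (F i) := fun i =>
    Subtype.val_injective.comp (E i).injective
  let W' : ∀ i, Submodule (ZM (St π (x i))) (Rg (St π (x i)) P.M) := fun i => (W i).map (F i)
  have hW'p : ∀ i, W' i ≤ P.part (x i) := by
    rintro i _ ⟨y, _, rfl⟩
    exact (E i y).2
  have hzero : ∀ m ∈ nuW A, ((m, 0) : A.M × (ι' → ZM N)) ∈ gspan P x W' := by
    have h1 : nuW A ≤ (gspan P x W').comap (LinearMap.inl (ZM N) A.M (ι' → ZM N)) := by
      refine gr_le_of_parts hA (fun y m hm => nuW_pr A y hm) fun i m hm hmx => ?_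
      change ((m, 0) : A.M × (ι' → ZM N)) ∈ gspan P x W'
      refine mem_gspan_of (A := P) (i := i) ?_
      let a : A.part (x i) := ⟨show Rg (St π (x i)) A.M from m, hmx⟩
      refine ⟨(a, 0), hWW i a hm, ?_⟩
      refine Prod.ext rfl ?_
      have h2 : e i (0 : Fin (l i) → ZM (St π (x i))) = 0 := map_zero _
      exact congrArg Subtype.val h2
    exact fun m hm => h1 hm
  have hnu : ∀ i (m : P.M), P.nu i m = (A.nu i (show A.M × (ι' → ZM N) from m).1, 0) := by
    intro i m
    refine Prod.ext rfl ?_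
    exact Matrix.vecMul_zero _
  have hnuG : ∀ i (m : P.M), P.nu i m ∈ gspan P x W' := by
    intro i m
    rw [hnu]
    exact hzero _ (nuW_nu A i _)
  have hG : IsGr P (gspan P x W') := gspan_isGr hW'p fun i j m _ => hnuG i m
  have hY : Orb (Fr h hp') x := hA.fr h hp' fun a => ⟨a.1, rfl⟩
  have hPx : Orb P x := hA.prod hY
  have hBp : ∀ i, Perf (ZM (St π (x i))) ((P.sub _ hG).part (x i)) := by
    intro i
    have h1 : W i ≃ₗ[ZM (St π (x i))] W' i := Submodule.equivMapOfInjective (F i) (hFi i) (W i)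
    exact (hW3 i).congr (h1.trans (gspanPart hA.1 hW'p hG i).symm)
  have hPp : ∀ i, Perf (ZM (St π (x i))) (P.part (x i)) := fun i =>
    prod_part_perf A (Fr h hp') (x i) (hperf i) (frPart_perf h hp' (x i))
  refine ⟨ι', inferInstance, inferInstance, p', hp', P.sub _ hG, P.quot _ hG, P.incl _ hG,
    P.proj _ hG, P.nex _ hG, ?_, hPx.sub _ hG, hPx.quot _ hG, hY, hBp, ?_,
    fun i => frPart_perf h hp' (x i), ?_, ?_⟩
  · intro i m
    obtain ⟨m, rfl⟩ := (gspan P x W').mkQ_surjective m
    exact (Submodule.Quotient.mk_eq_zero _).2 (hnuG i m)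
  · exact fun i => quot_part_perf (P.nex _ hG) (x i) (hBp i) (hPp i)
  · have h1 : gspan P x W' ≤ (klSub (Fr h hp) k).comap (ρ.f ∘ₗ LinearMap.fst (ZM N) A.M
        (ι' → ZM N)) := by
      refine Submodule.span_le.2 ?_
      rintro m ⟨i, y, hy, hym⟩
      change ρ.f (show A.M × (ι' → ZM N) from m).1 ∈ klSub (Fr h hp) k
      rw [mem_klSub]
      have h2 := (psiK_eq_zero h hp k ρ (x i) y.1).1 (hW1 i y hy)
      have h3 : (show A.M × (ι' → ZM N) from m).1 = (show A.M from y.1.1) :=
        (congrArg (fun z : Rg (St π (x i)) P.M => (show A.M × (ι' → ZM N) from z).1)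
          hym).symm
      rw [h3]
      exact h2
    intro b
    exact (mem_klSub _ _ _).1 (h1 b.2)
  · intro b hb i
    refine Subtype.ext ?_
    change P.nu i b.1 = 0
    have h1 : A.nu i (show A.M × (ι' → ZM N) from b.1).1 = 0 := h0 _ hb i
    exact (hnu i b.1).trans (Prod.ext h1 rfl)

end Pool.Agent.Lib.MP_551055_al.W17
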