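import Mathlib
import Pool.Agent.Lib.MP_551055_al.Trim.LS.PStmts
import Pool.Agent.Lib.MP_551055_al.Trim.LS.Stmts
import Pool.Agent.Lib.MP_551055_al.Trim.MT.Base
import Pool.Agent.Lib.MP_551055_al.Trim.MT.Defs
import Pool.Agent.Lib.MP_551055_al.Trim.MT.Gen
import Pool.Agent.Lib.MP_551055_al.Trim.MT.Map
import Pool.Agent.Lib.MP_551055_al.Trim.MT.PF
import Pool.Agent.Lib.MP_551055_al.Trim.MT.StA
import Pool.Agent.Lib.MP_551055_al.Trim.MT.StB
import Pool.Agent.Lib.MP_551055_al.Trim.MT.Tg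
import Pool.Agent.Lib.MP_551055_al.Trim.MT.Trees
import Pool.Agent.Lib.MP_551055_al.Trim.T4.Mods
import Pool.Agent.Lib.MP_551055_al.Trim.T6.Lps
import Pool.Agent.Lib.MP_551055_al.Trim.VNDefs
import Pool.Agent.Lib.MP_551055_al.Trim.W17.DefK
import Pool.Agent.Lib.MP_551055_al.Trim.W17.Defs
import Pool.Agent.Lib.MP_551055_al.Trim.W17.KT
import Pool.Agent.Lib.MP_551055_al.Trim.W17.StK

/-!
# Trees and products: module KIdem (homotopy idempotents on acyclic complexes split)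
-/

set_option autoImplicit false

namespace Pool.Agent.Lib.MP_551055_al
end Pool.Agent.Lib.MP_551055_al

namespace Pool.Agent.Lib.MP_551055_al.LS
end Pool.Agent.Lib.MP_551055_al.LS

namespace Pool.Agent.Lib.MP_551055_al.MT
end Pool.Agent.Lib.MP_551055_al.MT

namespace Pool.Agent.Lib.MP_551055_al.W17

open Pool.Agent.Lib.MP_551055_al

open Pool.Agent.Lib.MP_551055_al.LS (TreeAct ZN)

open Pool.Agent.Lib.MP_551055_al.MT

open Matrix

theorem stKIdem (hAll : StKAll) (hCc : StCc) (hTel : StTel) (hK1 : StK1) (hLift : StLift) :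
    StKIdem := by
  classical
  intro Γ _ D _ _ V _ T h N _ π hsf hlps K e hK hcel he hnul
  obtain ⟨C, eC, hsz, hC, heC, hcon, hiso⟩ := hCc Γ D (SP h) N π Finset.univ Finset.univ K e hK he
    fun i _ => hnul i
  have hacy : Acy h π C := ⟨hC, fun l i hi => by
    obtain ⟨k, hk⟩ := hsz l
    rw [hk]
    exact hcel k i hi, fun i => hcon i (Finset.mem_univ i)⟩
  have hT := hTel Γ D (SP h) N π Finset.univ C C.sz eC hC hC (fun _ _ _ => le_refl _) heC.1.1
    heC.1.2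
  have hT1 := hT.1
  have hi := hK1 Γ D (SP h) N π Finset.univ C C.sz eC hC (fun _ _ _ => rfl) heC hT1
  obtain ⟨u, v, r, s, hu, hv, hr, -, hud, hvd, -, huv⟩ := id hi
  obtain ⟨n₀, hn₀⟩ : ∃ n₀ : ℤ, ∀ l, n₀ ≤ C.deg l := by
    obtain ⟨b, hb⟩ := (Set.finite_range C.deg).bddBelow
    exact ⟨b, fun l => hb ⟨l, rfl⟩⟩
  obtain ⟨Q, g, hQc, hQ, hg, hI, hS⟩ := hAll Γ D V T h N π hsf hlps _ C n₀ hacy
    ⟨u, v, r, hu, hv, hr, hud, hvd, huv, fun l hl => absurd (hn₀ l) (not_le.2 hl)⟩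
  have h1 := PFAux.iso_of_isoL hLift _ hC hQ hi hg hI hS
  exact ⟨Q, hQc, hQ, hiso.trans he HI.one h1⟩

end Pool.Agent.Lib.MP_551055_al.W17
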