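import Mathlib
import Pool.Agent.Lib.MP_551055_al.Trim.LS.PStmts
import Pool.Agent.Lib.MP_551055_al.Trim.LS.Stmts
import Pool.Agent.Lib.MP_551055_al.Trim.MT.Defs
import Pool.Agent.Lib.MP_551055_al.Trim.MT.Gen
import Pool.Agent.Lib.MP_551055_al.Trim.MT.Trees
import Pool.Agent.Lib.MP_551055_al.Trim.T4.Ind0
import Pool.Agent.Lib.MP_551055_al.Trim.W17.KT
import Pool.Agent.Lib.MP_551055_al.Trim.W17.StK

/-!
# Trees and products: module KIn (retracts of acyclic complexes)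
-/

set_option autoImplicit false

namespace Pool.Agent.Lib.MP_551055_al
end Pool.Agent.Lib.MP_551055_al

namespace Pool.Agent.Lib.MP_551055_al.LS
end Pool.Agent.Lib.MP_551055_al.LS

namespace Pool.Agent.Lib.MP_551055_al.MT
end Pool.Agent.Lib.MP_551055_al.MT

namespace Pool.Agent.Lib.MP_551055_al.W17

open Pool.Agent.Lib.MP_551055_al

open Pool.Agent.Lib.MP_551055_al.LS (TreeAct ZN)

open Pool.Agent.Lib.MP_551055_al.MT

open Matrix

/-- Module KIn. -/
theorem stKIn (hF2 : StFlow2) (hSA1 : StSA1) : StKIn := by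
  intro Γ _ D _ _ V _ T h N _ π S M n₀ hM hR i q
  obtain ⟨u, v, r, hu, hv, hr, hud, hvd, huv, -⟩ := hR
  have hin := (hSA1 Γ D V T h N π M i hM.cx (hM.con i) q).2
  have hvB : ∀ B, ∀ y ∈ S.Bc q B, v y ∈ BC π Finset.univ M q B := by
    rintro B _ ⟨y, hy, rfl⟩
    exact ⟨v y, hv B _ y hy, (hvd y).symm⟩
  have huB : ∀ B, ∀ x ∈ BC π Finset.univ M q B, u x ∈ S.Bc q B := by
    rintro B _ ⟨y, hy, rfl⟩
    exact ⟨u y, hu B _ y hy, (hud y).symm⟩
  intro B y hy hyZ hyB a b hab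
  obtain ⟨h1, h2⟩ := (hF2 (V i) (T i) S.V).2.2.1 (M.ι → ZM N) v.toAddMonoidHom y hy
  have h3 := hin B (fun a b => v (y a b)) h1 (fun a b hab => by
    obtain ⟨h4, h5⟩ := hyZ a b hab
    exact ⟨hv _ _ _ h4, by rw [← hvd, h5, map_zero]⟩) (fun w => by
    have h6 : bd (fun a b => v (y a b)) w = v (bd y w) := h2 w
    rw [h6]
    exact hvB _ _ (hyB w)) a b hab
  obtain ⟨h4, h5⟩ := hyZ a b hab
  have h7 := huv (y a b)
  rw [h5, map_zero, add_zero] at h7
  have h8 : y a b = u (v (y a b)) - S.d (r (y a b)) := by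
    rw [h7, add_sub_cancel_right]
  rw [h8]
  exact AddSubgroup.sub_mem _ (huB _ _ h3) ⟨r (y a b), hr _ _ _ h4, rfl⟩

end Pool.Agent.Lib.MP_551055_al.W17
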