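import Mathlib
import Pool.Agent.Lib.MP_551055_al.Trim.LS.BassProj
import Pool.Agent.Lib.MP_551055_al.Trim.LS.PStmts
import Pool.Agent.Lib.MP_551055_al.Trim.LS.Ray
import Pool.Agent.Lib.MP_551055_al.Trim.LS.Stmts
import Pool.Agent.Lib.MP_551055_al.Trim.MT.Base
import Pool.Agent.Lib.MP_551055_al.Trim.MT.Defs
import Pool.Agent.Lib.MP_551055_al.Trim.MT.Gen
import Pool.Agent.Lib.MP_551055_al.Trim.MT.Map
import Pool.Agent.Lib.MP_551055_al.Trim.MT.StB
import Pool.Agent.Lib.MP_551055_al.Trim.MT.Tg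
import Pool.Agent.Lib.MP_551055_al.Trim.MT.Trees
import Pool.Agent.Lib.MP_551055_al.Trim.T4.Ind0
import Pool.Agent.Lib.MP_551055_al.Trim.T4.Perf
import Pool.Agent.Lib.MP_551055_al.Trim.W17.DefK
import Pool.Agent.Lib.MP_551055_al.Trim.W17.Defs
import Pool.Agent.Lib.MP_551055_al.Trim.W17.FrA
import Pool.Agent.Lib.MP_551055_al.Trim.W17.KT
import Pool.Agent.Lib.MP_551055_al.Trim.W17.KTa
import Pool.Agent.Lib.MP_551055_al.Trim.W17.StK

/-!
# Trees and products: the parts of the nil submodule are projective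
-/

set_option autoImplicit false

namespace Pool.Agent.Lib.MP_551055_al
end Pool.Agent.Lib.MP_551055_al

namespace Pool.Agent.Lib.MP_551055_al.LS
end Pool.Agent.Lib.MP_551055_al.LS

namespace Pool.Agent.Lib.MP_551055_al.MT
end Pool.Agent.Lib.MP_551055_al.MT

namespace Pool.Agent.Lib.MP_551055_al.T4
end Pool.Agent.Lib.MP_551055_al.T4

namespace Pool.Agent.Lib.MP_551055_al.W17

open Pool.Agent.Lib.MP_551055_al

open Pool.Agent.Lib.MP_551055_al.LS (TreeAct ZN)

open Pool.Agent.Lib.MP_551055_al.MT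

open Pool.Agent.Lib.MP_551055_al.T4 (Perf)

open Matrix

/-! ## The stabiliser of a position and the stabiliser of the box of its edges -/

section

variable {Γ : Type} [Group Γ] {D : Type} {V : D → Type} [∀ i, MulAction Γ (V i)]
  {T : ∀ i, SimpleGraph (V i)} (h : ∀ i, TreeAct Γ (V i) (T i)) {N : Type} [Group N]
  {π : N →* Γ}

/-- The box of the edges of a position. -/
noncomputable def eBox (x : Pos V) : Sz (SP h) := fun i => edg (h i) (x i).1 (x i).2

theorem sx_empty [LinearOrder D] (x : Pos V) : sx h x ∅ = eBox h x := by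
  funext i
  exact if_neg (Finset.notMem_empty i)

theorem not_edg_le_vtx {V : Type} [MulAction Γ V] {T : SimpleGraph V} (h : TreeAct Γ V T)
    {u w v : V} (huw : T.Adj u w) : ¬edg h u w ≤ vtx h v := by
  intro hle
  obtain ⟨h1, h2⟩ := (edg_le h huw).1 hle
  rw [vtx_set, Set.mem_singleton_iff] at h1 h2
  exact huw.ne (h1.trans h2.symm)

theorem smul_eBox {x : Pos V} (hx : OE T x) (γ : Γ) : γ • eBox h x = eBox h (γ • x) := by
  funext i
  exact smul_edg (h i) γ (hx i)

/-- No inversions. -/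
theorem eBox_stab {x : Pos V} (hx : OE T x) (g : N) :
    g ∈ stabM π (eBox h x) ↔ g ∈ St π x := by
  constructor
  · intro hg
    change π g • x = x
    change π g • eBox h x = eBox h x at hg
    rw [smul_eBox h hx] at hg
    funext i
    have h1 := congrFun hg i
    have h2 : (edg (h i) (π g • (x i).1) (π g • (x i).2)).set
        = (edg (h i) (x i).1 (x i).2).set := congrArg Sub.set h1
    rw [edg_set (h i) ((h i).adj _ _ _ (hx i)), edg_set (h i) (hx i)] at h2
    have h3 : π g • (x i).1 ∈ ({(x i).1, (x i).2} : Set (V i)) := by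
      rw [← h2]
      exact Or.inl rfl
    have h4 : π g • (x i).2 ∈ ({(x i).1, (x i).2} : Set (V i)) := by
      rw [← h2]
      exact Or.inr rfl
    have h5 : π g • (x i).1 ≠ π g • (x i).2 := ((h i).adj _ _ _ (hx i)).ne
    rcases h3 with h3 | h3 <;> rcases h4 with h4 | h4
    · exact absurd (h3.trans h4.symm) h5
    · exact Prod.ext h3 h4
    · exact absurd h4 ((h i).inv _ _ _ (hx i) h3)
    · exact absurd (h3.trans h4.symm) h5
  · intro hg
    change π g • eBox h x = eBox h x
    have h1 : π g • x = x := hg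
    rw [smul_eBox h hx, h1]

end

/-- Equal sets of elements give isomorphic rings. -/
theorem exists_ringEquiv {N : Type} [Group N] (S : Subgroup N) (S' : Submonoid N)
    (hS : ∀ g, g ∈ S' ↔ g ∈ S) :
    ∃ σ : ZM S ≃+* ZM S', ∀ c, mdh S'.subtype (σ c) = mdh S.subtype c := by
  let e : S ≃* S' :=
    { toFun := fun g => ⟨g.1, (hS g.1).2 g.2⟩
      invFun := fun g => ⟨g.1, (hS g.1).1 g.2⟩
      left_inv := fun _ => rfl
      right_inv := fun _ => rfl
      map_mul' := fun _ _ => rfl }
  refine ⟨MonoidAlgebra.mapDomainRingEquiv ℤ e, fun c => ?_⟩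
  have h1 : (mdh S'.subtype).comp (mdh (e : S →* S')) = mdh S.subtype := by
    refine MonoidAlgebra.ringHom_ext (fun r => ?_) fun m => ?_
    · change mdh S'.subtype (mdh (e : S →* S') (MonoidAlgebra.single 1 r)) = _
      rw [mdh_single, mdh_single, mdh_single, map_one, map_one]
      rw [map_one]
    · change mdh S'.subtype (mdh (e : S →* S') (MonoidAlgebra.single m 1)) = _
      rw [mdh_single, mdh_single, mdh_single]
      rfl
  exact congrArg (fun f => f c) h1

/-! ## The parts of nil modules -/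

section

variable {Γ : Type} [Group Γ] {D : Type} {V : D → Type} [∀ i, MulAction Γ (V i)]
  {T : ∀ i, SimpleGraph (V i)} {N : Type} [Group N] {π : N →* Γ}

theorem pr_mdh (A : Nm T π) (x : Pos V) (c : ZM (St π x)) (m : A.M) :
    A.pr x (mdh (St π x).subtype c • m) = mdh (St π x).subtype c • A.pr x m := by
  induction c using MonoidAlgebra.induction_linear with
  | zero => rw [map_zero, zero_smul, zero_smul, map_zero]
  | add a b ha hb => rw [map_add, add_smul, add_smul, map_add, ha, hb]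
  | single g r =>
    rw [mdh_single]
    have h1 : ∀ m' : A.M, (MonoidAlgebra.single ((St π x).subtype g) r : ZM N) • m'
        = r • ((MonoidAlgebra.single ((St π x).subtype g) (1 : ℤ) : ZM N) • m') := by
      intro m'
      rw [← smul_assoc, MonoidAlgebra.smul_single, smul_eq_mul, mul_one]
    rw [h1, h1, map_zsmul, A.act]
    have h2 : π ((St π x).subtype g) • x = x := g.2
    rw [h2]

end

/-! ## The free nil module over the box of a position -/

section

variable {Γ : Type} [Group Γ] {D : Type} {V : D → Type} [∀ i, MulAction Γ (V i)]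
  {T : ∀ i, SimpleGraph (V i)} {N : Type} [Group N] {π : N →* Γ}
  [Fintype D] [LinearOrder D] (h : ∀ i, TreeAct Γ (V i) (T i))
  {ι : Type} [Fintype ι] [DecidableEq ι] {p : ι → Pos V} {ν : D → Matrix ι ι (ZM N)}

/-- `inj0` as a linear map. -/
noncomputable def iL (D : Type) [DecidableEq D] (N : Type) [Group N] (ι : Type) :
    (ι → ZM N) →ₗ[ZM N] (ι × Finset D → ZM N) where
  toFun := inj0 N
  map_add' a b := by
    funext c
    change (if c.2 = ∅ then (a + b) c.1 else 0) = (if c.2 = ∅ then a c.1 else 0)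
      + (if c.2 = ∅ then b c.1 else 0)
    split_ifs
    · rfl
    · exact (add_zero 0).symm
  map_smul' r a := by
    funext c
    change (if c.2 = ∅ then (r • a) c.1 else 0) = r * (if c.2 = ∅ then a c.1 else 0)
    split_ifs
    · rfl
    · exact (mul_zero r).symm

/-- The values at the face `∅`. -/
noncomputable def oL (D : Type) (N : Type) [Group N] (ι : Type) :
    (ι × Finset D → ZM N) →ₗ[ZM N] (ι → ZM N) where
  toFun y := fun l => y (l, ∅)
  map_add' _ _ := rfl
  map_smul' _ _ := rfl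

omit [Fintype D] [Fintype ι] [DecidableEq ι] in
theorem oL_iL (w : ι → ZM N) : oL D N ι (iL D N ι w) = w := by
  funext l
  change (if (∅ : Finset D) = ∅ then w l else 0) = w l
  exact if_pos rfl

theorem inj0_d (n : ℤ) (w : ι → ZM N) :
    (inj0 N w : ι × Finset D → ZM N) ᵥ* (Kc h N n p ν).d = 0 := by
  funext b
  change ∑ a : ι × Finset D, inj0 N w a * (Kc h N n p ν).d a b = 0
  refine Finset.sum_eq_zero fun a _ => ?_
  by_cases ha : a.2 = ∅
  · have h1 : (Kc h N n p ν).d a b = 0 := by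
      change (∑ i ∈ a.2, if b.2 = a.2.erase i then
        eps n i a.2 • ((if a.1 = b.1 then 1 else 0) - ν i a.1 b.1) else 0) = 0
      rw [ha, Finset.sum_empty]
    rw [h1, mul_zero]
  · have h1 : (inj0 N w : ι × Finset D → ZM N) a = 0 := if_neg ha
    rw [h1, zero_mul]

theorem inj0_mem (hp : FrOk T π p ν) (n : ℤ) (x : Pos V) (w : ι → ZM N)
    (hw : frPr π p x w = w) :
    (inj0 N w : ι × Finset D → ZM N) ∈ fam π Finset.univ (Kc h N n p ν).toOb (eBox h x) n := by
  rintro ⟨l, φ⟩ m hm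
  by_cases hφ : φ = ∅
  · subst hφ
    have h1 : (inj0 N w : ι × Finset D → ZM N) (l, ∅) = w l := if_pos rfl
    rw [h1, ← hw] at hm
    have h2 : π m • p l = x := (frPr_coeff_ne hm).1
    refine ⟨?_, fun i _ => ?_⟩
    · change n + ((∅ : Finset D).card : ℤ) = n
      rw [Finset.card_empty, Nat.cast_zero, add_zero]
    · change eBox h x i ≤ π m • sx h (p l) ∅ i
      rw [kta_smul_sx h (hp.oe l), h2, sx_empty]
  · have h1 : (inj0 N w : ι × Finset D → ZM N) (l, φ) = 0 := if_neg hφ
    rw [h1] at hm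
    exact absurd rfl hm

theorem kc_edge (hp : FrOk T π p ν) (n : ℤ) {x : Pos V} (hx : OE T x) {q : ℤ}
    {y : ι × Finset D → ZM N}
    (hy : y ∈ fam π Finset.univ (Kc h N n p ν).toOb (eBox h x) q) {l : ι} {φ : Finset D}
    (hne : y (l, φ) ≠ 0) : φ = ∅ ∧ n = q := by
  have h1 : ∃ m, (y (l, φ)).coeff m ≠ 0 := by
    by_contra hc
    push Not at hc
    apply hne
    apply MonoidAlgebra.coeff_injective
    ext m
    exact hc m
  obtain ⟨m, hm⟩ := h1
  obtain ⟨h2, h3⟩ := hy (l, φ) m hm
  have hφ : φ = ∅ := by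
    by_contra hne
    obtain ⟨i, hi⟩ := Finset.nonempty_iff_ne_empty.2 hne
    have h4 : eBox h x i ≤ π m • sx h (p l) φ i := h3 i (Finset.mem_univ i)
    rw [kta_smul_sx h (hp.oe l), kta_sx_mem h hi] at h4
    exact not_edg_le_vtx (h i) (hx i) h4
  refine ⟨hφ, ?_⟩
  subst hφ
  change n + ((∅ : Finset D).card : ℤ) = q at h2
  rwa [Finset.card_empty, Nat.cast_zero, add_zero] at h2

theorem kc_edge_le (hp : FrOk T π p ν) (n : ℤ) {x : Pos V} {q : ℤ}
    {y : ι × Finset D → ZM N}
    (hy : y ∈ fam π Finset.univ (Kc h N n p ν).toOb (eBox h x) q) {x' : Pos V}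
    (hne : frPr π p x' (oL D N ι y) ≠ 0) (i : D) :
    eBox h x i ≤ edg (h i) (x' i).1 (x' i).2 := by
  obtain ⟨l, m, hm⟩ := exists_coeff_ne hne
  obtain ⟨h2, h1⟩ := frPr_coeff_ne hm
  have h4 : eBox h x i ≤ π m • sx h (p l) ∅ i := (hy (l, ∅) m h1).2 i (Finset.mem_univ i)
  rw [kta_smul_sx h (hp.oe l), h2, sx_empty] at h4
  exact h4

theorem kc_edge_eq (hp : FrOk T π p ν) (n : ℤ) {x : Pos V} (hx : OE T x) {q : ℤ}
    {y : ι × Finset D → ZM N}
    (hy : y ∈ fam π Finset.univ (Kc h N n p ν).toOb (eBox h x) q) :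
    y = iL D N ι (oL D N ι y) := by
  funext ⟨l, φ⟩
  by_cases hφ : φ = ∅
  · subst hφ
    change y (l, ∅) = if (∅ : Finset D) = ∅ then y (l, ∅) else 0
    exact (if_pos rfl).symm
  · change y (l, φ) = if φ = ∅ then y (l, ∅) else 0
    refine Eq.trans ?_ (if_neg hφ).symm
    by_contra hne
    exact hφ (kc_edge h hp n hx hy hne).1

end

/-! ## Elements of parts -/

section

variable {Γ : Type} [Group Γ] {D : Type} {V : D → Type} [∀ i, MulAction Γ (V i)]
  {T : ∀ i, SimpleGraph (V i)} {N : Type} [Group N] {π : N →* Γ}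

/-- The element of the nil module. -/
def Nm.val (A : Nm T π) {x : Pos V} (b : A.part x) : A.M := b.1

theorem Nm.val_add (A : Nm T π) {x : Pos V} (a b : A.part x) :
    A.val (a + b) = A.val a + A.val b := rfl

theorem Nm.val_smul (A : Nm T π) {x : Pos V} (c : ZM (St π x)) (b : A.part x) :
    A.val (c • b) = mdh (St π x).subtype c • A.val b := rfl

theorem Nm.pr_val (A : Nm T π) {x : Pos V} (b : A.part x) : A.pr x (A.val b) = A.val b := b.2

theorem Nm.val_inj (A : Nm T π) {x : Pos V} {a b : A.part x} (hab : A.val a = A.val b) :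
    a = b := Subtype.ext hab

end

/-- The abstract core: a group `B` with maps to a free module `F` and back. -/
theorem perf_of_retract {R R' : Type} [Ring R] [Ring R'] (σ : R ≃+* R') {P F : Type}
    [AddCommGroup P] [Module R P] [AddCommGroup F] [Module R' F] {k : ℕ}
    (e : F ≃ₗ[R'] (Fin k → R')) (b : P → F) (a : F → P)
    (hb : ∀ x y, b (x + y) = b x + b y) (hb' : ∀ c x, b (c • x) = σ c • b x)
    (ha : ∀ x y, a (x + y) = a x + a y) (ha' : ∀ c x, a (σ c • x) = c • a x)
    (hab : ∀ x, a (b x) = x) : Perf R P := by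
  let a₁ : P →ₗ[R] (Fin k → R) :=
    { toFun := fun x i => σ.symm (e (b x) i)
      map_add' := fun x y => by
        funext i
        change σ.symm (e (b (x + y)) i) = σ.symm (e (b x) i) + σ.symm (e (b y) i)
        rw [hb, map_add, Pi.add_apply, map_add]
      map_smul' := fun c x => by
        funext i
        change σ.symm (e (b (c • x)) i) = c * σ.symm (e (b x) i)
        rw [hb', map_smul, Pi.smul_apply, smul_eq_mul, map_mul, RingEquiv.symm_apply_apply] }
  let b₁ : (Fin k → R) →ₗ[R] P :=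
    { toFun := fun w => a (e.symm (fun i => σ (w i)))
      map_add' := fun w w' => by
        have h1 : (fun i => σ ((w + w') i)) = (fun i => σ (w i)) + fun i => σ (w' i) := by
          funext i
          exact map_add σ (w i) (w' i)
        rw [h1, map_add, ha]
      map_smul' := fun c w => by
        have h1 : (fun i => σ ((c • w) i)) = σ c • fun i => σ (w i) := by
          funext i
          exact map_mul σ c (w i)
        rw [h1, map_smul, ha']
        rfl }
  have hh : b₁ ∘ₗ a₁ = LinearMap.id := by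
    refine LinearMap.ext fun x => ?_
    change a (e.symm (fun i => σ (σ.symm (e (b x) i)))) = x
    have h1 : (fun i => σ (σ.symm (e (b x) i))) = e (b x) := by
      funext i
      exact σ.apply_symm_apply _
    rw [h1, e.symm_apply_apply, hab]
  refine ⟨0, ?_, Module.Projective.of_split a₁ b₁ hh⟩
  exact Module.Finite.of_surjective b₁ fun x => ⟨a₁ x, congrArg (fun f => f x) hh⟩

/-- Module KPJ. -/
theorem stKPJ (hSep : StKSep) (hXF : StXF) : StKPJ := by
  intro Γ _ D _ _ V _ T h N _ π S ι _ _ p ν n hp hK g hg hIn hex M hM hcel hret htop B j hker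
    x hx
  obtain ⟨u, v, r, hu, hv, hr, hud, hvd, huv, hu0⟩ := hret
  obtain ⟨J, hJ⟩ : ∃ J : B.M →ₗ[ZM N] (ι → ZM N), J = j.f := ⟨j.f, rfl⟩
  obtain ⟨hj, hker⟩ : Function.Injective J ∧ ∀ v : ι → ZM N, (∃ b, J b = v) ↔
      ∀ x, lin (N := N) (ι := ι × Finset D) g (inj0 N (frPr π p x v)) ∈ S.Bc n (sx h x ∅) := by
    rw [hJ]
    exact hker
  have hJp : ∀ x m, J (B.pr x m) = frPr π p x (J m) := by
    rw [hJ]
    exact j.pr
  have hE : ∀ i, IsE (h i) (eBox h x i) := fun i => ⟨_, _, hx i, rfl⟩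
  have hnV : ∀ i, ¬IsV (h i) (eBox h x i) := by
    rintro i ⟨a, ha⟩
    exact not_edg_le_vtx (h i) (hx i) (le_of_eq ha)
  obtain ⟨k, ⟨e⟩⟩ := hXF Γ D (SP h) N π (ul_group π) M.toOb (n + 1) (fam_fam _ _) (eBox h x)
  obtain ⟨σ, hσ⟩ := exists_ringEquiv (St π x) (stabM π (eBox h x)) (eBox_stab h hx)
  -- the cone
  let mk : ((ι × Finset D → ZM N) × S.V) →ₗ[ZM N] (coneT (homCh hK g hg)).V := LinearMap.id
  let c1 : (coneT (homCh hK g hg)).V →ₗ[ZM N] (ι × Finset D → ZM N) :=
    LinearMap.fst (ZM N) (ι × Finset D → ZM N) S.V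
  let c2 : (coneT (homCh hK g hg)).V →ₗ[ZM N] S.V :=
    LinearMap.snd (ZM N) (ι × Finset D → ZM N) S.V
  let G : (ι × Finset D → ZM N) →ₗ[ZM N] S.V := lin (N := N) (ι := ι × Finset D) g
  let dK : (ι × Finset D → ZM N) → (ι × Finset D → ZM N) := fun y => y ᵥ* (Kc h N n p ν).d
  have hd1 : ∀ y, c1 ((coneT (homCh hK g hg)).d y) = -dK (c1 y) := fun _ => rfl
  have hd2 : ∀ y, c2 ((coneT (homCh hK g hg)).d y) = G (c1 y) + S.d (c2 y) := fun _ => rfl
  have hext : ∀ y z, c1 y = c1 z → c2 y = c2 z → y = z := fun y z h1 h2 => Prod.ext h1 h2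
  have hc1 : ∀ w t, c1 (mk (w, t)) = w := fun _ _ => rfl
  have hc2 : ∀ w t, c2 (mk (w, t)) = t := fun _ _ => rfl
  have hfam : ∀ (A : Sz (SP h)) q y, y ∈ (coneT (homCh hK g hg)).fam A q ↔
      c1 y ∈ fam π Finset.univ (Kc h N n p ν).toOb A (q - 1) ∧ c2 y ∈ S.fam A q :=
    fun _ _ _ => Iff.rfl
  have hdi : ∀ w : ι → ZM N, dK (iL D N ι w) = 0 := fun w => inj0_d h n w
  have hd0 : dK 0 = 0 := Matrix.zero_vecMul _
  clear_value mk c1 c2 dK
  -- the map `v` is independent of the choices
  have hL : ∀ t ∈ S.fam (eBox h x) (n + 1), S.d t = 0 → v (mk (0, t)) = 0 := by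
    intro t ht hdt
    obtain ⟨t', ht', h1⟩ := hex (n + 1) (by omega) (eBox h x) (show t ∈ S.Zc (n + 1) _ from
      ⟨ht, hdt⟩)
    have h2 : mk (0, t) = (coneT (homCh hK g hg)).d (mk (0, t')) := by
      refine hext _ _ ?_ ?_
      · rw [hd1, hc1, hc1, hd0, neg_zero]
      · rw [hd2, hc1, hc2, hc2, map_zero, zero_add, h1]
    have h3 : v (mk (0, t')) = 0 := by
      refine htop (eBox h x) hE (n + 1 + 1) (by omega) _ (hv _ _ _ ((hfam _ _ _).2 ?_))
      rw [hc1, hc2]
      exact ⟨AddSubgroup.zero_mem _, ht'⟩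
    rw [h2, hvd, h3, Matrix.zero_vecMul]
  -- the section
  have hjp : ∀ b : B.part x, frPr π p x (J (B.val b)) = J (B.val b) := by
    intro b
    rw [← hJp, B.pr_val]
  have hT : ∀ b : B.part x, ∃ t ∈ S.fam (eBox h x) (n + 1),
      S.d t = -G (iL D N ι (J (B.val b))) := by
    intro b
    have h1 := (hker (J (B.val b))).1 ⟨_, rfl⟩ x
    rw [hjp, sx_empty] at h1
    obtain ⟨t, ht, h4⟩ := h1
    exact ⟨-t, (S.fam _ _).neg_mem ht, by rw [map_neg, h4]; rfl⟩
  choose tt htt hdt using hT
  let Y : B.part x → S.V → (coneT (homCh hK g hg)).V := fun b t =>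
    mk (iL D N ι (J (B.val b)), t)
  have hY1 : ∀ b t, c1 (Y b t) = iL D N ι (J (B.val b)) := fun b t => hc1 _ _
  have hY2 : ∀ b t, c2 (Y b t) = t := fun b t => hc2 _ _
  have hY : ∀ (b : B.part x) (t : S.V), t ∈ S.fam (eBox h x) (n + 1) →
      Y b t ∈ (coneT (homCh hK g hg)).fam (eBox h x) (n + 1) := by
    intro b t ht
    rw [hfam, hY1, hY2]
    refine ⟨?_, ht⟩
    rw [add_sub_cancel_right]
    exact inj0_mem h hp n x (J (B.val b)) (hjp b)
  clear_value Y
  have hind : ∀ (b : B.part x) (t : S.V), t ∈ S.fam (eBox h x) (n + 1) →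
      S.d t = -G (iL D N ι (J (B.val b))) → v (Y b (tt b)) = v (Y b t) := by
    intro b t ht hd
    have h1 : Y b (tt b) = Y b t + mk (0, tt b - t) := by
      refine hext _ _ ?_ ?_
      · rw [map_add, hY1, hY1, hc1, add_zero]
      · rw [map_add, hY2, hY2, hc2, add_sub_cancel]
    rw [h1, map_add, hL _ ((S.fam _ _).sub_mem (htt b) ht) ?_, add_zero]
    rw [map_sub, hdt, hd, sub_self]
  -- the retraction
  have hA : ∀ m ∈ fam π Finset.univ M.toOb (eBox h x) (n + 1), ∃ b : B.part x,
      J (B.val b) = frPr π p x (oL D N ι (c1 (u m))) := by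
    intro m hm
    have h1 := (hfam _ _ _).1 (hu _ _ m hm)
    have h4 := kc_edge_eq h hp n hx h1.1
    have h5 : u (m ᵥ* M.d) = 0 := by
      have h6 : m ᵥ* M.d ∈ fam π Finset.univ M.toOb (eBox h x) (n + 1 - 1) :=
        fam_vecMul' hM.1 hm (by ring)
      have h7 : m ᵥ* M.d = ∑ l, (m ᵥ* M.d) l • (Pi.single l 1 : M.ι → ZM N) := by
        funext l
        rw [Finset.sum_apply, Finset.sum_eq_single l]
        · rw [Pi.smul_apply, Pi.single_eq_same, smul_eq_mul, mul_one]
        · intro l' _ hl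
          rw [Pi.smul_apply, Pi.single_eq_of_ne hl.symm, smul_zero]
        · exact fun hl => absurd (Finset.mem_univ l) hl
      rw [h7, map_sum]
      refine Finset.sum_eq_zero fun l _ => ?_
      rw [map_smul]
      by_cases hl : (m ᵥ* M.d) l = 0
      · rw [hl, zero_smul]
      · have h8 : ∃ a, ((m ᵥ* M.d) l).coeff a ≠ 0 := by
          by_contra hc
          push Not at hc
          apply hl
          apply MonoidAlgebra.coeff_injective
          ext a
          exact hc a
        obtain ⟨a, ha⟩ := h8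
        have h9 := (h6 l a ha).1
        rw [hu0 l (by omega), smul_zero]
    have h6 : G (c1 (u m)) + S.d (c2 (u m)) = 0 := by
      rw [← hd2, ← hud, h5, map_zero]
    have h7 : G (iL D N ι (oL D N ι (c1 (u m)))) ∈ S.Bc n (eBox h x) := by
      rw [← h4]
      refine ⟨-(c2 (u m)), (S.fam _ _).neg_mem h1.2, ?_⟩
      rw [map_neg]
      exact (eq_neg_of_add_eq_zero_left h6).symm
    have h8 := hSep Γ D V T h N π S ι p ν n hp g hg hIn (eBox h x) (oL D N ι (c1 (u m)))
      (fun x' hx' => ⟨fun i => kc_edge_le h hp n h1.1 hx' i, fun i hi => absurd hi (hnV i)⟩) h7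
    obtain ⟨b', hb'⟩ := (hker _).2 h8
    refine ⟨⟨B.pr x b', B.pr_self x b'⟩, ?_⟩
    change J (B.pr x b') = _
    rw [hJp, hb']
  choose al hal using hA
  have hvm : ∀ b, v (Y b (tt b)) ∈ fam π Finset.univ M.toOb (eBox h x) (n + 1) :=
    fun b => hv _ _ _ (hY b (tt b) (htt b))
  have hcS : ∀ (c : ZM (St π x)) (t : S.V), t ∈ S.fam (eBox h x) (n + 1) →
      mdh (St π x).subtype c • t ∈ S.fam (eBox h x) (n + 1) := by
    intro c t ht
    refine S.smul_mem (A := eBox h x) (fun m hm i _ => ?_) ht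
    obtain ⟨m', rfl, -⟩ := coeff_mdh_ne hm
    have h2 : π ((St π x).subtype m') • eBox h x = eBox h x :=
      (eBox_stab h hx _).2 m'.2
    exact le_of_eq (congrFun h2 i).symm
  refine perf_of_retract σ e (fun b => ⟨v (Y b (tt b)), hvm b⟩) (fun m => al m.1 m.2)
    (fun b b' => ?_) (fun c b => ?_) (fun m m' => ?_) (fun c m => ?_) fun b => ?_
  · apply Subtype.ext
    change v (Y (b + b') (tt (b + b'))) = v (Y b (tt b)) + v (Y b' (tt b'))
    rw [hind (b + b') (tt b + tt b') ((S.fam _ _).add_mem (htt b) (htt b')) ?_, ← map_add]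
    · congr 1
      refine hext _ _ ?_ ?_
      · rw [map_add, hY1, hY1, hY1, B.val_add, map_add, map_add]
      · rw [map_add, hY2, hY2, hY2]
    · rw [map_add, hdt, hdt, B.val_add, map_add, map_add, map_add]
      abel
  · apply Subtype.ext
    change v (Y (c • b) (tt (c • b))) = mdh (stabM π (eBox h x)).subtype (σ c) • v (Y b (tt b))
    rw [hσ, hind (c • b) (mdh (St π x).subtype c • tt b) (hcS c _ (htt b)) ?_, ← map_smul]
    · congr 1
      refine hext _ _ ?_ ?_
      · rw [map_smul, hY1, hY1, B.val_smul, map_smul, map_smul]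
      · rw [map_smul, hY2, hY2]
    · rw [map_smul, hdt, B.val_smul, map_smul, map_smul, map_smul, smul_neg]
  · apply B.val_inj
    apply hj
    change J (B.val (al (m + m').1 (m + m').2)) = J (B.val (al m.1 m.2 + al m'.1 m'.2))
    rw [B.val_add, map_add, hal, hal, hal]
    have h1 : c1 (u (m + m').1) = c1 (u m.1) + c1 (u m'.1) :=
      (congrArg c1 (map_add u _ _)).trans (map_add c1 _ _)
    rw [h1, map_add, map_add]
  · apply B.val_inj
    apply hj
    change J (B.val (al (σ c • m).1 (σ c • m).2)) = J (B.val (c • al m.1 m.2))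
    rw [B.val_smul, map_smul, hal, hal]
    have h1 : c1 (u (σ c • m).1) = mdh (St π x).subtype c • c1 (u m.1) := by
      rw [← hσ]
      exact (congrArg c1 (map_smul u _ _)).trans (map_smul c1 _ _)
    rw [h1, map_smul]
    exact pr_mdh (Fr h hp) x c _
  · apply B.val_inj
    apply hj
    change J (B.val (al (v (Y b (tt b))) (hvm b))) = J (B.val b)
    rw [hal]
    have h1 : (coneT (homCh hK g hg)).d (Y b (tt b)) = 0 := by
      refine hext _ _ ?_ ?_
      · rw [hd1, hY1, hdi, neg_zero, map_zero]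
      · rw [hd2, hY1, hY2, hdt, add_neg_cancel, map_zero]
    have h2 := huv (Y b (tt b))
    rw [h1, map_zero, add_zero] at h2
    have h3 : c1 (r (Y b (tt b))) = 0 := by
      have h4 := ((hfam _ _ _).1 (hr _ _ _ (hY b (tt b) (htt b)))).1
      funext ⟨l, φ⟩
      by_contra hne
      have h5 := (kc_edge h hp n hx (q := n + 1 + 1 - 1) h4 hne).2
      omega
    rw [h2, map_add, hd1, h3, hd0, neg_zero, add_zero, hY1, oL_iL]
    exact hjp b

end Pool.Agent.Lib.MP_551055_al.W17
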