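import Mathlib
import Pool.Agent.Lib.MP_551055_al.Trim.LD.NG
import Pool.Agent.Lib.MP_551055_al.Trim.LS.PStmts
import Pool.Agent.Lib.MP_551055_al.Trim.LS.Ray
import Pool.Agent.Lib.MP_551055_al.Trim.LS.Stmts
import Pool.Agent.Lib.MP_551055_al.Trim.MT.Base
import Pool.Agent.Lib.MP_551055_al.Trim.MT.CC
import Pool.Agent.Lib.MP_551055_al.Trim.MT.ConeH
import Pool.Agent.Lib.MP_551055_al.Trim.MT.Defs
import Pool.Agent.Lib.MP_551055_al.Trim.MT.Gen
import Pool.Agent.Lib.MP_551055_al.Trim.MT.Link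
import Pool.Agent.Lib.MP_551055_al.Trim.MT.Step
import Pool.Agent.Lib.MP_551055_al.Trim.MT.Tg
import Pool.Agent.Lib.MP_551055_al.Trim.MT.Trees
import Pool.Agent.Lib.MP_551055_al.Trim.T4.Ind0
import Pool.Agent.Lib.MP_551055_al.Trim.T4.Perf
import Pool.Agent.Lib.MP_551055_al.Trim.W17.Defs
import Pool.Agent.Lib.MP_551055_al.Trim.W17.KT
import Pool.Agent.Lib.MP_551055_al.Trim.W17.StK

/-!
# Trees and products: cones of retracts
-/

set_option autoImplicit false

namespace Pool.Agent.Lib.MP_551055_al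
end Pool.Agent.Lib.MP_551055_al

namespace Pool.Agent.Lib.MP_551055_al.LS
end Pool.Agent.Lib.MP_551055_al.LS

namespace Pool.Agent.Lib.MP_551055_al.MT
end Pool.Agent.Lib.MP_551055_al.MT

namespace Pool.Agent.Lib.MP_551055_al.W17

open Pool.Agent.Lib.MP_551055_al

open Pool.Agent.Lib.MP_551055_al.LS (TreeAct ZN)

open Pool.Agent.Lib.MP_551055_al.MT

open Matrix

section

variable {N : Type} [Monoid N] {ι κ : Type} {V : Type} [AddCommGroup V] [Module (ZM N) V]

/-- The pair of the two components. -/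
noncomputable def kretU [Fintype ι] (g : ι → V) (u : (κ → ZM N) →ₗ[ZM N] V)
    (r : V →ₗ[ZM N] V) : (ι ⊕ κ → ZM N) →ₗ[ZM N] (ι → ZM N) × V :=
  (LinearMap.funLeft (ZM N) (ZM N) (Sum.inl : ι → ι ⊕ κ)).prod
    (u ∘ₗ LinearMap.funLeft (ZM N) (ZM N) (Sum.inr : κ → ι ⊕ κ) +
      r ∘ₗ lin (N := N) g ∘ₗ LinearMap.funLeft (ZM N) (ZM N) (Sum.inl : ι → ι ⊕ κ))

/-- The map back. -/
noncomputable def kretV (v : V →ₗ[ZM N] (κ → ZM N)) :
    (ι → ZM N) × V →ₗ[ZM N] (ι ⊕ κ → ZM N) where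
  toFun z := Sum.elim z.1 (v z.2)
  map_add' z z' := by
    funext l
    rcases l with l | l
    · rfl
    · change v (z.2 + z'.2) l = (v z.2 + v z'.2) l
      rw [map_add]
  map_smul' a z := by
    funext l
    rcases l with l | l
    · rfl
    · change v (a • z.2) l = (a • v z.2) l
      rw [map_smul]

/-- The homotopy. -/
noncomputable def kretR (ι : Type) (r : V →ₗ[ZM N] V) :
    (ι → ZM N) × V →ₗ[ZM N] (ι → ZM N) × V :=
  (0 : (ι → ZM N) × V →ₗ[ZM N] (ι → ZM N)).prod (r ∘ₗ LinearMap.snd _ _ _)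

end

/-- The proof of module KRet. -/
theorem stKRet : StKRet := by
  intro Γ _ D _ _ V _ T h N _ π S M K n₀ hM hRet hKA hK g hg
  obtain ⟨u, v, r, hu, hv, hr, hud, hvd, huv, -⟩ := hRet
  have hw : ∀ x : K.ι → ZM N, x ᵥ* linkMat (v ∘ₗ lin (N := N) g) = v (lin (N := N) g x) :=
    fun x => vecMul_linkMat _ x
  have hCh : Ch π Finset.univ K M (linkMat (v ∘ₗ lin (N := N) g)) := by
    refine ⟨?_, ?_⟩
    · rw [ct_iff]
      intro l
      rw [add_zero]
      exact hv _ _ _ (hg.mem (basis_mem_fam l))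
    · apply link_mat_ext
      intro x
      rw [← Matrix.vecMul_vecMul, ← Matrix.vecMul_vecMul, hw, hw, hg.2, hvd]
  refine ⟨linkMat (v ∘ₗ lin (N := N) g), hCh, ⟨hK.cone hM.cx hCh, ?_, ?_⟩, ?_⟩
  · rintro (l | l) i hi
    · exact hKA.cel l i hi
    · exact hM.cel l i hi
  · intro i
    exact contr_cone stCC (hCh.mono (Finset.erase_subset _ _)) (hKA.con i) (hM.con i)
  · obtain ⟨n₁, hn₁⟩ := (Set.finite_range
      (cone K M (linkMat (v ∘ₗ lin (N := N) g))).deg).bddBelow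
    refine ⟨n₁, kretU g u r, kretV v, kretR K.ι r, ?_, ?_, ?_, ?_, ?_, ?_, ?_⟩
    · intro B q z hz
      obtain ⟨h1, h2⟩ := mem_fam_cone.1 hz
      refine ⟨h1, (S.fam B q).add_mem (hu B q _ h2) ?_⟩
      have h3 := hr B (q - 1) _ (hg.mem h1)
      rwa [sub_add_cancel] at h3
    · rintro B q ⟨x, t⟩ ⟨hx, ht⟩
      change (Sum.elim x (v t) : K.ι ⊕ M.ι → ZM N) ∈ _
      rw [mem_fam_cone]
      exact ⟨hx, hv B q t ht⟩
    · rintro B q ⟨x, t⟩ ⟨hx, ht⟩
      exact ⟨AddSubgroup.zero_mem _, hr B q t ht⟩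
    · intro z
      rw [vecMul_cone_d]
      refine Prod.ext rfl ?_
      change u ((z ∘ Sum.inl) ᵥ* linkMat (v ∘ₗ lin (N := N) g) + (z ∘ Sum.inr) ᵥ* M.d) +
          r (lin (N := N) g (-((z ∘ Sum.inl) ᵥ* K.d))) =
        lin (N := N) g (z ∘ Sum.inl) +
          S.d (u (z ∘ Sum.inr) + r (lin (N := N) g (z ∘ Sum.inl)))
      rw [hw, map_add, huv, hud, map_neg, hg.2, map_neg, map_add]
      abel
    · rintro ⟨x, t⟩
      change (Sum.elim (-(x ᵥ* K.d)) (v (lin (N := N) g x + S.d t)) : K.ι ⊕ M.ι → ZM N) =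
        (Sum.elim x (v t) : K.ι ⊕ M.ι → ZM N) ᵥ*
          (cone K M (linkMat (v ∘ₗ lin (N := N) g))).d
      rw [vecMul_cone_d, Sum.elim_comp_inl, Sum.elim_comp_inr, hw, map_add, hvd]
    · rintro ⟨x, t⟩
      refine Prod.ext ?_ ?_
      · change (show K.ι → ZM N from x) = (show K.ι → ZM N from x) +
          -((0 : K.ι → ZM N) ᵥ* K.d) + 0
        rw [Matrix.zero_vecMul, neg_zero, add_zero, add_zero]
      · change u (v t) + r (lin (N := N) g x) = t + (lin (N := N) g (0 : K.ι → ZM N) +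
          S.d (r t)) + r (lin (N := N) g x + S.d t)
        rw [huv, map_zero, zero_add, map_add]
        abel
    · intro l hl
      have h1 := hn₁ (Set.mem_range_self l)
      exact absurd hl (not_lt.2 h1)

end Pool.Agent.Lib.MP_551055_al.W17
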