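import Mathlib
import Pool.Agent.Lib.MP_551055_al.Trim.LS.BassProj
import Pool.Agent.Lib.MP_551055_al.Trim.LS.PFree
import Pool.Agent.Lib.MP_551055_al.Trim.LS.PStmts
import Pool.Agent.Lib.MP_551055_al.Trim.LS.PStmts2
import Pool.Agent.Lib.MP_551055_al.Trim.LS.Stmts
import Pool.Agent.Lib.MP_551055_al.Trim.MT.Base
import Pool.Agent.Lib.MP_551055_al.Trim.MT.Defs
import Pool.Agent.Lib.MP_551055_al.Trim.MT.Gen
import Pool.Agent.Lib.MP_551055_al.Trim.MT.Map
import Pool.Agent.Lib.MP_551055_al.Trim.MT.R1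
import Pool.Agent.Lib.MP_551055_al.Trim.MT.Tg
import Pool.Agent.Lib.MP_551055_al.Trim.MT.Trees
import Pool.Agent.Lib.MP_551055_al.Trim.T4.Constr
import Pool.Agent.Lib.MP_551055_al.Trim.T4.Ind0
import Pool.Agent.Lib.MP_551055_al.Trim.T4.Perf
import Pool.Agent.Lib.MP_551055_al.Trim.VNDefs
import Pool.Agent.Lib.MP_551055_al.Trim.W17.DefK
import Pool.Agent.Lib.MP_551055_al.Trim.W17.Defs
import Pool.Agent.Lib.MP_551055_al.Trim.W17.Filt
import Pool.Agent.Lib.MP_551055_al.Trim.W17.FrA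
import Pool.Agent.Lib.MP_551055_al.Trim.W17.KT
import Pool.Agent.Lib.MP_551055_al.Trim.W17.StK

/-!
# Trees and products: module KTriv (nil modules with operators zero)
-/

set_option autoImplicit false

namespace Pool.Agent.Lib.MP_551055_al
end Pool.Agent.Lib.MP_551055_al

namespace Pool.Agent.Lib.MP_551055_al.LS
end Pool.Agent.Lib.MP_551055_al.LS

namespace Pool.Agent.Lib.MP_551055_al.MT
end Pool.Agent.Lib.MP_551055_al.MT

namespace Pool.Agent.Lib.MP_551055_al.T4
end Pool.Agent.Lib.MP_551055_al.T4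

namespace Pool.Agent.Lib.MP_551055_al.W17

open Pool.Agent.Lib.MP_551055_al

open Pool.Agent.Lib.MP_551055_al.LS (TreeAct ZN FFF FFR)

open Pool.Agent.Lib.MP_551055_al.MT

open Pool.Agent.Lib.MP_551055_al.T4 (Perf)

open Matrix

section

variable {Γ : Type} [Group Γ] {D : Type} {V : D → Type} [∀ i, MulAction Γ (V i)]
  {T : ∀ i, SimpleGraph (V i)} {N : Type} [Group N] {π : N →* Γ}

/-- The part of a multiple of a homogeneous element. -/
theorem ktr_pr_smul (A : Nm T π) {y : Pos V} {m : A.M} (hm : A.pr y m = m) (x : Pos V)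
    (a : ZM N) : A.pr x (a • m) = filt (fun g => π g • y = x) a • m := by
  classical
  induction a using MonoidAlgebra.induction_linear with
  | zero => rw [filt_zero, zero_smul, map_zero]
  | add a b ha hb => rw [filt_add, add_smul, add_smul, map_add, ha, hb]
  | single g c =>
    have h1 : (MonoidAlgebra.single g c : ZM N) • m
        = c • ((MonoidAlgebra.single g (1 : ℤ) : ZM N) • m) := by
      rw [← smul_assoc, MonoidAlgebra.smul_single, smul_eq_mul, mul_one]
    have h2 : (MonoidAlgebra.single g (1 : ℤ) : ZM N) • m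
        = A.pr (π g • y) ((MonoidAlgebra.single g (1 : ℤ) : ZM N) • m) := by
      rw [← A.act, hm]
    by_cases hg : π g • y = x
    · have h3 : filt (fun g => π g • y = x) (MonoidAlgebra.single g c : ZM N)
          = MonoidAlgebra.single g c := by
        refine zm_ext fun k => ?_
        rw [filt_coeff]
        split_ifs with hk
        · rfl
        · by_contra hn
          exact hk (by rw [coeff_single_ne fun h => hn h.symm, hg])
      rw [h3, h1, map_zsmul, ← hg, ← h2]
    · have h3 : filt (fun g => π g • y = x) (MonoidAlgebra.single g c : ZM N) = 0 := by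
        refine zm_ext fun k => ?_
        rw [filt_coeff]
        split_ifs with hk
        · by_contra hn
          exact hg (by rw [← coeff_single_ne hn, hk])
        · rfl
      rw [h3, zero_smul, h1, map_zsmul, h2, A.pr_ne _ _ _ (Ne.symm hg), smul_zero]

theorem ktr_act (A : Nm T π) (g : N) (x : Pos V) (m : A.M) :
    A.pr x m = (MonoidAlgebra.single g (1 : ℤ) : ZM N) •
      A.pr (π g⁻¹ • x) ((MonoidAlgebra.single g⁻¹ (1 : ℤ) : ZM N) • m) := by
  rw [← A.act, ← mul_smul, MonoidAlgebra.single_mul_single, mul_inv_cancel, one_mul,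
    single_one_smul']

theorem ktr_mem_part (A : Nm T π) (x : Pos V) (m : A.M) :
    (show Rg (St π x) A.M from A.pr x m) ∈ A.part x := A.pr_self x m

/-- If the parts at the representatives vanish, the module vanishes. -/
theorem ktr_zero (A : Nm T π) {r : ℕ} {x : Fin r → Pos V} (hO : Orb A x)
    (hA : ∀ i, Subsingleton (A.part (x i))) : Subsingleton A.M := by
  refine ⟨fun m m' => ?_⟩
  have key : ∀ m : A.M, m = 0 := by
    intro m
    rw [← A.sum m]
    refine (finsum_congr fun y => ?_).trans finsum_zero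
    by_contra hn
    obtain ⟨i, g, rfl⟩ := hO.2.2 y m hn
    apply hn
    have h1 := ktr_act A g (π g • x i) m
    rw [← mul_smul, ← map_mul, inv_mul_cancel, map_one, one_smul] at h1
    have h2 : A.pr (x i) ((MonoidAlgebra.single g⁻¹ (1 : ℤ) : ZM N) • m) = 0 := by
      have h3 := (hA i).elim (⟨_, ktr_mem_part A (x i) ((MonoidAlgebra.single g⁻¹ (1 : ℤ) : ZM N) • m)⟩ :
        A.part (x i)) 0
      exact congrArg Subtype.val h3
    rw [h1, h2, smul_zero]
  rw [key m, key m']

/-- The parts of the elements of the kernel. -/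
noncomputable def ktrPr {B A : Nm T π} (f : NmHom B A) (x : Pos V) :
    LinearMap.ker f.f →+ LinearMap.ker f.f where
  toFun m := ⟨B.pr x m.1, by rw [LinearMap.mem_ker, f.pr, LinearMap.mem_ker.1 m.2, map_zero]⟩
  map_zero' := Subtype.ext (map_zero (B.pr x))
  map_add' m m' := Subtype.ext (map_add (B.pr x) m.1 m'.1)

theorem ktrPr_fin {B A : Nm T π} (f : NmHom B A) (m : LinearMap.ker f.f) :
    {x | ktrPr f x m ≠ 0}.Finite :=
  (B.fin m.1).subset fun _ hx h0 => hx (Subtype.ext h0)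

/-- The kernel of a homomorphism, with operators zero. -/
noncomputable def ktrKer {B A : Nm T π} (f : NmHom B A) : Nm T π where
  M := LinearMap.ker f.f
  ag := inferInstance
  md := inferInstance
  pr := ktrPr f
  nu _ := 0
  pr_self x m := Subtype.ext (B.pr_self x m.1)
  pr_ne x y m hxy := Subtype.ext (B.pr_ne x y m.1 hxy)
  fin := ktrPr_fin f
  sum m := by
    have h1 : (Function.support fun x => ktrPr f x m).Finite := ktrPr_fin f m
    have h2 := AddMonoidHom.map_finsum (LinearMap.ker f.f).subtype.toAddMonoidHom h1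
    apply Subtype.ext
    exact h2.trans (B.sum m.1)
  act g x m := Subtype.ext (B.act g x m.1)
  oe x m hm := B.oe x m.1 fun h0 => hm (Subtype.ext h0)
  comm _ _ _ := rfl
  loc i x y m hm := absurd (map_zero _) hm
  nil i := ⟨1, pow_one _⟩

/-- The inclusion of the kernel. -/
noncomputable def ktrInc {B A : Nm T π} (f : NmHom B A) (hB : B.Triv) :
    NmHom (ktrKer f) B where
  f := (LinearMap.ker f.f).subtype
  pr _ _ := rfl
  nu i m := (hB i m.1).symm

/-- The homomorphism of a homogeneous family. -/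
noncomputable def ktrHom (h : ∀ i, TreeAct Γ (V i) (T i)) (A : Nm T π) (hA : A.Triv) {ι : Type}
    [Fintype ι] [DecidableEq ι] {p : ι → Pos V}
    (hp : FrOk T π p fun _ => (0 : Matrix ι ι (ZM N))) (b : ι → A.M)
    (hb : ∀ l, A.pr (p l) (b l) = b l) : NmHom (Fr h hp) A where
  f := lin (N := N) b
  pr x v := by
    change ∑ l, filt (fun m => π m • p l = x) (v l) • b l = A.pr x (∑ l, v l • b l)
    rw [map_sum]
    exact Finset.sum_congr rfl fun l _ => (ktr_pr_smul A (hb l) x (v l)).symm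
  nu i v := by
    change lin (N := N) b (v ᵥ* (0 : Matrix ι ι (ZM N))) = A.nu i (lin (N := N) b v)
    rw [Matrix.vecMul_zero, map_zero, hA]

/-! ## Families of generators at the representatives -/

variable {r : ℕ} (x : Fin r → Pos V) (m : Fin r → ℕ)

/-- The vectors in the part at `x i`. -/
noncomputable def ktrE (π : N →* Γ) (i : Fin r) (c : Fin (m i) → ZM (St π (x i))) :
    (Σ i, Fin (m i)) → ZM N :=
  fun l => (Pi.single i (fun a => mdh (St π (x i)).subtype (c a)) : ∀ j, Fin (m j) → ZM N) l.1 l.2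

variable {x m}

theorem ktrE_same (i : Fin r) (c : Fin (m i) → ZM (St π (x i))) (a : Fin (m i)) :
    ktrE x m π i c ⟨i, a⟩ = mdh (St π (x i)).subtype (c a) := by
  rw [ktrE, Pi.single_eq_same]

theorem ktrE_ne {i j : Fin r} (hij : j ≠ i) (c : Fin (m i) → ZM (St π (x i))) (a : Fin (m j)) :
    ktrE x m π i c ⟨j, a⟩ = 0 := by
  rw [ktrE, Pi.single_eq_of_ne hij]
  rfl

theorem ktr_ok (h1 : ∀ i, OE T (x i)) :
    FrOk T π (fun l : (Σ i, Fin (m i)) => x l.1)
      fun _ => (0 : Matrix (Σ i, Fin (m i)) (Σ i, Fin (m i)) (ZM N)) where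
  oe l := h1 l.1
  comm _ _ := rfl
  loc _ _ _ _ h := absurd rfl h
  nil _ := ⟨1, pow_one _⟩

theorem ktrE_part (i : Fin r) (c : Fin (m i) → ZM (St π (x i))) :
    frPr π (fun l : (Σ i, Fin (m i)) => x l.1) (x i) (ktrE x m π i c) = ktrE x m π i c := by
  classical
  funext l
  refine zm_ext fun k => ?_
  rw [frPr_coeff]
  split_ifs with hk
  · rfl
  · by_contra hn
    apply hk
    obtain ⟨j, a⟩ := l
    by_cases hij : j = i
    · subst hij
      rw [ktrE_same] at hn
      obtain ⟨g, rfl, -⟩ := coeff_mdh_ne fun h => hn h.symm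
      exact g.2
    · rw [ktrE_ne hij] at hn
      exact absurd rfl hn

/-- All vectors in the part at `x i` are of this form. -/
theorem ktrE_surj (h0 : ∀ i j (g : N), π g • x i = x j → i = j) (i : Fin r)
    (w : (Σ i, Fin (m i)) → ZM N)
    (hw : frPr π (fun l : (Σ i, Fin (m i)) => x l.1) (x i) w = w) :
    ∃ c, ktrE x m π i c = w := by
  classical
  have h1 : ∀ l k, (w l).coeff k ≠ 0 → π k • x l.1 = x i := by
    intro l k hk
    rw [← hw] at hk
    exact (frPr_coeff_ne hk).1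
  have h2 : ∀ a : Fin (m i), ∃ y : ZM (St π (x i)), mdh (St π (x i)).subtype y = w ⟨i, a⟩ := by
    intro a
    have hφ : Function.Injective (St π (x i)).subtype := (St π (x i)).subtype_injective
    refine ⟨MonoidAlgebra.ofCoeff ((w ⟨i, a⟩).coeff.comapDomain (St π (x i)).subtype
      hφ.injOn), zm_ext fun k => ?_⟩
    by_cases hk : ∃ g, (St π (x i)).subtype g = k
    · obtain ⟨g, rfl⟩ := hk
      rw [coeff_mdh_apply hφ]
      rfl
    · have h3 : (w ⟨i, a⟩).coeff k = 0 := by
        by_contra h2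
        exact hk ⟨⟨k, h1 ⟨i, a⟩ k h2⟩, rfl⟩
      rw [h3]
      by_contra h2
      obtain ⟨g, hg, -⟩ := coeff_mdh_ne h2
      exact hk ⟨g, hg⟩
  choose c hc using h2
  refine ⟨c, funext fun l => ?_⟩
  obtain ⟨j, a⟩ := l
  by_cases hij : j = i
  · subst hij
    rw [ktrE_same, hc]
  · rw [ktrE_ne hij]
    refine zm_ext fun k => ?_
    by_contra hn
    exact hij (h0 j i k (h1 ⟨j, a⟩ k fun h => hn h.symm))

theorem ktrE_add (i : Fin r) (c d : Fin (m i) → ZM (St π (x i))) :
    ktrE x m π i (c + d) = ktrE x m π i c + ktrE x m π i d := by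
  funext l
  obtain ⟨j, a⟩ := l
  rw [Pi.add_apply]
  by_cases hij : j = i
  · subst hij
    rw [ktrE_same, ktrE_same, ktrE_same]
    exact map_add _ _ _
  · rw [ktrE_ne hij, ktrE_ne hij, ktrE_ne hij, add_zero]

theorem ktrE_smul (i : Fin r) (s : ZM (St π (x i))) (c : Fin (m i) → ZM (St π (x i))) :
    ktrE x m π i (s • c) = mdh (St π (x i)).subtype s • ktrE x m π i c := by
  funext l
  obtain ⟨j, a⟩ := l
  rw [Pi.smul_apply]
  by_cases hij : j = i
  · subst hij
    rw [ktrE_same, ktrE_same]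
    exact map_mul _ _ _
  · rw [ktrE_ne hij, ktrE_ne hij, smul_zero]

theorem ktrE_inj (i : Fin r) {c d : Fin (m i) → ZM (St π (x i))}
    (hcd : ktrE x m π i c = ktrE x m π i d) : c = d := by
  funext a
  have h1 := congrFun hcd ⟨i, a⟩
  rw [ktrE_same, ktrE_same] at h1
  exact mdh_injective (St π (x i)).subtype_injective h1

/-- The values of the homomorphism on the part at `x i`. -/
theorem ktr_lin (A : Nm T π) (f : ∀ i, (Fin (m i) → ZM (St π (x i))) →ₗ[ZM (St π (x i))]
    A.part (x i)) (i : Fin r) (c : Fin (m i) → ZM (St π (x i))) :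
    lin (N := N) (V := A.M) (fun l : (Σ i, Fin (m i)) => ((f l.1 (Pi.single l.2 1)).1 : A.M))
      (ktrE x m π i c) = (f i c).1 := by
  rw [lin_apply, Fintype.sum_sigma, Finset.sum_eq_single i]
  · have h1 : c = ∑ a, c a • (Pi.single a 1 : Fin (m i) → ZM (St π (x i))) := by
      funext b
      rw [Finset.sum_apply, Finset.sum_eq_single b]
      · rw [Pi.smul_apply, Pi.single_eq_same, smul_eq_mul, mul_one]
      · intro a _ ha
        rw [Pi.smul_apply, Pi.single_eq_of_ne (Ne.symm ha), smul_zero]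
      · intro hb
        exact absurd (Finset.mem_univ b) hb
    have h2 : f i c = ∑ a, c a • f i (Pi.single a 1) := by
      conv_lhs => rw [h1]
      rw [map_sum]
      exact Finset.sum_congr rfl fun a _ => map_smul _ _ _
    have h3 : (f i c).1 = ∑ a, (c a • f i (Pi.single a 1)).1 := by
      rw [h2]
      exact map_sum (A.part (x i)).subtype _ _
    refine Eq.trans ?_ h3.symm
    refine Finset.sum_congr rfl fun a _ => ?_
    rw [ktrE_same]
    rfl
  · intro j _ hj
    refine Finset.sum_eq_zero fun a _ => ?_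
    rw [ktrE_ne hj, zero_smul]
  · intro hi
    exact absurd (Finset.mem_univ i) hi

theorem ktr_hb (A : Nm T π) (f : ∀ i, (Fin (m i) → ZM (St π (x i))) →ₗ[ZM (St π (x i))]
    A.part (x i)) (l : Σ i, Fin (m i)) :
    A.pr (x l.1) ((f l.1 (Pi.single l.2 1)).1 : A.M) = ((f l.1 (Pi.single l.2 1)).1 : A.M) :=
  (f l.1 (Pi.single l.2 1)).2

/-- The homomorphism of a family of maps to the parts. -/
noncomputable abbrev ktrG (h : ∀ i, TreeAct Γ (V i) (T i)) (A : Nm T π) (hA : A.Triv)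
    (hx : ∀ i, OE T (x i)) (f : ∀ i, (Fin (m i) → ZM (St π (x i))) →ₗ[ZM (St π (x i))]
    A.part (x i)) : NmHom (Fr h (ktr_ok (N := N) (π := π) (m := m) hx)) A :=
  ktrHom h A hA (ktr_ok hx) (fun l : (Σ i, Fin (m i)) => ((f l.1 (Pi.single l.2 1)).1 : A.M))
    (ktr_hb A f)

/-- Surjectivity. -/
theorem ktrG_surj (h : ∀ i, TreeAct Γ (V i) (T i)) (A : Nm T π) (hA : A.Triv)
    (hO : Orb A x) (f : ∀ i, (Fin (m i) → ZM (St π (x i))) →ₗ[ZM (St π (x i))]
    A.part (x i)) (hf : ∀ i, Function.Surjective (f i)) :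
    Function.Surjective (ktrG h A hA hO.2.1 f).f := by
  intro y
  suffices hr : y ∈ LinearMap.range (ktrG h A hA hO.2.1 f).f from hr
  rw [← A.sum y]
  refine finsum_induction (· ∈ LinearMap.range (ktrG h A hA hO.2.1 f).f) (zero_mem _)
    (fun a b ha hb => add_mem ha hb) fun z => ?_
  by_cases hz : A.pr z y = 0
  · rw [hz]
    exact zero_mem _
  · obtain ⟨i, g, rfl⟩ := hO.2.2 z y hz
    rw [ktr_act A g (π g • x i) y, ← mul_smul, ← map_mul, inv_mul_cancel, map_one, one_smul]
    refine Submodule.smul_mem _ _ ?_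
    obtain ⟨c, hc⟩ := hf i ⟨_, ktr_mem_part A (x i)
      ((MonoidAlgebra.single g⁻¹ (1 : ℤ) : ZM N) • y)⟩
    refine ⟨ktrE x m π i c, ?_⟩
    refine (ktr_lin A f i c).trans ?_
    rw [hc]

/-- The parts of the kernel. -/
theorem ktrG_ker (h : ∀ i, TreeAct Γ (V i) (T i)) (A : Nm T π) (hA : A.Triv)
    (hO : Orb A x) (f : ∀ i, (Fin (m i) → ZM (St π (x i))) →ₗ[ZM (St π (x i))]
    A.part (x i)) (i : Fin r) :
    Nonempty (LinearMap.ker (f i) ≃ₗ[ZM (St π (x i))]
      (ktrKer (ktrG h A hA hO.2.1 f)).part (x i)) := by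
  have hk : ∀ c : LinearMap.ker (f i), ktrE x m π i c.1 ∈
      LinearMap.ker (ktrG h A hA hO.2.1 f).f := by
    intro c
    exact (ktr_lin A f i c.1).trans (congrArg Subtype.val (LinearMap.mem_ker.1 c.2))
  let g : LinearMap.ker (f i) →ₗ[ZM (St π (x i))] (ktrKer (ktrG h A hA hO.2.1 f)).part (x i) :=
    { toFun := fun c => ⟨⟨ktrE x m π i c.1, hk c⟩, Subtype.ext (ktrE_part i c.1)⟩
      map_add' := fun c d => Subtype.ext (Subtype.ext (ktrE_add i c.1 d.1))
      map_smul' := fun s c => Subtype.ext (Subtype.ext (ktrE_smul i s c.1)) }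
  refine ⟨LinearEquiv.ofBijective g ⟨fun c d hcd => ?_, fun w => ?_⟩⟩
  · have h1 : ktrE x m π i c.1 = ktrE x m π i d.1 :=
      congrArg (fun z : (ktrKer (ktrG h A hA hO.2.1 f)).part (x i) =>
        (show LinearMap.ker (ktrG h A hA hO.2.1 f).f from z.1).1) hcd
    exact Subtype.ext (ktrE_inj i h1)
  · obtain ⟨⟨w, hw1⟩, hw2⟩ := w
    have hw3 : frPr π (fun l : (Σ i, Fin (m i)) => x l.1) (x i) w = w := congrArg Subtype.val hw2
    obtain ⟨c, rfl⟩ := ktrE_surj hO.1 i w hw3
    have hc : c ∈ LinearMap.ker (f i) := by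
      rw [LinearMap.mem_ker]
      apply Subtype.ext
      exact (ktr_lin A f i c).symm.trans (LinearMap.mem_ker.1 hw1)
    exact ⟨⟨c, hc⟩, rfl⟩

theorem ktrG_orb (h : ∀ i, TreeAct Γ (V i) (T i)) (A : Nm T π) (hA : A.Triv)
    (hO : Orb A x) (f : ∀ i, (Fin (m i) → ZM (St π (x i))) →ₗ[ZM (St π (x i))]
    A.part (x i)) : Orb (ktrKer (ktrG h A hA hO.2.1 f)) x := by
  refine ⟨hO.1, hO.2.1, fun y w hy => ?_⟩
  have h1 : frPr π (fun l : (Σ i, Fin (m i)) => x l.1) y w.1 ≠ 0 := fun h0 =>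
    hy (Subtype.ext h0)
  obtain ⟨l, k, hk⟩ := exists_coeff_ne h1
  exact ⟨l.1, k, (frPr_coeff_ne hk).1.symm⟩

end

section

variable {Γ : Type} [Group Γ] {D : Type} [Fintype D] [LinearOrder D] {V : D → Type}
  [∀ i, MulAction Γ (V i)] {T : ∀ i, SimpleGraph (V i)} {h : ∀ i, TreeAct Γ (V i) (T i)}
  {N : Type} [Group N] {π : N →* Γ}

/-- The complexes in the class are in the class. -/
theorem ktr_ofCo {Q : Co (SP h) N} (cQ : MP_551055_al.W17.Cls h π Q)
    (hQ : IsCx π Finset.univ Q) : InC h π (Tg.ofCo Q hQ) := by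
  have h1 : ∀ x : Q.ι → ZM N, lin (N := N) (V := Q.ι → ZM N) (fun l => Pi.single l 1) x = x := by
    intro x
    exact (lin_ext (V := Q.ι → ZM N) LinearMap.id x).symm
  refine ⟨Q, fun l => (Pi.single l 1 : Q.ι → ZM N), cQ, hQ,
    ⟨fun l => basis_mem_fam (X := Q.toOb) l, fun x => ?_⟩, fun q B x hx hb => ?_,
    fun q B y hy => ⟨y, hy, ?_⟩⟩
  · refine (h1 _).trans ?_
    exact congrArg (Tg.ofCo Q hQ).d (h1 x).symm
  · have h2 : lin (N := N) (V := (Tg.ofCo Q hQ).V) (fun l => (Pi.single l 1 : Q.ι → ZM N)) x = x :=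
      h1 x
    rw [h2] at hb
    exact hb
  · have h2 : lin (N := N) (V := (Tg.ofCo Q hQ).V) (fun l => (Pi.single l 1 : Q.ι → ZM N)) y = y :=
      h1 y
    rw [h2, sub_self]
    exact zero_mem _

/-- Bijective maps which reflect the families are isomorphisms in homology. -/
theorem ktr_hIso {S S' : Tg (SP h) π Finset.univ} (γ : TgHom S S')
    (hγ : Function.Bijective γ.f) (hm : ∀ B q x, γ.f x ∈ S'.fam B q → x ∈ S.fam B q) :
    HIso γ := by
  intro q B
  constructor
  · rintro x - ⟨y, hy, hyx⟩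
    obtain ⟨z, rfl⟩ := hγ.2 y
    refine ⟨z, hm _ _ _ hy, hγ.1 ?_⟩
    rw [γ.d, hyx]
  · intro y hy
    obtain ⟨z, rfl⟩ := hγ.2 y
    refine ⟨z, ⟨hm _ _ _ hy.1, hγ.1 ?_⟩, ?_⟩
    · rw [γ.d, hy.2, map_zero]
    · rw [sub_self]
      exact zero_mem _

/-- Free nil modules with operators zero. -/
theorem ktr_free (hF : StKF) (hC : StKC) {ι : Type} [Fintype ι] [DecidableEq ι]
    {p : ι → Pos V} (hp : FrOk T π p fun _ => (0 : Matrix ι ι (ZM N))) (n : ℤ) :
    InC h π (KT h (Fr h hp) n) := by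
  obtain ⟨hA, hk⟩ := hF Γ D V T h N π ι p (fun _ => 0) hp n
  obtain ⟨κ, hκ, hm, -⟩ := hk hA.cx
  refine ((hC Γ D V T h N π _ _ κ).1 (ktr_hIso κ hκ hm)).1 ?_
  exact ktr_ofCo (Cls.el p n hp.oe) hA.cx

/-- The zero module. -/
theorem ktr_sub (hX : StKX1) (hF : StKF) (hC : StKC) (A : Nm T π) (hA : Subsingleton A.M)
    (n : ℤ) : InC h π (KT h A n) := by
  have hp : FrOk T π (fun e : Empty => e.elim)
      fun _ => (0 : Matrix Empty Empty (ZM N)) := ⟨fun l => l.elim, fun _ _ => rfl,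
    fun _ l => l.elim, fun _ => ⟨1, pow_one _⟩⟩
  have h1 : InC h π (KT h (Fr h hp) n) := ktr_free hF hC hp n
  let i : NmHom (Fr h hp) (Fr h hp) := ⟨LinearMap.id, fun _ _ => rfl, fun _ _ => rfl⟩
  let q : NmHom (Fr h hp) A :=
    ⟨0, fun _ _ => Subsingleton.elim _ _, fun _ _ => Subsingleton.elim _ _⟩
  have hq : NEx i q := ⟨Function.injective_id, fun a => ⟨0, Subsingleton.elim _ _⟩,
    fun m => ⟨fun _ => ⟨m, rfl⟩, fun _ => Subsingleton.elim _ _⟩⟩
  exact (hX Γ D V T h N π _ _ _ i q hq n).1 h1 h1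

/-- One step of the resolution. -/
theorem ktr_step (hX : StKX1) (hF : StKF) (hC : StKC) (A : Nm T π) (hA : A.Triv) {r : ℕ}
    {x : Fin r → Pos V} (hO : Orb A x) {m : Fin r → ℕ}
    (f : ∀ i, (Fin (m i) → ZM (St π (x i))) →ₗ[ZM (St π (x i))] A.part (x i))
    (hf : ∀ i, Function.Surjective (f i)) (n : ℤ)
    (hK : InC h π (KT h (ktrKer (ktrG h A hA hO.2.1 f)) n)) : InC h π (KT h A n) := by
  have hT : (Fr h (ktr_ok (N := N) (π := π) (m := m) hO.2.1)).Triv := by
    intro i v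
    change v ᵥ* (0 : Matrix _ _ (ZM N)) = 0
    exact Matrix.vecMul_zero _
  have hE : NEx (ktrInc (ktrG h A hA hO.2.1 f) hT) (ktrG h A hA hO.2.1 f) := by
    refine ⟨Subtype.val_injective, ktrG_surj h A hA hO f hf, fun v => ⟨fun hv => ?_, ?_⟩⟩
    · exact ⟨⟨v, hv⟩, rfl⟩
    · rintro ⟨w, rfl⟩
      exact w.2
  exact (hX Γ D V T h N π _ _ _ _ _ hE n).1 hK (ktr_free hF hC _ n)

theorem ktr_fff (hX : StKX1) (hF : StKF) (hC : StKC) {r : ℕ} {x : Fin r → Pos V} (d : ℕ) :
    ∀ (A : Nm T π), A.Triv → Orb A x → (∀ i, FFF (ZM (St π (x i))) d (A.part (x i))) →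
    ∀ n : ℤ, InC h π (KT h A n) := by
  induction d with
  | zero =>
    intro A hA hO hP n
    choose m e using hP
    have f : ∀ i, (Fin (m i) → ZM (St π (x i))) ≃ₗ[ZM (St π (x i))] A.part (x i) :=
      fun i => (e i).some.symm
    refine ktr_step hX hF hC A hA hO (fun i => (f i).toLinearMap) (fun i => (f i).surjective) n ?_
    refine ktr_sub hX hF hC _ (ktr_zero _ (ktrG_orb h A hA hO _) fun i => ?_) n
    obtain ⟨E⟩ := ktrG_ker h A hA hO (fun i => (f i).toLinearMap) i
    have h1 : Subsingleton (LinearMap.ker (f i).toLinearMap) := by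
      rw [LinearEquiv.ker]
      infer_instance
    exact E.symm.injective.subsingleton
  | succ d ih =>
    intro A hA hO hP n
    choose m f hf hk using hP
    refine ktr_step hX hF hC A hA hO f hf n ?_
    refine ih _ (fun _ _ => rfl) (ktrG_orb h A hA hO _) (fun i => ?_) n
    obtain ⟨E⟩ := ktrG_ker h A hA hO f i
    exact (hk i).congr E

/-- Module KTriv. -/
theorem stKTriv (hX : StKX1) (hF : StKF) (hC : StKC) : StKTriv := by
  intro Γ _ D _ _ V _ T h N _ π A hA r x hO hP hS n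
  choose d hd using hP
  have h1 : ∀ i, FFF (ZM (St π (x i))) (∑ j, d j + 1) (A.part (x i)) := fun i =>
    (r1_up (hS i) (d i) _ (hd i)).mono
      (Nat.succ_le_succ (Finset.single_le_sum (fun _ _ => Nat.zero_le _) (Finset.mem_univ i)))
  exact ktr_fff hX hF hC _ A hA hO h1 n

end

end Pool.Agent.Lib.MP_551055_al.W17
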