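import Mathlib
import Pool.Agent.Lib.MP_551055_al.Trim.LD.NG
import Pool.Agent.Lib.MP_551055_al.Trim.LS.BassProj
import Pool.Agent.Lib.MP_551055_al.Trim.LS.PStmts
import Pool.Agent.Lib.MP_551055_al.Trim.LS.Ray
import Pool.Agent.Lib.MP_551055_al.Trim.LS.Stmts
import Pool.Agent.Lib.MP_551055_al.Trim.MT.Defs
import Pool.Agent.Lib.MP_551055_al.Trim.MT.Gen
import Pool.Agent.Lib.MP_551055_al.Trim.MT.Tg
import Pool.Agent.Lib.MP_551055_al.Trim.MT.Trees
import Pool.Agent.Lib.MP_551055_al.Trim.T4.Ind0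
import Pool.Agent.Lib.MP_551055_al.Trim.W17.DefK
import Pool.Agent.Lib.MP_551055_al.Trim.W17.Defs
import Pool.Agent.Lib.MP_551055_al.Trim.W17.FrA
import Pool.Agent.Lib.MP_551055_al.Trim.W17.KFila
import Pool.Agent.Lib.MP_551055_al.Trim.W17.KT
import Pool.Agent.Lib.MP_551055_al.Trim.W17.KTa
import Pool.Agent.Lib.MP_551055_al.Trim.W17.KX
import Pool.Agent.Lib.MP_551055_al.Trim.W17.StK

/-!
# Trees and products: the nil submodule of the vectors which die in the homology (module KV)
-/

set_option autoImplicit false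

set_option linter.unusedSectionVars false

namespace Pool.Agent.Lib.MP_551055_al
end Pool.Agent.Lib.MP_551055_al

namespace Pool.Agent.Lib.MP_551055_al.LS
end Pool.Agent.Lib.MP_551055_al.LS

namespace Pool.Agent.Lib.MP_551055_al.MT
end Pool.Agent.Lib.MP_551055_al.MT

namespace Pool.Agent.Lib.MP_551055_al.W17

open Pool.Agent.Lib.MP_551055_al

open Pool.Agent.Lib.MP_551055_al.LS (TreeAct ZN)

open Pool.Agent.Lib.MP_551055_al.MT

open Matrix

section

variable {Γ : Type} [Group Γ] {D : Type} [Fintype D] [LinearOrder D] {V : D → Type}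
  [∀ i, MulAction Γ (V i)] {T : ∀ i, SimpleGraph (V i)} {h : ∀ i, TreeAct Γ (V i) (T i)}
  {N : Type} [Group N] {π : N →* Γ} {ι : Type} [Fintype ι] [DecidableEq ι] {p : ι → Pos V}
  {ν : D → Matrix ι ι (ZM N)} {n : ℤ}

/-- The vector `v` in the face `φ`. -/
noncomputable def kv_injF (φ : Finset D) (v : ι → ZM N) : ι × Finset D → ZM N := fun a =>
  if a.2 = φ then v a.1 else 0

theorem kv_inj0_add (v w : ι → ZM N) : (inj0 N (v + w) : ι × Finset D → ZM N) = inj0 N v + inj0 N w := by
  funext a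
  rw [Pi.add_apply]
  unfold inj0
  split_ifs
  · rfl
  · rw [add_zero]

theorem kv_inj0_zero : (inj0 N (0 : ι → ZM N) : ι × Finset D → ZM N) = 0 := by
  funext a
  unfold inj0
  split_ifs <;> rfl

theorem kv_inj0_smul (c : ZM N) (v : ι → ZM N) :
    (inj0 N (c • v) : ι × Finset D → ZM N) = c • inj0 N v := by
  funext a
  rw [Pi.smul_apply]
  unfold inj0
  split_ifs
  · rfl
  · rw [smul_zero]

/-- The vector in the face `φ` lies in the family of the box `B`. -/
theorem kv_injF_mem (hp : FrOk T π p ν) (φ : Finset D) {B : Sz (SP h)} {v : ι → ZM N}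
    (hv : ∀ x, frPr π p x v ≠ 0 → ∀ j, B j ≤ sx h x φ j) :
    kv_injF φ v ∈ fam π Finset.univ (Kc h N n p ν).toOb B (n + φ.card) := by
  classical
  intro a m hm
  have h1 : a.2 = φ := by
    by_contra hn
    apply hm
    change (if a.2 = φ then v a.1 else 0 : ZM N).coeff m = 0
    rw [if_neg hn]
    rfl
  have h2 : (v a.1).coeff m ≠ 0 := by
    intro h3
    apply hm
    change (if a.2 = φ then v a.1 else 0 : ZM N).coeff m = 0
    rw [if_pos h1]
    exact h3
  have h3 : frPr π p (π m • p a.1) v ≠ 0 := by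
    intro h4
    apply h2
    have h5 := frPr_coeff (π := π) (p := p) (π m • p a.1) v a.1 m
    rw [if_pos rfl, h4] at h5
    exact h5.symm
  refine ⟨?_, fun j _ => ?_⟩
  · change n + (a.2.card : ℤ) = n + φ.card
    rw [h1]
  · have h4 := hv _ h3 j
    change B j ≤ π m • sx h (p a.1) a.2 j
    rw [kta_smul_sx h (hp.oe a.1), h1]
    exact h4

/-- The differential of a vector in the face `{i}`. -/
theorem kv_injF_d (i : D) (v : ι → ZM N) :
    (kv_injF {i} v : (Kc h N n p ν).ι → ZM N) ᵥ* (Kc h N n p ν).d =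
      eps n i {i} • (inj0 N v - inj0 N (v ᵥ* ν i) : ι × Finset D → ZM N) := by
  classical
  funext b
  obtain ⟨k, ψ⟩ := b
  have e1 : ((kv_injF {i} v : (Kc h N n p ν).ι → ZM N) ᵥ* (Kc h N n p ν).d) (k, ψ) =
      ∑ a : ι × Finset D, kv_injF {i} v a * (Kc h N n p ν).d a (k, ψ) := rfl
  rw [e1, Fintype.sum_prod_type]
  have e2 : ∀ l : ι, ∑ φ : Finset D, kv_injF {i} v (l, φ) * (Kc h N n p ν).d (l, φ) (k, ψ) =
      if ψ = ∅ then eps n i {i} • (v l * ((if l = k then 1 else 0) - ν i l k)) else 0 := by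
    intro l
    rw [Finset.sum_eq_single ({i} : Finset D)]
    · have e3 : kv_injF {i} v (l, ({i} : Finset D)) = v l := if_pos rfl
      have e4 : (Kc h N n p ν).d (l, ({i} : Finset D)) (k, ψ) =
          ∑ j ∈ ({i} : Finset D), if ψ = ({i} : Finset D).erase j then
            eps n j {i} • ((if l = k then 1 else 0) - ν j l k) else 0 := rfl
      rw [e3, e4, Finset.sum_singleton, Finset.erase_singleton]
      by_cases hψ : ψ = ∅
      · rw [if_pos hψ, if_pos hψ, mul_smul_comm]
      · rw [if_neg hψ, if_neg hψ, mul_zero]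
    · intro φ _ hφ
      have e3 : kv_injF {i} v (l, φ) = 0 := if_neg hφ
      rw [e3, zero_mul]
    · intro hn
      exact absurd (Finset.mem_univ _) hn
  rw [Finset.sum_congr rfl fun l _ => e2 l]
  rw [Pi.smul_apply, Pi.sub_apply]
  unfold inj0
  by_cases hψ : ψ = ∅
  · simp only [hψ, if_true]
    rw [← Finset.smul_sum]
    congr 1
    simp only [mul_sub, Finset.sum_sub_distrib]
    congr 1
    rw [Finset.sum_eq_single k]
    · rw [if_pos rfl, mul_one]
    · intro l _ hl
      rw [if_neg hl, mul_zero]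
    · intro hn
      exact absurd (Finset.mem_univ _) hn
  · simp only [hψ, if_false]
    rw [Finset.sum_const_zero, sub_zero, smul_zero]

variable {S : Tg (SP h) π Finset.univ} {g : ι × Finset D → S.V}

/-- The value at the vector `v` in the face `∅`. -/
noncomputable def kv_GG (g : ι × Finset D → S.V) (v : ι → ZM N) : S.V :=
  lin (N := N) g (inj0 N v)

theorem kv_GG_add (v w : ι → ZM N) : kv_GG g (v + w) = kv_GG g v + kv_GG g w := by
  unfold kv_GG
  rw [kv_inj0_add, map_add]

theorem kv_GG_zero : kv_GG g (0 : ι → ZM N) = 0 := by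
  unfold kv_GG
  rw [kv_inj0_zero, map_zero]

theorem kv_GG_smul (c : ZM N) (v : ι → ZM N) : kv_GG g (c • v) = c • kv_GG g v := by
  unfold kv_GG
  rw [kv_inj0_smul, map_smul]

theorem kv_GG_neg (v : ι → ZM N) : kv_GG g (-v) = -kv_GG g v := by
  have h1 := kv_GG_add (g := g) v (-v)
  rw [add_neg_cancel, kv_GG_zero] at h1
  exact (neg_eq_of_add_eq_zero_right h1.symm).symm

/-- The operator `nu i` does not change the class, if the far ends are allowed. -/
theorem kv_GG_nu (hp : FrOk T π p ν) (hg : ChT (Kc h N n p ν) S g) (i : D) {B : Sz (SP h)}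
    {v : ι → ZM N} (hv : ∀ x, frPr π p x v ≠ 0 → ∀ j, B j ≤ sx h x {i} j) :
    kv_GG g v - kv_GG g (v ᵥ* ν i) ∈ S.Bc n B := by
  have h1 := hg.mem (kv_injF_mem (n := n) hp {i} hv)
  rw [Finset.card_singleton] at h1
  have h2 := hg.2 (kv_injF {i} v)
  have e : lin (N := N) g ((kv_injF {i} v : (Kc h N n p ν).ι → ZM N) ᵥ* (Kc h N n p ν).d) =
      lin (N := N) g (eps n i {i} • (inj0 N v - inj0 N (v ᵥ* ν i) : ι × Finset D → ZM N)) :=
    congrArg (lin (N := N) g) (kv_injF_d i v)
  have e2 := h2.symm.trans e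
  rw [map_zsmul, map_sub] at e2
  have h3 : eps n i {i} • (kv_GG g v - kv_GG g (v ᵥ* ν i)) ∈ S.Bc n B := ⟨_, h1, e2⟩
  have h4 := (S.Bc n B).zsmul_mem h3 (eps n i {i})
  rw [smul_smul, kx_eps_sq, one_smul] at h4
  exact h4

theorem kv_sx_single_le (x : Pos V) (hx : OE T x) (i j : D) : sx h x {i} j ≤ sx h x ∅ j := by
  rw [kta_sx_notMem h (Finset.notMem_empty j)]
  by_cases hj : j = i
  · rw [kta_sx_mem h (Finset.mem_singleton.2 hj)]
    exact kta_vtx_le_right h (hx j)
  · rw [kta_sx_notMem h (fun h1 => hj (Finset.mem_singleton.1 h1))]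

theorem kv_not_isV_edg {i : D} {u w : V i} (huw : (T i).Adj u w) : ¬ IsV (h i) (edg (h i) u w) := by
  rintro ⟨v, hv⟩
  have h1 := congrArg (fun A => A.set) hv
  change (edg (h i) u w).set = (vtx (h i) v).set at h1
  rw [edg_set (h i) huw, vtx_set] at h1
  have h2 : u ∈ ({v} : Set (V i)) := h1 ▸ Or.inl rfl
  have h3 : w ∈ ({v} : Set (V i)) := h1 ▸ Or.inr rfl
  exact huw.ne (h2.trans h3.symm)

end

/-- The proof of module KV. -/
theorem stKV (hSep : StKSep) : StKV := by
  intro Γ _ D _ _ V _ T h N _ π S ι _ _ p ν n hp g hg hIn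
  classical
  have hT : ∀ (γ : Γ) i u w, (T i).Adj u w → (T i).Adj (γ • u) (γ • w) :=
    fun γ i u w => (h i).adj γ u w
  -- the submodule
  let R : Submodule (ZM N) (ι → ZM N) :=
    { carrier := {v | ∀ x, kv_GG g (frPr π p x v) ∈ S.Bc n (sx h x ∅)}
      zero_mem' := fun x => by
        rw [map_zero, kv_GG_zero]
        exact (S.Bc n _).zero_mem
      add_mem' := fun {v w} hv hw x => by
        rw [map_add, kv_GG_add]
        exact (S.Bc n _).add_mem (hv x) (hw x)
      smul_mem' := fun c v hv => by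
        have h1 : c • v ∈
            ({ carrier := {v | ∀ x, kv_GG g (frPr π p x v) ∈ S.Bc n (sx h x ∅)}
               zero_mem' := fun x => by
                 rw [map_zero, kv_GG_zero]
                 exact (S.Bc n _).zero_mem
               add_mem' := fun {v w} hv hw x => by
                 rw [map_add, kv_GG_add]
                 exact (S.Bc n _).add_mem (hv x) (hw x)
               neg_mem' := fun {v} hv x => by
                 rw [map_neg, kv_GG_neg]
                 exact (S.Bc n _).neg_mem (hv x) } : AddSubgroup (ι → ZM N)) := by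
          refine smul_mem_of_terms _ fun m _ x => ?_
          have h2 := frPr_act (p := p) (π := π) m ((π m)⁻¹ • x) v
          rw [smul_inv_smul] at h2
          rw [← h2, kv_GG_smul]
          have h3 := (S.Bc_fam n).act m _ _ (hv ((π m)⁻¹ • x))
          by_cases h0 : frPr π p ((π m)⁻¹ • x) v = 0
          · rw [h0, kv_GG_zero, smul_zero]
            exact (S.Bc n _).zero_mem
          · have h4 := frPr_oe hp _ _ h0 hT
            have h5 : π m • sx h ((π m)⁻¹ • x) ∅ = sx h x ∅ := by
              funext j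
              rw [Pi.smul_apply, kta_smul_sx h h4, smul_inv_smul]
            rw [h5] at h3
            exact h3
        exact h1 }
  have hRm : ∀ v : ι → ZM N, v ∈ R ↔ ∀ x, kv_GG g (frPr π p x v) ∈ S.Bc n (sx h x ∅) :=
    fun v => Iff.rfl
  have hpr : ∀ x, ∀ v ∈ R, frPr π p x v ∈ R := by
    intro y v hv x
    by_cases hxy : x = y
    · rw [hxy, frPr_self]
      exact hv y
    · rw [frPr_ne x y v hxy, kv_GG_zero]
      exact (S.Bc n _).zero_mem
  -- one position
  have hone : ∀ (i : D) (x : Pos V) (v : ι → ZM N), frPr π p x v = v → v ∈ R → v ᵥ* ν i ∈ R := by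
    intro i x v hxv hv
    by_cases h0 : v = 0
    · rw [h0, Matrix.zero_vecMul]
      exact R.zero_mem
    have hoe : OE T x := frPr_oe hp x v (by rw [hxv]; exact h0) hT
    have hpos : ∀ y, frPr π p y v ≠ 0 → y = x := by
      intro y hy
      by_contra hn
      apply hy
      rw [← hxv]
      exact frPr_ne y x v hn
    have hle : ∀ j, sx h x {i} j ≤ sx h x ∅ j := fun j => kv_sx_single_le x hoe i j
    have h1 : kv_GG g v ∈ S.Bc n (sx h x {i}) := by
      have h2 := hv x
      rw [hxv] at h2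
      exact S.Bc_anti n (fun j _ => hle j) h2
    have h2 : kv_GG g v - kv_GG g (v ᵥ* ν i) ∈ S.Bc n (sx h x {i}) := by
      apply kv_GG_nu hp hg i
      intro y hy j
      rw [hpos y hy]
    have h3 : kv_GG g (v ᵥ* ν i) ∈ S.Bc n (sx h x {i}) := by
      have h4 := (S.Bc n (sx h x {i})).sub_mem h1 h2
      rwa [sub_sub_cancel] at h4
    apply hSep Γ D V T h N π S ι p ν n hp g hg hIn (sx h x {i}) (v ᵥ* ν i) ?_ h3
    intro y hy
    have hnx : Nx T i x y := by
      apply frPr_loc hp hT i x y v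
      rw [hxv]
      exact hy
    obtain ⟨n1, n2, n3, n4⟩ := hnx
    constructor
    · intro j
      by_cases hj : j = i
      · subst hj
        rw [kta_sx_mem h (Finset.mem_singleton_self j), ← n2]
        exact kta_vtx_le_left h n3
      · rw [kta_sx_notMem h (fun h5 => hj (Finset.mem_singleton.1 h5)), n1 j hj]
    · intro j hj
      by_cases hji : j = i
      · subst hji
        rw [kta_sx_mem h (Finset.mem_singleton_self j), n2]
      · rw [kta_sx_notMem h (fun h5 => hji (Finset.mem_singleton.1 h5))] at hj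
        exact absurd hj (kv_not_isV_edg (hoe j))
  have hnu : ∀ i, ∀ v ∈ R, v ᵥ* ν i ∈ R := by
    intro i v hv
    have hf := frPr_fin (π := π) (p := p) v
    have hs := frPr_sum (π := π) (p := p) v
    rw [finsum_eq_sum_of_support_subset (s := hf.toFinset) _
      (fun x hx => by rw [Set.Finite.coe_toFinset]; exact hx)] at hs
    have h2 : v ᵥ* ν i = ∑ x ∈ hf.toFinset, frPr π p x v ᵥ* ν i := by
      conv_lhs => rw [← hs]
      exact map_sum (Matrix.vecMulLinear (ν i)) _ _
    rw [h2]
    refine R.sum_mem fun x _ => hone i x _ (frPr_self x v) (hpr x v hv)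
  have hgr : IsGr (Fr h hp) R := ⟨fun x v hv => hpr x v hv, fun i v hv => hnu i v hv⟩
  refine ⟨(Fr h hp).sub R hgr, (Fr h hp).incl R hgr, Subtype.val_injective, fun v => ?_⟩
  constructor
  · rintro ⟨b, hb⟩
    rw [← hb]
    exact (hRm _).1 b.2
  · intro hv
    exact ⟨⟨v, (hRm v).2 hv⟩, rfl⟩

end Pool.Agent.Lib.MP_551055_al.W17
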