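import Mathlib
import Pool.Agent.Lib.MP_551055_al.Trim.LS.BassProj
import Pool.Agent.Lib.MP_551055_al.Trim.LS.PStmts
import Pool.Agent.Lib.MP_551055_al.Trim.LS.Stmts
import Pool.Agent.Lib.MP_551055_al.Trim.MT.Defs
import Pool.Agent.Lib.MP_551055_al.Trim.MT.Gen
import Pool.Agent.Lib.MP_551055_al.Trim.MT.Trees
import Pool.Agent.Lib.MP_551055_al.Trim.T4.Ind0
import Pool.Agent.Lib.MP_551055_al.Trim.W17.DefK
import Pool.Agent.Lib.MP_551055_al.Trim.W17.KT
import Pool.Agent.Lib.MP_551055_al.Trim.W17.StK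

/-!
# Trees and products: module KX1 (short exact sequences of nil modules)
-/

set_option autoImplicit false

set_option linter.unusedSectionVars false

namespace Pool.Agent.Lib.MP_551055_al
end Pool.Agent.Lib.MP_551055_al

namespace Pool.Agent.Lib.MP_551055_al.LS
end Pool.Agent.Lib.MP_551055_al.LS

namespace Pool.Agent.Lib.MP_551055_al.MT
end Pool.Agent.Lib.MP_551055_al.MT

namespace Pool.Agent.Lib.MP_551055_al.W17

open Pool.Agent.Lib.MP_551055_al

open Pool.Agent.Lib.MP_551055_al.LS (TreeAct ZN)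

open Pool.Agent.Lib.MP_551055_al.MT

open Matrix

section

variable {Γ : Type} [Group Γ] {D : Type} {V : D → Type} [∀ i, MulAction Γ (V i)]
  {T : ∀ i, SimpleGraph (V i)} {N : Type} [Group N] {π : N →* Γ} {A B C : Nm T π}

/-- Elements lift with the same positions. -/
theorem NmHom.lift_supp (q : NmHom B C) (hq : Function.Surjective q.f) (m : C.M) :
    ∃ b : B.M, q.f b = m ∧ ∀ x, C.pr x m = 0 → B.pr x b = 0 := by
  classical
  choose g hg using hq
  have hf := C.fin m
  refine ⟨∑ x ∈ hf.toFinset, B.pr x (g (C.pr x m)), ?_, fun x hx => ?_⟩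
  · rw [map_sum]
    have h1 : ∀ x ∈ hf.toFinset, q.f (B.pr x (g (C.pr x m))) = C.pr x m := fun x _ => by
      rw [q.pr, hg, C.pr_self]
    rw [Finset.sum_congr rfl h1]
    have h2 := C.sum m
    rwa [finsum_eq_sum_of_support_subset (s := hf.toFinset) _
      (fun x hx => by rw [Set.Finite.coe_toFinset]; exact hx)] at h2
  · rw [map_sum]
    refine Finset.sum_eq_zero fun y hy => ?_
    refine B.pr_ne x y _ fun hxy => ?_
    rw [Set.Finite.mem_toFinset] at hy
    exact hy (hxy ▸ hx)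

end

section

variable {Γ : Type} [Group Γ] {D : Type} [Fintype D] [LinearOrder D] {V : D → Type}
  [∀ i, MulAction Γ (V i)] {T : ∀ i, SimpleGraph (V i)} (h : ∀ i, TreeAct Γ (V i) (T i))
  {N : Type} [Group N] {π : N →* Γ} {A B C : Nm T π}

theorem ktFam_lift (q : NmHom B C) (hq : Function.Surjective q.f) {n : ℤ} {X : Sz (SP h)} {k : ℤ}
    {v : Finset D → C.M} (hv : v ∈ ktFam h C n X k) :
    ∃ w ∈ ktFam h B n X k, ∀ φ, q.f (w φ) = v φ := by
  choose w hw1 hw2 using fun φ => q.lift_supp hq (v φ)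
  refine ⟨w, fun φ x hx => hv φ x fun h0 => hx (hw2 φ x h0), hw1⟩

theorem ktFam_ker (i : NmHom A B) (q : NmHom B C) (hi : NEx i q) {n : ℤ} {X : Sz (SP h)} {k : ℤ}
    {v : Finset D → B.M} (hv : v ∈ ktFam h B n X k) (h0 : ∀ φ, q.f (v φ) = 0) :
    ∃ w ∈ ktFam h A n X k, ∀ φ, i.f (w φ) = v φ := by
  choose w hw using fun φ => (hi.2.2 (v φ)).1 (h0 φ)
  refine ⟨w, fun φ x hx => hv φ x fun h1 => hx ?_, hw⟩
  apply hi.1
  rw [map_zero, i.pr, hw, h1]

theorem kt_lift (q : NmHom B C) (hq : Function.Surjective q.f) {n : ℤ} {X : Sz (SP h)} {k : ℤ}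
    {v : (KT h C n).V} (hv : v ∈ (KT h C n).fam X k) :
    ∃ w ∈ (KT h B n).fam X k, (ktHom h q n).f w = v := by
  obtain ⟨w, hw, hwv⟩ := ktFam_lift h q hq hv
  exact ⟨w, hw, funext hwv⟩

theorem kt_ker (i : NmHom A B) (q : NmHom B C) (hi : NEx i q) {n : ℤ} {X : Sz (SP h)} {k : ℤ}
    {v : (KT h B n).V} (hv : v ∈ (KT h B n).fam X k) (h0 : (ktHom h q n).f v = 0) :
    ∃ w ∈ (KT h A n).fam X k, (ktHom h i n).f w = v := by
  obtain ⟨w, hw, hwv⟩ := ktFam_ker h i q hi hv fun φ => congrFun h0 φ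
  exact ⟨w, hw, funext hwv⟩

/-- The map of the cone to the target of the quotient. -/
noncomputable def coneQ (i : NmHom A B) (q : NmHom B C) (hi : NEx i q) (n : ℤ) :
    TgHom (coneT (ktHom h i n)) (KT h C n) where
  f := (ktHom h q n).f ∘ₗ LinearMap.snd (ZM N) (Finset D → A.M) (Finset D → B.M)
  mem X k x hx := (ktHom h q n).mem X k x.2 hx.2
  d x := by
    change (ktHom h q n).f ((ktHom h i n).f x.1 + (KT h B n).d x.2) =
      (KT h C n).d ((ktHom h q n).f x.2)
    rw [map_add, (ktHom h q n).d]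
    have h1 : (ktHom h q n).f ((ktHom h i n).f x.1) = 0 := by
      funext φ
      exact (hi.2.2 _).2 ⟨x.1 φ, rfl⟩
    rw [h1, zero_add]

theorem coneQ_f (i : NmHom A B) (q : NmHom B C) (hi : NEx i q) (n : ℤ)
    (x : (KT h A n).V × (KT h B n).V) :
    (coneQ h i q hi n).f x = (ktHom h q n).f x.2 := rfl

theorem coneQ_hIso (i : NmHom A B) (q : NmHom B C) (hi : NEx i q) (n : ℤ) :
    HIso (coneQ h i q hi n) := by
  have hinj : ∀ x y : (KT h A n).V, (ktHom h i n).f x = (ktHom h i n).f y → x = y := by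
    intro x y hxy
    funext φ
    exact hi.1 (congrFun hxy φ)
  intro k X
  constructor
  · rintro ⟨x, y⟩ ⟨⟨hx, hy⟩, hd⟩ ⟨c, hc, hcy⟩
    have e1 : -((KT h A n).d x) = 0 := congrArg Prod.fst hd
    have e2 : (ktHom h i n).f x + (KT h B n).d y = 0 := congrArg Prod.snd hd
    obtain ⟨b, hb, hbc⟩ := kt_lift h q hi.2.1 hc
    have e3 : (KT h C n).d c = (ktHom h q n).f y := hcy
    have hdb : (KT h B n).d b ∈ (KT h B n).fam X k := by
      have h1 := (KT h B n).d_mem X (k + 1) b hb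
      rwa [add_sub_cancel_right] at h1
    have e4 : (ktHom h q n).f (y - (KT h B n).d b) = 0 := by
      rw [map_sub, (ktHom h q n).d, hbc, e3, sub_self]
    obtain ⟨a, ha, hay⟩ := kt_ker h i q hi
      (AddSubgroup.sub_mem ((KT h B n).fam X k) hy hdb) e4
    refine ⟨(a, b), ⟨?_, hb⟩, ?_⟩
    · change a ∈ (KT h A n).fam X (k + 1 - 1)
      rw [add_sub_cancel_right]
      exact ha
    · refine Prod.ext ?_ ?_
      · change -((KT h A n).d a) = x
        apply hinj
        rw [map_neg, (ktHom h i n).d, hay, map_sub, (KT h B n).dd, sub_zero]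
        exact (eq_neg_of_add_eq_zero_left e2).symm
      · change (ktHom h i n).f a + (KT h B n).d b = y
        rw [hay, sub_add_cancel]
  · intro z hz
    obtain ⟨y, hy, hyz⟩ := kt_lift h q hi.2.1 hz.1
    have e1 : (ktHom h q n).f ((KT h B n).d y) = 0 := by
      rw [(ktHom h q n).d, hyz]
      exact hz.2
    obtain ⟨a, ha, hay⟩ := kt_ker h i q hi ((KT h B n).d_mem X k y hy) e1
    refine ⟨(-a, y), ⟨⟨?_, hy⟩, ?_⟩, ?_⟩
    · exact AddSubgroup.neg_mem ((KT h A n).fam X (k - 1)) ha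
    · refine Prod.ext ?_ ?_
      · change -((KT h A n).d (-a)) = 0
        rw [map_neg, neg_neg]
        apply hinj
        rw [map_zero, (ktHom h i n).d, hay, (KT h B n).dd]
      · change (ktHom h i n).f (-a) + (KT h B n).d y = 0
        rw [map_neg, hay, neg_add_cancel]
    · rw [coneQ_f]
      change (ktHom h q n).f y - z ∈ _
      rw [hyz, sub_self]
      exact AddSubgroup.zero_mem _

/-- Module KX1. -/
theorem stKX1 (hKC : StKC) : StKX1 := by
  intro Γ _ D _ _ V _ T h N _ π A B C i q hi n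
  have h1 := (hKC Γ D V T h N π _ _ (coneQ h i q hi n)).1 (coneQ_hIso h i q hi n)
  have h2 := hKC Γ D V T h N π _ _ (ktHom h i n)
  exact ⟨fun hA hB => h1.1 (h2.2.1 hA hB), fun hA hC => h2.2.2.1 hA (h1.2 hC),
    fun hB hC => h2.2.2.2 hB (h1.2 hC)⟩

end

end Pool.Agent.Lib.MP_551055_al.W17
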