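import Mathlib
import Pool.Agent.Lib.MP_551055_al.Trim.LS.Clo
import Pool.Agent.Lib.MP_551055_al.Trim.LS.Final
import Pool.Agent.Lib.MP_551055_al.Trim.LS.PStmts
import Pool.Agent.Lib.MP_551055_al.Trim.LS.Stmts
import Pool.Agent.Lib.MP_551055_al.Trim.MT.Base
import Pool.Agent.Lib.MP_551055_al.Trim.MT.Defs
import Pool.Agent.Lib.MP_551055_al.Trim.MT.Trees
import Pool.Agent.Lib.MP_551055_al.Trim.T6.Lps
import Pool.Agent.Lib.MP_551055_al.Trim.T6.Nil
import Pool.Agent.Lib.MP_551055_al.Trim.VNDefs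
import Pool.Agent.Lib.MP_551055_al.Trim.W17.DefK
import Pool.Agent.Lib.MP_551055_al.Trim.W17.Defs
import Pool.Agent.Lib.MP_551055_al.Trim.W17.KT
import Pool.Agent.Lib.MP_551055_al.Trim.W17.StK

/-!
# Trees and products: the key theorem from the modules KIdem, KLat, KR
-/

set_option autoImplicit false

namespace Pool.Agent.Lib.MP_551055_al
end Pool.Agent.Lib.MP_551055_al

namespace Pool.Agent.Lib.MP_551055_al.LS
end Pool.Agent.Lib.MP_551055_al.LS

namespace Pool.Agent.Lib.MP_551055_al.MT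
end Pool.Agent.Lib.MP_551055_al.MT

namespace Pool.Agent.Lib.MP_551055_al.W17

open Pool.Agent.Lib.MP_551055_al

open Pool.Agent.Lib.MP_551055_al.LS (TreeAct ZN)

open Pool.Agent.Lib.MP_551055_al.MT

open Matrix

theorem key_aux (hI : StKIdem) (hL : StKLat) (Γ : Type) [Group Γ] (D : Type) [Fintype D]
    [LinearOrder D] (V : D → Type) [∀ i, MulAction Γ (V i)] (T : ∀ i, SimpleGraph (V i))
    (h : ∀ i, TreeAct Γ (V i) (T i)) (G : Type) [Group G] (π : G →* Γ)
    (hsf : ∀ x : Pos V, OE T x → ∀ m, VN.ProjStFree (St π x × ZN m))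
    (hlps : Nonempty D → ∀ x : Pos V, OE T x → T6.StLPS (St π x)) :
    LL h π Finset.univ := by
  classical
  intro m
  refine ⟨?_, ?_⟩
  · -- idempotents
    have e : ∀ x : Pos V, St π x × ZN m ≃* St (π.comp (MonoidHom.fst G (ZN m))) x := fun x =>
      { toFun := fun g => ⟨(g.1.1, g.2), g.1.2⟩
        invFun := fun g => (⟨g.1.1, g.2⟩, g.1.2)
        left_inv := fun _ => rfl
        right_inv := fun _ => rfl
        map_mul' := fun _ _ => rfl }
    intro K a hK hcel ha hnul
    obtain ⟨M, hM1, hM2, hM3⟩ := hI Γ D V T h (G × ZN m) (π.comp (MonoidHom.fst G (ZN m)))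
      (fun x hx => LS.projStFree_congr (e x) (hsf x hx m))
      (fun hD x hx => T6.LPS.congr (MonoidAlgebra.mapDomainRingEquiv ℤ (e x)) (hlps hD x hx m))
      K a hK hcel ha (fun i => hnul i (Finset.mem_univ i))
    exact ⟨M, hM2, ((hL Γ D V T h).1 _ _ M hM1).cel, hM3⟩
  · -- lattices
    have e : ∀ x : Pos V, St π x × ZN (m + 1) ≃*
        St (pZ (π.comp (MonoidHom.fst G (ZN m)))) x := fun x =>
      (LS.znSucc (St π x) m).symm.trans
      { toFun := fun g => ⟨((g.1.1.1, g.1.2), g.2), g.1.1.2⟩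
        invFun := fun g => ((⟨g.1.1.1, g.2⟩, g.1.1.2), g.1.2)
        left_inv := fun _ => rfl
        right_inv := fun _ => rfl
        map_mul' := fun _ _ => rfl }
    intro M hM hcel hcon
    obtain ⟨M', h1, h2, h3⟩ := hI Γ D V T h (GZ (G × ZN m)) (pZ (π.comp (MonoidHom.fst G (ZN m))))
      (fun x hx => LS.projStFree_congr (e x) (hsf x hx (m + 1)))
      (fun hD x hx => T6.LPS.congr (MonoidAlgebra.mapDomainRingEquiv ℤ (e x))
        (hlps hD x hx (m + 1)))
      M 1 hM hcel HI.one (fun i => hcon i (Finset.mem_univ i))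
    obtain ⟨M₁, h4, h5, h6, h7⟩ := (hL Γ D V T h).2 (G × ZN m) (π.comp (MonoidHom.fst G (ZN m)))
      M' h1
    exact ⟨M₁, h4, h5, fun i _ => h6 i, Iso.trans HI.one HI.one h7 h3.symm⟩

theorem stKey (hI : StKIdem) (hL : StKLat) (hR : StKR) : StKey := by
  classical
  intro Γ _ D _ _ V _ T h G _ π U hsf hlps
  have h1 : LL (fun i : U => h i) π (Finset.univ : Finset U) := by
    let _ : LinearOrder ↥U := IsWellOrder.linearOrder (WellOrderingRel (α := ↥U))
    have hd : (fun a b => a.instDecidableEq b : DecidableEq U) =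
        (fun a b => LinearOrder.toDecidableEq a b) := Subsingleton.elim _ _
    rw [hd]
    refine key_aux hI hL Γ U (fun i => V i) (fun i => T i) (fun i => h i) G π hsf fun hD => ?_
    obtain ⟨i⟩ := hD
    exact hlps ⟨i.1, i.2⟩
  have h2 := (hR U D Subtype.val Subtype.val_injective Γ Γ (MonoidHom.id Γ) V T h (fun i => h i)
    (fun _ _ _ => rfl) G π π (fun _ => rfl) Finset.univ).1 h1
  have h3 : (Finset.univ : Finset U).map ⟨Subtype.val, Subtype.val_injective⟩ = U := by
    ext i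
    simp
  rw [h3] at h2
  exact h2

end Pool.Agent.Lib.MP_551055_al.W17
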