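import Mathlib
import Pool.Agent.Lib.MP_551055_al.Trim.LS.Stmts
import Pool.Agent.Lib.MP_551055_al.Trim.MT.Base
import Pool.Agent.Lib.MP_551055_al.Trim.MT.Clr
import Pool.Agent.Lib.MP_551055_al.Trim.MT.Defs
import Pool.Agent.Lib.MP_551055_al.Trim.MT.Fr
import Pool.Agent.Lib.MP_551055_al.Trim.MT.Map
import Pool.Agent.Lib.MP_551055_al.Trim.W17.StU

/-!
# Trees and products: module LtCone (lattices of cones)
-/

set_option autoImplicit false

namespace Pool.Agent.Lib.MP_551055_al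
end Pool.Agent.Lib.MP_551055_al

namespace Pool.Agent.Lib.MP_551055_al.MT
end Pool.Agent.Lib.MP_551055_al.MT

namespace Pool.Agent.Lib.MP_551055_al.W17

open Pool.Agent.Lib.MP_551055_al

open Pool.Agent.Lib.MP_551055_al.MT

open Matrix

section

variable {Γ : Type} [Group Γ] {D : Type} {P : D → Type} [∀ i, PartialOrder (P i)]
  [∀ i, MulAction Γ (P i)] [SzAct Γ P] {G : Type} [Group G] {π : G →* Γ} {U : Finset D}

/-- The cones of `f` and of `z ^ a f` are isomorphic. -/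
theorem iso_cone_zZ {X Y : Co P (GZ G)} {f : Matrix X.ι Y.ι (ZM (GZ G))} (a : ℤ) :
    Iso (pZ π) U (cone X Y (zZ G a • f)) 1 (cone X Y f) 1 := by
  have hz : ∀ b : ℤ, Ct (pZ π) U 0 X.toOb X.toOb (zZ G b • (1 : Matrix X.ι X.ι (ZM (GZ G)))) :=
    fun b => Ct.smul Ct.one (fr_zZ_pi π b)
  have hu : Ch (pZ π) U (cone X Y (zZ G a • f)) (cone X Y f)
      (Matrix.fromBlocks (zZ G a • (1 : Matrix X.ι X.ι (ZM (GZ G)))) 0 0
        (1 : Matrix Y.ι Y.ι (ZM (GZ G)))) := by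
    refine ⟨Ct.blocks (hz a) Ct.zero Ct.zero Ct.one, ?_⟩
    change Matrix.fromBlocks (-X.d) (zZ G a • f) 0 Y.d * _ = _ * Matrix.fromBlocks (-X.d) f 0 Y.d
    rw [Matrix.fromBlocks_multiply, Matrix.fromBlocks_multiply]
    congr 1
    · rw [Matrix.mul_zero, Matrix.zero_mul, Matrix.neg_mul, fr_mul_smul, Matrix.mul_one,
        Matrix.smul_mul, Matrix.one_mul, smul_neg]
    · rw [Matrix.mul_zero, Matrix.zero_mul, Matrix.mul_one, Matrix.smul_mul, Matrix.one_mul,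
        zero_add, add_zero]
    · rw [Matrix.zero_mul, Matrix.mul_zero, Matrix.zero_mul, Matrix.mul_zero]
    · rw [Matrix.zero_mul, Matrix.zero_mul, Matrix.mul_one, Matrix.one_mul]
  have hv : Ch (pZ π) U (cone X Y f) (cone X Y (zZ G a • f))
      (Matrix.fromBlocks (zZ G (-a) • (1 : Matrix X.ι X.ι (ZM (GZ G)))) 0 0
        (1 : Matrix Y.ι Y.ι (ZM (GZ G)))) := by
    refine ⟨Ct.blocks (hz (-a)) Ct.zero Ct.zero Ct.one, ?_⟩
    change Matrix.fromBlocks (-X.d) f 0 Y.d * _ = _ * Matrix.fromBlocks (-X.d) (zZ G a • f) 0 Y.d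
    rw [Matrix.fromBlocks_multiply, Matrix.fromBlocks_multiply]
    congr 1
    · rw [Matrix.mul_zero, Matrix.zero_mul, Matrix.neg_mul, fr_mul_smul, Matrix.mul_one,
        Matrix.smul_mul, Matrix.one_mul, smul_neg]
    · rw [Matrix.mul_zero, Matrix.zero_mul, Matrix.mul_one, Matrix.smul_mul, Matrix.one_mul,
        zero_add, add_zero, smul_smul, fr_zZ_mul, neg_add_cancel, fr_zZ_zero, one_smul]
    · rw [Matrix.zero_mul, Matrix.mul_zero, Matrix.zero_mul, Matrix.mul_zero]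
    · rw [Matrix.zero_mul, Matrix.zero_mul, Matrix.mul_one, Matrix.one_mul]
  refine ⟨_, _, hu, hv, ?_, ?_⟩
  · rw [Matrix.fromBlocks_multiply]
    simp only [Matrix.mul_zero, Matrix.zero_mul, Matrix.mul_one, Matrix.one_mul, add_zero,
      zero_add, Matrix.smul_mul, smul_smul, fr_zZ_mul, add_neg_cancel, fr_zZ_zero, one_smul]
    rw [Matrix.fromBlocks_one, sub_self]
    exact Nul.zero
  · rw [Matrix.fromBlocks_multiply]
    simp only [Matrix.mul_zero, Matrix.zero_mul, Matrix.mul_one, Matrix.one_mul, add_zero,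
      zero_add, Matrix.smul_mul, smul_smul, fr_zZ_mul, neg_add_cancel, fr_zZ_zero, one_smul]
    rw [Matrix.fromBlocks_one, sub_self]
    exact Nul.zero

end

/-- Module LtCone. -/
theorem stLtCone (hG : StGlue) : StLtCone := by
  intro Γ _ D P _ _ _ G _ π U X Y X₁ Y₁ f hX hY hX₁ hY₁ hf isoX isoY
  have hX' : IsCx (pZ π) U (X₁.map (loc G)) := hX₁.map (pZ_hLoc π)
  have hY' : IsCx (pZ π) U (Y₁.map (loc G)) := hY₁.map (pZ_hLoc π)
  have h1 : HI (pZ π) U (cone X Y f) (Matrix.fromBlocks 1 0 0 1) := by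
    rw [Matrix.fromBlocks_one]
    exact HI.one
  obtain ⟨g, hg, isog⟩ := hG Γ D P (GZ G) (pZ π) U X Y f 1 0 1 hX hY hf HI.one HI.one h1
    (X₁.map (loc G)) (Y₁.map (loc G)) hX' hY' isoX.symm isoY.symm
  rw [Matrix.fromBlocks_one] at isog
  obtain ⟨a, g', hg', hga⟩ := (stClr Γ D P G π U X₁.toOb Y₁.toOb 0).1 g hg.1
  have hgd : X₁.d.map (loc G) * g = g * Y₁.d.map (loc G) := hg.2
  have hg'd : X₁.d * g' = g' * Y₁.d := by
    refine fr_map_injective ?_
    rw [map_mul', map_mul', hga, fr_mul_smul, hgd, Matrix.smul_mul]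
  refine ⟨g', ⟨hg', hg'd⟩, ?_⟩
  have h2 : (cone X₁ Y₁ g').map (loc G)
      = cone (X₁.map (loc G)) (Y₁.map (loc G)) (zZ G a • g) := by
    rw [cone_map, hga]
  have h3 : Iso (pZ π) U (cone (X₁.map (loc G)) (Y₁.map (loc G)) (zZ G a • g)) 1
      (cone (X₁.map (loc G)) (Y₁.map (loc G)) g) 1 := iso_cone_zZ a
  have h4 : Iso (pZ π) U (cone (X₁.map (loc G)) (Y₁.map (loc G)) (zZ G a • g)) 1
      (cone X Y f) 1 := h3.trans HI.one HI.one isog.symm
  have h5 : ∀ (A : Co P (GZ G)), A = cone (X₁.map (loc G)) (Y₁.map (loc G)) (zZ G a • g) →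
      Iso (pZ π) U A 1 (cone X Y f) 1 := by
    rintro A rfl
    exact h4
  exact h5 _ h2

end Pool.Agent.Lib.MP_551055_al.W17
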