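import Mathlib
import Pool.Agent.Lib.MP_551055_al.Trim.LS.Stmts
import Pool.Agent.Lib.MP_551055_al.Trim.LS.Stmts3
import Pool.Agent.Lib.MP_551055_al.Trim.RI.Stmts
import Pool.Agent.Lib.MP_551055_al.Trim.T6.Clo
import Pool.Agent.Lib.MP_551055_al.Trim.T6.Nil
import Pool.Agent.Lib.MP_551055_al.Trim.W17.FS
import Pool.Agent.Lib.MP_551055_al.Trim.W17.FT
import Pool.Agent.Lib.MP_551055_al.Trim.W17.Peel
import Pool.Agent.Lib.MP_551055_al.Trim.W17.StF
import Pool.Agent.Lib.MP_551055_al.Trim.W17.VE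

/-!
# Trees and products: finitely many trees with long segments
-/

set_option autoImplicit false

namespace Pool.Agent.Lib.MP_551055_al
end Pool.Agent.Lib.MP_551055_al

namespace Pool.Agent.Lib.MP_551055_al.LS
end Pool.Agent.Lib.MP_551055_al.LS

namespace Pool.Agent.Lib.MP_551055_al.RI
end Pool.Agent.Lib.MP_551055_al.RI

namespace Pool.Agent.Lib.MP_551055_al.W17

open Pool.Agent.Lib.MP_551055_al

open Pool.Agent.Lib.MP_551055_al.LS

open Pool.Agent.Lib.MP_551055_al.RI (BTree StFinalH)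

/-- Theorem T with long segments: `S i` is a set of long segments of `T i` or contains all edges. -/
def StTL : Prop :=
  ∀ (G : Type) [Group G] (D : Type) [Finite D] (V : D → Type) [∀ i, MulAction G (V i)]
    (T : ∀ i, SimpleGraph (V i)), (∀ i, TreeAct G (V i) (T i)) →
    ∀ (S : ∀ i, V i → V i → Prop),
    (∀ i, Bar (T i) (S i) ∨ ∀ u v, (T i).Adj u v → S i u v) →
    (∀ v w : ∀ i, V i, IsT T v w → SF (MulAction.stabilizer G (v, w))) →
    (∀ (k : D) (v w : ∀ i, V i), S k (v k) (w k) → v k ≠ w k →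
      (∀ i, i ≠ k → v i = w i ∨ (T i).Adj (v i) (w i)) →
      SF (MulAction.stabilizer G (v, w)) ∧ T6.StLPS (MulAction.stabilizer G (v, w))) → SF G

theorem stTL (hFin : StFinalH) (hT : StT) : StTL := by
  classical
  intro G _ D _ V _ T hTr S hS ha hb
  let D₁ : Type := {i : D // Bar (T i) (S i)}
  let D₀ : Type := {i : D // ¬ Bar (T i) (S i)}
  obtain ⟨n, ⟨e⟩⟩ := Finite.exists_equiv_fin D₁
  let σ : D₀ → BTree G := fun j => ⟨V j.1, inferInstance, T j.1, hTr j.1⟩
  let τ : Fin n → LTree G := fun i => ⟨⟨V (e.symm i).1, inferInstance, T (e.symm i).1,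
    hTr (e.symm i).1⟩, S (e.symm i).1, (e.symm i).2⟩
  -- the two kinds of directions
  have hdir : ∀ i : D, (∃ j : D₀, j.1 = i) ∨ ∃ k : Fin n, (e.symm k).1 = i := by
    intro i
    by_cases h : Bar (T i) (S i)
    · exact Or.inr ⟨e ⟨i, h⟩, by rw [Equiv.symm_apply_apply]⟩
    · exact Or.inl ⟨⟨i, h⟩, rfl⟩
  have hglue : ∀ (a : ∀ j : D₀, V j.1) (v : ∀ i : Fin n, V (e.symm i).1),
      ∃ x : ∀ i, V i, (∀ j : D₀, x j.1 = a j) ∧ ∀ i : Fin n, x (e.symm i).1 = v i := by
    intro a v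
    let v₁ : ∀ j : D₁, V j.1 := (Equiv.piCongrLeft' (fun j : D₁ => V j.1) e).symm v
    have hv₁ : ∀ i : Fin n, v₁ (e.symm i) = v i := fun i =>
      congrFun ((Equiv.piCongrLeft' (fun j : D₁ => V j.1) e).apply_symm_apply v) i
    refine ⟨fun i => if h : Bar (T i) (S i) then v₁ ⟨i, h⟩ else a ⟨i, h⟩, fun j => ?_,
      fun i => ?_⟩
    · exact dif_neg j.2
    · exact (dif_pos (e.symm i).2).trans (hv₁ i)
  -- the stabilisers
  have hst : ∀ (a b : ∀ j : D₀, V j.1) (v w : ∀ i : Fin n, V (e.symm i).1) (x y : ∀ i, V i),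
      (∀ j : D₀, x j.1 = a j) → (∀ i : Fin n, x (e.symm i).1 = v i) →
      (∀ j : D₀, y j.1 = b j) → (∀ i : Fin n, y (e.symm i).1 = w i) →
      ∀ A : Subgroup G, (∀ g, g ∈ A ↔ g ∈ stP σ a b ∧ g ∈ stP (fun i => (τ i).toBTree) v w) →
      MulAction.stabilizer G (x, y) = A := by
    intro a b v w x y h1 h2 h3 h4 A hA
    ext g
    rw [hA, MulAction.mem_stabilizer_iff, Prod.ext_iff]
    constructor
    · rintro ⟨h5, h6⟩
      refine ⟨fun j => ?_, fun i => ?_⟩
      · have h7 := congrFun h5 j.1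
        have h8 := congrFun h6 j.1
        change g • x j.1 = x j.1 at h7
        change g • y j.1 = y j.1 at h8
        rw [h1] at h7
        rw [h3] at h8
        exact ⟨h7, h8⟩
      · have h7 := congrFun h5 (e.symm i).1
        have h8 := congrFun h6 (e.symm i).1
        change g • x (e.symm i).1 = x (e.symm i).1 at h7
        change g • y (e.symm i).1 = y (e.symm i).1 at h8
        rw [h2] at h7
        rw [h4] at h8
        exact ⟨h7, h8⟩
    · rintro ⟨h5, h6⟩
      have h9 : ∀ i, g • x i = x i ∧ g • y i = y i := by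
        intro i
        rcases hdir i with ⟨j, rfl⟩ | ⟨k, rfl⟩
        · rw [h1, h3]
          exact h5 j
        · rw [h2, h4]
          exact h6 k
      exact ⟨funext fun i => (h9 i).1, funext fun i => (h9 i).2⟩
  have hstar : ∀ (H : Type) [Group H] (J : Type) [Finite J] (σ : J → BTree H),
      (∀ v w : ∀ j, (σ j).V, IsC σ v w → SF (stP σ v w) ∧ T6.StLPS (stP σ v w)) →
      SF (Unit × H) := by
    intro H _ J _ σ h
    exact SF.congr MulEquiv.uniqueProd.symm
      (hT.fam σ (fun v w hvw => (h v w hvw).1) fun v w hvw _ => (h v w hvw).2)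
  refine SF.congr MulEquiv.uniqueProd (peel hFin Unit (fun A _ => SF A ∧ T6.StLPS A)
    (fun A B _ _ h e => ⟨SF.congr e h.1, T6.StLPS.congr e h.2⟩) hstar D₀
    (fun H _ σ' h1 h2 => ?_) n G σ τ (fun a b v w hab hvw A hA => ?_)
    (fun a b v w hab hne hvw A hA => ?_) fun a b k v w hab hSk hne hvw A hA => ?_)
  · exact SF.congr MulEquiv.uniqueProd.symm
      (hT.fam σ' (fun v w hvw => SF.congr MulEquiv.uniqueProd (h1 v w hvw))
        fun v w hvw hne => (h2 v w hvw hne).2)
  · obtain ⟨x, hx1, hx2⟩ := hglue a v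
    obtain ⟨y, hy1, hy2⟩ := hglue b w
    have h1 := ha x y fun i => by
      rcases hdir i with ⟨j, rfl⟩ | ⟨k, rfl⟩
      · rw [hx1, hy1]
        exact hab j
      · rw [hx2, hy2]
        exact hvw k
    rw [hst a b v w x y hx1 hx2 hy1 hy2 A hA] at h1
    exact SF.congr MulEquiv.uniqueProd.symm h1
  · obtain ⟨x, hx1, hx2⟩ := hglue a v
    obtain ⟨y, hy1, hy2⟩ := hglue b w
    obtain ⟨j, hj⟩ := hne
    have h0 : (T j.1).Adj (a j) (b j) := (hab j).resolve_left hj
    have h1 := hb j.1 x y (by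
      rw [hx1, hy1]
      exact (hS j.1).resolve_left j.2 _ _ h0) (by
      rw [hx1, hy1]
      exact hj) fun i _ => by
      rcases hdir i with ⟨j, rfl⟩ | ⟨k, rfl⟩
      · rw [hx1, hy1]
        exact hab j
      · rw [hx2, hy2]
        exact hvw k
    rw [hst a b v w x y hx1 hx2 hy1 hy2 A hA] at h1
    exact h1
  · obtain ⟨x, hx1, hx2⟩ := hglue a v
    obtain ⟨y, hy1, hy2⟩ := hglue b w
    have h1 := hb (e.symm k).1 x y (by
      rw [hx2, hy2]
      exact hSk) (by
      rw [hx2, hy2]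
      exact hne) fun i hi => by
      rcases hdir i with ⟨j, rfl⟩ | ⟨k', rfl⟩
      · rw [hx1, hy1]
        exact hab j
      · rw [hx2, hy2]
        exact hvw k' fun h => hi (by rw [h])
    rw [hst a b v w x y hx1 hx2 hy1 hy2 A hA] at h1
    exact h1

end Pool.Agent.Lib.MP_551055_al.W17
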