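import Mathlib
import Pool.Agent.Lib.MP_551055_al.Trim.LS.PStmts
import Pool.Agent.Lib.MP_551055_al.Trim.LS.Stmts
import Pool.Agent.Lib.MP_551055_al.Trim.MT.Base
import Pool.Agent.Lib.MP_551055_al.Trim.MT.Defs
import Pool.Agent.Lib.MP_551055_al.Trim.MT.Trees
import Pool.Agent.Lib.MP_551055_al.Trim.W17.Defs
import Pool.Agent.Lib.MP_551055_al.Trim.W17.Filt
import Pool.Agent.Lib.MP_551055_al.Trim.W17.StU

/-!
# Trees and products: module U1 (the cell functor)
-/

set_option autoImplicit false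

set_option linter.unusedSectionVars false

namespace Pool.Agent.Lib.MP_551055_al
end Pool.Agent.Lib.MP_551055_al

namespace Pool.Agent.Lib.MP_551055_al.LS
end Pool.Agent.Lib.MP_551055_al.LS

namespace Pool.Agent.Lib.MP_551055_al.MT
end Pool.Agent.Lib.MP_551055_al.MT

namespace Pool.Agent.Lib.MP_551055_al.W17

open Pool.Agent.Lib.MP_551055_al

open Pool.Agent.Lib.MP_551055_al.LS (TreeAct ZN)

open Pool.Agent.Lib.MP_551055_al.MT

open Matrix

/-! ## Cells and flags -/

section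

variable {Γ : Type} [Group Γ] {V : Type} [MulAction Γ V] {T : SimpleGraph V} (h : TreeAct Γ V T)

theorem isV_smul {γ : Γ} {A : Sub h} (hA : IsV h A) : IsV h (γ • A) := by
  obtain ⟨v, rfl⟩ := hA
  exact ⟨γ • v, smul_vtx h γ v⟩

theorem isE_smul {γ : Γ} {A : Sub h} (hA : IsE h A) : IsE h (γ • A) := by
  obtain ⟨u, v, huv, rfl⟩ := hA
  exact ⟨γ • u, γ • v, h.adj γ u v huv, smul_edg h γ huv⟩

theorem cl_smul {γ : Γ} {A : Sub h} (hA : Cl h A) : Cl h (γ • A) := by
  rcases hA with hA | hA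
  · exact Or.inl (isV_smul h hA)
  · exact Or.inr (isE_smul h hA)

theorem sub_smul_le {γ : Γ} {A B : Sub h} (hAB : A ≤ B) : γ • A ≤ γ • B :=
  SzAct.smul_le (Γ := Γ) (P := SP (fun _ : Unit => h)) (i := ()) hAB

theorem RZ_mono {z : ZZ h} {A B : Sub h} (hz : RZ h z A) (hAB : A ≤ B) : RZ h z B := by
  rcases z with σ | f
  · exact ⟨hz.1, hz.2.trans hAB⟩
  · exact ⟨hz.1, hz.2.1, hz.2.2.1, hz.2.2.2.trans hAB⟩

theorem RZ_smul {γ : Γ} {z : ZZ h} {A : Sub h} (hz : RZ h z A) : RZ h (γ • z) (γ • A) := by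
  rcases z with σ | f
  · exact ⟨cl_smul h hz.1, sub_smul_le h hz.2⟩
  · exact ⟨isV_smul h hz.1, isE_smul h hz.2.1, sub_smul_le h hz.2.2.1, sub_smul_le h hz.2.2.2⟩

theorem szZ_smul (γ : Γ) (z : ZZ h) : szZ h (γ • z) = γ • szZ h z := by
  rcases z with σ | f <;> rfl

theorem dgZ_smul (γ : Γ) (z : ZZ h) : dgZ h (γ • z) = dgZ h z := by
  rcases z with σ | f <;> rfl

theorem bdZ_smul (γ : Γ) (z w : ZZ h) : bdZ h (γ • z) (γ • w) = bdZ h z w := by
  classical
  rcases z with σ | f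
  · rfl
  · rcases w with σ | f'
    · change ((if γ • σ = γ • f.2 then 1 else 0) - (if γ • σ = γ • f.1 then 1 else 0) : ℤ) =
        (if σ = f.2 then 1 else 0) - (if σ = f.1 then 1 else 0)
      simp only [(MulAction.injective γ).eq_iff]
    · rfl

/-- The boundary of `z` has only cells contained in `z`. -/
theorem bdZ_ne {z w : ZZ h} (hzw : bdZ h z w ≠ 0) {A : Sub h} (hz : RZ h z A) :
    RZ h w A ∧ dgZ h w = dgZ h z - 1 ∧ szZ h z ≤ szZ h w ∧ ∀ y, bdZ h w y = 0 := by
  classical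
  rcases z with σ | f
  · exact absurd rfl hzw
  · rcases w with σ | f'
    · change ((if σ = f.2 then 1 else 0) - (if σ = f.1 then 1 else 0) : ℤ) ≠ 0 at hzw
      obtain ⟨h1, h2, h3, h4⟩ := hz
      have h5 : σ = f.2 ∨ σ = f.1 := by
        by_contra hn
        push Not at hn
        rw [if_neg hn.1, if_neg hn.2] at hzw
        exact absurd rfl hzw
      rcases h5 with rfl | rfl
      · exact ⟨⟨Or.inr h2, h4⟩, rfl, h3, fun y => rfl⟩
      · exact ⟨⟨Or.inl h1, h3.trans h4⟩, rfl, le_refl _, fun y => rfl⟩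
    · exact absurd rfl hzw

end

/-! ## Matrices -/

section

variable {Γ : Type} [Group Γ] {D : Type} [DecidableEq D] {V : D → Type} [∀ i, MulAction Γ (V i)]
  {T : ∀ i, SimpleGraph (V i)} (h : ∀ i, TreeAct Γ (V i) (T i)) {N : Type} [Monoid N]
  {π : N →* Γ} {U : Finset D} {i : D}

theorem phiM_add {X Y : Ob (SP h)} (s : X.ι → Sub (h i)) (t : Y.ι → Sub (h i))
    (f g : Matrix X.ι Y.ι (ZM N)) :
    phiM h π i (X := X) (Y := Y) s t (f + g) = phiM h π i s t f + phiM h π i s t g := by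
  funext a b
  exact filt_add _ _ _

theorem phiM_neg {X Y : Ob (SP h)} (s : X.ι → Sub (h i)) (t : Y.ι → Sub (h i))
    (f : Matrix X.ι Y.ι (ZM N)) :
    phiM h π i (X := X) (Y := Y) s t (-f) = -phiM h π i s t f := by
  funext a b
  exact filt_neg _ _

theorem phiM_zero {X Y : Ob (SP h)} (s : X.ι → Sub (h i)) (t : Y.ι → Sub (h i)) :
    phiM h π i (X := X) (Y := Y) s t (0 : Matrix X.ι Y.ι (ZM N)) = 0 := by
  funext a b
  exact filt_zero _

theorem phiM_one {X : Ob (SP h)} (s : X.ι → Sub (h i)) :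
    phiM h π i (X := X) (Y := X) s s (1 : Matrix X.ι X.ι (ZM N)) = 1 := by
  classical
  funext a b
  by_cases hab : a = b
  · subst hab
    rw [Matrix.one_apply_eq]
    change filt (fun m => a.2.1 = π m • a.2.1) ((1 : Matrix X.ι X.ι (ZM N)) a.1 a.1) = 1
    rw [Matrix.one_apply_eq]
    refine zm_ext fun m => ?_
    rw [filt_coeff]
    split_ifs with hm
    · rfl
    · by_contra hn
      have h1 : m = 1 := coeff_one_ne (Ne.symm hn)
      rw [h1, map_one, one_smul] at hm
      exact hm rfl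
  · rw [Matrix.one_apply_ne hab]
    change filt (fun m => a.2.1 = π m • b.2.1) ((1 : Matrix X.ι X.ι (ZM N)) a.1 b.1) = 0
    obtain ⟨l, z, hz⟩ := a
    obtain ⟨k, w, hw⟩ := b
    change filt (fun m => z = π m • w) ((1 : Matrix X.ι X.ι (ZM N)) l k) = 0
    by_cases hlk : l = k
    · subst hlk
      have hzw : z ≠ w := by
        rintro rfl
        exact hab rfl
      rw [Matrix.one_apply_eq]
      refine zm_ext fun m => ?_
      rw [filt_coeff]
      split_ifs with hm
      · by_contra hn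
        have h1 : m = 1 := coeff_one_ne hn
        rw [h1, map_one, one_smul] at hm
        exact hzw hm
      · rfl
    · rw [Matrix.one_apply_ne hlk, filt_zero]

theorem phiM_ct (hi : i ∈ U) {X Y : Ob (SP h)} {s : X.ι → Sub (h i)} {t : Y.ι → Sub (h i)}
    {r : ℤ} {f : Matrix X.ι Y.ι (ZM N)} (hf : Ct π U r X Y f) :
    Ct π U r (phiO h i X s) (phiO h i Y t) (phiM h π i s t f) := by
  rintro ⟨l, z, hz⟩ ⟨k, w, hw⟩ m hm
  obtain ⟨h1, h2⟩ := filt_coeff_ne hm
  obtain ⟨h3, h4⟩ := hf l k m h2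
  change z = π m • w at h1
  constructor
  · change Y.deg k + dgZ (h i) w = X.deg l + dgZ (h i) z + r
    rw [h3, h1, dgZ_smul]
    ring
  · intro i' hi'
    change Function.update (X.sz l) i (szZ (h i) z) i' ≤
      π m • Function.update (Y.sz k) i (szZ (h i) w) i'
    by_cases hii : i' = i
    · subst hii
      rw [Function.update_self, Function.update_self, h1, szZ_smul]
    · rw [Function.update_of_ne hii, Function.update_of_ne hii]
      exact h4 i' hi'

theorem RZ_back (hi : i ∈ U) {X Y : Ob (SP h)} {s : X.ι → Sub (h i)} {t : Y.ι → Sub (h i)}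
    (hs : ∀ l, X.sz l i = s l) (ht : ∀ l, Y.sz l i = t l) {r : ℤ}
    {f : Matrix X.ι Y.ι (ZM N)} (hf : Ct π U r X Y f) {l : X.ι} {k : Y.ι} {m : N}
    (hm : (f l k).coeff m ≠ 0) {w : ZZ (h i)} (hw : RZ (h i) (π m • w) (s l)) :
    RZ (h i) w (t k) := by
  have h1 := (hf l k m hm).2 i hi
  rw [hs, ht] at h1
  have h2 := RZ_smul (h i) (γ := (π m)⁻¹) (RZ_mono (h i) hw h1)
  rwa [inv_smul_smul, inv_smul_smul] at h2

theorem phiM_mul (hi : i ∈ U) {X Y Z : Ob (SP h)} {s : X.ι → Sub (h i)} {t : Y.ι → Sub (h i)}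
    {w : Z.ι → Sub (h i)} (hs : ∀ l, X.sz l i = s l) (ht : ∀ l, Y.sz l i = t l)
    {r : ℤ} {f : Matrix X.ι Y.ι (ZM N)} (g : Matrix Y.ι Z.ι (ZM N))
    (hf : Ct π U r X Y f) :
    phiM h π i s w (f * g) = phiM h π i s t f * phiM h π i t w g := by
  classical
  funext a b
  obtain ⟨l, z, hz⟩ := a
  obtain ⟨k, y, hy⟩ := b
  letI : ∀ j, Fintype {z : ZZ (h i) // RZ (h i) z (t j)} := fun j => Fintype.ofFinite _
  rw [Matrix.mul_apply]
  refine Eq.trans ?_ (sum_sig (phiO h i Y t).ft _).symm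
  change filt (fun m => z = π m • y) ((f * g) l k) = _
  rw [Matrix.mul_apply, filt_sum]
  refine Finset.sum_congr rfl fun j _ => ?_
  refine filt_mul (q := fun (c : {z : ZZ (h i) // RZ (h i) z (t j)}) m => z = π m • c.1)
    (r := fun (c : {z : ZZ (h i) // RZ (h i) z (t j)}) m => c.1 = π m • y) ?_ ?_ ?_
  · intro a b ha hb hab
    rw [map_mul, mul_smul] at hab
    have h1 : RZ (h i) (π b • y) (t j) := RZ_back h hi hs ht hf ha (hab ▸ hz)
    exact ⟨⟨π b • y, h1⟩, hab, rfl⟩
  · intro a b c _ _ h1 h2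
    change z = π (a * b) • y
    rw [map_mul, mul_smul, ← h2]
    exact h1
  · intro b c c' h1 h2
    exact Subtype.ext (h1.trans h2.symm)

/-! ## The internal differential -/

theorem sgn_add (n r : ℤ) : sgn (n + r) = sgn n * sgn r := by
  rw [sgn, Int.negOnePow_add, Units.val_mul, sgn, sgn]

/-- `phiB` and `phiM f` commute up to sign. -/
theorem phiM_phiB (hi : i ∈ U) {X Y : Ob (SP h)} {s : X.ι → Sub (h i)} {t : Y.ι → Sub (h i)}
    (hs : ∀ l, X.sz l i = s l) (ht : ∀ l, Y.sz l i = t l) {r : ℤ}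
    {f : Matrix X.ι Y.ι (ZM N)} (hf : Ct π U r X Y f) :
    phiM h π i s t f * phiB h N i Y t = sgn r • (phiB h N i X s * phiM h π i s t f) := by
  classical
  funext a b
  obtain ⟨l, z, hz⟩ := a
  obtain ⟨k, y, hy⟩ := b
  letI : ∀ j, Fintype {z : ZZ (h i) // RZ (h i) z (t j)} := fun j => Fintype.ofFinite _
  letI : ∀ j, Fintype {z : ZZ (h i) // RZ (h i) z (s j)} := fun j => Fintype.ofFinite _
  rw [Matrix.smul_apply, Matrix.mul_apply, Matrix.mul_apply]
  have e1 : (∑ j : (phiO h i Y t).ι, phiM h π i s t f ⟨l, z, hz⟩ j *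
      phiB h N i Y t j ⟨k, y, hy⟩) = ∑ c : {z : ZZ (h i) // RZ (h i) z (t k)},
        (sgn (Y.deg k) * bdZ (h i) c.1 y) • filt (fun m => z = π m • c.1) (f l k) := by
    refine (sum_sig (phiO h i Y t).ft _).trans ?_
    rw [Finset.sum_eq_single k]
    · refine Finset.sum_congr rfl fun c _ => ?_
      change filt (fun m => z = π m • c.1) (f l k) * (if k = k then
        MonoidAlgebra.single 1 (sgn (Y.deg k) * bdZ (h i) c.1 y) else 0) = _
      rw [if_pos rfl, mul_single_one']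
    · intro j _ hj
      refine Finset.sum_eq_zero fun c _ => ?_
      change filt (fun m => z = π m • c.1) (f l j) * (if j = k then
        MonoidAlgebra.single 1 (sgn (Y.deg j) * bdZ (h i) c.1 y) else 0) = _
      rw [if_neg hj, mul_zero]
    · exact fun hk => absurd (Finset.mem_univ k) hk
  have e2 : (∑ j : (phiO h i X s).ι, phiB h N i X s ⟨l, z, hz⟩ j *
      phiM h π i s t f j ⟨k, y, hy⟩) = ∑ c : {z : ZZ (h i) // RZ (h i) z (s l)},
        (sgn (X.deg l) * bdZ (h i) z c.1) • filt (fun m => c.1 = π m • y) (f l k) := by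
    refine (sum_sig (phiO h i X s).ft _).trans ?_
    rw [Finset.sum_eq_single l]
    · refine Finset.sum_congr rfl fun c _ => ?_
      change (if l = l then MonoidAlgebra.single 1 (sgn (X.deg l) * bdZ (h i) z c.1) else 0) *
        filt (fun m => c.1 = π m • y) (f l k) = _
      rw [if_pos rfl, single_one_mul']
    · intro j _ hj
      refine Finset.sum_eq_zero fun c _ => ?_
      change (if l = j then MonoidAlgebra.single 1 (sgn (X.deg l) * bdZ (h i) z c.1) else 0) *
        filt (fun m => c.1 = π m • y) (f j k) = _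
      rw [if_neg (Ne.symm hj), zero_mul]
    · exact fun hk => absurd (Finset.mem_univ l) hk
  rw [e1, e2]
  refine zm_ext fun m => ?_
  rw [MonoidAlgebra.coeff_smul, Finsupp.smul_apply, coeff_sum', coeff_sum']
  have h5 : ∀ (c : ℤ) (x : ZM N), (c • x).coeff m = c * x.coeff m := fun c x => by
    rw [MonoidAlgebra.coeff_smul, Finsupp.smul_apply, smul_eq_mul]
  simp only [h5]
  by_cases hm : (f l k).coeff m = 0
  · have h6 : ∀ p : N → Prop, (filt p (f l k)).coeff m = 0 := fun p => by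
      rw [filt_coeff, hm, ite_self]
    simp only [h6, mul_zero, Finset.sum_const_zero, smul_zero]
  -- the left side
  obtain ⟨hdeg, -⟩ := hf l k m hm
  have hzw : RZ (h i) ((π m)⁻¹ • z) (t k) :=
    RZ_back h hi hs ht hf hm (by rw [smul_inv_smul]; exact hz)
  have e3 : (∑ c : {z : ZZ (h i) // RZ (h i) z (t k)}, sgn (Y.deg k) * bdZ (h i) c.1 y *
      (filt (fun m => z = π m • c.1) (f l k)).coeff m) =
      sgn (Y.deg k) * bdZ (h i) z (π m • y) * (f l k).coeff m := by
    rw [Finset.sum_eq_single ⟨(π m)⁻¹ • z, hzw⟩]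
    · rw [filt_coeff, if_pos (smul_inv_smul _ _).symm]
      congr 2
      rw [← bdZ_smul (h i) (π m) ((π m)⁻¹ • z) y, smul_inv_smul]
    · intro c _ hc
      rw [filt_coeff, if_neg, mul_zero]
      intro h1
      apply hc
      apply Subtype.ext
      change c.1 = (π m)⁻¹ • z
      rw [h1, inv_smul_smul]
    · exact fun hk => absurd (Finset.mem_univ _) hk
  have e4 : (∑ c : {z : ZZ (h i) // RZ (h i) z (s l)}, sgn (X.deg l) * bdZ (h i) z c.1 *
      (filt (fun m => c.1 = π m • y) (f l k)).coeff m) =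
      sgn (X.deg l) * bdZ (h i) z (π m • y) * (f l k).coeff m := by
    by_cases hb : bdZ (h i) z (π m • y) = 0
    · rw [hb, mul_zero, zero_mul]
      refine Finset.sum_eq_zero fun c _ => ?_
      by_cases hc : c.1 = π m • y
      · rw [hc, hb, mul_zero, zero_mul]
      · rw [filt_coeff, if_neg hc, mul_zero]
    · have h6 := (bdZ_ne (h i) hb hz).1
      rw [Finset.sum_eq_single ⟨π m • y, h6⟩]
      · rw [filt_coeff, if_pos rfl]
      · intro c _ hc
        rw [filt_coeff, if_neg, mul_zero]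
        intro h1
        exact hc (Subtype.ext h1)
      · exact fun hk => absurd (Finset.mem_univ _) hk
  rw [e3, e4, hdeg, sgn_add, smul_eq_mul]
  ring

theorem phiB_ct {X : Ob (SP h)} (s : X.ι → Sub (h i)) :
    Ct π U (-1) (phiO h i X s) (phiO h i X s) (phiB h N i X s) := by
  classical
  rintro ⟨l, z, hz⟩ ⟨k, w, hw⟩ m hm
  change ((if l = k then MonoidAlgebra.single 1 (sgn (X.deg l) * bdZ (h i) z w) else 0 :
    ZM N)).coeff m ≠ 0 at hm
  by_cases hlk : l = k
  · subst hlk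
    rw [if_pos rfl] at hm
    have h1 : m = 1 := coeff_single_ne hm
    subst h1
    have h2 : bdZ (h i) z w ≠ 0 := by
      intro h0
      rw [h0, mul_zero, MonoidAlgebra.single_zero] at hm
      exact hm rfl
    obtain ⟨-, h4, h5, -⟩ := bdZ_ne (h i) h2 hz
    constructor
    · change X.deg l + dgZ (h i) w = X.deg l + dgZ (h i) z + -1
      rw [h4]
      ring
    · intro i' _
      change Function.update (X.sz l) i (szZ (h i) z) i' ≤
        π 1 • Function.update (X.sz l) i (szZ (h i) w) i'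
      rw [map_one, one_smul]
      by_cases hii : i' = i
      · subst hii
        rw [Function.update_self, Function.update_self]
        exact h5
      · rw [Function.update_of_ne hii, Function.update_of_ne hii]
  · rw [if_neg hlk] at hm
    exact absurd rfl hm

theorem phiB_phiB {X : Ob (SP h)} (s : X.ι → Sub (h i)) :
    phiB h N i X s * phiB h N i X s = 0 := by
  classical
  funext a b
  rw [Matrix.mul_apply]
  refine Finset.sum_eq_zero fun c _ => ?_
  obtain ⟨l, z, hz⟩ := a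
  obtain ⟨k, y, hy⟩ := b
  obtain ⟨j, w, hw⟩ := c
  change (if l = j then MonoidAlgebra.single 1 (sgn (X.deg l) * bdZ (h i) z w) else 0 : ZM N) *
    (if j = k then MonoidAlgebra.single 1 (sgn (X.deg j) * bdZ (h i) w y) else 0) = 0
  by_cases h1 : bdZ (h i) z w = 0
  · rw [h1, mul_zero, MonoidAlgebra.single_zero, ite_self, zero_mul]
  · rw [(bdZ_ne (h i) h1 hz).2.2.2 y, mul_zero, MonoidAlgebra.single_zero, ite_self, mul_zero]

/-! ## Complexes -/

theorem phi_isCx (hi : i ∈ U) {X : Co (SP h) N} {s : X.ι → Sub (h i)}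
    (hs : ∀ l, X.sz l i = s l) (hX : IsCx π U X) : IsCx π U (phi h π i X s) := by
  refine ⟨(phiM_ct h hi hX.1).add (phiB_ct h s), ?_⟩
  change (phiM h π i s s X.d + phiB h N i X.toOb s) * (phiM h π i s s X.d + phiB h N i X.toOb s) = 0
  have h1 := phiM_phiB h hi hs hs hX.1
  have h2 := phiM_mul h hi (w := s) hs hs X.d hX.1
  rw [hX.2, phiM_zero] at h2
  have h3 : sgn (-1) = -1 := by decide
  rw [h3] at h1
  rw [Matrix.add_mul, Matrix.mul_add, Matrix.mul_add, ← h2, phiB_phiB, h1, neg_smul, one_smul]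
  abel

theorem phi_ch (hi : i ∈ U) {X Y : Co (SP h) N} {s : X.ι → Sub (h i)} {t : Y.ι → Sub (h i)}
    {f : Matrix X.ι Y.ι (ZM N)} (hs : ∀ l, X.sz l i = s l) (ht : ∀ l, Y.sz l i = t l)
    (hX : IsCx π U X) (hf : Ch π U X Y f) :
    Ch π U (phi h π i X s) (phi h π i Y t) (phiM h π i s t f) := by
  refine ⟨phiM_ct h hi hf.1, ?_⟩
  change (phiM h π i s s X.d + phiB h N i X.toOb s) * phiM h π i s t f =
    phiM h π i s t f * (phiM h π i t t Y.d + phiB h N i Y.toOb t)
  have h1 := phiM_phiB h hi hs ht hf.1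
  have h2 := phiM_mul h hi (w := t) hs hs f hX.1
  have h3 := phiM_mul h hi (w := t) hs ht Y.d hf.1
  have h4 : sgn 0 = 1 := by decide
  rw [h4, one_smul] at h1
  rw [Matrix.add_mul, Matrix.mul_add, ← h2, hf.2, h3, h1]

theorem phi_nul (hi : i ∈ U) {X Y : Co (SP h) N} {s : X.ι → Sub (h i)} {t : Y.ι → Sub (h i)}
    {f : Matrix X.ι Y.ι (ZM N)} (hs : ∀ l, X.sz l i = s l) (ht : ∀ l, Y.sz l i = t l)
    (hX : IsCx π U X) (hf : Nul π U X Y f) :
    Nul π U (phi h π i X s) (phi h π i Y t) (phiM h π i s t f) := by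
  obtain ⟨σ, hσ, hfσ⟩ := hf
  refine ⟨phiM h π i s t σ, phiM_ct h hi hσ, ?_⟩
  change phiM h π i s t f = (phiM h π i s s X.d + phiB h N i X.toOb s) * phiM h π i s t σ +
    phiM h π i s t σ * (phiM h π i t t Y.d + phiB h N i Y.toOb t)
  have h1 := phiM_phiB h hi hs ht hσ
  have h2 := phiM_mul h hi (w := t) hs hs σ hX.1
  have h3 := phiM_mul h hi (w := t) hs ht Y.d hσ
  have h4 : sgn 1 = -1 := by decide
  rw [h4] at h1
  rw [Matrix.add_mul, Matrix.mul_add, ← h2, ← h3, h1, hfσ, phiM_add, neg_smul, one_smul]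
  abel

theorem stU1 : StU1 := by
  intro Γ _ D _ V _ T h N _ π U i hi
  refine ⟨fun X Y s t r f _ _ hf => phiM_ct h hi hf,
    fun X Y Z s t w r r' f g hs ht _ hf _ => phiM_mul h hi hs ht g hf,
    fun X s _ => phiM_one h s,
    fun X Y s t f g => ⟨phiM_add h s t f g, phiM_neg h s t f, phiM_zero h s t⟩,
    fun X s hs hX => phi_isCx h hi hs hX,
    fun X Y s t f hs ht hX _ => ⟨phi_ch h hi hs ht hX, phi_nul h hi hs ht hX⟩⟩

end

end Pool.Agent.Lib.MP_551055_al.W17
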