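import Mathlib
import Pool.Agent.Lib.MP_551055_al.Trim.LS.PStmts
import Pool.Agent.Lib.MP_551055_al.Trim.LS.Stmts
import Pool.Agent.Lib.MP_551055_al.Trim.LS.TreeA
import Pool.Agent.Lib.MP_551055_al.Trim.MT.Defs
import Pool.Agent.Lib.MP_551055_al.Trim.MT.Trees
import Pool.Agent.Lib.MP_551055_al.Trim.PT.Stmts
import Pool.Agent.Lib.MP_551055_al.Trim.W17.Defs

/-!
# Trees and products: the contraction of the flags of a finite subtree
-/

set_option autoImplicit false

set_option linter.unusedSectionVars false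

namespace Pool.Agent.Lib.MP_551055_al
end Pool.Agent.Lib.MP_551055_al

namespace Pool.Agent.Lib.MP_551055_al.LS
end Pool.Agent.Lib.MP_551055_al.LS

namespace Pool.Agent.Lib.MP_551055_al.PT
end Pool.Agent.Lib.MP_551055_al.PT

namespace Pool.Agent.Lib.MP_551055_al.MT
end Pool.Agent.Lib.MP_551055_al.MT

namespace Pool.Agent.Lib.MP_551055_al.W17

open Pool.Agent.Lib.MP_551055_al

open Pool.Agent.Lib.MP_551055_al.LS (TreeAct ZN side)

open Pool.Agent.Lib.MP_551055_al.PT (EC)

open Pool.Agent.Lib.MP_551055_al.MT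

open Matrix

section

variable {Γ : Type} [Group Γ] {V : Type} [MulAction Γ V] {T : SimpleGraph V} (h : TreeAct Γ V T)

/-- Induction in a finite subtree. -/
theorem sub_induction {A : Sub h} {P : V → Prop} {x : V} (hx : x ∈ A.set) (h0 : P x)
    (hs : ∀ u v, T.Adj u v → u ∈ A.set → v ∈ A.set → P u → P v) :
    ∀ y, y ∈ A.set → P y := by
  have key : ∀ n : ℕ, ∀ x, x ∈ A.set → P x → ∀ y, y ∈ A.set → T.dist y x = n → P y := by
    intro n
    induction n with
    | zero =>
      intro x hx h0 y hy hxy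
      have h1 : y = x := (h.tree.connected.dist_eq_zero_iff).1 hxy
      rw [h1]
      exact h0
    | succ n ih =>
      intro x hx h0 y hy hxy
      obtain ⟨z, hz1, hz2⟩ : ∃ z, T.Adj x z ∧ T.dist y z = n := by
        obtain ⟨p, hp⟩ := h.tree.connected.exists_walk_length_eq_dist x y
        rw [T.dist_comm] at hxy
        rw [hxy] at hp
        cases p with
        | nil => exact absurd hp (by simp)
        | @cons _ z _ hadj q =>
          rw [SimpleGraph.Walk.length_cons] at hp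
          have h5 := SimpleGraph.dist_le q
          have h6 := h.tree.connected.dist_triangle (u := x) (v := z) (w := y)
          have h7 : T.dist x z = 1 := T.dist_eq_one_iff_adj.2 hadj
          refine ⟨z, hadj, ?_⟩
          rw [T.dist_comm]
          omega
      have h1 : y ∈ side T x z := by
        rw [LS.mem_side_iff]
        omega
      have h2 : x ∉ side T x z := (LS.stTreeA V T h.tree x z hz1).2.1
      obtain ⟨-, h3⟩ := A.2.2.2 x z hz1 ⟨y, hy, h1⟩ ⟨x, hx, h2⟩
      exact ih z h3 (hs x z hz1 hx h3 h0) y hy hz2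
  intro y hy
  exact key _ x hx h0 y hy rfl

theorem vtx_inj {u v : V} (huv : vtx h u = vtx h v) : u = v := by
  have h1 := congrArg Sub.set huv
  rw [vtx_set, vtx_set] at h1
  exact Set.singleton_injective h1

theorem edg_inj_right {u v w : V} (hv : T.Adj u v) (hw : T.Adj u w)
    (hvw : edg h u v = edg h u w) : v = w := by
  have h1 := congrArg Sub.set hvw
  rw [edg_set h hv, edg_set h hw] at h1
  have h2 : v ∈ ({u, w} : Set V) := h1 ▸ (Or.inr rfl)
  rcases h2 with h2 | h2
  · exact absurd h2.symm (T.ne_of_adj hv)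
  · exact h2

theorem vtx_ne_edg {u v w : V} (hv : T.Adj u v) : vtx h w ≠ edg h u v := by
  intro h1
  have h2 := congrArg Sub.set h1
  rw [edg_set h hv, vtx_set] at h2
  have h3 : u ∈ ({w} : Set V) := h2.symm ▸ (Or.inl rfl)
  have h4 : v ∈ ({w} : Set V) := h2.symm ▸ (Or.inr rfl)
  have h5 : u = w := h3
  have h6 : v = w := h4
  exact T.ne_of_adj hv (h5.trans h6.symm)

/-- The two forms of a flag. -/
theorem flag_form {f : Sub h × Sub h} (h1 : IsV h f.1) (h2 : IsE h f.2) (h3 : f.1 ≤ f.2) :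
    ∃ v v', T.Adj v v' ∧ f = (vtx h v, edg h v v') := by
  obtain ⟨f1, f2⟩ := f
  obtain ⟨v, rfl⟩ := h1
  obtain ⟨a, b, hab, rfl⟩ := h2
  rw [vtx_le, edg_set h hab] at h3
  rcases h3 with h3 | h3
  · exact ⟨a, b, hab, by rw [h3]⟩
  · have h4 : v = b := h3
    exact ⟨b, a, hab.symm, by rw [h4, edg_comm h hab]⟩

/-- The cell `σ` is on the side of the vertex of the flag `f`. -/
def sF (f : Sub h × Sub h) (σ : Sub h) : Prop :=
  ∀ v v', T.Adj v v' → f.1 = vtx h v → f.2 = edg h v v' → σ.set ⊆ side T v' v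

theorem sF_iff {v v' : V} (hv : T.Adj v v') (σ : Sub h) :
    sF h (vtx h v, edg h v v') σ ↔ σ.set ⊆ side T v' v := by
  constructor
  · intro h1
    exact h1 v v' hv rfl rfl
  · intro h1 w w' hw h2 h3
    have h4 := vtx_inj h h2
    subst h4
    have h5 := edg_inj_right h hv hw h3
    subst h5
    exact h1

open Classical in
/-- The contraction of the complex of cells and flags to the cell `s`. -/
noncomputable def eta (s : Sub h) : ZZ h → ZZ h → ℤ
  | Sum.inl σ, Sum.inr f => (if sF h f s then 1 else 0) - (if sF h f σ then 1 else 0)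
  | _, _ => 0

theorem eta_ne {s : Sub h} {z w : ZZ h} (hzw : eta h s z w ≠ 0) :
    dgZ h z = 0 ∧ dgZ h w = 1 := by
  rcases z with σ | f <;> rcases w with τ | f'
  · exact absurd rfl hzw
  · exact ⟨rfl, rfl⟩
  · exact absurd rfl hzw
  · exact absurd rfl hzw

open Classical in
theorem eta_flag {s : Sub h} {A : Sub h} {f f' : Sub h × Sub h} (hf : RZ h (Sum.inr f) A)
    (hf' : RZ h (Sum.inr f') A) :
    eta h s (Sum.inl f.2) (Sum.inr f') - eta h s (Sum.inl f.1) (Sum.inr f') =
      if f = f' then 1 else 0 := by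
  obtain ⟨v, v', hv, rfl⟩ := flag_form h hf.1 hf.2.1 hf.2.2.1
  obtain ⟨w, w', hw, rfl⟩ := flag_form h hf'.1 hf'.2.1 hf'.2.2.1
  change ((if sF h (vtx h w, edg h w w') s then 1 else 0) -
      (if sF h (vtx h w, edg h w w') (edg h v v') then 1 else 0) : ℤ) -
      ((if sF h (vtx h w, edg h w w') s then 1 else 0) -
      (if sF h (vtx h w, edg h w w') (vtx h v) then 1 else 0)) = _
  obtain ⟨h1, h2, h3, h4⟩ := LS.stTreeA V T h.tree w' w hw.symm
  have e1 : sF h (vtx h w, edg h w w') (edg h v v') ↔ v ∈ side T w' w ∧ v' ∈ side T w' w := by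
    rw [sF_iff h hw, edg_set h hv, Set.pair_subset_iff]
  have e2 : sF h (vtx h w, edg h w w') (vtx h v) ↔ v ∈ side T w' w := by
    rw [sF_iff h hw, vtx_set, Set.singleton_subset_iff]
  generalize (if sF h (vtx h w, edg h w w') s then 1 else 0 : ℤ) = c
  by_cases hvs : v ∈ side T w' w
  · by_cases hvs' : v' ∈ side T w' w
    · rw [if_pos (e1.2 ⟨hvs, hvs'⟩), if_pos (e2.2 hvs)]
      rw [if_neg]
      · ring
      · intro h5
        obtain ⟨h6, h7⟩ := Prod.ext_iff.1 h5
        have h8 := vtx_inj h h6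
        subst h8
        have h9 := edg_inj_right h hv hw h7
        subst h9
        exact h2 hvs'
    · rw [if_neg (c := sF h (vtx h w, edg h w w') (edg h v v')) fun h5 => hvs' (e1.1 h5).2,
        if_pos (e2.2 hvs)]
      obtain ⟨h5, h6⟩ := h4 v v' hv hvs hvs'
      rw [if_pos (by rw [h5, h6])]
      ring
  · rw [if_neg (c := sF h (vtx h w, edg h w w') (edg h v v')) fun h5 => hvs (e1.1 h5).1,
      if_neg (c := sF h (vtx h w, edg h w w') (vtx h v)) fun h5 => hvs (e2.1 h5)]
    rw [if_neg]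
    · ring
    · intro h5
      obtain ⟨h6, h7⟩ := Prod.ext_iff.1 h5
      have h8 := vtx_inj h h6
      subst h8
      exact hvs h1

theorem isV_of_flag {A : Sub h} {f : Sub h × Sub h} (hf : RZ h (Sum.inr f) A) :
    RZ h (Sum.inl f.1) A ∧ RZ h (Sum.inl f.2) A ∧ f.1 ≠ f.2 := by
  obtain ⟨h1, h2, h3, h4⟩ := hf
  refine ⟨⟨Or.inl h1, h3.trans h4⟩, ⟨Or.inr h2, h4⟩, ?_⟩
  obtain ⟨v, v', hv, rfl⟩ := flag_form h h1 h2 h3
  exact vtx_ne_edg h hv

/-- The sum over the boundary of a flag. -/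
theorem sum_bd {A : Sub h} [Fintype {z : ZZ h // RZ h z A}] {f : Sub h × Sub h}
    (hf : RZ h (Sum.inr f) A) (F : ZZ h → ℤ) :
    ∑ y : {z : ZZ h // RZ h z A}, bdZ h (Sum.inr f) y.1 * F y.1 =
      F (Sum.inl f.2) - F (Sum.inl f.1) := by
  classical
  obtain ⟨h1, h2, h3⟩ := isV_of_flag h hf
  have e1 : ∀ y : {z : ZZ h // RZ h z A}, bdZ h (Sum.inr f) y.1 * F y.1 =
      (if y = ⟨Sum.inl f.2, h2⟩ then F (Sum.inl f.2) else 0) -
        (if y = ⟨Sum.inl f.1, h1⟩ then F (Sum.inl f.1) else 0) := by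
    rintro ⟨y | y, hy⟩
    · change ((if y = f.2 then 1 else 0) - (if y = f.1 then 1 else 0) : ℤ) * F (Sum.inl y) = _
      simp only [Subtype.mk.injEq, Sum.inl.injEq]
      by_cases h4 : y = f.2
      · have h5 : y ≠ f.1 := fun h6 => h3 (h6.symm.trans h4)
        rw [if_pos h4, if_neg h5, if_pos h4, if_neg h5, h4]
        ring
      · by_cases h5 : y = f.1
        · rw [if_pos h5, if_neg h4, if_pos h5, if_neg h4, h5]
          ring
        · rw [if_neg h4, if_neg h5, if_neg h4, if_neg h5]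
          ring
    · change (0 : ℤ) * F (Sum.inr y) = _
      rw [if_neg, if_neg]
      · ring
      · intro h4
        exact absurd (congrArg Subtype.val h4) (by simp)
      · intro h4
        exact absurd (congrArg Subtype.val h4) (by simp)
  rw [Finset.sum_congr rfl fun y _ => e1 y, Finset.sum_sub_distrib, Finset.sum_ite_eq',
    Finset.sum_ite_eq', if_pos (Finset.mem_univ _), if_pos (Finset.mem_univ _)]

open Classical in
theorem bd_eta {s : Sub h} {A : Sub h} [Fintype {z : ZZ h // RZ h z A}] {f : Sub h × Sub h}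
    (hf : RZ h (Sum.inr f) A) {w : ZZ h} (hw : RZ h w A) :
    ∑ y : {z : ZZ h // RZ h z A}, bdZ h (Sum.inr f) y.1 * eta h s y.1 w =
      if Sum.inr f = w then 1 else 0 := by
  rw [sum_bd h hf fun y => eta h s y w]
  rcases w with σ | f'
  · change (0 : ℤ) - 0 = _
    rw [if_neg (by simp), sub_zero]
  · rw [eta_flag h hf hw]
    simp only [Sum.inr.injEq]

open Classical in
/-- The contraction of the cells. -/
theorem eta_bd {s : Sub h} {A : Sub h} [Fintype {z : ZZ h // RZ h z A}] (hs : Cl h s)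
    (hsA : s ≤ A) {σ : Sub h} (hσ : Cl h σ) (hσA : σ ≤ A) (τ : ZZ h) :
    ∑ w : {z : ZZ h // RZ h z A}, eta h s (Sum.inl σ) w.1 * bdZ h w.1 τ =
      (if Sum.inl σ = τ then 1 else 0) - (if Sum.inl s = τ then 1 else 0) := by
  let P : Sub h → Prop := fun σ =>
    ∑ w : {z : ZZ h // RZ h z A}, eta h s (Sum.inl σ) w.1 * bdZ h w.1 τ =
      (if Sum.inl σ = τ then 1 else 0) - (if Sum.inl s = τ then 1 else 0)
  have hP0 : P s := by
    change ∑ w : {z : ZZ h // RZ h z A}, eta h s (Sum.inl s) w.1 * bdZ h w.1 τ = _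
    rw [sub_self]
    refine Finset.sum_eq_zero fun w _ => ?_
    obtain ⟨w | w, hw⟩ := w
    · change (0 : ℤ) * _ = 0
      rw [zero_mul]
    · change ((if sF h w s then 1 else 0) - (if sF h w s then 1 else 0) : ℤ) * _ = 0
      rw [sub_self, zero_mul]
  -- the step
  have hstep : ∀ f : Sub h × Sub h, RZ h (Sum.inr f) A → (P f.1 ↔ P f.2) := by
    intro f hf
    have h1 : ∑ w : {z : ZZ h // RZ h z A}, eta h s (Sum.inl f.2) w.1 * bdZ h w.1 τ -
        ∑ w : {z : ZZ h // RZ h z A}, eta h s (Sum.inl f.1) w.1 * bdZ h w.1 τ =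
        bdZ h (Sum.inr f) τ := by
      rw [← Finset.sum_sub_distrib]
      have h2 : ∀ w : {z : ZZ h // RZ h z A}, eta h s (Sum.inl f.2) w.1 * bdZ h w.1 τ -
          eta h s (Sum.inl f.1) w.1 * bdZ h w.1 τ =
          if w = ⟨Sum.inr f, hf⟩ then bdZ h (Sum.inr f) τ else 0 := by
        rintro ⟨w | w, hw⟩
        · change (0 : ℤ) * _ - 0 * _ = _
          rw [if_neg (fun h4 => absurd (congrArg Subtype.val h4) (by simp))]
          ring
        · rw [← sub_mul, eta_flag h hf hw]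
          by_cases h5 : f = w
          · subst h5
            rw [if_pos rfl, if_pos rfl, one_mul]
          · rw [if_neg h5, if_neg (fun h4 => h5 (Sum.inr.inj (congrArg Subtype.val h4)).symm),
              zero_mul]
      rw [Finset.sum_congr rfl fun w _ => h2 w, Finset.sum_ite_eq',
        if_pos (Finset.mem_univ _)]
    have h3 : bdZ h (Sum.inr f) τ = (if Sum.inl f.2 = τ then 1 else 0) -
        (if Sum.inl f.1 = τ then 1 else 0) := by
      rcases τ with τ | τ
      · change ((if τ = f.2 then 1 else 0) - (if τ = f.1 then 1 else 0) : ℤ) = _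
        simp only [Sum.inl.injEq, eq_comm]
      · change (0 : ℤ) = _
        rw [if_neg (by simp), if_neg (by simp), sub_zero]
    rw [h3] at h1
    change (_ = _) ↔ (_ = _)
    constructor
    · intro h4
      linarith
    · intro h4
      linarith
  -- a vertex
  have hv0 : ∃ v, v ∈ A.set ∧ P (vtx h v) := by
    rcases hs with ⟨v, rfl⟩ | ⟨a, b, hab, rfl⟩
    · exact ⟨v, (vtx_le h).1 hsA, hP0⟩
    · refine ⟨a, ((edg_le h hab).1 hsA).1, ?_⟩
      refine (hstep (vtx h a, edg h a b) ⟨⟨a, rfl⟩, ⟨a, b, hab, rfl⟩, ?_, hsA⟩).2 hP0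
      rw [vtx_le, edg_set h hab]
      exact Or.inl rfl
  obtain ⟨v0, hv0, hPv0⟩ := hv0
  have hvt : ∀ v, v ∈ A.set → P (vtx h v) := by
    refine sub_induction h (P := fun v => P (vtx h v)) hv0 hPv0 fun u v huv hu hv hPu => ?_
    have h1 : edg h u v ≤ A := (edg_le h huv).2 ⟨hu, hv⟩
    have h2 : vtx h u ≤ edg h u v := by
      rw [vtx_le, edg_set h huv]
      exact Or.inl rfl
    have h3 : vtx h v ≤ edg h u v := by
      rw [vtx_le, edg_set h huv]
      exact Or.inr rfl
    exact (hstep (vtx h v, edg h u v) ⟨⟨v, rfl⟩, ⟨u, v, huv, rfl⟩, h3, h1⟩).2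
      ((hstep (vtx h u, edg h u v) ⟨⟨u, rfl⟩, ⟨u, v, huv, rfl⟩, h2, h1⟩).1 hPu)
  rcases hσ with ⟨v, rfl⟩ | ⟨a, b, hab, rfl⟩
  · exact hvt v ((vtx_le h).1 hσA)
  · have h2 : vtx h a ≤ edg h a b := by
      rw [vtx_le, edg_set h hab]
      exact Or.inl rfl
    exact (hstep (vtx h a, edg h a b) ⟨⟨a, rfl⟩, ⟨a, b, hab, rfl⟩, h2, hσA⟩).1
      (hvt a ((edg_le h hab).1 hσA).1)

open Classical in
/-- The contraction of the complex of cells and flags. -/
theorem bd_eta_add {s : Sub h} {A : Sub h} [Fintype {z : ZZ h // RZ h z A}] (hs : Cl h s)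
    (hsA : s ≤ A) {z w : ZZ h} (hz : RZ h z A) (hw : RZ h w A) :
    ∑ y : {z : ZZ h // RZ h z A}, bdZ h z y.1 * eta h s y.1 w +
      ∑ y : {z : ZZ h // RZ h z A}, eta h s z y.1 * bdZ h y.1 w =
      (if z = w then 1 else 0) - (if dgZ h z = 0 ∧ w = Sum.inl s then 1 else 0) := by
  rcases z with σ | f
  · have h1 : ∑ y : {z : ZZ h // RZ h z A}, bdZ h (Sum.inl σ) y.1 * eta h s y.1 w = 0 :=
      Finset.sum_eq_zero fun y _ => zero_mul _
    rw [h1, zero_add, eta_bd h hs hsA hz.1 hz.2]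
    have h2 : (Sum.inl s = w) ↔ (dgZ h (Sum.inl σ) = 0 ∧ w = Sum.inl s) :=
      ⟨fun h3 => ⟨rfl, h3.symm⟩, fun h3 => h3.2.symm⟩
    simp only [h2]
  · have h1 : ∑ y : {z : ZZ h // RZ h z A}, eta h s (Sum.inr f) y.1 * bdZ h y.1 w = 0 :=
      Finset.sum_eq_zero fun y _ => by
        have h2 : eta h s (Sum.inr f) y.1 = 0 := by
          rcases y.1 with _ | _ <;> rfl
        rw [h2, zero_mul]
    rw [h1, add_zero, bd_eta h hz hw]
    have h2 : ¬(dgZ h (Sum.inr f) = 0 ∧ w = Sum.inl s) := fun h3 => absurd h3.1 one_ne_zero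
    rw [if_neg h2, sub_zero]

/-- In a cell the contraction is controlled. -/
theorem eta_le {A σ : Sub h} {f : Sub h × Sub h} (hA : Cl h A) (hσA : σ ≤ A)
    (hf : RZ h (Sum.inr f) A) (hne : eta h A (Sum.inl σ) (Sum.inr f) ≠ 0) : σ ≤ f.1 := by
  classical
  obtain ⟨v, v', hv, rfl⟩ := flag_form h hf.1 hf.2.1 hf.2.2.1
  have hAe : edg h v v' ≤ A := hf.2.2.2
  rw [edg_le h hv] at hAe
  have hA2 : A.set = {v, v'} := by
    rcases hA with ⟨a, rfl⟩ | ⟨a, b, hab, rfl⟩
    · rw [vtx_set] at hAe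
      have h5 : v = a := hAe.1
      have h6 : v' = a := hAe.2
      exact absurd (h5.trans h6.symm) (T.ne_of_adj hv)
    · rw [edg_set h hab] at hAe ⊢
      rcases hAe with ⟨h5 | h5, h6 | h6⟩
      · exact absurd (h5.trans h6.symm) (T.ne_of_adj hv)
      · have h6' : v' = b := h6
        rw [h5, h6']
      · have h5' : v = b := h5
        rw [h5', h6, Set.pair_comm]
      · have h5' : v = b := h5
        have h6' : v' = b := h6
        exact absurd (h5'.trans h6'.symm) (T.ne_of_adj hv)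
  obtain ⟨h1, h2, h3, h4⟩ := LS.stTreeA V T h.tree v' v hv.symm
  change ((if sF h (vtx h v, edg h v v') A then 1 else 0) -
      (if sF h (vtx h v, edg h v v') σ then 1 else 0) : ℤ) ≠ 0 at hne
  rw [if_neg, zero_sub, neg_ne_zero] at hne
  · have h5 : sF h (vtx h v, edg h v v') σ := by
      by_contra h6
      rw [if_neg h6] at hne
      exact hne rfl
    rw [sF_iff h hv] at h5
    rw [Sub.le_iff, vtx_set]
    intro x hx
    have h6 : x ∈ A.set := hσA hx
    rw [hA2] at h6
    rcases h6 with h6 | h6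
    · exact h6
    · have h7 : x = v' := h6
      rw [h7] at hx
      exact absurd (h5 hx) h2
  · intro h5
    rw [sF_iff h hv, hA2] at h5
    exact h2 (h5 (Or.inr rfl))

end

end Pool.Agent.Lib.MP_551055_al.W17
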