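import Mathlib
import Pool.Agent.Lib.MP_551055_al.Trim.LS.PStmts
import Pool.Agent.Lib.MP_551055_al.Trim.LS.Stmts
import Pool.Agent.Lib.MP_551055_al.Trim.MT.Base
import Pool.Agent.Lib.MP_551055_al.Trim.MT.Defs
import Pool.Agent.Lib.MP_551055_al.Trim.MT.Trees
import Pool.Agent.Lib.MP_551055_al.Trim.PT.Stmts
import Pool.Agent.Lib.MP_551055_al.Trim.W17.Defs
import Pool.Agent.Lib.MP_551055_al.Trim.W17.Filt
import Pool.Agent.Lib.MP_551055_al.Trim.W17.StU
import Pool.Agent.Lib.MP_551055_al.Trim.W17.U1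
import Pool.Agent.Lib.MP_551055_al.Trim.W17.U2a

/-!
# Trees and products: module U2 (the augmentation of the cell functor)
-/

set_option autoImplicit false

set_option linter.unusedSectionVars false

namespace Pool.Agent.Lib.MP_551055_al
end Pool.Agent.Lib.MP_551055_al

namespace Pool.Agent.Lib.MP_551055_al.LS
end Pool.Agent.Lib.MP_551055_al.LS

namespace Pool.Agent.Lib.MP_551055_al.MT
end Pool.Agent.Lib.MP_551055_al.MT

namespace Pool.Agent.Lib.MP_551055_al.W17

open Pool.Agent.Lib.MP_551055_al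

open Pool.Agent.Lib.MP_551055_al.LS (TreeAct ZN side)

open Pool.Agent.Lib.MP_551055_al.MT

open Matrix

/-! ## Contractions up to a nilpotent matrix -/

section

variable {Γ : Type} [Group Γ] {D : Type} {P : D → Type} [∀ i, PartialOrder (P i)]
  [∀ i, MulAction Γ (P i)] [SzAct Γ P] {N : Type} [Monoid N] {π : N →* Γ} {U : Finset D}

theorem ct_pow {X : Ob P} {n : Matrix X.ι X.ι (ZM N)} (hn : Ct π U 0 X X n) (k : ℕ) :
    Ct π U 0 X X (n ^ k) := by
  induction k with
  | zero => rw [pow_zero]; exact Ct.one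
  | succ k ih => rw [pow_succ]; exact ih.mul' hn (by ring)

theorem ct_sum {X Y : Ob P} {r : ℤ} {κ : Type} (s : Finset κ) {f : κ → Matrix X.ι Y.ι (ZM N)}
    (hf : ∀ a ∈ s, Ct π U r X Y (f a)) : Ct π U r X Y (∑ a ∈ s, f a) := by
  classical
  induction s using Finset.induction_on with
  | empty => exact Ct.zero
  | insert a s ha ih =>
    rw [Finset.sum_insert ha]
    exact (hf a (Finset.mem_insert_self a s)).add
      (ih fun b hb => hf b (Finset.mem_insert_of_mem hb))

theorem contr_of_nilp {X : Co P N} (hX : IsCx π U X) {H n : Matrix X.ι X.ι (ZM N)}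
    (hH : Ct π U 1 X.toOb X.toOb H) (hn : X.d * H + H * X.d = 1 + n) {k : ℕ} (hk : n ^ k = 0) :
    Contr π U X := by
  have hn1 : n = X.d * H + H * X.d - 1 := by rw [hn, add_sub_cancel_left]
  have hnc : Ct π U 0 X.toOb X.toOb n := by
    rw [hn1]
    exact ((hX.1.mul' hH (by ring)).add (hH.mul' hX.1 (by ring))).sub Ct.one
  have hcomm : X.d * n = n * X.d := by
    rw [hn1, Matrix.mul_sub, Matrix.sub_mul, Matrix.mul_add, Matrix.add_mul, Matrix.mul_one,
      Matrix.one_mul, ← Matrix.mul_assoc X.d X.d H, hX.2, Matrix.zero_mul, zero_add,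
      Matrix.mul_assoc H X.d X.d, hX.2, Matrix.mul_zero, add_zero, Matrix.mul_assoc]
  let S : Matrix X.ι X.ι (ZM N) := ∑ j ∈ Finset.range k, (-n) ^ j
  have hS1 : (1 + n) * S = 1 := by
    have h1 := mul_neg_geom_sum (-n) k
    rw [sub_neg_eq_add, neg_pow, hk, mul_zero, sub_zero] at h1
    exact h1
  have hS2 : S * X.d = X.d * S := by
    have h1 : Commute (-n) X.d := by
      change -n * X.d = X.d * -n
      rw [Matrix.neg_mul, Matrix.mul_neg, hcomm]
    have h2 : Commute S X.d := Commute.sum_left _ _ _ fun j _ => h1.pow_left j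
    exact h2
  have hS : Ct π U 0 X.toOb X.toOb S := ct_sum _ fun j _ => ct_pow hnc.neg j
  refine ⟨H * S, hH.mul' hS (by ring), ?_⟩
  rw [Matrix.mul_assoc H S X.d, hS2, ← Matrix.mul_assoc H, ← Matrix.mul_assoc X.d,
    ← Matrix.add_mul, hn, hS1]

theorem nilp_of_deg {R : Type} [Ring R] {ι : Type} [Fintype ι] [DecidableEq ι] (xd : ι → ℤ)
    (n : Matrix ι ι R) (hn : ∀ a b, n a b ≠ 0 → xd b = xd a - 1) : ∃ k, n ^ k = 0 := by
  have key : ∀ (k : ℕ) a b, (n ^ k) a b ≠ 0 → xd b = xd a - k := by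
    intro k
    induction k with
    | zero =>
      intro a b hab
      rw [pow_zero] at hab
      by_cases h1 : a = b
      · rw [h1]
        simp
      · rw [Matrix.one_apply_ne h1] at hab
        exact absurd rfl hab
    | succ k ih =>
      intro a b hab
      rw [pow_succ, Matrix.mul_apply] at hab
      obtain ⟨c, -, hc⟩ := Finset.exists_ne_zero_of_sum_ne_zero hab
      have h1 := ih a c (left_ne_zero_of_mul hc)
      have h2 := hn c b (right_ne_zero_of_mul hc)
      rw [h2, h1]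
      push_cast
      ring
  obtain ⟨K, hK⟩ : ∃ K : ℕ, ∀ a, |xd a| ≤ K := by
    refine ⟨∑ a, (xd a).natAbs, fun a => ?_⟩
    have h1 : (xd a).natAbs ≤ ∑ a, (xd a).natAbs :=
      Finset.single_le_sum (f := fun a => (xd a).natAbs) (fun _ _ => Nat.zero_le _)
        (Finset.mem_univ a)
    rw [← Int.natCast_natAbs]
    exact_mod_cast h1
  refine ⟨2 * K + 1, ?_⟩
  ext a b
  by_contra h1
  have h2 := key _ a b h1
  have h3 := abs_le.1 (hK a)
  have h4 := abs_le.1 (hK b)
  push_cast at h2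
  omega

end

/-! ## The augmentation -/

section

variable {Γ : Type} [Group Γ] {D : Type} [DecidableEq D] {V : D → Type} [∀ i, MulAction Γ (V i)]
  {T : ∀ i, SimpleGraph (V i)} (h : ∀ i, TreeAct Γ (V i) (T i)) {N : Type} [Monoid N]
  {π : N →* Γ} {U : Finset D} {i : D}

open Classical in
theorem phiA_apply {X : Ob (SP h)} (s : X.ι → Sub (h i)) (a : PhI h s) (k : X.ι) :
    phiA h N i X s a k = if a.1 = k ∧ dgZ (h i) a.2.1 = 0 then 1 else 0 := rfl

theorem phiA_ct {X : Ob (SP h)} {s : X.ι → Sub (h i)} (hs : ∀ l, X.sz l i = s l) :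
    Ct π U 0 (phiO h i X s) X (phiA h N i X s) := by
  classical
  rintro ⟨l, z, hz⟩ k m hm
  rw [phiA_apply] at hm
  by_cases h1 : l = k ∧ dgZ (h i) z = 0
  · rw [if_pos h1] at hm
    obtain ⟨h2, h3⟩ := h1
    subst h2
    have h4 : m = 1 := coeff_one_ne hm
    subst h4
    refine ⟨?_, fun i' _ => ?_⟩
    · change X.deg l = X.deg l + dgZ (h i) z + 0
      rw [h3]
      ring
    · rw [map_one, one_smul]
      change Function.update (X.sz l) i (szZ (h i) z) i' ≤ X.sz l i'
      by_cases h5 : i' = i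
      · subst h5
        rw [Function.update_self, hs]
        rcases z with z | z
        · exact hz.2
        · exact absurd h3 one_ne_zero
      · rw [Function.update_of_ne h5]
  · rw [if_neg h1] at hm
    exact absurd rfl hm

/-- Naturality of the augmentation. -/
theorem phiM_phiA (hi : i ∈ U) {X Y : Ob (SP h)} {s : X.ι → Sub (h i)} {t : Y.ι → Sub (h i)}
    (hs : ∀ l, X.sz l i = s l) (ht : ∀ l, Y.sz l i = t l) {r : ℤ}
    {f : Matrix X.ι Y.ι (ZM N)} (hf : Ct π U r X Y f) :
    phiM h π i s t f * phiA h N i Y t = phiA h N i X s * f := by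
  classical
  funext a k
  obtain ⟨l, z, hz⟩ := a
  let _ : ∀ j, Fintype {z : ZZ (h i) // RZ (h i) z (t j)} := fun j => Fintype.ofFinite _
  rw [Matrix.mul_apply, Matrix.mul_apply]
  have e1 : (∑ j : (phiO h i Y t).ι, phiM h π i s t f ⟨l, z, hz⟩ j * phiA h N i Y t j k) =
      ∑ c : {z : ZZ (h i) // RZ (h i) z (t k)},
        if dgZ (h i) c.1 = 0 then filt (fun m => z = π m • c.1) (f l k) else 0 := by
    refine (sum_sig (phiO h i Y t).ft _).trans ?_
    rw [Finset.sum_eq_single k]
    · refine Finset.sum_congr rfl fun c _ => ?_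
      rw [phiA_apply]
      change filt (fun m => z = π m • c.1) (f l k) * _ = _
      by_cases h1 : dgZ (h i) c.1 = 0
      · rw [if_pos ⟨rfl, h1⟩, if_pos h1, mul_one]
      · rw [if_neg fun h2 => h1 h2.2, if_neg h1, mul_zero]
    · intro j _ hj
      refine Finset.sum_eq_zero fun c _ => ?_
      rw [phiA_apply, if_neg fun h2 => hj h2.1, mul_zero]
    · exact fun hk => absurd (Finset.mem_univ k) hk
  have e2 : (∑ j, phiA h N i X s ⟨l, z, hz⟩ j * f j k) =
      if dgZ (h i) z = 0 then f l k else 0 := by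
    rw [Finset.sum_eq_single l]
    · rw [phiA_apply]
      by_cases h1 : dgZ (h i) z = 0
      · rw [if_pos ⟨rfl, h1⟩, if_pos h1, one_mul]
      · rw [if_neg fun h2 => h1 h2.2, if_neg h1, zero_mul]
    · intro j _ hj
      rw [phiA_apply, if_neg fun h2 => hj h2.1.symm, zero_mul]
    · exact fun hk => absurd (Finset.mem_univ l) hk
  refine Eq.trans e1 (Eq.trans ?_ e2.symm)
  refine zm_ext fun m => ?_
  rw [coeff_sum']
  by_cases hm : (f l k).coeff m = 0
  · have h1 : (if dgZ (h i) z = 0 then f l k else 0).coeff m = 0 := by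
      by_cases h2 : dgZ (h i) z = 0
      · rw [if_pos h2, hm]
      · rw [if_neg h2]
        rfl
    rw [h1]
    refine Finset.sum_eq_zero fun c _ => ?_
    by_cases h2 : dgZ (h i) c.1 = 0
    · rw [if_pos h2, filt_coeff, hm, ite_self]
    · rw [if_neg h2]
      rfl
  · have hzw : RZ (h i) ((π m)⁻¹ • z) (t k) :=
      RZ_back h hi hs ht hf hm (by rw [smul_inv_smul]; exact hz)
    have hdg : dgZ (h i) ((π m)⁻¹ • z) = dgZ (h i) z := dgZ_smul (h i) _ z
    rw [Finset.sum_eq_single ⟨(π m)⁻¹ • z, hzw⟩]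
    · by_cases h2 : dgZ (h i) z = 0
      · rw [if_pos (hdg.trans h2), if_pos h2, filt_coeff, if_pos (smul_inv_smul _ _).symm]
      · rw [if_neg fun h3 => h2 (hdg.symm.trans h3), if_neg h2]
    · intro c _ hc
      by_cases h2 : dgZ (h i) c.1 = 0
      · rw [if_pos h2, filt_coeff, if_neg]
        intro h1
        apply hc
        apply Subtype.ext
        change c.1 = (π m)⁻¹ • z
        rw [h1, inv_smul_smul]
      · rw [if_neg h2]
        rfl
    · exact fun hk => absurd (Finset.mem_univ _) hk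

/-! ## Block diagonal integral matrices -/

open Classical in
/-- The block diagonal matrix with blocks `M l`. -/
noncomputable def blk (N : Type) [Monoid N] {X : Ob (SP h)} (s : X.ι → Sub (h i))
    (M : X.ι → ZZ (h i) → ZZ (h i) → ℤ) :
    Matrix (phiO h i X s).ι (phiO h i X s).ι (ZM N) :=
  fun (a : PhI h s) (b : PhI h s) => if a.1 = b.1 then
    MonoidAlgebra.single 1 (M a.1 a.2.1 b.2.1) else 0

open Classical in
theorem blk_apply {X : Ob (SP h)} (s : X.ι → Sub (h i))
    (M : X.ι → ZZ (h i) → ZZ (h i) → ℤ) (a b : PhI h s) :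
    blk h N s M a b = if a.1 = b.1 then MonoidAlgebra.single 1 (M a.1 a.2.1 b.2.1) else 0 := rfl

theorem phiB_eq {X : Ob (SP h)} (s : X.ι → Sub (h i)) :
    phiB h N i X s = blk h N s fun l z w => sgn (X.deg l) * bdZ (h i) z w := rfl

theorem blk_ne {X : Ob (SP h)} {s : X.ι → Sub (h i)} {M : X.ι → ZZ (h i) → ZZ (h i) → ℤ}
    {l k : X.ι} {z w : ZZ (h i)} {hz : RZ (h i) z (s l)} {hw : RZ (h i) w (s k)} {m : N}
    (hm : (blk h N s M ⟨l, z, hz⟩ ⟨k, w, hw⟩).coeff m ≠ 0) : l = k ∧ m = 1 ∧ M l z w ≠ 0 := by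
  classical
  rw [blk_apply] at hm
  by_cases hlk : l = k
  · rw [if_pos hlk] at hm
    refine ⟨hlk, coeff_single_ne hm, fun h0 => ?_⟩
    change (MonoidAlgebra.single 1 (M l z w) : ZM N).coeff m ≠ 0 at hm
    rw [h0, MonoidAlgebra.single_zero] at hm
    exact hm rfl
  · rw [if_neg hlk] at hm
    exact absurd rfl hm

theorem blk_mul {X : Ob (SP h)} (s : X.ι → Sub (h i)) (M M' : X.ι → ZZ (h i) → ZZ (h i) → ℤ)
    [∀ j, Fintype {z : ZZ (h i) // RZ (h i) z (s j)}] :
    blk h N s M * blk h N s M' = blk h N s fun l z w =>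
      ∑ y : {z : ZZ (h i) // RZ (h i) z (s l)}, M l z y.1 * M' l y.1 w := by
  classical
  funext a b
  obtain ⟨l, z, hz⟩ := a
  obtain ⟨k, w, hw⟩ := b
  rw [Matrix.mul_apply]
  refine (sum_sig (phiO h i X s).ft _).trans ?_
  rw [Finset.sum_eq_single l]
  · rw [blk_apply]
    by_cases hlk : l = k
    · subst hlk
      rw [if_pos rfl]
      change _ = (MonoidAlgebra.single 1 (∑ y : {z : ZZ (h i) // RZ (h i) z (s l)},
        M l z y.1 * M' l y.1 w) : ZM N)
      have h1 : (MonoidAlgebra.single 1 (∑ y : {z : ZZ (h i) // RZ (h i) z (s l)},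
          M l z y.1 * M' l y.1 w) : ZM N) =
          ∑ y : {z : ZZ (h i) // RZ (h i) z (s l)},
            MonoidAlgebra.single 1 (M l z y.1 * M' l y.1 w) :=
        map_sum (MonoidAlgebra.singleAddHom (R := ℤ) (1 : N)) _ _
      rw [h1]
      refine Finset.sum_congr rfl fun y _ => ?_
      rw [blk_apply, blk_apply, if_pos rfl, if_pos rfl, MonoidAlgebra.single_mul_single, mul_one]
    · rw [if_neg (show ¬((⟨l, z, hz⟩ : PhI h s).1 = (⟨k, w, hw⟩ : PhI h s).1) from hlk)]
      refine Finset.sum_eq_zero fun y _ => ?_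
      rw [blk_apply h s M', if_neg hlk, mul_zero]
  · intro j _ hj
    refine Finset.sum_eq_zero fun y _ => ?_
    rw [blk_apply h s M, if_neg (Ne.symm hj), zero_mul]
  · exact fun hk => absurd (Finset.mem_univ l) hk

/-! ## The contraction of the cone -/

/-- The matrix `A` changes the degrees by `r`. -/
def Xg {α β R : Type} [Zero R] (xa : α → ℤ) (xb : β → ℤ) (r : ℤ) (A : Matrix α β R) : Prop :=
  ∀ a b, A a b ≠ 0 → xb b = xa a + r

theorem Xg.mul {α β γ R : Type} [Ring R] [Fintype β] {xa : α → ℤ} {xb : β → ℤ} {xc : γ → ℤ}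
    {r r' : ℤ} {A : Matrix α β R} {B : Matrix β γ R} (hA : Xg xa xb r A) (hB : Xg xb xc r' B) :
    Xg xa xc (r + r') (A * B) := by
  intro a c hac
  rw [Matrix.mul_apply] at hac
  obtain ⟨b, -, hb⟩ := Finset.exists_ne_zero_of_sum_ne_zero hac
  have h1 := hA a b (left_ne_zero_of_mul hb)
  have h2 := hB b c (right_ne_zero_of_mul hb)
  omega

theorem Xg.add {α β R : Type} [Ring R] {xa : α → ℤ} {xb : β → ℤ}
    {r : ℤ} {A B : Matrix α β R} (hA : Xg xa xb r A) (hB : Xg xa xb r B) :
    Xg xa xb r (A + B) := by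
  intro a b hab
  by_cases h1 : A a b = 0
  · refine hB a b fun h2 => hab ?_
    rw [Matrix.add_apply, h1, h2, add_zero]
  · exact hA a b h1

theorem Xg.neg {α β R : Type} [Ring R] {xa : α → ℤ} {xb : β → ℤ}
    {r : ℤ} {A : Matrix α β R} (hA : Xg xa xb r A) : Xg xa xb r (-A) := by
  intro a b hab
  refine hA a b fun h2 => hab ?_
  rw [Matrix.neg_apply, h2, neg_zero]

open Classical in
/-- The inclusion of the chosen cell. -/
noncomputable def hA2 (N : Type) [Monoid N] {X : Ob (SP h)} (s c : X.ι → Sub (h i)) :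
    Matrix X.ι (phiO h i X s).ι (ZM N) :=
  fun l (b : PhI h s) => if l = b.1 ∧ b.2.1 = Sum.inl (c l) then 1 else 0

open Classical in
theorem hA2_apply {X : Ob (SP h)} (s c : X.ι → Sub (h i)) (l : X.ι) (b : PhI h s) :
    hA2 h N s c l b = if l = b.1 ∧ b.2.1 = Sum.inl (c l) then 1 else 0 := rfl

/-- The contraction of the flags. -/
noncomputable def hA1 (N : Type) [Monoid N] {X : Ob (SP h)} (s c : X.ι → Sub (h i)) :
    Matrix (phiO h i X s).ι (phiO h i X s).ι (ZM N) :=
  blk h N s fun l z w => -(sgn (X.deg l) * eta (h i) (c l) z w)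

theorem sgn_mul_self (n : ℤ) : sgn n * sgn n = 1 := by
  rw [sgn]
  rcases Int.units_eq_one_or (Int.negOnePow n) with h1 | h1 <;> rw [h1] <;> rfl

theorem phi_one_eq {X : Ob (SP h)} (s : X.ι → Sub (h i)) (a : (phiO h i X s).ι) :
    (1 : Matrix (phiO h i X s).ι (phiO h i X s).ι (ZM N)) a a = 1 := Matrix.one_apply_eq a

theorem phi_one_ne {X : Ob (SP h)} (s : X.ι → Sub (h i)) {a b : (phiO h i X s).ι}
    (hab : a ≠ b) : (1 : Matrix (phiO h i X s).ι (phiO h i X s).ι (ZM N)) a b = 0 :=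
  Matrix.one_apply_ne hab

variable {X : Ob (SP h)} {s c : X.ι → Sub (h i)}

theorem hA_1 (hc : ∀ l, Cl (h i) (c l)) (hcs : ∀ l, c l ≤ s l) :
    -(phiB h N i X s * hA1 h N s c) + -(hA1 h N s c * phiB h N i X s) +
      phiA h N i X s * hA2 h N s c = 1 := by
  classical
  let _ : ∀ j, Fintype {z : ZZ (h i) // RZ (h i) z (s j)} := fun j => Fintype.ofFinite _
  rw [phiB_eq, hA1, blk_mul, blk_mul]
  funext a b
  obtain ⟨l, z, hz⟩ := a
  obtain ⟨k, w, hw⟩ := b
  rw [Matrix.add_apply, Matrix.add_apply, Matrix.neg_apply, Matrix.neg_apply, blk_apply,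
    blk_apply]
  have e1 : (phiA h N i X s * hA2 h N s c) ⟨l, z, hz⟩ ⟨k, w, hw⟩ =
      if l = k ∧ dgZ (h i) z = 0 ∧ w = Sum.inl (c l) then 1 else 0 := by
    rw [Matrix.mul_apply, Finset.sum_eq_single l]
    · rw [phiA_apply, hA2_apply]
      by_cases h1 : dgZ (h i) z = 0
      · rw [if_pos ⟨rfl, h1⟩, one_mul]
        by_cases h2 : l = k ∧ w = Sum.inl (c l)
        · rw [if_pos h2, if_pos ⟨h2.1, h1, h2.2⟩]
        · rw [if_neg h2, if_neg fun h3 => h2 ⟨h3.1, h3.2.2⟩]
      · rw [if_neg fun h2 => h1 h2.2, zero_mul, if_neg fun h2 => h1 h2.2.1]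
    · intro j _ hj
      rw [phiA_apply, if_neg fun h2 => hj h2.1.symm, zero_mul]
    · exact fun hk => absurd (Finset.mem_univ l) hk
  rw [e1]
  by_cases hlk : l = k
  · subst hlk
    have h1 : (⟨l, z, hz⟩ : PhI h s).1 = (⟨l, w, hw⟩ : PhI h s).1 := rfl
    rw [if_pos h1, if_pos h1]
    have e2 : (∑ y : {z : ZZ (h i) // RZ (h i) z (s l)},
        sgn (X.deg l) * bdZ (h i) z y.1 * -(sgn (X.deg l) * eta (h i) (c l) y.1 w)) =
        -∑ y : {z : ZZ (h i) // RZ (h i) z (s l)}, bdZ (h i) z y.1 * eta (h i) (c l) y.1 w := by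
      rw [← Finset.sum_neg_distrib]
      refine Finset.sum_congr rfl fun y _ => ?_
      linear_combination -(bdZ (h i) z y.1 * eta (h i) (c l) y.1 w) * sgn_mul_self (X.deg l)
    have e3 : (∑ y : {z : ZZ (h i) // RZ (h i) z (s l)},
        -(sgn (X.deg l) * eta (h i) (c l) z y.1) * (sgn (X.deg l) * bdZ (h i) y.1 w)) =
        -∑ y : {z : ZZ (h i) // RZ (h i) z (s l)}, eta (h i) (c l) z y.1 * bdZ (h i) y.1 w := by
      rw [← Finset.sum_neg_distrib]
      refine Finset.sum_congr rfl fun y _ => ?_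
      linear_combination -(eta (h i) (c l) z y.1 * bdZ (h i) y.1 w) * sgn_mul_self (X.deg l)
    change -(MonoidAlgebra.single 1 (∑ y : {z : ZZ (h i) // RZ (h i) z (s l)},
        sgn (X.deg l) * bdZ (h i) z y.1 * -(sgn (X.deg l) * eta (h i) (c l) y.1 w)) : ZM N) +
      -(MonoidAlgebra.single 1 (∑ y : {z : ZZ (h i) // RZ (h i) z (s l)},
        -(sgn (X.deg l) * eta (h i) (c l) z y.1) * (sgn (X.deg l) * bdZ (h i) y.1 w)) : ZM N) +
      _ = _
    rw [e2, e3, MonoidAlgebra.single_neg, MonoidAlgebra.single_neg, neg_neg, neg_neg,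
      ← MonoidAlgebra.single_add, bd_eta_add (h i) (hc l) (hcs l) hz hw]
    by_cases h2 : z = w
    · subst h2
      refine Eq.trans ?_ (phi_one_eq h s ⟨l, z, hz⟩).symm
      rw [if_pos rfl]
      by_cases h3 : dgZ (h i) z = 0 ∧ z = Sum.inl (c l)
      · rw [if_pos h3, if_pos ⟨rfl, h3⟩, sub_self, MonoidAlgebra.single_zero, zero_add]
      · rw [if_neg h3, if_neg fun h4 => h3 h4.2, sub_zero, add_zero, MonoidAlgebra.one_def]
    · have h5 : (⟨l, z, hz⟩ : PhI h s) ≠ ⟨l, w, hw⟩ := fun h3 =>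
        h2 (congrArg Subtype.val (eq_of_heq (Sigma.mk.inj_iff.1 h3).2))
      refine Eq.trans ?_ (phi_one_ne h s h5).symm
      rw [if_neg h2]
      by_cases h3 : dgZ (h i) z = 0 ∧ w = Sum.inl (c l)
      · rw [if_pos h3, if_pos ⟨rfl, h3⟩, zero_sub, MonoidAlgebra.single_neg,
          MonoidAlgebra.one_def, neg_add_cancel]
      · rw [if_neg h3, if_neg fun h4 => h3 h4.2, sub_zero, add_zero, MonoidAlgebra.single_zero]
  · have h1 : ¬(⟨l, z, hz⟩ : PhI h s).1 = (⟨k, w, hw⟩ : PhI h s).1 := hlk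
    have h5 : (⟨l, z, hz⟩ : PhI h s) ≠ ⟨k, w, hw⟩ := fun h2 => hlk (congrArg Sigma.fst h2)
    rw [if_neg h1, if_neg h1, if_neg fun h2 => hlk h2.1, neg_zero, add_zero, add_zero]
    exact (phi_one_ne h s h5).symm

theorem hA_2 : hA1 h N s c * phiA h N i X s = 0 := by
  classical
  funext a k
  rw [Matrix.mul_apply]
  refine Finset.sum_eq_zero fun b _ => ?_
  obtain ⟨l, z, hz⟩ := a
  obtain ⟨j, w, hw⟩ := b
  rw [phiA_apply]
  by_cases h1 : dgZ (h i) w = 0
  · rw [hA1, blk_apply]
    by_cases h2 : l = j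
    · rw [if_pos h2]
      change (MonoidAlgebra.single 1 (-(sgn (X.deg l) * eta (h i) (c l) z w)) : ZM N) * _ = 0
      have h3 : eta (h i) (c l) z w = 0 := by
        by_contra h4
        have h5 := (eta_ne (h i) h4).2
        rw [h1] at h5
        exact absurd h5 (by norm_num)
      rw [h3, mul_zero, neg_zero, MonoidAlgebra.single_zero, zero_mul]
    · rw [if_neg h2, zero_mul]
  · rw [if_neg fun h2 => h1 h2.2, mul_zero]

theorem hA_3 : hA2 h N s c * phiB h N i X s = 0 := by
  classical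
  funext l b
  rw [Matrix.mul_apply]
  refine Finset.sum_eq_zero fun a _ => ?_
  obtain ⟨k, w, hw⟩ := b
  obtain ⟨j, z, hz⟩ := a
  rw [hA2_apply, phiB_eq, blk_apply]
  by_cases h1 : l = j ∧ z = Sum.inl (c l)
  · obtain ⟨rfl, rfl⟩ := h1
    by_cases h2 : l = k
    · rw [if_pos h2]
      change _ * (MonoidAlgebra.single 1 (sgn (X.deg l) * (0 : ℤ)) : ZM N) = 0
      rw [mul_zero, MonoidAlgebra.single_zero, mul_zero]
    · rw [if_neg (show ¬((⟨l, Sum.inl (c l), hz⟩ : PhI h s).1 = (⟨k, w, hw⟩ : PhI h s).1) from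
        h2), mul_zero]
  · rw [if_neg h1, zero_mul]

theorem hA_4 (hc : ∀ l, Cl (h i) (c l)) (hcs : ∀ l, c l ≤ s l) :
    hA2 h N s c * phiA h N i X s = 1 := by
  classical
  let _ : ∀ j, Fintype {z : ZZ (h i) // RZ (h i) z (s j)} := fun j => Fintype.ofFinite _
  funext l k
  rw [Matrix.mul_apply]
  refine (sum_sig (phiO h i X s).ft _).trans ?_
  rw [Finset.sum_eq_single l]
  · rw [Finset.sum_eq_single ⟨Sum.inl (c l), hc l, hcs l⟩]
    · rw [hA2_apply, phiA_apply, if_pos ⟨rfl, rfl⟩, one_mul]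
      by_cases h1 : l = k
      · rw [h1, Matrix.one_apply_eq, if_pos ⟨rfl, rfl⟩]
      · rw [Matrix.one_apply_ne h1, if_neg fun h2 => h1 h2.1]
    · intro y _ hy
      rw [hA2_apply, if_neg, zero_mul]
      intro h1
      exact hy (Subtype.ext h1.2)
    · exact fun hk => absurd (Finset.mem_univ _) hk
  · intro j _ hj
    refine Finset.sum_eq_zero fun y _ => ?_
    rw [hA2_apply, if_neg fun h1 => hj h1.1.symm, zero_mul]
  · exact fun hk => absurd (Finset.mem_univ l) hk

end

section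

variable {Γ : Type} [Group Γ] {D : Type} [DecidableEq D] {V : D → Type} [∀ i, MulAction Γ (V i)]
  {T : ∀ i, SimpleGraph (V i)} (h : ∀ i, TreeAct Γ (V i) (T i)) {N : Type} [Monoid N]
  {π : N →* Γ} {U U' : Finset D} {i : D} {X : Co (SP h) N} {s c : X.ι → Sub (h i)}

/-- The contraction is controlled. -/
theorem hA_ct (hs : ∀ l, X.sz l i = s l) (hc : ∀ l, Cl (h i) (c l)) (hcs : ∀ l, c l ≤ s l)
    (hU : i ∈ U' → ∀ l, c l = s l) :
    Ct π U' 1 (cone (phi h π i X s) X (phiA h N i X.toOb s)).toOb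
      (cone (phi h π i X s) X (phiA h N i X.toOb s)).toOb
      (Matrix.fromBlocks (hA1 h N (X := X.toOb) s c) 0 (hA2 h N (X := X.toOb) s c) 0) := by
  classical
  rintro (⟨l, z, hz⟩ | l) (⟨k, w, hw⟩ | k) m hm
  · change (hA1 h N (X := X.toOb) s c ⟨l, z, hz⟩ ⟨k, w, hw⟩).coeff m ≠ 0 at hm
    obtain ⟨h1, h2, h3⟩ := blk_ne h hm
    subst h1
    subst h2
    have h4 : eta (h i) (c l) z w ≠ 0 := by
      intro h5
      rw [h5, mul_zero, neg_zero] at h3
      exact h3 rfl
    obtain ⟨h5, h6⟩ := eta_ne (h i) h4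
    refine ⟨?_, fun i' hi' => ?_⟩
    · change X.deg l + dgZ (h i) w + 1 = X.deg l + dgZ (h i) z + 1 + 1
      rw [h5, h6]
      ring
    · rw [map_one, one_smul]
      change Function.update (X.sz l) i (szZ (h i) z) i' ≤
        Function.update (X.sz l) i (szZ (h i) w) i'
      by_cases h7 : i' = i
      · subst h7
        rw [Function.update_self, Function.update_self]
        rw [hU hi' l] at h4
        rcases z with σ | f
        · rcases w with τ | f
          · exact absurd rfl h4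
          · have h8 : Cl (h i') (s l) := by
              rw [← hU hi' l]
              exact hc l
            exact eta_le (h i') h8 hz.2 hw h4
        · exact absurd h5 one_ne_zero
      · rw [Function.update_of_ne h7, Function.update_of_ne h7]
  · exact absurd rfl hm
  · change (hA2 h N (X := X.toOb) s c l ⟨k, w, hw⟩).coeff m ≠ 0 at hm
    rw [hA2_apply] at hm
    by_cases h1 : l = k ∧ w = Sum.inl (c l)
    · rw [if_pos h1] at hm
      obtain ⟨h2, h3⟩ := h1
      subst h2
      have h4 : m = 1 := coeff_one_ne hm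
      subst h4
      refine ⟨?_, fun i' hi' => ?_⟩
      · change X.deg l + dgZ (h i) w + 1 = X.deg l + 1
        rw [h3]
        change X.deg l + 0 + 1 = X.deg l + 1
        ring
      · rw [map_one, one_smul]
        change X.sz l i' ≤ Function.update (X.sz l) i (szZ (h i) w) i'
        by_cases h7 : i' = i
        · subst h7
          rw [Function.update_self, h3, hs]
          exact (hU hi' l).ge
        · rw [Function.update_of_ne h7]
    · rw [if_neg h1] at hm
      exact absurd rfl hm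
  · exact absurd rfl hm

theorem cone_phiA_contr (hi : i ∈ U) (hX : IsCx π U X) (hs : ∀ l, X.sz l i = s l)
    (hC : IsCx π U' (cone (phi h π i X s) X (phiA h N i X.toOb s)))
    (hc : ∀ l, Cl (h i) (c l)) (hcs : ∀ l, c l ≤ s l) (hU : i ∈ U' → ∀ l, c l = s l) :
    Contr π U' (cone (phi h π i X s) X (phiA h N i X.toOb s)) := by
  classical
  obtain ⟨H, hHd⟩ : ∃ H : Matrix ((phiO h i X.toOb s).ι ⊕ X.ι) ((phiO h i X.toOb s).ι ⊕ X.ι)
      (ZM N), H = Matrix.fromBlocks (hA1 h N (X := X.toOb) s c) 0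
        (hA2 h N (X := X.toOb) s c) 0 := ⟨_, rfl⟩
  have hH : Ct π U' 1 (cone (phi h π i X s) X (phiA h N i X.toOb s)).toOb
      (cone (phi h π i X s) X (phiA h N i X.toOb s)).toOb H := by
    rw [hHd]
    exact hA_ct h (π := π) hs hc hcs hU
  -- the nilpotent matrix
  obtain ⟨n, hn⟩ : ∃ n : Matrix ((phiO h i X.toOb s).ι ⊕ X.ι) ((phiO h i X.toOb s).ι ⊕ X.ι)
      (ZM N), n = Matrix.fromBlocks (-(phiM h π i (X := X.toOb) (Y := X.toOb) s s X.d *
        hA1 h N (X := X.toOb) s c) + -(hA1 h N (X := X.toOb) s c *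
        phiM h π i (X := X.toOb) (Y := X.toOb) s s X.d)) 0
        (X.d * hA2 h N (X := X.toOb) s c + -(hA2 h N (X := X.toOb) s c *
        phiM h π i (X := X.toOb) (Y := X.toOb) s s X.d)) 0 := ⟨_, rfl⟩
  obtain ⟨B, hB⟩ : ∃ B : Matrix ((phiO h i X.toOb s).ι ⊕ X.ι) ((phiO h i X.toOb s).ι ⊕ X.ι)
      (ZM N), B = Matrix.fromBlocks (-(phiM h π i (X := X.toOb) (Y := X.toOb) s s X.d +
        phiB h N i X.toOb s)) (phiA h N i X.toOb s) 0 X.d := ⟨_, rfl⟩
  have hD : B * H + H * B = 1 + n := by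
    rw [hHd, hB, Matrix.fromBlocks_multiply, Matrix.fromBlocks_multiply, Matrix.fromBlocks_add,
      hn]
    have h1 : (1 : Matrix ((phiO h i X.toOb s).ι ⊕ X.ι) ((phiO h i X.toOb s).ι ⊕ X.ι) (ZM N)) =
        Matrix.fromBlocks 1 0 0 1 := Matrix.fromBlocks_one.symm
    rw [h1, Matrix.fromBlocks_add, ← hA_1 h (N := N) (X := X.toOb) (s := s) (c := c) hc hcs]
    simp only [Matrix.mul_zero, Matrix.zero_mul, add_zero, zero_add]
    rw [hA_2, hA_4 h hc hcs]
    congr 1
    · rw [Matrix.neg_mul, Matrix.mul_neg, Matrix.add_mul, Matrix.mul_add]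
      abel
    · rw [Matrix.mul_neg, Matrix.mul_add, hA_3, add_zero]
  rw [hB] at hD
  -- the degrees
  have hd : Xg X.deg X.deg (-1) X.d := by
    intro l k hlk
    obtain ⟨m, hm⟩ : ∃ m, (X.d l k).coeff m ≠ 0 := by
      by_contra h1
      push Not at h1
      exact hlk (zm_ext h1)
    exact (hX.1 l k m hm).1
  have hM : Xg (fun a : (phiO h i X.toOb s).ι => X.deg (show PhI h s from a).1)
      (fun a : (phiO h i X.toOb s).ι => X.deg (show PhI h s from a).1) (-1)
      (phiM h π i (X := X.toOb) (Y := X.toOb) s s X.d) := by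
    intro a b hab
    refine hd a.1 b.1 fun h1 => hab ?_
    change filt _ (X.d a.1 b.1) = 0
    rw [h1, filt_zero]
  have h1' : Xg (fun a : (phiO h i X.toOb s).ι => X.deg (show PhI h s from a).1)
      (fun a : (phiO h i X.toOb s).ι => X.deg (show PhI h s from a).1) 0
      (hA1 h N (X := X.toOb) s c) := by
    intro a b hab
    rw [hA1, blk_apply] at hab
    by_cases h1 : (show PhI h s from a).1 = (show PhI h s from b).1
    · change X.deg (show PhI h s from b).1 = X.deg (show PhI h s from a).1 + 0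
      rw [h1, add_zero]
    · rw [if_neg h1] at hab
      exact absurd rfl hab
  have h2' : Xg X.deg (fun a : (phiO h i X.toOb s).ι => X.deg (show PhI h s from a).1) 0
      (hA2 h N (X := X.toOb) s c) := by
    intro a b hab
    rw [hA2_apply] at hab
    by_cases h1 : a = (show PhI h s from b).1
    · change X.deg (show PhI h s from b).1 = X.deg a + 0
      rw [h1, add_zero]
    · rw [if_neg fun h2 => h1 h2.1] at hab
      exact absurd rfl hab
  obtain ⟨k, hk⟩ := nilp_of_deg (Sum.elim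
    (fun a : (phiO h i X.toOb s).ι => X.deg (show PhI h s from a).1) X.deg) n (by
      have g1 := ((hM.mul h1').neg).add (h1'.mul hM).neg
      have g2 := (hd.mul h2').add (h2'.mul hM).neg
      rw [hn]
      rintro (a | a) (b | b) hab
      · have := g1 a b hab
        change X.deg (show PhI h s from b).1 = X.deg (show PhI h s from a).1 - 1
        change X.deg (show PhI h s from b).1 = X.deg (show PhI h s from a).1 + (-1 + 0) at this
        omega
      · exact absurd rfl hab
      · have := g2 a b hab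
        change X.deg (show PhI h s from b).1 = X.deg a - 1
        change X.deg (show PhI h s from b).1 = X.deg a + (-1 + 0) at this
        omega
      · exact absurd rfl hab)
  exact contr_of_nilp hC hH hD hk

/-- Module U2. -/
theorem stU2 : StU2 := by
  intro Γ _ D _ V _ T h N _ π U i hi
  refine ⟨fun X s hs hX => ?_, fun X Y s t r f hs ht hf => phiM_phiA h hi hs ht hf⟩
  have hA : Ch π U (phi h π i X s) X (phiA h N i X.toOb s) := by
    refine ⟨phiA_ct h hs, ?_⟩
    change (phiM h π i s s X.d + phiB h N i X.toOb s) * phiA h N i X.toOb s =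
      phiA h N i X.toOb s * X.d
    rw [Matrix.add_mul, phiM_phiA h hi hs hs hX.1]
    have h1 : phiB h N i X.toOb s * phiA h N i X.toOb s = 0 := by
      classical
      funext a k
      obtain ⟨l, z, hz⟩ := a
      let _ : ∀ j, Fintype {z : ZZ (h i) // RZ (h i) z (s j)} := fun j => Fintype.ofFinite _
      rw [Matrix.mul_apply]
      refine (sum_sig (phiO h i X.toOb s).ft _).trans ?_
      rw [Finset.sum_eq_single l]
      · have e1 : ∀ y : {z : ZZ (h i) // RZ (h i) z (s l)},
            phiB h N i X.toOb s ⟨l, z, hz⟩ ⟨l, y⟩ * phiA h N i X.toOb s ⟨l, y⟩ k =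
            MonoidAlgebra.single 1 (bdZ (h i) z y.1 *
              (if l = k ∧ dgZ (h i) y.1 = 0 then sgn (X.deg l) else 0)) := by
          intro y
          rw [phiB_eq, blk_apply, phiA_apply, if_pos rfl]
          change (MonoidAlgebra.single 1 (sgn (X.deg l) * bdZ (h i) z y.1) : ZM N) * _ = _
          by_cases h2 : l = k ∧ dgZ (h i) y.1 = 0
          · rw [if_pos h2, if_pos h2, mul_one, mul_comm]
          · rw [if_neg h2, if_neg h2, mul_zero, mul_zero, MonoidAlgebra.single_zero]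
        rw [Finset.sum_congr rfl fun y _ => e1 y]
        have e2 : (∑ y : {z : ZZ (h i) // RZ (h i) z (s l)},
            (MonoidAlgebra.single 1 (bdZ (h i) z y.1 *
              (if l = k ∧ dgZ (h i) y.1 = 0 then sgn (X.deg l) else 0)) : ZM N)) =
            MonoidAlgebra.single 1 (∑ y : {z : ZZ (h i) // RZ (h i) z (s l)},
              bdZ (h i) z y.1 *
                (if l = k ∧ dgZ (h i) y.1 = 0 then sgn (X.deg l) else 0)) :=
          (map_sum (MonoidAlgebra.singleAddHom (R := ℤ) (1 : N)) _ _).symm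
        rw [e2]
        rcases z with σ | f
        · have e3 : (∑ y : {z : ZZ (h i) // RZ (h i) z (s l)}, bdZ (h i) (Sum.inl σ) y.1 *
              (if l = k ∧ dgZ (h i) y.1 = 0 then sgn (X.deg l) else 0)) = 0 :=
            Finset.sum_eq_zero fun y _ => zero_mul _
          rw [e3, MonoidAlgebra.single_zero]
          rfl
        · rw [sum_bd (h i) hz fun y => if l = k ∧ dgZ (h i) y = 0 then sgn (X.deg l) else 0]
          change (MonoidAlgebra.single 1 ((if l = k ∧ (0 : ℤ) = 0 then sgn (X.deg l) else 0) -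
            (if l = k ∧ (0 : ℤ) = 0 then sgn (X.deg l) else 0)) : ZM N) = 0
          rw [sub_self, MonoidAlgebra.single_zero]
      · intro j _ hj
        refine Finset.sum_eq_zero fun y _ => ?_
        rw [phiB_eq, blk_apply, if_neg (show ¬((⟨l, z, hz⟩ : PhI h s).1 = (⟨j, y⟩ : PhI h s).1)
          from Ne.symm hj), zero_mul]
      · exact fun hk => absurd (Finset.mem_univ l) hk
    rw [h1, add_zero]
  have hC := (phi_isCx h hi hs hX).cone hX hA
  refine ⟨hA, fun U' hU' hiU' => ?_, fun hcl => ?_⟩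
  · -- choose a vertex in every subtree
    have h1 : ∀ l, ∃ v, v ∈ (s l).set := fun l => (s l).2.2.1
    choose v hv using h1
    exact cone_phiA_contr h (c := fun l => vtx (h i) (v l)) hi hX hs (hC.mono hU')
      (fun l => Or.inl ⟨v l, rfl⟩) (fun l => (vtx_le (h i)).2 (hv l))
      fun h2 => absurd h2 hiU'
  · exact cone_phiA_contr h (c := s) hi hX hs hC hcl (fun l => le_refl _) fun _ _ => rfl

end

end Pool.Agent.Lib.MP_551055_al.W17
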