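import Mathlib
import Pool.Agent.Lib.MP_551055_al.Trim.LS.PStmts
import Pool.Agent.Lib.MP_551055_al.Trim.LS.Stmts
import Pool.Agent.Lib.MP_551055_al.Trim.MT.Base
import Pool.Agent.Lib.MP_551055_al.Trim.MT.Defs
import Pool.Agent.Lib.MP_551055_al.Trim.MT.StA
import Pool.Agent.Lib.MP_551055_al.Trim.MT.Trees
import Pool.Agent.Lib.MP_551055_al.Trim.W17.Defs
import Pool.Agent.Lib.MP_551055_al.Trim.W17.StU

/-!
# Trees and products: module U3 (a new direction, with cells in the old directions)
-/

set_option autoImplicit false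

namespace Pool.Agent.Lib.MP_551055_al
end Pool.Agent.Lib.MP_551055_al

namespace Pool.Agent.Lib.MP_551055_al.LS
end Pool.Agent.Lib.MP_551055_al.LS

namespace Pool.Agent.Lib.MP_551055_al.MT
end Pool.Agent.Lib.MP_551055_al.MT

namespace Pool.Agent.Lib.MP_551055_al.W17

open Pool.Agent.Lib.MP_551055_al

open Pool.Agent.Lib.MP_551055_al.LS (TreeAct ZN)

open Pool.Agent.Lib.MP_551055_al.MT

open Matrix

/-- If the cone of `f` is contractible, then `X` and `Y` are isomorphic. -/
theorem u3_iso (hCC : StCC) {Γ : Type} [Group Γ] {D : Type} {P : D → Type}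
    [∀ i, PartialOrder (P i)] [∀ i, MulAction Γ (P i)] [SzAct Γ P] {N : Type} [Monoid N]
    {π : N →* Γ} {U : Finset D} {X Y : Co P N} {f : Matrix X.ι Y.ι (ZM N)}
    (hf : Ch π U X Y f) (hc : Contr π U (cone X Y f)) : Iso π U X 1 Y 1 := by
  obtain ⟨g, hg, h1, h2⟩ := (hCC Γ D P N π U X Y f hf).2 hc
  exact ⟨f, g, hf, hg, h1, h2⟩

/-- The size of a cell or of a flag is a cell. -/
theorem u3_cl {Γ : Type} [Group Γ] {V : Type} [MulAction Γ V] {T : SimpleGraph V}
    {h : TreeAct Γ V T} {z : ZZ h} {A : Sub h} (hz : RZ h z A) : Cl h (szZ h z) := by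
  rcases z with σ | f
  · exact hz.1
  · exact Or.inl hz.1

/-- Module U3. -/
theorem stU3 (hCC : StCC) (hC : StC) (hW : StW) (h1 : StU1) (h2 : StU2) (hA : StIsoA) :
    StU3 := by
  intro Γ _ D _ V _ T h N _ π U j hj K e hK hKcl he hnul
  have hUj : U ⊆ insert j U := Finset.subset_insert j U
  -- the induction over the directions with cells
  suffices key : ∀ S : Finset D, S ⊆ U →
      ∃ (C : Co (SP h) N) (eC : Matrix C.ι C.ι (ZM N)) (W : Co (SP h) N) (sz' : W.ι → Sz (SP h))
      (s : Matrix C.ι W.ι (ZM N)) (p : Matrix W.ι C.ι (ZM N)),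
      IsCx π U C ∧ HI π U C eC ∧ Iso π U K e C eC ∧
      IsCx π (insert j U) W ∧ IsCx π (insert j U) (W.withSz sz') ∧ Cel h S W.toOb ∧
      (∀ l i, i ≠ j → sz' l i = W.sz l i) ∧ (∀ l, W.sz l j ≤ sz' l j) ∧
      Ch π U C W s ∧ Ch π U W C p ∧ s * p = 1 ∧
      Ct π (insert j U) 0 W.toOb (W.withSz sz').toOb (p * eC * s) ∧
      ∀ i ∈ U, Contr π ((insert j U).erase i) W ∧ Contr π ((insert j U).erase i) (W.withSz sz')
    by exact key U subset_rfl
  intro S
  induction S using Finset.induction_on with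
  | empty =>
    intro _
    obtain ⟨C, eC, hCx, heC, hCc, iso1⟩ := hC Γ D (SP h) N π U U K e hK he hnul
    obtain ⟨W, sz', s, p, hWx, hWx', hsz, hszj, hs, hp, hsp, hε, hWc⟩ :=
      hW Γ D (SP h) N π U U j hj subset_rfl C eC hCx heC.1.1 hCc
    exact ⟨C, eC, W, sz', s, p, hCx, heC, iso1, hWx, hWx',
      fun l i hi => absurd hi (Finset.notMem_empty i), hsz, hszj, hs, hp, hsp, hε, hWc⟩
  | insert i S hiS ih =>
    intro hSU
    obtain ⟨C, eC, W, sz', s, p, hCx, heC, iso1, hWx, hWx', hWcl, hsz, hszj, hs, hp, hsp, hε,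
      hWc⟩ := ih ((Finset.subset_insert i S).trans hSU)
    have hiU : i ∈ U := hSU (Finset.mem_insert_self i S)
    have hij : i ≠ j := fun hh => hj (hh ▸ hiU)
    have hiV : i ∈ insert j U := hUj hiU
    obtain ⟨a1, a2, a3, a4, a5, a6⟩ := h1 Γ D V T h N π U i hiU
    obtain ⟨b1, b2, b3, b4, b5, b6⟩ := h1 Γ D V T h N π (insert j U) i hiV
    -- the sizes in the direction `i`
    have hsK : ∀ l, K.sz l i = (fun l => K.sz l i) l := fun _ => rfl
    have hsC : ∀ l, C.sz l i = (fun l => C.sz l i) l := fun _ => rfl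
    have hsW : ∀ l, W.sz l i = (fun l => W.sz l i) l := fun _ => rfl
    have hsW' : ∀ l, (W.withSz sz').sz l i = (fun l => W.sz l i) l := fun l => hsz l i hij
    generalize hgK : (fun l => K.sz l i) = sK at hsK
    generalize hgC : (fun l => C.sz l i) = sC at hsC
    generalize hgW : (fun l => W.sz l i) = sW at hsW hsW'
    have hWrfl : phi h π i (W.withSz sz') sW = (phi h π i W sW).withSz
        (fun a => Function.update (sz' a.1) i (szZ (h i) a.2.1)) := rfl
    have hsub : ∀ (X Y : Ob (SP h)) (s : X.ι → Sub (h i)) (t : Y.ι → Sub (h i))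
        (f g : Matrix X.ι Y.ι (ZM N)), phiM h π i (X := X) (Y := Y) s t (f - g)
          = phiM h π i s t f - phiM h π i s t g := by
      intro X Y s t f g
      rw [sub_eq_add_neg, (a4 X Y s t f (-g)).1, (a4 X Y s t g g).2.1, ← sub_eq_add_neg]
    have hHI : ∀ (X : Co (SP h) N) (s : X.ι → Sub (h i)), (∀ l, X.sz l i = s l) →
        IsCx π U X → ∀ f : Matrix X.ι X.ι (ZM N), HI π U X f →
        HI π U (phi h π i X s) (phiM h π i s s f) := by
      intro X s hs hX f hf
      refine ⟨(a6 X X s s f hs hs hX hX).1 hf.1, ?_⟩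
      have e1 := (a6 X X s s (f - f * f) hs hs hX hX).2 hf.2
      rw [hsub X.toOb X.toOb s s f (f * f),
        a2 X.toOb X.toOb X.toOb s s s 0 0 f f hs hs hs hf.1.1 hf.1.1] at e1
      exact e1
    have hIso : ∀ (X Y : Co (SP h) N) (s : X.ι → Sub (h i)) (t : Y.ι → Sub (h i)),
        (∀ l, X.sz l i = s l) → (∀ l, Y.sz l i = t l) → IsCx π U X → IsCx π U Y →
        ∀ (f : Matrix X.ι X.ι (ZM N)) (g : Matrix Y.ι Y.ι (ZM N)), HI π U X f →
        Iso π U X f Y g →
        Iso π U (phi h π i X s) (phiM h π i s s f) (phi h π i Y t) (phiM h π i t t g) := by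
      intro X Y s t hs ht hX hY f g _ hfg
      obtain ⟨u, v, hu, hv, n1, n2⟩ := hfg
      refine ⟨phiM h π i s t u, phiM h π i t s v, (a6 X Y s t u hs ht hX hY).1 hu,
        (a6 Y X t s v ht hs hY hX).1 hv, ?_, ?_⟩
      · have e1 := (a6 X X s s (u * v - f) hs hs hX hX).2 n1
        rw [hsub X.toOb X.toOb s s (u * v) f,
          a2 X.toOb Y.toOb X.toOb s t s 0 0 u v hs ht hs hu.1 hv.1] at e1
        exact e1
      · have e1 := (a6 Y Y t t (v * u - g) ht ht hY hY).2 n2
        rw [hsub Y.toOb Y.toOb t t (v * u) g,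
          a2 Y.toOb X.toOb Y.toOb t s t 0 0 v u ht hs ht hv.1 hu.1] at e1
        exact e1
    -- the new data
    refine ⟨phi h π i C sC, phiM h π i sC sC eC, phi h π i W sW,
      fun a => Function.update (sz' a.1) i (szZ (h i) a.2.1), phiM h π i sC sW s,
      phiM h π i sW sC p, a5 C sC hsC hCx, ?_, ?_, b5 W sW hsW hWx, ?_, ?_, ?_, ?_, ?_, ?_, ?_,
      ?_, ?_⟩
    · exact hHI C sC hsC hCx eC heC
    · refine Iso.trans he (hHI C sC hsC hCx eC heC) ?_
        (hIso K C sK sC hsK hsC hK hCx e eC he iso1)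
      obtain ⟨c1, -, c3⟩ := (h2 Γ D V T h N π U i hiU).1 K sK hsK hK
      have hcl : ∀ l, Cl (h i) (sK l) := fun l => by
        rw [← hsK l]
        exact hKcl l i hiU
      exact (hA Γ D (SP h) N π U (phi h π i K sK) K (phiA h N i K.toOb sK)
        (phiM h π i sK sK e) e c1 (c3 hcl) (hHI K sK hsK hK e he) he
        ((h2 Γ D V T h N π U i hiU).2 K.toOb K.toOb sK sK 0 e hsK hsK he.1.1)).symm
    · exact b5 (W.withSz sz') sW hsW' hWx'
    · intro l i' hi'
      by_cases hii : i' = i
      · subst hii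
        change Cl (h i') (Function.update (W.sz l.1) i' (szZ (h i') l.2.1) i')
        rw [Function.update_self]
        exact u3_cl l.2.2
      · change Cl (h i') (Function.update (W.sz l.1) i (szZ (h i) l.2.1) i')
        rw [Function.update_of_ne hii]
        exact hWcl l.1 i' ((Finset.mem_insert.1 hi').resolve_left hii)
    · intro l i' hi'
      change Function.update (sz' l.1) i (szZ (h i) l.2.1) i'
        = Function.update (W.sz l.1) i (szZ (h i) l.2.1) i'
      by_cases hii : i' = i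
      · subst hii
        rw [Function.update_self, Function.update_self]
      · rw [Function.update_of_ne hii, Function.update_of_ne hii]
        exact hsz l.1 i' hi'
    · intro l
      change Function.update (W.sz l.1) i (szZ (h i) l.2.1) j
        ≤ Function.update (sz' l.1) i (szZ (h i) l.2.1) j
      rw [Function.update_of_ne (Ne.symm hij), Function.update_of_ne (Ne.symm hij)]
      exact hszj l.1
    · exact (a6 C W sC sW s hsC hsW hCx (hWx.mono hUj)).1 hs
    · exact (a6 W C sW sC p hsW hsC (hWx.mono hUj) hCx).1 hp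
    · have e1 := a2 C.toOb W.toOb C.toOb sC sW sC 0 0 s p hsC hsW hsC hs.1 hp.1
      rw [hsp, a3 C.toOb sC hsC] at e1
      exact e1.symm
    · have e1 : phiM h π i sW sC p * phiM h π i sC sC eC * phiM h π i sC sW s
          = phiM h π i (X := W.toOb) (Y := (W.withSz sz').toOb) sW sW (p * eC * s) := by
        rw [← a2 W.toOb C.toOb C.toOb sW sC sC 0 0 p eC hsW hsC hsC hp.1 heC.1.1]
        exact (a2 W.toOb C.toOb W.toOb sW sC sW 0 0 (p * eC) s hsW hsC hsW
          (hp.mul heC.1).1 hs.1).symm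
      have e2 := b1 W.toOb (W.withSz sz').toOb sW sW 0 (p * eC * s) hsW hsW' hε
      rw [← e1] at e2
      exact e2
    · intro i' hi'
      by_cases hii : i' = i
      · subst hii
        have hU' : (insert j U).erase i' ⊆ insert j U := Finset.erase_subset _ _
        have hn : i' ∉ (insert j U).erase i' := Finset.notMem_erase i' _
        refine ⟨?_, ?_⟩
        · obtain ⟨c1, c2, -⟩ := (h2 Γ D V T h N π (insert j U) i' hiV).1 W sW hsW hWx
          exact (u3_iso hCC (c1.mono hU') (c2 _ hU' hn)).symm.nul HI.one (hWc i' hi').1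
        · obtain ⟨c1, c2, -⟩ := (h2 Γ D V T h N π (insert j U) i' hiV).1 (W.withSz sz') sW
            hsW' hWx'
          exact (u3_iso hCC (c1.mono hU') (c2 _ hU' hn)).symm.nul HI.one (hWc i' hi').2
      · have hi2 : i ∈ (insert j U).erase i' := Finset.mem_erase.2 ⟨Ne.symm hii, hiV⟩
        have hU' : (insert j U).erase i' ⊆ insert j U := Finset.erase_subset _ _
        obtain ⟨c1, c2, c3, c4, c5, c6⟩ := h1 Γ D V T h N π ((insert j U).erase i') i hi2
        refine ⟨?_, ?_⟩
        · have e1 := (c6 W W sW sW 1 hsW hsW (hWx.mono hU') (hWx.mono hU')).2 (hWc i' hi').1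
          rw [c3 W.toOb sW hsW] at e1
          exact e1
        · have e1 := (c6 (W.withSz sz') (W.withSz sz') sW sW 1 hsW' hsW' (hWx'.mono hU')
            (hWx'.mono hU')).2 (hWc i' hi').2
          rw [c3 (W.withSz sz').toOb sW hsW'] at e1
          exact e1

end Pool.Agent.Lib.MP_551055_al.W17
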