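import Mathlib
import Pool.Agent.Lib.MP_551055_al.Trim.MT.Base
import Pool.Agent.Lib.MP_551055_al.Trim.MT.Defs
import Pool.Agent.Lib.MP_551055_al.Trim.MT.Link
import Pool.Agent.Lib.MP_551055_al.Trim.MT.Map
import Pool.Agent.Lib.MP_551055_al.Trim.MT.Tg
import Pool.Agent.Lib.MP_551055_al.Trim.MT.Tor
import Pool.Agent.Lib.MP_551055_al.Trim.W17.StU

/-!
# Trees and products: module U4, the torsion trick with the sizes

A complex `B` over `ℤ[G × ℕ]` with `z ^ m` null-homotopic is, over `ℤ[G]`, isomorphic to the finite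
complex `K = B / z ^ m` with a homotopy idempotent; the sizes of `K` are sizes of `B`.
-/

set_option autoImplicit false

namespace Pool.Agent.Lib.MP_551055_al
end Pool.Agent.Lib.MP_551055_al

namespace Pool.Agent.Lib.MP_551055_al.MT
end Pool.Agent.Lib.MP_551055_al.MT

namespace Pool.Agent.Lib.MP_551055_al.W17

open Pool.Agent.Lib.MP_551055_al

open Pool.Agent.Lib.MP_551055_al.MT

open Matrix

/-- Module U4. Torsion, with the sizes: every size of `K` is a size of `B`. -/
theorem stU4 : StU4 := by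
  intro Γ _ D P _ _ _ G _ π V B hB m H hH hdH
  let _ := torMod G B.ι
  have hd := hB.2
  refine ⟨torK m B, linkMat (torQ m ∘ₗ torRho m B.d H), fun k => ⟨k.1, rfl⟩, ⟨?_, ?_⟩, ⟨⟨?_, ?_⟩, ?_⟩, ?_, ?_⟩
  · -- control of the differential
    refine tor_ct _ fun A t y hy => ?_
    exact torQ_fam (torMul_fam hB.1 (torS_fam hy) rfl)
  · refine link_mat_ext fun y => ?_
    rw [← Matrix.vecMul_vecMul, vecMul_linkMat, vecMul_linkMat, torD_D hd, Matrix.vecMul_zero]
  · refine tor_ct _ fun A t y hy => ?_
    rw [add_zero]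
    exact torQ_fam (torRho_fam hB.1 hH hy)
  · refine link_mat_ext fun y => ?_
    rw [← Matrix.vecMul_vecMul, ← Matrix.vecMul_vecMul, vecMul_linkMat, vecMul_linkMat,
      vecMul_linkMat, vecMul_linkMat]
    change torQ m (torRho m B.d H (torD m B.d y)) = torD m B.d (torQ m (torRho m B.d H y))
    rw [← tor_drho hd hdH, tor_qd]
  · refine ⟨linkMat (torQ m ∘ₗ torMul H ∘ₗ torDel m ∘ₗ torRho m B.d H), ?_, ?_⟩
    · exact tor_ct _ fun A t y hy =>
        torQ_fam (torMul_fam hH (torDel_fam (torRho_fam hB.1 hH hy)) rfl)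
    · refine link_mat_ext fun y => ?_
      rw [Matrix.vecMul_sub, Matrix.vecMul_add, ← Matrix.vecMul_vecMul, ← Matrix.vecMul_vecMul,
        ← Matrix.vecMul_vecMul, vecMul_linkMat, vecMul_linkMat, vecMul_linkMat, vecMul_linkMat,
        vecMul_linkMat, vecMul_linkMat]
      change torQ m (torRho m B.d H y) - torQ m (torRho m B.d H (torQ m (torRho m B.d H y)))
        = torQ m (torMul H (torDel m (torRho m B.d H (torD m B.d y))))
          + torD m B.d (torQ m (torMul H (torDel m (torRho m B.d H y))))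
      rw [tor_rhoq hdH, ← tor_drho hd hdH, ← tor_qd, ← map_sub, ← map_add]
      congr 1
      abel
  · rintro V' hV' ⟨c, hc, hc1⟩
    refine ⟨linkMat (torQ m ∘ₗ torMul c ∘ₗ torRho m B.d H), ?_, ?_⟩
    · exact tor_ct _ fun A t y hy =>
        torQ_fam (torMul_fam hc (torRho_fam (hB.1.mono hV') (hH.mono hV') hy) rfl)
    · refine link_mat_ext fun y => ?_
      rw [Matrix.vecMul_add, ← Matrix.vecMul_vecMul, ← Matrix.vecMul_vecMul, vecMul_linkMat,
        vecMul_linkMat, vecMul_linkMat, vecMul_linkMat, vecMul_linkMat]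
      change torQ m (torRho m B.d H y) = torQ m (torMul c (torRho m B.d H (torD m B.d y)))
        + torD m B.d (torQ m (torMul c (torRho m B.d H y)))
      rw [← tor_drho hd hdH, ← tor_qd, ← map_add]
      congr 1
      change torRho m B.d H y = ((torRho m B.d H y) ᵥ* B.d) ᵥ* c + ((torRho m B.d H y) ᵥ* c) ᵥ* B.d
      rw [Matrix.vecMul_vecMul, Matrix.vecMul_vecMul, ← Matrix.vecMul_add, ← hc1,
        Matrix.vecMul_one]
  · intro V' hV' h
    refine ⟨torRho m B.d H, torQ m, -(torMul H ∘ₗ torDel m), 0, ?_, ?_, ?_, Ct.zero, ?_, ?_, ?_, ?_⟩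
    · intro A t y hy
      exact torRho_fam (hB.1.mono hV') (hH.mono hV') hy
    · intro A t x hx
      exact torQ_fam hx
    · intro A t x hx
      exact AddSubgroup.neg_mem _ (torMul_fam (hH.mono hV') (torDel_fam hx) rfl)
    · intro y
      rw [vecMul_linkMat]
      exact (tor_drho hd hdH y).symm
    · intro x
      rw [vecMul_linkMat]
      exact tor_qd m B.d x
    · intro y
      rw [Matrix.mul_zero, Matrix.zero_mul, add_zero, add_zero, vecMul_linkMat]
      rfl
    · intro (x : B.ι → ZM (GN G))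
      have h1 := tor_rhoq hdH x
      refine h1.trans ?_
      change x - torMul B.d (torMul H (torDel m x)) - torMul H (torDel m (torMul B.d x))
        = x + torMul B.d (-(torMul H (torDel m x))) + -(torMul H (torDel m (torMul B.d x)))
      rw [map_neg]
      abel

end Pool.Agent.Lib.MP_551055_al.W17
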