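import Mathlib
import Pool.Agent.Lib.MP_551055_al.Trim.LS.PStmts
import Pool.Agent.Lib.MP_551055_al.Trim.LS.Stmts
import Pool.Agent.Lib.MP_551055_al.Trim.MT.Base
import Pool.Agent.Lib.MP_551055_al.Trim.MT.Defs
import Pool.Agent.Lib.MP_551055_al.Trim.MT.Link
import Pool.Agent.Lib.MP_551055_al.Trim.MT.Map
import Pool.Agent.Lib.MP_551055_al.Trim.MT.Tg
import Pool.Agent.Lib.MP_551055_al.Trim.W17.StU

/-!
# Trees and products: module U5
-/

set_option autoImplicit false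

namespace Pool.Agent.Lib.MP_551055_al
end Pool.Agent.Lib.MP_551055_al

namespace Pool.Agent.Lib.MP_551055_al.LS
end Pool.Agent.Lib.MP_551055_al.LS

namespace Pool.Agent.Lib.MP_551055_al.MT
end Pool.Agent.Lib.MP_551055_al.MT

namespace Pool.Agent.Lib.MP_551055_al.W17

open Pool.Agent.Lib.MP_551055_al

open Pool.Agent.Lib.MP_551055_al.LS (TreeAct ZN)

open Pool.Agent.Lib.MP_551055_al.MT

open Matrix

section

variable {Γ : Type} [Group Γ] {D : Type} {P : D → Type} [∀ i, PartialOrder (P i)]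
  [∀ i, MulAction Γ (P i)] {N : Type} [Monoid N]

/-- `IsoL` is invariant under homotopy equivalences of the target. -/
theorem u5_equiv {π : N →* Γ} {U : Finset D} (T T' : Tg P π U)
    (i : T.V →ₗ[ZM N] T'.V) (p : T'.V →ₗ[ZM N] T.V) (R : T.V →ₗ[ZM N] T.V)
    (R' : T'.V →ₗ[ZM N] T'.V)
    (hi : ∀ B q, ∀ x ∈ T.fam B q, i x ∈ T'.fam B q)
    (hp : ∀ B q, ∀ x ∈ T'.fam B q, p x ∈ T.fam B q)
    (hR : ∀ B q, ∀ x ∈ T.fam B q, R x ∈ T.fam B (q + 1))
    (hR' : ∀ B q, ∀ x ∈ T'.fam B q, R' x ∈ T'.fam B (q + 1))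
    (hid : ∀ x, i (T.d x) = T'.d (i x)) (hpd : ∀ x, p (T'.d x) = T.d (p x))
    (hpi : ∀ x, p (i x) = x + T.d (R x) + R (T.d x))
    (hip : ∀ y, i (p y) = y + T'.d (R' y) + R' (T'.d y))
    (K : Co P N) (e : Matrix K.ι K.ι (ZM N)) (h : IsoL T K e) : IsoL T' K e := by
  obtain ⟨u, v, r, s, hu, hv, hr, hs, hud, hvd, hvu, huv⟩ := h
  refine ⟨i.comp u, v.comp p, R' + (i.comp r).comp p, s + linkMat ((v.comp R).comp u),
    ?_, ?_, ?_, ?_, ?_, ?_, ?_, ?_⟩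
  · intro B q x hx
    exact hi B q _ (hu B q x hx)
  · intro B q y hy
    exact hv B q _ (hp B q y hy)
  · intro B q y hy
    exact add_mem (hR' B q y hy) (hi B (q + 1) _ (hr B q _ (hp B q y hy)))
  · refine hs.add ?_
    rw [ct_iff]
    intro l
    exact hv _ _ _ (hR _ _ _ (hu _ _ _ (basis_mem_fam l)))
  · intro x
    change i (u (x ᵥ* K.d)) = T'.d (i (u x))
    rw [hud, hid]
  · intro y
    change v (p (T'.d y)) = v (p y) ᵥ* K.d
    rw [hpd, hvd]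
  · intro x
    change v (p (i (u x))) = _
    rw [hpi, map_add, map_add, hvu, hvd, ← hud]
    simp only [Matrix.mul_add, Matrix.add_mul, Matrix.vecMul_add]
    rw [← Matrix.vecMul_vecMul (M := K.d) (N := linkMat _),
      ← Matrix.vecMul_vecMul (M := linkMat _) (N := K.d), vecMul_linkMat, vecMul_linkMat]
    change x ᵥ* e + x ᵥ* (K.d * s) + x ᵥ* (s * K.d) + v (R (u x)) ᵥ* K.d +
      v (R (u (x ᵥ* K.d))) = x ᵥ* e + (x ᵥ* (K.d * s) + v (R (u (x ᵥ* K.d)))) +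
        (x ᵥ* (s * K.d) + v (R (u x)) ᵥ* K.d)
    abel
  · intro y
    change i (u (v (p y))) = y + T'.d (R' y + i (r (p y))) + (R' (T'.d y) + i (r (p (T'.d y))))
    rw [huv, map_add, map_add, hip, hpd, map_add T'.d, hid]
    abel

/-- Restriction of scalars for linear maps between targets. -/
noncomputable def u5Res {N' : Type} [Monoid N'] {π : N →* Γ} {π' : N' →* Γ} {U : Finset D}
    (h : N →* N') (hh : ∀ m, π' (h m) = π m) (T T' : Tg P π' U) (F : T.V →ₗ[ZM N'] T'.V) :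
    (T.res h hh).V →ₗ[ZM N] (T'.res h hh).V where
  toFun := F
  map_add' := F.map_add
  map_smul' := fun a x => F.map_smul (mdh h a) x

/-- The linear map of a matrix. -/
noncomputable def u5V [SzAct Γ P] {π : N →* Γ} {U : Finset D} (X Y : Co P N) (hX : IsCx π U X)
    (hY : IsCx π U Y) (a : Matrix X.ι Y.ι (ZM N)) : (Tg.ofCo X hX).V →ₗ[ZM N] (Tg.ofCo Y hY).V where
  toFun := fun x => (show X.ι → ZM N from x) ᵥ* a
  map_add' := fun _ _ => Matrix.add_vecMul _ _ _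
  map_smul' := fun _ _ => Matrix.smul_vecMul _ _ _

end

/-- Module U5. -/
theorem stU5 : StU5 := by
  intro Γ _ D P _ _ _ G _ π V B B' W e h h' hiso hL
  obtain ⟨a, b, ha, hb, ⟨t', ht', h1⟩, ⟨t, ht, h2⟩⟩ := hiso
  have hab : ∀ y : B'.ι → ZM (GN G), (y ᵥ* a) ᵥ* b =
      y + (y ᵥ* t') ᵥ* B'.d + (y ᵥ* B'.d) ᵥ* t' := by
    intro y
    have h3 : a * b = B'.d * t' + t' * B'.d + 1 := by rw [← h1, sub_add_cancel]
    rw [Matrix.vecMul_vecMul, h3, Matrix.vecMul_add, Matrix.vecMul_add, Matrix.vecMul_one,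
      Matrix.vecMul_vecMul, Matrix.vecMul_vecMul]
    abel
  have hba : ∀ x : B.ι → ZM (GN G), (x ᵥ* b) ᵥ* a =
      x + (x ᵥ* t) ᵥ* B.d + (x ᵥ* B.d) ᵥ* t := by
    intro x
    have h3 : b * a = B.d * t + t * B.d + 1 := by rw [← h2, sub_add_cancel]
    rw [Matrix.vecMul_vecMul, h3, Matrix.vecMul_add, Matrix.vecMul_add, Matrix.vecMul_one,
      Matrix.vecMul_vecMul, Matrix.vecMul_vecMul]
    abel
  refine u5_equiv _ _
    (u5Res (hInc G) (pN_hInc π) (Tg.ofCo B h) (Tg.ofCo B' h') (u5V B B' h h' b))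
    (u5Res (hInc G) (pN_hInc π) (Tg.ofCo B' h') (Tg.ofCo B h) (u5V B' B h' h a))
    (u5Res (hInc G) (pN_hInc π) (Tg.ofCo B h) (Tg.ofCo B h) (u5V B B h h t))
    (u5Res (hInc G) (pN_hInc π) (Tg.ofCo B' h') (Tg.ofCo B' h') (u5V B' B' h' h' t'))
    ?_ ?_ ?_ ?_ ?_ ?_ ?_ ?_ W e hL
  · intro A q x hx
    exact fam_vecMul' hb.1 hx (add_zero q)
  · intro A q x hx
    exact fam_vecMul' ha.1 hx (add_zero q)
  · intro A q x hx
    exact fam_vecMul' ht hx rfl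
  · intro A q x hx
    exact fam_vecMul' ht' hx rfl
  · intro (x : B.ι → ZM (GN G))
    change (x ᵥ* B.d) ᵥ* b = (x ᵥ* b) ᵥ* B'.d
    rw [Matrix.vecMul_vecMul, Matrix.vecMul_vecMul, hb.2]
  · intro (x : B'.ι → ZM (GN G))
    change (x ᵥ* B'.d) ᵥ* a = (x ᵥ* a) ᵥ* B.d
    rw [Matrix.vecMul_vecMul, Matrix.vecMul_vecMul, ha.2]
  · intro (x : B.ι → ZM (GN G))
    exact hba x
  · intro (y : B'.ι → ZM (GN G))
    exact hab y

end Pool.Agent.Lib.MP_551055_al.W17
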