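import Mathlib
import Pool.Agent.Lib.MP_551055_al.Trim.LS.PStmts
import Pool.Agent.Lib.MP_551055_al.Trim.LS.Stmts
import Pool.Agent.Lib.MP_551055_al.Trim.MT.Base
import Pool.Agent.Lib.MP_551055_al.Trim.MT.Defs
import Pool.Agent.Lib.MP_551055_al.Trim.MT.Map
import Pool.Agent.Lib.MP_551055_al.Trim.MT.StA
import Pool.Agent.Lib.MP_551055_al.Trim.MT.Step
import Pool.Agent.Lib.MP_551055_al.Trim.MT.Tg
import Pool.Agent.Lib.MP_551055_al.Trim.MT.Trees
import Pool.Agent.Lib.MP_551055_al.Trim.W17.Defs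
import Pool.Agent.Lib.MP_551055_al.Trim.W17.StU

/-!
# Trees and products: module U6 (the step)
-/

set_option autoImplicit false

namespace Pool.Agent.Lib.MP_551055_al
end Pool.Agent.Lib.MP_551055_al

namespace Pool.Agent.Lib.MP_551055_al.LS
end Pool.Agent.Lib.MP_551055_al.LS

namespace Pool.Agent.Lib.MP_551055_al.MT
end Pool.Agent.Lib.MP_551055_al.MT

namespace Pool.Agent.Lib.MP_551055_al.W17

open Pool.Agent.Lib.MP_551055_al

open Pool.Agent.Lib.MP_551055_al.LS (TreeAct ZN)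

open Pool.Agent.Lib.MP_551055_al.MT

open Matrix

/-- If the cone of `f` is contractible, then `X` and `Y` are isomorphic. -/
theorem iso_of_contr_cone (hCC : StCC) {Γ : Type} [Group Γ] {D : Type} {P : D → Type}
    [∀ i, PartialOrder (P i)] [∀ i, MulAction Γ (P i)] [SzAct Γ P] {N : Type} [Monoid N]
    {π : N →* Γ} {U : Finset D} {X Y : Co P N} {f : Matrix X.ι Y.ι (ZM N)}
    (hf : Ch π U X Y f) (hc : Contr π U (cone X Y f)) : Iso π U X 1 Y 1 := by
  obtain ⟨g, hg, h1, h2⟩ := (hCC Γ D P N π U X Y f hf).2 hc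
  exact ⟨f, g, hf, hg, h1, h2⟩

/-- The size of a cell or of a flag is a cell. -/
theorem cl_szZ {Γ : Type} [Group Γ] {V : Type} [MulAction Γ V] {T : SimpleGraph V}
    {h : TreeAct Γ V T} {z : ZZ h} {A : Sub h} (hz : RZ h z A) : Cl h (szZ h z) := by
  rcases z with σ | f
  · exact hz.1
  · exact Or.inl hz.1

/-- Module U6. -/
theorem stU6 (hCC : StCC) (hTel : StTel) (hFr : StFr) (hK1 : StK1) (hK2 : StK2)
    (hLink : StLink) (h1 : StU1) (h2 : StU2) (h3 : StU3) (h4 : StU4) (h5 : StU5) : StU6 := by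
  intro Γ _ D _ V _ T h G _ π U j hj hlat hspj K e hK hKcl he hnul
  -- the new direction, with cells in the old directions
  obtain ⟨C, eC, W, sz', s, p, hCx, heC, iso1, hWx, hWx', hWcl, hsz, hszj, hs, hp, hsp, hε, hWc⟩ :=
    h3 Γ D V T h G π U j hj K e hK hKcl he hnul
  have hUj : U ⊆ insert j U := Finset.subset_insert j U
  have hjU : j ∈ insert j U := Finset.mem_insert_self j U
  have hszU : ∀ l, ∀ i ∈ U, sz' l i = W.sz l i := fun l i hi =>
    hsz l i fun h => hj (h ▸ hi)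
  have hszle : ∀ l, ∀ i ∈ insert j U, W.sz l i ≤ sz' l i := by
    intro l i hi
    by_cases hij : i = j
    · subst hij
      exact hszj l
    · exact (hsz l i hij).ge
  -- `(C, eC)` and `(W, ε)`
  have hεch : Ch π U W W (p * eC * s) := (hp.mul heC.1).mul hs
  have hεε : p * eC * s * (p * eC * s) = p * (eC * eC) * s := by
    have h1 : p * eC * s * (p * eC * s) = p * (eC * (s * p) * eC) * s := by
      simp only [Matrix.mul_assoc]
    rw [h1, hsp, Matrix.mul_one]
  have hεHI : HI π U W (p * eC * s) := by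
    refine ⟨hεch, ?_⟩
    rw [hεε, ← Matrix.sub_mul, ← Matrix.mul_sub]
    exact (hp.mul_nul heC.2).mul_ch hs
  have iso2 : Iso π U C eC W (p * eC * s) := by
    refine ⟨eC * s, p, heC.1.mul hs, hp, ?_, ?_⟩
    · rw [Matrix.mul_assoc, hsp, Matrix.mul_one, sub_self]
      exact Nul.zero
    · rw [← Matrix.mul_assoc, sub_self]
      exact Nul.zero
  -- the telescope
  obtain ⟨hT1, hT2, hT3⟩ := hTel Γ D (SP h) G π (insert j U) W sz' (p * eC * s) hWx hWx' hszle hε
    hεch.2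
  have hTcl : Cel h U (tel W sz' (p * eC * s)).toOb := by
    rintro (l | l) i hi
    · exact hWcl l i hi
    · change Cl (h i) (sz' l i)
      rw [hszU l i hi]
      exact hWcl l i hi
  generalize hN : tel W sz' (p * eC * s) = N₁ at hT1 hT2 hT3 hTcl
  have hk1 : ∀ hx : IsCx (pN π) U N₁,
      IsoL ((Tg.ofCo N₁ hx).res (π := π) (hInc G) (pN_hInc π)) W (p * eC * s) := by
    subst hN
    exact hK1 Γ D (SP h) G π U W sz' (p * eC * s) (hWx.mono hUj) hszU hεHI
  -- cells in the direction `j`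
  have hrfl : ∀ l, N₁.sz l j = (fun l => N₁.sz l j) l := fun _ => rfl
  obtain ⟨-, -, hphi1, -, hphicx, -⟩ := h1 Γ D V T h (GN G) (pN π) (insert j U) j hjU
  have hNx := hphicx N₁ (fun l => N₁.sz l j) hrfl hT1
  obtain ⟨hA, hAc, -⟩ := (h2 Γ D V T h (GN G) (pN π) (insert j U) j hjU).1 N₁
    (fun l => N₁.sz l j) hrfl hT1
  have hAU : Iso (pN π) U (phi h (pN π) j N₁ fun l => N₁.sz l j) 1 N₁ 1 :=
    iso_of_contr_cone hCC (hA.mono hUj) (hAc U hUj hj)
  have hNcl : Cel h (insert j U) (phi h (pN π) j N₁ fun l => N₁.sz l j).toOb := by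
    intro x i hi
    by_cases hij : i = j
    · subst hij
      change Cl (h i) (Function.update (N₁.sz x.1) i (szZ (h i) x.2.1) i)
      rw [Function.update_self]
      exact cl_szZ x.2.2
    · change Cl (h i) (Function.update (N₁.sz x.1) j (szZ (h j) x.2.1) i)
      rw [Function.update_of_ne hij]
      exact hTcl x.1 i ((Finset.mem_insert.1 hi).resolve_left hij)
  have hNc : ∀ i ∈ U, Contr (pN π) ((insert j U).erase i)
      (phi h (pN π) j N₁ fun l => N₁.sz l j) := by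
    intro i hi
    have hji : j ∈ (insert j U).erase i :=
      Finset.mem_erase.2 ⟨fun hh => hj (hh ▸ hi), hjU⟩
    obtain ⟨-, -, hphi1', -, -, hphic'⟩ := h1 Γ D V T h (GN G) (pN π) ((insert j U).erase i) j hji
    have hx := hT1.mono (Finset.erase_subset i (insert j U))
    have h6 := (hphic' N₁ N₁ (fun l => N₁.sz l j) (fun l => N₁.sz l j) 1 hrfl hrfl hx hx).2
      (hT2 _ (Finset.erase_subset _ _) (hWc i hi).1 (hWc i hi).2)
    rw [hphi1' N₁.toOb (fun l => N₁.sz l j) hrfl] at h6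
    exact h6
  clear hA hAc
  generalize (phi h (pN π) j N₁ fun l => N₁.sz l j) = N₂ at hNx hAU hNcl hNc
  -- the lattice
  have hloc1 : IsCx (pZ π) (insert j U) (N₂.map (loc G)) := hNx.map (pZ_hLoc π)
  have hlocc : ∀ i ∈ insert j U, Contr (pZ π) ((insert j U).erase i) (N₂.map (loc G)) := by
    intro i hi
    rcases Finset.mem_insert.1 hi with rfl | hi
    · rw [Finset.erase_insert hj]
      have h7 := (hAU.map (pZ_hLoc π)).symm
      rw [map_one', map_one'] at h7
      exact h7.nul HI.one (hT3 U hUj hszU hεHI)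
    · exact (hNc i hi).map (pZ_hLoc π)
  obtain ⟨M₁, hM₁, hM₁cl, hM₁c, isoM₁⟩ := hlat (N₂.map (loc G)) hloc1 hNcl hlocc
  obtain ⟨f, hf, m, H, hH, hHm⟩ := hFr Γ D (SP h) G π (insert j U) M₁ N₂ hM₁ hNx isoM₁
  have hB : IsCx (pN π) (insert j U) (cone M₁ N₂ f) := hM₁.cone hNx hf
  obtain ⟨K', e', hK'sz, hK', he', hnul', hisoL⟩ :=
    h4 Γ D (SP h) G π (insert j U) _ hB m H hH hHm
  have hK'cl : Cel h (insert j U) K'.toOb := by
    intro l i hi
    obtain ⟨b, hb⟩ := hK'sz l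
    rw [hb]
    rcases b with b | b
    · exact hM₁cl b i hi
    · exact hNcl b i hi
  have hBc : ∀ i ∈ U, Contr (pN π) ((insert j U).erase i) (cone M₁ N₂ f) := fun i hi =>
    contr_cone hCC (hf.mono (Finset.erase_subset _ _)) (hM₁c i (Finset.mem_insert_of_mem hi))
      (hNc i hi)
  have hK'n : ∀ i ∈ U, Nul π ((insert j U).erase i) K' K' e' := fun i hi =>
    hnul' _ (Finset.erase_subset _ _) (hBc i hi)
  obtain ⟨M, hM, hMcl, isoM⟩ := hspj K' e' hK' hK'cl he' hK'n
  -- comparison over `U`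
  have hUB : IsCx (pN π) U (cone M₁ N₂ f) := hB.mono hUj
  have hM₁U : Contr (pN π) U M₁ := by
    have h8 := hM₁c j hjU
    rwa [Finset.erase_insert hj] at h8
  have hL1 := hK2 Γ D (SP h) G π U M₁ N₂ f W (p * eC * s) (hM₁.mono hUj) (hNx.mono hUj)
    (hf.mono hUj) hM₁U
    (h5 Γ D (SP h) G π U N₁ N₂ W (p * eC * s) (hT1.mono hUj) (hNx.mono hUj) hAU
      (hk1 (hT1.mono hUj))) hUB
  have iso4 : Iso π U W (p * eC * s) K' e' :=
    hLink Γ D (SP h) G π U _ W K' _ e' (hWx.mono hUj) (hK'.mono hUj) hεHI (he'.mono hUj) hL1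
      (hisoL U hUj hUB)
  refine ⟨M, hM, hMcl, fun i hi => ?_, (((iso1.trans he hεHI iso2).trans he (he'.mono hUj)
    iso4).trans he HI.one (isoM.mono hUj))⟩
  exact (isoM.mono (Finset.erase_subset i _)).nul HI.one (hK'n i hi)

end Pool.Agent.Lib.MP_551055_al.W17
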