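import Mathlib
import Pool.Agent.Lib.MP_551055_al.Trim.LS.PStmts
import Pool.Agent.Lib.MP_551055_al.Trim.LS.Stmts
import Pool.Agent.Lib.MP_551055_al.Trim.MT.Base
import Pool.Agent.Lib.MP_551055_al.Trim.MT.Defs
import Pool.Agent.Lib.MP_551055_al.Trim.MT.Map
import Pool.Agent.Lib.MP_551055_al.Trim.MT.Trees
import Pool.Agent.Lib.MP_551055_al.Trim.W17.Defs
import Pool.Agent.Lib.MP_551055_al.Trim.W17.StU

/-!
# Trees and products, module U7: splitting with one more direction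
-/

set_option autoImplicit false

set_option linter.unusedSectionVars false

namespace Pool.Agent.Lib.MP_551055_al
end Pool.Agent.Lib.MP_551055_al

namespace Pool.Agent.Lib.MP_551055_al.LS
end Pool.Agent.Lib.MP_551055_al.LS

namespace Pool.Agent.Lib.MP_551055_al.MT
end Pool.Agent.Lib.MP_551055_al.MT

namespace Pool.Agent.Lib.MP_551055_al.W17

open Pool.Agent.Lib.MP_551055_al

open Pool.Agent.Lib.MP_551055_al.LS (TreeAct ZN)

open Pool.Agent.Lib.MP_551055_al.MT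

open Matrix

namespace U7

/-! ## Triangular endomorphisms of cones -/

section

variable {Γ : Type} [Group Γ] {D : Type} {P : D → Type} [∀ i, PartialOrder (P i)]
  [∀ i, MulAction Γ (P i)] {N : Type} [Monoid N]

variable {π : N →* Γ} {U : Finset D} {X Y : Co P N} {f : Matrix X.ι Y.ι (ZM N)} {r : ℤ}

theorem ct11 {g : Matrix (X.ι ⊕ Y.ι) (X.ι ⊕ Y.ι) (ZM N)}
    (hg : Ct π U r (cone X Y f).toOb (cone X Y f).toOb g) :
    Ct π U r X.toOb X.toOb g.toBlocks₁₁ := by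
  intro l k m h
  obtain ⟨h1, h2⟩ := hg (Sum.inl l) (Sum.inl k) m h
  refine ⟨?_, h2⟩
  have h3 : X.deg k + 1 = X.deg l + 1 + r := h1
  omega

theorem ct22 {g : Matrix (X.ι ⊕ Y.ι) (X.ι ⊕ Y.ι) (ZM N)}
    (hg : Ct π U r (cone X Y f).toOb (cone X Y f).toOb g) :
    Ct π U r Y.toOb Y.toOb g.toBlocks₂₂ :=
  fun l k m h => hg (Sum.inr l) (Sum.inr k) m h

theorem mul11 {g g' : Matrix (X.ι ⊕ Y.ι) (X.ι ⊕ Y.ι) (ZM N)} (h : g'.toBlocks₂₁ = 0) :
    (g * g').toBlocks₁₁ = g.toBlocks₁₁ * g'.toBlocks₁₁ := by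
  have h1 : g * g' = Matrix.fromBlocks g.toBlocks₁₁ g.toBlocks₁₂ g.toBlocks₂₁ g.toBlocks₂₂ *
      Matrix.fromBlocks g'.toBlocks₁₁ g'.toBlocks₁₂ g'.toBlocks₂₁ g'.toBlocks₂₂ := by
    rw [Matrix.fromBlocks_toBlocks, Matrix.fromBlocks_toBlocks]
  rw [h1, Matrix.fromBlocks_multiply, Matrix.toBlocks_fromBlocks₁₁, h, Matrix.mul_zero, add_zero]

theorem mul22 {g g' : Matrix (X.ι ⊕ Y.ι) (X.ι ⊕ Y.ι) (ZM N)} (h : g.toBlocks₂₁ = 0) :
    (g * g').toBlocks₂₂ = g.toBlocks₂₂ * g'.toBlocks₂₂ := by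
  have h1 : g * g' = Matrix.fromBlocks g.toBlocks₁₁ g.toBlocks₁₂ g.toBlocks₂₁ g.toBlocks₂₂ *
      Matrix.fromBlocks g'.toBlocks₁₁ g'.toBlocks₁₂ g'.toBlocks₂₁ g'.toBlocks₂₂ := by
    rw [Matrix.fromBlocks_toBlocks, Matrix.fromBlocks_toBlocks]
  rw [h1, Matrix.fromBlocks_multiply, Matrix.toBlocks_fromBlocks₂₂, h, Matrix.zero_mul, zero_add]

theorem d11 : (cone X Y f).d.toBlocks₁₁ = -X.d := Matrix.toBlocks_fromBlocks₁₁ _ _ _ _

theorem d21 : (cone X Y f).d.toBlocks₂₁ = 0 := Matrix.toBlocks_fromBlocks₂₁ _ _ _ _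

theorem d22 : (cone X Y f).d.toBlocks₂₂ = Y.d := Matrix.toBlocks_fromBlocks₂₂ _ _ _ _

theorem add11 {α β : Type} (g g' : Matrix (α ⊕ β) (α ⊕ β) (ZM N)) :
    (g + g').toBlocks₁₁ = g.toBlocks₁₁ + g'.toBlocks₁₁ := rfl

theorem add22 {α β : Type} (g g' : Matrix (α ⊕ β) (α ⊕ β) (ZM N)) :
    (g + g').toBlocks₂₂ = g.toBlocks₂₂ + g'.toBlocks₂₂ := rfl

theorem sub11 {α β : Type} (g g' : Matrix (α ⊕ β) (α ⊕ β) (ZM N)) :
    (g - g').toBlocks₁₁ = g.toBlocks₁₁ - g'.toBlocks₁₁ := rfl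

theorem sub22 {α β : Type} (g g' : Matrix (α ⊕ β) (α ⊕ β) (ZM N)) :
    (g - g').toBlocks₂₂ = g.toBlocks₂₂ - g'.toBlocks₂₂ := rfl

theorem ch11 {g : Matrix (X.ι ⊕ Y.ι) (X.ι ⊕ Y.ι) (ZM N)} (h0 : g.toBlocks₂₁ = 0)
    (hg : Ch π U (cone X Y f) (cone X Y f) g) : Ch π U X X g.toBlocks₁₁ := by
  refine ⟨ct11 hg.1, ?_⟩
  have h1 : ((cone X Y f).d * g).toBlocks₁₁ = (g * (cone X Y f).d).toBlocks₁₁ :=
    congrArg Matrix.toBlocks₁₁ hg.2
  rw [mul11 h0, mul11 d21, d11, Matrix.neg_mul, Matrix.mul_neg] at h1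
  exact neg_injective h1

theorem ch22 {g : Matrix (X.ι ⊕ Y.ι) (X.ι ⊕ Y.ι) (ZM N)} (h0 : g.toBlocks₂₁ = 0)
    (hg : Ch π U (cone X Y f) (cone X Y f) g) : Ch π U Y Y g.toBlocks₂₂ := by
  refine ⟨ct22 hg.1, ?_⟩
  have h1 : ((cone X Y f).d * g).toBlocks₂₂ = (g * (cone X Y f).d).toBlocks₂₂ :=
    congrArg Matrix.toBlocks₂₂ hg.2
  rwa [mul22 d21, mul22 h0, d22] at h1

theorem nul11 (tri : ∀ g : Matrix (X.ι ⊕ Y.ι) (X.ι ⊕ Y.ι) (ZM N),
      Ct π U 1 (cone X Y f).toOb (cone X Y f).toOb g → g.toBlocks₂₁ = 0)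
    {g : Matrix (X.ι ⊕ Y.ι) (X.ι ⊕ Y.ι) (ZM N)}
    (hg : Nul π U (cone X Y f) (cone X Y f) g) : Nul π U X X g.toBlocks₁₁ := by
  obtain ⟨s, hs, h1⟩ := hg
  refine ⟨-s.toBlocks₁₁, (ct11 hs).neg, ?_⟩
  have h2 : g.toBlocks₁₁ = ((cone X Y f).d * s + s * (cone X Y f).d).toBlocks₁₁ :=
    congrArg Matrix.toBlocks₁₁ h1
  rw [h2, add11, mul11 (tri s hs), mul11 d21, d11, Matrix.neg_mul, Matrix.mul_neg, Matrix.mul_neg,
    Matrix.neg_mul]

theorem nul22 (tri : ∀ g : Matrix (X.ι ⊕ Y.ι) (X.ι ⊕ Y.ι) (ZM N),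
      Ct π U 1 (cone X Y f).toOb (cone X Y f).toOb g → g.toBlocks₂₁ = 0)
    {g : Matrix (X.ι ⊕ Y.ι) (X.ι ⊕ Y.ι) (ZM N)}
    (hg : Nul π U (cone X Y f) (cone X Y f) g) : Nul π U Y Y g.toBlocks₂₂ := by
  obtain ⟨s, hs, h1⟩ := hg
  refine ⟨s.toBlocks₂₂, ct22 hs, ?_⟩
  have h2 : g.toBlocks₂₂ = ((cone X Y f).d * s + s * (cone X Y f).d).toBlocks₂₂ :=
    congrArg Matrix.toBlocks₂₂ h1
  rw [h2, add22, mul22 d21, mul22 (tri s hs), d22]

theorem hi11 (tri0 : ∀ g : Matrix (X.ι ⊕ Y.ι) (X.ι ⊕ Y.ι) (ZM N),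
      Ct π U 0 (cone X Y f).toOb (cone X Y f).toOb g → g.toBlocks₂₁ = 0)
    (tri : ∀ g : Matrix (X.ι ⊕ Y.ι) (X.ι ⊕ Y.ι) (ZM N),
      Ct π U 1 (cone X Y f).toOb (cone X Y f).toOb g → g.toBlocks₂₁ = 0)
    {g : Matrix (X.ι ⊕ Y.ι) (X.ι ⊕ Y.ι) (ZM N)}
    (hg : HI π U (cone X Y f) g) : HI π U X g.toBlocks₁₁ := by
  have h0 := tri0 g hg.1.1
  refine ⟨ch11 h0 hg.1, ?_⟩
  have h1 := nul11 tri hg.2
  rwa [sub11, mul11 h0] at h1

theorem hi22 (tri0 : ∀ g : Matrix (X.ι ⊕ Y.ι) (X.ι ⊕ Y.ι) (ZM N),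
      Ct π U 0 (cone X Y f).toOb (cone X Y f).toOb g → g.toBlocks₂₁ = 0)
    (tri : ∀ g : Matrix (X.ι ⊕ Y.ι) (X.ι ⊕ Y.ι) (ZM N),
      Ct π U 1 (cone X Y f).toOb (cone X Y f).toOb g → g.toBlocks₂₁ = 0)
    {g : Matrix (X.ι ⊕ Y.ι) (X.ι ⊕ Y.ι) (ZM N)}
    (hg : HI π U (cone X Y f) g) : HI π U Y g.toBlocks₂₂ := by
  have h0 := tri0 g hg.1.1
  refine ⟨ch22 h0 hg.1, ?_⟩
  have h1 := nul22 tri hg.2
  rwa [sub22, mul22 h0] at h1

end

/-! ## Cells -/

section

variable {Γ : Type} [Group Γ] {V : Type} [MulAction Γ V] {T : SimpleGraph V} (h : TreeAct Γ V T)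

theorem cl_smul (γ : Γ) {A : Sub h} (hA : Cl h A) : Cl h (γ • A) := by
  rcases hA with ⟨v, rfl⟩ | ⟨u, v, huv, rfl⟩
  · exact Or.inl ⟨γ • v, smul_vtx h γ v⟩
  · exact Or.inr ⟨γ • u, γ • v, h.adj γ u v huv, smul_edg h γ huv⟩

end

/-! ## Complexes with one size in the direction `j` -/

section

variable {Γ : Type} [Group Γ] {D : Type} [DecidableEq D] {P : D → Type}
  [∀ i, PartialOrder (P i)] [∀ i, MulAction Γ (P i)] {G : Type} [Group G] {π : G →* Γ}
  {U : Finset D} {j : D} {A : P j}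

/-- The ring homomorphism of the stabiliser. -/
noncomputable abbrev sb (π : G →* Γ) {j : D} (A : P j) : ZM (St π A) →+* ZM G :=
  mdh (St π A).subtype

theorem sb_inj : Function.Injective (sb π A) := mdh_injective (Subgroup.subtype_injective _)

theorem sbm_inj {α β : Type} {f g : Matrix α β (ZM (St π A))} (h : f.map (sb π A) = g.map (sb π A)) :
    f = g := by
  ext1 a b
  have h1 : (f.map (sb π A)) a b = (g.map (sb π A)) a b := by rw [h]
  exact sb_inj h1

/-- New sizes in the direction `j`. -/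
def OKs (A : P j) (X : Ob P) (s : X.ι → Sz P) : Prop :=
  (∀ l i, i ≠ j → s l i = X.sz l i) ∧ ∀ l, s l j = A

/-- Other sizes. -/
abbrev obW (X : Ob P) (s : X.ι → Sz P) : Ob P where
  ι := X.ι
  ft := X.ft
  de := X.de
  deg := X.deg
  sz := s

theorem Ct.up {X Y : Ob P} {s : X.ι → Sz P} {t : Y.ι → Sz P} (hs : OKs A X s) (ht : OKs A Y t)
    {r : ℤ} {f : Matrix X.ι Y.ι (ZM (St π A))} (hf : Ct (stH π A) U r X Y f) :
    Ct π (insert j U) r (obW X s) (obW Y t) (f.map (sb π A)) := by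
  intro l k m hm
  obtain ⟨a, rfl, h1⟩ := coeff_mdh_ne hm
  obtain ⟨h2, h3⟩ := hf l k a h1
  refine ⟨h2, fun i hi => ?_⟩
  by_cases hij : i = j
  · subst hij
    change s l i ≤ π a.1 • t k i
    rw [hs.2 l, ht.2 k]
    have h4 : π a.1 • A = A := a.2
    rw [h4]
  · change s l i ≤ π a.1 • t k i
    rw [hs.1 l i hij, ht.1 k i hij]
    exact h3 i (Finset.mem_of_mem_insert_of_ne hi hij)

/-- The induced complex. -/
noncomputable abbrev up (X : Co P (St π A)) (s : X.ι → Sz P) : Co P G :=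
  (X.map (sb π A)).withSz s

variable {X Y : Co P (St π A)} {s : X.ι → Sz P} {t : Y.ι → Sz P}

theorem IsCx.up (hs : OKs A X.toOb s) (hX : IsCx (stH π A) U X) : IsCx π (insert j U) (up X s) := by
  refine ⟨Ct.up hs hs hX.1, ?_⟩
  change X.d.map (sb π A) * X.d.map (sb π A) = 0
  rw [← map_mul', hX.2, map_zero']

theorem Ch.up (hs : OKs A X.toOb s) (ht : OKs A Y.toOb t) {f : Matrix X.ι Y.ι (ZM (St π A))}
    (hf : Ch (stH π A) U X Y f) :
    Ch π (insert j U) (up X s) (up Y t) (f.map (sb π A)) := by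
  refine ⟨Ct.up hs ht hf.1, ?_⟩
  change X.d.map (sb π A) * f.map (sb π A) = f.map (sb π A) * Y.d.map (sb π A)
  rw [← map_mul', hf.2, map_mul']

theorem Nul.up (hs : OKs A X.toOb s) (ht : OKs A Y.toOb t) {f : Matrix X.ι Y.ι (ZM (St π A))}
    (hf : Nul (stH π A) U X Y f) :
    Nul π (insert j U) (up X s) (up Y t) (f.map (sb π A)) := by
  obtain ⟨c, hc, h1⟩ := hf
  refine ⟨c.map (sb π A), Ct.up hs ht hc, ?_⟩
  change f.map (sb π A) = X.d.map (sb π A) * c.map (sb π A) + c.map (sb π A) * Y.d.map (sb π A)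
  rw [h1, map_add', map_mul', map_mul']

theorem Iso.up (hs : OKs A X.toOb s) (ht : OKs A Y.toOb t) {e : Matrix X.ι X.ι (ZM (St π A))}
    {e' : Matrix Y.ι Y.ι (ZM (St π A))} (hi : Iso (stH π A) U X e Y e') :
    Iso π (insert j U) (up X s) (e.map (sb π A)) (up Y t) (e'.map (sb π A)) := by
  obtain ⟨u, v, hu, hv, h1, h2⟩ := hi
  refine ⟨u.map (sb π A), v.map (sb π A), Ch.up hs ht hu, Ch.up ht hs hv, ?_, ?_⟩
  · have h3 := Nul.up hs hs h1
    rw [MT.map_sub', map_mul'] at h3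
    exact h3
  · have h3 := Nul.up ht ht h2
    rw [MT.map_sub', map_mul'] at h3
    exact h3

/-- Matrices between complexes with the size `A` have coefficients in the stabiliser. -/
theorem down [SzAct Γ P] [SzRk Γ P] (hD : StDesc) {X Y : Ob P} {V : Finset D} (hj : j ∈ V)
    (hX : ∀ l, X.sz l j = A) (hY : ∀ l, Y.sz l j = A) {r : ℤ} {f : Matrix X.ι Y.ι (ZM G)}
    (hf : Ct π V r X Y f) : ∃ f' : Matrix X.ι Y.ι (ZM (St π A)), f'.map (sb π A) = f := by
  refine hD G (St π A) (St π A).subtype (Subgroup.subtype_injective _) X.ι Y.ι f ?_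
  intro l k m hm
  obtain ⟨rk, h1, h2⟩ := SzRk.rk (Γ := Γ) (P := P)
  have h3 : A ≤ π m • A := by
    have h4 := (hf l k m hm).2 j hj
    rwa [hX l, hY k] at h4
  have h5 : π m • A = A := by
    by_contra hn
    have h6 := h1 j _ _ (lt_of_le_of_ne h3 (Ne.symm hn))
    rw [h2] at h6
    exact lt_irrefl _ h6
  exact ⟨⟨m, h5⟩, rfl⟩

theorem Ct.down {X Y : Ob P} {V : Finset D} {r : ℤ} {f : Matrix X.ι Y.ι (ZM (St π A))}
    (hf : Ct π V r X Y (f.map (sb π A))) : Ct (stH π A) V r X Y f :=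
  Ct.of_map (π := stH π A) (π' := π) (h := (St π A).subtype) (fun _ => rfl)
    (Subgroup.subtype_injective _) hf

end

/-! ## The column of the smallest size -/

section

variable {Γ : Type} [Group Γ] {D : Type} [DecidableEq D] {V : D → Type} [∀ i, MulAction Γ (V i)]
  {T : ∀ i, SimpleGraph (V i)} (h : ∀ i, TreeAct Γ (V i) (T i)) {G : Type} [Group G]
  {π : G →* Γ} {U : Finset D} {j : D}

theorem col (hD : StDesc) (hjU : j ∉ U) {A : Sub (h j)} (hA : Cl (h j) A)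
    (hsp : SpC h (stH π A) U) (X : Co (SP h) G) (hXA : ∀ l, X.sz l j = A)
    (a : Matrix X.ι X.ι (ZM G)) (hX : IsCx π (insert j U) X) (hc : Cel h (insert j U) X.toOb)
    (ha : HI π (insert j U) X a) (hn : ∀ i ∈ U, Nul π ((insert j U).erase i) X X a) :
    ∃ M : Co (SP h) G, IsCx π (insert j U) M ∧ Cel h (insert j U) M.toOb ∧
      Iso π (insert j U) X a M 1 := by
  obtain ⟨XO, Xd⟩ := X
  have hj : j ∈ insert j U := Finset.mem_insert_self j U
  have hUj : U ⊆ insert j U := Finset.subset_insert j U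
  obtain ⟨d', hd'⟩ : ∃ d' : Matrix XO.ι XO.ι (ZM (St π A)), d'.map (sb (P := SP h) π A) = Xd :=
    down (P := SP h) (j := j) (A := A) hD hj hXA hXA hX.1
  obtain ⟨a', ha'⟩ : ∃ a' : Matrix XO.ι XO.ι (ZM (St π A)), a'.map (sb (P := SP h) π A) = a :=
    down (P := SP h) (j := j) (A := A) hD hj hXA hXA ha.1.1
  subst hd'
  subst ha'
  set X' : Co (SP h) (St π A) := ⟨XO, d'⟩ with hX'
  have hX1 : IsCx (stH π A) U X' := by
    refine ⟨(Ct.down hX.1).mono hUj, ?_⟩
    apply sbm_inj (P := SP h) (j := j) (π := π) (A := A)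
    rw [map_mul', map_zero']
    exact hX.2
  have hCh : ∀ {V : Finset D} {f : Matrix X'.ι X'.ι (ZM (St π A))},
      Ch π V (⟨XO, d'.map (sb (P := SP h) π A)⟩ : Co (SP h) G) ⟨XO, d'.map (sb (P := SP h) π A)⟩ (f.map (sb (P := SP h) π A)) →
      Ch (stH π A) V X' X' f := by
    intro V f hf
    refine ⟨Ct.down hf.1, ?_⟩
    apply sbm_inj (P := SP h) (j := j) (π := π) (A := A)
    rw [map_mul', map_mul']
    exact hf.2
  have hNul : ∀ {V : Finset D} {f : Matrix X'.ι X'.ι (ZM (St π A))}, j ∈ V →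
      Nul π V (⟨XO, d'.map (sb (P := SP h) π A)⟩ : Co (SP h) G) ⟨XO, d'.map (sb (P := SP h) π A)⟩ (f.map (sb (P := SP h) π A)) →
      Nul (stH π A) V X' X' f := by
    rintro V f hjV ⟨c, hc, h1⟩
    obtain ⟨c', hc'⟩ : ∃ c' : Matrix XO.ι XO.ι (ZM (St π A)),
        c'.map (sb (P := SP h) π A) = c :=
      down (P := SP h) (j := j) (A := A) hD hjV hXA hXA hc
    subst hc'
    refine ⟨c', Ct.down hc, ?_⟩
    apply sbm_inj (P := SP h) (j := j) (π := π) (A := A)
    rw [map_add', map_mul', map_mul']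
    exact h1
  have hHI : HI (stH π A) U X' a' := by
    refine ⟨(hCh ha.1).mono hUj, ?_⟩
    have h1 := ha.2
    rw [← map_mul', ← MT.map_sub'] at h1
    exact (hNul hj h1).mono hUj
  have hcU : Cel h U X'.toOb := fun l i hi => hc l i (hUj hi)
  obtain ⟨M', hM1, hM2, hM3⟩ := hsp X' a' hX1 hcU hHI fun i hi => by
    have hij : i ≠ j := fun hij => hjU (hij ▸ hi)
    have h1 : j ∈ (insert j U).erase i := Finset.mem_erase.2 ⟨Ne.symm hij, hj⟩
    exact (hNul h1 (hn i hi)).mono (Finset.erase_subset_erase i hUj)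
  set t : M'.ι → Sz (SP h) := fun l => Function.update (M'.sz l) j A with ht
  have hOKt : OKs (P := SP h) (j := j) A M'.toOb t := by
    refine ⟨fun l i hi => ?_, fun l => ?_⟩
    · rw [ht]
      exact Function.update_of_ne hi _ _
    · rw [ht]
      exact Function.update_self _ _ _
  have hOKs : OKs (P := SP h) (j := j) A X'.toOb X'.sz := ⟨fun _ _ _ => rfl, hXA⟩
  refine ⟨up M' t, IsCx.up hOKt hM1, ?_, ?_⟩
  · intro l i hi
    change Cl (h i) (t l i)
    by_cases hij : i = j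
    · subst hij
      rw [hOKt.2 l]
      exact hA
    · rw [hOKt.1 l i hij]
      exact hM2 l i (Finset.mem_of_mem_insert_of_ne hi hij)
  · have h1 := Iso.up (s := X'.sz) (t := t) hOKs hOKt hM3
    rw [map_one'] at h1
    exact h1

/-- Module U7. -/
theorem stU7 (hBlk : StBlk) (hGlue : StGlue) (hD : StDesc) : StU7 := by
  intro Γ _ D _ V _ T h G _ π U j hjU hsp
  have hj : j ∈ insert j U := Finset.mem_insert_self j U
  have key : ∀ (n : ℕ) (K : Co (SP h) G) (e : Matrix K.ι K.ι (ZM G)),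
      Fintype.card K.ι < n → IsCx π (insert j U) K → Cel h (insert j U) K.toOb →
      HI π (insert j U) K e → (∀ i ∈ U, Nul π ((insert j U).erase i) K K e) →
      ∃ M : Co (SP h) G, IsCx π (insert j U) M ∧ Cel h (insert j U) M.toOb ∧
        Iso π (insert j U) K e M 1 := by
    intro n
    induction n with
    | zero => intro K e hn; exact absurd hn (Nat.not_lt_zero _)
    | succ n ih =>
      intro K e hn hK hc he hnul
      rcases isEmpty_or_nonempty K.ι with hE | hE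
      · refine ⟨K, hK, hc, ?_⟩
        have h1 : e = 1 := Subsingleton.elim e 1
        rw [h1]
        exact Iso.refl HI.one
      · obtain ⟨l₀, X, Y, f, u, v, hXA, hcard, hX, hY, hf, hXs, hYs, hu, hv, huv, hvu, hdu,
          htri⟩ := hBlk Γ D (SP h) G π (insert j U) j hj K hK hE
        have hdv : v * K.d = (cone X Y f).d * v := by
          calc v * K.d = v * K.d * (u * v) := by rw [huv, Matrix.mul_one]
            _ = v * (K.d * u) * v := by simp only [Matrix.mul_assoc]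
            _ = (v * u) * ((cone X Y f).d * v) := by rw [hdu]; simp only [Matrix.mul_assoc]
            _ = (cone X Y f).d * v := by rw [hvu, Matrix.one_mul]
        have hU : ∀ U', Ch π U' K (cone X Y f) u := fun U' => ⟨hu U', hdu⟩
        have hV : ∀ U', Ch π U' (cone X Y f) K v := fun U' => ⟨hv U', hdv.symm⟩
        have hnul' : ∀ {U' : Finset D} {g : Matrix K.ι K.ι (ZM G)}, Nul π U' K K g →
            Nul π U' (cone X Y f) (cone X Y f) (v * g * u) := fun {U'} {g} hg =>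
          ((hV U').mul_nul hg).mul_ch (hU U')
        have he' : HI π (insert j U) (cone X Y f) (v * e * u) := by
          refine ⟨((hV _).mul he.1).mul (hU _), ?_⟩
          have h1 := hnul' he.2
          have h2 : v * (e - e * e) * u = v * e * u - v * e * u * (v * e * u) := by
            have h3 : v * e * u * (v * e * u) = v * e * (u * v) * (e * u) := by
              simp only [Matrix.mul_assoc]
            rw [h3, huv, Matrix.mul_one, Matrix.mul_sub, Matrix.sub_mul]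
            simp only [Matrix.mul_assoc]
          rwa [h2] at h1
        have tri : ∀ {U' : Finset D}, j ∈ U' → ∀ (r : ℤ)
            (g : Matrix (X.ι ⊕ Y.ι) (X.ι ⊕ Y.ι) (ZM G)),
            Ct π U' r (cone X Y f).toOb (cone X Y f).toOb g → g.toBlocks₂₁ = 0 :=
          fun {U'} hU' => htri U' hU'
        have h21 : (v * e * u).toBlocks₂₁ = 0 := tri hj 0 _ he'.1.1
        have hblk : Matrix.fromBlocks (v * e * u).toBlocks₁₁ (v * e * u).toBlocks₁₂ 0
            (v * e * u).toBlocks₂₂ = v * e * u := by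
          rw [← h21, Matrix.fromBlocks_toBlocks]
        have hca : HI π (insert j U) X (v * e * u).toBlocks₁₁ :=
          hi11 (tri hj 0) (tri hj 1) he'
        have hcb : HI π (insert j U) Y (v * e * u).toBlocks₂₂ :=
          hi22 (tri hj 0) (tri hj 1) he'
        have hje : ∀ i ∈ U, j ∈ (insert j U).erase i := fun i hi =>
          Finset.mem_erase.2 ⟨fun hij => hjU (hij ▸ hi), hj⟩
        have hcX : Cel h (insert j U) X.toOb := by
          intro l i hi
          obtain ⟨k, γ, h1⟩ := hXs l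
          rw [h1]
          exact cl_smul (h i) γ (hc k i hi)
        have hcY : Cel h (insert j U) Y.toOb := by
          intro l i hi
          obtain ⟨k, γ, h1⟩ := hYs l
          rw [h1]
          exact cl_smul (h i) γ (hc k i hi)
        have hAc : Cl (h j) (K.sz l₀ j) := hc l₀ j hj
        obtain ⟨M, hM, hMc, hMi⟩ := col h hD hjU hAc (hsp _ hAc) X hXA _ hX hcX hca
          fun i hi => nul11 (tri (hje i hi) 1) (hnul' (hnul i hi))
        obtain ⟨M', hM', hMc', hMi'⟩ := ih Y _ (by omega) hY hcY hcb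
          fun i hi => nul22 (tri (hje i hi) 1) (hnul' (hnul i hi))
        obtain ⟨g, hg, hgi⟩ := hGlue Γ D (SP h) G π (insert j U) X Y f _
          (v * e * u).toBlocks₁₂ _ hX hY hf hca hcb (by rw [hblk]; exact he') M M' hM hM' hMi
          hMi'
        rw [hblk] at hgi
        refine ⟨cone M M' g, hM.cone hM' hg, ?_, ?_⟩
        · rintro (l | l) i hi
          · exact hMc l i hi
          · exact hMc' l i hi
        · refine Iso.trans he HI.one ?_ hgi
          refine ⟨e * u, v * e, he.1.mul (hU _), (hV _).mul he.1, ?_, ?_⟩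
          · have h1 : e * u * (v * e) = e * e := by
              rw [Matrix.mul_assoc, ← Matrix.mul_assoc u v e, huv, Matrix.one_mul]
            rw [h1]
            have h2 := he.2.neg
            rwa [neg_sub] at h2
          · have h1 : v * e * (e * u) - v * e * u = -(v * (e - e * e) * u) := by
              rw [Matrix.mul_sub, Matrix.sub_mul, neg_sub]
              simp only [Matrix.mul_assoc]
            rw [h1]
            exact (hnul' he.2).neg
  intro K e hK hc he hnul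
  exact key _ K e (Nat.lt_succ_self _) hK hc he hnul

end

end U7

theorem stU7 (hBlk : StBlk) (hGlue : StGlue) (hD : StDesc) : StU7 := U7.stU7 hBlk hGlue hD

end Pool.Agent.Lib.MP_551055_al.W17
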