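import Mathlib
import Pool.Agent.Lib.MP_551055_al.Trim.LS.PStmts
import Pool.Agent.Lib.MP_551055_al.Trim.LS.Stmts
import Pool.Agent.Lib.MP_551055_al.Trim.MT.Base
import Pool.Agent.Lib.MP_551055_al.Trim.MT.CC
import Pool.Agent.Lib.MP_551055_al.Trim.MT.Defs
import Pool.Agent.Lib.MP_551055_al.Trim.MT.Map
import Pool.Agent.Lib.MP_551055_al.Trim.MT.Step
import Pool.Agent.Lib.MP_551055_al.Trim.MT.Trees
import Pool.Agent.Lib.MP_551055_al.Trim.W17.Defs
import Pool.Agent.Lib.MP_551055_al.Trim.W17.SetJ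
import Pool.Agent.Lib.MP_551055_al.Trim.W17.StU
import Pool.Agent.Lib.MP_551055_al.Trim.W17.U1

/-!
# Trees and products: module U8 (lattices with one more direction)
-/

set_option autoImplicit false

namespace Pool.Agent.Lib.MP_551055_al
end Pool.Agent.Lib.MP_551055_al

namespace Pool.Agent.Lib.MP_551055_al.LS
end Pool.Agent.Lib.MP_551055_al.LS

namespace Pool.Agent.Lib.MP_551055_al.MT
end Pool.Agent.Lib.MP_551055_al.MT

namespace Pool.Agent.Lib.MP_551055_al.W17

open Pool.Agent.Lib.MP_551055_al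

open Pool.Agent.Lib.MP_551055_al.LS (TreeAct ZN)

open Pool.Agent.Lib.MP_551055_al.MT

open Matrix

section

variable {Γ : Type} [Group Γ] {D : Type} {P : D → Type} [∀ i, PartialOrder (P i)]
  [∀ i, MulAction Γ (P i)] [SzAct Γ P] {N : Type} [Monoid N] {π : N →* Γ} {U : Finset D}

omit [SzAct Γ P] in
/-- The diagonal blocks of a contraction of a cone. -/
theorem contr_blocks {X Y : Co P N} {f : Matrix X.ι Y.ι (ZM N)}
    (h : ∀ (r : ℤ) (g : Matrix (X.ι ⊕ Y.ι) (X.ι ⊕ Y.ι) (ZM N)),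
      Ct π U r (cone X Y f).toOb (cone X Y f).toOb g → g.toBlocks₂₁ = 0)
    (hc : Contr π U (cone X Y f)) : Contr π U X ∧ Contr π U Y := by
  obtain ⟨s, hs, e⟩ := hc
  have h21 : s.toBlocks₂₁ = 0 := h 1 s hs
  have hsb : s = Matrix.fromBlocks s.toBlocks₁₁ s.toBlocks₁₂ 0 s.toBlocks₂₂ := by
    rw [← h21]
    exact (Matrix.fromBlocks_toBlocks s).symm
  rw [hsb] at hs e
  obtain ⟨h1, -, -, h4⟩ := Ct.of_blocks hs
  change 1 = Matrix.fromBlocks (-X.d) f 0 Y.d * _ + _ * Matrix.fromBlocks (-X.d) f 0 Y.d at e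
  rw [Matrix.fromBlocks_multiply, Matrix.fromBlocks_multiply, Matrix.fromBlocks_add,
    ← Matrix.fromBlocks_one] at e
  obtain ⟨e1, -, -, e4⟩ := Matrix.fromBlocks_inj.1 e
  refine ⟨⟨-s.toBlocks₁₁, h1.neg, ?_⟩, ⟨s.toBlocks₂₂, h4, ?_⟩⟩
  · rw [e1]
    simp only [Matrix.mul_zero, add_zero, Matrix.neg_mul, Matrix.mul_neg]
  · rw [e4]
    simp only [Matrix.zero_mul, zero_add]

/-- Transport of a contraction along an isomorphism of complexes. -/
theorem contr_transport {K C : Co P N} {u : Matrix K.ι C.ι (ZM N)} {v : Matrix C.ι K.ι (ZM N)}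
    (hu : Ct π U 0 K.toOb C.toOb u) (hv : Ct π U 0 C.toOb K.toOb v) (huv : u * v = 1)
    (hvu : v * u = 1) (hd : K.d * u = u * C.d) (hc : Contr π U K) : Contr π U C := by
  obtain ⟨s, hs, e⟩ := hc
  refine ⟨v * s * u, (hv.mul' hs (zero_add 1)).mul' hu (add_zero 1), ?_⟩
  have h1 : C.d = v * K.d * u := by
    rw [Matrix.mul_assoc, hd, ← Matrix.mul_assoc, hvu, Matrix.one_mul]
  have h2 : C.d * v = v * K.d := by rw [h1, Matrix.mul_assoc, huv, Matrix.mul_one]
  have h3 : v * u = v * (K.d * s + s * K.d) * u := by rw [← e, Matrix.mul_one]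
  rw [← hvu, h3, Matrix.mul_assoc (v * s) u C.d, ← hd, Matrix.mul_assoc v s u,
    ← Matrix.mul_assoc C.d v, h2]
  simp only [Matrix.mul_add, Matrix.add_mul, Matrix.mul_assoc]

omit [SzAct Γ P] in
/-- Isomorphic complexes. -/
theorem iso_of_inv {K C : Co P N} {u : Matrix K.ι C.ι (ZM N)} {v : Matrix C.ι K.ι (ZM N)}
    (hu : Ct π U 0 K.toOb C.toOb u) (hv : Ct π U 0 C.toOb K.toOb v) (huv : u * v = 1)
    (hvu : v * u = 1) (hd : K.d * u = u * C.d) : Iso π U K 1 C 1 := by
  refine ⟨u, v, ⟨hu, hd⟩, ⟨hv, ?_⟩, ?_, ?_⟩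
  · have h1 : C.d = v * K.d * u := by
      rw [Matrix.mul_assoc, hd, ← Matrix.mul_assoc, hvu, Matrix.one_mul]
    rw [h1, Matrix.mul_assoc, huv, Matrix.mul_one]
  · rw [huv, sub_self]
    exact Nul.zero
  · rw [hvu, sub_self]
    exact Nul.zero

end

section

variable {Γ : Type} [Group Γ] {D : Type} [DecidableEq D] {V : D → Type} [∀ i, MulAction Γ (V i)]
  {T : ∀ i, SimpleGraph (V i)} {h : ∀ i, TreeAct Γ (V i) (T i)} {G : Type} [Group G]
  {π : G →* Γ} {U : Finset D} {j : D}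

/-- The case of a complex with constant sizes in the direction `j`. -/
theorem lt_const (hD : StDesc) (hj : j ∉ U) {A : Sub (h j)} (hA : Cl (h j) A)
    (hL : LtC h (stH π A) U) {X : Co (SP h) (GZ G)} (hXA : ∀ l, X.sz l j = A)
    (hX : IsCx (pZ π) (insert j U) X) (hXC : Cel h (insert j U) X.toOb)
    (hXc : ∀ i ∈ U, Contr (pZ π) ((insert j U).erase i) X) :
    ∃ X₁ : Co (SP h) (GN G), IsCx (pN π) (insert j U) X₁ ∧ Cel h (insert j U) X₁.toOb ∧
      (∀ i ∈ U, Contr (pN π) ((insert j U).erase i) X₁) ∧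
      Iso (pZ π) (insert j U) (X₁.map (loc G)) 1 X 1 := by
  have hne : ∀ i ∈ U, i ≠ j := fun i hi hij => hj (hij ▸ hi)
  have hAZ : ∀ m : GZ (St π A), pZ (stH π A) m • A = A := fun m => stH_smul π A m.1
  have hAN : ∀ m : GN (St π A), pN (stH π A) m • A = A := fun m => stH_smul π A m.1
  obtain ⟨d', hd', hdc⟩ := desc_setJ (π := pZ π) (π' := pZ (stH π A)) (φ := phZ π A) hD
    (pZ_phZ π A) (phZ_injective π A) (phZ_surj π A) hXA hXA (Finset.mem_insert_self j U) hX.1
  have hX' : IsCx (pZ (stH π A)) U ⟨X.toOb, d'⟩ := by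
    refine ⟨hdc.mono (Finset.subset_insert j U), map_inj' (phZ_injective π A) ?_⟩
    change (d' * d').map (mdh (phZ π A)) = (0 : Matrix X.ι X.ι _).map (mdh (phZ π A))
    rw [map_mul', hd', hX.2, map_zero']
  have hX'c : ∀ i ∈ U, Contr (pZ (stH π A)) (U.erase i) ⟨X.toOb, d'⟩ := by
    intro i hi
    obtain ⟨s, hs, e⟩ := hXc i hi
    obtain ⟨s', hs', hsc⟩ := desc_setJ (π := pZ π) (π' := pZ (stH π A)) (φ := phZ π A) hD
      (pZ_phZ π A) (phZ_injective π A) (phZ_surj π A) hXA hXA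
      (Finset.mem_erase.2 ⟨(hne i hi).symm, Finset.mem_insert_self j U⟩) hs
    refine ⟨s', hsc.mono (Finset.erase_subset_erase i (Finset.subset_insert j U)),
      map_inj' (phZ_injective π A) ?_⟩
    change (1 : Matrix X.ι X.ι _).map (mdh (phZ π A)) = (d' * s' + s' * d').map (mdh (phZ π A))
    rw [map_add', map_mul', map_mul', hd', hs', map_one']
    exact e
  obtain ⟨X₁, h1, h2, h3, h4⟩ := hL ⟨X.toOb, d'⟩ hX'
    (fun l i hi => hXC l i (Finset.mem_insert_of_mem hi)) hX'c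
  refine ⟨setJ j A (phN π A) X₁, isCx_setJ (pN_phN π A) hAN h1, ?_, ?_, ?_⟩
  · intro l i hi
    change Cl (h i) (Function.update (X₁.sz l) j A i)
    by_cases hij : i = j
    · subst hij
      rw [Function.update_self]
      exact hA
    · rw [Function.update_of_ne hij]
      exact h2 l i (Finset.mem_of_mem_insert_of_ne hi hij)
  · intro i hi
    rw [Finset.erase_insert_of_ne (hne i hi).symm]
    exact contr_setJ (pN_phN π A) hAN (h3 i hi)
  · have h5 := iso_setJ (π := pZ π) (j := j) (A := A) (pZ_phZ π A) hAZ h4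
    rw [map_one', map_one'] at h5
    have h6 : setJ j A (phZ π A) ⟨X.toOb, d'⟩ = X := by
      have h7 : (fun l => Function.update (X.sz l) j A) = X.sz := by
        funext l
        rw [← hXA l, Function.update_eq_self]
      change (⟨⟨X.ι, X.ft, X.de, X.deg, fun l => Function.update (X.sz l) j A⟩,
        d'.map (mdh (phZ π A))⟩ : Co (SP h) (GZ G)) = X
      rw [h7, hd']
    have h8 : setJ j A (phZ π A) (X₁.map (loc (St π A)))
        = (setJ j A (phN π A) X₁).map (loc G) := by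
      change (⟨⟨X₁.ι, X₁.ft, X₁.de, X₁.deg, fun l => Function.update (X₁.sz l) j A⟩,
        (X₁.d.map (loc (St π A))).map (mdh (phZ π A))⟩ : Co (SP h) (GZ G))
        = ⟨⟨X₁.ι, X₁.ft, X₁.de, X₁.deg, fun l => Function.update (X₁.sz l) j A⟩,
        (X₁.d.map (mdh (phN π A))).map (loc G)⟩
      congr 1
      ext1 a b
      exact (loc_phN π A (X₁.d a b)).symm
    have h9 : ∀ (B C : Co (SP h) (GZ G)), setJ j A (phZ π A) (X₁.map (loc (St π A))) = B →
        setJ j A (phZ π A) ⟨X.toOb, d'⟩ = C → Iso (pZ π) (insert j U) B 1 C 1 := by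
      rintro B C rfl rfl
      exact h5
    exact h9 _ _ h8 h6

end

/-- Module U8. -/
theorem stU8 (hB : StBlk) (hD : StDesc) (hLC : StLtCone) : StU8 := by
  intro Γ _ D _ V _ T h G _ π U j hj hL
  have main : ∀ n : ℕ, ∀ M : Co (SP h) (GZ G), Fintype.card M.ι ≤ n →
      IsCx (pZ π) (insert j U) M → Cel h (insert j U) M.toOb →
      (∀ i ∈ U, Contr (pZ π) ((insert j U).erase i) M) →
      ∃ M₁ : Co (SP h) (GN G), IsCx (pN π) (insert j U) M₁ ∧ Cel h (insert j U) M₁.toOb ∧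
        (∀ i ∈ U, Contr (pN π) ((insert j U).erase i) M₁) ∧
        Iso (pZ π) (insert j U) (M₁.map (loc G)) 1 M 1 := by
    intro n
    induction n with
    | zero =>
      intro M hn hM hMC hMc
      have hem : IsEmpty M.ι := Fintype.card_eq_zero_iff.1 (Nat.le_zero.1 hn)
      refine ⟨⟨M.toOb, 0⟩, ⟨Ct.zero, ?_⟩, hMC, fun i _ => ⟨0, Ct.zero, ?_⟩, ⟨1, 1, ?_, ?_, ?_, ?_⟩⟩
      · ext1 a
        exact hem.elim a
      · ext1 a
        exact hem.elim a
      · exact ⟨fun a => hem.elim a, by ext1 a; exact hem.elim a⟩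
      · exact ⟨fun a => hem.elim a, by ext1 a; exact hem.elim a⟩
      · exact ⟨0, Ct.zero, by ext1 a; exact hem.elim a⟩
      · exact ⟨0, Ct.zero, by ext1 a; exact hem.elim a⟩
    | succ n ih =>
      intro M hn hM hMC hMc
      by_cases hne : Nonempty M.ι
      swap
      · refine ih M ?_ hM hMC hMc
        have hem : IsEmpty M.ι := not_nonempty_iff.1 hne
        rw [Fintype.card_eq_zero]
        exact Nat.zero_le n
      obtain ⟨l₀, X, Y, f, u, v, hXj, hcard, hX, hY, hf, hXs, hYs, hu, hv, huv, hvu, hd, htri⟩ :=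
        hB Γ D (SP h) (GZ G) (pZ π) (insert j U) j (Finset.mem_insert_self j U) M hM hne
      have hXC : Cel h (insert j U) X.toOb := by
        intro l i hi
        obtain ⟨k, γ, e⟩ := hXs l
        rw [e]
        exact cl_smul (h i) (hMC k i hi)
      have hYC : Cel h (insert j U) Y.toOb := by
        intro l i hi
        obtain ⟨k, γ, e⟩ := hYs l
        rw [e]
        exact cl_smul (h i) (hMC k i hi)
      have hcc : ∀ i ∈ U, Contr (pZ π) ((insert j U).erase i) X ∧
          Contr (pZ π) ((insert j U).erase i) Y := by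
        intro i hi
        have hij : j ∈ (insert j U).erase i :=
          Finset.mem_erase.2 ⟨fun e => hj (e ▸ hi), Finset.mem_insert_self j U⟩
        exact contr_blocks (fun r g hg => htri _ hij r g hg)
          (contr_transport (hu _) (hv _) huv hvu hd (hMc i hi))
      obtain ⟨X₁, hX1, hX2, hX3, hX4⟩ := lt_const hD hj (hMC l₀ j (Finset.mem_insert_self j U))
        (hL _ (hMC l₀ j (Finset.mem_insert_self j U))) hXj hX hXC fun i hi => (hcc i hi).1
      obtain ⟨Y₁, hY1, hY2, hY3, hY4⟩ := ih Y (by omega) hY hYC fun i hi => (hcc i hi).2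
      obtain ⟨g, hg, isog⟩ := hLC Γ D (SP h) G π (insert j U) X Y X₁ Y₁ f hX hY hX1 hY1 hf hX4 hY4
      refine ⟨cone X₁ Y₁ g, hX1.cone hY1 hg, ?_, ?_, ?_⟩
      · rintro (l | l) i hi
        · exact hX2 l i hi
        · exact hY2 l i hi
      · intro i hi
        exact contr_cone stCC (hg.mono (Finset.erase_subset _ _)) (hX3 i hi) (hY3 i hi)
      · exact isog.trans HI.one HI.one (iso_of_inv (hu _) (hv _) huv hvu hd).symm
  intro M hM hMC hMc
  exact main _ M le_rfl hM hMC hMc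

end Pool.Agent.Lib.MP_551055_al.W17
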