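import Mathlib
import Pool.Agent.Lib.MP_551055_al.Trim.LS.Clo
import Pool.Agent.Lib.MP_551055_al.Trim.LS.PStmts
import Pool.Agent.Lib.MP_551055_al.Trim.LS.Stmts
import Pool.Agent.Lib.MP_551055_al.Trim.MT.Base
import Pool.Agent.Lib.MP_551055_al.Trim.MT.Defs
import Pool.Agent.Lib.MP_551055_al.Trim.MT.Trees
import Pool.Agent.Lib.MP_551055_al.Trim.W17.Defs
import Pool.Agent.Lib.MP_551055_al.Trim.W17.StU

/-!
# Trees and products: module U9 (the theorem of part U)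
-/

set_option autoImplicit false

namespace Pool.Agent.Lib.MP_551055_al
end Pool.Agent.Lib.MP_551055_al

namespace Pool.Agent.Lib.MP_551055_al.LS
end Pool.Agent.Lib.MP_551055_al.LS

namespace Pool.Agent.Lib.MP_551055_al.MT
end Pool.Agent.Lib.MP_551055_al.MT

namespace Pool.Agent.Lib.MP_551055_al.W17

open Pool.Agent.Lib.MP_551055_al

open Pool.Agent.Lib.MP_551055_al.LS (TreeAct ZN)

open Pool.Agent.Lib.MP_551055_al.MT

open Matrix

section

variable {Γ : Type} [Group Γ] {G : Type} [Group G] {Z : Type} [MulAction Γ Z]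

/-- The stabiliser in `G × ℤᵐ`. -/
def u9_st (π : G →* Γ) (A : Z) (m : ℕ) :
    (St π A × ZN m) ≃* St (π.comp (MonoidHom.fst G (ZN m))) A where
  toFun x := ⟨(x.1.1, x.2), x.1.2⟩
  invFun x := (⟨x.1.1, x.2⟩, x.1.2)
  left_inv _ := rfl
  right_inv _ := rfl
  map_mul' _ _ := rfl

/-- The stabiliser in `(G × ℤᵐ) × ℤ`. -/
def u9_stZ (π : G →* Γ) (A : Z) (m : ℕ) :
    (St π A × ZN m) × Multiplicative ℤ ≃*
      St (pZ (π.comp (MonoidHom.fst G (ZN m)))) A where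
  toFun x := ⟨((x.1.1.1, x.1.2), x.2), x.1.1.2⟩
  invFun x := ((⟨x.1.1.1, x.2⟩, x.1.1.2), x.1.2)
  left_inv _ := rfl
  right_inv _ := rfl
  map_mul' _ _ := rfl

end

/-- Module U9. -/
theorem stU9 (hU6 : StU6) (hU7 : StU7) (hU8 : StU8) (hTra : StTra) : StU9 := by
  intro Γ _ D _ V _ T h G _ π U j hj h1 h2 m
  have hUj : U ⊆ insert j U := Finset.subset_insert j U
  refine ⟨?_, ?_⟩
  · intro K e hK hc he hn
    have hS : SpJ h (π.comp (MonoidHom.fst G (ZN m))) U j := by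
      refine hU7 Γ D V T h _ _ U j hj fun A hA => ?_
      exact (hTra Γ D V T h _ _ _ _ (u9_st π A m) (fun _ => rfl) U).1 (h1 A hA m).1
    obtain ⟨M, hM, hMc, -, hi⟩ := hU6 Γ D V T h _ _ U j hj (h2 m).2 hS K e hK hc he hn
    exact ⟨M, hM.mono hUj, fun l i hi => hMc l i (hUj hi), hi⟩
  · intro M hM hc hn
    -- make the sizes in the direction `j`
    have hL : LtC h (pZ (π.comp (MonoidHom.fst G (ZN m)))) (insert j U) :=
      (hTra Γ D V T h _ _ _ _ (LS.znSucc G m).symm (fun _ => rfl) (insert j U)).2.1 (h2 (m + 1)).2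
    have hS : SpJ h (pZ (π.comp (MonoidHom.fst G (ZN m)))) U j := by
      refine hU7 Γ D V T h _ _ U j hj fun A hA => ?_
      refine (hTra Γ D V T h _ _ _ _ ((LS.znSucc (St π A) m).symm.trans (u9_stZ π A m))
        (fun _ => rfl) U).1 (h1 A hA (m + 1)).1
    obtain ⟨M₂, hM₂, hMc₂, hn₂, hi₂⟩ := hU6 Γ D V T h _ _ U j hj hL hS M 1 hM hc HI.one hn
    -- the lattice
    have hLJ : LtJ h (π.comp (MonoidHom.fst G (ZN m))) U j := by
      refine hU8 Γ D V T h _ _ U j hj fun A hA => ?_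
      exact (hTra Γ D V T h _ _ _ _ (u9_st π A m) (fun _ => rfl) U).2.1 (h1 A hA m).2
    obtain ⟨M₁, hM₁, hMc₁, hn₁, hi₁⟩ := hLJ M₂ hM₂ hMc₂ hn₂
    refine ⟨M₁, hM₁.mono hUj, fun l i hi => hMc₁ l i (hUj hi), fun i hi => ?_, ?_⟩
    · exact Nul.mono (hn₁ i hi) (Finset.erase_subset_erase i hUj)
    · exact (hi₁.mono hUj).trans HI.one HI.one hi₂.symm

end Pool.Agent.Lib.MP_551055_al.W17
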