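import Mathlib
import Pool.Agent.Lib.MP_551055_al.Trim.MT.CC
import Pool.Agent.Lib.MP_551055_al.Trim.MT.Flow2
import Pool.Agent.Lib.MP_551055_al.Trim.MT.K1
import Pool.Agent.Lib.MP_551055_al.Trim.MT.K2
import Pool.Agent.Lib.MP_551055_al.Trim.MT.Link
import Pool.Agent.Lib.MP_551055_al.Trim.MT.Main
import Pool.Agent.Lib.MP_551055_al.Trim.RI.FinalH
import Pool.Agent.Lib.MP_551055_al.Trim.W17.Blk
import Pool.Agent.Lib.MP_551055_al.Trim.W17.Cc
import Pool.Agent.Lib.MP_551055_al.Trim.W17.FDn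
import Pool.Agent.Lib.MP_551055_al.Trim.W17.FRel
import Pool.Agent.Lib.MP_551055_al.Trim.W17.FStab
import Pool.Agent.Lib.MP_551055_al.Trim.W17.FT
import Pool.Agent.Lib.MP_551055_al.Trim.W17.Glue
import Pool.Agent.Lib.MP_551055_al.Trim.W17.IsoA
import Pool.Agent.Lib.MP_551055_al.Trim.W17.KA1
import Pool.Agent.Lib.MP_551055_al.Trim.W17.KA1s
import Pool.Agent.Lib.MP_551055_al.Trim.W17.KAll
import Pool.Agent.Lib.MP_551055_al.Trim.W17.KAtt
import Pool.Agent.Lib.MP_551055_al.Trim.W17.KB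
import Pool.Agent.Lib.MP_551055_al.Trim.W17.KC
import Pool.Agent.Lib.MP_551055_al.Trim.W17.KF
import Pool.Agent.Lib.MP_551055_al.Trim.W17.KFG
import Pool.Agent.Lib.MP_551055_al.Trim.W17.KFil
import Pool.Agent.Lib.MP_551055_al.Trim.W17.KIdem
import Pool.Agent.Lib.MP_551055_al.Trim.W17.KIn
import Pool.Agent.Lib.MP_551055_al.Trim.W17.KLong
import Pool.Agent.Lib.MP_551055_al.Trim.W17.KPJ
import Pool.Agent.Lib.MP_551055_al.Trim.W17.KRet
import Pool.Agent.Lib.MP_551055_al.Trim.W17.KSep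
import Pool.Agent.Lib.MP_551055_al.Trim.W17.KTriv
import Pool.Agent.Lib.MP_551055_al.Trim.W17.KV
import Pool.Agent.Lib.MP_551055_al.Trim.W17.KX1
import Pool.Agent.Lib.MP_551055_al.Trim.W17.Key
import Pool.Agent.Lib.MP_551055_al.Trim.W17.LtCone
import Pool.Agent.Lib.MP_551055_al.Trim.W17.StF
import Pool.Agent.Lib.MP_551055_al.Trim.W17.StK
import Pool.Agent.Lib.MP_551055_al.Trim.W17.StU
import Pool.Agent.Lib.MP_551055_al.Trim.W17.TL
import Pool.Agent.Lib.MP_551055_al.Trim.W17.Tra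
import Pool.Agent.Lib.MP_551055_al.Trim.W17.U1
import Pool.Agent.Lib.MP_551055_al.Trim.W17.U2
import Pool.Agent.Lib.MP_551055_al.Trim.W17.U3
import Pool.Agent.Lib.MP_551055_al.Trim.W17.U4
import Pool.Agent.Lib.MP_551055_al.Trim.W17.U5
import Pool.Agent.Lib.MP_551055_al.Trim.W17.U6
import Pool.Agent.Lib.MP_551055_al.Trim.W17.U7
import Pool.Agent.Lib.MP_551055_al.Trim.W17.U8
import Pool.Agent.Lib.MP_551055_al.Trim.W17.U9

/-!
# Trees and products: all modules together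
-/

set_option autoImplicit false

namespace Pool.Agent.Lib.MP_551055_al.MT
end Pool.Agent.Lib.MP_551055_al.MT

namespace Pool.Agent.Lib.MP_551055_al.W17

open Pool.Agent.Lib.MP_551055_al.MT

theorem wU3 : StU3 := stU3 stCC mtC mtW stU1 stU2 stIsoA

theorem wU6 : StU6 := stU6 stCC mtTel mtFr stK1 stK2 stLink stU1 stU2 wU3 stU4 stU5

theorem wU7 : StU7 := stU7 stBlk stGlue stDesc

theorem wLtCone : StLtCone := stLtCone stGlue

theorem wU8 : StU8 := stU8 stBlk stDesc wLtCone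

theorem wU9 : StU9 := stU9 wU6 wU7 wU8 stTra

theorem wKX1 : StKX1 := stKX1 stKC

theorem wKTriv : StKTriv := stKTriv wKX1 stKF stKC

theorem wKB : StKB := stKB stKFil wKTriv wKX1

theorem wKA1 : StKA1 := stKA1 stKA1s

theorem wKAtt : StKAtt := stKAtt wKA1

theorem wKLong : StKLong := stKLong stKF

theorem wKIn : StKIn := stKIn stFlow2 mtSA1

theorem wKV : StKV := stKV stKSep

theorem wKPJ : StKPJ := stKPJ stKSep mtXF

theorem wKAll (hGam : StKGam) : StKAll :=
  stKAll stKC stKF wKB stKFG wKAtt stKRet wKLong wKIn wKV hGam wKPJ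

theorem wCc : StCc := stCc stCC

theorem wKIdem (hGam : StKGam) : StKIdem := stKIdem (wKAll hGam) wCc mtTel stK1 mtLift

theorem wFDn : StFDn := stFDn wU9 stTra

theorem wFRel (hR : StKR) : StFRel := stFRel wFDn hR stTra

theorem wKey (hGam : StKGam) (hLat : StKLat) (hR : StKR) : StKey := stKey (wKIdem hGam) hLat hR

theorem wT (hGam : StKGam) (hLat : StKLat) (hR : StKR) : StT :=
  stT (wKey hGam hLat hR) (wFRel hR) stFStab

theorem wTL (hGam : StKGam) (hLat : StKLat) (hR : StKR) : StTL :=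
  stTL RI.stFinalH (wT hGam hLat hR)

end Pool.Agent.Lib.MP_551055_al.W17
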