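import Mathlib
import Pool.Agent.Lib.MP_551055_al.Trim.LD.NG
import Pool.Agent.Lib.MP_551055_al.Trim.LS.BassProj
import Pool.Agent.Lib.MP_551055_al.Trim.LS.PStmts
import Pool.Agent.Lib.MP_551055_al.Trim.LS.Ray
import Pool.Agent.Lib.MP_551055_al.Trim.LS.Stmts
import Pool.Agent.Lib.MP_551055_al.Trim.MT.Base
import Pool.Agent.Lib.MP_551055_al.Trim.MT.Defs
import Pool.Agent.Lib.MP_551055_al.Trim.MT.Gen
import Pool.Agent.Lib.MP_551055_al.Trim.MT.Lift
import Pool.Agent.Lib.MP_551055_al.Trim.MT.Tg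
import Pool.Agent.Lib.MP_551055_al.Trim.MT.Trees
import Pool.Agent.Lib.MP_551055_al.Trim.T4.Constr
import Pool.Agent.Lib.MP_551055_al.Trim.T4.Ind0
import Pool.Agent.Lib.MP_551055_al.Trim.W17.DefK
import Pool.Agent.Lib.MP_551055_al.Trim.W17.Defs
import Pool.Agent.Lib.MP_551055_al.Trim.W17.FrA
import Pool.Agent.Lib.MP_551055_al.Trim.W17.KC
import Pool.Agent.Lib.MP_551055_al.Trim.W17.KF
import Pool.Agent.Lib.MP_551055_al.Trim.W17.KLong
import Pool.Agent.Lib.MP_551055_al.Trim.W17.KT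
import Pool.Agent.Lib.MP_551055_al.Trim.W17.KTa
import Pool.Agent.Lib.MP_551055_al.Trim.W17.KX
import Pool.Agent.Lib.MP_551055_al.Trim.W17.StK

/-!
# Trees and products, module KGam: the cone is the target of the nil submodule
-/

set_option autoImplicit false

namespace Pool.Agent.Lib.MP_551055_al
end Pool.Agent.Lib.MP_551055_al

namespace Pool.Agent.Lib.MP_551055_al.LS
end Pool.Agent.Lib.MP_551055_al.LS

namespace Pool.Agent.Lib.MP_551055_al.MT
end Pool.Agent.Lib.MP_551055_al.MT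

namespace Pool.Agent.Lib.MP_551055_al.W17.KGam
end Pool.Agent.Lib.MP_551055_al.W17.KGam

namespace Pool.Agent.Lib.MP_551055_al.W17

open Pool.Agent.Lib.MP_551055_al

open Pool.Agent.Lib.MP_551055_al.LS (TreeAct ZN)

open Pool.Agent.Lib.MP_551055_al.MT

open Matrix

namespace KGam

/-! ## Extension of maps into targets which are exact in high degrees -/

section

variable {N : Type} [Monoid N]

theorem exists_coeff {a : ZM N} (h : a ≠ 0) : ∃ m, a.coeff m ≠ 0 := by
  by_contra hn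
  push Not at hn
  apply h
  apply MonoidAlgebra.coeff_injective
  ext m
  exact hn m

theorem lin_congr {ι : Type} [Fintype ι] {V : Type} [AddCommGroup V] [Module (ZM N) V]
    {s s' : ι → V} {x : ι → ZM N} (h : ∀ k, x k ≠ 0 → s k = s' k) :
    lin (N := N) s x = lin (N := N) s' x := by
  rw [lin_apply, lin_apply]
  refine Finset.sum_congr rfl fun k _ => ?_
  by_cases h0 : x k = 0
  · rw [h0, zero_smul, zero_smul]
  · rw [h k h0]

end

section

variable {Γ : Type} [Group Γ] {D : Type} {P : D → Type} [∀ i, PartialOrder (P i)]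
  [∀ i, MulAction Γ (P i)] [SzAct Γ P] {N : Type} [Monoid N] {π : N →* Γ} {U : Finset D}

omit [SzAct Γ P] in
/-- The differential of a combination. -/
theorem d_lin {M : Co P N} {T : Tg P π U} {s : M.ι → T.V} {x : M.ι → ZM N}
    (h : ∀ k, x k ≠ 0 → T.d (s k) = lin (N := N) s (M.d k)) :
    T.d (lin (N := N) s x) = lin (N := N) s (x ᵥ* M.d) := by
  rw [← LiftM.lin_comp (T := T) s M.d x, ← lin_map]
  exact lin_congr h

omit [SzAct Γ P] in
theorem deg_of_fam {M : Co P N} {B : Sz P} {q : ℤ} {x : M.ι → ZM N}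
    (hx : x ∈ fam π U M.toOb B q) {k : M.ι} (hk : x k ≠ 0) : M.deg k = q := by
  obtain ⟨m, hm⟩ := exists_coeff hk
  exact (hx k m hm).1

omit [SzAct Γ P] in
theorem extend {M : Co P N} (hM : IsCx π U M) {T : Tg P π U} (n₁ : ℤ) (a : M.ι → T.V)
    (ha : ∀ l, a l ∈ T.fam (M.sz l) (M.deg l))
    (had : ∀ l, M.deg l ≤ n₁ → T.d (a l) = lin (N := N) a (M.d l))
    (h1 : ∀ l, M.deg l = n₁ + 1 → lin (N := N) a (M.d l) ∈ T.Bc n₁ (M.sz l))
    (hex : ∀ q, n₁ < q → ∀ B, T.Zc q B ≤ T.Bc q B) :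
    ∃ s : M.ι → T.V, ChT M T s ∧ ∀ l, M.deg l ≤ n₁ → s l = a l := by
  have hrow : ∀ l, M.d l ∈ fam π U M.toOb (M.sz l) (M.deg l - 1) := fun l => ct_iff.1 hM.1 l
  have hrow2 : ∀ l, M.d l ᵥ* M.d = 0 := by
    intro l
    have h1 : M.d l ᵥ* M.d = (M.d * M.d) l := rfl
    rw [h1, hM.2]
    rfl
  have key : ∀ k : ℕ, ∃ s : M.ι → T.V, (∀ l, s l ∈ T.fam (M.sz l) (M.deg l)) ∧
      (∀ l, M.deg l ≤ n₁ → s l = a l) ∧
      ∀ l, M.deg l ≤ n₁ + k → T.d (s l) = lin (N := N) s (M.d l) := by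
    intro k
    induction k with
    | zero =>
      refine ⟨a, ha, fun _ _ => rfl, fun l hl => had l ?_⟩
      rwa [Nat.cast_zero, add_zero] at hl
    | succ k ih =>
      obtain ⟨s, hs, hsa, hsd⟩ := ih
      have hy : ∀ l, M.deg l = n₁ + k + 1 → ∃ y ∈ T.fam (M.sz l) (M.deg l),
          T.d y = lin (N := N) s (M.d l) := by
        intro l hl
        have h2 : T.d (lin (N := N) s (M.d l)) = 0 := by
          rw [d_lin, hrow2, map_zero]
          intro k' hk'
          refine hsd k' ?_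
          rw [deg_of_fam (hrow l) hk', hl]
          omega
        have h3 : lin (N := N) s (M.d l) ∈ T.fam (M.sz l) (M.deg l - 1) :=
          T.lin_mem' (r := 0) (fun l => by rw [add_zero]; exact hs l) (hrow l) (add_zero _)
        have h4 : lin (N := N) s (M.d l) ∈ T.Bc (M.deg l - 1) (M.sz l) := by
          rcases Nat.eq_zero_or_pos k with hk | hk
          · subst hk
            rw [Nat.cast_zero, add_zero] at hl
            have h5 : lin (N := N) s (M.d l) = lin (N := N) a (M.d l) := by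
              refine lin_congr fun k' hk' => hsa k' ?_
              rw [deg_of_fam (hrow l) hk', hl, add_sub_cancel_right]
            have h6 := h1 l hl
            rw [h5, hl, add_sub_cancel_right]
            exact h6
          · exact hex _ (by omega) _ ⟨h3, h2⟩
        obtain ⟨y, hy1, hy2⟩ := h4
        rw [sub_add_cancel] at hy1
        exact ⟨y, hy1, hy2⟩
      choose y hy1 hy2 using hy
      have hss : ∀ l, M.deg l ≤ n₁ + k + 1 →
          lin (N := N) (fun l => if h : M.deg l = n₁ + k + 1 then y l h else s l) (M.d l)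
            = lin (N := N) s (M.d l) := by
        intro l hl
        refine lin_congr fun k' hk' => ?_
        have h3 := deg_of_fam (hrow l) hk'
        rw [dif_neg]
        omega
      refine ⟨fun l => if h : M.deg l = n₁ + k + 1 then y l h else s l, fun l => ?_,
        fun l hl => ?_, fun l hl => ?_⟩
      · by_cases h : M.deg l = n₁ + k + 1
        · simp only [dif_pos h]
          exact hy1 l h
        · simp only [dif_neg h]
          exact hs l
      · have h : ¬M.deg l = n₁ + k + 1 := by omega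
        simp only [dif_neg h]
        exact hsa l hl
      · push_cast at hl
        rw [hss l (by omega)]
        by_cases h : M.deg l = n₁ + k + 1
        · simp only [dif_pos h]
          exact hy2 l h
        · simp only [dif_neg h]
          exact hsd l (by omega)
  obtain ⟨k, hk⟩ : ∃ k : ℕ, ∀ l, M.deg l ≤ n₁ + k := by
    obtain ⟨m, hm⟩ := (Set.finite_range M.deg).bddAbove
    refine ⟨(m - n₁).toNat, fun l => ?_⟩
    have h1 : M.deg l ≤ m := hm ⟨l, rfl⟩
    have h2 := Int.self_le_toNat (m - n₁)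
    omega
  obtain ⟨s, hs, hsa, hsd⟩ := key k
  exact ⟨s, ⟨hs, fun x => (d_lin fun k' _ => hsd k' (hk k')).symm⟩, hsa⟩

end

/-! ## Targets of nil modules -/

section

variable {Γ : Type} [Group Γ] {D : Type} [Fintype D] [LinearOrder D] {V : D → Type}
  [∀ i, MulAction Γ (V i)] {T : ∀ i, SimpleGraph (V i)} {h : ∀ i, TreeAct Γ (V i) (T i)}
  {N : Type} [Group N] {π : N →* Γ} {A C : Nm T π}

theorem ktD_succ (A : Nm T π) (n : ℤ) (v : Finset D → A.M) :
    ktD A (n + 1) v = -(ktD A n v) := by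
  funext φ
  change ∑ i ∈ Finset.univ \ φ, eps (n + 1) i φ • (v (insert i φ) - A.nu i (v (insert i φ))) =
    -(∑ i ∈ Finset.univ \ φ, eps n i φ • (v (insert i φ) - A.nu i (v (insert i φ))))
  rw [← Finset.sum_neg_distrib]
  refine Finset.sum_congr rfl fun i _ => ?_
  have h1 := eps_sub_one (n + 1) i φ
  rw [add_sub_cancel_right] at h1
  rw [h1, neg_smul, neg_neg]

omit [Fintype D] in
theorem ktFam_succ (A : Nm T π) (n q : ℤ) (B : Sz (SP h)) (v : Finset D → A.M)
    (hv : v ∈ ktFam h A (n + 1) B (q + 1)) : v ∈ ktFam h A n B q := by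
  intro φ x hx
  obtain ⟨h1, h2⟩ := hv φ x hx
  exact ⟨by omega, h2⟩

omit [Fintype D] in
theorem ktFam_lt (A : Nm T π) (n q : ℤ) (hq : q < n) (B : Sz (SP h)) (v : Finset D → A.M)
    (hv : v ∈ ktFam h A n B q) : v = 0 := by
  funext φ
  refine A.ext_pr fun x => ?_
  change A.pr x (v φ) = A.pr x 0
  rw [map_zero]
  by_contra hx
  have h1 := (hv φ x hx).1
  omega

/-- The map of the vectors. -/
noncomputable def J (h : ∀ i, TreeAct Γ (V i) (T i)) (j : NmHom C A) (n : ℤ) :
    (KT h C (n + 1)).V →ₗ[ZM N] (KT h A n).V := j.f.compLeft (Finset D)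

theorem J_apply (j : NmHom C A) (n : ℤ) (w : Finset D → C.M) (φ : Finset D) :
    (show Finset D → A.M from J h j n w) φ = j.f (w φ) := rfl

theorem J_fam (j : NmHom C A) (n q : ℤ) (B : Sz (SP h)) (w : Finset D → C.M)
    (hw : w ∈ ktFam h C (n + 1) B (q + 1)) : (show Finset D → A.M from J h j n w) ∈
      ktFam h A n B q :=
  ktFam_succ A n q B _ ((ktHom h j (n + 1)).mem B (q + 1) w hw)

theorem J_d (j : NmHom C A) (n : ℤ) (w : (KT h C (n + 1)).V) :
    J h j n ((KT h C (n + 1)).d w) = -((KT h A n).d (J h j n w)) := by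
  have h1 := (ktHom h j (n + 1)).d w
  have h2 := ktD_succ A n (show Finset D → A.M from J h j n w)
  exact h1.trans h2

/-- L0. -/
theorem J_Bc (j : NmHom C A) (n : ℤ) (B : Sz (SP h)) (w : (KT h C (n + 1)).V)
    (hw : w ∈ (KT h C (n + 1)).Bc (n + 1) B) : J h j n w ∈ (KT h A n).Bc n B := by
  obtain ⟨y, hy, rfl⟩ := hw
  refine ⟨-(J h j n y), AddSubgroup.neg_mem _ (J_fam j n (n + 1) B y hy), ?_⟩
  rw [map_neg, J_d]

theorem out_fam (A : Nm T π) (n : ℤ) (B : Sz (SP h)) (w : Finset D → A.M)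
    (hw : Out h A B w) : w ∈ ktFam h A n B n := by
  intro φ x hx
  by_cases hφ : φ = ∅
  · subst hφ
    refine ⟨by rw [Finset.card_empty, Nat.cast_zero, add_zero], fun i => ?_⟩
    rw [kta_sx_notMem h (Finset.notMem_empty i)]
    exact (hw.2 x hx).1 i
  · rw [hw.1 φ hφ, map_zero] at hx
    exact absurd rfl hx

theorem J_out (j : NmHom C A) (n : ℤ) (B : Sz (SP h)) (w : Finset D → C.M)
    (hw : Out h C B w) : Out h A B (show Finset D → A.M from J h j n w) := by
  refine ⟨fun φ hφ => ?_, fun x hx => hw.2 x fun h1 => hx ?_⟩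
  · rw [J_apply, hw.1 φ hφ, map_zero]
  · rw [J_apply, ← j.pr, h1, map_zero]

theorem J_injective (j : NmHom C A) (hj : Function.Injective j.f) (n : ℤ) :
    Function.Injective (J h j n) := by
  intro w w' hww
  funext φ
  exact hj (congrFun hww φ)

/-- L3. -/
theorem L3 (j : NmHom C A) (hj : Function.Injective j.f) (n : ℤ) (B : Sz (SP h))
    (z : (KT h C (n + 1)).V) (hz : z ∈ (KT h C (n + 1)).fam B (n + 1))
    (hJ : J h j n z ∈ (KT h A n).Bc n B) : z ∈ (KT h C (n + 1)).Bc (n + 1) B := by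
  obtain ⟨w, hw, hzw⟩ : ∃ w : (KT h C (n + 1)).V, Out h C B w ∧
      z - w ∈ (KT h C (n + 1)).Bc (n + 1) B := (stKX Γ D V T h N π C (n + 1) B).2.1 z hz
  have h1 := J_Bc j n B _ hzw
  have h2 : J h j n w ∈ (KT h A n).Bc n B := by
    have h3 : J h j n w = J h j n z - J h j n (z - w) := by
      rw [← map_sub, sub_sub_cancel]
    rw [h3]
    exact AddSubgroup.sub_mem _ hJ h1
  have h3 : J h j n w = 0 :=
    (stKX Γ D V T h N π A n B).2.2 _ (J_out j n B w hw) h2
  have h4 : w = 0 := by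
    refine J_injective j hj n (h3.trans ?_)
    exact (map_zero _).symm
  rw [h4, sub_zero] at hzw
  exact hzw

/-- The vector `b` in the face `∅`. -/
noncomputable def E (h : ∀ i, TreeAct Γ (V i) (T i)) (C : Nm T π) (n : ℤ) (b : C.M) :
    (KT h C n).V := (fun φ => if φ = ∅ then b else 0 : Finset D → C.M)

theorem out_E {n : ℤ} {B : Sz (SP h)} {w : Finset D → C.M} (hw : Out h C B w) :
    (w : Finset D → C.M) = E h C n (w ∅) := by
  funext φ
  change w φ = if φ = ∅ then w ∅ else 0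
  by_cases hφ : φ = ∅
  · rw [if_pos hφ, hφ]
  · rw [if_neg hφ, hw.1 φ hφ]

theorem J_E (j : NmHom C A) (n : ℤ) (b : C.M) :
    J h j n (E h C (n + 1) b) = E h A n (j.f b) := by
  funext φ
  change j.f (if φ = ∅ then b else 0) = if φ = ∅ then j.f b else 0
  by_cases hφ : φ = ∅
  · rw [if_pos hφ, if_pos hφ]
  · rw [if_neg hφ, if_neg hφ, map_zero]

theorem J_out_iff (j : NmHom C A) (hj : Function.Injective j.f) (n : ℤ) (B : Sz (SP h))
    (w : (KT h C (n + 1)).V) (hw : Out h A B (J h j n w)) : Out h C B w := by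
  refine ⟨fun φ hφ => hj ?_, fun x hx => hw.2 x fun h1 => hx (hj ?_)⟩
  · rw [map_zero]
    exact hw.1 φ hφ
  · rw [j.pr, map_zero]
    exact h1

end

/-! ## The complex of a free nil module -/

section

variable {Γ : Type} [Group Γ] {D : Type} [Fintype D] [LinearOrder D] {V : D → Type}
  [∀ i, MulAction Γ (V i)] {T : ∀ i, SimpleGraph (V i)} {h : ∀ i, TreeAct Γ (V i) (T i)}
  {N : Type} [Group N] {π : N →* Γ} {ι : Type} [Fintype ι] [DecidableEq ι] {p : ι → Pos V}
  {ν : D → Matrix ι ι (ZM N)} (hp : FrOk T π p ν) (n : ℤ)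

/-- The bijection. -/
noncomputable def Kk (h : ∀ i, TreeAct Γ (V i) (T i)) (hp : FrOk T π p ν) (n : ℤ) :
    ((Kc h N n p ν).ι → ZM N) →ₗ[ZM N] (KT h (Fr h hp) n).V := kfK N D ι

theorem Kk_d (x : (Kc h N n p ν).ι → ZM N) :
    Kk h hp n (x ᵥ* (Kc h N n p ν).d) = (KT h (Fr h hp) n).d (Kk h hp n x) := kfK_d h hp n x

theorem Kk_fam {B : Sz (SP h)} {q : ℤ} {x : (Kc h N n p ν).ι → ZM N} :
    Kk h hp n x ∈ (KT h (Fr h hp) n).fam B q ↔
      x ∈ fam π Finset.univ (Kc h N n p ν).toOb B q := kfK_fam h hp n B q x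

theorem Kk_bij : Function.Bijective (Kk h hp n) := kfK_bij N D ι

theorem Kk_Bc {B : Sz (SP h)} {q : ℤ} {x : (Kc h N n p ν).ι → ZM N} :
    Kk h hp n x ∈ (KT h (Fr h hp) n).Bc q B ↔
      x ∈ BC π Finset.univ (Kc h N n p ν) q B := by
  constructor
  · rintro ⟨y, hy, hyx⟩
    obtain ⟨y', rfl⟩ := (Kk_bij hp n).2 y
    refine ⟨y', (Kk_fam hp n).1 hy, (Kk_bij hp n).1 ?_⟩
    rw [Kk_d, hyx]
  · rintro ⟨y, hy, rfl⟩
    exact ⟨Kk h hp n y, (Kk_fam hp n).2 hy, (Kk_d hp n y).symm⟩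

theorem Kk_inj0 (w : ι → ZM N) : Kk h hp n (inj0 N w) = E h (Fr h hp) n w := by
  funext φ
  change (fun l => inj0 N w (l, φ)) = if φ = ∅ then w else 0
  by_cases hφ : φ = ∅
  · rw [if_pos hφ]
    funext l
    exact if_pos hφ
  · rw [if_neg hφ]
    funext l
    exact if_neg hφ

omit [Fintype D] [Fintype ι] [DecidableEq ι] in
theorem inj0_add (w w' : ι → ZM N) :
    (inj0 N (w + w') : ι × Finset D → ZM N) = inj0 N w + inj0 N w' := by
  funext a
  change (if a.2 = ∅ then (w + w') a.1 else 0) =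
    (if a.2 = ∅ then w a.1 else 0) + (if a.2 = ∅ then w' a.1 else 0)
  by_cases ha : a.2 = ∅
  · rw [if_pos ha, if_pos ha, if_pos ha]
    rfl
  · rw [if_neg ha, if_neg ha, if_neg ha, add_zero]

omit [Fintype D] [Fintype ι] [DecidableEq ι] in
theorem inj0_zero : (inj0 N (0 : ι → ZM N) : ι × Finset D → ZM N) = 0 := by
  funext a
  change (if a.2 = ∅ then (0 : ι → ZM N) a.1 else 0) = 0
  by_cases ha : a.2 = ∅
  · rw [if_pos ha]
    rfl
  · rw [if_neg ha]

variable {S : Tg (SP h) π Finset.univ} (hK : IsCx π Finset.univ (Kc h N n p ν))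
  {g : (Kc h N n p ν).ι → S.V} (hg : ChT (Kc h N n p ν) S g) {C : Nm T π}
  {j : NmHom C (Fr h hp)}

/-- The composition of `inj0` and `lin g`. -/
noncomputable def gI (g : ι × Finset D → S.V) : (ι → ZM N) →+ S.V where
  toFun w := lin (N := N) g (inj0 N w)
  map_zero' := by rw [inj0_zero, map_zero]
  map_add' w w' := by rw [inj0_add, map_add]

theorem gI_mem (hB : IsKer h S hp n g C j) {B : Sz (SP h)} {b : C.M}
    (hb : Out h (Fr h hp) B (E h (Fr h hp) n (j.f b))) :
    lin (N := N) g (inj0 N (j.f b)) ∈ S.Bc n B := by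
  have h1 : ∀ x, gI (S := S) g (frPr π p x (j.f b)) ∈ S.Bc n B := by
    intro x
    by_cases hx : frPr π p x (j.f b) = 0
    · rw [hx, map_zero]
      exact AddSubgroup.zero_mem _
    · have h2 := (hB.2 (j.f b)).1 ⟨b, rfl⟩ x
      refine S.Bc_anti n (fun i _ => ?_) h2
      rw [kta_sx_notMem h (Finset.notMem_empty i)]
      refine (hb.2 x ?_).1 i
      exact hx
  have h2 : gI (S := S) g (∑ᶠ x, frPr π p x (j.f b)) =
      ∑ᶠ x, gI (S := S) g (frPr π p x (j.f b)) :=
    (gI (S := S) g).map_finsum (frPr_fin (π := π) (p := p) (j.f b))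
  rw [frPr_sum] at h2
  change gI (S := S) g (j.f b) ∈ S.Bc n B
  rw [h2]
  exact finsum_induction (fun x => x ∈ S.Bc n B) (AddSubgroup.zero_mem _)
    (fun x y hx hy => AddSubgroup.add_mem _ hx hy) h1

theorem rep (hSep : StKSep) (hIn : ∀ i, InF i (S.Zc n) (S.Bc n)) (hB : IsKer h S hp n g C j)
    (B : Sz (SP h)) (y : ((Kc h N n p ν).ι → ZM N) × S.V)
    (hy : y ∈ (coneT (homCh hK g hg)).Zc (n + 1) B) :
    ∃ b : C.M, Out h C B (E h C (n + 1) b) ∧
      Kk h hp n y.1 - J h j n (E h C (n + 1) b) ∈ (KT h (Fr h hp) n).Bc n B := by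
  obtain ⟨⟨hy1, hy2⟩, hyd⟩ := hy
  change y.1 ∈ fam π Finset.univ (Kc h N n p ν).toOb B (n + 1 - 1) at hy1
  rw [add_sub_cancel_right] at hy1
  change y.2 ∈ S.fam B (n + 1) at hy2
  have hyd2 : lin (N := N) g y.1 + S.d y.2 = 0 := congrArg Prod.snd hyd
  obtain ⟨w, hw, hyw⟩ : ∃ w : (KT h (Fr h hp) n).V, Out h (Fr h hp) B w ∧
      Kk h hp n y.1 - w ∈ (KT h (Fr h hp) n).Bc n B :=
    (stKX Γ D V T h N π (Fr h hp) n B).2.1 _ ((Kk_fam hp n).2 hy1)
  set w₀ : ι → ZM N := w ∅ with hw₀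
  have hwE : w = E h (Fr h hp) n w₀ := out_E hw
  rw [hwE, ← Kk_inj0, ← map_sub, Kk_Bc] at hyw
  obtain ⟨u, hu, hud⟩ := hyw
  have h1 : lin (N := N) g (inj0 N w₀) ∈ S.Bc n B := by
    refine ⟨-y.2 - lin (N := N) g u, AddSubgroup.sub_mem _ (AddSubgroup.neg_mem _ hy2)
      (hg.mem hu), ?_⟩
    rw [map_sub, map_neg, ← hg.2, hud, map_sub]
    rw [← eq_neg_iff_add_eq_zero] at hyd2
    rw [hyd2]
    abel
  have h2 := hSep Γ D V T h N π S ι p ν n hp g hg hIn B w₀ (fun x hx => hw.2 x hx) h1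
  obtain ⟨b, hb⟩ := (hB.2 w₀).2 h2
  refine ⟨b, J_out_iff j hB.1 n B _ ?_, ?_⟩
  · rw [J_E, hb, ← hwE]
    exact hw
  · rw [J_E, hb, ← Kk_inj0, ← map_sub, Kk_Bc]
    exact ⟨u, hu, hud⟩

/-- The first component of the cone. -/
noncomputable def kF : (coneT (homCh hK g hg)).V →ₗ[ZM N] (KT h (Fr h hp) n).V where
  toFun y := Kk h hp n y.1
  map_add' x y := map_add (Kk h hp n) x.1 y.1
  map_smul' a x := map_smul (Kk h hp n) a x.1

theorem kF_apply (y : (coneT (homCh hK g hg)).V) : kF hp n hK hg y = Kk h hp n y.1 := rfl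

theorem kF_fam {B : Sz (SP h)} {q : ℤ} {y : (coneT (homCh hK g hg)).V}
    (hy : y ∈ (coneT (homCh hK g hg)).fam B (q + 1)) :
    kF hp n hK hg y ∈ (KT h (Fr h hp) n).fam B q := by
  refine (Kk_fam hp n).2 ?_
  have h1 : y.1 ∈ fam π Finset.univ (Kc h N n p ν).toOb B (q + 1 - 1) := hy.1
  rwa [add_sub_cancel_right] at h1

theorem kF_d (y : (coneT (homCh hK g hg)).V) :
    kF hp n hK hg ((coneT (homCh hK g hg)).d y) = -((KT h (Fr h hp) n).d (kF hp n hK hg y)) := by
  have h1 := Kk_d hp n y.1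
  change Kk h hp n (-(y.1 ᵥ* (Kc h N n p ν).d)) = _
  rw [map_neg, h1]
  rfl

theorem kF_Bc {B : Sz (SP h)} {q : ℤ} {y : (coneT (homCh hK g hg)).V}
    (hy : y ∈ (coneT (homCh hK g hg)).fam B (q + 1 + 1)) :
    kF hp n hK hg ((coneT (homCh hK g hg)).d y) ∈ (KT h (Fr h hp) n).Bc q B := by
  refine ⟨-(kF hp n hK hg y), AddSubgroup.neg_mem _ (kF_fam hp n hK hg hy), ?_⟩
  rw [map_neg, kF_d]

/-- L4. -/
theorem L4 {M : Co (SP h) N} (u : (M.ι → ZM N) →ₗ[ZM N] (coneT (homCh hK g hg)).V)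
    (a : M.ι → (KT h C (n + 1)).V) (q : ℤ)
    (ha : ∀ l, M.deg l = q → kF hp n hK hg (u (Pi.single l 1)) - J h j n (a l) ∈
      (KT h (Fr h hp) n).Bc n (M.sz l)) {B : Sz (SP h)} {c : M.ι → ZM N}
    (hc : c ∈ fam π Finset.univ M.toOb B q) :
    kF hp n hK hg (u c) - J h j n (lin (N := N) a c) ∈ (KT h (Fr h hp) n).Bc n B := by
  have h1 : kF hp n hK hg (u c) = lin (N := N) (fun l => kF hp n hK hg (u (Pi.single l 1))) c :=
    lin_ext (kF hp n hK hg ∘ₗ u) c
  rw [h1, ← lin_map, ← lin_sub', lin_apply]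
  refine AddSubgroup.sum_mem _ fun l _ => ?_
  by_cases h0 : c l = 0
  · rw [h0, zero_smul]
    exact AddSubgroup.zero_mem _
  · exact ((KT h (Fr h hp) n).Bc_fam n).smul_mem
      (fun m hm => fun i => (hc l m hm).2 i (Finset.mem_univ i)) (ha l (deg_of_fam hc h0))

end

end KGam

open KGam in
/-- Module KGam. -/
theorem stKGam (hSep : StKSep) : StKGam := by
  intro Γ _ D _ _ V _ T h N _ π S ι _ _ p ν n hp hK g hg hIn hgen hex M hM hR C j hB
  obtain ⟨u, v, r, hu, hv, hr, hud, hvd, huv, hu0⟩ := hR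
  have hrep := rep hp n hK hg hSep hIn hB
  -- `u` vanishes on the vectors of degree `n`
  have hun : ∀ B, ∀ x ∈ fam π Finset.univ M.toOb B n, u x = 0 := by
    intro B x hx
    rw [lin_ext u x, lin_apply]
    refine Finset.sum_eq_zero fun l _ => ?_
    by_cases h0 : x l = 0
    · rw [h0, zero_smul]
    · rw [hu0 l (by rw [deg_of_fam hx h0]; omega), smul_zero]
  have hrow : ∀ l, M.d l ∈ fam π Finset.univ M.toOb (M.sz l) (M.deg l - 1) :=
    fun l => ct_iff.1 hM.1 l
  have hus : ∀ l, u (M.d l) = (coneT (homCh hK g hg)).d (u (Pi.single l 1)) := by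
    intro l
    rw [← hud, Matrix.single_one_vecMul]
    rfl
  have huf : ∀ l, u (Pi.single l 1) ∈ (coneT (homCh hK g hg)).fam (M.sz l) (M.deg l) :=
    fun l => hu _ _ _ (basis_mem_fam (π := π) (U := Finset.univ) (X := M.toOb) l)
  have hcyc : ∀ l, M.deg l = n + 1 →
      u (Pi.single l 1) ∈ (coneT (homCh hK g hg)).Zc (n + 1) (M.sz l) := by
    intro l hl
    refine ⟨?_, ?_⟩
    · have h1 := huf l
      rwa [hl] at h1
    · rw [← hus]
      have h1 := hrow l
      rw [hl, add_sub_cancel_right] at h1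
      exact hun _ _ h1
  have hb : ∀ l, ∃ b : C.M, M.deg l = n + 1 → (Out h C (M.sz l) (E h C (n + 1) b) ∧
      kF hp n hK hg (u (Pi.single l 1)) - J h j n (E h C (n + 1) b) ∈
        (KT h (Fr h hp) n).Bc n (M.sz l)) := by
    intro l
    by_cases hl : M.deg l = n + 1
    · obtain ⟨b, hb⟩ := hrep (M.sz l) _ (hcyc l hl)
      exact ⟨b, fun _ => hb⟩
    · exact ⟨0, fun h1 => absurd h1 hl⟩
  choose b hb using hb
  obtain ⟨a, ha1, ha2⟩ : ∃ a : M.ι → (KT h C (n + 1)).V,
      (∀ l, M.deg l = n + 1 → a l = E h C (n + 1) (b l)) ∧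
      ∀ l, M.deg l ≠ n + 1 → a l = 0 :=
    ⟨fun l => if M.deg l = n + 1 then E h C (n + 1) (b l) else 0, fun l hl => if_pos hl,
      fun l hl => if_neg hl⟩
  have haf : ∀ l, a l ∈ (KT h C (n + 1)).fam (M.sz l) (M.deg l) := by
    intro l
    by_cases hl : M.deg l = n + 1
    · rw [ha1 l hl, hl]
      exact out_fam C (n + 1) (M.sz l) _ (hb l hl).1
    · rw [ha2 l hl]
      exact AddSubgroup.zero_mem _
  have haK : ∀ l, M.deg l = n + 1 → kF hp n hK hg (u (Pi.single l 1)) - J h j n (a l) ∈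
      (KT h (Fr h hp) n).Bc n (M.sz l) := by
    intro l hl
    rw [ha1 l hl]
    exact (hb l hl).2
  have hL4 := fun {B : Sz (SP h)} {c : M.ι → ZM N} (hc : c ∈ fam π Finset.univ M.toOb B (n + 1)) =>
    L4 hp n hK hg (C := C) (j := j) (M := M) u a (n + 1) haK hc
  have halin : ∀ (B : Sz (SP h)) q, ∀ x ∈ fam π Finset.univ M.toOb B q,
      lin (N := N) a x ∈ (KT h C (n + 1)).fam B q := fun B q x hx =>
    (KT h C (n + 1)).lin_mem' (r := 0) (fun l => by rw [add_zero]; exact haf l) hx (add_zero _)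
  have hexC : ∀ q, q ≠ n + 1 → ∀ B, (KT h C (n + 1)).Zc q B ≤ (KT h C (n + 1)).Bc q B :=
    fun q hq B => (stKX Γ D V T h N π C (n + 1) B).1 q hq
  obtain ⟨s, hs, hsa⟩ := extend hM (T := KT h C (n + 1)) (n + 1) a haf
    (fun l hl => by
      have h1 : (KT h C (n + 1)).d (a l) = 0 :=
        ktFam_lt C (n + 1) (M.deg l - 1) (by omega) (M.sz l) _
          ((KT h C (n + 1)).d_mem _ _ _ (haf l))
      have h2 : lin (N := N) a (M.d l) = 0 :=
        ktFam_lt C (n + 1) (M.deg l - 1) (by omega) (M.sz l) _ (halin _ _ _ (hrow l))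
      rw [h1, h2])
    (fun l hl => by
      have h1 := hrow l
      rw [hl, add_sub_cancel_right] at h1
      refine L3 j hB.1 n (M.sz l) _ (halin _ _ _ h1) ?_
      have h2 := hL4 h1
      have h3 := huf l
      rw [hl] at h3
      have h4 := kF_Bc hp n hK hg h3
      rw [← hus] at h4
      have h5 := AddSubgroup.sub_mem _ h4 h2
      rwa [sub_sub_cancel] at h5)
    (fun q hq => hexC q (by omega))
  have hex1 : ∀ q, q ≠ n + 1 → ∀ B,
      (coneT (homCh hK g hg)).Zc q B ≤ (coneT (homCh hK g hg)).Bc q B := by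
    intro q hq B
    refine stKLong stKF Γ D V T h N π S ι p ν n hp hK g hg hgen q hq ?_ B
    by_cases h1 : q = n
    · exact Or.inl h1
    · exact Or.inr (hex q h1)
  let γ : TgHom (coneT (homCh hK g hg)) (KT h C (n + 1)) :=
    { f := lin (N := N) s ∘ₗ v
      mem := fun B q x hx => hs.mem (hv B q x hx)
      d := fun x => by
        change lin (N := N) s (v ((coneT (homCh hK g hg)).d x)) = _
        rw [hvd, hs.2]
        rfl }
  have hγ : ∀ x, γ.f x = lin (N := N) s (v x) := fun x => rfl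
  -- the key property of `γ`
  have hkey : ∀ B, ∀ y ∈ (coneT (homCh hK g hg)).Zc (n + 1) B,
      kF hp n hK hg y - J h j n (γ.f y) ∈ (KT h (Fr h hp) n).Bc n B := by
    intro B y hy
    have h1 := hL4 (hv B (n + 1) y hy.1)
    have h2 : lin (N := N) a (v y) = γ.f y := by
      rw [hγ]
      refine lin_congr fun l hl => (hsa l ?_).symm
      rw [deg_of_fam (hv B (n + 1) y hy.1) hl]
    rw [h2, huv, hy.2, map_zero, add_zero, map_add] at h1
    have h3 := kF_Bc hp n hK hg (hr B (n + 1) y hy.1)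
    have h4 := AddSubgroup.sub_mem _ h1 h3
    have h5 : kF hp n hK hg y - J h j n (γ.f y) = kF hp n hK hg y +
        kF hp n hK hg ((coneT (homCh hK g hg)).d (r y)) - J h j n (γ.f y) -
        kF hp n hK hg ((coneT (homCh hK g hg)).d (r y)) := by abel
    rw [h5]
    exact h4
  refine ⟨γ, fun q B => ?_⟩
  by_cases hq : q = n + 1
  · subst hq
    constructor
    · rintro ⟨y₁, t⟩ hy hγy
      have h1 := hkey B _ hy
      have h2 := J_Bc j n B _ hγy
      have h3 := AddSubgroup.add_mem _ h1 h2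
      rw [sub_add_cancel, kF_apply, Kk_Bc] at h3
      obtain ⟨x, hx, hxy⟩ := h3
      change x ᵥ* (Kc h N n p ν).d = y₁ at hxy
      have hyd : lin (N := N) g y₁ + S.d t = 0 := congrArg Prod.snd hy.2
      have ht : t ∈ S.fam B (n + 1) := hy.1.2
      obtain ⟨t', ht', htt⟩ := hex (n + 1) (by omega) B (show t + lin (N := N) g x ∈
        S.Zc (n + 1) B from ⟨AddSubgroup.add_mem _ ht (hg.mem hx), by
          rw [map_add, ← hg.2, hxy, add_comm]
          exact hyd⟩)
      refine ⟨(-x, t'), ⟨?_, ht'⟩, ?_⟩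
      · change -x ∈ fam π Finset.univ (Kc h N n p ν).toOb B (n + 1 + 1 - 1)
        rw [add_sub_cancel_right]
        exact AddSubgroup.neg_mem _ hx
      · rw [coneT_d]
        refine Prod.ext ?_ ?_
        · change -(-x ᵥ* (Kc h N n p ν).d) = y₁
          rw [Matrix.neg_vecMul, neg_neg, hxy]
        · change lin (N := N) g (-x) + S.d t' = t
          rw [map_neg, htt]
          abel
    · intro y' hy'
      obtain ⟨w, hw, hyw⟩ : ∃ w : (KT h C (n + 1)).V, Out h C B w ∧
          y' - w ∈ (KT h C (n + 1)).Bc (n + 1) B :=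
        (stKX Γ D V T h N π C (n + 1) B).2.1 y' hy'.1
      set b₀ : C.M := w ∅ with hb₀
      have hwE : w = E h C (n + 1) b₀ := out_E hw
      have hJw : J h j n w = Kk h hp n (inj0 N (j.f b₀)) := by
        rw [hwE, J_E, Kk_inj0]
      have hout : Out h (Fr h hp) B (E h (Fr h hp) n (j.f b₀)) := by
        have h1 := J_out j n B w hw
        rw [← J_E, ← hwE]
        exact h1
      obtain ⟨s', hs', hss⟩ := gI_mem hp n (S := S) (g := g) hB hout
      have hi1 : inj0 N (j.f b₀) ∈ fam π Finset.univ (Kc h N n p ν).toOb B n := by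
        refine (Kk_fam hp n).1 ?_
        rw [Kk_inj0]
        exact out_fam (Fr h hp) n B _ hout
      have hi2 : inj0 N (j.f b₀) ᵥ* (Kc h N n p ν).d = 0 :=
        kc_fam_lt (π := π) (U := Finset.univ) (B := B) n (q := n - 1) (by omega)
          (fam_vecMul' hK.1 hi1 (by ring))
      have hyc : ((inj0 N (j.f b₀), -s') : ((Kc h N n p ν).ι → ZM N) × S.V) ∈
          (coneT (homCh hK g hg)).Zc (n + 1) B := by
        refine ⟨⟨?_, AddSubgroup.neg_mem _ hs'⟩, ?_⟩
        · change inj0 N (j.f b₀) ∈ fam π Finset.univ (Kc h N n p ν).toOb B (n + 1 - 1)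
          rwa [add_sub_cancel_right]
        · rw [coneT_d]
          refine Prod.ext ?_ ?_
          · change -(inj0 N (j.f b₀) ᵥ* (Kc h N n p ν).d) = 0
            rw [hi2, neg_zero]
          · change lin (N := N) g (inj0 N (j.f b₀)) + S.d (-s') = 0
            rw [map_neg, hss, add_neg_cancel]
      refine ⟨_, hyc, ?_⟩
      have h1 := hkey B _ hyc
      rw [kF_apply] at h1
      change Kk h hp n (inj0 N (j.f b₀)) - _ ∈ _ at h1
      rw [← hJw, ← map_sub] at h1
      have h2 := L3 j hB.1 n B _ (AddSubgroup.sub_mem _ (out_fam C (n + 1) B w hw)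
        (γ.mem_Zc hyc).1) h1
      have h3 := AddSubgroup.neg_mem _ (AddSubgroup.add_mem _ hyw h2)
      rw [sub_add_sub_cancel, neg_sub] at h3
      exact h3
  · constructor
    · intro x hx _
      exact hex1 q hq B hx
    · intro y hy
      refine ⟨0, AddSubgroup.zero_mem _, ?_⟩
      rw [map_zero, zero_sub]
      exact AddSubgroup.neg_mem _ (hexC q hq B hy)

end Pool.Agent.Lib.MP_551055_al.W17
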