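import Mathlib
import Pool.Agent.Lib.MP_551055_al.Trim.LS.BassProj
import Pool.Agent.Lib.MP_551055_al.Trim.LS.PStmts
import Pool.Agent.Lib.MP_551055_al.Trim.LS.Stmts
import Pool.Agent.Lib.MP_551055_al.Trim.MT.Base
import Pool.Agent.Lib.MP_551055_al.Trim.MT.Defs
import Pool.Agent.Lib.MP_551055_al.Trim.MT.Map
import Pool.Agent.Lib.MP_551055_al.Trim.MT.StA
import Pool.Agent.Lib.MP_551055_al.Trim.MT.Step
import Pool.Agent.Lib.MP_551055_al.Trim.MT.Trees
import Pool.Agent.Lib.MP_551055_al.Trim.T4.Ind0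
import Pool.Agent.Lib.MP_551055_al.Trim.W17.DefK
import Pool.Agent.Lib.MP_551055_al.Trim.W17.Defs
import Pool.Agent.Lib.MP_551055_al.Trim.W17.KF
import Pool.Agent.Lib.MP_551055_al.Trim.W17.KT
import Pool.Agent.Lib.MP_551055_al.Trim.W17.StK
import Pool.Agent.Lib.MP_551055_al.Trim.W17.StU

/-!
# Trees and products: module KLat (the complexes in the class are acyclic and have lattices)
-/

set_option autoImplicit false

namespace Pool.Agent.Lib.MP_551055_al
end Pool.Agent.Lib.MP_551055_al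

namespace Pool.Agent.Lib.MP_551055_al.LS
end Pool.Agent.Lib.MP_551055_al.LS

namespace Pool.Agent.Lib.MP_551055_al.MT
end Pool.Agent.Lib.MP_551055_al.MT

namespace Pool.Agent.Lib.MP_551055_al.W17

open Pool.Agent.Lib.MP_551055_al

open Pool.Agent.Lib.MP_551055_al.LS (TreeAct ZN)

open Pool.Agent.Lib.MP_551055_al.MT

open Matrix

section

variable {Γ : Type} [Group Γ] {D : Type} [Fintype D] [LinearOrder D] {V : D → Type}
  [∀ i, MulAction Γ (V i)] {T : ∀ i, SimpleGraph (V i)} (h : ∀ i, TreeAct Γ (V i) (T i))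
  {N : Type} [Group N] (π : N →* Γ)

theorem klat_ok {ι : Type} [Fintype ι] [DecidableEq ι] {p : ι → Pos V}
    (hp : ∀ l, OE T (p l)) : FrOk T π p fun _ => (0 : Matrix ι ι (ZM N)) :=
  ⟨hp, fun _ _ => rfl, fun _ _ _ _ hm => absurd rfl hm, fun _ => ⟨1, pow_one _⟩⟩

theorem klat_kc {ι : Type} [Fintype ι] [DecidableEq ι] {p : ι → Pos V}
    (hp : ∀ l, OE T (p l)) (n : ℤ) : Acy h π (Kc h N n p fun _ => 0) :=
  ⟨kc_isCx h (klat_ok π hp) n, kc_cel h (klat_ok π hp) n, kc_contr h (klat_ok π hp) n⟩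

theorem cel_cone {N : Type} [Monoid N] {U : Finset D} {X Y : Co (SP h) N}
    {f : Matrix X.ι Y.ι (ZM N)} (hX : Cel h U X.toOb) (hY : Cel h U Y.toOb) :
    Cel h U (cone X Y f).toOb := by
  rintro (l | l) i hi
  · exact hX l i hi
  · exact hY l i hi

/-- The complexes in the class are acyclic. -/
theorem klat_acy (hCC : StCC) {M : Co (SP h) N} (hM : Cls h π M) : Acy h π M := by
  induction hM with
  | el p n hp => exact klat_kc h π hp n
  | cone f _ _ hf ihX ihY =>
    exact ⟨ihX.cx.cone ihY.cx hf, cel_cone h ihX.cel ihY.cel, fun i =>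
      contr_cone hCC (hf.mono (Finset.erase_subset _ _)) (ihX.con i) (ihY.con i)⟩
  | iso _ hY hc hi ih =>
    exact ⟨hY, hc, fun i => (hi.mono (Finset.erase_subset _ _)).nul HI.one (ih.con i)⟩

/-- Change of the ring for elementary complexes. -/
theorem klat_map {N N' : Type} [Monoid N] [Monoid N'] (φ : ZM N →+* ZM N') {ι : Type}
    [Fintype ι] [DecidableEq ι] (p : ι → Pos V) (n : ℤ) :
    (Kc h N n p fun _ => 0).map φ = Kc h N' n p fun _ => 0 := by
  have h1 : (Kc h N n p fun _ => 0).d.map φ = (Kc h N' n p fun _ => 0).d := by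
    funext a b
    change φ (∑ i ∈ a.2, if b.2 = a.2.erase i then
      eps n i a.2 • ((if a.1 = b.1 then 1 else 0) - (0 : Matrix ι ι (ZM N)) a.1 b.1) else 0) =
      ∑ i ∈ a.2, if b.2 = a.2.erase i then
      eps n i a.2 • ((if a.1 = b.1 then 1 else 0) - (0 : Matrix ι ι (ZM N')) a.1 b.1) else 0
    rw [map_sum]
    refine Finset.sum_congr rfl fun i _ => ?_
    by_cases h2 : b.2 = a.2.erase i
    · rw [if_pos h2, if_pos h2, map_zsmul, map_sub]
      by_cases h3 : a.1 = b.1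
      · rw [if_pos h3, if_pos h3, map_one]
        exact congrArg (fun x => eps n i a.2 • (1 - x)) (map_zero φ)
      · rw [if_neg h3, if_neg h3, map_zero]
        exact congrArg (fun x => eps n i a.2 • (0 - x)) (map_zero φ)
    · rw [if_neg h2, if_neg h2, map_zero]
  change ({ toOb := (Kc h N n p fun _ => 0).toOb, d := (Kc h N n p fun _ => 0).d.map φ } :
    Co (SP h) N') = _
  rw [h1]
  rfl

end

section

variable {Γ : Type} [Group Γ] {D : Type} [Fintype D] [LinearOrder D] {V : D → Type}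
  [∀ i, MulAction Γ (V i)] {T : ∀ i, SimpleGraph (V i)} (h : ∀ i, TreeAct Γ (V i) (T i))
  {G : Type} [Group G] (π : G →* Γ)

theorem klat_lat (hCC : StCC) (hLt : StLtCone) {M : Co (SP h) (GZ G)} (hM : Cls h (pZ π) M) :
    ∃ M₁ : Co (SP h) (GN G), IsCx (pN π) Finset.univ M₁ ∧ Cel h Finset.univ M₁.toOb ∧
      (∀ i, Contr (pN π) (Finset.univ.erase i) M₁) ∧
      Iso (pZ π) Finset.univ (M₁.map (loc G)) 1 M 1 := by
  induction hM with
  | el p n hp =>
    have h1 := klat_kc h π hp n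
    refine ⟨(Kc h G n p fun _ => 0).map (mdh (hInc G)), h1.cx.map (pN_hInc π), h1.cel,
      fun i => (h1.con i).map (pN_hInc π), ?_⟩
    rw [klat_map h (mdh (hInc G)) p n, klat_map h (loc G) p n]
    exact Iso.refl HI.one
  | @cone X Y f hX hY hf ihX ihY =>
    obtain ⟨X₁, a1, a2, a3, a4⟩ := ihX
    obtain ⟨Y₁, b1, b2, b3, b4⟩ := ihY
    have hXa := klat_acy h (pZ π) hCC hX
    have hYa := klat_acy h (pZ π) hCC hY
    obtain ⟨g, hg, hi⟩ := hLt Γ D (SP h) G π Finset.univ X Y X₁ Y₁ f hXa.cx hYa.cx a1 b1 hf a4 b4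
    exact ⟨cone X₁ Y₁ g, a1.cone b1 hg, cel_cone h a2 b2, fun i =>
      contr_cone hCC (hg.mono (Finset.erase_subset _ _)) (a3 i) (b3 i), hi⟩
  | iso _ hY hc hi ih =>
    obtain ⟨X₁, a1, a2, a3, a4⟩ := ih
    exact ⟨X₁, a1, a2, a3, Iso.trans HI.one HI.one a4 hi⟩

end

/-- Module KLat. -/
theorem stKLat (hCC : StCC) (hLt : StLtCone) : StKLat := by
  intro Γ _ D _ _ V _ T h
  exact ⟨fun N _ π M hM => klat_acy h π hCC hM, fun G _ π M hM => klat_lat h π hCC hLt hM⟩

end Pool.Agent.Lib.MP_551055_al.W17
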