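import Mathlib
import Pool.Agent.Lib.MP_551055_al.Trim.LD.NG
import Pool.Agent.Lib.MP_551055_al.Trim.LS.BassProj
import Pool.Agent.Lib.MP_551055_al.Trim.LS.PStmts
import Pool.Agent.Lib.MP_551055_al.Trim.LS.Stmts
import Pool.Agent.Lib.MP_551055_al.Trim.MT.Defs
import Pool.Agent.Lib.MP_551055_al.Trim.MT.Trees
import Pool.Agent.Lib.MP_551055_al.Trim.PT.Stmts
import Pool.Agent.Lib.MP_551055_al.Trim.W17.Defs
import Pool.Agent.Lib.MP_551055_al.Trim.W17.StK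

/-!
# Trees and products: module KR (change of the index set of the directions and of the group)
-/

set_option autoImplicit false

set_option linter.unusedSectionVars false

namespace Pool.Agent.Lib.MP_551055_al
end Pool.Agent.Lib.MP_551055_al

namespace Pool.Agent.Lib.MP_551055_al.LS
end Pool.Agent.Lib.MP_551055_al.LS

namespace Pool.Agent.Lib.MP_551055_al.MT
end Pool.Agent.Lib.MP_551055_al.MT

namespace Pool.Agent.Lib.MP_551055_al.W17

open Pool.Agent.Lib.MP_551055_al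

open Pool.Agent.Lib.MP_551055_al.LS (TreeAct ZN)

open Pool.Agent.Lib.MP_551055_al.MT

open Matrix

/-! ## Subtrees and another group -/

section

variable {Γ Γ' : Type} [Group Γ] [Group Γ'] {W : Type} [MulAction Γ W] [MulAction Γ' W]
  {S : SimpleGraph W}

/-- The same subtree for another group. -/
def krS {k : TreeAct Γ W S} (k' : TreeAct Γ' W S) (A : Sub k) : Sub k' := ⟨A.1, A.2⟩

theorem krS_smul {k : TreeAct Γ W S} (k' : TreeAct Γ' W S) {γ : Γ} {γ' : Γ'}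
    (hγ : ∀ x : W, γ • x = γ' • x) (A : Sub k) : krS k' (γ • A) = γ' • krS k' A := by
  apply Sub.ext'
  change (fun x => γ • x) '' A.set = (fun x => γ' • x) '' A.set
  simp only [hγ]

theorem krS_cl {k : TreeAct Γ W S} (k' : TreeAct Γ' W S) {A : Sub k} (hA : Cl k A) :
    Cl k' (krS k' A) := by
  rcases hA with ⟨v, rfl⟩ | ⟨u, v, huv, rfl⟩
  · exact Or.inl ⟨v, rfl⟩
  · refine Or.inr ⟨u, v, huv, ?_⟩
    apply Sub.ext'
    change (edg k u v).set = (edg k' u v).set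
    rw [edg_set k huv, edg_set k' huv]

end

section

variable {D D' : Type} [DecidableEq D] [DecidableEq D'] {ε : D → D'}
  (hε : Function.Injective ε) {Γ Γ' : Type} [Group Γ] [Group Γ'] {ρ : Γ' →* Γ}
  {V : D' → Type} [∀ i, MulAction Γ' (V i)] [∀ i, MulAction Γ (V (ε i))]
  {T : ∀ i, SimpleGraph (V i)} (h' : ∀ i, TreeAct Γ' (V i) (T i))
  (h : ∀ i, TreeAct Γ (V (ε i)) (T (ε i)))

open Classical in
/-- The extension of a size. -/
noncomputable def krG (x : ∀ i : D, Sub (h i)) (j : D') : Sub (h' j) :=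
  if hj : ∃ i, ε i = j then hj.choose_spec ▸ krS (h' (ε hj.choose)) (x hj.choose)
  else ((szAct h').ne j).some

include hε in
theorem krG_eq (x : ∀ i : D, Sub (h i)) (i : D) :
    krG h' h x (ε i) = krS (h' (ε i)) (x i) := by
  have hj : ∃ i', ε i' = ε i := ⟨i, rfl⟩
  rw [krG, dif_pos hj]
  have key : ∀ (i' : D) (e : ε i' = ε i),
      (e ▸ krS (h' (ε i')) (x i') : Sub (h' (ε i))) = krS (h' (ε i)) (x i) := by
    intro i' e
    have h1 := hε e
    subst h1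
    rfl
  exact key _ hj.choose_spec

variable {N : Type} [Monoid N]

/-- Restriction of the sizes. -/
def krF (X : Co (SP h') N) : Co (SP h) N where
  ι := X.ι
  ft := X.ft
  de := X.de
  deg := X.deg
  sz l := fun i => krS (h i) (X.sz l (ε i))
  d := X.d

/-- Extension of the sizes. -/
noncomputable def krE (X : Co (SP h) N) : Co (SP h') N where
  ι := X.ι
  ft := X.ft
  de := X.de
  deg := X.deg
  sz l := krG h' h (X.sz l)
  d := X.d

include hε in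
theorem krF_krE (X : Co (SP h) N) : krF h' h (krE h' h X) = X := by
  have h1 : (fun l (i : D) => krS (h i) (krG h' h (X.sz l) (ε i))) = X.sz := by
    funext l i
    rw [krG_eq hε]
    rfl
  change ({ ι := X.ι, ft := X.ft, de := X.de, deg := X.deg,
            sz := fun l (i : D) => krS (h i) (krG h' h (X.sz l) (ε i)), d := X.d } :
    Co (SP h) N) = X
  rw [h1]

variable {π' : N →* Γ'} {π : N →* Γ} {U : Finset D}
  (hact : ∀ (i : D) (γ : Γ') (v : V (ε i)), γ • v = ρ γ • v) (hπ : ∀ g, ρ (π' g) = π g)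

include hact hπ in
theorem kr_ct {X Y : Co (SP h') N} {r : ℤ} {f : Matrix X.ι Y.ι (ZM N)} :
    Ct π' (U.map ⟨ε, hε⟩) r X.toOb Y.toOb f ↔
      Ct π U r (krF h' h X).toOb (krF h' h Y).toOb f := by
  have key : ∀ (l : X.ι) (k : Y.ι) (m : N) (i : D), X.sz l (ε i) ≤ π' m • Y.sz k (ε i) ↔
      krS (h i) (X.sz l (ε i)) ≤ π m • krS (h i) (Y.sz k (ε i)) := by
    intro l k m i
    rw [← krS_smul (h i) (γ := π' m) (γ' := π m) (fun x => by rw [hact, hπ])]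
    exact Iff.rfl
  constructor
  · intro H l k m hm
    obtain ⟨h1, h2⟩ := H l k m hm
    exact ⟨h1, fun i hi => (key l k m i).1 (h2 (ε i) (Finset.mem_map.2 ⟨i, hi, rfl⟩))⟩
  · intro H l k m hm
    obtain ⟨h1, h2⟩ := H l k m hm
    refine ⟨h1, fun j hj => ?_⟩
    obtain ⟨i, hi, rfl⟩ := Finset.mem_map.1 hj
    exact (key l k m i).2 (h2 i hi)

include hact hπ in
theorem kr_isCx {X : Co (SP h') N} :
    IsCx π' (U.map ⟨ε, hε⟩) X ↔ IsCx π U (krF h' h X) :=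
  ⟨fun H => ⟨(kr_ct hε h' h hact hπ).1 H.1, H.2⟩, fun H => ⟨(kr_ct hε h' h hact hπ).2 H.1, H.2⟩⟩

include hact hπ in
theorem kr_ch {X Y : Co (SP h') N} {f : Matrix X.ι Y.ι (ZM N)} :
    Ch π' (U.map ⟨ε, hε⟩) X Y f ↔ Ch π U (krF h' h X) (krF h' h Y) f :=
  ⟨fun H => ⟨(kr_ct hε h' h hact hπ).1 H.1, H.2⟩, fun H => ⟨(kr_ct hε h' h hact hπ).2 H.1, H.2⟩⟩

include hact hπ in
theorem kr_nul {X Y : Co (SP h') N} {f : Matrix X.ι Y.ι (ZM N)} :
    Nul π' (U.map ⟨ε, hε⟩) X Y f ↔ Nul π U (krF h' h X) (krF h' h Y) f :=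
  ⟨fun ⟨s, H1, H2⟩ => ⟨s, (kr_ct hε h' h hact hπ).1 H1, H2⟩,
    fun ⟨s, H1, H2⟩ => ⟨s, (kr_ct hε h' h hact hπ).2 H1, H2⟩⟩

include hact hπ in
theorem kr_hi {X : Co (SP h') N} {e : Matrix X.ι X.ι (ZM N)} :
    HI π' (U.map ⟨ε, hε⟩) X e ↔ HI π U (krF h' h X) e :=
  and_congr (kr_ch hε h' h hact hπ) (kr_nul hε h' h hact hπ)

include hact hπ in
theorem kr_iso {X Y : Co (SP h') N} {e : Matrix X.ι X.ι (ZM N)} {e' : Matrix Y.ι Y.ι (ZM N)} :
    Iso π' (U.map ⟨ε, hε⟩) X e Y e' ↔ Iso π U (krF h' h X) e (krF h' h Y) e' :=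
  ⟨fun ⟨u, v, h1, h2, h3, h4⟩ => ⟨u, v, (kr_ch hε h' h hact hπ).1 h1,
    (kr_ch hε h' h hact hπ).1 h2, (kr_nul hε h' h hact hπ).1 h3,
    (kr_nul hε h' h hact hπ).1 h4⟩,
   fun ⟨u, v, h1, h2, h3, h4⟩ => ⟨u, v, (kr_ch hε h' h hact hπ).2 h1,
    (kr_ch hε h' h hact hπ).2 h2, (kr_nul hε h' h hact hπ).2 h3,
    (kr_nul hε h' h hact hπ).2 h4⟩⟩

theorem kr_cel {X : Co (SP h') N} :
    Cel h' (U.map ⟨ε, hε⟩) X.toOb ↔ Cel h U (krF h' h X).toOb := by
  constructor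
  · intro H l i hi
    exact krS_cl (h i) (H l (ε i) (Finset.mem_map.2 ⟨i, hi, rfl⟩))
  · intro H l j hj
    obtain ⟨i, hi, rfl⟩ := Finset.mem_map.1 hj
    exact krS_cl (h' (ε i)) (H l i hi)

theorem kr_erase (i : D) : (U.map ⟨ε, hε⟩).erase (ε i) = (U.erase i).map ⟨ε, hε⟩ :=
  (Finset.map_erase ⟨ε, hε⟩ U i).symm

end

section

variable {D D' : Type} [DecidableEq D] [DecidableEq D'] {ε : D → D'}
  (hε : Function.Injective ε) {Γ Γ' : Type} [Group Γ] [Group Γ'] {ρ : Γ' →* Γ}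
  {V : D' → Type} [∀ i, MulAction Γ' (V i)] [∀ i, MulAction Γ (V (ε i))]
  {T : ∀ i, SimpleGraph (V i)} (h' : ∀ i, TreeAct Γ' (V i) (T i))
  (h : ∀ i, TreeAct Γ (V (ε i)) (T (ε i))) {G : Type} [Group G]
  {π' : G →* Γ'} {π : G →* Γ} {U : Finset D}
  (hact : ∀ (i : D) (γ : Γ') (v : V (ε i)), γ • v = ρ γ • v) (hπ : ∀ g, ρ (π' g) = π g)

include hact hπ in
theorem kr_spC : SpC h π U ↔ SpC h' π' (U.map ⟨ε, hε⟩) := by
  constructor
  · intro H K e hK hcel he hnul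
    obtain ⟨M, h1, h2, h3⟩ := H (krF h' h K) e ((kr_isCx hε h' h hact hπ).1 hK)
      ((kr_cel hε h' h).1 hcel) ((kr_hi hε h' h hact hπ).1 he) fun i hi =>
        (kr_nul hε h' h hact hπ).1 (by
          rw [← kr_erase]
          exact hnul (ε i) (Finset.mem_map.2 ⟨i, hi, rfl⟩))
    obtain ⟨M', rfl⟩ : ∃ M', M = krF h' h M' := ⟨krE h' h M, (krF_krE hε h' h M).symm⟩
    exact ⟨M', (kr_isCx hε h' h hact hπ).2 h1, (kr_cel hε h' h).2 h2,
      (kr_iso hε h' h hact hπ).2 h3⟩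
  · intro H K e hK hcel he hnul
    obtain ⟨K', rfl⟩ : ∃ K', K = krF h' h K' := ⟨krE h' h K, (krF_krE hε h' h K).symm⟩
    obtain ⟨M', h1, h2, h3⟩ := H K' e ((kr_isCx hε h' h hact hπ).2 hK)
      ((kr_cel hε h' h).2 hcel) ((kr_hi hε h' h hact hπ).2 he) fun j hj => by
        obtain ⟨i, hi, rfl⟩ := Finset.mem_map.1 hj
        change Nul π' ((U.map ⟨ε, hε⟩).erase (ε i)) K' K' e
        rw [kr_erase]
        exact (kr_nul hε h' h hact hπ).2 (hnul i hi)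
    exact ⟨krF h' h M', (kr_isCx hε h' h hact hπ).1 h1, (kr_cel hε h' h).1 h2,
      (kr_iso hε h' h hact hπ).1 h3⟩

include hact hπ in
theorem kr_ltC : LtC h π U ↔ LtC h' π' (U.map ⟨ε, hε⟩) := by
  have hZ : ∀ g : GZ G, ρ (pZ π' g) = pZ π g := fun g => hπ g.1
  have hN : ∀ g : GN G, ρ (pN π' g) = pN π g := fun g => hπ g.1
  constructor
  · intro H M hM hcel hcon
    obtain ⟨M₁, h1, h2, h3, h4⟩ := H (krF h' h M) ((kr_isCx hε h' h hact hZ).1 hM)
      ((kr_cel hε h' h).1 hcel) fun i hi => (kr_nul hε h' h hact hZ).1 (by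
          rw [← kr_erase]
          exact hcon (ε i) (Finset.mem_map.2 ⟨i, hi, rfl⟩))
    obtain ⟨M', rfl⟩ : ∃ M', M₁ = krF h' h M' := ⟨krE h' h M₁, (krF_krE hε h' h M₁).symm⟩
    refine ⟨M', (kr_isCx hε h' h hact hN).2 h1, (kr_cel hε h' h).2 h2, fun j hj => ?_,
      (kr_iso hε h' h hact hZ).2 h4⟩
    obtain ⟨i, hi, rfl⟩ := Finset.mem_map.1 hj
    change Contr (pN π') ((U.map ⟨ε, hε⟩).erase (ε i)) M'
    rw [kr_erase]
    exact (kr_nul hε h' h hact hN).2 (h3 i hi)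
  · intro H M hM hcel hcon
    obtain ⟨M', rfl⟩ : ∃ M', M = krF h' h M' := ⟨krE h' h M, (krF_krE hε h' h M).symm⟩
    obtain ⟨M₁, h1, h2, h3, h4⟩ := H M' ((kr_isCx hε h' h hact hZ).2 hM)
      ((kr_cel hε h' h).2 hcel) fun j hj => by
        obtain ⟨i, hi, rfl⟩ := Finset.mem_map.1 hj
        change Contr (pZ π') ((U.map ⟨ε, hε⟩).erase (ε i)) M'
        rw [kr_erase]
        exact (kr_nul hε h' h hact hZ).2 (hcon i hi)
    refine ⟨krF h' h M₁, (kr_isCx hε h' h hact hN).1 h1, (kr_cel hε h' h).1 h2, fun i hi => ?_,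
      (kr_iso hε h' h hact hZ).1 h4⟩
    refine (kr_nul hε h' h hact hN).1 ?_
    have h5 := h3 (ε i) (Finset.mem_map.2 ⟨i, hi, rfl⟩)
    rw [kr_erase] at h5
    exact h5

end

/-- Module KR. -/
theorem stKR : StKR := by
  intro D D' _ _ ε hε Γ Γ' _ _ ρ V _ _ T h' h hact G _ π' π hπ U
  have hm : ∀ m : ℕ, ∀ g : G × ZN m, ρ ((π'.comp (MonoidHom.fst G (ZN m))) g) =
      (π.comp (MonoidHom.fst G (ZN m))) g := fun m g => hπ g.1
  refine forall_congr' fun m => ?_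
  exact and_congr (kr_spC hε h' h hact (hm m)) (kr_ltC hε h' h hact (hm m))

end Pool.Agent.Lib.MP_551055_al.W17
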