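import Mathlib
import Pool.Agent.Lib.MP_551055_al.Trim.LD.NG
import Pool.Agent.Lib.MP_551055_al.Trim.LS.BassProj
import Pool.Agent.Lib.MP_551055_al.Trim.LS.PStmts
import Pool.Agent.Lib.MP_551055_al.Trim.LS.Ray
import Pool.Agent.Lib.MP_551055_al.Trim.LS.Stmts
import Pool.Agent.Lib.MP_551055_al.Trim.LS.TreeB
import Pool.Agent.Lib.MP_551055_al.Trim.MT.Base
import Pool.Agent.Lib.MP_551055_al.Trim.MT.Defs
import Pool.Agent.Lib.MP_551055_al.Trim.MT.Flow
import Pool.Agent.Lib.MP_551055_al.Trim.MT.Flow2
import Pool.Agent.Lib.MP_551055_al.Trim.MT.Gen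
import Pool.Agent.Lib.MP_551055_al.Trim.MT.Tg
import Pool.Agent.Lib.MP_551055_al.Trim.MT.Trees
import Pool.Agent.Lib.MP_551055_al.Trim.PT.Stmts
import Pool.Agent.Lib.MP_551055_al.Trim.T4.Ind0
import Pool.Agent.Lib.MP_551055_al.Trim.W17.DefK
import Pool.Agent.Lib.MP_551055_al.Trim.W17.Defs
import Pool.Agent.Lib.MP_551055_al.Trim.W17.Filt
import Pool.Agent.Lib.MP_551055_al.Trim.W17.FrA
import Pool.Agent.Lib.MP_551055_al.Trim.W17.StK

/-!
# Trees and products, module KSep: separation of the positions
-/

set_option autoImplicit false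

set_option linter.unusedSectionVars false

namespace Pool.Agent.Lib.MP_551055_al
end Pool.Agent.Lib.MP_551055_al

namespace Pool.Agent.Lib.MP_551055_al.LS
end Pool.Agent.Lib.MP_551055_al.LS

namespace Pool.Agent.Lib.MP_551055_al.MT
end Pool.Agent.Lib.MP_551055_al.MT

namespace Pool.Agent.Lib.MP_551055_al.W17.KSepA
end Pool.Agent.Lib.MP_551055_al.W17.KSepA

namespace Pool.Agent.Lib.MP_551055_al.W17

open Pool.Agent.Lib.MP_551055_al

open Pool.Agent.Lib.MP_551055_al.LS (TreeAct ZN)

open Pool.Agent.Lib.MP_551055_al.MT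

open Matrix

namespace KSepA

/-! ## The parts of a vector -/

section

variable {Γ : Type} [Group Γ] {D : Type} {V : D → Type} [∀ i, MulAction Γ (V i)]
  {N : Type} [Group N] {π : N →* Γ} {ι : Type} {p : ι → Pos V}

/-- All positions of `v` satisfy `Q`. -/
def At (π : N →* Γ) (p : ι → Pos V) (v : ι → ZM N) (Q : Pos V → Prop) : Prop :=
  ∀ l m, (v l).coeff m ≠ 0 → Q (π m • p l)

/-- The part of `v` with the positions in `Q`. -/
noncomputable def cut (π : N →* Γ) (p : ι → Pos V) (Q : Pos V → Prop) :
    (ι → ZM N) →+ (ι → ZM N) where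
  toFun v := fun l => filt (fun m => Q (π m • p l)) (v l)
  map_zero' := funext fun _ => filt_zero _
  map_add' _ _ := funext fun _ => filt_add _ _ _

open Classical in
theorem cut_coeff (Q : Pos V → Prop) (v : ι → ZM N) (l : ι) (m : N) :
    (cut π p Q v l).coeff m = if Q (π m • p l) then (v l).coeff m else 0 :=
  filt_coeff _ _ _

theorem cut_coeff_ne {Q : Pos V → Prop} {v : ι → ZM N} {l : ι} {m : N}
    (h : (cut π p Q v l).coeff m ≠ 0) : Q (π m • p l) ∧ (v l).coeff m ≠ 0 :=
  filt_coeff_ne h

theorem At.mono {v : ι → ZM N} {Q Q' : Pos V → Prop} (h : At π p v Q)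
    (hQ : ∀ z, Q z → Q' z) : At π p v Q' := fun l m hm => hQ _ (h l m hm)

theorem At.and {v : ι → ZM N} {Q Q' : Pos V → Prop} (h : At π p v Q) (h' : At π p v Q') :
    At π p v (fun z => Q z ∧ Q' z) := fun l m hm => ⟨h l m hm, h' l m hm⟩

theorem at_cut (Q : Pos V → Prop) (v : ι → ZM N) : At π p (cut π p Q v) Q :=
  fun _ _ hm => (cut_coeff_ne hm).1

theorem At.cut {v : ι → ZM N} {R : Pos V → Prop} (h : At π p v R) (Q : Pos V → Prop) :
    At π p (cut π p Q v) R := fun l m hm => h l m (cut_coeff_ne hm).2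

theorem cut_add_of {Q Q' : Pos V → Prop} {v : ι → ZM N}
    (h : At π p v (fun z => (Q z ∧ ¬Q' z) ∨ (¬Q z ∧ Q' z))) :
    cut π p Q v + cut π p Q' v = v := by
  classical
  funext l
  refine zm_ext fun m => ?_
  rw [Pi.add_apply, MonoidAlgebra.coeff_add, Finsupp.add_apply, cut_coeff, cut_coeff]
  by_cases hm : (v l).coeff m = 0
  · rw [hm, ite_self, ite_self, add_zero]
  · rcases h l m hm with ⟨h1, h2⟩ | ⟨h1, h2⟩
    · rw [if_pos h1, if_neg h2, add_zero]
    · rw [if_neg h1, if_pos h2, zero_add]

theorem cut_add_not (Q : Pos V → Prop) (v : ι → ZM N) :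
    cut π p Q v + cut π p (fun z => ¬Q z) v = v := by
  refine cut_add_of fun l m _ => ?_
  by_cases h : Q (π m • p l)
  · exact Or.inl ⟨h, fun h' => h' h⟩
  · exact Or.inr ⟨h, h⟩

theorem cut_congr {Q Q' : Pos V → Prop} {v : ι → ZM N}
    (h : At π p v (fun z => Q z ↔ Q' z)) : cut π p Q v = cut π p Q' v := by
  classical
  funext l
  refine zm_ext fun m => ?_
  rw [cut_coeff, cut_coeff]
  by_cases hm : (v l).coeff m = 0
  · rw [hm, ite_self, ite_self]
  · simp only [h l m hm]

theorem cut_self {Q : Pos V → Prop} {v : ι → ZM N} (h : At π p v Q) : cut π p Q v = v := by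
  classical
  funext l
  refine zm_ext fun m => ?_
  rw [cut_coeff]
  by_cases hm : (v l).coeff m = 0
  · rw [hm, ite_self]
  · rw [if_pos (h l m hm)]

theorem cut_zero {Q : Pos V → Prop} {v : ι → ZM N} (h : At π p v (fun z => ¬Q z)) :
    cut π p Q v = 0 := by
  classical
  funext l
  refine zm_ext fun m => ?_
  rw [cut_coeff]
  by_cases hm : (v l).coeff m = 0
  · rw [hm, ite_self]
    rfl
  · rw [if_neg (h l m hm)]
    rfl

theorem cut_cut (Q Q' : Pos V → Prop) (v : ι → ZM N) :
    cut π p Q (cut π p Q' v) = cut π p (fun z => Q z ∧ Q' z) v := by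
  classical
  funext l
  refine zm_ext fun m => ?_
  rw [cut_coeff, cut_coeff, cut_coeff]
  by_cases h1 : Q (π m • p l)
  · by_cases h2 : Q' (π m • p l)
    · rw [if_pos h1, if_pos h2, if_pos ⟨h1, h2⟩]
    · rw [if_pos h1, if_neg h2, if_neg fun h => h2 h.2]
  · rw [if_neg h1, if_neg fun h => h1 h.1]

theorem ex_ne {N : Type} [Monoid N] {ι : Type} {v : ι → ZM N} (hv : v ≠ 0) : ∃ l m, (v l).coeff m ≠ 0 := by
  by_contra hn
  push Not at hn
  exact hv (funext fun l => zm_ext fun m => hn l m)

theorem cut_fin [Finite ι] {α : Type} (f : Pos V → α) (v : ι → ZM N) :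
    {a | cut π p (fun z => f z = a) v ≠ 0}.Finite := by
  refine (Set.finite_iUnion fun l : ι =>
    ((v l).coeff.support.finite_toSet.image fun m => f (π m • p l))).subset ?_
  intro a ha
  obtain ⟨l, m, hm⟩ := ex_ne ha
  obtain ⟨h1, h2⟩ := cut_coeff_ne hm
  exact Set.mem_iUnion.2 ⟨l, m, Finsupp.mem_support_iff.2 h2, h1⟩

theorem cut_fsum [Finite ι] {α : Type} (f : Pos V → α) (v : ι → ZM N) :
    ∑ᶠ a, cut π p (fun z => f z = a) v = v := by
  classical
  have hf := cut_fin (π := π) (p := p) f v
  rw [finsum_eq_sum_of_support_subset (s := hf.toFinset) _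
    (fun x hx => by rw [Set.Finite.coe_toFinset]; exact hx)]
  funext l
  rw [Finset.sum_apply]
  refine zm_ext fun m => ?_
  rw [coeff_sum']
  by_cases hm : (v l).coeff m = 0
  · rw [hm]
    refine Finset.sum_eq_zero fun x _ => ?_
    rw [cut_coeff, hm, ite_self]
  · rw [Finset.sum_eq_single (f (π m • p l))]
    · rw [cut_coeff, if_pos rfl]
    · intro x _ hx
      rw [cut_coeff, if_neg fun h => hx h.symm]
    · intro hx
      by_contra hn
      apply hx
      rw [Set.Finite.mem_toFinset]
      intro h0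
      apply hn
      have h1 := congrFun h0 l
      rw [h1]
      rfl

/-- The sum over the fibres, after an additive map. -/
theorem map_fsum [Finite ι] {H : Type} [AddCommGroup H] (G : (ι → ZM N) →+ H) {α : Type}
    (f : Pos V → α) (v : ι → ZM N) : ∑ᶠ a, G (cut π p (fun z => f z = a) v) = G v := by
  have h1 : (Function.support fun a => cut π p (fun z => f z = a) v).Finite :=
    cut_fin (π := π) (p := p) f v
  rw [← G.map_finsum h1, cut_fsum]

theorem map_fin [Finite ι] {H : Type} [AddCommGroup H] (G : (ι → ZM N) →+ H) {α : Type}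
    (f : Pos V → α) (v : ι → ZM N) :
    (Function.support fun a => G (cut π p (fun z => f z = a) v)).Finite := by
  refine (cut_fin (π := π) (p := p) f v).subset fun a ha h0 => ha ?_
  change G (cut π p (fun z => f z = a) v) = 0
  rw [h0, map_zero]

/-! ## The flow of a vector -/

/-- The flow of `v`. -/
noncomputable def E {H : Type} [AddCommGroup H] (π : N →* Γ) (p : ι → Pos V)
    (G : (ι → ZM N) →+ H) (j : D) (v : ι → ZM N) (a b : V j) : H :=
  G (cut π p (fun z => z j = (a, b)) v) - G (cut π p (fun z => z j = (b, a)) v)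

theorem isFlow_E [Finite ι] {H : Type} [AddCommGroup H] (G : (ι → ZM N) →+ H) (j : D)
    {T : SimpleGraph (V j)} {v : ι → ZM N} (hv : At π p v (fun z => T.Adj (z j).1 (z j).2)) :
    IsFlow T (E π p G j v) where
  anti a b := by
    unfold E
    rw [neg_sub]
  adj a b hab := by
    unfold E
    rw [cut_zero (hv.mono fun z hz h => hab ?_), cut_zero (hv.mono fun z hz h => hab ?_), sub_self]
    · rw [h] at hz
      exact hz.symm
    · rw [h] at hz
      exact hz
  fin := by
    have h1 := map_fin (π := π) (p := p) G (fun z => z j) v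
    have h2 : (Prod.swap ⁻¹' (Function.support fun a => G (cut π p (fun z => z j = a) v))).Finite :=
      h1.preimage Prod.swap_injective.injOn
    refine (h1.union h2).subset fun e he => ?_
    by_contra hn
    rw [Set.mem_union, not_or] at hn
    have h3 : G (cut π p (fun z => z j = (e.1, e.2)) v) = 0 := not_not.1 hn.1
    have h4 : G (cut π p (fun z => z j = (e.2, e.1)) v) = 0 := not_not.1 hn.2
    apply he
    unfold E
    rw [h3, h4, sub_zero]

theorem bd_E [Finite ι] {H : Type} [AddCommGroup H] (G : (ι → ZM N) →+ H) (j : D)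
    (v : ι → ZM N) (c : V j) : bd (E π p G j v) c =
      G (cut π p (fun z => (z j).2 = c) v) - G (cut π p (fun z => (z j).1 = c) v) := by
  have h1 : ∀ a, cut π p (fun z => z j = (a, c)) v =
      cut π p (fun z => (z j).1 = a) (cut π p (fun z => (z j).2 = c) v) := by
    intro a
    rw [cut_cut]
    exact cut_congr fun l m _ => Prod.ext_iff
  have h2 : ∀ a, cut π p (fun z => z j = (c, a)) v =
      cut π p (fun z => (z j).2 = a) (cut π p (fun z => (z j).1 = c) v) := by
    intro a
    rw [cut_cut]
    exact cut_congr fun l m _ => Prod.ext_iff.trans and_comm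
  unfold bd E
  simp only [h1, h2]
  rw [finsum_sub_distrib (map_fin G (fun z => (z j).1) _) (map_fin G (fun z => (z j).2) _),
    map_fsum G (fun z => (z j).1), map_fsum G (fun z => (z j).2)]

end

/-! ## The operators -/

section

variable {Γ : Type} [Group Γ] {D : Type} {V : D → Type} [∀ i, MulAction Γ (V i)]
  {T : ∀ i, SimpleGraph (V i)} {N : Type} [Group N] {π : N →* Γ}
  {ι : Type} [Fintype ι] [DecidableEq ι] {p : ι → Pos V} {ν : D → Matrix ι ι (ZM N)}

theorem at_adj (h : ∀ i, TreeAct Γ (V i) (T i)) (hp : FrOk T π p ν) (j : D) (v : ι → ZM N) :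
    At π p v (fun z => (T j).Adj (z j).1 (z j).2) :=
  fun l m _ => (h j).adj (π m) _ _ (hp.oe l j)

theorem at_nu (h : ∀ i, TreeAct Γ (V i) (T i)) (hp : FrOk T π p ν) (j : D) {v : ι → ZM N}
    {Q Q' : Pos V → Prop} (hv : At π p v Q) (hQ : ∀ x y, Q x → Nx T j x y → Q' y) :
    At π p (v ᵥ* ν j) Q' := by
  intro k m hm
  obtain ⟨l, a, b, ha, hb, hab⟩ := coeff_vecMul_ne hm
  have h4 := smul_nx (fun γ i u w => (h i).adj γ u w) (hp.loc j l k b hb) (π a)
  rw [← mul_smul, ← map_mul, hab] at h4
  exact hQ _ _ (hv l a ha) h4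

theorem cut_nu (h : ∀ i, TreeAct Γ (V i) (T i)) (hp : FrOk T π p ν) (j : D) (v : ι → ZM N)
    (c : V j) : cut π p (fun z => (z j).1 = c) (v ᵥ* ν j) =
      cut π p (fun z => (z j).2 = c) v ᵥ* ν j := by
  have h1 : v = cut π p (fun z => (z j).2 = c) v + cut π p (fun z => ¬(z j).2 = c) v :=
    (cut_add_not _ _).symm
  have h2 : v ᵥ* ν j = cut π p (fun z => (z j).2 = c) v ᵥ* ν j +
      cut π p (fun z => ¬(z j).2 = c) v ᵥ* ν j := by
    conv_lhs => rw [h1]
    exact Matrix.add_vecMul _ _ _
  rw [h2, map_add]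
  have h3 : At π p (cut π p (fun z => (z j).2 = c) v ᵥ* ν j) (fun z => (z j).1 = c) :=
    at_nu h hp j (at_cut (fun z => (z j).2 = c) v) fun x y hx hxy => by
      rw [hxy.2.1]
      exact hx
  have h4 : At π p (cut π p (fun z => ¬(z j).2 = c) v ᵥ* ν j) (fun z => ¬(z j).1 = c) :=
    at_nu h hp j (at_cut (fun z => ¬(z j).2 = c) v) fun x y hx hxy => by
      rw [hxy.2.1]
      exact hx
  rw [cut_self h3, cut_zero h4, add_zero]

/-- The next edge is one step further. -/
theorem dist_next {V : Type} {T : SimpleGraph V} (hT : T.IsTree) {a c d e : V} {k : ℕ}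
    (h1 : T.dist a c = k) (h2 : T.dist a d = k + 1) (h3 : T.Adj c d) (h4 : T.Adj d e)
    (h5 : e ≠ c) : T.dist a e = k + 2 := by
  have h6 : T.dist c d = 1 := T.dist_eq_one_iff_adj.2 h3
  have h7 : T.dist d e = 1 := T.dist_eq_one_iff_adj.2 h4
  have h8 : T.dist c e = T.dist c d + T.dist d e := by
    rcases hT.dist_eq_dist_add_one_of_adj c h4 with h9 | h9
    · exfalso
      have h10 : T.dist c e = 0 := by omega
      exact h5 ((hT.connected.dist_eq_zero_iff).1 h10).symm
    · omega
  have h9 := LS.tree_dist_add' hT (x := a) (y := c) (z := d) (w := e) (by omega) h8 h3.ne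
  omega

end

/-! ## The complex -/

section

variable {Γ : Type} [Group Γ] {D : Type} [Fintype D] [LinearOrder D] {V : D → Type}
  [∀ i, MulAction Γ (V i)] {T : ∀ i, SimpleGraph (V i)} {h : ∀ i, TreeAct Γ (V i) (T i)}
  {N : Type} [Group N] {π : N →* Γ} {ι : Type} [Fintype ι] [DecidableEq ι] {p : ι → Pos V}
  {ν : D → Matrix ι ι (ZM N)} {n : ℤ} {S : Tg (SP h) π Finset.univ}

theorem inj0_zero : inj0 (D := D) N (0 : ι → ZM N) = 0 := by
  funext a
  exact ite_self _

theorem inj0_add (v w : ι → ZM N) :
    inj0 (D := D) N (v + w) = inj0 (D := D) N v + inj0 (D := D) N w := by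
  funext a
  change (if a.2 = ∅ then (v + w) a.1 else 0) =
    (if a.2 = ∅ then v a.1 else 0) + (if a.2 = ∅ then w a.1 else 0)
  split_ifs
  · rfl
  · rw [add_zero]

/-- The map `v ↦ lin g (inj0 v)`. -/
noncomputable def GG (g : ι × Finset D → S.V) : (ι → ZM N) →+ S.V where
  toFun v := lin (N := N) g (inj0 N v)
  map_zero' := by rw [inj0_zero, map_zero]
  map_add' v w := by rw [inj0_add, map_add]

/-- The vector `v` in the face `{i}`. -/
noncomputable def inj1 (i : D) (v : ι → ZM N) : ι × Finset D → ZM N := fun a => if a.2 = {i} then v a.1 else 0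

theorem vm_inj0 (v : ι → ZM N) : (inj0 N v : ι × Finset D → ZM N) ᵥ* (Kc h N n p ν).d = 0 := by
  funext b
  change ∑ a : ι × Finset D, inj0 N v a * (Kc h N n p ν).d a b = 0
  refine Finset.sum_eq_zero fun a _ => ?_
  by_cases ha : a.2 = ∅
  · have h1 : (Kc h N n p ν).d a b = 0 := by
      change (∑ i ∈ a.2, if b.2 = a.2.erase i then
        eps n i a.2 • ((if a.1 = b.1 then 1 else 0) - ν i a.1 b.1) else 0) = 0
      rw [ha, Finset.sum_empty]
    rw [h1, mul_zero]
  · rw [inj0, if_neg ha, zero_mul]

theorem vm_inj1 (i : D) (v : ι → ZM N) : inj1 i v ᵥ* (Kc h N n p ν).d =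
    eps n i {i} • (inj0 N (v - v ᵥ* ν i) : ι × Finset D → ZM N) := by
  suffices hs : ∀ b : ι × Finset D, ∑ a : ι × Finset D, inj1 i v a * (Kc h N n p ν).d a b =
      eps n i {i} • (inj0 N (v - v ᵥ* ν i) b : ZM N) from funext hs
  intro b
  rw [Fintype.sum_prod_type]
  have h1 : ∀ l : ι, ∑ φ : Finset D, inj1 i v (l, φ) * (Kc h N n p ν).d (l, φ) b =
      v l * (if b.2 = ∅ then eps n i {i} • ((if l = b.1 then 1 else 0) - ν i l b.1) else 0) := by
    intro l
    rw [Finset.sum_eq_single {i}]
    · have h2 : (Kc h N n p ν).d (l, {i}) b =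
          (if b.2 = ∅ then eps n i {i} • ((if l = b.1 then 1 else 0) - ν i l b.1) else 0) := by
        change (∑ k ∈ ({i} : Finset D), if b.2 = ({i} : Finset D).erase k then
          eps n k {i} • ((if l = b.1 then 1 else 0) - ν k l b.1) else 0) = _
        rw [Finset.sum_singleton, Finset.erase_singleton]
      rw [h2, inj1, if_pos rfl]
    · intro φ _ hφ
      rw [inj1, if_neg hφ, zero_mul]
    · intro hn
      exact absurd (Finset.mem_univ _) hn
  rw [Finset.sum_congr rfl fun l _ => h1 l]
  unfold inj0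
  by_cases hb : b.2 = ∅
  · simp only [hb, if_true]
    rw [Pi.sub_apply]
    have h2 : (v ᵥ* ν i) b.1 = ∑ l, v l * ν i l b.1 := rfl
    have h3 : v b.1 = ∑ l, v l * (if l = b.1 then 1 else 0) := by
      rw [Finset.sum_eq_single b.1]
      · rw [if_pos rfl, mul_one]
      · intro l _ hl
        rw [if_neg hl, mul_zero]
      · intro hn
        exact absurd (Finset.mem_univ _) hn
    rw [h2, h3, ← Finset.sum_sub_distrib, Finset.smul_sum]
    refine Finset.sum_congr rfl fun l _ => ?_
    rw [mul_smul_comm, mul_sub]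
  · simp only [hb, if_false, mul_zero, Finset.sum_const_zero, smul_zero]

theorem upd_le {B : Sz (SP h)} {j : D} {A : Sub (h j)} {C : Sz (SP h)}
    (h1 : ∀ i, i ≠ j → B i ≤ C i) (h2 : A ≤ C j) (i : D) : upd B j A i ≤ C i := by
  by_cases hij : i = j
  · subst hij
    rw [upd, Function.update_self]
    exact h2
  · rw [upd, Function.update_of_ne hij]
    exact h1 i hij

theorem smul_sx (hp : ∀ l, OE T (p l)) (l : ι) (m : N) (φ : Finset D) (i : D) :
    π m • sx h (p l) φ i = sx h (π m • p l) φ i := by
  unfold sx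
  split_ifs
  · exact smul_vtx (h i) _ _
  · exact smul_edg (h i) _ (hp l i)

variable (hp : FrOk T π p ν) {g : (Kc h N n p ν).ι → S.V} (hg : ChT (Kc h N n p ν) S g)

include hp hg

theorem gg_Zc {C : Sz (SP h)} {u : ι → ZM N}
    (hu : At π p u (fun z => ∀ i, C i ≤ edg (h i) (z i).1 (z i).2)) :
    GG (S := S) g u ∈ S.Zc n C := by
  refine hg.mem_Zc (x := inj0 N u) ⟨?_, vm_inj0 u⟩
  rintro ⟨l, φ⟩ m hm
  by_cases hφ : φ = ∅
  · subst hφ
    have h1 : (u l).coeff m ≠ 0 := hm
    refine ⟨?_, fun i _ => ?_⟩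
    · change n + ((∅ : Finset D).card : ℤ) = n
      rw [Finset.card_empty, Nat.cast_zero, add_zero]
    · change C i ≤ π m • sx h (p l) ∅ i
      rw [smul_sx hp.oe, sx, if_neg (Finset.notMem_empty i)]
      exact hu l m h1 i
  · exfalso
    apply hm
    change (if φ = ∅ then u l else 0).coeff m = 0
    rw [if_neg hφ]
    rfl

theorem gg_star {B : Sz (SP h)} {j : D} {c : V j} {u : ι → ZM N}
    (hu : At π p u (fun z => ∀ i, i ≠ j → B i ≤ edg (h i) (z i).1 (z i).2))
    (hc : At π p u (fun z => (z j).2 = c)) :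
    GG (S := S) g u - GG (S := S) g (u ᵥ* ν j) ∈ S.Bc n (upd B j (vtx (h j) c)) := by
  have h1 : (inj1 j u : ι × Finset D → ZM N) ∈ fam π Finset.univ (Kc h N n p ν).toOb
      (upd B j (vtx (h j) c)) (n + 1) := by
    rintro ⟨l, φ⟩ m hm
    by_cases hφ : φ = {j}
    · subst hφ
      have h1 : (u l).coeff m ≠ 0 := by
        have h2 : (inj1 j u : ι × Finset D → ZM N) (l, {j}) = u l := if_pos rfl
        rw [← h2]
        exact hm
      refine ⟨?_, fun i _ => ?_⟩
      · change n + (({j} : Finset D).card : ℤ) = n + 1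
        rw [Finset.card_singleton, Nat.cast_one]
      · change upd B j (vtx (h j) c) i ≤ π m • sx h (p l) {j} i
        rw [smul_sx hp.oe]
        refine upd_le (C := sx h (π m • p l) {j}) (fun i hi => ?_) ?_ i
        · rw [sx, if_neg fun hn => hi (Finset.mem_singleton.1 hn)]
          exact hu l m h1 i hi
        · rw [sx, if_pos (Finset.mem_singleton_self j), hc l m h1]
    · exfalso
      apply hm
      change (if φ = {j} then u l else 0).coeff m = 0
      rw [if_neg hφ]
      rfl
  have h2 := hg.mem h1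
  have h3 : lin (N := N) (ι := ι × Finset D) g (eps n j {j} • inj0 N (u - u ᵥ* ν j)) =
      S.d (lin (N := N) (ι := ι × Finset D) g (inj1 j u)) := by
    have h4 := congrArg (lin (N := N) (ι := (Kc h N n p ν).ι) g)
      (vm_inj1 (h := h) (p := p) (ν := ν) (n := n) j u)
    exact h4.symm.trans (hg.2 (inj1 j u))
  rw [map_zsmul] at h3
  have h4 : GG (S := S) g (u - u ᵥ* ν j) = GG (S := S) g u - GG (S := S) g (u ᵥ* ν j) :=
    map_sub _ _ _
  have h5 : eps n j {j} * eps n j {j} = 1 := by
    unfold eps sgn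
    rw [← Units.val_mul, Int.units_mul_self, Units.val_one]
  have h6 : GG (S := S) g (u - u ᵥ* ν j) =
      eps n j {j} • S.d (lin (N := N) (ι := ι × Finset D) g (inj1 j u)) := by
    rw [← h3, smul_smul, h5, one_smul]
    rfl
  have h7 : S.d (lin (N := N) (ι := ι × Finset D) g (inj1 j u)) ∈
      S.Bc n (upd B j (vtx (h j) c)) := ⟨_, h2, rfl⟩
  rw [← h4, h6]
  exact AddSubgroup.zsmul_mem _ h7 _

/-- Separation of the edge `(a, b)`. -/
theorem sep_edge {j : D} (hF : InF j (S.Zc n) (S.Bc n)) {a b : V j} (hab : (T j).Adj a b)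
    {B : Sz (SP h)} {v : ι → ZM N}
    (hB : At π p v (fun z => ∀ i, i ≠ j → B i ≤ edg (h i) (z i).1 (z i).2))
    (hv : At π p v (fun z => (z j).1 = a ∨ z j = (b, a)))
    (hG : GG (S := S) g v ∈ S.Bc n (upd B j (vtx (h j) a))) :
    GG (S := S) g (cut π p (fun z => z j = (a, b)) v) ∈ S.Bc n (upd B j (edg (h j) a b)) := by
  classical
  obtain ⟨K, hK⟩ := hp.nil j
  have hne : a ≠ b := hab.ne
  have hadj := at_adj (π := π) h hp j
  set G := GG (S := S) g with hGdef
  set w : ℕ → ι → ZM N := fun k => v ᵥ* (ν j) ^ k with hw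
  have hw0 : w 0 = v := by
    change v ᵥ* (ν j) ^ 0 = v
    rw [pow_zero, Matrix.vecMul_one]
  have hwS : ∀ k, w (k + 1) = w k ᵥ* ν j := by
    intro k
    change v ᵥ* (ν j) ^ (k + 1) = (v ᵥ* (ν j) ^ k) ᵥ* ν j
    rw [Matrix.vecMul_vecMul, pow_succ]
  have hwK : w (K + 1) = 0 := by
    change v ᵥ* (ν j) ^ (K + 1) = 0
    rw [pow_succ, hK, zero_mul, Matrix.vecMul_zero]
  have hBw : ∀ k, At π p (w k) (fun z => ∀ i, i ≠ j → B i ≤ edg (h i) (z i).1 (z i).2) := by
    intro k
    induction k with
    | zero => rw [hw0]; exact hB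
    | succ k ih =>
      rw [hwS]
      refine at_nu h hp j ih fun x y hx hxy i hi => ?_
      rw [hxy.1 i hi]
      exact hx i hi
  have hdw : ∀ k, At π p (w k) (fun z => ∃ a', (a' = a ∨ a' = b) ∧
      (T j).dist a' (z j).1 = k ∧ (T j).dist a' (z j).2 = k + 1) := by
    intro k
    induction k with
    | zero =>
      rw [hw0]
      refine ((hadj v).and hv).mono fun z hz => ?_
      obtain ⟨h1, h2 | h2⟩ := hz
      · refine ⟨a, Or.inl rfl, ?_, ?_⟩
        · rw [h2, SimpleGraph.dist_self]
        · rw [h2] at h1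
          rw [zero_add, SimpleGraph.dist_eq_one_iff_adj]
          exact h1
      · refine ⟨b, Or.inr rfl, ?_, ?_⟩
        · rw [h2, SimpleGraph.dist_self]
        · rw [h2, zero_add, SimpleGraph.dist_eq_one_iff_adj]
          exact hab.symm
    | succ k ih =>
      rw [hwS]
      refine at_nu h hp j ((hadj _).and ih) fun x y hx hxy => ?_
      obtain ⟨h1, a', ha', h2, h3⟩ := hx
      refine ⟨a', ha', ?_, ?_⟩
      · rw [hxy.2.1]
        exact h3
      · have h4 := hxy.2.2.1
        rw [hxy.2.1] at h4
        exact dist_next (h j).tree h2 h3 h1 h4 hxy.2.2.2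
  have hcut : ∀ k, cut π p (fun z => z j = (a, b)) (w (k + 1)) = 0 ∧
      cut π p (fun z => z j = (b, a)) (w (k + 1)) = 0 := by
    intro k
    constructor
    · refine cut_zero ((hdw (k + 1)).mono fun z hz hn => ?_)
      obtain ⟨a', rfl | rfl, h2, h3⟩ := hz
      · rw [hn, SimpleGraph.dist_self] at h2
        omega
      · rw [hn, SimpleGraph.dist_self] at h3
        omega
    · refine cut_zero ((hdw (k + 1)).mono fun z hz hn => ?_)
      obtain ⟨a', rfl | rfl, h2, h3⟩ := hz
      · rw [hn, SimpleGraph.dist_self] at h3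
        omega
      · rw [hn, SimpleGraph.dist_self] at h2
        omega
  set H := G (cut π p (fun z => z j = (b, a)) v) with hH
  have hf1 := (stFlow2 (V j) (T j) S.V).2.2.2.1 ℕ (Finset.range (K + 1))
    (fun k => E π p G j (w k)) fun k _ => isFlow_E G j (hadj (w k))
  have hf2 := Flowaux.isFlow_elem hab H
  set y : V j → V j → S.V := fun c d => (∑ k ∈ Finset.range (K + 1), E π p G j (w k) c d) +
    Flowaux.elem a b H c d with hy
  have hfy : IsFlow (T j) y := Flowaux.isFlow_add hf1.1 hf2
  have hZ : ∀ (k : ℕ) (c d : V j), G (cut π p (fun z => z j = (c, d)) (w k)) ∈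
      S.Zc n (upd B j (edg (h j) c d)) := by
    intro k c d
    refine gg_Zc hp hg ((((hBw k).cut _).and (at_cut (fun z => z j = (c, d)) (w k))).mono ?_)
    intro z hz
    refine upd_le (C := fun i => edg (h i) (z i).1 (z i).2) hz.1 ?_
    rw [hz.2]
  have hyZ : ∀ c d, (T j).Adj c d → y c d ∈ S.Zc n (upd B j (edg (h j) c d)) := by
    intro c d hcd
    refine AddSubgroup.add_mem _ (AddSubgroup.sum_mem _ fun k _ => ?_) ?_
    · refine AddSubgroup.sub_mem _ (hZ k c d) ?_
      rw [edg_comm (h j) hcd]
      exact hZ k d c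
    · have hHZ : H ∈ S.Zc n (upd B j (edg (h j) b a)) := by
        have h1 := hZ 0 b a
        rw [hw0] at h1
        exact h1
      unfold Flowaux.elem
      refine AddSubgroup.sub_mem _ ?_ ?_
      · split_ifs with h1
        · rw [h1.1, h1.2, edg_comm (h j) hab]
          exact hHZ
        · exact AddSubgroup.zero_mem _
      · split_ifs with h1
        · rw [h1.1, h1.2]
          exact hHZ
        · exact AddSubgroup.zero_mem _
  have hyB : ∀ c, bd y c ∈ S.Bc n (upd B j (vtx (h j) c)) := by
    intro c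
    have h1 : bd y c = (∑ k ∈ Finset.range (K + 1), bd (E π p G j (w k)) c) +
        ((if c = b then H else 0) - (if c = a then H else 0)) := by
      rw [hy, Flowaux.bd_add hf1.1 hf2, hf1.2, Flowaux.bd_elem hab]
    set s : ℕ → S.V := fun k => G (cut π p (fun z => (z j).1 = c) (w k)) with hs
    set r : ℕ → S.V := fun k => G (cut π p (fun z => (z j).2 = c) (w k)) with hr
    have h2 : ∀ k, bd (E π p G j (w k)) c = (r k - s (k + 1)) + (s (k + 1) - s k) := by
      intro k
      rw [bd_E]
      change r k - s k = _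
      abel
    have h3 : s (K + 1) = 0 := by
      change G (cut π p (fun z => (z j).1 = c) (w (K + 1))) = 0
      rw [hwK, map_zero, map_zero]
    have h4 : ∀ k, r k - s (k + 1) ∈ S.Bc n (upd B j (vtx (h j) c)) := by
      intro k
      change G (cut π p (fun z => (z j).2 = c) (w k)) -
        G (cut π p (fun z => (z j).1 = c) (w (k + 1))) ∈ _
      rw [hwS, cut_nu h hp]
      exact gg_star hp hg ((hBw k).cut _) (at_cut (fun z => (z j).2 = c) (w k))
    rw [h1, Finset.sum_congr rfl fun k _ => h2 k, Finset.sum_add_distrib, Finset.sum_range_sub,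
      h3, zero_sub, add_assoc]
    refine AddSubgroup.add_mem _ (AddSubgroup.sum_mem _ fun k _ => h4 k) ?_
    have h5 : s 0 = G (cut π p (fun z => (z j).1 = c) v) := by
      change G (cut π p (fun z => (z j).1 = c) (w 0)) = _
      rw [hw0]
    rw [h5]
    by_cases hca : c = a
    · subst hca
      rw [if_neg hne, if_pos rfl, zero_sub, ← neg_add, hH, ← map_add]
      rw [cut_add_of (Q := fun z => (z j).1 = c) (Q' := fun z => z j = (b, c))]
      · exact AddSubgroup.neg_mem _ hG
      · refine hv.mono fun z hz => ?_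
        rcases hz with h6 | h6
        · refine Or.inl ⟨h6, fun h7 => hne ?_⟩
          rw [← h6, h7]
        · refine Or.inr ⟨fun h7 => hne ?_, h6⟩
          rw [← h7, h6]
    · by_cases hcb : c = b
      · subst hcb
        rw [if_pos rfl, if_neg hca, sub_zero]
        rw [cut_congr (Q := fun z => (z j).1 = c) (Q' := fun z => z j = (c, a))]
        · rw [neg_add_cancel]
          exact AddSubgroup.zero_mem _
        · refine hv.mono fun z hz => ?_
          rcases hz with h6 | h6
          · constructor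
            · intro h7
              exact absurd (h7.symm.trans h6) hca
            · intro h7
              rw [h7]
          · constructor
            · intro _
              exact h6
            · intro h7
              rw [h7]
      · rw [if_neg hca, if_neg hcb, sub_zero, add_zero]
        rw [cut_zero (Q := fun z => (z j).1 = c)]
        · rw [map_zero, neg_zero]
          exact AddSubgroup.zero_mem _
        · refine hv.mono fun z hz h7 => ?_
          rcases hz with h6 | h6
          · exact hca (h7.symm.trans h6)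
          · rw [h6] at h7
            exact hcb h7.symm
  have hfin := hF B y hfy hyZ hyB a b hab
  have h1 : y a b = G (cut π p (fun z => z j = (a, b)) v) := by
    change (∑ k ∈ Finset.range (K + 1), E π p G j (w k) a b) + Flowaux.elem a b H a b = _
    rw [Finset.sum_range_succ', Finset.sum_eq_zero, zero_add, hw0]
    · unfold E Flowaux.elem
      rw [if_pos ⟨rfl, rfl⟩, if_neg fun h2 => hne h2.1, sub_zero, ← hH, sub_add_cancel]
    · intro k _
      unfold E
      rw [(hcut k).1, (hcut k).2, sub_self]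
  rw [← h1]
  exact hfin

/-- Separation in the direction `j`. -/
theorem sep_dir {j : D} (hF : InF j (S.Zc n) (S.Bc n)) {B : Sz (SP h)} {v : ι → ZM N}
    (hB : At π p v (fun z => (∀ i, B i ≤ edg (h i) (z i).1 (z i).2) ∧
      (IsV (h j) (B j) → B j = vtx (h j) (z j).1)))
    (hG : GG (S := S) g v ∈ S.Bc n B) (o : V j × V j) :
    GG (S := S) g (cut π p (fun z => z j = o) v) ∈ S.Bc n (upd B j (edg (h j) o.1 o.2)) := by
  by_cases h0 : cut π p (fun z => z j = o) v = 0
  · rw [h0, map_zero]
    exact AddSubgroup.zero_mem _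
  obtain ⟨l, m, hm⟩ := exists_coeff_ne h0
  obtain ⟨h1, h2⟩ := cut_coeff_ne hm
  have h3 := at_adj (π := π) h hp j v l m h2
  obtain ⟨h4, h5⟩ := hB l m h2
  have h6 := h4 j
  have hB' : At π p v (fun z => ∀ i, i ≠ j → B i ≤ edg (h i) (z i).1 (z i).2) :=
    hB.mono fun z hz i _ => hz.1 i
  obtain ⟨a, b⟩ := o
  generalize hz : π m • p l = z at *
  have h1' : z j = (a, b) := h1
  rw [h1'] at h3 h6 h5
  have hab : (T j).Adj a b := h3
  change GG (S := S) g (cut π p (fun z => z j = (a, b)) v) ∈
    S.Bc n (upd B j (edg (h j) a b))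
  by_cases hV : IsV (h j) (B j)
  · have h7 : B j = vtx (h j) a := h5 hV
    refine sep_edge hp hg hF hab hB' (hB.mono fun x hx => Or.inl ?_) ?_
    · have h8 := hx.2 hV
      rw [h7] at h8
      have h9 := congrArg Sub.set h8
      rw [vtx_set, vtx_set, Set.singleton_eq_singleton_iff] at h9
      exact h9.symm
    · rw [← h7, upd, Function.update_eq_self]
      exact hG
  · have h7 : (B j).set ⊆ {a, b} := by
      rw [← edg_set (h j) hab]
      exact h6
    have h8 : a ∈ (B j).set ∧ b ∈ (B j).set := by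
      obtain ⟨x, hx⟩ := (B j).2.2.1
      change x ∈ (B j).set at hx
      constructor
      · by_contra hn
        apply hV
        refine ⟨b, Sub.ext' ?_⟩
        rw [vtx_set]
        have h9 : ∀ x ∈ (B j).set, x = b := by
          intro x hx
          rcases h7 hx with h10 | h10
          · rw [h10] at hx
            exact absurd hx hn
          · exact h10
        ext x'
        constructor
        · exact fun h10 => h9 x' h10
        · intro h10
          rw [Set.mem_singleton_iff] at h10
          rw [h10, ← h9 x hx]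
          exact hx
      · by_contra hn
        apply hV
        refine ⟨a, Sub.ext' ?_⟩
        rw [vtx_set]
        have h9 : ∀ x ∈ (B j).set, x = a := by
          intro x hx
          rcases h7 hx with h10 | h10
          · exact h10
          · rw [Set.mem_singleton_iff] at h10
            rw [h10] at hx
            exact absurd hx hn
        ext x'
        constructor
        · exact fun h10 => h9 x' h10
        · intro h10
          rw [Set.mem_singleton_iff] at h10
          rw [h10, ← h9 x hx]
          exact hx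
    refine sep_edge hp hg hF hab hB' ?_ ?_
    · refine ((at_adj (π := π) h hp j v).and hB).mono fun x hx => ?_
      have h9 := hx.2.1 j
      rw [Sub.le_iff, edg_set (h j) hx.1] at h9
      have h10 := h9 h8.1
      have h11 := h9 h8.2
      rcases h10 with h10 | h10
      · exact Or.inl h10.symm
      · rw [Set.mem_singleton_iff] at h10
        rcases h11 with h11 | h11
        · exact Or.inr (Prod.ext h11.symm h10.symm)
        · rw [Set.mem_singleton_iff] at h11
          exact absurd (h10.trans h11.symm) hab.ne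
    · refine S.Bc_anti n (fun i _ => ?_) hG
      exact upd_le (fun i _ => le_refl _) ((vtx_le (h j)).2 h8.1) i

theorem sep_all (hF : ∀ i, InF i (S.Zc n) (S.Bc n)) {B : Sz (SP h)} {v : ι → ZM N}
    (hB : At π p v (fun z => (∀ i, B i ≤ edg (h i) (z i).1 (z i).2) ∧
      ∀ i, IsV (h i) (B i) → B i = vtx (h i) (z i).1))
    (hG : GG (S := S) g v ∈ S.Bc n B) (x : Pos V) (J : Finset D) :
    GG (S := S) g (cut π p (fun z => ∀ i ∈ J, z i = x i) v) ∈
      S.Bc n (fun i => if i ∈ J then edg (h i) (x i).1 (x i).2 else B i) := by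
  classical
  induction J using Finset.induction_on with
  | empty =>
    rw [cut_self (hB.mono fun z _ i hi => absurd hi (Finset.notMem_empty i))]
    have h1 : (fun i => if i ∈ (∅ : Finset D) then edg (h i) (x i).1 (x i).2 else B i) = B := by
      funext i
      rw [if_neg (Finset.notMem_empty i)]
    rw [h1]
    exact hG
  | insert j J hj ih =>
    have h1 := sep_dir hp hg (hF j) (B := fun i => if i ∈ J then edg (h i) (x i).1 (x i).2 else B i)
      (v := cut π p (fun z => ∀ i ∈ J, z i = x i) v) ?_ ih (x j)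
    · rw [cut_cut] at h1
      have h2 : cut π p (fun z => z j = x j ∧ ∀ i ∈ J, z i = x i) v =
          cut π p (fun z => ∀ i ∈ insert j J, z i = x i) v := by
        refine cut_congr fun l m _ => ?_
        exact (Finset.forall_mem_insert j J fun i => (π m • p l) i = x i).symm
      rw [h2] at h1
      have h3 : upd (h := h) (fun i => if i ∈ J then edg (h i) (x i).1 (x i).2 else B i) j
          (edg (h j) (x j).1 (x j).2) =
          fun i => if i ∈ insert j J then edg (h i) (x i).1 (x i).2 else B i := by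
        funext i
        by_cases hij : i = j
        · subst hij
          rw [upd, Function.update_self, if_pos (Finset.mem_insert_self i J)]
        · rw [upd, Function.update_of_ne hij]
          by_cases hi : i ∈ J
          · rw [if_pos hi, if_pos (Finset.mem_insert_of_mem hi)]
          · rw [if_neg hi, if_neg fun h4 => hi (Finset.mem_of_mem_insert_of_ne h4 hij)]
      rw [h3] at h1
      exact h1
    · refine ((hB.cut _).and (at_cut (fun z => ∀ i ∈ J, z i = x i) v)).mono fun z hz => ?_
      refine ⟨fun i => ?_, fun hV => ?_⟩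
      · by_cases hi : i ∈ J
        · rw [if_pos hi, hz.2 i hi]
        · rw [if_neg hi]
          exact hz.1.1 i
      · rw [if_neg hj] at hV ⊢
        exact hz.1.2 j hV

end

end KSepA

open KSepA in
/-- Module KSep. Separation of the positions. -/
theorem stKSep : StKSep := by
  intro Γ _ D _ _ V _ T h N _ π S ι _ _ p ν n hp g hg hF B v hB hG x
  have h1 : At π p v (fun z => (∀ i, B i ≤ edg (h i) (z i).1 (z i).2) ∧
      ∀ i, IsV (h i) (B i) → B i = vtx (h i) (z i).1) := by
    intro l m hm
    refine hB (π m • p l) fun h0 => hm ?_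
    classical
    have h2 := frPr_coeff (π := π) (p := p) (π m • p l) v l m
    rw [h0, if_pos rfl] at h2
    rw [← h2]
    rfl
  have h2 := sep_all hp hg hF h1 hG x Finset.univ
  have h3 : cut π p (fun z => ∀ i ∈ Finset.univ, z i = x i) v = frPr π p x v := by
    classical
    funext l
    refine zm_ext fun m => ?_
    rw [cut_coeff, frPr_coeff]
    have h4 : (∀ i ∈ Finset.univ, (π m • p l) i = x i) ↔ π m • p l = x :=
      ⟨fun h => funext fun i => h i (Finset.mem_univ i), fun h i _ => by rw [h]⟩
    by_cases h5 : π m • p l = x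
    · rw [if_pos h5]
      exact if_pos (h4.2 h5)
    · rw [if_neg h5]
      exact if_neg fun h6 => h5 (h4.1 h6)
  have h4 : (fun i => if i ∈ Finset.univ then edg (h i) (x i).1 (x i).2 else B i) =
      sx h x ∅ := by
    funext i
    rw [if_pos (Finset.mem_univ i), sx, if_neg (Finset.notMem_empty i)]
  rw [h3, h4] at h2
  exact h2

end Pool.Agent.Lib.MP_551055_al.W17
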