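import Mathlib
import Pool.Agent.Lib.MP_551055_al.Trim.MT.CC
import Pool.Agent.Lib.MP_551055_al.Trim.W17.Asm
import Pool.Agent.Lib.MP_551055_al.Trim.W17.FT
import Pool.Agent.Lib.MP_551055_al.Trim.W17.KGam
import Pool.Agent.Lib.MP_551055_al.Trim.W17.KLat
import Pool.Agent.Lib.MP_551055_al.Trim.W17.KR
import Pool.Agent.Lib.MP_551055_al.Trim.W17.KSep
import Pool.Agent.Lib.MP_551055_al.Trim.W17.StK
import Pool.Agent.Lib.MP_551055_al.Trim.W17.TL

/-!
# Trees and products: the theorems
-/

set_option autoImplicit false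

namespace Pool.Agent.Lib.MP_551055_al.W17

theorem wKGam : StKGam := stKGam stKSep

theorem wKLat : StKLat := stKLat MT.stCC wLtCone

theorem wKR : StKR := stKR

/-- Theorem T. -/
theorem t : StT := wT wKGam wKLat wKR

/-- Theorem T with long segments. -/
theorem tL : StTL := wTL wKGam wKLat wKR

end Pool.Agent.Lib.MP_551055_al.W17
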