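import Mathlib
import Pool.Agent.Lib.MP_551055_al.Trim.LS.BassProj
import Pool.Agent.Lib.MP_551055_al.Trim.LS.PStmts
import Pool.Agent.Lib.MP_551055_al.Trim.LS.Stmts
import Pool.Agent.Lib.MP_551055_al.Trim.MT.Defs
import Pool.Agent.Lib.MP_551055_al.Trim.MT.Trees
import Pool.Agent.Lib.MP_551055_al.Trim.W17.Defs
import Pool.Agent.Lib.MP_551055_al.Trim.W17.StF
import Pool.Agent.Lib.MP_551055_al.Trim.W17.StU

/-!
# Trees and products: module FDn (downward induction over the directions)
-/

set_option autoImplicit false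

set_option linter.unusedSectionVars false

namespace Pool.Agent.Lib.MP_551055_al
end Pool.Agent.Lib.MP_551055_al

namespace Pool.Agent.Lib.MP_551055_al.LS
end Pool.Agent.Lib.MP_551055_al.LS

namespace Pool.Agent.Lib.MP_551055_al.MT
end Pool.Agent.Lib.MP_551055_al.MT

namespace Pool.Agent.Lib.MP_551055_al.W17

open Pool.Agent.Lib.MP_551055_al

open Pool.Agent.Lib.MP_551055_al.LS (TreeAct ZN)

open Pool.Agent.Lib.MP_551055_al.MT

open Matrix

section

variable {Γ : Type} [Group Γ] {D : Type} [DecidableEq D] {V : D → Type} [∀ i, MulAction Γ (V i)]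
  {T : ∀ i, SimpleGraph (V i)} (h : ∀ i, TreeAct Γ (V i) (T i)) {G : Type} [Group G]
  (π : G →* Γ)

theorem mem_stJ_insert {A : ∀ j, Sub (h j)} {J : Finset D} {j : D} (hj : j ∉ J) (B : Sub (h j))
    (g : G) : g ∈ StJ h π (Function.update A j B) (insert j J) ↔
      g ∈ StJ h π A J ∧ π g • B = B := by
  constructor
  · intro hg
    refine ⟨fun k hk => ?_, ?_⟩
    · have h1 := hg k (Finset.mem_insert_of_mem hk)
      have hkj : k ≠ j := fun h0 => hj (h0 ▸ hk)
      rwa [Function.update_of_ne hkj] at h1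
    · have h1 := hg j (Finset.mem_insert_self j J)
      rwa [Function.update_self] at h1
  · rintro ⟨h1, h2⟩ k hk
    rcases Finset.mem_insert.1 hk with rfl | hk
    · rw [Function.update_self]
      exact h2
    · have hkj : k ≠ j := fun h0 => hj (h0 ▸ hk)
      rw [Function.update_of_ne hkj]
      exact h1 k hk

/-- The stabiliser of one more cell. -/
def stJEquiv {A : ∀ j, Sub (h j)} {J : Finset D} {j : D} (hj : j ∉ J) (B : Sub (h j)) :
    StJ h π (Function.update A j B) (insert j J) ≃*
      St (π.comp (StJ h π A J).subtype) B where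
  toFun g := ⟨⟨g.1, ((mem_stJ_insert h π hj B g.1).1 g.2).1⟩,
    ((mem_stJ_insert h π hj B g.1).1 g.2).2⟩
  invFun g := ⟨g.1.1, (mem_stJ_insert h π hj B g.1.1).2 ⟨g.1.2, g.2⟩⟩
  left_inv _ := rfl
  right_inv _ := rfl
  map_mul' _ _ := rfl

/-- All elements fix the empty family. -/
def stJTop (A : ∀ j, Sub (h j)) : StJ h π A ∅ ≃* G where
  toFun g := g.1
  invFun g := ⟨g, fun j hj => absurd hj (Finset.notMem_empty j)⟩
  left_inv _ := rfl
  right_inv _ := rfl
  map_mul' _ _ := rfl

end

/-- Module FDn. -/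
theorem stFDn (h9 : StU9) (hTra : StTra) : StFDn := by
  intro Γ _ D _ V _ T h G _ π U P hUP hyp
  have claim : ∀ (n : ℕ) (J U₁ : Finset D), J ⊆ P → U₁ ⊆ P \ J → (P \ (J ∪ U₁)).card = n →
      ∀ A : ∀ j, Sub (h j), (∀ j ∈ J, Cl (h j) (A j)) →
        LL h (π.comp (StJ h π A J).subtype) (U ∪ U₁) := by
    intro n
    induction n with
    | zero =>
      intro J U₁ hJ hU₁ hn A hA
      have h1 : U₁ = P \ J := by
        refine Finset.Subset.antisymm hU₁ fun k hk => ?_
        rw [Finset.card_eq_zero, Finset.sdiff_eq_empty_iff_subset] at hn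
        rcases Finset.mem_union.1 (hn (Finset.mem_sdiff.1 hk).1) with h2 | h2
        · exact absurd h2 (Finset.mem_sdiff.1 hk).2
        · exact h2
      rw [h1]
      exact hyp J hJ A hA
    | succ n ih =>
      intro J U₁ hJ hU₁ hn A hA
      obtain ⟨j, hj⟩ : (P \ (J ∪ U₁)).Nonempty := by
        rw [← Finset.card_pos, hn]
        exact Nat.succ_pos n
      obtain ⟨hjP, hjJU⟩ := Finset.mem_sdiff.1 hj
      have hjJ : j ∉ J := fun h0 => hjJU (Finset.mem_union_left _ h0)
      have hjU₁ : j ∉ U₁ := fun h0 => hjJU (Finset.mem_union_right _ h0)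
      have hjU : j ∉ U := fun h0 => (Finset.disjoint_left.1 hUP h0) hjP
      have hjUU : j ∉ U ∪ U₁ := fun h0 => (Finset.mem_union.1 h0).elim hjU hjU₁
      have hJ' : insert j J ⊆ P := Finset.insert_subset hjP hJ
      have hU₁' : U₁ ⊆ P \ insert j J := fun k hk => by
        have h1 := Finset.mem_sdiff.1 (hU₁ hk)
        refine Finset.mem_sdiff.2 ⟨h1.1, fun h2 => ?_⟩
        rcases Finset.mem_insert.1 h2 with rfl | h3
        · exact hjU₁ hk
        · exact h1.2 h3
      have hU₂' : insert j U₁ ⊆ P \ J := Finset.insert_subset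
        (Finset.mem_sdiff.2 ⟨hjP, hjJ⟩) hU₁
      have hc1 : (P \ (insert j J ∪ U₁)).card = n := by
        rw [Finset.insert_union, Finset.sdiff_insert, Finset.card_erase_of_mem hj, hn]
        rfl
      have hc2 : (P \ (J ∪ insert j U₁)).card = n := by
        rw [Finset.union_insert, Finset.sdiff_insert, Finset.card_erase_of_mem hj, hn]
        rfl
      refine h9 Γ D V T h (StJ h π A J) (π.comp (StJ h π A J).subtype) (U ∪ U₁) j hjUU ?_ ?_
      · intro B hB
        have h1 := ih (insert j J) U₁ hJ' hU₁' hc1 (Function.update A j B) (by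
          intro k hk
          rcases Finset.mem_insert.1 hk with rfl | hk
          · rw [Function.update_self]
            exact hB
          · have hkj : k ≠ j := fun h0 => hjJ (h0 ▸ hk)
            rw [Function.update_of_ne hkj]
            exact hA k hk)
        exact (hTra Γ D V T h _ _ _ _ (stJEquiv h π hjJ B) (fun g => rfl) (U ∪ U₁)).2.2 h1
      · have h1 := ih J (insert j U₁) hJ hU₂' hc2 A hA
        rwa [Finset.union_insert] at h1
  have hA : ∀ j, Nonempty (Sub (h j)) := fun j =>
    (SzAct.ne (Γ := Γ) (P := SP (fun _ : Unit => h j)) ())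
  let A : ∀ j, Sub (h j) := fun j => (hA j).some
  have h1 := claim _ ∅ ∅ (Finset.empty_subset P) (Finset.empty_subset _) rfl A
    (fun j hj => absurd hj (Finset.notMem_empty j))
  rw [Finset.union_empty] at h1
  exact (hTra Γ D V T h _ _ _ _ (stJTop h π A) (fun g => rfl) U).2.2 h1

end Pool.Agent.Lib.MP_551055_al.W17
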