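import Mathlib
import Pool.Agent.Lib.MP_551055_al.Trim.LS.BassProj
import Pool.Agent.Lib.MP_551055_al.Trim.LS.PStmts
import Pool.Agent.Lib.MP_551055_al.Trim.LS.Stmts
import Pool.Agent.Lib.MP_551055_al.Trim.MT.Defs
import Pool.Agent.Lib.MP_551055_al.Trim.T4.Ind0
import Pool.Agent.Lib.MP_551055_al.Trim.T4.Perf
import Pool.Agent.Lib.MP_551055_al.Trim.T6.Lps
import Pool.Agent.Lib.MP_551055_al.Trim.VNDefs
import Pool.Agent.Lib.MP_551055_al.Trim.W17.DefK
import Pool.Agent.Lib.MP_551055_al.Trim.W17.Defs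
import Pool.Agent.Lib.MP_551055_al.Trim.W17.KT
import Pool.Agent.Lib.MP_551055_al.Trim.W17.StK

/-!
# Trees and products: module KB (dévissage)
-/

set_option autoImplicit false

namespace Pool.Agent.Lib.MP_551055_al
end Pool.Agent.Lib.MP_551055_al

namespace Pool.Agent.Lib.MP_551055_al.LS
end Pool.Agent.Lib.MP_551055_al.LS

namespace Pool.Agent.Lib.MP_551055_al.MT
end Pool.Agent.Lib.MP_551055_al.MT

namespace Pool.Agent.Lib.MP_551055_al.T4
end Pool.Agent.Lib.MP_551055_al.T4

namespace Pool.Agent.Lib.MP_551055_al.T6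
end Pool.Agent.Lib.MP_551055_al.T6

namespace Pool.Agent.Lib.MP_551055_al.W17

open Pool.Agent.Lib.MP_551055_al

open Pool.Agent.Lib.MP_551055_al.LS (TreeAct ZN)

open Pool.Agent.Lib.MP_551055_al.MT

open Pool.Agent.Lib.MP_551055_al.T4 (Perf)

open Pool.Agent.Lib.MP_551055_al.T6 (LPS)

open Matrix

section

variable {Γ : Type} [Group Γ] {D : Type} {V : D → Type} [∀ i, MulAction Γ (V i)]
  {T : ∀ i, SimpleGraph (V i)} {N : Type} [Group N] {π : N →* Γ}

theorem kb_zero (A : Nm T π) (k : ℕ) : Kl A k 0 := by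
  induction k with
  | zero => rfl
  | succ k ih =>
    intro i
    rw [map_zero]
    exact ih

theorem kb_comm (A : Nm T π) (i j : D) (e : ℕ) (m : A.M) :
    (A.nu j ^ e) (A.nu i m) = A.nu i ((A.nu j ^ e) m) := by
  induction e generalizing m with
  | zero => rfl
  | succ e ih =>
    rw [pow_succ]
    change (A.nu j ^ e) (A.nu j (A.nu i m)) = A.nu i ((A.nu j ^ e) (A.nu j m))
    rw [A.comm j i, ih]

/-- All products of sufficiently many operators vanish. -/
theorem kb_kl [Fintype D] [Nonempty D] (A : Nm T π) (s : ℕ) : ∀ e : D → ℕ, ∑ i, e i = s →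
    ∀ m, (∀ i, (A.nu i ^ e i) m = 0) → Kl A s m := by
  classical
  induction s with
  | zero =>
    intro e he m hm
    obtain ⟨i⟩ := ‹Nonempty D›
    have h1 : e i = 0 := (Finset.sum_eq_zero_iff.1 he) i (Finset.mem_univ i)
    have h2 := hm i
    rw [h1] at h2
    exact h2
  | succ s ih =>
    intro e he m hm i
    by_cases hi : e i = 0
    · have h2 := hm i
      rw [hi] at h2
      have h3 : m = 0 := h2
      rw [h3, map_zero]
      exact kb_zero A s
    · refine ih (Function.update e i (e i - 1)) ?_ _ fun j => ?_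
      · have h4 := Finset.sum_update_of_mem (Finset.mem_univ i) e (e i - 1)
        have h5 := Finset.sum_eq_add_sum_sdiff_singleton_of_mem (Finset.mem_univ i) e
        omega
      · by_cases hj : j = i
        · subst hj
          rw [Function.update_self]
          have h6 := hm j
          rw [← Nat.sub_add_cancel (Nat.pos_of_ne_zero hi), pow_succ] at h6
          exact h6
        · rw [Function.update_of_ne hj, kb_comm, hm j, map_zero]

theorem kb_nil [Fintype D] [Nonempty D] (A : Nm T π) : ∃ k, ∀ m, Kl A k m := by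
  choose e he using A.nil
  exact ⟨_, fun m => kb_kl A _ e rfl m fun i => by rw [he]; rfl⟩

/-- The inclusion of the second factor. -/
noncomputable def kbInr (A B : Nm T π) : NmHom B (A.prod B) where
  f := LinearMap.inr (ZM N) A.M B.M
  pr x _ := Prod.ext (map_zero (A.pr x)).symm rfl
  nu i _ := Prod.ext (map_zero (A.nu i)).symm rfl

theorem kb_ex (A B : Nm T π) : NEx (kbInr A B) (NmHom.fst A B) := by
  refine ⟨LinearMap.inr_injective, LinearMap.fst_surjective, fun m => ⟨fun hm => ?_, ?_⟩⟩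
  · exact ⟨m.2, Prod.ext hm.symm rfl⟩
  · rintro ⟨b, rfl⟩
    rfl

end

/-- Module KB. -/
theorem stKB (hF : StKFil) (hT : StKTriv) (hX : StKX1) : StKB := by
  intro Γ _ D _ _ V _ T h N _ π ι _ _ p ν hp A ρ hρ r x hO hP hS hL n
  by_cases hD : Nonempty D
  · obtain ⟨k, hk⟩ := kb_nil (Fr h hp)
    have key : ∀ (k : ℕ) (A : Nm T π) (ρ : NmHom A (Fr h hp)),
        (∀ m, ρ.f m = 0 → ∀ i, A.nu i m = 0) → (∀ m, Kl (Fr h hp) k (ρ.f m)) →
        Orb A x → (∀ i, Perf (ZM (St π (x i))) (A.part (x i))) → InC h π (KT h A n) := by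
      intro k
      induction k with
      | zero =>
        intro A ρ hρ hk hO hP
        exact hT Γ D V T h N π A (fun i m => hρ m (hk m) i) r x hO hP hS n
      | succ k ih =>
        intro A ρ hρ hk hO hP
        obtain ⟨ι', _, _, p', hp', B, C, σ, τ, hE, hC, hOB, hOC, hOY, hPB, hPC, hPY, hkB, hρB⟩ :=
          hF Γ D V T h N π ι p ν hp k A ρ hρ hk r x hO hP (hL hD)
        have hY : (Fr h hp').Triv := by
          intro i v
          change v ᵥ* (0 : Matrix _ _ (ZM N)) = 0
          exact Matrix.vecMul_zero _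
        have h1 : InC h π (KT h B n) := ih B _ hρB hkB hOB hPB
        have h2 : InC h π (KT h C n) := hT Γ D V T h N π C hC r x hOC hPC hS n
        have h3 : InC h π (KT h (Fr h hp') n) :=
          hT Γ D V T h N π (Fr h hp') hY r x hOY hPY hS n
        have h4 : InC h π (KT h (A.prod (Fr h hp')) n) :=
          (hX Γ D V T h N π _ _ _ σ τ hE n).2.1 h1 h2
        exact (hX Γ D V T h N π _ _ _ _ _ (kb_ex A (Fr h hp')) n).1 h3 h4
    exact key k A ρ hρ (fun m => hk _) hO hP
  · exact hT Γ D V T h N π A (fun i => absurd ⟨i⟩ hD) r x hO hP hS n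

end Pool.Agent.Lib.MP_551055_al.W17
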