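import Mathlib
import Pool.Agent.Lib.MP_551055_al.Trim.LS.PStmts
import Pool.Agent.Lib.MP_551055_al.Trim.LS.Stmts
import Pool.Agent.Lib.MP_551055_al.Trim.MT.Defs
import Pool.Agent.Lib.MP_551055_al.Trim.MT.Map
import Pool.Agent.Lib.MP_551055_al.Trim.W17.Defs
import Pool.Agent.Lib.MP_551055_al.Trim.W17.StU

/-!
# Trees and products: complexes with constant sizes in one direction

`X ↦ (X.withSz (sizes A in the direction j)).map φ`, and the converse construction.
-/

set_option autoImplicit false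

namespace Pool.Agent.Lib.MP_551055_al
end Pool.Agent.Lib.MP_551055_al

namespace Pool.Agent.Lib.MP_551055_al.LS
end Pool.Agent.Lib.MP_551055_al.LS

namespace Pool.Agent.Lib.MP_551055_al.MT
end Pool.Agent.Lib.MP_551055_al.MT

namespace Pool.Agent.Lib.MP_551055_al.W17

open Pool.Agent.Lib.MP_551055_al

open Pool.Agent.Lib.MP_551055_al.LS (TreeAct ZN)

open Pool.Agent.Lib.MP_551055_al.MT

open Matrix

section

variable {Γ : Type} [Group Γ] {D : Type} [DecidableEq D] {P : D → Type}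
  [∀ i, PartialOrder (P i)] [∀ i, MulAction Γ (P i)] {N N' : Type} [Monoid N] [Monoid N']

/-- The sizes in the direction `j` become `A`, the ring is changed along `φ`. -/
noncomputable abbrev setJ (j : D) (A : P j) (φ : N' →* N) (X : Co P N') : Co P N :=
  (X.withSz fun l => Function.update (X.sz l) j A).map (mdh φ)

variable {π : N →* Γ} {π' : N' →* Γ} {φ : N' →* N} {j : D} {A : P j} {V : Finset D} {r : ℤ}

theorem ct_setJ {X Y : Co P N'} {f : Matrix X.ι Y.ι (ZM N')} (hφ : ∀ m, π (φ m) = π' m)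
    (hA : ∀ m, π' m • A = A) (hf : Ct π' V r X.toOb Y.toOb f) :
    Ct π (insert j V) r (setJ j A φ X).toOb (setJ j A φ Y).toOb (f.map (mdh φ)) := by
  intro l k m hm
  obtain ⟨a, ha, h1⟩ := coeff_mdh_ne hm
  obtain ⟨h2, h3⟩ := hf l k a h1
  refine ⟨h2, fun i hi => ?_⟩
  rw [← ha, hφ]
  change Function.update (X.sz l) j A i ≤ π' a • Function.update (Y.sz k) j A i
  by_cases hij : i = j
  · subst hij
    rw [Function.update_self, Function.update_self, hA]
  · rw [Function.update_of_ne hij, Function.update_of_ne hij]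
    exact h3 i (Finset.mem_of_mem_insert_of_ne hi hij)

theorem isCx_setJ {X : Co P N'} (hφ : ∀ m, π (φ m) = π' m) (hA : ∀ m, π' m • A = A)
    (hX : IsCx π' V X) : IsCx π (insert j V) (setJ j A φ X) :=
  ⟨ct_setJ hφ hA hX.1, by
    change X.d.map (mdh φ) * X.d.map (mdh φ) = 0
    rw [← map_mul', hX.2, map_zero']⟩

theorem ch_setJ {X Y : Co P N'} {f : Matrix X.ι Y.ι (ZM N')} (hφ : ∀ m, π (φ m) = π' m)
    (hA : ∀ m, π' m • A = A) (hf : Ch π' V X Y f) :
    Ch π (insert j V) (setJ j A φ X) (setJ j A φ Y) (f.map (mdh φ)) :=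
  ⟨ct_setJ hφ hA hf.1, by
    change X.d.map (mdh φ) * f.map (mdh φ) = f.map (mdh φ) * Y.d.map (mdh φ)
    rw [← map_mul', hf.2, map_mul']⟩

theorem nul_setJ {X Y : Co P N'} {f : Matrix X.ι Y.ι (ZM N')} (hφ : ∀ m, π (φ m) = π' m)
    (hA : ∀ m, π' m • A = A) (hf : Nul π' V X Y f) :
    Nul π (insert j V) (setJ j A φ X) (setJ j A φ Y) (f.map (mdh φ)) := by
  obtain ⟨s, hs, h1⟩ := hf
  refine ⟨s.map (mdh φ), ct_setJ hφ hA hs, ?_⟩
  change f.map (mdh φ) = X.d.map (mdh φ) * s.map (mdh φ) + s.map (mdh φ) * Y.d.map (mdh φ)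
  rw [h1, map_add', map_mul', map_mul']

theorem contr_setJ {X : Co P N'} (hφ : ∀ m, π (φ m) = π' m) (hA : ∀ m, π' m • A = A)
    (hX : Contr π' V X) : Contr π (insert j V) (setJ j A φ X) := by
  have h1 := nul_setJ (A := A) hφ hA hX
  rw [map_one'] at h1
  exact h1

theorem iso_setJ {X Y : Co P N'} {e : Matrix X.ι X.ι (ZM N')} {e' : Matrix Y.ι Y.ι (ZM N')}
    (hφ : ∀ m, π (φ m) = π' m) (hA : ∀ m, π' m • A = A) (hi : Iso π' V X e Y e') :
    Iso π (insert j V) (setJ j A φ X) (e.map (mdh φ)) (setJ j A φ Y) (e'.map (mdh φ)) := by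
  obtain ⟨u, v, hu, hv, h1, h2⟩ := hi
  refine ⟨u.map (mdh φ), v.map (mdh φ), ch_setJ hφ hA hu, ch_setJ hφ hA hv, ?_, ?_⟩
  · have h3 := nul_setJ (A := A) hφ hA h1
    rw [MT.map_sub', map_mul'] at h3
    exact h3
  · have h3 := nul_setJ (A := A) hφ hA h2
    rw [MT.map_sub', map_mul'] at h3
    exact h3

omit [DecidableEq D] in
/-- If all sizes in the direction `j` are `A`, the matrices with control in `j` are defined over the
stabiliser of `A`. -/
theorem desc_setJ [SzRk Γ P] (hD : StDesc) (hφ : ∀ m, π (φ m) = π' m)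
    (hφi : Function.Injective φ) (hφs : ∀ m, π m • A = A → ∃ m', φ m' = m) {X Y : Ob P}
    (hX : ∀ l, X.sz l j = A) (hY : ∀ l, Y.sz l j = A) (hj : j ∈ V)
    {f : Matrix X.ι Y.ι (ZM N)} (hf : Ct π V r X Y f) :
    ∃ f' : Matrix X.ι Y.ι (ZM N'), f'.map (mdh φ) = f ∧ Ct π' V r X Y f' := by
  obtain ⟨f', hf'⟩ := hD N N' φ hφi X.ι Y.ι f fun l k m hm => by
    refine hφs m ?_
    have h1 := (hf l k m hm).2 j hj
    rw [hX, hY] at h1
    obtain ⟨rk, hr1, hr2⟩ := SzRk.rk (Γ := Γ) (P := P)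
    by_contra hne
    have h2 : A < π m • A := lt_of_le_of_ne h1 fun h => hne h.symm
    have h3 := hr1 j _ _ h2
    rw [hr2] at h3
    exact absurd h3 (lt_irrefl _)
  exact ⟨f', hf', Ct.of_map (fun m => hφ m) hφi (by rw [hf']; exact hf)⟩

theorem map_inj' {α β : Type} (hφi : Function.Injective φ) {f g : Matrix α β (ZM N')}
    (h : f.map (mdh φ) = g.map (mdh φ)) : f = g := by
  ext1 a b
  exact mdh_injective hφi (congrFun (congrFun h a) b)

end

/-! ## Cells -/

section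

end

/-! ## The stabiliser -/

section

variable {Γ : Type} [Group Γ] {G : Type} [Group G] (π : G →* Γ) {Z : Type} [MulAction Γ Z]
  (A : Z)

theorem stH_smul (m : St π A) : stH π A m • A = A := m.2

/-- `St × ℤ → G × ℤ`. -/
def phZ : GZ (St π A) →* GZ G := MonoidHom.prodMap (St π A).subtype (MonoidHom.id _)

/-- `St × ℕ → G × ℕ`. -/
def phN : GN (St π A) →* GN G := MonoidHom.prodMap (St π A).subtype (MonoidHom.id _)

theorem pZ_phZ (m : GZ (St π A)) : pZ π (phZ π A m) = pZ (stH π A) m := rfl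

theorem pN_phN (m : GN (St π A)) : pN π (phN π A m) = pN (stH π A) m := rfl

theorem phZ_injective : Function.Injective (phZ π A) := by
  rintro ⟨a, m⟩ ⟨b, n⟩ h
  have h1 : (a : G) = b := congrArg Prod.fst h
  have h2 : m = n := congrArg Prod.snd h
  exact Prod.ext (Subtype.ext h1) h2

theorem phZ_surj (m : GZ G) (hm : pZ π m • A = A) : ∃ m', phZ π A m' = m :=
  ⟨(⟨m.1, hm⟩, m.2), rfl⟩

theorem loc_phN (x : ZM (GN (St π A))) :
    loc G (mdh (phN π A) x) = mdh (phZ π A) (loc (St π A) x) := by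
  have h1 : (hLoc G).comp (phN π A) = (phZ π A).comp (hLoc (St π A)) := rfl
  have h2 : (mdh (hLoc G)).comp (mdh (phN π A)) = (mdh (phZ π A)).comp (mdh (hLoc (St π A))) := by
    have h3 := MonoidAlgebra.mapDomainRingHom_comp (R := ℤ) (hLoc G) (phN π A)
    have h4 := MonoidAlgebra.mapDomainRingHom_comp (R := ℤ) (phZ π A) (hLoc (St π A))
    rw [h1, h4] at h3
    exact h3.symm
  exact congrArg (fun F : ZM (GN (St π A)) →+* ZM (GZ G) => F x) h2

end

end Pool.Agent.Lib.MP_551055_al.W17
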