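import Mathlib
import Pool.Agent.Lib.MP_551055_al.Trim.LS.PStmts
import Pool.Agent.Lib.MP_551055_al.Trim.LS.Stmts
import Pool.Agent.Lib.MP_551055_al.Trim.MT.Defs
import Pool.Agent.Lib.MP_551055_al.Trim.MT.Map
import Pool.Agent.Lib.MP_551055_al.Trim.MT.Trees
import Pool.Agent.Lib.MP_551055_al.Trim.W17.Defs
import Pool.Agent.Lib.MP_551055_al.Trim.W17.StU

/-!
# Trees and products: module Tra (isomorphic groups)
-/

set_option autoImplicit false

namespace Pool.Agent.Lib.MP_551055_al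
end Pool.Agent.Lib.MP_551055_al

namespace Pool.Agent.Lib.MP_551055_al.LS
end Pool.Agent.Lib.MP_551055_al.LS

namespace Pool.Agent.Lib.MP_551055_al.MT
end Pool.Agent.Lib.MP_551055_al.MT

namespace Pool.Agent.Lib.MP_551055_al.W17

open Pool.Agent.Lib.MP_551055_al

open Pool.Agent.Lib.MP_551055_al.LS (TreeAct ZN)

open Pool.Agent.Lib.MP_551055_al.MT

open Matrix

/-! ## Composition of changes of rings -/

section

variable {N N' N'' : Type} [Monoid N] [Monoid N'] [Monoid N'']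

theorem tra_mdh_mdh (a : N →* N') (b : N' →* N'') (x : ZM N) :
    mdh b (mdh a x) = mdh (b.comp a) x := by
  refine MonoidAlgebra.coeff_injective ?_
  rw [mdh_coeff, mdh_coeff, mdh_coeff, ← Finsupp.mapDomain_comp]
  rfl

theorem tra_mdh_id (x : ZM N) : mdh (MonoidHom.id N) x = x := by
  refine MonoidAlgebra.coeff_injective ?_
  rw [mdh_coeff]
  exact Finsupp.mapDomain_id

theorem tra_map_map {α β : Type} (a : N →* N') (b : N' →* N'') (f : Matrix α β (ZM N)) :
    (f.map (mdh a)).map (mdh b) = f.map (mdh (b.comp a)) := by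
  ext1 i j
  exact tra_mdh_mdh a b (f i j)

theorem tra_map_inv {α β : Type} (a : N →* N') (b : N' →* N) (h : b.comp a = MonoidHom.id N)
    (f : Matrix α β (ZM N)) : (f.map (mdh a)).map (mdh b) = f := by
  rw [tra_map_map, h]
  ext1 i j
  exact tra_mdh_id (f i j)

end

section

variable {Γ : Type} [Group Γ] {D : Type} {P : D → Type} [∀ i, PartialOrder (P i)]
  [∀ i, MulAction Γ (P i)] {N : Type} [Monoid N] {π : N →* Γ} {U : Finset D}

/-- Replacing the differential and the idempotent by equal ones. -/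
theorem tra_iso_left (X : Co P N) (d' e' : Matrix X.ι X.ι (ZM N)) (e : Matrix X.ι X.ι (ZM N))
    (Y : Co P N) (hd : d' = X.d) (he : e' = e)
    (h : Iso π U (⟨X.toOb, d'⟩ : Co P N) e' Y 1) : Iso π U X e Y 1 := by
  subst hd
  subst he
  exact h

theorem tra_iso_right (X Y : Co P N) (d' : Matrix Y.ι Y.ι (ZM N)) (hd : d' = Y.d)
    (h : Iso π U X 1 (⟨Y.toOb, d'⟩ : Co P N) 1) : Iso π U X 1 Y 1 := by
  subst hd
  exact h

end

/-! ## `G × ℤ` for isomorphic groups -/

section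

variable {G G' : Type} [Group G] [Group G'] (φ : G →* G')

/-- `G × ℕ → G' × ℕ`. -/
def traN : GN G →* GN G' := MonoidHom.prodMap φ (MonoidHom.id _)

/-- `G × ℤ → G' × ℤ`. -/
def traZ : GZ G →* GZ G' := MonoidHom.prodMap φ (MonoidHom.id _)

theorem traZ_inv (ψ : G' →* G) (h : ψ.comp φ = MonoidHom.id G) :
    (traZ ψ).comp (traZ φ) = MonoidHom.id (GZ G) := by
  refine MonoidHom.ext fun x => ?_
  exact Prod.ext (DFunLike.congr_fun h x.1) rfl

theorem tra_loc {α β : Type} (f : Matrix α β (ZM (GN G))) :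
    (f.map (mdh (traN φ))).map (loc G') = (f.map (loc G)).map (mdh (traZ φ)) := by
  have h1 : (f.map (mdh (traN φ))).map (loc G') = f.map (mdh ((hLoc G').comp (traN φ))) :=
    tra_map_map _ _ _
  have h2 : (f.map (loc G)).map (mdh (traZ φ)) = f.map (mdh ((traZ φ).comp (hLoc G))) :=
    tra_map_map _ _ _
  rw [h1, h2]
  rfl

end

section

variable {Γ : Type} [Group Γ] {D : Type} [DecidableEq D] {V : D → Type} [∀ i, MulAction Γ (V i)]
  {T : ∀ i, SimpleGraph (V i)} (h : ∀ i, TreeAct Γ (V i) (T i)) {G G' : Type} [Group G] [Group G']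
  {π : G →* Γ} {π' : G' →* Γ}

theorem tra_SpC (φ : G ≃* G') (hφ : ∀ g, π' (φ g) = π g) (U : Finset D) (hS : SpC h π U) :
    SpC h π' U := by
  intro K e hK hc he hn
  have h1 : ∀ m, π (φ.symm.toMonoidHom m) = π' m := fun m => by
    rw [← hφ]
    exact congrArg π' (φ.apply_symm_apply m)
  have h2 : ∀ m, π' (φ.toMonoidHom m) = π m := hφ
  have h3 : φ.toMonoidHom.comp φ.symm.toMonoidHom = MonoidHom.id G' :=
    MonoidHom.ext fun x => φ.apply_symm_apply x
  obtain ⟨M, hM, hMc, hi⟩ := hS (K.map (mdh φ.symm.toMonoidHom)) (e.map (mdh φ.symm.toMonoidHom))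
    (hK.map h1) hc (he.map h1) fun i hi => (hn i hi).map h1
  refine ⟨M.map (mdh φ.toMonoidHom), hM.map h2, hMc, ?_⟩
  have h4 := hi.map h2
  rw [map_one'] at h4
  exact tra_iso_left K _ _ e _ (tra_map_inv _ _ h3 _) (tra_map_inv _ _ h3 _) h4

theorem tra_LtC (φ : G ≃* G') (hφ : ∀ g, π' (φ g) = π g) (U : Finset D) (hS : LtC h π U) :
    LtC h π' U := by
  intro M hM hc hn
  have h1 : ∀ m, pZ π (traZ φ.symm.toMonoidHom m) = pZ π' m := fun m => by
    change π (φ.symm m.1) = π' m.1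
    rw [← hφ, φ.apply_symm_apply]
  have h2 : ∀ m, pZ π' (traZ φ.toMonoidHom m) = pZ π m := fun m => hφ m.1
  have h2' : ∀ m, pN π' (traN φ.toMonoidHom m) = pN π m := fun m => hφ m.1
  have h3 : (traZ φ.toMonoidHom).comp (traZ φ.symm.toMonoidHom) = MonoidHom.id (GZ G') :=
    traZ_inv _ _ (MonoidHom.ext fun x => φ.apply_symm_apply x)
  obtain ⟨M₁, hM₁, hMc, hcn, hi⟩ := hS (M.map (mdh (traZ φ.symm.toMonoidHom))) (hM.map h1) hc
    fun i hi => (hn i hi).map h1
  refine ⟨M₁.map (mdh (traN φ.toMonoidHom)), hM₁.map h2', hMc, fun i hi => (hcn i hi).map h2', ?_⟩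
  have h4 := hi.map h2
  rw [map_one', map_one'] at h4
  refine tra_iso_left ((M₁.map (mdh (traN φ.toMonoidHom))).map (loc G')) _ 1 1 M
    (tra_loc φ.toMonoidHom M₁.d).symm rfl ?_
  exact tra_iso_right _ M _ (tra_map_inv _ _ h3 _) h4

end

/-- Module Tra. -/
theorem stTra : StTra := by
  intro Γ _ D _ V _ T h G G' _ _ π π' φ hφ U
  refine ⟨tra_SpC h φ hφ U, tra_LtC h φ hφ U, fun hL m => ?_⟩
  have h1 : ∀ g : G × ZN m, (π'.comp (MonoidHom.fst G' (ZN m)))
      ((φ.prodCongr (MulEquiv.refl (ZN m))) g) = (π.comp (MonoidHom.fst G (ZN m))) g :=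
    fun g => hφ g.1
  exact ⟨tra_SpC h _ h1 U (hL m).1, tra_LtC h _ h1 U (hL m).2⟩

end Pool.Agent.Lib.MP_551055_al.W17
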