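import Mathlib
import Pool.Agent.Lib.MP_551055_al.Trim.RI.Stmts
import Pool.Agent.Lib.MP_551055_al.Trim.T6.Nil
import Pool.Agent.Lib.MP_551055_al.Trim.W17.FT
import Pool.Agent.Lib.MP_551055_al.Trim.W17.Peel
import Pool.Agent.Lib.MP_551055_al.Trim.W17.StF

/-!
# Trees and products: the classes with long segments
-/

set_option autoImplicit false

namespace Pool.Agent.Lib.MP_551055_al
end Pool.Agent.Lib.MP_551055_al

namespace Pool.Agent.Lib.MP_551055_al.LS
end Pool.Agent.Lib.MP_551055_al.LS

namespace Pool.Agent.Lib.MP_551055_al.RI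
end Pool.Agent.Lib.MP_551055_al.RI

namespace Pool.Agent.Lib.MP_551055_al.W17

open Pool.Agent.Lib.MP_551055_al

open Pool.Agent.Lib.MP_551055_al.LS

open Pool.Agent.Lib.MP_551055_al.RI (BTree StFinalH)

/-! ## Theorem T for families of trees -/

theorem StT.fam (hT : StT) {G : Type} [Group G] {J : Type} [Finite J] (σ : J → BTree G)
    (h1 : ∀ v w : ∀ j, (σ j).V, IsC σ v w → SF (stP σ v w))
    (h2 : ∀ v w : ∀ j, (σ j).V, IsC σ v w → (∃ j, v j ≠ w j) → T6.StLPS (stP σ v w)) : SF G := by
  have e : ∀ v w : ∀ j, (σ j).V, stP σ v w = MulAction.stabilizer G (v, w) := by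
    intro v w
    ext x
    rw [MulAction.mem_stabilizer_iff, Prod.ext_iff, mem_stP]
    constructor
    · exact fun h => ⟨funext fun j => (h j).1, funext fun j => (h j).2⟩
    · exact fun h j => ⟨congrFun h.1 j, congrFun h.2 j⟩
  refine hT G J (fun j => (σ j).V) (fun j => (σ j).T) (fun j => (σ j).tree) (fun v w hvw => ?_)
    fun v w hvw hne => ?_
  · rw [← e]
    exact h1 v w hvw
  · rw [← e]
    exact h2 v w hvw hne

/-! ## The classes -/

section

end

end Pool.Agent.Lib.MP_551055_al.W17
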